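import Mathlib

/-!
# Squad SD (MP_32d448_al): superexponential Dehn functions in 3-dimensional CAT(0) groups

General definitions: areas, Dehn functions, VH data (one-vertex square complexes),
the square Rips gadget, Fox derivations, modules of type FP_n, permutation modules.
-/

set_option autoImplicit false

namespace Pool.Agent.SD

/-! ## 1. Areas and Dehn functions -/

/-- `w` is a product of at most `n` conjugates of elements of `R` and of their inverses. -/
def ProdConj {α : Type} (R : Set (FreeGroup α)) (n : ℕ) (w : FreeGroup α) : Prop :=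
  ∃ L : List (FreeGroup α × FreeGroup α), L.length ≤ n ∧
    (∀ p ∈ L, p.2 ∈ R ∨ p.2⁻¹ ∈ R) ∧ (L.map fun p => p.1 * p.2 * p.1⁻¹).prod = w

/-- The area of a word: the least number of conjugates of relators (and inverses) whose product
is `w` (for `w` in the normal closure of `R`). -/
noncomputable def area {α : Type} (R : Set (FreeGroup α)) (w : FreeGroup α) : ℕ :=
  sInf {n | ProdConj R n w}

/-- The Dehn function of the presentation with generators `Fin n` and relators `R`. -/
noncomputable def dehn {n : ℕ} (R : Set (FreeGroup (Fin n))) (k : ℕ) : ℕ :=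
  sSup {m | ∃ w ∈ Subgroup.normalClosure R, w.toWord.length ≤ k ∧ area R w = m}

/-! ## 2. VH data -/

/-- Combinatorial data of a one-vertex square complex with horizontal letters `H`, vertical letters
`V` and squares `S`, the square `s` carrying the relation `h v = v' h'`.  The four injectivity
conditions say that its link has no double edge (it is bipartite, so there are no triangles:
the complex is nonpositively curved). -/
structure VHData (H V S : Type) where
  h : S → H
  v : S → V
  v' : S → V
  h' : S → H
  inj_hv : Function.Injective fun s => (h s, v s)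
  inj_hv' : Function.Injective fun s => (h s, v' s)
  inj_h'v : Function.Injective fun s => (h' s, v s)
  inj_h'v' : Function.Injective fun s => (h' s, v' s)

section VH
variable {H V S : Type}

/-- The generator given by a horizontal letter. -/
def gH (a : H) : FreeGroup (H ⊕ V) := FreeGroup.of (Sum.inl a)
/-- The generator given by a vertical letter. -/
def gV (b : V) : FreeGroup (H ⊕ V) := FreeGroup.of (Sum.inr b)

/-- The boundary word `h v h'⁻¹ v'⁻¹` of a square. -/
def VHData.word (D : VHData H V S) (s : S) : FreeGroup (H ⊕ V) :=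
  gH (D.h s) * gV (D.v s) * (gH (D.h' s))⁻¹ * (gV (D.v' s))⁻¹

/-- The fundamental group of the one-vertex square complex. -/
abbrev VHData.Grp (D : VHData H V S) : Type := PresentedGroup (Set.range D.word)

/-- The normal closure of the square words. -/
def VHData.N (D : VHData H V S) : Subgroup (FreeGroup (H ⊕ V)) :=
  Subgroup.normalClosure (Set.range D.word)

end VH

/-! ## 3. Presentations by squares and triangles, and the Rips gadget -/

/-- A presentation with relators `x y = z w` (index `i : I`) and `x y = z` (index `j : J`),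
with the corner conditions needed by the gadget. -/
structure SqPres (X I J : Type) where
  sx : I → X
  sy : I → X
  sz : I → X
  sw : I → X
  tx : J → X
  ty : J → X
  tz : J → X
  cxy : Function.Injective
    (Sum.elim (fun i => (sx i, sy i)) (fun j => (tx j, ty j)) : I ⊕ J → X × X)
  cxz : Function.Injective
    (Sum.elim (fun i => (sx i, sz i)) (fun j => (tx j, tz j)) : I ⊕ J → X × X)
  cwy : Function.Injective fun i => (sw i, sy i)
  cwz : Function.Injective fun i => (sw i, sz i)
  zx : ∀ i, sz i ≠ sx i
  wy : ∀ i, sw i ≠ sy i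
  zx' : ∀ j, tz j ≠ tx j

section Gadget
variable {X I J : Type}

/-- The relators of a square presentation. -/
def SqPres.rel (P : SqPres X I J) : I ⊕ J → FreeGroup X
  | Sum.inl i => FreeGroup.of (P.sx i) * FreeGroup.of (P.sy i) * (FreeGroup.of (P.sw i))⁻¹ *
      (FreeGroup.of (P.sz i))⁻¹
  | Sum.inr j => FreeGroup.of (P.tx j) * FreeGroup.of (P.ty j) * (FreeGroup.of (P.tz j))⁻¹

/-- Horizontal letters of the gadget. -/
inductive HL (X J : Type) : Type
  | a0 : HL X J
  | a (x : X) : HL X J
  | f (k : X ⊕ J) : HL X J
  | h (x : X) : HL X J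
  deriving DecidableEq

/-- Vertical letters of the gadget. -/
inductive VL (X J : Type) : Type
  | v0 : VL X J
  | v (k : X ⊕ J) : VL X J
  | e (x : X) : VL X J
  | y (x : X) : VL X J
  deriving DecidableEq

/-- Squares of the gadget. -/
inductive SL (X I J : Type) : Type
  | c1 (x : X) : SL X I J
  | c1' (x : X) (k : X ⊕ J) : SL X I J
  | c2 (x : X) : SL X I J
  | c2' (x k : X) : SL X I J
  | g (x : X) : SL X I J
  | d (x : X) : SL X I J
  | E (x : X) : SL X I J
  | F (k : X ⊕ J) : SL X I J
  | rs (i : I) : SL X I J
  | rt (j : J) : SL X I J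
  deriving DecidableEq

open SL in
/-- first horizontal letter of a square -/
def SqPres.gh (P : SqPres X I J) : SL X I J → HL X J
  | c1 x => .h x
  | c1' x _ => .h x
  | c2 _ => .a0
  | c2' _ k => .a k
  | g x => .h x
  | d x => .f (Sum.inl x)
  | E x => .a x
  | F _ => .a0
  | rs i => .h (P.sx i)
  | rt j => .h (P.tx j)

open SL in
/-- first vertical letter of a square (after `h`) -/
def SqPres.gv (P : SqPres X I J) : SL X I J → VL X J
  | c1 _ => .v0
  | c1' _ k => .v k
  | c2 x => .y x
  | c2' x _ => .y x
  | g x => .e x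
  | d x => .y x
  | E x => .e x
  | F k => .v k
  | rs i => .y (P.sy i)
  | rt j => .y (P.ty j)

open SL in
/-- the other vertical letter -/
def SqPres.gv' (P : SqPres X I J) : SL X I J → VL X J
  | c1 _ => .v0
  | c1' _ k => .v k
  | c2 x => .y x
  | c2' x _ => .y x
  | g x => .y x
  | d x => .e x
  | E _ => .v0
  | F k => .v k
  | rs i => .y (P.sz i)
  | rt j => .y (P.tz j)

open SL in
/-- the other horizontal letter -/
def SqPres.gh' (P : SqPres X I J) : SL X I J → HL X J
  | c1 x => .h x
  | c1' x _ => .h x
  | c2 _ => .a0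
  | c2' _ k => .a k
  | g x => .f (Sum.inl x)
  | d x => .h x
  | E x => .a x
  | F k => .f k
  | rs i => .h (P.sw i)
  | rt j => .f (Sum.inr j)

theorem SqPres.cxy_sq (P : SqPres X I J) {i i' : I} (h1 : P.sx i = P.sx i')
    (h2 : P.sy i = P.sy i') : i = i' := by
  have := P.cxy (a₁ := (Sum.inl i)) (a₂ := (Sum.inl i')) (by simp [h1, h2]); simpa using this
theorem SqPres.cxy_tri (P : SqPres X I J) {i i' : J} (h1 : P.tx i = P.tx i')
    (h2 : P.ty i = P.ty i') : i = i' := by
  have := P.cxy (a₁ := (Sum.inr i)) (a₂ := (Sum.inr i')) (by simp [h1, h2]); simpa using this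
theorem SqPres.cxy_mix (P : SqPres X I J) {i : I} {j : J} (h1 : P.sx i = P.tx j)
    (h2 : P.sy i = P.ty j) : False := by
  have := P.cxy (a₁ := (Sum.inl i)) (a₂ := (Sum.inr j)) (by simp [h1, h2]); simp at this
theorem SqPres.cxz_sq (P : SqPres X I J) {i i' : I} (h1 : P.sx i = P.sx i')
    (h2 : P.sz i = P.sz i') : i = i' := by
  have := P.cxz (a₁ := (Sum.inl i)) (a₂ := (Sum.inl i')) (by simp [h1, h2]); simpa using this
theorem SqPres.cxz_tri (P : SqPres X I J) {i i' : J} (h1 : P.tx i = P.tx i')
    (h2 : P.tz i = P.tz i') : i = i' := by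
  have := P.cxz (a₁ := (Sum.inr i)) (a₂ := (Sum.inr i')) (by simp [h1, h2]); simpa using this
theorem SqPres.cxz_mix (P : SqPres X I J) {i : I} {j : J} (h1 : P.sx i = P.tx j)
    (h2 : P.sz i = P.tz j) : False := by
  have := P.cxz (a₁ := (Sum.inl i)) (a₂ := (Sum.inr j)) (by simp [h1, h2]); simp at this

/-- The one-vertex square complex of the Rips gadget. -/
def SqPres.gad (P : SqPres X I J) : VHData (HL X J) (VL X J) (SL X I J) where
  h := P.gh
  v := P.gv
  v' := P.gv'
  h' := P.gh'
  inj_hv := by
    intro s s' hs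
    cases s <;> cases s' <;> simp_all [SqPres.gh, SqPres.gv]
    · exact P.cxy_sq hs.1 hs.2
    · exact (P.cxy_mix hs.1 hs.2).elim
    · exact (P.cxy_mix hs.1.symm hs.2.symm).elim
    · exact P.cxy_tri hs.1 hs.2
  inj_hv' := by
    intro s s' hs
    cases s <;> cases s' <;> simp_all [SqPres.gh, SqPres.gv']
    · exact P.zx _ (hs.2.symm.trans hs.1)
    · exact P.zx' _ (hs.2.symm.trans hs.1)
    · exact P.zx _ (hs.2.trans hs.1.symm)
    · exact P.cxz_sq hs.1 hs.2
    · exact (P.cxz_mix hs.1 hs.2).elim
    · exact P.zx' _ (hs.2.trans hs.1.symm)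
    · exact (P.cxz_mix hs.1.symm hs.2.symm).elim
    · exact P.cxz_tri hs.1 hs.2
  inj_h'v := by
    intro s s' hs
    cases s <;> cases s' <;> simp_all [SqPres.gh', SqPres.gv]
    · exact P.wy _ (hs.1.symm.trans hs.2)
    · exact P.wy _ (hs.1.trans hs.2.symm)
    · exact P.cwy (by simp [hs.1, hs.2])
  inj_h'v' := by
    intro s s' hs
    cases s <;> cases s' <;> simp_all [SqPres.gh', SqPres.gv']
    · exact P.cwz (by simp [hs.1, hs.2])

/-- The label of a letter of the gadget. -/
def labL : HL X J ⊕ VL X J → FreeGroup X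
  | Sum.inl (.h x) => FreeGroup.of x
  | Sum.inr (.y x) => FreeGroup.of x
  | _ => 1

/-- The label of a word. -/
def lab : FreeGroup (HL X J ⊕ VL X J) →* FreeGroup X := FreeGroup.lift labL

/-- The core letters `a0, a x, v0, v k`. -/
def IsCore : HL X J ⊕ VL X J → Prop
  | Sum.inl .a0 => True
  | Sum.inl (.a _) => True
  | Sum.inr .v0 => True
  | Sum.inr (.v _) => True
  | _ => False

/-- The squares whose labels are trivial (all but the relator squares). -/
def SL.IsTriv : SL X I J → Prop
  | .rs _ => False
  | .rt _ => False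
  | _ => True

/-- The relator squares. -/
def SL.ofRel : I ⊕ J → SL X I J
  | Sum.inl i => .rs i
  | Sum.inr j => .rt j

/-- The map `y ↦ (y, lab y)` from the free group on the letters of the gadget to
`Γ₁ × F(X)`; its range is the fibre product (the finitely presented subgroup). -/
def SqPres.Theta (P : SqPres X I J) :
    FreeGroup (HL X J ⊕ VL X J) →* P.gad.Grp × FreeGroup X :=
  (PresentedGroup.mk (Set.range P.gad.word)).prod lab

/-- Letters whose label is not `τ`. -/
def NonTau (τ : X) (y : HL X J ⊕ VL X J) : Prop :=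
  y ≠ Sum.inl (.h τ) ∧ y ≠ Sum.inr (.y τ)

/-- The subgroup generated by the conjugates of square words by words without letters of
label `τ`. -/
def SqPres.DD (P : SqPres X I J) (τ : X) : Subgroup (FreeGroup (HL X J ⊕ VL X J)) :=
  Subgroup.closure {w | ∃ u ∈ Subgroup.closure (FreeGroup.of '' {y | NonTau τ y}),
    ∃ s, w = u * P.gad.word s * u⁻¹}

end Gadget

/-! ## 4. Fox derivations and relation modules -/

section Fox

/-- `D` is the Fox derivation `F(X) → ℤ[R]^X` associated with `π : F(X) → R`. -/
def IsFox {X R : Type} [Group R] [DecidableEq X] (π : FreeGroup X →* R)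
    (D : FreeGroup X → X → MonoidAlgebra ℤ R) : Prop :=
  (∀ u v x, D (u * v) x = D u x + MonoidAlgebra.of ℤ R (π u) * D v x) ∧
    ∀ x y, D (FreeGroup.of x) y = if x = y then 1 else 0

/-- The second homotopy module of the presentation, seen as the kernel of the Jacobian
`ℤ[R]^K → ℤ[R]^X`, is a finitely generated left `ℤ[R]`-module. -/
def KFG {X R K : Type} [Group R] [DecidableEq X] [Fintype K] (π : FreeGroup X →* R)
    (rel : K → FreeGroup X) : Prop :=
  ∀ D, IsFox π D → ∃ T : Finset (K → MonoidAlgebra ℤ R),
    {c : K → MonoidAlgebra ℤ R | ∀ x, ∑ k, c k * D (rel k) x = 0} =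
      (Submodule.span (MonoidAlgebra ℤ R) (T : Set (K → MonoidAlgebra ℤ R)) :
        Set (K → MonoidAlgebra ℤ R))

end Fox

/-! ## 5. Modules of type FP_n, permutation modules -/

/-- `M` is of type `FP_n` over `A`. -/
def FP (A : Type) [Ring A] : ℕ → (M : Type) → [AddCommGroup M] → [Module A M] → Prop
  | 0, M, _, _ => Module.Finite A M
  | n + 1, M, _, _ => ∃ (k : ℕ) (f : (Fin k → A) →ₗ[A] M), Function.Surjective f ∧
      FP A n (LinearMap.ker f)

/-- The permutation module `ℤ[R/B]` of a subgroup `B` of `R`. -/
abbrev PM {R : Type} [Group R] (B : Subgroup R) : Type :=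
  (Representation.ofMulAction ℤ R (R ⧸ B)).asModule

/-- `B` is of type `FP_n` (in terms of the permutation module of the big group `R`). -/
def FPs {R : Type} [Group R] (n : ℕ) (B : Subgroup R) : Prop :=
  FP (MonoidAlgebra ℤ R) n (PM B)

end Pool.Agent.SD
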