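import Mathlib
import Pool.Agent.SD.Defs

/-!
# Squad SD: the concrete groups

`K1` free on `ℤ × Bool`, `Q = F(t1,t2) ⋊ ℤ`, `G2 = K1 ⋊ Q`, `EE = F(u1,u2,z) ⋊ ℤ`,
`TT = G2 × EE`, `AA` the image of `K1 ⋊ EE` in `TT`, `RC` the HNN extension of `TT` along the
identity of `AA`, and the square presentation `P0` of `RC`.
-/

set_option autoImplicit false

namespace Pool.Agent.SD

open Multiplicative

/-- The 16 labels. -/
inductive Lab : Type
  | a | b | d | t1 | t2 | f | r | u1 | u2 | g | si | z | ta | w1 | w2 | s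
  deriving DecidableEq

open Lab in
instance : Fintype Lab :=
  ⟨{a, b, d, t1, t2, f, r, u1, u2, g, si, z, ta, w1, w2, s}, by intro x; cases x <;> decide⟩

open Lab in
/-- The 35 square relators `x y = z w`. -/
def sqL : List (Lab × Lab × Lab × Lab) :=
  [ (t1, a, d, t1), (t1, b, a, t1), (t2, a, d, t2), (t2, b, a, t2),
    (r, t1, f, r), (r, t2, t1, r),
    (si, u1, g, si), (si, u2, u1, si), (si, z, z, si),
    (a, u1, u1, a), (a, u2, u2, a), (a, si, si, a), (a, z, z, a),
    (b, u1, u1, b), (b, u2, u2, b), (b, si, si, b), (b, z, z, b),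
    (t1, u1, u1, t1), (t1, u2, u2, t1), (t1, si, si, t1), (t1, z, z, t1),
    (t2, u1, u1, t2), (t2, u2, u2, t2), (t2, si, si, t2), (t2, z, z, t2),
    (r, u1, u1, r), (r, u2, u2, r), (r, si, si, r), (r, z, z, r),
    (ta, a, a, ta), (ta, b, b, ta), (ta, w1, w1, ta), (ta, w2, w2, ta), (ta, s, s, ta),
    (ta, z, z, ta) ]

open Lab in
/-- The 6 triangle relators `x y = z`. -/
def trL : List (Lab × Lab × Lab) :=
  [ (a, b, d), (t1, t2, f), (u1, u2, g), (u1, t1, w1), (u2, t2, w2), (si, r, s) ]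

/-- The square presentation. -/
def P0 : SqPres Lab (Fin 35) (Fin 6) where
  sx i := (sqL.get i).1
  sy i := (sqL.get i).2.1
  sz i := (sqL.get i).2.2.1
  sw i := (sqL.get i).2.2.2
  tx j := (trL.get j).1
  ty j := (trL.get j).2.1
  tz j := (trL.get j).2.2
  cxy := by decide +kernel
  cxz := by decide +kernel
  cwy := by decide +kernel
  cwz := by decide +kernel
  zx := by decide +kernel
  wy := by decide +kernel
  zx' := by decide +kernel

/-! ## The Fibonacci automorphism -/

/-- `x ↦ x y`, `y ↦ x` (with `x = true`, `y = false`). -/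
def phiF : FreeGroup Bool →* FreeGroup Bool :=
  FreeGroup.lift fun c => if c then FreeGroup.of true * FreeGroup.of false else FreeGroup.of true

/-- `x ↦ y`, `y ↦ y⁻¹ x`. -/
def phiG : FreeGroup Bool →* FreeGroup Bool :=
  FreeGroup.lift fun c => if c then FreeGroup.of false
    else (FreeGroup.of false)⁻¹ * FreeGroup.of true

/-- The Fibonacci automorphism `x ↦ x y`, `y ↦ x` of the free group on `x = true`, `y = false`. -/
def phi : MulAut (FreeGroup Bool) :=
  MonoidHom.toMulEquiv phiF phiG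
    (by ext c; cases c <;> simp [phiF, phiG])
    (by ext c; cases c <;> simp [phiF, phiG])

@[simp] theorem phi_true : phi (FreeGroup.of true) = FreeGroup.of true * FreeGroup.of false := by
  simp [phi, phiF]
@[simp] theorem phi_false : phi (FreeGroup.of false) = FreeGroup.of true := by
  simp [phi, phiF]

/-! ## `K1` and the action of `Q` -/

/-- The free group on `a_i = (i, true)`, `b_i = (i, false)`. -/
abbrev K1 : Type := FreeGroup (ℤ × Bool)

/-- The embedding of the free group of rank 2 as `N_i = ⟨a_i, b_i⟩`. -/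
def emb (i : ℤ) : FreeGroup Bool →* K1 := FreeGroup.map fun c => (i, c)

/-- The endomorphism acting as `phi ^ κ i` on `N_i`. -/
def PhiF (κ : ℤ → ℤ) : K1 →* K1 :=
  FreeGroup.lift fun p => emb p.1 ((phi ^ κ p.1) (FreeGroup.of p.2))

theorem PhiF_emb (κ : ℤ → ℤ) (i : ℤ) (x : FreeGroup Bool) :
    PhiF κ (emb i x) = emb i ((phi ^ κ i) x) := by
  have : (PhiF κ).comp (emb i) = (emb i).comp (phi ^ κ i).toMonoidHom := by
    ext c; simp [PhiF, emb]
  exact DFunLike.congr_fun this x

theorem PhiF_comp (κ κ' : ℤ → ℤ) : (PhiF κ).comp (PhiF κ') = PhiF (κ + κ') := by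
  ext p
  have h1 : PhiF κ' (FreeGroup.of p) = emb p.1 ((phi ^ κ' p.1) (FreeGroup.of p.2)) := by
    simp [PhiF]
  have h2 : PhiF (κ + κ') (FreeGroup.of p) =
      emb p.1 ((phi ^ (κ + κ') p.1) (FreeGroup.of p.2)) := by
    simp [PhiF]
  rw [MonoidHom.comp_apply, h1, h2, PhiF_emb, Pi.add_apply, zpow_add]
  rfl

theorem PhiF_zero : PhiF 0 = MonoidHom.id _ := by
  ext p; simp [PhiF, emb]

/-- The automorphism acting as `phi ^ κ i` on `N_i`, as a homomorphism in `κ`. -/
def Phi : Multiplicative (ℤ → ℤ) →* MulAut K1 where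
  toFun κ := MonoidHom.toMulEquiv (PhiF (toAdd κ)) (PhiF (-(toAdd κ)))
    (by rw [PhiF_comp, neg_add_cancel, PhiF_zero]) (by rw [PhiF_comp, add_neg_cancel, PhiF_zero])
  map_one' := by
    ext x
    change PhiF 0 x = x
    rw [PhiF_zero]; rfl
  map_mul' κ κ' := by
    ext x
    change PhiF (toAdd κ + toAdd κ') x = PhiF (toAdd κ) (PhiF (toAdd κ') x)
    rw [← PhiF_comp]; rfl

theorem Phi_emb (κ : Multiplicative (ℤ → ℤ)) (i : ℤ) (x : FreeGroup Bool) :
    Phi κ (emb i x) = emb i ((phi ^ (toAdd κ) i) x) := PhiF_emb _ _ _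

/-- The exponent sum. -/
def eps : FreeGroup Bool →* Multiplicative ℤ := FreeGroup.lift fun _ => ofAdd 1

/-- `kap t i = eps (phi ^ (-i) t)`. -/
def kap : FreeGroup Bool →* Multiplicative (ℤ → ℤ) where
  toFun t := ofAdd fun i => toAdd (eps ((phi ^ (-i)) t))
  map_one' := by ext i; simp
  map_mul' x y := by
    ext i
    simp

/-- The shift `a_i ↦ a_{i+1}`, `b_i ↦ b_{i+1}`. -/
def sh : MulAut K1 :=
  FreeGroup.freeGroupCongr (Equiv.prodCongr (Equiv.addRight (1 : ℤ)) (Equiv.refl Bool))

theorem sh_emb (i : ℤ) (x : FreeGroup Bool) : sh (emb i x) = emb (i + 1) x := by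
  have : sh.toMonoidHom.comp (emb i) = emb (i + 1) := by
    ext c; simp [sh, emb]
  exact DFunLike.congr_fun this x

theorem sh_zpow_emb (n i : ℤ) (x : FreeGroup Bool) : (sh ^ n) (emb i x) = emb (i + n) x := by
  induction n using Int.induction_on generalizing i with
  | zero => simp
  | succ n ih =>
    rw [zpow_add_one, MulAut.mul_apply, sh_emb, ih]; congr 2; ring
  | pred n ih =>
    have h : (sh⁻¹ : MulAut K1) (emb i x) = emb (i - 1) x := by
      apply sh.injective
      rw [MulAut.apply_inv_self, sh_emb, sub_add_cancel]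
    rw [zpow_sub_one, MulAut.mul_apply, h, ih]; congr 2; ring

/-- `Q = F(t1, t2) ⋊ ⟨r⟩`. -/
abbrev Q : Type := FreeGroup Bool ⋊[zpowersHom _ phi] Multiplicative ℤ

theorem of_eq_emb (p : ℤ × Bool) : (FreeGroup.of p : K1) = emb p.1 (FreeGroup.of p.2) := by
  simp [emb]

theorem actQ_compat (g : Multiplicative ℤ) :
    (Phi.comp kap).comp ((zpowersHom _ phi) g).toMonoidHom =
      (MulAut.conj (zpowersHom _ sh g)).toMonoidHom.comp (Phi.comp kap) := by
  refine MonoidHom.ext fun t => ?_
  refine MulEquiv.ext fun k => ?_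
  revert k
  have key : ((Phi (kap ((phi ^ (toAdd g)) t))).toMonoidHom : K1 →* K1) =
      ((sh ^ (toAdd g)) * Phi (kap t) * (sh ^ (toAdd g))⁻¹).toMonoidHom := by
    refine FreeGroup.ext_hom _ _ fun p => ?_
    rw [of_eq_emb]
    change Phi (kap ((phi ^ (toAdd g)) t)) (emb p.1 (FreeGroup.of p.2)) =
      (sh ^ (toAdd g)) (Phi (kap t) (((sh ^ (toAdd g))⁻¹) (emb p.1 (FreeGroup.of p.2))))
    rw [← zpow_neg, sh_zpow_emb, Phi_emb, Phi_emb, sh_zpow_emb]
    have h1 : toAdd (kap ((phi ^ (toAdd g)) t)) p.1 = toAdd (kap t) (p.1 + -toAdd g) := by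
      change toAdd (eps ((phi ^ (-p.1)) ((phi ^ (toAdd g)) t))) =
        toAdd (eps ((phi ^ (-(p.1 + -toAdd g))) t))
      rw [← MulAut.mul_apply, ← zpow_add]
      congr 4; ring
    rw [h1]; congr 2; ring
  intro k
  exact DFunLike.congr_fun key k

/-- The action of `Q` on `K1`. -/
def actQ : Q →* MulAut K1 :=
  SemidirectProduct.lift (Phi.comp kap) (zpowersHom _ sh) actQ_compat

/-- `G2 = K1 ⋊ Q` -/
abbrev G2 : Type := K1 ⋊[actQ] Q

/-! ## `EE` -/

/-- The automorphism of `F(u1, u2, z)` acting as `ψ` on `⟨u1, u2⟩` and fixing `z`. -/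
def SigF (ψ : MulAut (FreeGroup Bool)) : FreeGroup (Option Bool) →* FreeGroup (Option Bool) :=
  FreeGroup.lift fun o => match o with
    | none => FreeGroup.of none
    | some c => FreeGroup.map some (ψ (FreeGroup.of c))

theorem SigF_map (ψ : MulAut (FreeGroup Bool)) (x : FreeGroup Bool) :
    SigF ψ (FreeGroup.map some x) = FreeGroup.map some (ψ x) := by
  have : (SigF ψ).comp (FreeGroup.map some) = (FreeGroup.map some).comp ψ.toMonoidHom := by
    ext c; simp [SigF]
  exact DFunLike.congr_fun this x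

theorem SigF_comp (ψ ψ' : MulAut (FreeGroup Bool)) :
    (SigF ψ).comp (SigF ψ') = SigF (ψ * ψ') := by
  ext o
  cases o with
  | none => simp [SigF]
  | some c =>
    have h1 : SigF ψ' (FreeGroup.of (some c)) = FreeGroup.map some (ψ' (FreeGroup.of c)) := by
      simp [SigF]
    rw [MonoidHom.comp_apply, h1, SigF_map]
    simp [SigF]

theorem SigF_one : SigF 1 = MonoidHom.id _ := by
  ext o; cases o <;> simp [SigF]

/-- `σ`: `u1 ↦ u1 u2`, `u2 ↦ u1`, `z ↦ z`. -/
def sig : MulAut (FreeGroup (Option Bool)) :=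
  MonoidHom.toMulEquiv (SigF phi) (SigF phi⁻¹)
    (by rw [SigF_comp, inv_mul_cancel, SigF_one]) (by rw [SigF_comp, mul_inv_cancel, SigF_one])

/-- `EE = F(u1, u2, z) ⋊ ⟨σ⟩`. -/
abbrev EE : Type := FreeGroup (Option Bool) ⋊[zpowersHom _ sig] Multiplicative ℤ

/-- `u_i ↦ t_i`, `z ↦ 1`. -/
def fD : FreeGroup (Option Bool) →* FreeGroup Bool :=
  FreeGroup.lift fun o => match o with
    | none => 1
    | some c => FreeGroup.of c

theorem fD_map (x : FreeGroup Bool) : fD (FreeGroup.map some x) = x := by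
  have : fD.comp (FreeGroup.map some) = MonoidHom.id _ := by
    ext c; simp [fD]
  exact DFunLike.congr_fun this x

theorem fD_sig (x : FreeGroup (Option Bool)) : fD (sig x) = phi (fD x) := by
  have : fD.comp sig.toMonoidHom = phi.toMonoidHom.comp fD := by
    ext o
    cases o with
    | none => simp [fD, sig, SigF]
    | some c =>
      change fD (SigF phi (FreeGroup.of (some c))) = phi (fD (FreeGroup.of (some c)))
      have h1 : SigF phi (FreeGroup.of (some c)) = FreeGroup.map some (phi (FreeGroup.of c)) := by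
        simp [SigF]
      rw [h1, fD_map]; simp [fD]
  exact DFunLike.congr_fun this x

theorem fD_sig_zpow (n : ℤ) (x : FreeGroup (Option Bool)) :
    fD ((sig ^ n) x) = (phi ^ n) (fD x) := by
  induction n using Int.induction_on generalizing x with
  | zero => simp
  | succ n ih => rw [zpow_add_one, MulAut.mul_apply, ih, fD_sig, zpow_add_one, MulAut.mul_apply]
  | pred n ih =>
    have h : fD ((sig⁻¹ : MulAut _) x) = (phi⁻¹ : MulAut _) (fD x) := by
      apply phi.injective
      rw [← fD_sig, MulAut.apply_inv_self, MulAut.apply_inv_self]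
    rw [zpow_sub_one, MulAut.mul_apply, ih, h, zpow_sub_one, MulAut.mul_apply]

/-- `f : EE → Q`, `u_i ↦ t_i`, `z ↦ 1`, `σ ↦ r`. -/
def fE : EE →* Q :=
  SemidirectProduct.map fD (MonoidHom.id _) (fun g => MonoidHom.ext fun x =>
    fD_sig_zpow (toAdd g) x)

/-! ## `TT`, `AA`, `RC` -/

/-- `TT = G2 × EE`. -/
abbrev TT : Type := G2 × EE

/-- `K1 ⋊ EE`, the abstract version of `A`. -/
abbrev A0 : Type := K1 ⋊[actQ.comp fE] EE

/-- The embedding `(k, h) ↦ (k f(h), h)` of `A0` in `TT`. -/
def iA : A0 →* TT :=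
  (SemidirectProduct.map (MonoidHom.id K1) fE (fun _ => rfl)).prod SemidirectProduct.rightHom

/-- The subgroup `A` of `T`. -/
def AA : Subgroup TT := iA.range

/-- The group `R`. -/
abbrev RC : Type := HNNExtension TT AA AA (MulEquiv.refl AA)

/-- elements of `TT` from `K1`, `Q`, `EE` -/
def kT : K1 →* TT := (MonoidHom.inl G2 EE).comp SemidirectProduct.inl
/-- elements of `TT` from `F(t1,t2)` -/
def tT : FreeGroup Bool →* TT :=
  (MonoidHom.inl G2 EE).comp (SemidirectProduct.inr.comp SemidirectProduct.inl)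
/-- the element `r` of `TT` -/
def rT : TT := (SemidirectProduct.inr (SemidirectProduct.inr (ofAdd 1)), 1)
/-- elements of `TT` from `F(u1,u2,z)` -/
def uT : FreeGroup (Option Bool) →* TT := (MonoidHom.inr G2 EE).comp SemidirectProduct.inl
/-- the element `σ` of `TT` -/
def sT : TT := (1, SemidirectProduct.inr (ofAdd 1))

/-- Images of the labels other than `τ` in `TT`; `τ ↦ 1`. -/
def labT : Lab → TT
  | .a => kT (FreeGroup.of (0, true))
  | .b => kT (FreeGroup.of (0, false))
  | .d => kT (FreeGroup.of (0, true)) * kT (FreeGroup.of (0, false))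
  | .t1 => tT (FreeGroup.of true)
  | .t2 => tT (FreeGroup.of false)
  | .f => tT (FreeGroup.of true) * tT (FreeGroup.of false)
  | .r => rT
  | .u1 => uT (FreeGroup.of (some true))
  | .u2 => uT (FreeGroup.of (some false))
  | .g => uT (FreeGroup.of (some true)) * uT (FreeGroup.of (some false))
  | .si => sT
  | .z => uT (FreeGroup.of none)
  | .ta => 1
  | .w1 => uT (FreeGroup.of (some true)) * tT (FreeGroup.of true)
  | .w2 => uT (FreeGroup.of (some false)) * tT (FreeGroup.of false)
  | .s => sT * rT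

/-- Images of the labels in `RC`. -/
def labR (x : Lab) : RC :=
  if x = Lab.ta then HNNExtension.t else HNNExtension.of (labT x)

/-- The projection `π : F(Lab) → RC`. -/
def piR : FreeGroup Lab →* RC := FreeGroup.lift labR

/-- The projection to `TT` killing `τ`. -/
def piT : FreeGroup Lab →* TT := FreeGroup.lift labT

/-- The normal closure of the relators. -/
def LL : Subgroup (FreeGroup Lab) := Subgroup.normalClosure (Set.range P0.rel)

/-- The word `ζ_m = (s^m w1 s^-m) a (s^m w1 s^-m)⁻¹`. -/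
def zetaW (m : ℕ) : FreeGroup Lab :=
  (FreeGroup.of Lab.s ^ m * FreeGroup.of Lab.w1 * (FreeGroup.of Lab.s ^ m)⁻¹) * FreeGroup.of Lab.a *
    (FreeGroup.of Lab.s ^ m * FreeGroup.of Lab.w1 * (FreeGroup.of Lab.s ^ m)⁻¹)⁻¹

/-- The word `γ_m = [z, ζ_m]`. -/
def gammaW (m : ℕ) : FreeGroup Lab :=
  FreeGroup.of Lab.z * zetaW m * (FreeGroup.of Lab.z)⁻¹ * (zetaW m)⁻¹

end Pool.Agent.SD
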