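import Mathlib
import Pool.Agent.SD.Defs

/-!
# Squad SD: oriented VH systems and their normal forms

`A` = oriented horizontal letters, `B` = oriented vertical letters, `rule a b = some (b', a')` is the
rewriting rule `a b → b' a'` given by a corner of a square.  Normal forms: reduced words to which no
rule applies.  `star x w` = normal form of `x w` for `w` in normal form.
-/

set_option autoImplicit false

namespace Pool.Agent.SD

/-- An oriented VH system. -/
structure Sys (A B : Type) where
  ia : A → A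
  ib : B → B
  ia_ia : ∀ a, ia (ia a) = a
  ib_ib : ∀ b, ib (ib b) = b
  ia_ne : ∀ a, ia a ≠ a
  ib_ne : ∀ b, ib b ≠ b
  rule : A → B → Option (B × A)
  sym1 : ∀ a b b' a', rule a b = some (b', a') → rule (ia a) b' = some (b, ia a')
  sym2 : ∀ a b b' a', rule a b = some (b', a') → rule a' (ib b) = some (ib b', a)

namespace Sys
variable {A B : Type} [DecidableEq A] [DecidableEq B] (σ : Sys A B)

/-- the inverse letter -/
def inv : A ⊕ B → A ⊕ B := Sum.map σ.ia σ.ib

/-- normal forms -/
def NF : List (A ⊕ B) → Prop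
  | [] => True
  | [_] => True
  | x :: y :: l => y ≠ σ.inv x ∧ (∀ a b, x = Sum.inl a → y = Sum.inr b → σ.rule a b = none) ∧
      NF (y :: l)

/-- cancel or prepend a vertical letter -/
def pushB (b : B) : List (A ⊕ B) → List (A ⊕ B)
  | Sum.inr c :: w => if c = σ.ib b then w else Sum.inr b :: Sum.inr c :: w
  | w => Sum.inr b :: w

/-- left multiplication by a horizontal letter -/
def starA : List (A ⊕ B) → A → List (A ⊕ B)
  | [], a => [Sum.inl a]
  | Sum.inl c :: w, a => if c = σ.ia a then w else Sum.inl a :: Sum.inl c :: w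
  | Sum.inr b :: w, a =>
    match σ.rule a b with
    | none => Sum.inl a :: Sum.inr b :: w
    | some (b', a') => σ.pushB b' (starA w a')

/-- left multiplication by a letter -/
def star : A ⊕ B → List (A ⊕ B) → List (A ⊕ B)
  | Sum.inl a, w => σ.starA w a
  | Sum.inr b, w => σ.pushB b w

end Sys

/-- NFS.  The basic facts on normal forms of oriented VH systems. -/
def Stmt_NFS : Prop :=
  ∀ (A B : Type) [DecidableEq A] [DecidableEq B] (σ : Sys A B),
    (∀ x w, σ.NF w → σ.NF (σ.star x w)) ∧
    (∀ x w, σ.NF w → σ.star (σ.inv x) (σ.star x w) = w) ∧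
    (∀ a b b' a' w, σ.rule a b = some (b', a') → σ.NF w →
      σ.star (Sum.inl a) (σ.star (Sum.inr b) w) = σ.star (Sum.inr b') (σ.star (Sum.inl a') w)) ∧
    (∀ x w, σ.NF w → (σ.star x w).length = w.length + 1 ∨ (σ.star x w).length + 1 = w.length) ∧
    (∀ x w, σ.NF (x :: w) → σ.star x w = x :: w) ∧
    (∀ a b b' a' w, σ.rule a b = some (b', a') → σ.NF (Sum.inr b :: w) →
      σ.star (Sum.inl a) (Sum.inr b :: w) = Sum.inr b' :: σ.star (Sum.inl a') w)

/-- SYS.  The oriented system of VH data: `A = H × Bool`, `B = V × Bool` (`true` = positive). -/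
def Stmt_Sys : Prop :=
  ∀ (H V S : Type) (D : VHData H V S), ∃ σ : Sys (H × Bool) (V × Bool),
    (∀ a, σ.ia a = (a.1, !a.2)) ∧ (∀ b, σ.ib b = (b.1, !b.2)) ∧
    (∀ s, σ.rule (D.h s, true) (D.v s, true) = some ((D.v' s, true), (D.h' s, true))) ∧
    (∀ a b b' a', σ.rule a b = some (b', a') → ∃ s,
      (a = (D.h s, true) ∧ b = (D.v s, true) ∧ b' = (D.v' s, true) ∧ a' = (D.h' s, true)) ∨
      (a = (D.h s, false) ∧ b = (D.v' s, true) ∧ b' = (D.v s, true) ∧ a' = (D.h' s, false)) ∨
      (a = (D.h' s, true) ∧ b = (D.v s, false) ∧ b' = (D.v' s, false) ∧ a' = (D.h s, true)) ∨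
      (a = (D.h' s, false) ∧ b = (D.v' s, false) ∧ b' = (D.v s, false) ∧ a' = (D.h s, false)))

end Pool.Agent.SD
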