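import Mathlib
import Pool.Agent.SD.Defs
import Pool.Agent.SD.Sys
import Pool.Agent.SD.Grp

/-!
# Squad SD, wave 2: the CAT(0) space

See section 13 of /team-store/MP_32d448_PROOF.md.
-/

set_option autoImplicit false

namespace Pool.Agent.SD

/-! ## 1. Pseudometric functions, Stewart inequality, gluing -/

/-- `d` is a pseudometric. -/
structure IsPM {X : Type} (d : X → X → ℝ) : Prop where
  self : ∀ x, d x x = 0
  symm : ∀ x y, d x y = d y x
  tri : ∀ x y z, d x z ≤ d x y + d y z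

theorem IsPM.nonneg {X : Type} {d : X → X → ℝ} (h : IsPM d) (x y : X) : 0 ≤ d x y := by
  have := h.tri x y x; rw [h.self, h.symm y x] at this; linarith

/-- Stewart (in)equality: `z` sees the point `m` at fraction `t` between `x` and `y` at most at the
distance it would have in the plane. -/
def Stw {X : Type} (d : X → X → ℝ) (t : ℝ) (x y m z : X) : Prop :=
  d z m ^ 2 ≤ (1 - t) * d z x ^ 2 + t * d z y ^ 2 - t * (1 - t) * d x y ^ 2

/-- `K` is CAT(0) for the restriction of `d`. -/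
def CATon {X : Type} (d : X → X → ℝ) (K : Set X) : Prop :=
  ∀ x ∈ K, ∀ y ∈ K, ∀ t : ℝ, 0 ≤ t → t ≤ 1 → ∃ m ∈ K, ∀ z ∈ K, Stw d t x y m z

/-- `A` contains a point at fraction `t` between any two of its points. -/
def TClosed {X : Type} (d : X → X → ℝ) (A : Set X) : Prop :=
  ∀ x ∈ A, ∀ y ∈ A, ∀ t : ℝ, 0 ≤ t → t ≤ 1 →
    ∃ m ∈ A, d x m = t * d x y ∧ d m y = (1 - t) * d x y

/-- Bounded sequences in `A` have convergent subsequences (limit in `A`). -/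
def SeqProper {X : Type} (d : X → X → ℝ) (A : Set X) : Prop :=
  ∀ (x0 : X) (R : ℝ) (a : ℕ → X), (∀ n, a n ∈ A ∧ d x0 (a n) ≤ R) →
    ∃ b ∈ A, ∃ φ : ℕ → ℕ, StrictMono φ ∧
      Filter.Tendsto (fun n => d (a (φ n)) b) Filter.atTop (nhds 0)

/-- IG.  Internal gluing of two CAT(0) pieces along a geodesic intersection. -/
def Stmt_IG : Prop :=
  ∀ (X : Type) (d : X → X → ℝ), IsPM d → ∀ P Q : Set X,
    (∀ p ∈ P, ∀ q ∈ Q, ∃ a ∈ P ∩ Q, d p q = d p a + d a q) →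
    CATon d P → CATon d Q → TClosed d (P ∩ Q) → CATon d (P ∪ Q)

/-- TP.  Trees of CAT(0) pieces. -/
def Stmt_TP : Prop :=
  ∀ (X I : Type) (D : X → X → ℝ), IsPM D → ∀ (K : I → Set X) (par : I → I) (lev : I → ℕ) (root : I),
    lev root = 0 → (∀ i, lev i = 0 → i = root) → (∀ i, i ≠ root → lev (par i) + 1 = lev i) →
    (∀ x, ∃ i, x ∈ K i) →
    (∀ i j x, x ∈ K i → x ∈ K j → i ≠ j → lev j ≤ lev i → x ∈ K (par i)) →
    (∀ i, i ≠ root → (K i ∩ K (par i)).Nonempty) →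
    (∀ i, CATon D (K i)) →
    (∀ i, i ≠ root → TClosed D (K i ∩ K (par i)) ∧ SeqProper D (K i ∩ K (par i))) →
    ∃ d : X → X → ℝ, IsPM d ∧ (∀ x y, D x y ≤ d x y) ∧
      (∀ i, ∀ x ∈ K i, ∀ y ∈ K i, d x y = D x y) ∧ CATon d Set.univ ∧
      (∀ d' : X → X → ℝ, IsPM d' → (∀ i, ∀ x ∈ K i, ∀ y ∈ K i, d' x y ≤ D x y) →
        ∀ x y, d' x y ≤ d x y)

/-! ## 2. Integer trees and their realisations -/

/-- The vertex metric of a simplicial tree. -/
structure IsTreeM {U : Type} (n : U → U → ℕ) : Prop where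
  self : ∀ x, n x x = 0
  eq_of : ∀ x y, n x y = 0 → x = y
  symm : ∀ x y, n x y = n y x
  four : ∀ x y z w, n x y + n z w ≤ max (n x z + n y w) (n x w + n y z)
  step : ∀ x y, n x y ≠ 0 → ∃ z, n x z = 1 ∧ n z y + 1 = n x y
  par : ∀ x y z, n x y = 1 → n x z ≠ n y z

/-- A realisation of an integer tree. -/
structure IsReal {U : Type} (n : U → U → ℕ) (Y : Type) [MetricSpace Y] (ι : U → Y) : Prop where
  dist_ι : ∀ x y, dist (ι x) (ι y) = n x y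
  tp : ∀ p q : Y, ∀ t : ℝ, 0 ≤ t → t ≤ 1 → ∃ m : Y, ∀ z : Y,
    dist z m ≤ max (dist z p - t * dist p q) (dist z q - (1 - t) * dist p q)
  edge : ∀ p : Y, ∃ x y, n x y ≤ 1 ∧ dist (ι x) p + dist p (ι y) = n x y

/-- RT.  Integer trees with group action have realisations with isometric action. -/
def Stmt_RT : Prop :=
  ∀ (U G : Type) [Group G] [MulAction G U] (n : U → U → ℕ), IsTreeM n →
    (∀ (g : G) (x y : U), n (g • x) (g • y) = n x y) →
    ∃ (Y : Type) (_ : MetricSpace Y) (_ : MulAction G Y) (ι : U → Y), IsReal n Y ι ∧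
      (∀ (g : G) (p q : Y), dist (g • p) (g • q) = dist p q) ∧
      (∀ (g : G) (x : U), ι (g • x) = g • ι x)

/-- `W` is geodesically convex in the integer tree. -/
def GConv {U : Type} (n : U → U → ℕ) (W : Set U) : Prop :=
  ∀ x ∈ W, ∀ y ∈ W, ∀ z, n x z + n z y = n x y → z ∈ W

/-- The realisation of a set of vertices: the union of the vertices and edges it spans. -/
def hull {U : Type} (n : U → U → ℕ) {Y : Type} [MetricSpace Y] (ι : U → Y) (W : Set U) : Set Y :=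
  {p | ∃ x ∈ W, ∃ y ∈ W, n x y ≤ 1 ∧ dist (ι x) p + dist p (ι y) = n x y}

/-- HULL.  Hulls of convex sets of vertices. -/
def Stmt_Hull : Prop :=
  ∀ (U Y : Type) [MetricSpace Y] (n : U → U → ℕ) (ι : U → Y), IsTreeM n → IsReal n Y ι →
    (∀ W, GConv n W → TClosed (fun p q : Y => dist p q) (hull n ι W)) ∧
    (∀ W W', hull n ι (W ∩ W') = hull n ι W ∩ hull n ι W') ∧
    (∀ W x, ι x ∈ hull n ι W ↔ x ∈ W) ∧
    (∀ W, (∀ x ∈ W, ∀ R : ℕ, {y | y ∈ W ∧ n x y ≤ R}.Finite) →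
      SeqProper (fun p q : Y => dist p q) (hull n ι W)) ∧
    (∀ x y z w, n x y ≤ 1 → n z w ≤ 1 → ∀ p : Y, dist (ι x) p + dist p (ι y) = n x y →
      dist (ι z) p + dist p (ι w) = n z w →
      (∃ v, p = ι v ∧ (v = x ∨ v = y) ∧ (v = z ∨ v = w)) ∨ (x = z ∧ y = w) ∨ (x = w ∧ y = z))

/-! ## 3. CAT(0) spaces and groups -/

/-- CAT(0) in Stewart form. -/
def CATS (Z : Type) [MetricSpace Z] : Prop :=
  ∀ x y : Z, ∀ t : ℝ, 0 ≤ t → t ≤ 1 → ∃ m, ∀ z, Stw (fun p q : Z => dist p q) t x y m z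

/-- CAT(0) spaces, the textbook definition: geodesic, and geodesic triangles are not fatter than
their comparison triangles in the Euclidean plane. -/
def IsCAT0 (Z : Type) [MetricSpace Z] : Prop :=
  (∀ x y : Z, ∃ γ : ℝ → Z, γ 0 = x ∧ γ (dist x y) = y ∧
    ∀ s ∈ Set.Icc (0 : ℝ) (dist x y), ∀ t ∈ Set.Icc (0 : ℝ) (dist x y),
      dist (γ s) (γ t) = |s - t|) ∧
  (∀ p q r a b : Z, dist p a + dist a q = dist p q → dist p b + dist b r = dist p r →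
    ∀ p' q' r' a' b' : EuclideanSpace ℝ (Fin 2),
      dist p' q' = dist p q → dist q' r' = dist q r → dist p' r' = dist p r →
      dist p' a' = dist p a → dist a' q' = dist a q →
      dist p' b' = dist p b → dist b' r' = dist b r → dist a b ≤ dist a' b')

/-- CATEQ. -/
def Stmt_CATeq : Prop := ∀ (Z : Type) [MetricSpace Z], CATS Z → IsCAT0 Z

/-- Geometric actions: isometric, properly discontinuous, cocompact. -/
def GeoAct (G Z : Type) [Group G] [MetricSpace Z] [MulAction G Z] : Prop :=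
  (∀ (g : G) (x y : Z), dist (g • x) (g • y) = dist x y) ∧
  (∀ x : Z, ∃ r > 0, {g : G | ∃ y ∈ Metric.ball x r, g • y ∈ Metric.ball x r}.Finite) ∧
  (∃ K : Set Z, IsCompact K ∧ ∀ z : Z, ∃ g : G, g • z ∈ K)

/-- `G` acts geometrically on a space which is CAT(0) in Stewart form. -/
def CATGroup (G : Type) [Group G] : Prop :=
  ∃ (Z : Type) (_ : MetricSpace Z) (_ : MulAction G Z), Nonempty Z ∧ CATS Z ∧ GeoAct G Z

/-- CAT(0) groups. -/
def IsCAT0Group (G : Type) [Group G] : Prop :=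
  ∃ (Z : Type) (_ : MetricSpace Z) (_ : MulAction G Z), Nonempty Z ∧ IsCAT0 Z ∧ GeoAct G Z

/-- CPROD.  Products and isomorphisms. -/
def Stmt_CProd : Prop :=
  (∀ (G₁ G₂ : Type) [Group G₁] [Group G₂], CATGroup G₁ → CATGroup G₂ → CATGroup (G₁ × G₂)) ∧
  (∀ (G₁ G₂ : Type) [Group G₁] [Group G₂], (G₁ ≃* G₂) → CATGroup G₁ → CATGroup G₂)

/-! ## 4. Square complexes in products of trees -/

/-- A group acting on two integer trees `U₁`, `U₂` and a tree of subtrees `F u ⊆ U₂`, `u ∈ U₁`. -/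
structure STData (G : Type) [Group G] where
  U₁ : Type
  U₂ : Type
  [act₁ : MulAction G U₁]
  [act₂ : MulAction G U₂]
  o₁ : U₁
  n₁ : U₁ → U₁ → ℕ
  n₂ : U₂ → U₂ → ℕ
  tree₁ : IsTreeM n₁
  tree₂ : IsTreeM n₂
  inv₁ : ∀ (g : G) (x y : U₁), n₁ (g • x) (g • y) = n₁ x y
  inv₂ : ∀ (g : G) (x y : U₂), n₂ (g • x) (g • y) = n₂ x y
  F : U₁ → Set U₂
  F_smul : ∀ (g : G) u q, q ∈ F u → g • q ∈ F (g • u)
  F_ne : ∀ u, (F u).Nonempty
  F_conv : ∀ u, GConv n₂ (F u)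
  F_adj : ∀ u w, n₁ u w = 1 → (F u ∩ F w).Nonempty
  F_fin : ∀ u, ∀ q ∈ F u, ∀ R : ℕ, {q' | q' ∈ F u ∧ n₂ q q' ≤ R}.Finite
  U_fin : ∀ u, ∀ q ∈ F u, {w | n₁ u w ≤ 1 ∧ q ∈ F w}.Finite
  coc : ∃ E : Finset (U₁ × U₂), (∀ e ∈ E, e.2 ∈ F e.1) ∧
    ∀ u, ∀ q ∈ F u, ∃ g : G, (g • u, g • q) ∈ E
  prop : ∀ u, ∀ q ∈ F u, ∀ R : ℕ, {g : G | n₁ u (g • u) ≤ R ∧ n₂ q (g • q) ≤ R}.Finite

attribute [instance] STData.act₁ STData.act₂

/-- The `l²` product metric. -/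
noncomputable def DD2 {Y₁ Y₂ : Type} [MetricSpace Y₁] [MetricSpace Y₂] (p q : Y₁ × Y₂) : ℝ :=
  Real.sqrt (dist p.1 q.1 ^ 2 + dist p.2 q.2 ^ 2)

/-- The piece over the vertex (`u = w`) or edge (`n₁ u w = 1`) `[u, w]` of the first tree. -/
def STpiece {G : Type} [Group G] (σ : STData G) {Y₁ Y₂ : Type} [MetricSpace Y₁] [MetricSpace Y₂]
    (ι₁ : σ.U₁ → Y₁) (ι₂ : σ.U₂ → Y₂) (u w : σ.U₁) : Set (Y₁ × Y₂) :=
  {p | dist (ι₁ u) p.1 + dist p.1 (ι₁ w) = σ.n₁ u w ∧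
    p.2 ∈ hull σ.n₂ ι₂ (σ.F u) ∧ p.2 ∈ hull σ.n₂ ι₂ (σ.F w)}

/-- The square complex: the union of the pieces. -/
def STX {G : Type} [Group G] (σ : STData G) {Y₁ Y₂ : Type} [MetricSpace Y₁] [MetricSpace Y₂]
    (ι₁ : σ.U₁ → Y₁) (ι₂ : σ.U₂ → Y₂) : Set (Y₁ × Y₂) :=
  {p | ∃ u w, σ.n₁ u w ≤ 1 ∧ p ∈ STpiece σ ι₁ ι₂ u w}

/-- ST1.  The intrinsic metric of the square complex. -/
def Stmt_ST1 : Prop :=
  ∀ (G : Type) [Group G] (σ : STData G) (Y₁ Y₂ : Type) [MetricSpace Y₁] [MetricSpace Y₂]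
    (ι₁ : σ.U₁ → Y₁) (ι₂ : σ.U₂ → Y₂), IsReal σ.n₁ Y₁ ι₁ → IsReal σ.n₂ Y₂ ι₂ →
    ∃ d : STX σ ι₁ ι₂ → STX σ ι₁ ι₂ → ℝ, IsPM d ∧
      (∀ x y : STX σ ι₁ ι₂, DD2 (x : Y₁ × Y₂) y ≤ d x y) ∧
      (∀ u w, σ.n₁ u w ≤ 1 → ∀ x y : STX σ ι₁ ι₂, (x : Y₁ × Y₂) ∈ STpiece σ ι₁ ι₂ u w →
        (y : Y₁ × Y₂) ∈ STpiece σ ι₁ ι₂ u w → d x y = DD2 (x : Y₁ × Y₂) y) ∧
      CATon d Set.univ ∧
      (∀ d' : STX σ ι₁ ι₂ → STX σ ι₁ ι₂ → ℝ, IsPM d' →
        (∀ u w, σ.n₁ u w ≤ 1 → ∀ x y : STX σ ι₁ ι₂, (x : Y₁ × Y₂) ∈ STpiece σ ι₁ ι₂ u w →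
          (y : Y₁ × Y₂) ∈ STpiece σ ι₁ ι₂ u w → d' x y ≤ DD2 (x : Y₁ × Y₂) y) →
        ∀ x y, d' x y ≤ d x y)

/-- ST.  The square complex of `STData` is CAT(0) and the action is geometric. -/
def Stmt_ST : Prop := ∀ (G : Type) [Group G], STData G → CATGroup G

/-! ## 5. VH groups -/

section VHG
variable {H V S : Type}

/-- The horizontal subgroup. -/
def VHData.FH (D : VHData H V S) : Subgroup D.Grp :=
  Subgroup.closure (Set.range fun a : H => PresentedGroup.of (Sum.inl a))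
/-- The vertical subgroup. -/
def VHData.FV (D : VHData H V S) : Subgroup D.Grp :=
  Subgroup.closure (Set.range fun b : V => PresentedGroup.of (Sum.inr b))

/-- The swapped data (roles of horizontal and vertical letters exchanged): `v' h' = h v`. -/
def VHData.swap (D : VHData H V S) : VHData V H S where
  h := D.v'
  v := D.h'
  v' := D.h
  h' := D.v
  inj_hv := fun s s' h => D.inj_h'v' (by
    simp only [Prod.mk.injEq] at h ⊢; exact ⟨h.2, h.1⟩)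
  inj_hv' := fun s s' h => D.inj_hv' (by
    simp only [Prod.mk.injEq] at h ⊢; exact ⟨h.2, h.1⟩)
  inj_h'v := fun s s' h => D.inj_h'v (by
    simp only [Prod.mk.injEq] at h ⊢; exact ⟨h.2, h.1⟩)
  inj_h'v' := fun s s' h => D.inj_hv (by
    simp only [Prod.mk.injEq] at h ⊢; exact ⟨h.2, h.1⟩)

/-- The group element of an oriented letter. -/
def VHData.gen (D : VHData H V S) (c : (H ⊕ V) × Bool) : D.Grp :=
  if c.2 then PresentedGroup.of c.1 else (PresentedGroup.of c.1)⁻¹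

/-- the letter is vertical -/
def isV (c : (H ⊕ V) × Bool) : Bool := c.1.isRight

/-- The properties of the vertical length `LV` of a VH group. -/
structure IsLV (D : VHData H V S) (LV : D.Grp → ℕ) : Prop where
  zero : ∀ g, LV g = 0 ↔ g ∈ D.FH
  inv : ∀ g, LV g⁻¹ = LV g
  left : ∀ f ∈ D.FH, ∀ g, LV (f * g) = LV g
  four : ∀ a b c d : D.Grp, LV (a⁻¹ * b) + LV (c⁻¹ * d) ≤
    max (LV (a⁻¹ * c) + LV (b⁻¹ * d)) (LV (a⁻¹ * d) + LV (b⁻¹ * c))
  step : ∀ g, LV g ≠ 0 → ∃ f ∈ D.FH, ∃ (b : V) (ε : Bool),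
    LV ((f * D.gen (Sum.inr b, ε))⁻¹ * g) + 1 = LV g
  gen : ∀ (b : V) (ε : Bool) (g : D.Grp),
    LV (D.gen (Sum.inr b, ε) * g) = LV g + 1 ∨ LV (D.gen (Sum.inr b, ε) * g) + 1 = LV g
  word : ∀ w : FreeGroup V, LV (FreeGroup.lift (fun b => PresentedGroup.of (Sum.inr b)) w) =
    @FreeGroup.norm V (Classical.decEq V) w

end VHG

/-- LVN.  Vertical lengths exist (number of vertical letters of the normal form). -/
def Stmt_LVN : Prop :=
  ∀ (H V S : Type) (D : VHData H V S), ∃ LV : D.Grp → ℕ, IsLV D LV ∧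
    ∀ g : D.Grp, ∃ l : List ((H ⊕ V) × Bool), (l.map D.gen).prod = g ∧
      (l.filter isV).length = LV g ∧
      ∀ l' : List ((H ⊕ V) × Bool), (l'.map D.gen).prod = g →
        (l.filter fun c => !isV c).length ≤ (l'.filter fun c => !isV c).length

/-- VHST.  VH data with finitely many letters give `STData`. -/
def Stmt_VHST : Prop :=
  ∀ (H V S : Type) [Finite H] [Finite V] (D : VHData H V S), Nonempty (STData D.Grp)

/-- GEO.  The final geometric statement. -/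
def Stmt_Geo : Prop := IsCAT0Group (P0.gad.Grp × FreeGroup Lab)

end Pool.Agent.SD
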