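import Mathlib
import Pool.Agent.SD.Cat

/-!
# Squad SD, wave 3: geometric dimension (literal version)

`G` has geometric dimension at most `n` if it acts freely and cellularly on a contractible CW
complex of dimension at most `n` (the universal cover of a `K(G,1)` complex of dimension at most
`n`; conversely the quotient of such a complex is a `K(G,1)`).
-/

set_option autoImplicit false

namespace Pool.Agent.SD

open Topology Set

/-- `G` acts freely and cellularly on a contractible CW complex of dimension at most `n`. -/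
def FreeCW (G : Type) [Group G] (n : ℕ) : Prop :=
  ∃ (E : Type) (_ : TopologicalSpace E) (_ : T2Space E) (_ : MulAction G E)
    (_ : CWComplex (univ : Set E)),
    ContractibleSpace E ∧ (∀ g : G, Continuous fun x : E => g • x) ∧
    (∀ m > n, IsEmpty (RelCWComplex.cell (univ : Set E) m)) ∧
    (∀ (g : G) (m : ℕ) (i : RelCWComplex.cell (univ : Set E) m),
      ∃ j : RelCWComplex.cell (univ : Set E) m,
        (fun x : E => g • x) '' RelCWComplex.openCell m i = RelCWComplex.openCell m j) ∧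
    (∀ (g : G) (m : ℕ) (i : RelCWComplex.cell (univ : Set E) m),
      (fun x : E => g • x) '' RelCWComplex.openCell m i = RelCWComplex.openCell m i → g = 1)

/-- The same with a locally finite complex. -/
def FreeCWlf (G : Type) [Group G] (n : ℕ) : Prop :=
  ∃ (E : Type) (_ : TopologicalSpace E) (_ : T2Space E) (_ : MulAction G E)
    (_ : CWComplex (univ : Set E)),
    ContractibleSpace E ∧ (∀ g : G, Continuous fun x : E => g • x) ∧
    (∀ m > n, IsEmpty (RelCWComplex.cell (univ : Set E) m)) ∧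
    (∀ (g : G) (m : ℕ) (i : RelCWComplex.cell (univ : Set E) m),
      ∃ j : RelCWComplex.cell (univ : Set E) m,
        (fun x : E => g • x) '' RelCWComplex.openCell m i = RelCWComplex.openCell m j) ∧
    (∀ (g : G) (m : ℕ) (i : RelCWComplex.cell (univ : Set E) m),
      (fun x : E => g • x) '' RelCWComplex.openCell m i = RelCWComplex.openCell m i → g = 1) ∧
    (∀ x : E, ∃ O : Set E, IsOpen O ∧ x ∈ O ∧
      {c : Σ m, RelCWComplex.cell (univ : Set E) m |
        (RelCWComplex.closedCell c.1 c.2 ∩ O).Nonempty}.Finite)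

/-- The geometric dimension of `G` is `n`. -/
def GeomDimEq (G : Type) [Group G] (n : ℕ) : Prop := FreeCW G n ∧ ∀ m < n, ¬ FreeCW G m

/-- CONTR.  CAT(0) spaces are contractible. -/
def Stmt_Contr : Prop := ∀ (Z : Type) [MetricSpace Z], Nonempty Z → CATS Z → ContractibleSpace Z

/-- CWP.  Products of locally finite complexes. -/
def Stmt_CWProd : Prop :=
  ∀ (G₁ G₂ : Type) [Group G₁] [Group G₂] (a b : ℕ), FreeCWlf G₁ a → FreeCWlf G₂ b →
    FreeCWlf (G₁ × G₂) (a + b)

/-- CWISO.  Isomorphisms, and forgetting local finiteness. -/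
def Stmt_CWIso : Prop :=
  (∀ (G₁ G₂ : Type) [Group G₁] [Group G₂] (a : ℕ), (G₁ ≃* G₂) → FreeCWlf G₁ a → FreeCWlf G₂ a) ∧
  (∀ (G : Type) [Group G] (a : ℕ), FreeCWlf G a → FreeCW G a)

/-- The action of `G` on the cells of the square complex of `σ` is free: a cell is the product of a
vertex or edge `{u, w}` and a vertex or edge `{q, r}`. -/
def STData.CellFree {G : Type} [Group G] (σ : STData G) : Prop :=
  ∀ (g : G) (u w : σ.U₁) (q r : σ.U₂), σ.n₁ u w ≤ 1 → σ.n₂ q r ≤ 1 →
    q ∈ σ.F u → q ∈ σ.F w → r ∈ σ.F u → r ∈ σ.F w →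
    (g • u = u ∧ g • w = w ∨ g • u = w ∧ g • w = u) →
    (g • q = q ∧ g • r = r ∨ g • q = r ∧ g • r = q) → g = 1

/-- STCW.  The square complex as a CW complex. -/
def Stmt_STCW : Prop :=
  ∀ (G : Type) [Group G] (σ : STData G), σ.CellFree →
    FreeCWlf G 2 ∧ (Subsingleton σ.U₁ → FreeCWlf G 1)

/-- VHFREE.  `STData` of a VH group with free action on cells; for `V` empty the first tree is a
point. -/
def Stmt_VHFree : Prop :=
  ∀ (H V S : Type) [Finite H] [Finite V] (D : VHData H V S),
    ∃ σ : STData D.Grp, σ.CellFree ∧ (IsEmpty V → Subsingleton σ.U₁)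

/-- LBA.  Equivariant maps from `ℝ³` to a contractible space with `ℤ³`-action. -/
def Stmt_LBA : Prop :=
  ∀ (E : Type) [TopologicalSpace E] [ContractibleSpace E] [AddAction (Fin 3 → ℤ) E],
    (∀ n : Fin 3 → ℤ, Continuous fun x : E => n +ᵥ x) →
    ∃ f : (Fin 3 → ℝ) → E, Continuous f ∧
      ∀ (x : Fin 3 → ℝ) (n : Fin 3 → ℤ), f (x + fun i => (n i : ℝ)) = n +ᵥ f x

/-- LBB.  Equivariant maps from a free `ℤ³`-complex of dimension at most 2 to
`ℝ³` minus the centres of the unit cubes. -/
def Stmt_LBB : Prop :=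
  ∀ (E : Type) [TopologicalSpace E] [T2Space E] [AddAction (Fin 3 → ℤ) E]
    [CWComplex (univ : Set E)],
    (∀ n : Fin 3 → ℤ, Continuous fun x : E => n +ᵥ x) →
    (∀ m > 2, IsEmpty (RelCWComplex.cell (univ : Set E) m)) →
    (∀ (g : Fin 3 → ℤ) (m : ℕ) (i : RelCWComplex.cell (univ : Set E) m),
      ∃ j : RelCWComplex.cell (univ : Set E) m,
        (fun x : E => g +ᵥ x) '' RelCWComplex.openCell m i = RelCWComplex.openCell m j) →
    (∀ (g : Fin 3 → ℤ) (m : ℕ) (i : RelCWComplex.cell (univ : Set E) m),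
      (fun x : E => g +ᵥ x) '' RelCWComplex.openCell m i = RelCWComplex.openCell m i → g = 0) →
    ∃ f : E → (Fin 3 → ℝ), Continuous f ∧
      (∀ (x : E) (n : Fin 3 → ℤ), f (n +ᵥ x) = f x + fun i => (n i : ℝ)) ∧
      ∀ (x : E) (n : Fin 3 → ℤ), f x ≠ fun i => (n i : ℝ) + 1 / 2

/-- LBC (Brouwer).  A continuous map at bounded distance from the identity is surjective. -/
def Stmt_LBC : Prop :=
  ∀ f : (Fin 3 → ℝ) → (Fin 3 → ℝ), Continuous f → (∃ C, ∀ x, ‖f x - x‖ ≤ C) →
    Function.Surjective f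

/-- Z3.  `ℤ³` embeds in `P0.gad.Grp × FreeGroup Lab`. -/
def Stmt_Z3 : Prop :=
  ∃ f : Multiplicative (Fin 3 → ℤ) →* P0.gad.Grp × FreeGroup Lab, Function.Injective f

/-- GD.  The geometric dimension of `P0.gad.Grp × FreeGroup Lab` is 3. -/
def Stmt_GD : Prop := GeomDimEq (P0.gad.Grp × FreeGroup Lab) 3

end Pool.Agent.SD
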