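import Mathlib
import Pool.Agent.SD.Gd

/-!
# Brouwer: there is no `C¹` retraction of the ball onto the sphere, and a continuous self-map of
`ℝⁿ` at bounded distance from the identity is surjective

Analytic proof (Milnor, Rogers): for a `C¹` map `F` of the ball into itself which is the identity
on the sphere, `∫ det D(x + t (F x - x)) dx` is a polynomial in `t` and is constant for small `t`.
-/

set_option autoImplicit false

namespace Pool.Agent.SD

open MeasureTheory Set Metric
open scoped RealInnerProductSpace ENNReal NNReal ContDiff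

namespace LBC

/-- Lagrange interpolation of `det (1 + t A)`. -/
theorem det_interp {E : Type*} [NormedAddCommGroup E] [NormedSpace ℝ E] [FiniteDimensional ℝ E]
    (v : ℕ → ℝ) (hv : Function.Injective v) (A : E →L[ℝ] E) :
    (ContinuousLinearMap.id ℝ E + A).det =
      ∑ i ∈ Finset.range (Module.finrank ℝ E + 1),
        (Lagrange.basis (Finset.range (Module.finrank ℝ E + 1)) v i).eval 1 *
          (ContinuousLinearMap.id ℝ E + v i • A).det := by
  classical
  set b := Module.finBasis ℝ E
  set M : Matrix (Fin (Module.finrank ℝ E)) (Fin (Module.finrank ℝ E)) ℝ :=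
    LinearMap.toMatrix b b (A : E →ₗ[ℝ] E)
  set P : Polynomial ℝ := ((Polynomial.X : Polynomial ℝ) • M.map Polynomial.C +
    (1 : Matrix (Fin (Module.finrank ℝ E)) (Fin (Module.finrank ℝ E)) ℝ).map Polynomial.C).det
  have hP : ∀ t : ℝ, P.eval t = (ContinuousLinearMap.id ℝ E + t • A).det := fun t => by
    have h1 : P.eval t = (t • M + 1).det := by
      rw [← Polynomial.coe_evalRingHom, RingHom.map_det]
      congr 1
      ext i j
      simp only [RingHom.mapMatrix_apply, Matrix.map_apply, Matrix.add_apply, Matrix.smul_apply,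
        smul_eq_mul, Polynomial.coe_evalRingHom, Polynomial.eval_add, Polynomial.eval_mul,
        Polynomial.eval_X, Polynomial.eval_C]
    rw [h1, ContinuousLinearMap.det, ← LinearMap.det_toMatrix b]
    congr 1
    ext i j
    simp [M, LinearMap.toMatrix_apply, Matrix.one_apply, add_comm, Finsupp.single_apply, eq_comm]
  have hdeg : P.degree < (Finset.range (Module.finrank ℝ E + 1)).card := by
    rw [Finset.card_range]
    have h2 := Polynomial.natDegree_det_X_add_C_le M
      (1 : Matrix (Fin (Module.finrank ℝ E)) (Fin (Module.finrank ℝ E)) ℝ)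
    rw [Fintype.card_fin] at h2
    exact lt_of_le_of_lt Polynomial.degree_le_natDegree
      (by exact_mod_cast Nat.lt_succ_of_le h2)
  have h3 := Lagrange.eq_interpolate (s := Finset.range (Module.finrank ℝ E + 1)) (v := v)
    hv.injOn hdeg
  have h4 := congrArg (Polynomial.eval 1) h3
  rw [hP 1, one_smul] at h4
  rw [h4, Lagrange.interpolate_apply, Polynomial.eval_finsetSum]
  refine Finset.sum_congr rfl fun i _ => ?_
  rw [Polynomial.eval_mul, Polynomial.eval_C, hP, mul_comm]

theorem sum_interp (n : ℕ) (v : ℕ → ℝ) (hv : Function.Injective v) :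
    ∑ i ∈ Finset.range (n + 1), (Lagrange.basis (Finset.range (n + 1)) v i).eval 1 = 1 := by
  have := Lagrange.sum_basis (s := Finset.range (n + 1)) (v := v) hv.injOn ⟨0, by simp⟩
  have h := congrArg (Polynomial.eval 1) this
  rwa [Polynomial.eval_finsetSum, Polynomial.eval_one] at h

variable {E : Type*} [NormedAddCommGroup E] [InnerProductSpace ℝ E] [FiniteDimensional ℝ E]

theorem det_pos (A : E →L[ℝ] E) (t : ℝ) (ht : 0 ≤ t) (K : ℝ) (hA : ‖A‖ ≤ K) (hK : t * K < 1) :
    0 < (ContinuousLinearMap.id ℝ E + t • A).det := by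
  have hK0 : 0 ≤ K := (norm_nonneg _).trans hA
  have hne : ∀ s ∈ Icc 0 t, (ContinuousLinearMap.id ℝ E + s • A).det ≠ 0 := by
    intro s hs h0
    have hinj : Function.Injective (ContinuousLinearMap.id ℝ E + s • A) := by
      rw [injective_iff_map_eq_zero]
      intro x hx
      have h1 : x = -(s • A x) := by
        have : x + s • A x = 0 := by simpa using hx
        exact eq_neg_of_add_eq_zero_left this
      have h2 : ‖x‖ ≤ (s * K) * ‖x‖ := by
        calc ‖x‖ = ‖-(s • A x)‖ := by rw [← h1]
          _ = s * ‖A x‖ := by rw [norm_neg, norm_smul, Real.norm_of_nonneg hs.1]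
          _ ≤ s * (K * ‖x‖) := by
            apply mul_le_mul_of_nonneg_left _ hs.1
            exact (A.le_opNorm x).trans (mul_le_mul_of_nonneg_right hA (norm_nonneg _))
          _ = (s * K) * ‖x‖ := by ring
      have h3 : s * K < 1 := lt_of_le_of_lt (mul_le_mul_of_nonneg_right hs.2 hK0) hK
      by_contra hx0
      have h4 : 0 < ‖x‖ := norm_pos_iff.2 hx0
      nlinarith
    have hu : IsUnit ((ContinuousLinearMap.id ℝ E + s • A : E →L[ℝ] E) : E →ₗ[ℝ] E) := by
      rw [LinearMap.isUnit_iff_ker_eq_bot]
      exact LinearMap.ker_eq_bot.2 hinj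
    have := LinearMap.isUnit_det _ hu
    rw [ContinuousLinearMap.det] at h0
    rw [h0] at this
    exact not_isUnit_zero this
  by_contra hneg
  have hc : ContinuousOn (fun s : ℝ => (ContinuousLinearMap.id ℝ E + s • A).det) (Icc 0 t) := by
    apply Continuous.continuousOn
    exact ContinuousLinearMap.continuous_det.comp (by fun_prop)
  have h0 : (0 : ℝ) ∈ Icc ((ContinuousLinearMap.id ℝ E + t • A).det)
      ((ContinuousLinearMap.id ℝ E + (0 : ℝ) • A).det) := by
    refine ⟨not_lt.1 hneg, ?_⟩
    rw [zero_smul, add_zero, ContinuousLinearMap.det]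
    simp
  obtain ⟨s, hs, hs'⟩ := intermediate_value_Icc' ht hc h0
  exact hne s hs hs'

variable [MeasurableSpace E] [BorelSpace E]

/-- There is no `C¹` retraction onto the sphere. -/
theorem no_retract (F : E → E) (hF : ContDiff ℝ 1 F) (R : ℝ) (hR : 0 < R)
    (hn : ∀ x, ‖F x‖ = R) (hb : ∀ x, ‖x‖ = R → F x = x) : False := by
  set h : E → E := fun x => F x - x with hh
  have hC : ContDiff ℝ 1 h := hF.sub contDiff_id
  have hdiff : Differentiable ℝ h := hC.differentiable (by simp)
  have hcont : Continuous (fderiv ℝ h) := hC.continuous_fderiv (by simp)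
  obtain ⟨K, hK⟩ : ∃ K : ℝ≥0, ∀ x ∈ closedBall (0 : E) R, ‖fderiv ℝ h x‖ ≤ K := by
    obtain ⟨K, hK⟩ := (isCompact_closedBall (0 : E) R).exists_bound_of_continuousOn
      hcont.continuousOn
    refine ⟨K.toNNReal, fun x hx => (hK x hx).trans (Real.le_coe_toNNReal K)⟩
  have hlip : ∀ x ∈ closedBall (0 : E) R, ∀ y ∈ closedBall (0 : E) R,
      ‖h x - h y‖ ≤ K * ‖x - y‖ := fun x hx y hy =>
    (convex_closedBall (0 : E) R).norm_image_sub_le_of_norm_fderiv_le
      (fun z _ => hdiff z) hK hy hx
  -- extension by zero
  set k : E → E := fun x => if ‖x‖ ≤ R then h x else 0 with hk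
  have hklip : LipschitzWith K k := by
    have aux : ∀ x y : E, ‖x‖ ≤ R → ¬ ‖y‖ ≤ R → ‖h x‖ ≤ K * ‖x - y‖ := by
      intro x y hx hy
      have hc : ContinuousOn (fun s : ℝ => ‖AffineMap.lineMap x y s‖) (Icc (0 : ℝ) 1) := by
        apply Continuous.continuousOn
        exact (AffineMap.lineMap_continuous).norm
      have : R ∈ Icc (‖AffineMap.lineMap x y (0 : ℝ)‖) (‖AffineMap.lineMap x y (1 : ℝ)‖) := by
        rw [AffineMap.lineMap_apply_zero, AffineMap.lineMap_apply_one]
        exact ⟨hx, (not_le.1 hy).le⟩
      obtain ⟨s, hs, hs'⟩ := intermediate_value_Icc zero_le_one hc this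
      set z := AffineMap.lineMap x y s with hz
      have hz0 : h z = 0 := by
        rw [hh]; simp only
        rw [hb z hs', sub_self]
      have h1 := hlip x (by simpa using hx) z (by simpa using hs'.le)
      rw [hz0, sub_zero] at h1
      refine h1.trans ?_
      apply mul_le_mul_of_nonneg_left _ K.2
      rw [← dist_eq_norm, ← dist_eq_norm, hz, dist_left_lineMap, Real.norm_of_nonneg hs.1]
      exact mul_le_of_le_one_left dist_nonneg hs.2
    apply LipschitzWith.of_dist_le_mul
    intro x y
    rw [dist_eq_norm, dist_eq_norm]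
    by_cases hx : ‖x‖ ≤ R <;> by_cases hy : ‖y‖ ≤ R
    · simp only [hk, hx, hy, if_true]
      exact hlip x (by simpa using hx) y (by simpa using hy)
    · simp only [hk, hx, hy, if_true, if_false, sub_zero]
      exact aux x y hx hy
    · simp only [hk, hx, hy, if_true, if_false, zero_sub, norm_neg]
      rw [norm_sub_rev x y]
      exact aux y x hy hx
    · simp only [hk, hx, hy, if_false, sub_zero, norm_zero]
      positivity
  -- volume of the image for small `t`
  have hvol : ∀ t : ℝ, 0 ≤ t → t ≤ 1 → t * K < 1 →
      ∫ x in closedBall (0 : E) R, (ContinuousLinearMap.id ℝ E + t • fderiv ℝ h x).det =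
        (volume : Measure E).real (closedBall (0 : E) R) := by
    intro t ht ht1 htK
    have himage : (fun x => x + t • h x) '' closedBall (0 : E) R = closedBall (0 : E) R := by
      apply Subset.antisymm
      · rintro _ ⟨x, hx, rfl⟩
        rw [mem_closedBall_zero_iff] at hx ⊢
        have : x + t • h x = (1 - t) • x + t • F x := by
          simp only [hh, smul_sub, sub_smul, one_smul]; abel
        simp only
        rw [this]
        calc ‖(1 - t) • x + t • F x‖ ≤ (1 - t) * ‖x‖ + t * ‖F x‖ := by
              refine (norm_add_le _ _).trans ?_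
              rw [norm_smul, norm_smul, Real.norm_of_nonneg ht,
                Real.norm_of_nonneg (sub_nonneg.2 ht1)]
          _ ≤ (1 - t) * R + t * R := by
              rw [hn x]
              gcongr
          _ = R := by ring
      · intro y hy
        rw [mem_closedBall_zero_iff] at hy
        have hcon : ContractingWith (t.toNNReal * K) (fun x => y - t • k x) := by
          constructor
          · rw [← NNReal.coe_lt_coe]
            push_cast
            rwa [Real.coe_toNNReal t ht]
          · apply LipschitzWith.of_dist_le_mul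
            intro a b
            rw [dist_sub_left, dist_smul₀, Real.norm_of_nonneg ht]
            push_cast
            rw [Real.coe_toNNReal t ht, mul_assoc]
            exact mul_le_mul_of_nonneg_left (hklip.dist_le_mul a b) ht
        have hfix := hcon.fixedPoint_isFixedPt
        set x := ContractingWith.fixedPoint (fun x => y - t • k x) hcon with hx
        have hfix' : y - t • k x = x := hfix
        have hxR : ‖x‖ ≤ R := by
          by_contra hc
          have : k x = 0 := by simp only [hk, hc, if_false]
          rw [this, smul_zero, sub_zero] at hfix'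
          exact hc (hfix' ▸ hy)
        refine ⟨x, by simpa using hxR, ?_⟩
        have : k x = h x := by simp only [hk, hxR, if_true]
        rw [this] at hfix'
        simp only
        nth_rewrite 1 [← hfix']
        abel
    have hinj : InjOn (fun x => x + t • h x) (closedBall (0 : E) R) := by
      intro x hx y hy hxy
      simp only at hxy
      have h1 : x - y = -(t • (h x - h y)) := by
        rw [smul_sub]
        have : x - y + (t • h x - t • h y) = 0 := by
          have := sub_eq_zero.2 hxy
          rw [← this]; abel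
        exact eq_neg_of_add_eq_zero_left this
      have h2 : ‖x - y‖ ≤ (t * K) * ‖x - y‖ := by
        calc ‖x - y‖ = ‖-(t • (h x - h y))‖ := by rw [← h1]
          _ = t * ‖h x - h y‖ := by rw [norm_neg, norm_smul, Real.norm_of_nonneg ht]
          _ ≤ t * (K * ‖x - y‖) := mul_le_mul_of_nonneg_left (hlip x hx y hy) ht
          _ = (t * K) * ‖x - y‖ := by ring
      by_contra hne
      have h4 : 0 < ‖x - y‖ := norm_pos_iff.2 (sub_ne_zero.2 hne)
      nlinarith
    have hder : ∀ x ∈ closedBall (0 : E) R, HasFDerivWithinAt (fun x => x + t • h x)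
        (ContinuousLinearMap.id ℝ E + t • fderiv ℝ h x) (closedBall (0 : E) R) x := fun x _ =>
      ((hasFDerivAt_id x).add ((hdiff x).hasFDerivAt.const_smul t)).hasFDerivWithinAt
    have := integral_image_eq_integral_abs_det_fderiv_smul (volume : Measure E)
      measurableSet_closedBall hder hinj (fun _ => (1 : ℝ))
    rw [himage] at this
    simp only [smul_eq_mul, mul_one, integral_const, MeasurableSet.univ,
      measureReal_restrict_apply, univ_inter] at this
    rw [this]
    apply setIntegral_congr_fun measurableSet_closedBall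
    intro x hx
    exact (abs_of_pos (det_pos _ t ht K (hK x hx) htK)).symm
  -- nodes
  set v : ℕ → ℝ := fun i => 1 / ((K + 1) * (i + 1)) with hv
  have hKpos : (0 : ℝ) < K + 1 := by positivity
  have hvinj : Function.Injective v := by
    intro i j hij
    simp only [hv] at hij
    have hi : (0 : ℝ) < (K + 1) * (i + 1) := by positivity
    have hj : (0 : ℝ) < (K + 1) * (j + 1) := by positivity
    rw [div_eq_div_iff hi.ne' hj.ne', one_mul, one_mul] at hij
    have := mul_left_cancel₀ hKpos.ne' hij
    have h5 : (j : ℝ) = i := by linarith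
    exact_mod_cast h5.symm
  have hv0 : ∀ i, 0 ≤ v i := fun i => by simp only [hv]; positivity
  have hvle : ∀ i, v i ≤ 1 / (K + 1) := fun i => by
    simp only [hv]
    apply one_div_le_one_div_of_le hKpos
    have : (1 : ℝ) ≤ i + 1 := by
      have : (0 : ℝ) ≤ i := Nat.cast_nonneg i
      linarith
    nlinarith
  have hv1 : ∀ i, v i ≤ 1 := fun i => (hvle i).trans (by
    rw [div_le_one hKpos]
    have : (0 : ℝ) ≤ K := K.2
    linarith)
  have hvK : ∀ i, v i * K < 1 := fun i => by
    have h1 : v i * K ≤ 1 / (K + 1) * K := mul_le_mul_of_nonneg_right (hvle i) K.2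
    have h2 : 1 / ((K : ℝ) + 1) * K < 1 := by
      rw [one_div, inv_mul_lt_iff₀ hKpos]
      linarith
    linarith
  have hdetF : ∀ x, (ContinuousLinearMap.id ℝ E + fderiv ℝ h x).det = 0 := by
    intro x
    have hFd : HasFDerivAt F (ContinuousLinearMap.id ℝ E + fderiv ℝ h x) x := by
      have h1 := (hasFDerivAt_id (𝕜 := ℝ) x).add (hdiff x).hasFDerivAt
      have h2 : (fun x => id x + h x) = F := by
        funext z
        simp only [hh, id]
        abel
      change HasFDerivAt (fun x => id x + h x) _ x at h1
      rwa [h2] at h1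
    have horth : ∀ w, ⟪F x, (ContinuousLinearMap.id ℝ E + fderiv ℝ h x) w⟫ = 0 := by
      intro w
      have h1 := hFd.norm_sq
      have h2 : (fun x => ‖F x‖ ^ 2) = fun _ => R ^ 2 := by
        funext z; rw [hn z]
      rw [h2] at h1
      have h3 := h1.unique (hasFDerivAt_const (R ^ 2) x)
      have h4 := congrArg (fun L : E →L[ℝ] ℝ => L w) h3
      simp only [_root_.smul_apply, ContinuousLinearMap.comp_apply,
        innerSL_apply_apply, _root_.zero_apply] at h4
      rw [two_smul] at h4
      linarith
    by_contra hne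
    have hu : IsUnit (ContinuousLinearMap.det (ContinuousLinearMap.id ℝ E + fderiv ℝ h x)) :=
      isUnit_iff_ne_zero.2 hne
    rw [ContinuousLinearMap.det] at hu
    have hsurj : Function.Surjective
        ((ContinuousLinearMap.id ℝ E + fderiv ℝ h x : E →L[ℝ] E) : E →ₗ[ℝ] E) := by
      have h5 := (LinearMap.isUnit_iff_isUnit_det _).2 hu
      rw [LinearMap.isUnit_iff_range_eq_top] at h5
      exact LinearMap.range_eq_top.1 h5
    obtain ⟨w, hw⟩ := hsurj (F x)
    have h6 := horth w
    rw [ContinuousLinearMap.coe_coe] at hw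
    rw [hw, real_inner_self_eq_norm_sq, hn x] at h6
    exact absurd h6 (by positivity)
  have hint : ∀ i, IntegrableOn (fun x => (ContinuousLinearMap.id ℝ E + v i • fderiv ℝ h x).det)
      (closedBall (0 : E) R) volume := fun i => by
    apply ContinuousOn.integrableOn_compact (isCompact_closedBall _ _)
    apply Continuous.continuousOn
    exact ContinuousLinearMap.continuous_det.comp (by fun_prop)
  have hfin : ∫ x in closedBall (0 : E) R, (ContinuousLinearMap.id ℝ E + fderiv ℝ h x).det =
      (volume : Measure E).real (closedBall (0 : E) R) := by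
    have hI : (fun x => (ContinuousLinearMap.id ℝ E + fderiv ℝ h x).det) = fun x =>
        ∑ i ∈ Finset.range (Module.finrank ℝ E + 1),
          (Lagrange.basis (Finset.range (Module.finrank ℝ E + 1)) v i).eval 1 *
            (ContinuousLinearMap.id ℝ E + v i • fderiv ℝ h x).det := by
      funext x
      exact det_interp v hvinj _
    rw [hI, integral_finsetSum _ fun i _ => (hint i).const_mul _]
    simp_rw [integral_const_mul]
    have : ∀ i ∈ Finset.range (Module.finrank ℝ E + 1),
        (Lagrange.basis (Finset.range (Module.finrank ℝ E + 1)) v i).eval 1 *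
          ∫ x in closedBall (0 : E) R, (ContinuousLinearMap.id ℝ E + v i • fderiv ℝ h x).det =
        (Lagrange.basis (Finset.range (Module.finrank ℝ E + 1)) v i).eval 1 *
          (volume : Measure E).real (closedBall (0 : E) R) := fun i _ => by
      rw [hvol (v i) (hv0 i) (hv1 i) (hvK i)]
    rw [Finset.sum_congr rfl this, ← Finset.sum_mul, sum_interp _ v hvinj, one_mul]
  simp_rw [hdetF] at hfin
  rw [integral_zero] at hfin
  have hpos : 0 < (volume : Measure E).real (closedBall (0 : E) R) := by
    rw [measureReal_def]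
    exact ENNReal.toReal_pos (measure_closedBall_pos volume (0 : E) hR).ne'
      measure_closedBall_lt_top.ne
  linarith

/-- A continuous self-map at bounded distance from the identity has a zero. -/
theorem exists_zero (f : E → E) (hf : Continuous f) (C : ℝ) (hC : ∀ x, ‖f x - x‖ ≤ C) :
    ∃ x, f x = 0 := by
  by_contra hno
  push Not at hno
  have hC0 : 0 ≤ C := (norm_nonneg _).trans (hC 0)
  set R : ℝ := C + 2 with hRdef
  have hR : 0 < R := by linarith
  obtain ⟨δ, hδ, hδ'⟩ : ∃ δ : ℝ, 0 < δ ∧ ∀ x ∈ closedBall (0 : E) R, δ ≤ ‖f x‖ := by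
    obtain ⟨x0, hx0, hx0'⟩ := (isCompact_closedBall (0 : E) R).exists_isMinOn
      ⟨0, by simp [hR.le]⟩ hf.norm.continuousOn
    exact ⟨‖f x0‖, norm_pos_iff.2 (hno x0), fun x hx => hx0' hx⟩
  obtain ⟨g0, hg0, hg0', -⟩ := hf.exists_contDiff_approx 1 (ε := fun _ => min δ 1)
    continuous_const (fun _ => lt_min hδ one_pos)
  let χ : ContDiffBump (0 : E) := ⟨R, 2 * R, hR, by linarith⟩
  set g : E → E := fun x => x + χ x • (g0 x - x) with hg
  have hgne : ∀ x, g x ≠ 0 := by
    intro x hx
    rcases le_or_gt ‖x‖ R with hxR | hxR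
    · have h1 : χ x = 1 := χ.one_of_mem_closedBall (by simpa using hxR)
      have h2 : g0 x = 0 := by
        simp only [hg, h1, one_smul] at hx
        rw [← hx]; abel
      have h3 := hg0' x
      rw [h2, dist_zero_left] at h3
      have h4 := hδ' x (by simpa using hxR)
      have h5 := h3.trans_le (min_le_left δ 1)
      linarith
    · have h1 : ‖g0 x - x‖ ≤ C + 1 := by
        have h3 := (hg0' x).trans_le (min_le_right δ 1)
        rw [dist_eq_norm] at h3
        calc ‖g0 x - x‖ = ‖(g0 x - f x) + (f x - x)‖ := by congr 1; abel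
          _ ≤ ‖g0 x - f x‖ + ‖f x - x‖ := norm_add_le _ _
          _ ≤ C + 1 := by linarith [hC x]
      have h2 : ‖χ x • (g0 x - x)‖ ≤ C + 1 := by
        rw [norm_smul, Real.norm_of_nonneg χ.nonneg]
        calc χ x * ‖g0 x - x‖ ≤ 1 * ‖g0 x - x‖ :=
              mul_le_mul_of_nonneg_right χ.le_one (norm_nonneg _)
          _ ≤ C + 1 := by rw [one_mul]; exact h1
      have h3 : x = -(χ x • (g0 x - x)) := eq_neg_of_add_eq_zero_left hx
      have h4 : ‖x‖ = ‖χ x • (g0 x - x)‖ := by
        conv_lhs => rw [h3, norm_neg]
      linarith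
  have hgs : ContDiff ℝ 1 g := by
    apply contDiff_id.add
    exact χ.contDiff.smul (hg0.sub contDiff_id)
  set F : E → E := fun x => (2 * R / ‖g x‖) • g x with hF
  have hFs : ContDiff ℝ 1 F := by
    apply ContDiff.smul _ hgs
    exact contDiff_const.div (hgs.norm ℝ hgne) (fun x => norm_ne_zero_iff.2 (hgne x))
  refine no_retract F hFs (2 * R) (by linarith) (fun x => ?_) (fun x hx => ?_)
  · simp only [hF, norm_smul, norm_div, norm_norm]
    rw [div_mul_cancel₀ _ (norm_ne_zero_iff.2 (hgne x)), Real.norm_of_nonneg (by linarith)]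
  · have h1 : χ x = 0 := χ.zero_of_le_dist (by
      rw [dist_zero_right, hx])
    have h2 : g x = x := by simp only [hg, h1, zero_smul, add_zero]
    simp only [hF, h2]
    rw [hx, div_self (by linarith), one_smul]

theorem surj (f : E → E) (hf : Continuous f) (C : ℝ) (hC : ∀ x, ‖f x - x‖ ≤ C) :
    Function.Surjective f := by
  intro y
  obtain ⟨x, hx⟩ := exists_zero (fun x => f x - y) (by fun_prop) (C + ‖y‖) (fun x => by
    calc ‖f x - y - x‖ = ‖(f x - x) - y‖ := by congr 1; abel
      _ ≤ ‖f x - x‖ + ‖y‖ := norm_sub_le _ _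
      _ ≤ C + ‖y‖ := by linarith [hC x])
  exact ⟨x, sub_eq_zero.1 hx⟩

/-- A continuous self-map of `ℝⁿ` at bounded distance from the identity is surjective. -/
theorem surj_pi {n : ℕ} (f : (Fin n → ℝ) → (Fin n → ℝ)) (hf : Continuous f)
    (hC : ∃ C, ∀ x, ‖f x - x‖ ≤ C) : Function.Surjective f := by
  obtain ⟨C, hC⟩ := hC
  set e := EuclideanSpace.equiv (Fin n) ℝ
  have h1 : Function.Surjective (fun x => e.symm (f (e x))) := by
    apply surj _ (by fun_prop) (‖(e.symm : (Fin n → ℝ) →L[ℝ] EuclideanSpace ℝ (Fin n))‖ * C)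
    intro x
    have : e.symm (f (e x)) - x = (e.symm : (Fin n → ℝ) →L[ℝ] EuclideanSpace ℝ (Fin n))
        (f (e x) - e x) := by
      rw [map_sub]
      simp
    rw [this]
    exact (ContinuousLinearMap.le_opNorm _ _).trans
      (mul_le_mul_of_nonneg_left (hC _) (norm_nonneg _))
  intro y
  obtain ⟨x, hx⟩ := h1 (e.symm y)
  exact ⟨e x, e.symm.injective hx⟩

end LBC

theorem lbc_proof : Stmt_LBC := fun f hf h => LBC.surj_pi f hf h

end Pool.Agent.SD
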