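import Pool.Agent.SD.Stmts

/-!
# Squad SD, module BP: the function `b'` (a central extension of `AA` by `ℤ`)
-/

set_option autoImplicit false

namespace Pool.Agent.SD.BPX

open Multiplicative

/-- number of letters `a_i` -/
def eta : K1 →* Multiplicative ℤ := FreeGroup.lift fun p => if p.2 then ofAdd 1 else 1

abbrev KZ : Type := K1 × Multiplicative ℤ

/-- an automorphism of `K1` acts on `K1 × ℤ` -/
def lif : MulAut K1 →* MulAut KZ where
  toFun ψ := MulEquiv.prodCongr ψ (MulEquiv.refl _)
  map_one' := by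
    apply MulEquiv.ext
    intro x
    rfl
  map_mul' a b := by
    apply MulEquiv.ext
    intro x
    rfl

theorem lif_apply (ψ : MulAut K1) (x : KZ) : lif ψ x = (ψ x.1, x.2) := rfl

/-- the shear -/
def shear : MulAut KZ where
  toFun x := (x.1, x.2 * eta x.1)
  invFun x := (x.1, x.2 * (eta x.1)⁻¹)
  left_inv x := by simp
  right_inv x := by simp
  map_mul' x y := by
    apply Prod.ext
    · rfl
    · simp only [Prod.fst_mul, Prod.snd_mul, map_mul]
      exact mul_mul_mul_comm _ _ _ _

theorem shear_apply (x : KZ) : shear x = (x.1, x.2 * eta x.1) := rfl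

theorem eta_sh (k : K1) : eta (sh k) = eta k := by
  have : eta.comp sh.toMonoidHom = eta := by
    ext p
    simp [sh, eta]
  exact DFunLike.congr_fun this k

theorem shear_comm : lif sh * shear = shear * lif sh := by
  apply MulEquiv.ext
  intro x
  change lif sh (shear x) = shear (lif sh x)
  rw [lif_apply, shear_apply, shear_apply, lif_apply]
  simp only [eta_sh]

/-- action of `F(u1, u2, z)` on `K1 × ℤ` -/
def actF : FreeGroup (Option Bool) →* MulAut KZ := FreeGroup.lift fun o => match o with
  | none => shear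
  | some c => lif (Phi (kap (FreeGroup.of c)))

theorem actF_none : actF (FreeGroup.of none) = shear := by simp [actF]

theorem actF_map (x : FreeGroup Bool) : actF (FreeGroup.map some x) = lif (Phi (kap x)) := by
  have : actF.comp (FreeGroup.map some) = lif.comp (Phi.comp kap) := by
    refine FreeGroup.ext_hom _ _ fun c => ?_
    simp [actF]
  exact DFunLike.congr_fun this x

theorem sig_none : sig (FreeGroup.of none) = FreeGroup.of none := by
  change SigF phi (FreeGroup.of none) = _
  simp [SigF]

theorem sig_map (x : FreeGroup Bool) :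
    sig (FreeGroup.map some x) = FreeGroup.map some (phi x) := SigF_map phi x

theorem Phi_kap_phi (t : FreeGroup Bool) : Phi (kap (phi t)) = sh * Phi (kap t) * sh⁻¹ := by
  have h := DFunLike.congr_fun (actQ_compat (ofAdd 1)) t
  simpa using h

theorem actF_sig (x : FreeGroup (Option Bool)) :
    actF (sig x) = lif sh * actF x * (lif sh)⁻¹ := by
  have : actF.comp sig.toMonoidHom = (MulAut.conj (lif sh)).toMonoidHom.comp actF := by
    refine FreeGroup.ext_hom _ _ fun o => ?_
    cases o with
    | none =>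
      change actF (sig (FreeGroup.of none)) = lif sh * actF (FreeGroup.of none) * (lif sh)⁻¹
      rw [sig_none, actF_none, shear_comm, mul_assoc, mul_inv_cancel, mul_one]
    | some c =>
      change actF (sig (FreeGroup.of (some c))) =
        lif sh * actF (FreeGroup.of (some c)) * (lif sh)⁻¹
      have h1 : (FreeGroup.of (some c) : FreeGroup (Option Bool)) =
          FreeGroup.map some (FreeGroup.of c) := by simp
      rw [h1, sig_map, actF_map, actF_map, Phi_kap_phi, map_mul, map_mul, map_inv]
  exact DFunLike.congr_fun this x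

theorem actF_sig_zpow (n : ℤ) (x : FreeGroup (Option Bool)) :
    actF ((sig ^ n) x) = (lif sh) ^ n * actF x * ((lif sh) ^ n)⁻¹ := by
  induction n using Int.induction_on generalizing x with
  | zero => simp
  | succ n ih =>
    rw [zpow_add_one, MulAut.mul_apply, ih, actF_sig, zpow_add_one]
    group
  | pred n ih =>
    have h : actF ((sig⁻¹ : MulAut _) x) = (lif sh)⁻¹ * actF x * (lif sh) := by
      have := actF_sig ((sig⁻¹ : MulAut _) x)
      rw [MulAut.apply_inv_self] at this
      rw [this]
      group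
    rw [zpow_sub_one, MulAut.mul_apply, ih, h, zpow_sub_one]
    group

/-- the action of `EE` on `K1 × ℤ` -/
def actH : EE →* MulAut KZ :=
  SemidirectProduct.lift actF (zpowersHom _ (lif sh)) (by
    intro g
    refine MonoidHom.ext fun x => ?_
    change actF ((sig ^ (toAdd g)) x) =
      (lif sh) ^ (toAdd g) * actF x * ((lif sh) ^ (toAdd g))⁻¹
    exact actF_sig_zpow _ _)

theorem actH_inl (x : FreeGroup (Option Bool)) : actH (SemidirectProduct.inl x) = actF x := by
  simp [actH]

theorem actH_inr (g : Multiplicative ℤ) :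
    actH (SemidirectProduct.inr g) = (lif sh) ^ (toAdd g) := by
  simp [actH]

/-- the central extension of `AA` -/
abbrev AH : Type := KZ ⋊[actH] EE

/-- property of an element of `EE`: it acts on the first coordinate as it should, and fixes
the centre. -/
def Good (g : EE) : Prop :=
  (∀ y : KZ, (actH g y).1 = actQ (fE g) y.1) ∧ ∀ n : Multiplicative ℤ, actH g (1, n) = (1, n)

theorem good_mul {g g' : EE} (h : Good g) (h' : Good g') : Good (g * g') := by
  constructor
  · intro y
    rw [map_mul, MulAut.mul_apply, h.1, h'.1, map_mul, map_mul]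
    rfl
  · intro n
    rw [map_mul, MulAut.mul_apply, h'.2, h.2]

theorem good_inv {g : EE} (h : Good g) : Good g⁻¹ := by
  constructor
  · intro y
    have h1 := h.1 ((actH g)⁻¹ y)
    rw [MulAut.apply_inv_self] at h1
    rw [map_inv, map_inv, map_inv, h1, MulAut.inv_apply_self]
  · intro n
    have h1 := h.2 n
    rw [map_inv]
    conv_lhs => rw [← h1]
    rw [MulAut.inv_apply_self]

theorem good_one : Good 1 := by
  constructor
  · intro y
    rw [map_one, map_one, map_one]
    rfl
  · intro n
    rw [map_one]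
    rfl

theorem fE_inl (x : FreeGroup (Option Bool)) :
    fE (SemidirectProduct.inl x) = SemidirectProduct.inl (fD x) := by
  simp [fE]

theorem fE_inr (g : Multiplicative ℤ) :
    fE (SemidirectProduct.inr g) = SemidirectProduct.inr g := by
  simp [fE]

theorem good_of (o : Option Bool) : Good (SemidirectProduct.inl (FreeGroup.of o)) := by
  cases o with
  | none =>
    constructor
    · intro y
      rw [actH_inl, actF_none, shear_apply, fE_inl]
      have : fD (FreeGroup.of none) = 1 := by simp [fD]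
      rw [this, map_one, map_one]
      rfl
    · intro n
      rw [actH_inl, actF_none, shear_apply]
      simp
  | some c =>
    have h1 : (FreeGroup.of (some c) : FreeGroup (Option Bool)) =
        FreeGroup.map some (FreeGroup.of c) := by simp
    constructor
    · intro y
      rw [actH_inl, fE_inl, h1, actF_map, lif_apply, fD_map]
      simp [actQ]
    · intro n
      rw [actH_inl, h1, actF_map, lif_apply]
      simp

theorem good_inl (x : FreeGroup (Option Bool)) : Good (SemidirectProduct.inl x) := by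
  induction x using FreeGroup.induction_on with
  | C1 => rw [map_one]; exact good_one
  | of x => exact good_of x
  | inv_of x h => rw [map_inv]; exact good_inv h
  | mul x y hx hy => rw [map_mul]; exact good_mul hx hy

theorem good_inr_one : Good (SemidirectProduct.inr (ofAdd 1)) := by
  constructor
  · intro y
    rw [actH_inr, fE_inr]
    simp [actQ, lif_apply]
  · intro n
    rw [actH_inr]
    simp [lif_apply]

theorem good_inr (g : Multiplicative ℤ) : Good (SemidirectProduct.inr g) := by
  have h : ∀ n : ℤ, Good (SemidirectProduct.inr (ofAdd n)) := by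
    intro n
    induction n using Int.induction_on with
    | zero => exact good_one
    | succ n ih => rw [ofAdd_add, map_mul]; exact good_mul ih good_inr_one
    | pred n ih =>
      rw [sub_eq_add_neg, ofAdd_add, map_mul, ofAdd_neg 1, map_inv]
      exact good_mul ih (good_inv good_inr_one)
  exact h (toAdd g)

theorem good (g : EE) : Good g := by
  rw [← SemidirectProduct.inl_left_mul_inr_right g]
  exact good_mul (good_inl _) (good_inr _)

/-- the projection to `A0` -/
def pA : AH →* A0 :=
  SemidirectProduct.map (MonoidHom.fst K1 (Multiplicative ℤ)) (MonoidHom.id EE) (by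
    intro g
    refine MonoidHom.ext fun y => ?_
    exact (good g).1 y)

/-- the projection to `TT` -/
def pT : AH →* TT := iA.comp pA

theorem pT_apply (x : AH) : pT x = (⟨x.left.1, fE x.right⟩, x.right) := rfl

theorem pT_ker {x : AH} (h : pT x = 1) :
    x = SemidirectProduct.inl (1, x.left.2) := by
  rw [pT_apply, Prod.mk_eq_one] at h
  obtain ⟨h1, h2⟩ := h
  apply SemidirectProduct.ext
  · rw [SemidirectProduct.left_inl]
    apply Prod.ext
    · exact congrArg SemidirectProduct.left h1
    · rfl
  · rw [SemidirectProduct.right_inl]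
    exact h2

theorem central (n : Multiplicative ℤ) (x : AH) :
    x * SemidirectProduct.inl (1, n) = SemidirectProduct.inl (1, n) * x := by
  apply SemidirectProduct.ext
  · rw [SemidirectProduct.mul_left, SemidirectProduct.mul_left, SemidirectProduct.left_inl,
      SemidirectProduct.right_inl, (good _).2, map_one]
    apply Prod.ext
    · simp
    · simp [mul_comm]
  · simp

theorem pT_range {y : TT} (h : y ∈ AA) : ∃ x : AH, pT x = y := by
  obtain ⟨⟨k, e⟩, rfl⟩ := h
  exact ⟨⟨(k, 1), e⟩, rfl⟩


/-! ### The relators hold in `TT` -/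

theorem prodcomm (g : G2) (h : EE) : ((g, 1) : TT) * (1, h) = (1, h) * (g, 1) := by
  simp

theorem kT_apply (k : K1) : kT k = (SemidirectProduct.inl k, 1) := rfl
theorem tT_apply (t : FreeGroup Bool) :
    tT t = (SemidirectProduct.inr (SemidirectProduct.inl t), 1) := rfl
theorem uT_apply (u : FreeGroup (Option Bool)) : uT u = (1, SemidirectProduct.inl u) := rfl

theorem eps_of (c : Bool) : eps (FreeGroup.of c) = ofAdd 1 := by simp [eps]

/-- the letters `t_c` act on `K1`, index `0`, as `phi`. -/
theorem tk (c : Bool) (x : FreeGroup Bool) :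
    tT (FreeGroup.of c) * kT (emb 0 x) = kT (emb 0 (phi x)) * tT (FreeGroup.of c) := by
  rw [kT_apply, kT_apply, tT_apply, Prod.mk_mul_mk, Prod.mk_mul_mk]
  apply Prod.ext
  · change (SemidirectProduct.inr (SemidirectProduct.inl (FreeGroup.of c)) : G2) *
      SemidirectProduct.inl (emb 0 x) = SemidirectProduct.inl (emb 0 (phi x)) *
      SemidirectProduct.inr (SemidirectProduct.inl (FreeGroup.of c))
    have h := SemidirectProduct.inl_aut (φ := actQ) (SemidirectProduct.inl (FreeGroup.of c))
      (emb 0 x)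
    have h2 : actQ (SemidirectProduct.inl (FreeGroup.of c)) (emb 0 x) = emb 0 (phi x) := by
      have : actQ (SemidirectProduct.inl (FreeGroup.of c)) = Phi (kap (FreeGroup.of c)) := by
        simp [actQ]
      rw [this, Phi_emb]
      have h3 : toAdd (kap (FreeGroup.of c)) 0 = 1 := by
        change toAdd (eps ((phi ^ (-(0 : ℤ))) (FreeGroup.of c))) = 1
        rw [neg_zero, zpow_zero]
        change toAdd (eps (FreeGroup.of c)) = 1
        rw [eps_of]; rfl
      rw [h3, zpow_one]
    rw [h2] at h
    rw [h, map_inv, inv_mul_cancel_right]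
  · rfl

theorem rt (t : FreeGroup Bool) : rT * tT t = tT (phi t) * rT := by
  have h := SemidirectProduct.inl_aut (φ := zpowersHom _ phi) (ofAdd (1 : ℤ)) t
  have h2 : (zpowersHom _ phi) (ofAdd (1 : ℤ)) t = phi t := by simp
  rw [h2] at h
  have h4 : (SemidirectProduct.inr (ofAdd 1) : Q) * SemidirectProduct.inl t =
      SemidirectProduct.inl (phi t) * SemidirectProduct.inr (ofAdd 1) := by
    rw [h, map_inv, inv_mul_cancel_right]
  rw [tT_apply, tT_apply]
  unfold rT
  rw [Prod.mk_mul_mk, Prod.mk_mul_mk, ← map_mul, ← map_mul, h4]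

theorem su (u : FreeGroup (Option Bool)) : sT * uT u = uT (sig u) * sT := by
  have h := SemidirectProduct.inl_aut (φ := zpowersHom _ sig) (ofAdd (1 : ℤ)) u
  have h2 : (zpowersHom _ sig) (ofAdd (1 : ℤ)) u = sig u := by simp
  rw [h2] at h
  have h4 : (SemidirectProduct.inr (ofAdd 1) : EE) * SemidirectProduct.inl u =
      SemidirectProduct.inl (sig u) * SemidirectProduct.inr (ofAdd 1) := by
    rw [h, map_inv, inv_mul_cancel_right]
  rw [uT_apply, uT_apply]
  unfold sT
  rw [Prod.mk_mul_mk, Prod.mk_mul_mk, h4]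

theorem ku (k : K1) (u : FreeGroup (Option Bool)) : kT k * uT u = uT u * kT k :=
  prodcomm _ _
theorem ks (k : K1) : kT k * sT = sT * kT k := prodcomm _ _
theorem tu (t : FreeGroup Bool) (u : FreeGroup (Option Bool)) : tT t * uT u = uT u * tT t :=
  prodcomm _ _
theorem ts (t : FreeGroup Bool) : tT t * sT = sT * tT t := prodcomm _ _
theorem ru (u : FreeGroup (Option Bool)) : rT * uT u = uT u * rT := prodcomm _ _
theorem rs : rT * sT = sT * rT := prodcomm _ _

theorem sq_hold : ∀ q ∈ sqL, labT q.1 * labT q.2.1 = labT q.2.2.1 * labT q.2.2.2 := by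
  have e1 : (FreeGroup.of ((0 : ℤ), true) : K1) = emb 0 (FreeGroup.of true) := of_eq_emb _
  have e2 : (FreeGroup.of ((0 : ℤ), false) : K1) = emb 0 (FreeGroup.of false) := of_eq_emb _
  have s1 : sig (FreeGroup.of (some true)) =
      FreeGroup.of (some true) * FreeGroup.of (some false) := by
    have : (FreeGroup.of (some true) : FreeGroup (Option Bool)) =
        FreeGroup.map some (FreeGroup.of true) := by simp
    rw [this, sig_map, phi_true]; simp
  have s2 : sig (FreeGroup.of (some false)) = FreeGroup.of (some true) := by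
    have : (FreeGroup.of (some false) : FreeGroup (Option Bool)) =
        FreeGroup.map some (FreeGroup.of false) := by simp
    rw [this, sig_map, phi_false]; simp
  intro q hq
  simp only [sqL, List.mem_cons, List.not_mem_nil, or_false] at hq
  rcases hq with rfl | rfl | rfl | rfl | rfl | rfl | rfl | rfl | rfl | rfl | rfl | rfl | rfl |
    rfl | rfl | rfl | rfl | rfl | rfl | rfl | rfl | rfl | rfl | rfl | rfl | rfl | rfl | rfl |
    rfl | rfl | rfl | rfl | rfl | rfl | rfl
  · change tT _ * kT _ = (kT _ * kT _) * tT _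
    rw [e1, tk, phi_true, map_mul, map_mul, ← e1, ← e2]
  · change tT _ * kT _ = kT _ * tT _
    rw [e2, tk, phi_false, ← e1]
  · change tT _ * kT _ = (kT _ * kT _) * tT _
    rw [e1, tk, phi_true, map_mul, map_mul, ← e1, ← e2]
  · change tT _ * kT _ = kT _ * tT _
    rw [e2, tk, phi_false, ← e1]
  · change rT * tT _ = (tT _ * tT _) * rT
    rw [rt, phi_true, map_mul]
  · change rT * tT _ = tT _ * rT
    rw [rt, phi_false]
  · change sT * uT _ = (uT _ * uT _) * sT
    rw [su, s1, map_mul]
  · change sT * uT _ = uT _ * sT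
    rw [su, s2]
  · change sT * uT _ = uT _ * sT
    rw [su, sig_none]
  · exact ku _ _
  · exact ku _ _
  · exact ks _
  · exact ku _ _
  · exact ku _ _
  · exact ku _ _
  · exact ks _
  · exact ku _ _
  · exact tu _ _
  · exact tu _ _
  · exact ts _
  · exact tu _ _
  · exact tu _ _
  · exact tu _ _
  · exact ts _
  · exact tu _ _
  · exact ru _
  · exact ru _
  · exact rs
  · exact ru _
  · exact (one_mul _).trans (mul_one _).symm
  · exact (one_mul _).trans (mul_one _).symm
  · exact (one_mul _).trans (mul_one _).symm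
  · exact (one_mul _).trans (mul_one _).symm
  · exact (one_mul _).trans (mul_one _).symm
  · exact (one_mul _).trans (mul_one _).symm

theorem tr_hold : ∀ q ∈ trL, labT q.1 * labT q.2.1 = labT q.2.2 := by
  intro q hq
  simp only [trL, List.mem_cons, List.not_mem_nil, or_false] at hq
  rcases hq with rfl | rfl | rfl | rfl | rfl | rfl
  · rfl
  · rfl
  · rfl
  · rfl
  · rfl
  · rfl

theorem rel_ker (k : Fin 35 ⊕ Fin 6) : piT (P0.rel k) = 1 := by
  have hof : ∀ x, piT (FreeGroup.of x) = labT x := fun x => by simp [piT]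
  rcases k with i | j
  · have h := sq_hold (sqL.get i) (List.get_mem _ _)
    change piT (FreeGroup.of (sqL.get i).1 * FreeGroup.of (sqL.get i).2.1 *
      (FreeGroup.of (sqL.get i).2.2.2)⁻¹ * (FreeGroup.of (sqL.get i).2.2.1)⁻¹) = 1
    rw [map_mul, map_mul, map_mul, map_inv, map_inv, hof, hof, hof, hof, h]
    group
  · have h := tr_hold (trL.get j) (List.get_mem _ _)
    change piT (FreeGroup.of (trL.get j).1 * FreeGroup.of (trL.get j).2.1 *
      (FreeGroup.of (trL.get j).2.2)⁻¹) = 1
    rw [map_mul, map_mul, map_inv, hof, hof, hof, h]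
    group

theorem LL_le : LL ≤ piT.ker := by
  refine Subgroup.normalClosure_le_normal ?_
  rintro _ ⟨k, rfl⟩
  exact rel_ker k

/-! ### The lift -/

/-- the subgroup of words with value in `AA` -/
def FF : Subgroup (FreeGroup Lab) := AA.comap piT

/-- the lift of `piT` to the central extension -/
noncomputable def PhiL : FF →* AH :=
  IsFreeGroup.lift (G := FF) (fun i => Classical.choose (pT_range (IsFreeGroup.of i).2))

theorem pT_PhiL (w : FF) : pT (PhiL w) = piT w.1 := by
  have : pT.comp PhiL = piT.comp FF.subtype := by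
    refine IsFreeGroup.ext_hom (G := FF) fun i => ?_
    rw [MonoidHom.comp_apply, PhiL, IsFreeGroup.lift_of]
    exact Classical.choose_spec (pT_range (IsFreeGroup.of i).2)
  exact DFunLike.congr_fun this w

open Classical in
/-- the function `b'` -/
noncomputable def bb (w : FreeGroup Lab) : ℤ :=
  if h : w ∈ FF then toAdd (PhiL ⟨w, h⟩).left.2 else 0

theorem ker_le_FF {l : FreeGroup Lab} (h : piT l = 1) : l ∈ FF := by
  change piT l ∈ AA
  rw [h]
  exact one_mem _

theorem bb_eq {l : FreeGroup Lab} (h : l ∈ FF) : bb l = toAdd (PhiL ⟨l, h⟩).left.2 := by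
  unfold bb
  rw [dif_pos h]

theorem PhiL_ker {l : FreeGroup Lab} (h : piT l = 1) (hF : l ∈ FF) :
    PhiL ⟨l, hF⟩ = SemidirectProduct.inl (1, ofAdd (bb l)) := by
  rw [bb_eq hF, ofAdd_toAdd]
  apply pT_ker
  rw [pT_PhiL]
  exact h

theorem bb_mul {u v : FreeGroup Lab} (hu : piT u = 1) (hv : piT v = 1) :
    bb (u * v) = bb u + bb v := by
  have huF := ker_le_FF hu
  have hvF := ker_le_FF hv
  have h : (⟨u * v, mul_mem huF hvF⟩ : FF) = ⟨u, huF⟩ * ⟨v, hvF⟩ := rfl
  rw [bb_eq (mul_mem huF hvF), h, map_mul, PhiL_ker hu huF, PhiL_ker hv hvF, ← map_mul]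
  rfl

theorem bb_conj {x l : FreeGroup Lab} (hx : x ∈ FF) (hl : piT l = 1) :
    bb (x * l * x⁻¹) = bb l := by
  have hlF := ker_le_FF hl
  have h : (⟨x * l * x⁻¹, mul_mem (mul_mem hx hlF) (inv_mem hx)⟩ : FF) =
    ⟨x, hx⟩ * ⟨l, hlF⟩ * ⟨x, hx⟩⁻¹ := rfl
  rw [bb_eq (mul_mem (mul_mem hx hlF) (inv_mem hx)), h, map_mul, map_mul, map_inv,
    PhiL_ker hl hlF, central, mul_inv_cancel_right]
  rfl

theorem piT_of (x : Lab) : piT (FreeGroup.of x) = labT x := by simp [piT]

theorem mem_FF {x : Lab} (y : A0) (h : iA y = labT x) : FreeGroup.of x ∈ FF := by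
  change piT _ ∈ AA
  rw [piT_of, ← h]
  exact ⟨y, rfl⟩

theorem iA_apply (x : A0) : iA x = (⟨x.left, fE x.right⟩, x.right) := rfl

theorem fE_some (c : Bool) : fE (SemidirectProduct.inl (FreeGroup.of (some c))) =
    SemidirectProduct.inl (FreeGroup.of c) := by
  rw [fE_inl]
  congr 1

theorem fE_none : fE (SemidirectProduct.inl (FreeGroup.of none)) = 1 := by
  rw [fE_inl]
  have : fD (FreeGroup.of none) = 1 := by simp [fD]
  rw [this, map_one]

theorem mem_a : FreeGroup.of Lab.a ∈ FF :=
  mem_FF (SemidirectProduct.inl (FreeGroup.of (0, true))) (by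
    rw [iA_apply, SemidirectProduct.right_inl, map_one]; rfl)
theorem mem_b : FreeGroup.of Lab.b ∈ FF :=
  mem_FF (SemidirectProduct.inl (FreeGroup.of (0, false))) (by
    rw [iA_apply, SemidirectProduct.right_inl, map_one]; rfl)
theorem mem_w1 : FreeGroup.of Lab.w1 ∈ FF :=
  mem_FF (SemidirectProduct.inr (SemidirectProduct.inl (FreeGroup.of (some true)))) (by
    rw [iA_apply, SemidirectProduct.right_inr, fE_some]
    change _ = uT _ * tT _
    rw [uT_apply, tT_apply, Prod.mk_mul_mk, one_mul, mul_one]
    rfl)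
theorem mem_w2 : FreeGroup.of Lab.w2 ∈ FF :=
  mem_FF (SemidirectProduct.inr (SemidirectProduct.inl (FreeGroup.of (some false)))) (by
    rw [iA_apply, SemidirectProduct.right_inr, fE_some]
    change _ = uT _ * tT _
    rw [uT_apply, tT_apply, Prod.mk_mul_mk, one_mul, mul_one]
    rfl)
theorem labT_s : labT Lab.s = (SemidirectProduct.inr (SemidirectProduct.inr (ofAdd 1)),
    SemidirectProduct.inr (ofAdd 1)) := by
  change sT * rT = _
  unfold sT rT
  rw [Prod.mk_mul_mk, one_mul, mul_one]
theorem mem_s : FreeGroup.of Lab.s ∈ FF :=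
  mem_FF (SemidirectProduct.inr (SemidirectProduct.inr (ofAdd 1))) (by
    rw [iA_apply, SemidirectProduct.right_inr, fE_inr, labT_s]
    rfl)
theorem mem_z : FreeGroup.of Lab.z ∈ FF :=
  mem_FF (SemidirectProduct.inr (SemidirectProduct.inl (FreeGroup.of none))) (by
    rw [iA_apply, SemidirectProduct.right_inr, fE_none]
    rfl)

/-! ### Fibonacci numbers -/

/-- exponent sum of one letter -/
def ee (c : Bool) : FreeGroup Bool →* Multiplicative ℤ :=
  FreeGroup.lift fun c' => if c' = c then ofAdd 1 else 1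

theorem ee_true_phi (y : FreeGroup Bool) : ee true (phi y) = ee true y * ee false y := by
  have : (ee true).comp phi.toMonoidHom = ee true * ee false := by
    refine FreeGroup.ext_hom _ _ fun c => ?_
    change ee true (phi (FreeGroup.of c)) = ee true (FreeGroup.of c) * ee false (FreeGroup.of c)
    cases c
    · rw [phi_false]; simp [ee]
    · rw [phi_true]; simp [ee]
  exact DFunLike.congr_fun this y

theorem ee_false_phi (y : FreeGroup Bool) : ee false (phi y) = ee true y := by
  have : (ee false).comp phi.toMonoidHom = ee true := by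
    refine FreeGroup.ext_hom _ _ fun c => ?_
    change ee false (phi (FreeGroup.of c)) = ee true (FreeGroup.of c)
    cases c
    · rw [phi_false]; simp [ee]
    · rw [phi_true]; simp [ee]
  exact DFunLike.congr_fun this y

theorem eps_eq (y : FreeGroup Bool) : eps y = ee true y * ee false y := by
  have : eps = ee true * ee false := by
    refine FreeGroup.ext_hom _ _ fun c => ?_
    change eps (FreeGroup.of c) = ee true (FreeGroup.of c) * ee false (FreeGroup.of c)
    cases c <;> simp [ee, eps]
  exact DFunLike.congr_fun this y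

theorem fib_phi (k : ℕ) : ee true ((phi ^ k) (FreeGroup.of true)) = ofAdd (Nat.fib (k + 1) : ℤ) ∧
    ee false ((phi ^ k) (FreeGroup.of true)) = ofAdd (Nat.fib k : ℤ) := by
  induction k with
  | zero =>
    constructor
    · simp [ee]
    · simp [ee]
  | succ k ih =>
    rw [pow_succ', MulAut.mul_apply, ee_true_phi, ee_false_phi, ih.1, ih.2]
    refine ⟨?_, rfl⟩
    rw [← ofAdd_add]
    congr 1
    rw [Nat.fib_add_two (n := k)]
    push_cast
    ring

theorem eps_phi (m : ℕ) : eps ((phi ^ m) (FreeGroup.of true)) = ofAdd (Nat.fib (m + 2) : ℤ) := by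
  rw [eps_eq, (fib_phi m).1, (fib_phi m).2, ← ofAdd_add]
  congr 1
  rw [Nat.fib_add_two (n := m)]
  push_cast
  ring

theorem eta_emb (y : FreeGroup Bool) : eta (emb 0 y) = ee true y := by
  have : eta.comp (emb 0) = ee true := by
    refine FreeGroup.ext_hom _ _ fun c => ?_
    cases c <;> simp [eta, emb, ee]
  exact DFunLike.congr_fun this y

/-! ### The value on the words `γ_m` -/

theorem conj_word (m : ℕ) : piT (FreeGroup.of Lab.s ^ m * FreeGroup.of Lab.w1 *
      (FreeGroup.of Lab.s ^ m)⁻¹) =
    (SemidirectProduct.inr (SemidirectProduct.inl ((phi ^ m) (FreeGroup.of true))),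
      SemidirectProduct.inl ((sig ^ m) (FreeGroup.of (some true)))) := by
  have h1 := SemidirectProduct.inl_aut (φ := zpowersHom _ phi) (ofAdd (m : ℤ))
    (FreeGroup.of true)
  have h1' : (zpowersHom _ phi) (ofAdd (m : ℤ)) (FreeGroup.of true) =
      (phi ^ m) (FreeGroup.of true) := by simp
  rw [h1'] at h1
  have h2 := SemidirectProduct.inl_aut (φ := zpowersHom _ sig) (ofAdd (m : ℤ))
    (FreeGroup.of (some true))
  have h2' : (zpowersHom _ sig) (ofAdd (m : ℤ)) (FreeGroup.of (some true)) =
      (sig ^ m) (FreeGroup.of (some true)) := by simp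
  rw [h2'] at h2
  have hm : (ofAdd (1 : ℤ)) ^ m = ofAdd (m : ℤ) := by
    rw [← ofAdd_nsmul]; simp
  have hw : labT Lab.w1 = (SemidirectProduct.inr (SemidirectProduct.inl (FreeGroup.of true)),
      SemidirectProduct.inl (FreeGroup.of (some true))) := by
    change uT _ * tT _ = _
    rw [uT_apply, tT_apply, Prod.mk_mul_mk, one_mul, mul_one]
  rw [map_mul, map_mul, map_inv, map_pow, piT_of, piT_of, labT_s, hw, Prod.pow_mk, Prod.inv_mk,
    Prod.mk_mul_mk, Prod.mk_mul_mk, h1, h2]
  simp only [← map_pow, hm, map_mul, map_inv]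

theorem piT_zeta (m : ℕ) : piT (zetaW m) =
    kT (emb 0 ((phi ^ (Nat.fib (m + 2))) (FreeGroup.of true))) := by
  unfold zetaW
  rw [map_mul, map_mul, map_inv, conj_word, piT_of]
  change _ * kT (FreeGroup.of (0, true)) * _ = _
  rw [of_eq_emb, kT_apply, kT_apply, Prod.inv_mk, Prod.mk_mul_mk, Prod.mk_mul_mk]
  apply Prod.ext
  · simp only
    rw [← map_inv, ← SemidirectProduct.inl_aut]
    have : actQ (SemidirectProduct.inl ((phi ^ m) (FreeGroup.of true))) =
        Phi (kap ((phi ^ m) (FreeGroup.of true))) := by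
      simp [actQ]
    rw [this, Phi_emb]
    have h3 : toAdd (kap ((phi ^ m) (FreeGroup.of true))) 0 = (Nat.fib (m + 2) : ℤ) := by
      change toAdd (eps ((phi ^ (-(0 : ℤ))) ((phi ^ m) (FreeGroup.of true)))) = _
      rw [neg_zero, zpow_zero]
      change toAdd (eps ((phi ^ m) (FreeGroup.of true))) = _
      rw [eps_phi]; rfl
    rw [h3, zpow_natCast]
  · simp

theorem mem_conj (m : ℕ) : FreeGroup.of Lab.s ^ m * FreeGroup.of Lab.w1 *
      (FreeGroup.of Lab.s ^ m)⁻¹ ∈ FF :=
  mul_mem (mul_mem (pow_mem mem_s m) mem_w1) (inv_mem (pow_mem mem_s m))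

theorem mem_zeta (m : ℕ) : zetaW m ∈ FF :=
  mul_mem (mul_mem (mem_conj m) mem_a) (inv_mem (mem_conj m))

/-- commutators do not depend on the central ambiguity. -/
theorem comm_eq {x x' y y' : AH} (hx : pT x = pT x') (hy : pT y = pT y') :
    x * y * x⁻¹ * y⁻¹ = x' * y' * x'⁻¹ * y'⁻¹ := by
  have h1 : pT (x'⁻¹ * x) = 1 := by rw [map_mul, map_inv, hx, inv_mul_cancel]
  have h2 : pT (y'⁻¹ * y) = 1 := by rw [map_mul, map_inv, hy, inv_mul_cancel]
  obtain ⟨n1, hn1⟩ : ∃ n, x'⁻¹ * x = SemidirectProduct.inl (1, n) := ⟨_, pT_ker h1⟩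
  obtain ⟨n2, hn2⟩ : ∃ n, y'⁻¹ * y = SemidirectProduct.inl (1, n) := ⟨_, pT_ker h2⟩
  have ex : x = x' * SemidirectProduct.inl (1, n1) := by rw [← hn1]; group
  have ey : y = y' * SemidirectProduct.inl (1, n2) := by rw [← hn2]; group
  have c1 : ∀ g : AH, Commute (SemidirectProduct.inl (1, n1) : AH) g := fun g =>
    (central n1 g).symm
  have c2 : ∀ g : AH, Commute (SemidirectProduct.inl (1, n2) : AH) g := fun g =>
    (central n2 g).symm
  set a : AH := SemidirectProduct.inl (1, n1)
  set b : AH := SemidirectProduct.inl (1, n2)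
  rw [ex, ey]
  calc x' * a * (y' * b) * (x' * a)⁻¹ * (y' * b)⁻¹
      = x' * (a * y') * (b * a⁻¹) * x'⁻¹ * b⁻¹ * y'⁻¹ := by group
    _ = x' * (y' * a) * (b * a⁻¹) * x'⁻¹ * b⁻¹ * y'⁻¹ := by rw [(c1 y').eq]
    _ = x' * y' * (a * b) * a⁻¹ * x'⁻¹ * b⁻¹ * y'⁻¹ := by group
    _ = x' * y' * (b * a) * a⁻¹ * x'⁻¹ * b⁻¹ * y'⁻¹ := by rw [(c1 b).eq]
    _ = x' * y' * (b * x'⁻¹) * b⁻¹ * y'⁻¹ := by group
    _ = x' * y' * (x'⁻¹ * b) * b⁻¹ * y'⁻¹ := by rw [(c2 x'⁻¹).eq]
    _ = x' * y' * x'⁻¹ * y'⁻¹ := by group

theorem bb_gamma (m : ℕ) : bb (gammaW m) = (Nat.fib (Nat.fib (m + 2) + 1) : ℤ) := by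
  set κ : K1 := emb 0 ((phi ^ (Nat.fib (m + 2))) (FreeGroup.of true)) with hκ
  have hg : gammaW m ∈ FF :=
    mul_mem (mul_mem (mul_mem mem_z (mem_zeta m)) (inv_mem mem_z)) (inv_mem (mem_zeta m))
  have e1 : (⟨gammaW m, hg⟩ : FF) = (⟨_, mem_z⟩ : FF) * ⟨_, mem_zeta m⟩ * (⟨_, mem_z⟩ : FF)⁻¹ *
      (⟨_, mem_zeta m⟩ : FF)⁻¹ := rfl
  let zh : AH := SemidirectProduct.inr (SemidirectProduct.inl (FreeGroup.of none))
  let kh : AH := SemidirectProduct.inl (κ, 1)
  have hz : pT (PhiL ⟨_, mem_z⟩) = pT zh := by
    rw [pT_PhiL, piT_of, pT_apply]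
    change labT Lab.z = (⟨1, fE (SemidirectProduct.inl (FreeGroup.of none))⟩, _)
    rw [fE_none]
    rfl
  have hk : pT (PhiL ⟨_, mem_zeta m⟩) = pT kh := by
    rw [pT_PhiL, piT_zeta, pT_apply]
    change kT κ = (⟨κ, fE 1⟩, _)
    rw [map_one]
    rfl
  have key : PhiL ⟨gammaW m, hg⟩ = SemidirectProduct.inl (1, eta κ) := by
    rw [e1, map_mul, map_mul, map_mul, map_inv, map_inv, comm_eq hz hk]
    change SemidirectProduct.inr (SemidirectProduct.inl (FreeGroup.of none)) *
      SemidirectProduct.inl (κ, 1) *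
      (SemidirectProduct.inr (SemidirectProduct.inl (FreeGroup.of none)))⁻¹ *
      (SemidirectProduct.inl (κ, 1))⁻¹ = _
    rw [← map_inv SemidirectProduct.inr, ← SemidirectProduct.inl_aut, actH_inl, actF_none,
      shear_apply, ← map_inv, ← map_mul]
    congr 1
    apply Prod.ext <;> simp
  rw [bb_eq hg, key, SemidirectProduct.left_inl]
  simp only
  rw [hκ, eta_emb, (fib_phi _).1, toAdd_ofAdd]

end Pool.Agent.SD.BPX

namespace Pool.Agent.SD

theorem bp_proof : Stmt_BP := by
  refine ⟨BPX.bb, ?_, ?_, BPX.bb_gamma⟩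
  · intro u hu v hv
    exact BPX.bb_mul (BPX.LL_le hu) (BPX.LL_le hv)
  · intro x hx l hl
    refine BPX.bb_conj ?_ (BPX.LL_le hl)
    simp only [List.mem_cons, List.not_mem_nil, or_false] at hx
    rcases hx with rfl | rfl | rfl | rfl | rfl | rfl
    · exact BPX.mem_a
    · exact BPX.mem_b
    · exact BPX.mem_w1
    · exact BPX.mem_w2
    · exact BPX.mem_s
    · exact BPX.mem_z

end Pool.Agent.SD
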