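import Mathlib
import Pool.Agent.SD.Defs
import Pool.Agent.SD.Grp

/-!
# Squad SD: statements of the modules (see /team-store/MP_32d448_PROOF.md)
-/

set_option autoImplicit false

namespace Pool.Agent.SD

/-! ## Lower bounds for Dehn functions -/

/-- LOWER.  A conjugation invariant homomorphism `val` on `ker Θ` which is superexponential in the
length forces superexponential areas in EVERY finite presentation of the range of `Θ`. -/
def Stmt_Lower : Prop :=
  ∀ (Y : Type) [Fintype Y] [DecidableEq Y] (G : Type) [Group G] (Θ : FreeGroup Y →* G)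
    (val : FreeGroup Y → ℤ),
    (∀ u v, Θ u = 1 → Θ v = 1 → val (u * v) = val u + val v) →
    (∀ g u, Θ u = 1 → val (g * u * g⁻¹) = val u) →
    (∀ C : ℕ, ∃ w, Θ w = 1 ∧ (C : ℤ) ^ (w.norm + 1) < |val w|) →
    ∀ (n : ℕ) (R : Finset (FreeGroup (Fin n))) (φ : FreeGroup (Fin n) →* G),
      φ.range = Θ.range → φ.ker = Subgroup.normalClosure (R : Set (FreeGroup (Fin n))) →
      ∀ C : ℕ, ∃ w ∈ φ.ker,
        ¬ ProdConj (R : Set (FreeGroup (Fin n))) (C ^ (w.toWord.length + 1)) w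

/-- DEHN.  From areas to the Dehn function. -/
def Stmt_Dehn : Prop :=
  ∀ (n : ℕ) (R : Finset (FreeGroup (Fin n))),
    (∀ C : ℕ, ∃ w ∈ Subgroup.normalClosure (R : Set (FreeGroup (Fin n))),
        ¬ ProdConj (R : Set (FreeGroup (Fin n))) (C ^ (w.toWord.length + 1)) w) →
    ¬ ∃ C : ℝ, 0 < C ∧ ∀ x : ℕ,
      (dehn (R : Set (FreeGroup (Fin n))) x : ℝ) ≤ C * Real.exp (C * x + C) + C * x + C

/-! ## VH complexes: asphericity (van der Waerden with values in a crossed module) -/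

/-- VDW. -/
def Stmt_VdW : Prop :=
  ∀ (H V S : Type) (D : VHData H V S) (M : Type) [Group M]
    (ρ : FreeGroup (H ⊕ V) →* MulAut M) (val : S → M),
    (∀ s m, ρ (D.word s) m = val s * m * (val s)⁻¹) →
    ∃ e : FreeGroup (H ⊕ V) → M,
      (∀ u ∈ D.N, ∀ w ∈ D.N, e (u * w) = e u * e w) ∧
      (∀ s, e (D.word s) = val s) ∧
      (∀ g, ∀ w ∈ D.N, e (g * w * g⁻¹) = ρ g (e w))

/-- CM.  The numerical invariant `n` of null-homotopic words of the gadget, from `VdW` applied to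
the crossed module `ℤ × L`, `L` the normal closure of the relators. -/
def Stmt_CM : Prop :=
  ∀ (X I J : Type) (P : SqPres X I J) (τ : X) (b : FreeGroup X → ℤ),
    (∀ u ∈ Subgroup.normalClosure (Set.range P.rel), ∀ v ∈ Subgroup.normalClosure (Set.range P.rel),
      b (u * v) = b u + b v) →
    (∀ i, (P.sx i ≠ τ ∧ P.sy i ≠ τ ∧ P.sz i ≠ τ ∧ P.sw i ≠ τ) ∨
      (P.sx i = τ ∧ P.sw i = τ ∧ P.sy i = P.sz i ∧ P.sy i ≠ τ ∧
        ∀ l ∈ Subgroup.normalClosure (Set.range P.rel),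
          b (FreeGroup.of (P.sy i) * l * (FreeGroup.of (P.sy i))⁻¹) = b l)) →
    (∀ j, P.tx j ≠ τ ∧ P.ty j ≠ τ ∧ P.tz j ≠ τ) →
    ∃ n : FreeGroup (HL X J ⊕ VL X J) → ℤ,
      (∀ u ∈ P.gad.N, ∀ w ∈ P.gad.N, n (u * w) = n u + n w) ∧
      (∀ s, n (P.gad.word s) = 0) ∧
      (∀ y, NonTau τ y → ∀ w ∈ P.gad.N, n (FreeGroup.of y * w * (FreeGroup.of y)⁻¹) = n w) ∧
      (∀ y, ¬ NonTau τ y → ∀ w ∈ P.gad.N,
        n (FreeGroup.of y * w * (FreeGroup.of y)⁻¹) = n w + b (lab w))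

/-! ## The finitely presented subgroup -/

/-- The section `x ↦ h x` of `lab`. -/
def sec {X J : Type} : FreeGroup X →* FreeGroup (HL X J ⊕ VL X J) :=
  FreeGroup.lift fun x => FreeGroup.of (Sum.inl (HL.h x))

/-- NORM.  In a quotient of `F(Y)` where the trivially labelled squares hold, the core letters
generate a normal subgroup, and every element is a core element times a lift of its label. -/
def Stmt_Norm : Prop :=
  ∀ (X I J : Type) (P : SqPres X I J) (G : Type) [Group G]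
    (θ : FreeGroup (HL X J ⊕ VL X J) →* G),
    (∀ s : SL X I J, s.IsTriv → θ (P.gad.word s) = 1) →
    (∀ g, ∀ n ∈ Subgroup.closure ((fun y => θ (FreeGroup.of y)) '' {y | IsCore y}),
      θ g * n * (θ g)⁻¹ ∈ Subgroup.closure ((fun y => θ (FreeGroup.of y)) '' {y | IsCore y})) ∧
    (∀ g, ∃ n ∈ Subgroup.closure ((fun y => θ (FreeGroup.of y)) '' {y | IsCore y}),
      θ g = n * θ (sec (lab g)))

/-- CENT.  The central kernel lemma. -/
def Stmt_Cent : Prop :=
  ∀ (G : Type) [Group G] (X K : Type) [Fintype X] [DecidableEq X] [Fintype K]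
    (q : G →* FreeGroup X) (ω : K → G) (R : Type) [Group R] (π : FreeGroup X →* R),
    Function.Surjective q → (∀ k n, q n = 1 → Commute (ω k) n) →
    Function.Surjective π →
    π.ker = Subgroup.normalClosure (Set.range fun k => q (ω k)) →
    KFG π (fun k => q (ω k)) →
    ∃ T : Finset G, Subgroup.normalClosure (T : Set G) =
      Subgroup.normalClosure (Set.range ω) ⊓ q.ker

/-- HFP.  The fibre product is finitely presented. -/
def Stmt_HFP : Prop :=
  ∀ (X I J : Type) [Fintype X] [DecidableEq X] [Fintype I] [Fintype J] (P : SqPres X I J)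
    (R : Type) [Group R] (π : FreeGroup X →* R),
    Function.Surjective π → π.ker = Subgroup.normalClosure (Set.range P.rel) → KFG π P.rel →
    ∃ T : Finset (FreeGroup (HL X J ⊕ VL X J)),
      P.Theta.ker = Subgroup.normalClosure (T : Set (FreeGroup (HL X J ⊕ VL X J)))

/-! ## Fox calculus -/

/-- FOX1. Existence of the Fox derivation. -/
def Stmt_FoxEx : Prop :=
  ∀ (X R : Type) [Group R] [DecidableEq X] (π : FreeGroup X →* R), ∃ D, IsFox π D

/-- FOX2. The relation sequence is injective: `L/[L,L] → ℤ[R]^X` is injective. -/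
def Stmt_Magnus : Prop :=
  ∀ (X R : Type) [Group R] [Fintype X] [DecidableEq X] (π : FreeGroup X →* R)
    (D : FreeGroup X → X → MonoidAlgebra ℤ R), IsFox π D → Function.Surjective π →
    ∀ l ∈ π.ker, D l = 0 → l ∈ ⁅π.ker, π.ker⁆

/-- FOX3. Every 1-cycle is the Fox derivative of an element of the kernel. -/
def Stmt_Cycle : Prop :=
  ∀ (X R : Type) [Group R] [Fintype X] [DecidableEq X] (π : FreeGroup X →* R)
    (D : FreeGroup X → X → MonoidAlgebra ℤ R), IsFox π D → Function.Surjective π →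
    ∀ c : X → MonoidAlgebra ℤ R,
      ∑ x, c x * (MonoidAlgebra.of ℤ R (π (FreeGroup.of x)) - 1) = 0 →
      ∃ l ∈ π.ker, D l = c

/-! ## Modules of type FP_n -/

/-- FPK (Schanuel). -/
def Stmt_FPker : Prop :=
  ∀ (A : Type) [Ring A] (n : ℕ) (M : Type) [AddCommGroup M] [Module A M], FP A (n + 1) M →
    ∀ (k : ℕ) (f : (Fin k → A) →ₗ[A] M), Function.Surjective f → FP A n (LinearMap.ker f)

/-- FPQ.  `0 → M' → M → M'' → 0` with `M'` of type `FP_n` and `M` of type `FP_{n+1}`. -/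
def Stmt_FPquot : Prop :=
  ∀ (A : Type) [Ring A] (n : ℕ) (M' M M'' : Type) [AddCommGroup M'] [Module A M']
    [AddCommGroup M] [Module A M] [AddCommGroup M''] [Module A M'']
    (f : M' →ₗ[A] M) (g : M →ₗ[A] M''), Function.Injective f → Function.Surjective g →
    LinearMap.range f = LinearMap.ker g → FP A n M' → FP A (n + 1) M → FP A (n + 1) M''

/-- FPE.  Invariance under isomorphism, monotonicity, finite powers, free modules. -/
def Stmt_FPbasic : Prop :=
  ∀ (A : Type) [Ring A],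
    (∀ (n : ℕ) (M N : Type) [AddCommGroup M] [Module A M] [AddCommGroup N] [Module A N],
      (M ≃ₗ[A] N) → FP A n M → FP A n N) ∧
    (∀ (n : ℕ) (M : Type) [AddCommGroup M] [Module A M], FP A (n + 1) M → FP A n M) ∧
    (∀ (n k : ℕ) (M : Type) [AddCommGroup M] [Module A M], FP A n M → FP A n (Fin k → M)) ∧
    (∀ n : ℕ, FP A n A)

/-- FPG.  `FP_3` groups: the second homotopy module of a finite presentation is finitely
generated. -/
def Stmt_KFG : Prop :=
  ∀ (X R K : Type) [Group R] [Fintype X] [DecidableEq X] [Fintype K] (π : FreeGroup X →* R)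
    (rel : K → FreeGroup X), Function.Surjective π →
    π.ker = Subgroup.normalClosure (Set.range rel) → FPs 3 (⊤ : Subgroup R) → KFG π rel

/-- HNN.  The exact sequence `0 → ℤ[R/E] → ℤ[R/V] → ℤ[R/B] → 0`. -/
def Stmt_HNN : Prop :=
  ∀ (R : Type) [Group R] (B V E : Subgroup R) (t : R), E ≤ V → V ≤ B → t ∈ B →
    B ≤ Subgroup.closure ((V : Set R) ∪ {t}) → (∀ e ∈ E, t⁻¹ * e * t ∈ V) →
    (∃ s : B → (R ⧸ E →₀ ℤ), (∀ g v : B, (v : R) ∈ V → s (g * v) = s g) ∧
      (∀ g t' : B, (t' : R) = t → s (g * t') = s g + Finsupp.single ((g : R) : R ⧸ E) 1)) →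
    ∀ n : ℕ, FPs (n + 1) V → FPs n E → FPs (n + 1) B

/-- FQ.  Free quotients. -/
def Stmt_FQ : Prop :=
  ∀ (R : Type) [Group R] (B E : Subgroup R) (S : Type) [Fintype S] (q : B →* FreeGroup S),
    E ≤ B → Function.Surjective q → (∀ b : B, q b = 1 ↔ (b : R) ∈ E) →
    ∀ n : ℕ, FPs n E → FPs n B

/-! ## The concrete groups -/

/-- RPRES.  `P0` is a presentation of `RC`. -/
def Stmt_RPres : Prop := Function.Surjective piR ∧ piR.ker = LL

/-- The subgroup `N_0 ⋊ F(t1,t2)` of `G2`. -/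
def subGam : Subgroup G2 where
  carrier := {g | g.left ∈ (emb 0).range ∧ g.right.right = 1}
  one_mem' := ⟨one_mem _, rfl⟩
  mul_mem' := by
    rintro x y ⟨⟨p, hp⟩, hx⟩ ⟨⟨q, hq⟩, hy⟩
    refine ⟨?_, by simp [hx, hy]⟩
    have hr : x.right = SemidirectProduct.inl x.right.left := by
      ext
      · rfl
      · rw [hx]; rfl
    rw [SemidirectProduct.mul_left, ← hp, ← hq, hr]
    change _ * actQ (SemidirectProduct.inl x.right.left) (emb 0 q) ∈ _
    have : actQ (SemidirectProduct.inl x.right.left) = Phi (kap x.right.left) := by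
      simp [actQ]
    rw [this, Phi_emb]
    exact mul_mem ⟨_, rfl⟩ ⟨_, rfl⟩
  inv_mem' := by
    rintro x ⟨⟨p, hp⟩, hx⟩
    refine ⟨?_, by simp [hx]⟩
    have hr : x.right⁻¹ = SemidirectProduct.inl x.right.left⁻¹ := by
      rw [map_inv]; congr 1
      ext
      · rfl
      · rw [hx]; rfl
    rw [SemidirectProduct.inv_left, ← hp, hr]
    have : actQ (SemidirectProduct.inl x.right.left⁻¹) = Phi (kap x.right.left⁻¹) := by
      simp [actQ]
    rw [this, ← map_inv, Phi_emb]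
    exact ⟨_, rfl⟩

/-- The subgroup `F(t1,t2)` of `G2`. -/
def subF : Subgroup G2 :=
  ((SemidirectProduct.inr : Q →* G2).comp (SemidirectProduct.inl : FreeGroup Bool →* Q)).range

/-- The element `r` of `G2`. -/
def rG : G2 := SemidirectProduct.inr (SemidirectProduct.inr (Multiplicative.ofAdd 1))

/-- SG2.  `G2` is an HNN extension of `subGam` along `subF` with stable letter `r` (function
form). -/
def Stmt_SG2 : Prop :=
  ∃ s : G2 → (G2 ⧸ subF →₀ ℤ), (∀ g v : G2, v ∈ subGam → s (g * v) = s g) ∧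
    (∀ g : G2, s (g * rG) = s g + Finsupp.single (g : G2 ⧸ subF) 1)

/-- FPR.  `RC` is of type `FP_3`. -/
def Stmt_FPR : Prop := FPs 3 (⊤ : Subgroup RC)

/-- BP.  The function `b'`. -/
def Stmt_BP : Prop :=
  ∃ b : FreeGroup Lab → ℤ, (∀ u ∈ LL, ∀ v ∈ LL, b (u * v) = b u + b v) ∧
    (∀ x ∈ [Lab.a, Lab.b, Lab.w1, Lab.w2, Lab.s, Lab.z], ∀ l ∈ LL,
      b (FreeGroup.of x * l * (FreeGroup.of x)⁻¹) = b l) ∧
    ∀ m : ℕ, b (gammaW m) = (Nat.fib (Nat.fib (m + 2) + 1) : ℤ)

/-- WORDS.  Short words in `DD` with labels `γ_m` and `[γ_m, τ]`. -/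
def Stmt_Words : Prop :=
  ∃ c : ℕ, ∀ m : ℕ,
    (∃ D ∈ P0.DD Lab.ta, lab D = gammaW m ∧ D.norm ≤ c * (m + 1) ^ 3) ∧
    (∃ D ∈ P0.DD Lab.ta, lab D = gammaW m * FreeGroup.of Lab.ta * (gammaW m)⁻¹ *
        (FreeGroup.of Lab.ta)⁻¹ ∧ D.norm ≤ c * (m + 1) ^ 3)

/-- GROW. -/
def Stmt_Grow : Prop :=
  ∀ c C : ℕ, ∃ m : ℕ, C ^ (c * (m + 1) ^ 3) < Nat.fib (Nat.fib (m + 2) + 1)

/-- MAIN.  The subgroup `P0.Theta.range` of `Γ₁ × F(Lab)` is finitely presented and every
finite presentation of it has superexponential Dehn function. -/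
def Stmt_Main : Prop :=
  (∃ T : Finset (FreeGroup (HL Lab (Fin 6) ⊕ VL Lab (Fin 6))),
      P0.Theta.ker = Subgroup.normalClosure (T : Set _)) ∧
  (∀ (n : ℕ) (R : Finset (FreeGroup (Fin n)))
    (φ : FreeGroup (Fin n) →* P0.gad.Grp × FreeGroup Lab),
      φ.range = P0.Theta.range → φ.ker = Subgroup.normalClosure (R : Set (FreeGroup (Fin n))) →
      ∀ C : ℕ, ∃ w ∈ φ.ker,
        ¬ ProdConj (R : Set (FreeGroup (Fin n))) (C ^ (w.toWord.length + 1)) w)

end Pool.Agent.SD
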