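import Mathlib
import Pool.Agent.SD.Stmts

/-!
# Squad SD, module CENT: the central kernel lemma
-/

set_option autoImplicit false

namespace Pool.Agent.SD
namespace CentX

open Subgroup

section
variable {G : Type} [Group G] {X K : Type} [Fintype X] [DecidableEq X] [Fintype K] [DecidableEq K]
  {R : Type} [Group R]

omit [Fintype K] [DecidableEq K] in
theorem commZ {F : Type} [Group F] (q : G →* F) (ω : K → G)
    (hc : ∀ k n, q n = 1 → Commute (ω k) n) :
    ∀ z ∈ normalClosure (Set.range ω), ∀ n, q n = 1 → Commute z n := by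
  have h : normalClosure (Set.range ω) ≤ centralizer (q.ker : Subgroup G) := by
    apply normalClosure_le_normal
    rintro _ ⟨k, rfl⟩
    rw [SetLike.mem_coe, mem_centralizer_iff]
    intro n hn
    exact (hc k n hn).eq.symm
  intro z hz n hn
  exact (mem_centralizer_iff.1 (h hz) n hn).symm

omit [Fintype X] [DecidableEq X] in
/-- A retraction of `Z0` onto `Z0 ∩ ker q`. -/
theorem retr (q : G →* FreeGroup X) (Z0 : Subgroup G)
    (hZ : ∀ z ∈ Z0, ∀ n, q n = 1 → Commute z n) :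
    ∃ κ : Z0 →* G, (∀ z, q (κ z) = 1) ∧ (∀ z : Z0, κ z ∈ Z0) ∧
      (∀ z : Z0, q z = 1 → κ z = z) := by
  classical
  have hs : ∀ l : Z0.map q, ∃ z : Z0, q z = l := by
    rintro ⟨l, z, hz, rfl⟩; exact ⟨⟨z, hz⟩, rfl⟩
  choose s hs using hs
  let σ : Z0.map q →* Z0 := IsFreeGroup.lift (fun g => s (IsFreeGroup.of g))
  have hσ : ∀ l, q (σ l) = l := by
    have : (q.comp (Z0.subtype)).comp σ = (Z0.map q).subtype := by
      apply IsFreeGroup.ext_hom
      intro a
      simp [σ, hs]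
    intro l; exact DFunLike.congr_fun this l
  have hκ1 : ∀ z : Z0, q ((z : G) * ((σ (q.subgroupMap Z0 z) : Z0) : G)⁻¹) = 1 := by
    intro z
    rw [map_mul, map_inv, hσ]
    exact mul_inv_cancel _
  refine ⟨{ toFun := fun z => (z : G) * ((σ (q.subgroupMap Z0 z) : Z0) : G)⁻¹,
            map_one' := by simp, map_mul' := ?_}, hκ1, ?_, ?_⟩
  · intro z z'
    have h1 := hZ (σ (q.subgroupMap Z0 z) : Z0) (σ (q.subgroupMap Z0 z) : Z0).2 _ (hκ1 z')
    have h2 := (h1.inv_left).eq
    simp only [map_mul, Subgroup.coe_mul, mul_inv_rev]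
    calc (z : G) * z' * (((σ (q.subgroupMap Z0 z') : Z0) : G)⁻¹ *
          ((σ (q.subgroupMap Z0 z) : Z0) : G)⁻¹)
        = z * ((z' * ((σ (q.subgroupMap Z0 z') : Z0) : G)⁻¹) *
          ((σ (q.subgroupMap Z0 z) : Z0) : G)⁻¹) := by group
      _ = _ := by rw [← h2]; group
  · intro z
    exact Z0.mul_mem z.2 (Z0.inv_mem (σ (q.subgroupMap Z0 z) : Z0).2)
  · intro z hz
    have : q.subgroupMap Z0 z = 1 := by
      ext1
      exact hz
    change (z : G) * ((σ (q.subgroupMap Z0 z) : Z0) : G)⁻¹ = z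
    rw [this]; simp

/-- `z` represents the formal sum `c`. -/
inductive Rel (p : G →* R) (ω : K → G) : G → (K → MonoidAlgebra ℤ R) → Prop
  | gen (g : G) (k : K) : Rel p ω (g * ω k * g⁻¹) (Pi.single k (MonoidAlgebra.of ℤ R (p g)))
  | one : Rel p ω 1 0
  | mul {z z' : G} {c c' : K → MonoidAlgebra ℤ R} :
      Rel p ω z c → Rel p ω z' c' → Rel p ω (z * z') (c + c')
  | inv {z : G} {c : K → MonoidAlgebra ℤ R} : Rel p ω z c → Rel p ω z⁻¹ (-c)

variable {p : G →* R} {ω : K → G}

omit [Fintype K] in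
theorem Rel.mem {z : G} {c : K → MonoidAlgebra ℤ R} (h : Rel p ω z c) :
    z ∈ normalClosure (Set.range ω) := by
  induction h with
  | gen g k => exact normalClosure_normal.conj_mem _ (subset_normalClosure (Set.mem_range_self k)) g
  | one => exact one_mem _
  | mul _ _ h1 h2 => exact mul_mem h1 h2
  | inv _ h => exact inv_mem h

omit [Fintype K] in
theorem Rel.exists_right {z : G} (h : z ∈ normalClosure (Set.range ω)) :
    ∃ c, Rel p ω z c := by
  unfold normalClosure at h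
  induction h using closure_induction with
  | mem x hx =>
    rw [Group.mem_conjugatesOfSet_iff] at hx
    obtain ⟨_, ⟨k, rfl⟩, hx⟩ := hx
    rw [isConj_iff] at hx
    obtain ⟨g, rfl⟩ := hx
    exact ⟨_, Rel.gen g k⟩
  | one => exact ⟨0, Rel.one⟩
  | mul x y _ _ h1 h2 =>
    obtain ⟨c, hc⟩ := h1
    obtain ⟨c', hc'⟩ := h2
    exact ⟨_, hc.mul hc'⟩
  | inv x _ h =>
    obtain ⟨c, hc⟩ := h
    exact ⟨_, hc.inv⟩

omit [Fintype K] in
theorem Rel.conj {z : G} {c : K → MonoidAlgebra ℤ R} (g : G) (h : Rel p ω z c) :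
    Rel p ω (g * z * g⁻¹) (MonoidAlgebra.of ℤ R (p g) • c) := by
  induction h with
  | gen g' k =>
    have := Rel.gen (p := p) (ω := ω) (g * g') k
    convert this using 1
    · group
    · rw [← Pi.single_smul, map_mul, map_mul, smul_eq_mul]
  | one => simpa using Rel.one (p := p) (ω := ω)
  | mul _ _ h1 h2 =>
    convert h1.mul h2 using 1
    · group
    · rw [smul_add]
  | inv _ h =>
    convert h.inv using 1
    · group
    · rw [smul_neg]

omit [Fintype K] [DecidableEq K] in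
theorem smul_closed (S : AddSubgroup (K → MonoidAlgebra ℤ R))
    (h : ∀ r : R, ∀ c ∈ S, MonoidAlgebra.of ℤ R r • c ∈ S) (a : MonoidAlgebra ℤ R)
    (c : K → MonoidAlgebra ℤ R) (hc : c ∈ S) : a • c ∈ S := by
  induction a using MonoidAlgebra.induction_linear with
  | zero => simp
  | add a b ha hb => rw [add_smul]; exact add_mem ha hb
  | single r n =>
    have : (MonoidAlgebra.single r n : MonoidAlgebra ℤ R) = n • MonoidAlgebra.of ℤ R r := by
      simp [MonoidAlgebra.of]
    rw [this, smul_assoc]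
    exact zsmul_mem (h r c hc) n

theorem Rel.exists_left (hp : Function.Surjective p) (c : K → MonoidAlgebra ℤ R) :
    ∃ z, Rel p ω z c := by
  let S : AddSubgroup (K → MonoidAlgebra ℤ R) :=
    { carrier := {c | ∃ z, Rel p ω z c}
      zero_mem' := ⟨1, Rel.one⟩
      add_mem' := by rintro a b ⟨z, hz⟩ ⟨z', hz'⟩; exact ⟨_, hz.mul hz'⟩
      neg_mem' := by rintro a ⟨z, hz⟩; exact ⟨_, hz.inv⟩ }
  have hS : ∀ (a : MonoidAlgebra ℤ R) (c) (_ : c ∈ S), a • c ∈ S := by
    intro a c hc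
    refine smul_closed S ?_ a c hc
    rintro r c ⟨z, hz⟩
    obtain ⟨g, rfl⟩ := hp r
    exact ⟨_, hz.conj g⟩
  have h1 : ∀ k, Pi.single k (1 : MonoidAlgebra ℤ R) ∈ S := by
    intro k
    refine ⟨ω k, ?_⟩
    have := Rel.gen (p := p) (ω := ω) 1 k
    rwa [map_one, map_one, one_mul, inv_one, mul_one] at this
  have h2 : c = ∑ k, c k • (Pi.single k (1 : MonoidAlgebra ℤ R) : K → MonoidAlgebra ℤ R) := by
    funext k
    simp [Finset.sum_apply, Pi.single_apply]
  change c ∈ S
  rw [h2]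
  exact sum_mem fun k _ => hS _ _ (h1 k)

omit [Fintype X] in
theorem D_one {π : FreeGroup X →* R} {D : FreeGroup X → X → MonoidAlgebra ℤ R}
    (hD : IsFox π D) (x : X) : D 1 x = 0 := by
  have := hD.1 1 1 x
  rw [one_mul, map_one, map_one, one_mul] at this
  exact add_eq_left.1 this.symm

omit [Fintype X] in
theorem D_inv {π : FreeGroup X →* R} {D : FreeGroup X → X → MonoidAlgebra ℤ R}
    (hD : IsFox π D) (u : FreeGroup X) (x : X) :
    D u x + MonoidAlgebra.of ℤ R (π u) * D u⁻¹ x = 0 := by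
  rw [← hD.1, mul_inv_cancel, D_one hD]

omit [Fintype X] in
theorem Rel.fox {q : G →* FreeGroup X} {π : FreeGroup X →* R}
    {D : FreeGroup X → X → MonoidAlgebra ℤ R}
    (hD : IsFox π D) (hω : ∀ k, π (q (ω k)) = 1) {z : G} {c : K → MonoidAlgebra ℤ R}
    (h : Rel (π.comp q) ω z c) :
    π (q z) = 1 ∧ ∀ x, D (q z) x = ∑ k, c k * D (q (ω k)) x := by
  induction h with
  | gen g k =>
    refine ⟨by simp [hω], fun x => ?_⟩
    have h1 : ∑ k', (Pi.single k (MonoidAlgebra.of ℤ R ((π.comp q) g)) : K → MonoidAlgebra ℤ R) k' *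
        D (q (ω k')) x = MonoidAlgebra.of ℤ R (π (q g)) * D (q (ω k)) x := by
      rw [Finset.sum_eq_single k]
      · simp
      · intro b _ hb; simp [hb]
      · simp
    rw [h1, map_mul, map_mul, map_inv, hD.1, hD.1]
    have h2 := D_inv hD (q g) x
    have h3 : π (q g * q (ω k)) = π (q g) := by rw [map_mul, hω, mul_one]
    rw [h3, add_assoc, add_comm, add_assoc]
    rw [add_comm (MonoidAlgebra.of ℤ R (π (q g)) * D (q g)⁻¹ x), h2, add_zero]
  | one =>
    refine ⟨by simp, fun x => ?_⟩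
    simp [D_one hD]
  | mul _ _ h1 h2 =>
    refine ⟨by simp [h1.1, h2.1], fun x => ?_⟩
    rw [map_mul, hD.1, h1.1, h1.2, h2.2, map_one, one_mul, ← Finset.sum_add_distrib]
    refine Finset.sum_congr rfl fun k _ => ?_
    rw [Pi.add_apply, add_mul]
  | inv _ h =>
    refine ⟨by simp [h.1], fun x => ?_⟩
    have h2 := D_inv hD (q ‹G›) x
    rename_i z c _
    have h2 := D_inv hD (q z) x
    rw [h.1, map_one, one_mul, h.2] at h2
    rw [map_inv]
    have h3 := eq_neg_of_add_eq_zero_right h2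
    rw [h3, ← Finset.sum_neg_distrib]
    refine Finset.sum_congr rfl fun k _ => ?_
    rw [Pi.neg_apply, neg_mul]

/-- A hom from `Z0` to a commutative group kills the elements representing `0`. -/
theorem Rel.zero {F : Type} [Group F] {q : G →* F} {π : F →* R}
    (hp : Function.Surjective (π.comp q))
    (hZ : ∀ z ∈ normalClosure (Set.range ω), ∀ n, q n = 1 → Commute z n)
    (hL : ∀ g : G, π (q g) = 1 → ∃ z ∈ normalClosure (Set.range ω), q z = q g)
    {C : Type} [CommGroup C] (κ : normalClosure (Set.range ω) →* C)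
    {z : G} (h : Rel (π.comp q) ω z 0) : κ ⟨z, h.mem⟩ = 1 := by
  classical
  choose s hs using hp
  have hm : ∀ g k, g * ω k * g⁻¹ ∈ normalClosure (Set.range ω) := fun g k =>
    normalClosure_normal.conj_mem _ (subset_normalClosure (Set.mem_range_self k)) g
  have hwd : ∀ g g' : G, ∀ k, π (q g) = π (q g') →
      κ ⟨g * ω k * g⁻¹, hm g k⟩ = κ ⟨g' * ω k * g'⁻¹, hm g' k⟩ := by
    intro g g' k hg
    obtain ⟨z, hz, hqz⟩ := hL (g⁻¹ * g') (by simp [hg])
    have hn : q (z⁻¹ * (g⁻¹ * g')) = 1 := by rw [map_mul, map_inv, hqz, inv_mul_cancel]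
    have hn' := hZ (ω k) (subset_normalClosure (Set.mem_range_self k)) _ hn
    have e1 : g' * ω k * g'⁻¹ = (g * z * g⁻¹) * (g * ω k * g⁻¹) * (g * z * g⁻¹)⁻¹ := by
      have e2 : z⁻¹ * (g⁻¹ * g') * ω k * (z⁻¹ * (g⁻¹ * g'))⁻¹ = ω k := by
        rw [← hn'.eq]; group
      calc g' * ω k * g'⁻¹ = g * z * (z⁻¹ * (g⁻¹ * g') * ω k * (z⁻¹ * (g⁻¹ * g'))⁻¹) *
            z⁻¹ * g⁻¹ := by group
        _ = _ := by rw [e2]; group
    have hzg : g * z * g⁻¹ ∈ normalClosure (Set.range ω) :=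
      normalClosure_normal.conj_mem _ hz g
    have e3 : (⟨g' * ω k * g'⁻¹, hm g' k⟩ : normalClosure (Set.range ω)) =
        ⟨g * z * g⁻¹, hzg⟩ * ⟨g * ω k * g⁻¹, hm g k⟩ * (⟨g * z * g⁻¹, hzg⟩)⁻¹ := by
      ext1; simpa using e1
    rw [e3, map_mul, map_mul, map_inv, mul_comm (κ _) (κ _), mul_inv_cancel_right]
  let rk : K → MonoidAlgebra ℤ R →+ Additive C := fun k =>
    (Finsupp.liftAddHom (fun r => (zmultiplesHom (Additive C))
      (Additive.ofMul (κ ⟨s r * ω k * (s r)⁻¹, hm (s r) k⟩)))).comp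
      MonoidAlgebra.coeffAddEquiv.toAddMonoidHom
  have hrk : ∀ k r, rk k (MonoidAlgebra.of ℤ R r) =
      Additive.ofMul (κ ⟨s r * ω k * (s r)⁻¹, hm (s r) k⟩) := by
    intro k r
    simp [rk, MonoidAlgebra.of]
  have key : ∀ z c (h : Rel (π.comp q) ω z c),
      Additive.ofMul (κ ⟨z, h.mem⟩) = ∑ k, rk k (c k) := by
    intro z c h
    induction h with
    | gen g k =>
      rw [Finset.sum_eq_single k]
      · rw [Pi.single_eq_same, hrk]
        congr 1
        apply hwd
        have := hs ((π.comp q) g)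
        simpa using this.symm
      · intro b _ hb; simp [hb]
      · simp
    | one =>
      have : (⟨1, (Rel.one (p := π.comp q) (ω := ω)).mem⟩ : normalClosure (Set.range ω)) = 1 := rfl
      rw [this]; simp
    | mul h1 h2 ih1 ih2 =>
      have e : (⟨_, (h1.mul h2).mem⟩ : normalClosure (Set.range ω)) =
        ⟨_, h1.mem⟩ * ⟨_, h2.mem⟩ := rfl
      rw [e, map_mul, ofMul_mul, ih1, ih2, ← Finset.sum_add_distrib]
      refine Finset.sum_congr rfl fun k _ => ?_
      rw [Pi.add_apply, map_add]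
    | inv h ih =>
      have e : (⟨_, h.inv.mem⟩ : normalClosure (Set.range ω)) = (⟨_, h.mem⟩)⁻¹ := rfl
      rw [e, map_inv, ofMul_inv, ih, ← Finset.sum_neg_distrib]
      refine Finset.sum_congr rfl fun k _ => ?_
      rw [Pi.neg_apply, map_neg]
  have := key z 0 h
  simpa using this

end
end CentX

open CentX Subgroup in
theorem CENT_proof (hM : Stmt_Magnus) (hF : Stmt_FoxEx) : Stmt_Cent := by
  intro G _ X K _ _ _ q ω R _ π hq hc hπ hker hK
  classical
  obtain ⟨D, hD⟩ := hF X R π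
  obtain ⟨T0, hT0⟩ := hK D hD
  set Z0 := normalClosure (Set.range ω) with hZ0
  have hZ := commZ q ω hc
  have hmap : Z0.map q = π.ker := by
    rw [hker, hZ0, map_normalClosure _ _ hq]
    congr 1
    ext y; simp [Set.mem_image]
  have hω : ∀ k, π (q (ω k)) = 1 := fun k => by
    rw [← MonoidHom.mem_ker, hker]
    exact subset_normalClosure (Set.mem_range_self k)
  have hL : ∀ g : G, π (q g) = 1 → ∃ z ∈ Z0, q z = q g := by
    intro g hg
    rw [← MonoidHom.mem_ker, ← hmap] at hg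
    exact hg
  have hp : Function.Surjective (π.comp q) := hπ.comp hq
  obtain ⟨κ, hκ1, hκ2, hκ3⟩ := retr q Z0 hZ
  -- the choice of `T`
  have hch : ∀ c ∈ T0, ∃ k ∈ Z0 ⊓ q.ker, ∃ w ∈ ⁅Z0, Z0⁆, Rel (π.comp q) ω (k * w) c := by
    intro c hc0
    obtain ⟨z, hz⟩ := Rel.exists_left (ω := ω) hp c
    have hcm : c ∈ {c : K → MonoidAlgebra ℤ R | ∀ x, ∑ k, c k * D (q (ω k)) x = 0} := by
      rw [hT0]; exact Submodule.subset_span hc0
    have hDz : D (q z) = 0 := by
      funext x
      rw [(hz.fox hD hω).2 x]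
      exact hcm x
    have h1 := hM X R π D hD hπ (q z) (hz.fox hD hω).1 hDz
    rw [← hmap, ← map_commutator] at h1
    obtain ⟨w, hw, hwz⟩ := h1
    refine ⟨z * w⁻¹, Subgroup.mem_inf.2 ⟨?_, ?_⟩, w, hw, ?_⟩
    · exact mul_mem hz.mem (inv_mem (commutator_le_left _ _ hw))
    · rw [MonoidHom.mem_ker, map_mul, map_inv, hwz, mul_inv_cancel]
    · simpa using hz
  choose! f hf1 hf2 using hch
  refine ⟨T0.image f, le_antisymm ?_ ?_⟩
  · have : (Z0 ⊓ q.ker).Normal := inferInstance
    apply normalClosure_le_normal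
    intro x hx
    rw [Finset.coe_image] at hx
    obtain ⟨c, hc0, rfl⟩ := hx
    exact hf1 c hc0
  · set N := normalClosure ((T0.image f : Finset G) : Set G) with hN
    have : N.Normal := normalClosure_normal
    have : (⁅Z0, Z0⁆ : Subgroup G).Normal := inferInstance
    let S : AddSubgroup (K → MonoidAlgebra ℤ R) :=
      { carrier := {c | ∃ k ∈ N, ∃ w ∈ ⁅Z0, Z0⁆, Rel (π.comp q) ω (k * w) c}
        zero_mem' := ⟨1, one_mem _, 1, one_mem _, by simpa using Rel.one⟩
        add_mem' := by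
          rintro a b ⟨k, hk, w, hw, h⟩ ⟨k', hk', w', hw', h'⟩
          refine ⟨k * k', mul_mem hk hk', (k'⁻¹ * w * k'⁻¹⁻¹) * w',
            mul_mem (Normal.conj_mem inferInstance _ hw _) hw', ?_⟩
          convert h.mul h' using 1
          group
        neg_mem' := by
          rintro a ⟨k, hk, w, hw, h⟩
          refine ⟨k⁻¹, inv_mem hk, k * w⁻¹ * k⁻¹,
            Normal.conj_mem inferInstance _ (inv_mem hw) _, ?_⟩
          convert h.inv using 1
          group }
    let M : Submodule (MonoidAlgebra ℤ R) (K → MonoidAlgebra ℤ R) :=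
      { carrier := S
        zero_mem' := S.zero_mem
        add_mem' := S.add_mem
        smul_mem' := by
          intro a c hc0
          refine smul_closed S ?_ a c hc0
          rintro r c ⟨k, hk, w, hw, h⟩
          obtain ⟨g, rfl⟩ := hp r
          refine ⟨g * k * g⁻¹, Normal.conj_mem inferInstance _ hk _, g * w * g⁻¹,
            Normal.conj_mem inferInstance _ hw _, ?_⟩
          convert h.conj g using 1
          group }
    have hspan : Submodule.span (MonoidAlgebra ℤ R) (T0 : Set (K → MonoidAlgebra ℤ R)) ≤ M := by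
      rw [Submodule.span_le]
      intro c hc0
      obtain ⟨w, hw, h⟩ := hf2 c hc0
      exact ⟨f c, subset_normalClosure (by simpa using ⟨c, hc0, rfl⟩), w, hw, h⟩
    rintro k ⟨hk1, hk2⟩
    obtain ⟨c, hkc⟩ := Rel.exists_right (p := π.comp q) (ω := ω) hk1
    have hcm : c ∈ {c : K → MonoidAlgebra ℤ R | ∀ x, ∑ k, c k * D (q (ω k)) x = 0} := by
      intro x
      rw [← (hkc.fox hD hω).2 x]
      have : q k = 1 := hk2
      rw [this, D_one hD]
    rw [hT0] at hcm
    obtain ⟨k', hk', w, hw, h⟩ := hspan hcm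
    have hN' : N ≤ Z0 ⊓ q.ker := by
      have : (Z0 ⊓ q.ker).Normal := inferInstance
      apply normalClosure_le_normal
      intro x hx
      rw [Finset.coe_image] at hx
      obtain ⟨c, hc0, rfl⟩ := hx
      exact hf1 c hc0
    -- commutative target
    let _ : CommGroup (Z0 ⊓ q.ker : Subgroup G) :=
      { (inferInstance : Group (Z0 ⊓ q.ker : Subgroup G)) with
        mul_comm := by
          rintro ⟨a, ha⟩ ⟨b, hb⟩
          ext1
          exact (hZ a ha.1 b hb.2).eq }
    let κ' : Z0 →* (Z0 ⊓ q.ker : Subgroup G) := κ.codRestrict _ (fun z => ⟨hκ2 z, hκ1 z⟩)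
    have h0 : Rel (π.comp q) ω (k * (k' * w)⁻¹) 0 := by
      have := hkc.mul h.inv
      rwa [add_neg_cancel] at this
    have h1 := Rel.zero hp hZ hL κ' h0
    have h2 : (κ' ⟨k * (k' * w)⁻¹, h0.mem⟩ : G) = 1 := by rw [h1]; rfl
    have hwZ : w ∈ Z0 := commutator_le_left _ _ hw
    have hk'Z : k' ∈ Z0 := (hN' hk').1
    have e : (⟨k * (k' * w)⁻¹, h0.mem⟩ : Z0) = ⟨k, hk1⟩ * (⟨k', hk'Z⟩ * ⟨w, hwZ⟩)⁻¹ := rfl
    have h3 : κ' ⟨w, hwZ⟩ = 1 := by
      have hw' : (⟨w, hwZ⟩ : Z0) ∈ commutator Z0 := by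
        have : (commutator Z0).map Z0.subtype = ⁅Z0, Z0⁆ := by
          rw [_root_.commutator_def, map_commutator]
          rw [← MonoidHom.range_eq_map, Subgroup.range_subtype]
        rw [← this] at hw
        obtain ⟨y, hy, hyw⟩ := hw
        have : y = ⟨w, hwZ⟩ := by ext1; exact hyw
        rwa [← this]
      exact Abelianization.commutator_subset_ker κ' hw'
    have h4 : (κ' ⟨k, hk1⟩ : G) = k := hκ3 ⟨k, hk1⟩ hk2
    have h5 : (κ' ⟨k', hk'Z⟩ : G) = k' := hκ3 ⟨k', hk'Z⟩ (hN' hk').2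
    rw [e, map_mul, map_inv, map_mul, h3, mul_one] at h1
    have h6 : κ' ⟨k, hk1⟩ = κ' ⟨k', hk'Z⟩ := by
      rwa [mul_inv_eq_one] at h1
    have h7 : k = k' := by
      rw [← h4, ← h5, h6]
    rw [h7]; exact hk'

end Pool.Agent.SD
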