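import Mathlib
import Pool.Agent.SD.Stmts

/-!
# Squad SD: the numerical invariant from the crossed module `ℤ × L`
-/

set_option autoImplicit false
set_option linter.unusedSectionVars false

namespace Pool.Agent.SD

namespace CmX

section gen

variable {F : Type} [Group F] (L : Subgroup F) [L.Normal]

/-- the crossed module -/
abbrev MM : Type := Multiplicative ℤ × L

/-- conjugation on the second factor -/
def Cj : F →* MulAut (MM L) where
  toFun g := MulEquiv.prodCongr (MulEquiv.refl _) (MulAut.conjNormal g)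
  map_one' := by
    ext1 m
    change (m.1, MulAut.conjNormal (1 : F) m.2) = m
    rw [map_one]; rfl
  map_mul' g h := by
    ext1 m
    change (m.1, MulAut.conjNormal (g * h) m.2) =
      (m.1, MulAut.conjNormal g (MulAut.conjNormal h m.2))
    rw [map_mul]; rfl

/-- the shear of a homomorphism -/
def Sh (β : L →* Multiplicative ℤ) : MulAut (MM L) where
  toFun m := (m.1 * β m.2, m.2)
  invFun m := (m.1 * (β m.2)⁻¹, m.2)
  left_inv m := by simp
  right_inv m := by simp
  map_mul' m m' := by
    refine Prod.ext ?_ rfl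
    change m.1 * m'.1 * β (m.2 * m'.2) = m.1 * β m.2 * (m'.1 * β m'.2)
    rw [map_mul]
    exact mul_mul_mul_comm _ _ _ _

variable {L}

lemma Cj_mem (w : F) (hw : w ∈ L) : Cj L w = MulAut.conj ((1, ⟨w, hw⟩) : MM L) := by
  ext1 m
  refine Prod.ext ?_ (Subtype.ext ?_)
  · change m.1 = 1 * m.1 * 1⁻¹
    simp
  · change (MulAut.conjNormal w m.2 : F) = w * m.2 * w⁻¹
    rw [MulAut.conjNormal_apply]

lemma conj_central (c : Multiplicative ℤ) (l : L) :
    MulAut.conj ((c, l) : MM L) = MulAut.conj ((1, l) : MM L) := by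
  ext1 m
  refine Prod.ext ?_ rfl
  change c * m.1 * c⁻¹ = 1 * m.1 * 1⁻¹
  rw [mul_comm c, mul_inv_cancel_right]
  simp

lemma Sh_comm (β : L →* Multiplicative ℤ) (x : F)
    (h : ∀ l, β (MulAut.conjNormal x l) = β l) : Sh L β * Cj L x = Cj L x * Sh L β := by
  ext1 m
  refine Prod.ext ?_ rfl
  change m.1 * β (MulAut.conjNormal x m.2) = m.1 * β m.2
  rw [h]

end gen

section act

variable {X : Type} [DecidableEq X] (L : Subgroup (FreeGroup X)) [L.Normal]
  (β : L →* Multiplicative ℤ) (τ : X)

/-- the action of the free group -/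
def Ac : FreeGroup X →* MulAut (MM L) :=
  FreeGroup.lift fun x => if x = τ then Cj L (FreeGroup.of x) * Sh L β else Cj L (FreeGroup.of x)

lemma Ac_of (x : X) (h : x ≠ τ) : Ac L β τ (FreeGroup.of x) = Cj L (FreeGroup.of x) := by
  simp [Ac, h]

lemma Ac_tau : Ac L β τ (FreeGroup.of τ) = Cj L (FreeGroup.of τ) * Sh L β := by
  simp [Ac]

lemma Ac_snd (g : FreeGroup X) (m : MM L) :
    ((Ac L β τ g m).2 : FreeGroup X) = g * m.2 * g⁻¹ := by
  induction g using FreeGroup.induction_on generalizing m with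
  | C1 => simp
  | of x =>
    by_cases h : x = τ
    · subst h
      rw [Ac_tau]
      change (MulAut.conjNormal _ m.2 : FreeGroup X) = _
      rw [MulAut.conjNormal_apply]
    · rw [Ac_of L β τ x h]
      change (MulAut.conjNormal _ m.2 : FreeGroup X) = _
      rw [MulAut.conjNormal_apply]
  | inv_of x ih =>
    have h := ih ((Ac L β τ (FreeGroup.of x))⁻¹ m)
    rw [MulAut.apply_inv_self] at h
    rw [map_inv, h]
    group
  | mul g h ihg ihh =>
    rw [map_mul, MulAut.mul_apply, ihg, ihh]
    group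

/-- `w ∈ L` acts by an inner automorphism -/
lemma Ac_mem {R : Set (FreeGroup X)} (hL : L = Subgroup.normalClosure R)
    (hR : ∀ r ∈ R, Ac L β τ r = Cj L r) (w : FreeGroup X) (hw : w ∈ L) :
    Ac L β τ w = MulAut.conj ((1, ⟨w, hw⟩) : MM L) := by
  let K : Subgroup (FreeGroup X) :=
    { carrier := {w | ∃ h : w ∈ L, Ac L β τ w = MulAut.conj ((1, ⟨w, h⟩) : MM L)}
      mul_mem' := by
        rintro a b ⟨ha, ha'⟩ ⟨hb, hb'⟩
        refine ⟨mul_mem ha hb, ?_⟩
        rw [map_mul, ha', hb', ← map_mul]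
        congr 1
      one_mem' := ⟨one_mem _, by
        rw [map_one]
        exact (map_one MulAut.conj).symm⟩
      inv_mem' := by
        rintro a ⟨ha, ha'⟩
        refine ⟨inv_mem ha, ?_⟩
        rw [map_inv, ha', ← map_inv]
        congr 1 }
  have hK : L ≤ K := by
    have : K.Normal := ⟨by
      rintro n ⟨hn, hn'⟩ g
      have hgn : g * n * g⁻¹ ∈ L := ‹L.Normal›.conj_mem n hn g
      refine ⟨hgn, ?_⟩
      rw [map_mul, map_mul, hn', map_inv]
      have h1 : Ac L β τ g * MulAut.conj ((1, ⟨n, hn⟩) : MM L) * (Ac L β τ g)⁻¹ =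
          MulAut.conj (Ac L β τ g ((1, ⟨n, hn⟩) : MM L)) := by
        ext1 m
        rw [MulAut.mul_apply, MulAut.mul_apply, MulAut.conj_apply, MulAut.conj_apply, map_mul,
          map_mul, MulAut.apply_inv_self, map_inv]
      rw [h1]
      have h2 : Ac L β τ g ((1, ⟨n, hn⟩) : MM L) =
          ((Ac L β τ g ((1, ⟨n, hn⟩) : MM L)).1, ⟨g * n * g⁻¹, hgn⟩) := by
        refine Prod.ext rfl (Subtype.ext ?_)
        rw [Ac_snd]
      rw [h2, conj_central]⟩
    rw [hL]
    apply Subgroup.normalClosure_le_normal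
    intro r hr
    have hr' : r ∈ L := by rw [hL]; exact Subgroup.subset_normalClosure hr
    exact ⟨hr', by rw [hR r hr, Cj_mem r hr']⟩
  obtain ⟨_, h⟩ := hK hw
  exact h

end act

section lab

variable {X I J : Type} (P : SqPres X I J)

lemma lab_word_mem (s : SL X I J) :
    lab (P.gad.word s) ∈ Subgroup.normalClosure (Set.range P.rel) := by
  have h0 : lab (P.gad.word s) = labL (Sum.inl (P.gh s)) * labL (Sum.inr (P.gv s)) *
      (labL (Sum.inl (P.gh' s)))⁻¹ * (labL (Sum.inr (P.gv' s)))⁻¹ := by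
    simp [lab, VHData.word, gH, gV, SqPres.gad]
  rw [h0]
  cases s with
  | rs i =>
    apply Subgroup.subset_normalClosure
    exact ⟨Sum.inl i, rfl⟩
  | rt j =>
    apply Subgroup.subset_normalClosure
    refine ⟨Sum.inr j, ?_⟩
    simp [SqPres.rel, SqPres.gh, SqPres.gv, SqPres.gh', SqPres.gv', labL]
  | _ => simp [SqPres.gh, SqPres.gv, SqPres.gh', SqPres.gv', labL]

end lab

end CmX

open CmX in
theorem cm_proof (hV : Stmt_VdW) : Stmt_CM := by
  classical
  intro X I J P τ b hb hI hJ
  set L : Subgroup (FreeGroup X) := Subgroup.normalClosure (Set.range P.rel) with hL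
  let β : L →* Multiplicative ℤ := MonoidHom.mk' (fun l => Multiplicative.ofAdd (b l)) (by
    intro l l'
    change Multiplicative.ofAdd (b ((l : FreeGroup X) * l')) = _
    rw [hb l l.2 l' l'.2]; rfl)
  let A := Ac L β τ
  have hR : ∀ r ∈ Set.range P.rel, Ac L β τ r = Cj L r := by
    rintro _ ⟨k, rfl⟩
    cases k with
    | inl i =>
      rcases hI i with ⟨h1, h2, h3, h4⟩ | ⟨h1, h2, h3, h4, h5⟩
      · simp only [SqPres.rel, map_mul, map_inv, Ac_of L β τ _ h1, Ac_of L β τ _ h2,
          Ac_of L β τ _ h3, Ac_of L β τ _ h4]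
      · have h6 : P.sz i ≠ τ := h3 ▸ h4
        simp only [SqPres.rel, map_mul, map_inv]
        rw [h1, h2, ← h3, Ac_of L β τ _ h4, Ac_tau]
        have hc : Sh L β * Cj L (FreeGroup.of (P.sy i)) =
            Cj L (FreeGroup.of (P.sy i)) * Sh L β := by
          apply Sh_comm
          intro l
          change Multiplicative.ofAdd (b (MulAut.conjNormal (FreeGroup.of (P.sy i)) l :
            FreeGroup X)) = Multiplicative.ofAdd (b l)
          rw [MulAut.conjNormal_apply, h5 l l.2]
        rw [mul_assoc (Cj L (FreeGroup.of τ)), hc]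
        group
    | inr j =>
      obtain ⟨h1, h2, h3⟩ := hJ j
      simp only [SqPres.rel, map_mul, map_inv, Ac_of L β τ _ h1, Ac_of L β τ _ h2,
          Ac_of L β τ _ h3]
  have hmem := Ac_mem L β τ (R := Set.range P.rel) hL hR
  let ρ : FreeGroup (HL X J ⊕ VL X J) →* MulAut (MM L) := A.comp lab
  let val : SL X I J → MM L := fun s => (1, ⟨lab (P.gad.word s), lab_word_mem P s⟩)
  obtain ⟨e, he1, he2, he3⟩ := hV (HL X J) (VL X J) (SL X I J) P.gad (MM L) ρ val (by
    intro s m
    change Ac L β τ (lab (P.gad.word s)) m = _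
    rw [hmem _ (lab_word_mem P s), MulAut.conj_apply])
  have hlab : ∀ w ∈ P.gad.N, ((e w).2 : FreeGroup X) = lab w := by
    have he0 : e 1 = 1 := by
      have := he1 1 (one_mem _) 1 (one_mem _)
      rw [mul_one] at this
      exact (mul_eq_left.1 this.symm)
    let K : Subgroup (FreeGroup (HL X J ⊕ VL X J)) :=
      { carrier := {w | w ∈ P.gad.N ∧ ((e w).2 : FreeGroup X) = lab w}
        mul_mem' := by
          rintro u w ⟨hu, hu'⟩ ⟨hw, hw'⟩
          refine ⟨mul_mem hu hw, ?_⟩
          rw [he1 u hu w hw, map_mul, ← hu', ← hw']; rfl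
        one_mem' := ⟨one_mem _, by rw [he0, map_one]; rfl⟩
        inv_mem' := by
          rintro w ⟨hw, hw'⟩
          refine ⟨inv_mem hw, ?_⟩
          have h1 : e w⁻¹ = (e w)⁻¹ := by
            have := he1 w⁻¹ (inv_mem hw) w hw
            rw [inv_mul_cancel, he0] at this
            exact (inv_eq_of_mul_eq_one_left this.symm).symm
          rw [h1, map_inv, ← hw']; rfl }
    have hK : P.gad.N ≤ K := by
      have : K.Normal := ⟨by
        rintro w ⟨hw, hw'⟩ g
        refine ⟨Subgroup.normalClosure_normal.conj_mem w hw g, ?_⟩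
        rw [he3 g w hw]
        change ((Ac L β τ (lab g) (e w)).2 : FreeGroup X) = _
        rw [Ac_snd, hw', map_mul, map_mul, map_inv]⟩
      apply Subgroup.normalClosure_le_normal
      rintro _ ⟨s, rfl⟩
      exact ⟨Subgroup.subset_normalClosure ⟨s, rfl⟩, by rw [he2]⟩
    intro w hw
    exact (hK hw).2
  refine ⟨fun w => Multiplicative.toAdd (e w).1, ?_, ?_, ?_, ?_⟩
  · intro u hu w hw
    change Multiplicative.toAdd (e (u * w)).1 = _
    rw [he1 u hu w hw]; rfl
  · intro s
    change Multiplicative.toAdd (e (P.gad.word s)).1 = _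
    rw [he2]; rfl
  · intro y hy w hw
    change Multiplicative.toAdd (e (FreeGroup.of y * w * (FreeGroup.of y)⁻¹)).1 = _
    rw [he3 _ w hw]
    have h1 : ∀ g : FreeGroup X, A g = Cj L g → (A g (e w)).1 = (e w).1 := by
      intro g hg
      rw [hg]; rfl
    change Multiplicative.toAdd (A (lab (FreeGroup.of y)) (e w)).1 = _
    rw [h1]
    have h2 : lab (FreeGroup.of y) = labL y := by simp [lab]
    rw [h2]
    obtain ⟨hy1, hy2⟩ := hy
    cases y with
    | inl a =>
      cases a with
      | h x =>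
        have : x ≠ τ := fun h => hy1 (by rw [h])
        exact Ac_of L β τ x this
      | _ => simp [labL]
    | inr a =>
      cases a with
      | y x =>
        have : x ≠ τ := fun h => hy2 (by rw [h])
        exact Ac_of L β τ x this
      | _ => simp [labL]
  · intro y hy w hw
    change Multiplicative.toAdd (e (FreeGroup.of y * w * (FreeGroup.of y)⁻¹)).1 = _
    rw [he3 _ w hw]
    have h2 : lab (FreeGroup.of y) = FreeGroup.of τ := by
      have h3 : lab (FreeGroup.of y) = labL y := by simp [lab]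
      rw [h3]
      simp only [NonTau, not_and_or, not_not] at hy
      rcases hy with rfl | rfl <;> rfl
    change Multiplicative.toAdd (Ac L β τ (lab (FreeGroup.of y)) (e w)).1 = _
    rw [h2, Ac_tau]
    change Multiplicative.toAdd ((e w).1 * Multiplicative.ofAdd (b (e w).2)) = _
    rw [hlab w hw]; rfl

end Pool.Agent.SD
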