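import Mathlib
import Pool.Agent.SD.Stmts

/-!
# Squad SD: module DEHN
-/

set_option autoImplicit false

namespace Pool.Agent.SD

namespace DEHNX

variable {α : Type} (R : Set (FreeGroup α))

theorem prodConj_mono {n m : ℕ} (h : n ≤ m) {w : FreeGroup α} (hw : ProdConj R n w) :
    ProdConj R m w := by
  obtain ⟨L, h1, h2, h3⟩ := hw
  exact ⟨L, h1.trans h, h2, h3⟩

theorem prodConj_mul {n m : ℕ} {u w : FreeGroup α} (hu : ProdConj R n u) (hw : ProdConj R m w) :
    ProdConj R (n + m) (u * w) := by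
  obtain ⟨L, h1, h2, h3⟩ := hu
  obtain ⟨L', h1', h2', h3'⟩ := hw
  refine ⟨L ++ L', by simp; omega, ?_, by simp [h3, h3']⟩
  intro p hp
  rcases List.mem_append.1 hp with hp | hp
  · exact h2 p hp
  · exact h2' p hp

theorem prodConj_inv {n : ℕ} {w : FreeGroup α} (hw : ProdConj R n w) :
    ProdConj R n w⁻¹ := by
  obtain ⟨L, h1, h2, h3⟩ := hw
  refine ⟨(L.map fun p => (p.1, p.2⁻¹)).reverse, by simpa using h1, ?_, ?_⟩
  · intro p hp
    simp only [List.mem_reverse, List.mem_map] at hp
    obtain ⟨q, hq, rfl⟩ := hp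
    rcases h2 q hq with h | h
    · right; simpa using h
    · left; exact h
  · rw [← h3, List.prod_inv_reverse, List.map_reverse, List.map_map, List.map_map]
    congr 2
    apply List.map_congr_left
    intro p _
    simp [mul_assoc]

theorem exists_prodConj {w : FreeGroup α} (hw : w ∈ Subgroup.normalClosure R) :
    ∃ n, ProdConj R n w := by
  unfold Subgroup.normalClosure at hw
  induction hw using Subgroup.closure_induction with
  | mem x hx =>
    obtain ⟨a, ha, hc⟩ := Group.mem_conjugatesOfSet_iff.1 hx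
    obtain ⟨g, hg⟩ := isConj_iff.1 hc
    exact ⟨1, [(g, a)], by simp, by simp [ha], by simp [hg]⟩
  | one => exact ⟨0, [], by simp, by simp, by simp⟩
  | mul x y _ _ hx hy =>
    obtain ⟨n, hn⟩ := hx
    obtain ⟨m, hm⟩ := hy
    exact ⟨n + m, prodConj_mul R hn hm⟩
  | inv x _ hx =>
    obtain ⟨n, hn⟩ := hx
    exact ⟨n, prodConj_inv R hn⟩

theorem lt_area {w : FreeGroup α} (hw : w ∈ Subgroup.normalClosure R) {N : ℕ}
    (h : ¬ ProdConj R N w) : N < area R w := by
  by_contra hlt
  push Not at hlt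
  have hne : {n | ProdConj R n w}.Nonempty := exists_prodConj R hw
  exact h (prodConj_mono R hlt (Nat.sInf_mem hne))

theorem area_le_dehn {n : ℕ} (R : Set (FreeGroup (Fin n))) {w : FreeGroup (Fin n)}
    (hw : w ∈ Subgroup.normalClosure R) : area R w ≤ dehn R w.toWord.length := by
  apply le_csSup
  · have hfin : {u : FreeGroup (Fin n) | u.toWord.length ≤ w.toWord.length}.Finite := by
      have h1 := (List.finite_length_le (Fin n × Bool) w.toWord.length).image FreeGroup.mk
      refine h1.subset ?_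
      intro u hu
      exact ⟨u.toWord, hu, FreeGroup.mk_toWord⟩
    have h2 := (hfin.image (area R)).bddAbove
    refine h2.mono ?_
    rintro m ⟨u, _, hu, rfl⟩
    exact ⟨u, hu, rfl⟩
  · exact ⟨w, hw, le_rfl, rfl⟩

theorem exists_bound (C : ℝ) (hC : 0 < C) :
    ∃ K : ℕ, ∀ x : ℕ, C * Real.exp (C * x + C) + C * x + C ≤ (K : ℝ) ^ (x + 1) := by
  obtain ⟨K, hK⟩ := exists_nat_ge (3 * (C + 1) * Real.exp C)
  refine ⟨K, fun x => ?_⟩
  have h1 : (3 * (C + 1) * Real.exp C) ^ (x + 1) ≤ (K : ℝ) ^ (x + 1) :=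
    pow_le_pow_left₀ (by positivity) hK _
  refine le_trans ?_ h1
  have h2 : Real.exp (C * x + C) = Real.exp C ^ (x + 1) := by
    rw [← Real.exp_nat_mul]; congr 1; push_cast; ring
  have h3 : (1 : ℝ) ≤ 3 * (C + 1) := by nlinarith
  have h4 : 3 * (C + 1) ≤ (3 * (C + 1)) ^ (x + 1) := le_self_pow₀ h3 (by omega)
  have h5 : C * x + C ≤ Real.exp (C * x + C) := by
    have := Real.add_one_le_exp (C * x + C); linarith
  have h6 : 0 < Real.exp (C * x + C) := Real.exp_pos _
  calc C * Real.exp (C * x + C) + C * x + C ≤ C * Real.exp (C * x + C) + Real.exp (C * x + C) := by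
        linarith
    _ = (C + 1) * Real.exp (C * x + C) := by ring
    _ ≤ (3 * (C + 1)) ^ (x + 1) * Real.exp (C * x + C) := by
        apply mul_le_mul_of_nonneg_right _ h6.le
        nlinarith
    _ = (3 * (C + 1) * Real.exp C) ^ (x + 1) := by
        rw [h2, ← mul_pow]

end DEHNX

open DEHNX in
theorem dehn_proof : Stmt_Dehn := by
  intro n R h
  rintro ⟨C, hC, hb⟩
  obtain ⟨K, hK⟩ := exists_bound C hC
  obtain ⟨w, hw, hn⟩ := h K
  have h1 := lt_area _ hw hn
  have h2 := area_le_dehn _ hw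
  have h3 := (hb w.toWord.length).trans (hK w.toWord.length)
  have h4 : (K ^ (w.toWord.length + 1) : ℕ) <
      dehn (R : Set (FreeGroup (Fin n))) w.toWord.length := lt_of_lt_of_le h1 h2
  have h5 : ((K ^ (w.toWord.length + 1) : ℕ) : ℝ) <
      (dehn (R : Set (FreeGroup (Fin n))) w.toWord.length : ℝ) := by exact_mod_cast h4
  push_cast at h5
  linarith

end Pool.Agent.SD
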