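import Pool.Agent.SD.Stmts

/-!
# Squad SD, module FPA: modules of type FP_n (Schanuel, extensions, basic facts)
-/

set_option autoImplicit false

namespace Pool.Agent.SD

namespace FPAX

variable {A : Type} [Ring A]

/-- kernels of corresponding maps -/
noncomputable def kerEquiv {P Q M N : Type} [AddCommGroup P] [Module A P] [AddCommGroup Q]
    [Module A Q] [AddCommGroup M] [Module A M] [AddCommGroup N] [Module A N]
    (f : P →ₗ[A] M) (g : Q →ₗ[A] N) (a : P ≃ₗ[A] Q) (h : ∀ x, f x = 0 ↔ g (a x) = 0) :
    LinearMap.ker f ≃ₗ[A] LinearMap.ker g :=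
  a.ofSubmodules (LinearMap.ker f) (LinearMap.ker g) (by
    ext y
    rw [Submodule.mem_map]
    constructor
    · rintro ⟨x, hx, rfl⟩
      exact (h x).1 hx
    · intro hy
      refine ⟨a.symm y, ?_, by simp⟩
      rw [LinearMap.mem_ker, h]
      simpa using hy)

theorem fp_congr (n : ℕ) : ∀ (M N : Type) [AddCommGroup M] [Module A M] [AddCommGroup N]
    [Module A N], (M ≃ₗ[A] N) → FP A n M → FP A n N := by
  induction n with
  | zero =>
    intro M N _ _ _ _ e h
    have h' : Module.Finite A M := h
    exact Module.Finite.equiv e
  | succ n ih =>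
    rintro M N _ _ _ _ e ⟨k, f, hf, hK⟩
    refine ⟨k, e.toLinearMap.comp f, e.surjective.comp hf, ?_⟩
    exact ih _ _ (kerEquiv f (e.toLinearMap.comp f) (LinearEquiv.refl A _) (by
      intro x
      simp)) hK

theorem fp_succ_intro (n : ℕ) {P M : Type} [AddCommGroup P] [Module A P] [AddCommGroup M]
    [Module A M] {k : ℕ} (e : P ≃ₗ[A] (Fin k → A)) (f : P →ₗ[A] M)
    (hf : Function.Surjective f) (hK : FP A n (LinearMap.ker f)) : FP A (n + 1) M :=
  ⟨k, f.comp e.symm.toLinearMap, hf.comp e.symm.surjective,
    fp_congr n _ _ (kerEquiv f (f.comp e.symm.toLinearMap) e (by intro x; simp)) hK⟩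

theorem fp_subsingleton (n : ℕ) : ∀ (M : Type) [AddCommGroup M] [Module A M] [Subsingleton M],
    FP A n M := by
  induction n with
  | zero =>
    intro M _ _ _
    show Module.Finite A M
    infer_instance
  | succ n ih =>
    intro M _ _ _
    exact ⟨0, 0, fun y => ⟨0, Subsingleton.elim _ _⟩, ih _⟩

theorem fp_mono (n : ℕ) : ∀ (M : Type) [AddCommGroup M] [Module A M], FP A (n + 1) M →
    FP A n M := by
  induction n with
  | zero =>
    rintro M _ _ ⟨k, f, hf, -⟩
    exact Module.Finite.of_surjective f hf
  | succ n ih =>
    rintro M _ _ ⟨k, f, hf, hK⟩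
    exact ⟨k, f, hf, ih _ hK⟩

/-- `A^k × A^m ≃ A^(k+m)` -/
noncomputable def prodFree (k m : ℕ) : ((Fin k → A) × (Fin m → A)) ≃ₗ[A] (Fin (k + m) → A) :=
  ((LinearEquiv.funCongrLeft A A finSumFinEquiv).trans
    (LinearEquiv.sumArrowLequivProdArrow (Fin k) (Fin m) A A)).symm

theorem fp_prod_free (n : ℕ) (N : Type) [AddCommGroup N] [Module A N] (m : ℕ)
    (h : FP A n N) : FP A n (N × (Fin m → A)) := by
  cases n with
  | zero =>
    have h' : Module.Finite A N := h
    show Module.Finite A (N × (Fin m → A))
    infer_instance
  | succ n =>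
    obtain ⟨k, f, hf, hK⟩ := h
    refine fp_succ_intro n (prodFree k m) (f.prodMap LinearMap.id)
      (hf.prodMap Function.surjective_id) ?_
    refine fp_congr n (LinearMap.ker f) _ ?_ hK
    exact
      { toFun := fun x => ⟨(x.1, 0), by
          have := x.2
          rw [LinearMap.mem_ker] at this ⊢
          simp [this]⟩
        map_add' := fun x y => by
          ext <;> simp
        map_smul' := fun c x => by
          ext <;> simp
        invFun := fun z => ⟨z.1.1, by
          have := z.2
          rw [LinearMap.mem_ker] at this ⊢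
          exact congrArg Prod.fst this⟩
        left_inv := fun x => rfl
        right_inv := fun z => by
          have := z.2
          rw [LinearMap.mem_ker] at this
          have h2 : z.1.2 = 0 := congrArg Prod.snd this
          ext i
          · rfl
          · simp [h2] }

theorem fp_of_prod_free (n : ℕ) (N : Type) [AddCommGroup N] [Module A N] (m : ℕ)
    (h : FP A n (N × (Fin m → A))) : FP A n N := by
  cases n with
  | zero =>
    have h' : Module.Finite A (N × (Fin m → A)) := h
    exact Module.Finite.of_surjective (LinearMap.fst A N (Fin m → A)) Prod.fst_surjective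
  | succ n =>
    obtain ⟨l, g, hg, hK⟩ := h
    obtain ⟨s, hs⟩ := Module.projective_lifting_property g (LinearMap.inr A N (Fin m → A)) hg
    have hs' : ∀ q, g (s q) = (0, q) := fun q => by
      have := LinearMap.congr_fun hs q
      simpa using this
    refine ⟨l, (LinearMap.fst A N (Fin m → A)).comp g, Prod.fst_surjective.comp hg, ?_⟩
    refine fp_congr n (LinearMap.ker g × (Fin m → A)) _ ?_ (fp_prod_free n _ m hK)
    exact
      { toFun := fun z => ⟨z.1.1 + s z.2, by
          have := z.1.2
          rw [LinearMap.mem_ker] at this ⊢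
          simp [this, hs']⟩
        map_add' := fun x y => by
          ext : 1
          simp only [Prod.fst_add, Submodule.coe_add, Prod.snd_add, map_add]
          abel
        map_smul' := fun c x => by
          ext : 1
          simp
        invFun := fun x => (⟨x.1 - s (g x.1).2, by
          have := x.2
          rw [LinearMap.mem_ker] at this ⊢
          rw [map_sub, hs']
          have h1 : (g x.1).1 = 0 := this
          ext
          · simp [h1]
          · simp⟩, (g x.1).2)
        left_inv := fun z => by
          have := z.1.2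
          rw [LinearMap.mem_ker] at this
          ext i
          · simp [this, hs']
          · simp [this, hs']
        right_inv := fun x => by
          ext : 1
          simp }

theorem fpker : Stmt_FPker := by
  intro A _ n M _ _ hM k f hf
  obtain ⟨m, g, hg, hK⟩ := hM
  obtain ⟨g', hg'⟩ := Module.projective_lifting_property f g hf
  obtain ⟨f', hf'⟩ := Module.projective_lifting_property g f hg
  have hg1 : ∀ x, f (g' x) = g x := fun x => LinearMap.congr_fun hg' x
  have hf1 : ∀ x, g (f' x) = f x := fun x => LinearMap.congr_fun hf' x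
  refine fp_of_prod_free n _ m ?_
  refine fp_congr n (LinearMap.ker g × (Fin k → A)) _ ?_ (fp_prod_free n _ k hK)
  exact
    { toFun := fun z => (⟨z.2 - g' (z.1.1 + f' z.2), by
        have := z.1.2
        rw [LinearMap.mem_ker] at this ⊢
        simp [this, hg1, hf1]⟩, z.1.1 + f' z.2)
      map_add' := fun x y => by
        ext : 1
        · ext : 1
          simp only [Prod.fst_add, Submodule.coe_add, Prod.snd_add, map_add]
          abel
        · simp only [Prod.fst_add, Submodule.coe_add, Prod.snd_add, map_add]
          abel
      map_smul' := fun c x => by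
        ext : 1
        · ext : 1
          simp [smul_sub]
        · simp
      invFun := fun z => (⟨z.2 - f' (z.1.1 + g' z.2), by
        have := z.1.2
        rw [LinearMap.mem_ker] at this ⊢
        simp [this, hg1, hf1]⟩, z.1.1 + g' z.2)
      left_inv := fun z => by
        ext : 1
        · ext : 1
          simp
        · simp
      right_inv := fun z => by
        ext : 1
        · ext : 1
          simp
        · simp }

theorem fp_ext (n : ℕ) : ∀ (K E M : Type) [AddCommGroup K] [Module A K] [AddCommGroup E]
    [Module A E] [AddCommGroup M] [Module A M] (i : K →ₗ[A] E) (p : E →ₗ[A] M),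
    Function.Injective i → Function.Surjective p → LinearMap.range i = LinearMap.ker p →
    FP A n K → FP A n M → FP A n E := by
  induction n with
  | zero =>
    intro K E M _ _ _ _ _ _ i p hi hp hip hK hM
    have h1 : Module.Finite A K := hK
    have h2 : Module.Finite A M := hM
    have h3 : Module.Finite A (LinearMap.ker p) :=
      Module.Finite.equiv ((LinearEquiv.ofInjective i hi).trans (LinearEquiv.ofEq _ _ hip))
    have h4 : Module.Finite A (E ⧸ LinearMap.ker p) :=
      Module.Finite.equiv (LinearMap.quotKerEquivOfSurjective p hp).symm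
    exact Module.Finite.of_submodule_quotient (LinearMap.ker p)
  | succ n ih =>
    rintro K E M _ _ _ _ _ _ i p hi hp hip ⟨k, a, ha, haK⟩ ⟨m, b, hb, hbK⟩
    obtain ⟨b', hb'⟩ := Module.projective_lifting_property p b hp
    have hb1 : ∀ x, p (b' x) = b x := fun x => LinearMap.congr_fun hb' x
    have hpi : ∀ x, p (i x) = 0 := fun x => by
      have : i x ∈ LinearMap.ker p := by rw [← hip]; exact ⟨x, rfl⟩
      exact this
    have hker : ∀ e, p e = 0 → ∃ x, i (a x) = e := by
      intro e he
      have : e ∈ LinearMap.range i := by rw [hip]; exact he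
      obtain ⟨y, rfl⟩ := this
      obtain ⟨x, rfl⟩ := ha y
      exact ⟨x, rfl⟩
    let F : ((Fin k → A) × (Fin m → A)) →ₗ[A] E := (i.comp a).coprod b'
    have hF : ∀ z, F z = i (a z.1) + b' z.2 := fun z => rfl
    refine fp_succ_intro n (prodFree k m) F ?_ ?_
    · intro e
      obtain ⟨y, hy⟩ := hb (p e)
      obtain ⟨x, hx⟩ := hker (e - b' y) (by rw [map_sub, hb1, hy, sub_self])
      exact ⟨(x, y), by rw [hF, hx]; simp⟩
    · refine ih (LinearMap.ker a) (LinearMap.ker F) (LinearMap.ker b)
        (LinearMap.codRestrict (LinearMap.ker F)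
          ((LinearMap.inl A (Fin k → A) (Fin m → A)).comp (LinearMap.ker a).subtype) (by
            intro x
            have := x.2
            rw [LinearMap.mem_ker] at this ⊢
            simp [hF, this]))
        (LinearMap.codRestrict (LinearMap.ker b)
          ((LinearMap.snd A (Fin k → A) (Fin m → A)).comp (LinearMap.ker F).subtype) (by
            intro z
            have := z.2
            rw [LinearMap.mem_ker, hF] at this
            rw [LinearMap.mem_ker]
            have h1 := congrArg p this
            rw [map_add, hpi, hb1, zero_add, map_zero] at h1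
            exact h1)) ?_ ?_ ?_ haK hbK
      · intro x y hxy
        have h1 := congrArg Subtype.val hxy
        have h2 := congrArg Prod.fst h1
        exact Subtype.ext h2
      · intro y
        have hy := y.2
        rw [LinearMap.mem_ker] at hy
        obtain ⟨x, hx⟩ := hker (-(b' y.1)) (by rw [map_neg, hb1, hy, neg_zero])
        refine ⟨⟨(x, y.1), ?_⟩, ?_⟩
        · rw [LinearMap.mem_ker, hF, hx]
          simp
        · ext : 1
          rfl
      · ext z
        rw [LinearMap.mem_range, LinearMap.mem_ker]
        constructor
        · rintro ⟨x, rfl⟩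
          ext : 1
          rfl
        · intro hz
          have h1 : z.1.2 = 0 := congrArg Subtype.val hz
          have h2 := z.2
          rw [LinearMap.mem_ker, hF, h1, map_zero, add_zero] at h2
          refine ⟨⟨z.1.1, ?_⟩, ?_⟩
          · rw [LinearMap.mem_ker]
            exact hi (by rw [h2, map_zero])
          · ext : 1
            refine Prod.ext rfl ?_
            exact h1.symm

theorem fpquot : Stmt_FPquot := by
  intro A _ n M' M M'' _ _ _ _ _ _ f g hf hg hfg hM' hM
  obtain ⟨k, g₀, hg₀, hK⟩ := hM
  refine ⟨k, g.comp g₀, hg.comp hg₀, ?_⟩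
  -- `0 → ker g₀ → ker (g ∘ g₀) → M' → 0`
  let e : M' ≃ₗ[A] LinearMap.ker g :=
    (LinearEquiv.ofInjective f hf).trans (LinearEquiv.ofEq _ _ hfg)
  have hM'2 : FP A n (LinearMap.ker g) := fp_congr n _ _ e hM'
  refine fp_ext n (LinearMap.ker g₀) (LinearMap.ker (g.comp g₀)) (LinearMap.ker g)
    (LinearMap.codRestrict (LinearMap.ker (g.comp g₀)) (LinearMap.ker g₀).subtype (by
      intro x
      have := x.2
      rw [LinearMap.mem_ker] at this ⊢
      simp [this]))
    (LinearMap.codRestrict (LinearMap.ker g) (g₀.comp (LinearMap.ker (g.comp g₀)).subtype) (by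
      intro x
      have := x.2
      rw [LinearMap.mem_ker] at this ⊢
      exact this)) ?_ ?_ ?_ hK hM'2
  · intro x y hxy
    have h1 := congrArg Subtype.val hxy
    exact Subtype.ext h1
  · intro y
    obtain ⟨x, hx⟩ := hg₀ y.1
    refine ⟨⟨x, ?_⟩, ?_⟩
    · rw [LinearMap.mem_ker]
      have := y.2
      rw [LinearMap.mem_ker] at this
      simp [hx, this]
    · ext : 1
      exact hx
  · ext z
    rw [LinearMap.mem_range, LinearMap.mem_ker]
    constructor
    · rintro ⟨x, rfl⟩
      ext : 1
      exact x.2
    · intro hz
      have h1 : g₀ z.1 = 0 := congrArg Subtype.val hz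
      exact ⟨⟨z.1, h1⟩, Subtype.ext rfl⟩

/-- `(A^m)^k ≃ A^(k m)` -/
noncomputable def powFree (k m : ℕ) : (Fin k → Fin m → A) ≃ₗ[A] (Fin (k * m) → A) :=
  (LinearEquiv.curry A A (Fin k) (Fin m)).symm.trans (LinearEquiv.funCongrLeft A A finProdFinEquiv.symm)

theorem fp_pow (n : ℕ) : ∀ (k : ℕ) (M : Type) [AddCommGroup M] [Module A M], FP A n M →
    FP A n (Fin k → M) := by
  induction n with
  | zero =>
    intro k M _ _ h
    have h' : Module.Finite A M := h
    show Module.Finite A (Fin k → M)
    infer_instance
  | succ n ih =>
    rintro k M _ _ ⟨m, f, hf, hK⟩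
    refine fp_succ_intro n (powFree k m) (f.compLeft (Fin k)) ?_ ?_
    · intro y
      choose x hx using fun i => hf (y i)
      exact ⟨x, funext hx⟩
    · refine fp_congr n (Fin k → LinearMap.ker f) _ ?_ (ih k _ hK)
      exact
        { toFun := fun x => ⟨fun i => (x i).1, by
            rw [LinearMap.mem_ker]
            funext i
            exact (x i).2⟩
          map_add' := fun x y => rfl
          map_smul' := fun c x => rfl
          invFun := fun z i => ⟨z.1 i, by
            have := z.2
            rw [LinearMap.mem_ker] at this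
            exact congrFun this i⟩
          left_inv := fun x => rfl
          right_inv := fun z => rfl }

theorem fp_self (n : ℕ) : FP A n A := by
  cases n with
  | zero =>
    show Module.Finite A A
    infer_instance
  | succ n =>
    refine fp_succ_intro n (LinearEquiv.funUnique (Fin 1) A A).symm (LinearMap.id : A →ₗ[A] A)
      Function.surjective_id ?_
    have : Subsingleton (LinearMap.ker (LinearMap.id : A →ₗ[A] A)) := by
      rw [LinearMap.ker_id]
      infer_instance
    exact fp_subsingleton n _

end FPAX

theorem fpker_proof : Stmt_FPker := FPAX.fpker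

theorem fpquot_proof : Stmt_FPquot := FPAX.fpquot

theorem fpbasic_proof : Stmt_FPbasic := fun _ _ =>
  ⟨fun n M N _ _ _ _ e h => FPAX.fp_congr n M N e h, fun n M _ _ h => FPAX.fp_mono n M h,
    fun n k M _ _ h => FPAX.fp_pow n k M h, fun n => FPAX.fp_self n⟩

end Pool.Agent.SD
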