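import Pool.Agent.SD.Stmts

set_option autoImplicit false

/-!
Squad SD, module SG2: `G2` as an HNN extension, in the form of a derivation.
-/

namespace Pool.Agent.SD

open Multiplicative

namespace SG2X

section univ
variable {W : Type} [Group W] (α β : FreeGroup Bool →* W) (ρ : W)

/-- the map on `K1`. -/
def liftK : K1 →* W := FreeGroup.lift fun p => ρ ^ p.1 * α (FreeGroup.of p.2) * (ρ ^ p.1)⁻¹

theorem liftK_emb (i : ℤ) (x : FreeGroup Bool) :
    liftK α ρ (emb i x) = ρ ^ i * α x * (ρ ^ i)⁻¹ := by
  have : (liftK α ρ).comp (emb i) = (MulAut.conj (ρ ^ i)).toMonoidHom.comp α := by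
    refine FreeGroup.ext_hom _ _ fun c => ?_
    change liftK α ρ (emb i (FreeGroup.of c)) = ρ ^ i * α (FreeGroup.of c) * (ρ ^ i)⁻¹
    simp [liftK, emb]
  exact DFunLike.congr_fun this x

variable {α β ρ}
variable (hβ : ∀ t, ρ * β t * ρ⁻¹ = β (phi t))

include hβ in
theorem hβz (n : ℤ) (t : FreeGroup Bool) : ρ ^ n * β t * (ρ ^ n)⁻¹ = β ((phi ^ n) t) := by
  induction n using Int.induction_on generalizing t with
  | zero => simp
  | succ n ih =>
    rw [zpow_add_one, zpow_add_one, MulAut.mul_apply, ← ih, ← hβ]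
    group
  | pred n ih =>
    rw [zpow_sub_one, zpow_sub_one, MulAut.mul_apply, ← ih]
    have : β ((phi⁻¹ : MulAut _) t) = ρ⁻¹ * β t * ρ := by
      have h := hβ ((phi⁻¹ : MulAut _) t)
      rw [MulAut.apply_inv_self] at h
      rw [← h]; group
    rw [this]; group

/-- the map on `Q`. -/
def liftQ : Q →* W :=
  SemidirectProduct.lift β (zpowersHom W ρ) (by
    intro g
    ext c
    have := hβz hβ (toAdd g) (FreeGroup.of c)
    simp only [MonoidHom.comp_apply, MulEquiv.coe_toMonoidHom, zpowersHom_apply,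
      MulAut.conj_apply]
    rw [this])

@[simp] theorem liftQ_inl (t : FreeGroup Bool) :
    liftQ hβ (SemidirectProduct.inl t) = β t := by simp [liftQ]
@[simp] theorem liftQ_inr (n : Multiplicative ℤ) :
    liftQ hβ (SemidirectProduct.inr n) = ρ ^ (toAdd n) := by simp [liftQ]

variable (hα : ∀ t x, β t * α x * (β t)⁻¹ = α ((phi ^ (toAdd (eps t))) x))

include hα in
theorem compat (q : Q) (k : K1) :
    liftK α ρ (actQ q k) = liftQ hβ q * liftK α ρ k * (liftQ hβ q)⁻¹ := by
  have key : (liftK α ρ).comp (actQ q).toMonoidHom =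
      (MulAut.conj (liftQ hβ q)).toMonoidHom.comp (liftK α ρ) := by
    refine FreeGroup.ext_hom _ _ fun p => ?_
    rw [of_eq_emb]
    change liftK α ρ (actQ q (emb p.1 (FreeGroup.of p.2))) =
      liftQ hβ q * liftK α ρ (emb p.1 (FreeGroup.of p.2)) * (liftQ hβ q)⁻¹
    generalize FreeGroup.of p.2 = x
    generalize p.1 = i
    have hq : q = SemidirectProduct.inl q.left * SemidirectProduct.inr q.right :=
      (SemidirectProduct.inl_left_mul_inr_right q).symm
    rw [hq]
    generalize q.left = t
    generalize q.right = n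
    have e1 : actQ (SemidirectProduct.inl t * SemidirectProduct.inr n) (emb i x) =
        emb (i + toAdd n) ((phi ^ (toAdd (kap t) (i + toAdd n))) x) := by
      rw [map_mul, MulAut.mul_apply]
      have h1 : actQ (SemidirectProduct.inr n) = sh ^ (toAdd n) := by simp [actQ]
      have h2 : actQ (SemidirectProduct.inl t) = Phi (kap t) := by simp [actQ]
      rw [h1, h2, sh_zpow_emb, Phi_emb]
    rw [e1, liftK_emb, liftK_emb, map_mul, liftQ_inl, liftQ_inr]
    have e2 : toAdd (kap t) (i + toAdd n) = toAdd (eps ((phi ^ (-(i + toAdd n))) t)) := rfl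
    rw [e2, ← hα, ← hβz hβ]
    group
  exact DFunLike.congr_fun key k

/-- The universal property of `G2`. -/
def liftG2 : G2 →* W :=
  SemidirectProduct.lift (liftK α ρ) (liftQ hβ) (by
    intro g
    refine MonoidHom.ext fun k => ?_
    exact compat hβ hα g k)

theorem liftG2_inl (k : K1) :
    liftG2 hβ hα (SemidirectProduct.inl k) = liftK α ρ k := by simp [liftG2]
theorem liftG2_inr (q : Q) :
    liftG2 hβ hα (SemidirectProduct.inr q) = liftQ hβ q := by simp [liftG2]

end univ

section der

/-- the coefficient module -/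
abbrev Mo : Type := Multiplicative (G2 ⧸ subF →₀ ℤ)

/-- the action of `G2` on `ℤ[G2/F]`. -/
noncomputable def act : G2 →* MulAut Mo where
  toFun g := AddEquiv.toMultiplicative (Finsupp.domCongr (MulAction.toPerm g))
  map_one' := by
    refine MulEquiv.ext fun x => ?_
    change ofAdd (Finsupp.domCongr (MulAction.toPerm (1 : G2)) (toAdd x)) = ofAdd (toAdd x)
    congr 1
    ext a
    simp
  map_mul' g h := by
    refine MulEquiv.ext fun x => ?_
    change ofAdd (Finsupp.domCongr (MulAction.toPerm (g * h)) (toAdd x)) =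
      ofAdd (Finsupp.domCongr (MulAction.toPerm g)
        (Finsupp.domCongr (MulAction.toPerm h) (toAdd x)))
    congr 1
    ext a
    simp [mul_smul]

theorem act_single (g : G2) (x : G2 ⧸ subF) (n : ℤ) :
    act g (ofAdd (Finsupp.single x n)) = ofAdd (Finsupp.single (g • x) n) := by
  change ofAdd (Finsupp.domCongr (MulAction.toPerm g) (Finsupp.single x n)) = _
  congr 1
  simp

/-- the big group -/
abbrev WW : Type := Mo ⋊[act] G2

noncomputable def jj : G2 →* WW := SemidirectProduct.inr

/-- `F(t1,t2)` in `G2` -/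
def tG : FreeGroup Bool →* G2 :=
  (SemidirectProduct.inr : Q →* G2).comp (SemidirectProduct.inl : FreeGroup Bool →* Q)

/-- the image of `r` -/
noncomputable def rho : WW :=
  SemidirectProduct.inl (ofAdd (Finsupp.single ((1 : G2) : G2 ⧸ subF) 1)) * jj rG

theorem conj_r (t : FreeGroup Bool) : rG * tG t * rG⁻¹ = tG (phi t) := by
  rw [mul_inv_eq_iff_eq_mul]
  unfold rG tG
  rw [MonoidHom.comp_apply, MonoidHom.comp_apply, ← map_mul, ← map_mul]
  congr 1
  ext
  · simp
  · simp

theorem conj_t (t x : FreeGroup Bool) (i : ℤ) :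
    tG t * SemidirectProduct.inl (emb i x) * (tG t)⁻¹ =
      SemidirectProduct.inl (emb i ((phi ^ (toAdd (kap t) i)) x)) := by
  unfold tG
  rw [MonoidHom.comp_apply, ← map_inv, ← SemidirectProduct.inl_aut]
  congr 1
  have h2 : actQ (SemidirectProduct.inl t) = Phi (kap t) := by simp [actQ]
  rw [h2, Phi_emb]

theorem conj_rN (x : FreeGroup Bool) (n i : ℤ) :
    rG ^ n * SemidirectProduct.inl (emb i x) * (rG ^ n)⁻¹ =
      SemidirectProduct.inl (emb (i + n) x) := by
  have : rG ^ n = SemidirectProduct.inr (SemidirectProduct.inr (ofAdd n)) := by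
    unfold rG
    rw [← map_zpow, ← map_zpow]
    congr 2
    simp [← ofAdd_zsmul]
  rw [this, ← map_inv, ← SemidirectProduct.inl_aut]
  congr 1
  have h1 : actQ (SemidirectProduct.inr (ofAdd n)) = sh ^ n := by simp [actQ]
  rw [h1, sh_zpow_emb]

theorem fixF (t : FreeGroup Bool) :
    act (tG t) (ofAdd (Finsupp.single ((1 : G2) : G2 ⧸ subF) 1)) =
      ofAdd (Finsupp.single ((1 : G2) : G2 ⧸ subF) 1) := by
  rw [act_single]
  congr 2
  change ((tG t * 1 : G2) : G2 ⧸ subF) = _
  rw [QuotientGroup.eq]
  simp only [mul_one]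
  exact inv_mem ⟨t, rfl⟩

theorem hb (t : FreeGroup Bool) : rho * (jj.comp tG) t * rho⁻¹ = (jj.comp tG) (phi t) := by
  have h := conj_r t
  have e : rho * (jj.comp tG) t * rho⁻¹ =
      SemidirectProduct.inl (ofAdd (Finsupp.single ((1 : G2) : G2 ⧸ subF) 1)) *
        jj (rG * tG t * rG⁻¹) *
        (SemidirectProduct.inl (ofAdd (Finsupp.single ((1 : G2) : G2 ⧸ subF) 1)))⁻¹ := by
    simp only [rho, MonoidHom.comp_apply, map_mul, map_inv]
    group
  rw [e, h, MonoidHom.comp_apply]
  generalize hX : (ofAdd (Finsupp.single ((1 : G2) : G2 ⧸ subF) 1) : Mo) = X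
  have h2 := SemidirectProduct.inl_aut (φ := act) (tG (phi t)) X
  rw [← hX, fixF, hX] at h2
  have h3 : (SemidirectProduct.inl X : WW) * jj (tG (phi t)) =
      jj (tG (phi t)) * SemidirectProduct.inl X := by
    have e3 : jj (tG (phi t)) = (SemidirectProduct.inr (tG (phi t)) : WW) := rfl
    rw [e3]
    nth_rewrite 1 [h2]
    rw [map_inv, inv_mul_cancel_right]
  rw [h3, mul_inv_cancel_right]

theorem ha (t x : FreeGroup Bool) :
    (jj.comp tG) t * (jj.comp ((SemidirectProduct.inl : K1 →* G2).comp (emb 0))) x *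
      ((jj.comp tG) t)⁻¹ =
    (jj.comp ((SemidirectProduct.inl : K1 →* G2).comp (emb 0))) ((phi ^ (toAdd (eps t))) x) := by
  have h := conj_t t x 0
  simp only [MonoidHom.comp_apply, ← map_inv, ← map_mul]
  simp only [map_inv, map_mul]
  rw [← map_inv, ← map_mul, ← map_mul, h]
  rfl

/-- the derivation as a homomorphism. -/
noncomputable def Psi : G2 →* WW := liftG2 hb ha

theorem Psi_r : Psi rG = rho := by
  unfold Psi rG
  rw [liftG2_inr, liftQ_inr]
  simp

theorem Psi_t (t : FreeGroup Bool) : Psi (tG t) = jj (tG t) := by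
  have : tG t = SemidirectProduct.inr (SemidirectProduct.inl t) := rfl
  rw [this]
  unfold Psi
  rw [liftG2_inr, liftQ_inl]
  rfl

theorem Psi_n (x : FreeGroup Bool) :
    Psi (SemidirectProduct.inl (emb 0 x)) = jj (SemidirectProduct.inl (emb 0 x)) := by
  unfold Psi
  rw [liftG2_inl, liftK_emb]
  simp

theorem Psi_right (g : G2) : (Psi g).right = g := by
  have key : (SemidirectProduct.rightHom : WW →* G2).comp Psi = MonoidHom.id G2 := by
    refine SemidirectProduct.hom_ext ?_ ?_
    · refine FreeGroup.ext_hom _ _ fun p => ?_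
      rw [of_eq_emb]
      change (Psi (SemidirectProduct.inl (emb p.1 (FreeGroup.of p.2)))).right = _
      generalize FreeGroup.of p.2 = x
      generalize p.1 = i
      have e := conj_rN x i 0
      rw [zero_add] at e
      change _ = (SemidirectProduct.inl (emb i x) : G2)
      rw [← e, map_mul, map_mul, map_inv, map_zpow, Psi_r, Psi_n]
      rw [show ∀ w : WW, w.right = (SemidirectProduct.rightHom : WW →* G2) w from fun _ => rfl]
      rw [map_mul, map_mul, map_inv, map_zpow]
      have h1 : (SemidirectProduct.rightHom : WW →* G2) rho = rG := by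
        simp [rho, jj]
      have h2 : (SemidirectProduct.rightHom : WW →* G2) (jj (SemidirectProduct.inl (emb 0 x)))
          = SemidirectProduct.inl (emb 0 x) := by
        simp [jj]
      rw [h1, h2]
    · refine SemidirectProduct.hom_ext ?_ ?_
      · refine MonoidHom.ext fun t => ?_
        change (Psi (tG t)).right = tG t
        rw [Psi_t]
        simp [jj]
      · refine MonoidHom.ext_mint ?_
        change (Psi rG).right = rG
        rw [Psi_r]
        simp [rho, jj]
  exact DFunLike.congr_fun key g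

end der

end SG2X

/-- SG2. -/
theorem sG2_proof : Stmt_SG2 := by
  refine ⟨fun g => toAdd (SG2X.Psi g).left, ?_, ?_⟩
  · intro g v hv
    have h1 : SG2X.Psi v = SG2X.jj v := by
      obtain ⟨⟨x, hx⟩, h2⟩ := hv
      have : v = SemidirectProduct.inl (emb 0 x) * SG2X.tG v.right.left := by
        ext
        · simp [SG2X.tG, hx]
        · simp [SG2X.tG]
        · simp [SG2X.tG, h2]
      rw [this, map_mul, map_mul, SG2X.Psi_n, SG2X.Psi_t]
    change toAdd (SG2X.Psi (g * v)).left = toAdd (SG2X.Psi g).left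
    rw [map_mul, h1, SemidirectProduct.mul_left]
    simp [SG2X.jj]
  · intro g
    change toAdd (SG2X.Psi (g * rG)).left = toAdd (SG2X.Psi g).left + _
    rw [map_mul, SG2X.Psi_r, SemidirectProduct.mul_left, SG2X.Psi_right]
    have : SG2X.rho.left = ofAdd (Finsupp.single ((1 : G2) : G2 ⧸ subF) 1) := by
      simp [SG2X.rho, SG2X.jj]
    have h2 : g • ((1 : G2) : G2 ⧸ subF) = (g : G2 ⧸ subF) := by
      change ((g * 1 : G2) : G2 ⧸ subF) = _
      rw [mul_one]
    rw [this, SG2X.act_single, toAdd_mul, h2]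
    rfl

end Pool.Agent.SD
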