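import Pool.Agent.SD.HNN
import Pool.Agent.SD.SG2

set_option autoImplicit false

/-!
Squad SD, module FPR: `RC` is of type `FP_3`.
-/

namespace Pool.Agent.SD

open Multiplicative

namespace FPRX

section gen
variable {R : Type} [Group R]

/-- the trivial subgroup -/
noncomputable def bf (x : R ⧸ (⊥ : Subgroup R)) : MonoidAlgebra ℤ R :=
  Quotient.liftOn' x (fun g => MonoidAlgebra.single g 1) (by
    intro a b hab
    rw [QuotientGroup.leftRel_apply] at hab
    have : a⁻¹ * b = 1 := hab
    have : a = b := (inv_mul_eq_one.mp this)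
    simp only [this])

theorem bf_mk (g : R) : bf (g : R ⧸ (⊥ : Subgroup R)) = MonoidAlgebra.single g 1 := rfl

theorem bf_act (g : R) (x : R ⧸ (⊥ : Subgroup R)) :
    bf (g • x) = (MonoidAlgebra.single g (1 : ℤ) : MonoidAlgebra ℤ R) • bf x := by
  induction x using QuotientGroup.induction_on with
  | H a =>
    have h1 : g • ((a : R) : R ⧸ (⊥ : Subgroup R)) = ((g * a : R) : R ⧸ (⊥ : Subgroup R)) := rfl
    rw [h1, bf_mk, bf_mk, smul_eq_mul, MonoidAlgebra.single_mul_single]
    simp

/-- `ℤ[R/1] = ℤ[R]` -/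
noncomputable def botEquiv : PM (⊥ : Subgroup R) ≃ₗ[MonoidAlgebra ℤ R] MonoidAlgebra ℤ R :=
  LinearEquiv.ofLinearMap (HNNX.eqv bf bf_act)
    (LinearMap.toSpanSingleton (MonoidAlgebra ℤ R) (PM (⊥ : Subgroup R))
      (HNNX.e ⊥ ((1 : R) : R ⧸ (⊥ : Subgroup R))))
    (by
      apply LinearMap.ext_ring
      rw [LinearMap.comp_apply, LinearMap.toSpanSingleton_apply, one_smul, HNNX.eqv_e, bf_mk]
      rfl)
    (by
      apply LinearMap.restrictScalars_injective ℤ
      apply HNNX.hom_ext
      intro x
      induction x using QuotientGroup.induction_on with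
      | H a =>
        change (HNNX.eqv bf bf_act (HNNX.e ⊥ (a : R ⧸ (⊥ : Subgroup R)))) •
          HNNX.e ⊥ ((1 : R) : R ⧸ (⊥ : Subgroup R)) = HNNX.e ⊥ (a : R ⧸ (⊥ : Subgroup R))
        rw [HNNX.eqv_e, bf_mk, HNNX.act_e]
        congr 1
        change ((a * 1 : R) : R ⧸ (⊥ : Subgroup R)) = _
        rw [mul_one])

theorem fps_bot (hb : Stmt_FPbasic) (n : ℕ) : FPs n (⊥ : Subgroup R) :=
  (hb (MonoidAlgebra ℤ R)).1 n _ _ botEquiv.symm ((hb (MonoidAlgebra ℤ R)).2.2.2 n)

/-- free quotients, for an abstract group with an embedding -/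
theorem fq (hF : Stmt_FQ) {T : Type} [Group T] (j : T →* R) (hj : Function.Injective j)
    {S : Type} [Fintype S] (q : T →* FreeGroup S) (hq : Function.Surjective q) (E : Subgroup R)
    (hE : ∀ x : R, x ∈ E ↔ ∃ t : T, q t = 1 ∧ j t = x) (n : ℕ) (h : FPs n E) :
    FPs n j.range := by
  let e : T ≃* j.range := MonoidHom.ofInjective hj
  have he : ∀ t, ((e t : j.range) : R) = j t := fun t => MonoidHom.ofInjective_apply hj
  refine hF R j.range E S (q.comp e.symm.toMonoidHom) ?_ ?_ ?_ n h
  · intro x hx
    obtain ⟨t, _, rfl⟩ := (hE x).mp hx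
    exact ⟨t, rfl⟩
  · intro y
    obtain ⟨t, rfl⟩ := hq y
    exact ⟨e t, by simp⟩
  · intro b
    obtain ⟨t, rfl⟩ := e.surjective b
    rw [he, hE]
    constructor
    · intro h
      exact ⟨t, by simpa using h, rfl⟩
    · rintro ⟨t', h1, h2⟩
      have := hj h2
      subst this
      simpa using h1

/-- the map on cosets -/
def cm {T : Type} [Group T] (j : T →* R) (E : Subgroup T) : T ⧸ E → R ⧸ E.map j :=
  Quotient.map' j (by
    intro a b hab
    rw [QuotientGroup.leftRel_apply] at hab ⊢
    rw [← map_inv, ← map_mul]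
    exact Subgroup.mem_map_of_mem j hab)

/-- HNN extensions, for an abstract group with an embedding -/
theorem hnn (hH : Stmt_HNN) {T : Type} [Group T] (j : T →* R) (hj : Function.Injective j)
    (V E : Subgroup T) (t : T) (hEV : E ≤ V) (ht : ∀ e ∈ E, t⁻¹ * e * t ∈ V)
    (hgen : Subgroup.closure ((V : Set T) ∪ {t}) = ⊤) (s : T → (T ⧸ E →₀ ℤ))
    (hs1 : ∀ g v, v ∈ V → s (g * v) = s g)
    (hs2 : ∀ g, s (g * t) = s g + Finsupp.single (g : T ⧸ E) 1) (n : ℕ)
    (h1 : FPs (n + 1) (V.map j)) (h2 : FPs n (E.map j)) : FPs (n + 1) j.range := by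
  let e : T ≃* j.range := MonoidHom.ofInjective hj
  have he : ∀ t, ((e t : j.range) : R) = j t := fun t => MonoidHom.ofInjective_apply hj
  refine hH R j.range (V.map j) (E.map j) (j t) (Subgroup.map_mono hEV)
    (Subgroup.map_le_range _ _) ⟨t, rfl⟩ ?_ ?_ ?_ n h1 h2
  · rw [MonoidHom.range_eq_map, ← hgen, MonoidHom.map_closure]
    apply Subgroup.closure_mono
    rw [Set.image_union, Set.image_singleton]
    rfl
  · rintro _ ⟨x, hx, rfl⟩
    exact ⟨_, ht x hx, by simp⟩
  · refine ⟨fun b => (s (e.symm b)).mapDomain (cm j E), ?_, ?_⟩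
    · intro g v hv
      obtain ⟨v', rfl⟩ := e.surjective v
      obtain ⟨g', rfl⟩ := e.surjective g
      rw [he] at hv
      obtain ⟨v'', h1, h2⟩ := hv
      have := hj h2
      subst this
      change (s (e.symm (e g' * e v''))).mapDomain (cm j E) =
        (s (e.symm (e g'))).mapDomain (cm j E)
      rw [← map_mul, e.symm_apply_apply, e.symm_apply_apply, hs1 _ _ h1]
    · intro g t' ht'
      obtain ⟨v', rfl⟩ := e.surjective t'
      obtain ⟨g', rfl⟩ := e.surjective g
      rw [he] at ht'
      have := hj ht'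
      subst this
      change (s (e.symm (e g' * e v'))).mapDomain (cm j E) =
        (s (e.symm (e g'))).mapDomain (cm j E) + _
      rw [← map_mul, e.symm_apply_apply, e.symm_apply_apply, hs2, Finsupp.mapDomain_add,
        Finsupp.mapDomain_single]
      rfl

/-- action on `ℤ[R/E]` -/
noncomputable def actG (E : Subgroup R) : R →* MulAut (Multiplicative (R ⧸ E →₀ ℤ)) where
  toFun g := AddEquiv.toMultiplicative (Finsupp.domCongr (MulAction.toPerm g))
  map_one' := by
    refine MulEquiv.ext fun x => ?_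
    change ofAdd (Finsupp.domCongr (MulAction.toPerm (1 : R)) (toAdd x)) = ofAdd (toAdd x)
    congr 1
    ext a
    simp
  map_mul' g h := by
    refine MulEquiv.ext fun x => ?_
    change ofAdd (Finsupp.domCongr (MulAction.toPerm (g * h)) (toAdd x)) =
      ofAdd (Finsupp.domCongr (MulAction.toPerm g)
        (Finsupp.domCongr (MulAction.toPerm h) (toAdd x)))
    congr 1
    ext a
    simp [mul_smul]

theorem actG_single (E : Subgroup R) (g : R) (x : R ⧸ E) (n : ℤ) :
    actG E g (ofAdd (Finsupp.single x n)) = ofAdd (Finsupp.single (g • x) n) := by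
  change ofAdd (Finsupp.domCongr (MulAction.toPerm g) (Finsupp.single x n)) = _
  congr 1
  simp

end gen

section conc

/-- the embedding of `TT` -/
abbrev oT : TT →* RC := HNNExtension.of

theorem oT_inj : Function.Injective oT := HNNExtension.of_injective _

/-- the subgroup `A` of `RC` -/
def EA : Subgroup RC := AA.map oT

noncomputable def single1 : Multiplicative (RC ⧸ EA →₀ ℤ) :=
  ofAdd (Finsupp.single ((1 : RC) : RC ⧸ EA) 1)

/-- the derivation -/
noncomputable def PsiR : RC →* Multiplicative (RC ⧸ EA →₀ ℤ) ⋊[actG EA] RC :=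
  HNNExtension.lift ((SemidirectProduct.inr : RC →* _).comp oT)
    (SemidirectProduct.inl single1 * SemidirectProduct.inr HNNExtension.t) (by
      intro a
      have h1 : (HNNExtension.t : RC) * oT (a : TT) = oT (a : TT) * HNNExtension.t :=
        HNNExtension.t_mul_of a
      have h2 := SemidirectProduct.inl_aut (φ := actG EA) (oT (a : TT)) single1
      have h3 : actG EA (oT (a : TT)) single1 = single1 := by
        unfold single1
        rw [actG_single]
        congr 2
        change ((oT (a : TT) * 1 : RC) : RC ⧸ EA) = _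
        rw [QuotientGroup.eq, mul_one, mul_one]
        exact inv_mem (Subgroup.mem_map_of_mem _ a.2)
      rw [h3] at h2
      have h4 : SemidirectProduct.inr (oT (a : TT)) * SemidirectProduct.inl single1 =
          (SemidirectProduct.inl single1 * SemidirectProduct.inr (oT (a : TT)) :
            Multiplicative (RC ⧸ EA →₀ ℤ) ⋊[actG EA] RC) := by
        nth_rewrite 2 [h2]
        rw [map_inv, inv_mul_cancel_right]
      change _ * SemidirectProduct.inr (oT (a : TT)) =
        SemidirectProduct.inr (oT (a : TT)) * _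
      rw [mul_assoc, ← map_mul, h1, map_mul, ← mul_assoc, ← h4, mul_assoc])

theorem PsiR_of (x : TT) : PsiR (oT x) = SemidirectProduct.inr (oT x) := by
  unfold PsiR
  exact HNNExtension.lift_of _ _ _ _

theorem PsiR_t : PsiR HNNExtension.t =
    SemidirectProduct.inl single1 * SemidirectProduct.inr HNNExtension.t := by
  unfold PsiR
  exact HNNExtension.lift_t _ _ _

theorem PsiR_right (g : RC) : (PsiR g).right = g := by
  have key : (SemidirectProduct.rightHom).comp PsiR = MonoidHom.id RC := by
    apply HNNExtension.hom_ext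
    · refine MonoidHom.ext fun x => ?_
      change (PsiR (oT x)).right = oT x
      rw [PsiR_of]
      simp
    · change (PsiR HNNExtension.t).right = HNNExtension.t
      rw [PsiR_t]
      simp
  exact DFunLike.congr_fun key g

theorem step_RC (hH : Stmt_HNN) (h1 : FPs 3 oT.range) (h2 : FPs 2 EA) :
    FPs 3 (⊤ : Subgroup RC) := by
  have := hnn hH (MonoidHom.id RC) Function.injective_id oT.range EA HNNExtension.t
    (Subgroup.map_le_range _ _) ?_ ?_ (fun g => toAdd (PsiR g).left) ?_ ?_ 2 ?_ ?_
  · rwa [MonoidHom.range_eq_top_of_surjective _ Function.surjective_id] at this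
  · rintro _ ⟨a, ha, rfl⟩
    have h1 : (HNNExtension.t : RC) * oT a = oT a * HNNExtension.t :=
      HNNExtension.t_mul_of (⟨a, ha⟩ : AA)
    refine ⟨a, ?_⟩
    rw [mul_assoc, ← h1, inv_mul_cancel_left]
  · rw [eq_top_iff]
    intro x _
    induction x using HNNExtension.induction_on with
    | of g => exact Subgroup.subset_closure (Or.inl ⟨g, rfl⟩)
    | t => exact Subgroup.subset_closure (Or.inr rfl)
    | mul x y hx hy => exact mul_mem (hx trivial) (hy trivial)
    | inv x hx => exact inv_mem (hx trivial)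
  · rintro g _ ⟨v, rfl⟩
    change toAdd (PsiR (g * oT v)).left = toAdd (PsiR g).left
    rw [map_mul, PsiR_of, SemidirectProduct.mul_left]
    simp
  · intro g
    change toAdd (PsiR (g * HNNExtension.t)).left = toAdd (PsiR g).left + _
    rw [map_mul, PsiR_t, SemidirectProduct.mul_left, PsiR_right]
    have : (SemidirectProduct.inl single1 * SemidirectProduct.inr HNNExtension.t :
        Multiplicative (RC ⧸ EA →₀ ℤ) ⋊[actG EA] RC).left = single1 := by simp
    have h2 : g • ((1 : RC) : RC ⧸ EA) = (g : RC ⧸ EA) := by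
      change ((g * 1 : RC) : RC ⧸ EA) = _
      rw [mul_one]
    rw [this]
    unfold single1
    rw [actG_single, toAdd_mul, h2]
    rfl
  · rwa [Subgroup.map_id]
  · rwa [Subgroup.map_id]

/-- `G2 × F3` in `TT` -/
def jB : G2 × FreeGroup (Option Bool) →* TT :=
  MonoidHom.prodMap (MonoidHom.id G2) SemidirectProduct.inl

theorem step_TT (hF : Stmt_FQ) (n : ℕ) (h : FPs n (oT.comp jB).range) : FPs n oT.range := by
  refine fq hF oT oT_inj
    ((zpowersHom (FreeGroup Unit) (FreeGroup.of ())).comp
      (SemidirectProduct.rightHom.comp (MonoidHom.snd G2 EE))) ?_ _ ?_ n h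
  · intro y
    have : ((zpowersHom (FreeGroup Unit) (FreeGroup.of ())).comp
      (SemidirectProduct.rightHom.comp (MonoidHom.snd G2 EE))).comp
        (FreeGroup.lift fun _ => sT) = MonoidHom.id _ := by
      ext
      simp [sT]
    exact ⟨_, DFunLike.congr_fun this y⟩
  · intro x
    constructor
    · rintro ⟨⟨g, u⟩, rfl⟩
      exact ⟨jB (g, u), by simp [jB], rfl⟩
    · rintro ⟨⟨g, e⟩, h1, rfl⟩
      refine ⟨(g, e.left), ?_⟩
      have h2 : e.right = 1 := by
        have h3 : (FreeGroup.of () : FreeGroup Unit) ^ (toAdd e.right) = 1 := by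
          simpa using h1
        have h4 := congrArg (FreeGroup.lift fun _ : Unit => (ofAdd (1 : ℤ))) h3
        rw [map_zpow] at h4
        simp only [FreeGroup.lift_apply_of, map_one] at h4
        rw [← ofAdd_zsmul] at h4
        simpa using h4
      change oT (g, SemidirectProduct.inl e.left) = oT (g, e)
      congr 2
      ext
      · simp
      · simp [h2]

/-- `G2` in `TT` -/
abbrev jG : G2 →* RC := oT.comp (MonoidHom.inl G2 EE)

theorem jG_inj : Function.Injective jG := by
  intro x y h
  have := oT_inj h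
  simpa using this

theorem step_B (hF : Stmt_FQ) (n : ℕ) (h : FPs n jG.range) : FPs n (oT.comp jB).range := by
  refine fq hF (oT.comp jB) ?_ (MonoidHom.snd G2 (FreeGroup (Option Bool))) ?_ _ ?_ n h
  · intro x y h
    have := oT_inj h
    have h1 := congrArg Prod.fst this
    have h2 := congrArg Prod.snd this
    refine Prod.ext h1 ?_
    exact SemidirectProduct.inl_injective h2
  · exact Prod.snd_surjective
  · intro x
    constructor
    · rintro ⟨g, rfl⟩
      exact ⟨(g, 1), rfl, by simp [jB]⟩
    · rintro ⟨⟨g, u⟩, h1, rfl⟩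
      have : u = 1 := h1
      subst this
      exact ⟨g, by simp [jB]⟩

/-! ### `G2` -/

theorem gen_G2 : Subgroup.closure ((subGam : Set G2) ∪ {rG}) = ⊤ := by
  set C := Subgroup.closure ((subGam : Set G2) ∪ {rG}) with hC
  have hr : rG ∈ C := Subgroup.subset_closure (Or.inr rfl)
  have ht : ∀ t : FreeGroup Bool, SG2X.tG t ∈ C := fun t =>
    Subgroup.subset_closure (Or.inl ⟨⟨1, by simp [SG2X.tG]⟩, by simp [SG2X.tG]⟩)
  have hn : ∀ x : FreeGroup Bool, (SemidirectProduct.inl (emb 0 x) : G2) ∈ C := fun x =>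
    Subgroup.subset_closure (Or.inl ⟨⟨x, by simp⟩, by simp⟩)
  have hK : ∀ k : K1, (SemidirectProduct.inl k : G2) ∈ C := by
    intro k
    induction k using FreeGroup.induction_on with
    | C1 => rw [map_one]; exact one_mem _
    | of p =>
      rw [of_eq_emb]
      have := SG2X.conj_rN (FreeGroup.of p.2) p.1 0
      rw [zero_add] at this
      rw [← this]
      exact mul_mem (mul_mem (zpow_mem hr _) (hn _)) (inv_mem (zpow_mem hr _))
    | inv_of p h => rw [map_inv]; exact inv_mem h
    | mul x y hx hy => rw [map_mul]; exact mul_mem hx hy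
  rw [eq_top_iff]
  intro g _
  have e : g = SemidirectProduct.inl g.left * (SG2X.tG g.right.left * rG ^ (toAdd g.right.right)) := by
    have h1 : rG ^ (toAdd g.right.right) =
        SemidirectProduct.inr (SemidirectProduct.inr g.right.right) := by
      unfold rG
      rw [← map_zpow, ← map_zpow]
      congr 2
      rw [← ofAdd_zsmul]
      simp
    have h2 : SG2X.tG g.right.left = SemidirectProduct.inr (SemidirectProduct.inl g.right.left) := rfl
    rw [h1, h2, ← map_mul, SemidirectProduct.inl_left_mul_inr_right,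
      SemidirectProduct.inl_left_mul_inr_right]
  rw [e]
  exact mul_mem (hK _) (mul_mem (ht _) (zpow_mem hr _))

theorem subF_le : subF ≤ subGam := by
  rintro _ ⟨t, rfl⟩
  exact ⟨⟨1, by simp⟩, by simp⟩

theorem conj_F : ∀ e ∈ subF, rG⁻¹ * e * rG ∈ subGam := by
  rintro _ ⟨t, rfl⟩
  apply subF_le
  have h := SG2X.conj_r ((phi⁻¹ : MulAut _) t)
  rw [MulAut.apply_inv_self] at h
  change rG⁻¹ * SG2X.tG t * rG ∈ subF
  rw [← h]
  refine ⟨(phi⁻¹ : MulAut _) t, ?_⟩
  change SG2X.tG _ = _
  group

theorem step_G2 (hH : Stmt_HNN) (h1 : FPs 3 (subGam.map jG)) (h2 : FPs 2 (subF.map jG)) :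
    FPs 3 jG.range := by
  obtain ⟨s, hs1, hs2⟩ := sG2_proof
  exact hnn hH jG jG_inj subGam subF rG subF_le conj_F gen_G2 s hs1 hs2 2 h1 h2

/-- `N_0` in `RC` -/
abbrev jN : FreeGroup Bool →* RC := oT.comp (kT.comp (emb 0))

theorem emb_inj (i : ℤ) : Function.Injective (emb i) := by
  unfold emb
  exact FreeGroup.map_injective (fun c c' h => by simpa using h)

theorem fps_N (hb : Stmt_FPbasic) (hF : Stmt_FQ) (n : ℕ) : FPs n jN.range := by
  refine fq hF jN ?_ (MonoidHom.id (FreeGroup Bool)) Function.surjective_id ⊥ ?_ n (fps_bot hb n)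
  · intro x y h
    have h1 := oT_inj h
    have h2 : (SemidirectProduct.inl (emb 0 x) : G2) = SemidirectProduct.inl (emb 0 y) :=
      congrArg Prod.fst h1
    exact emb_inj 0 (SemidirectProduct.inl_injective h2)
  · intro x
    rw [Subgroup.mem_bot]
    constructor
    · rintro rfl
      exact ⟨1, rfl, map_one _⟩
    · rintro ⟨t, h1, rfl⟩
      have : t = 1 := h1
      rw [this, map_one]

theorem fps_F (hb : Stmt_FPbasic) (hF : Stmt_FQ) (n : ℕ) : FPs n (subF.map jG) := by
  have e : subF.map jG = (jG.comp SG2X.tG).range := by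
    unfold subF
    rw [MonoidHom.map_range]
    rfl
  rw [e]
  refine fq hF (jG.comp SG2X.tG) ?_ (MonoidHom.id (FreeGroup Bool)) Function.surjective_id ⊥ ?_ n
    (fps_bot hb n)
  · intro x y h
    have h1 := jG_inj h
    have h2 := SemidirectProduct.inr_injective h1
    exact SemidirectProduct.inl_injective h2
  · intro x
    rw [Subgroup.mem_bot]
    constructor
    · rintro rfl
      exact ⟨1, rfl, map_one _⟩
    · rintro ⟨t, h1, rfl⟩
      have : t = 1 := h1
      rw [this, map_one]

/-- the projection of `subGam` to `F(t1,t2)` -/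
def qGam : subGam →* FreeGroup Bool where
  toFun v := (v : G2).right.left
  map_one' := rfl
  map_mul' x y := by
    have hx : (x : G2).right.right = 1 := x.2.2
    change ((x : G2) * (y : G2)).right.left = _
    rw [SemidirectProduct.mul_right, SemidirectProduct.mul_left, hx]
    simp

theorem fps_Gam (hb : Stmt_FPbasic) (hF : Stmt_FQ) (n : ℕ) : FPs n (subGam.map jG) := by
  have e : subGam.map jG = (jG.comp subGam.subtype).range := by
    rw [← MonoidHom.map_range, Subgroup.range_subtype]
  rw [e]
  refine fq hF (jG.comp subGam.subtype) ?_ qGam ?_ jN.range ?_ n (fps_N hb hF n)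
  · intro x y h
    exact Subtype.ext (jG_inj h)
  · intro y
    exact ⟨⟨SG2X.tG y, subF_le ⟨y, rfl⟩⟩, by simp [qGam, SG2X.tG]⟩
  · intro x
    constructor
    · rintro ⟨y, rfl⟩
      refine ⟨⟨SemidirectProduct.inl (emb 0 y), ⟨y, by simp⟩, by simp⟩, by simp [qGam], rfl⟩
    · rintro ⟨⟨v, ⟨y, hy⟩, hv⟩, h1, rfl⟩
      refine ⟨y, ?_⟩
      have h2 : v.right.left = 1 := h1
      change jG (SemidirectProduct.inl (emb 0 y)) = jG v
      congr 1
      refine SemidirectProduct.ext ?_ ?_
      · simpa using hy
      · refine SemidirectProduct.ext ?_ ?_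
        · simp [h2]
        · simp [hv]

/-! ### `AA` -/

/-- `K1 ⋊ EE → G2` -/
def pA : A0 →* G2 := SemidirectProduct.map (MonoidHom.id K1) fE (fun _ => rfl)

theorem iA_inj : Function.Injective iA := by
  intro x y h
  have h1 : pA x = pA y := congrArg Prod.fst h
  have h2 : x.right = y.right := congrArg Prod.snd h
  refine SemidirectProduct.ext ?_ h2
  have h3 := congrArg SemidirectProduct.left h1
  simpa [pA] using h3

/-- `A` in `RC` -/
abbrev jA : A0 →* RC := oT.comp iA

theorem jA_inj : Function.Injective jA := oT_inj.comp iA_inj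

theorem jA_range : jA.range = EA := by
  unfold EA AA
  rw [MonoidHom.map_range]
  rfl

theorem fE_inl (x : FreeGroup (Option Bool)) :
    fE (SemidirectProduct.inl x) = SemidirectProduct.inl (fD x) := by
  simp [fE]

theorem fE_inr (x : Multiplicative ℤ) :
    fE (SemidirectProduct.inr x) = SemidirectProduct.inr x := by
  simp [fE]

theorem pA_inl (x : K1) :
    pA (SemidirectProduct.inl x) = SemidirectProduct.inl x := by
  simp [pA]

theorem pA_inr (x : EE) :
    pA (SemidirectProduct.inr x) = SemidirectProduct.inr (fE x) := by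
  simp [pA]

theorem fE_surj : Function.Surjective fE := by
  intro q
  refine ⟨SemidirectProduct.inl (FreeGroup.map some q.left) * SemidirectProduct.inr q.right, ?_⟩
  rw [map_mul]
  have h1 : fE (SemidirectProduct.inl (FreeGroup.map some q.left)) =
      SemidirectProduct.inl q.left := by
    simp [fE, fD_map]
  have h2 : fE (SemidirectProduct.inr q.right) = SemidirectProduct.inr q.right := by
    simp [fE]
  rw [h1, h2, SemidirectProduct.inl_left_mul_inr_right]

theorem pA_surj : Function.Surjective pA := by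
  intro g
  obtain ⟨e, he⟩ := fE_surj g.right
  refine ⟨SemidirectProduct.inl g.left * SemidirectProduct.inr e, ?_⟩
  rw [map_mul]
  have h1 : pA (SemidirectProduct.inl g.left) = SemidirectProduct.inl g.left := by
    simp [pA]
  have h2 : pA (SemidirectProduct.inr e) = SemidirectProduct.inr g.right := by
    simp [pA, he]
  rw [h1, h2, SemidirectProduct.inl_left_mul_inr_right]

/-- the stable letter -/
def tA : A0 := SemidirectProduct.inr (SemidirectProduct.inr (ofAdd 1))

theorem pA_tA : pA tA = rG := by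
  unfold tA
  rw [pA_inr, fE_inr]
  rfl

/-- lifting cosets -/
noncomputable def cA : G2 ⧸ subF → A0 ⧸ subF.comap pA :=
  Quotient.map' (Function.surjInv pA_surj) (by
    intro a b hab
    rw [QuotientGroup.leftRel_apply] at hab ⊢
    rw [Subgroup.mem_comap, map_mul, map_inv, Function.surjInv_eq pA_surj,
      Function.surjInv_eq pA_surj]
    exact hab)

theorem cA_mk (g : A0) : cA ((pA g : G2) : G2 ⧸ subF) = (g : A0 ⧸ subF.comap pA) := by
  change ((Function.surjInv pA_surj (pA g) : A0) : A0 ⧸ subF.comap pA) = _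
  rw [QuotientGroup.eq, Subgroup.mem_comap, map_mul, map_inv, Function.surjInv_eq pA_surj,
    inv_mul_cancel]
  exact one_mem _

theorem gen_A : Subgroup.closure (((subGam.comap pA : Subgroup A0) : Set A0) ∪ {tA}) = ⊤ := by
  set C := Subgroup.closure (((subGam.comap pA : Subgroup A0) : Set A0) ∪ {tA}) with hC
  have h1 : C.map pA = ⊤ := by
    rw [eq_top_iff, ← gen_G2, Subgroup.closure_le]
    rintro x (hx | hx)
    · obtain ⟨y, rfl⟩ := pA_surj x
      exact ⟨y, Subgroup.subset_closure (Or.inl hx), rfl⟩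
    · rw [Set.mem_singleton_iff] at hx
      rw [hx, ← pA_tA]
      exact ⟨tA, Subgroup.subset_closure (Or.inr rfl), rfl⟩
  rw [eq_top_iff]
  intro g _
  have h2 : pA g ∈ C.map pA := by rw [h1]; trivial
  obtain ⟨c, hc, hcg⟩ := h2
  have h3 : c⁻¹ * g ∈ C := by
    apply Subgroup.subset_closure
    left
    change pA (c⁻¹ * g) ∈ subGam
    rw [map_mul, map_inv, hcg, inv_mul_cancel]
    exact one_mem _
  have : g = c * (c⁻¹ * g) := by group
  rw [this]
  exact mul_mem hc h3

theorem step_A (hH : Stmt_HNN) (h1 : FPs 2 ((subGam.comap pA).map jA))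
    (h2 : FPs 1 ((subF.comap pA).map jA)) : FPs 2 EA := by
  obtain ⟨s, hs1, hs2⟩ := sG2_proof
  rw [← jA_range]
  refine hnn hH jA jA_inj (subGam.comap pA) (subF.comap pA) tA (Subgroup.comap_mono subF_le) ?_
    gen_A (fun g => (s (pA g)).mapDomain cA) ?_ ?_ 1 h1 h2
  · intro e he
    rw [Subgroup.mem_comap, map_mul, map_mul, map_inv, pA_tA]
    exact conj_F _ he
  · intro g v hv
    change (s (pA (g * v))).mapDomain cA = (s (pA g)).mapDomain cA
    rw [map_mul, hs1 _ _ hv]
  · intro g
    change (s (pA (g * tA))).mapDomain cA = (s (pA g)).mapDomain cA + _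
    rw [map_mul, pA_tA, hs2, Finsupp.mapDomain_add, Finsupp.mapDomain_single, cA_mk]

theorem pA_rr (g : A0) : (pA g).right.right = g.right.right := rfl

theorem pA_left (g : A0) : (pA g).left = g.left := rfl

/-- projection to `F(u1,u2,z)` -/
def qA (V : Subgroup A0) (hV : ∀ v ∈ V, v.right.right = 1) : V →* FreeGroup (Option Bool) where
  toFun v := (v : A0).right.left
  map_one' := rfl
  map_mul' x y := by
    have hx : (x : A0).right.right = 1 := hV _ x.2
    change ((x : A0) * (y : A0)).right.left = _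
    rw [SemidirectProduct.mul_right, SemidirectProduct.mul_left, hx]
    simp

theorem fps_A1 (hb : Stmt_FPbasic) (hF : Stmt_FQ) (n : ℕ) :
    FPs n ((subGam.comap pA).map jA) := by
  have hV : ∀ v ∈ subGam.comap pA, v.right.right = 1 := by
    intro v hv
    rw [← pA_rr]; exact hv.2
  have e : (subGam.comap pA).map jA = (jA.comp (subGam.comap pA).subtype).range := by
    rw [← MonoidHom.map_range, Subgroup.range_subtype]
  rw [e]
  refine fq hF (jA.comp (subGam.comap pA).subtype) ?_ (qA _ hV) ?_ jN.range ?_ n (fps_N hb hF n)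
  · intro x y h
    exact Subtype.ext (jA_inj h)
  · intro y
    refine ⟨⟨SemidirectProduct.inr (SemidirectProduct.inl y), ?_⟩, by simp [qA]⟩
    refine ⟨⟨1, by simp [pA]⟩, ?_⟩
    rw [pA_rr]
    simp
  · intro x
    constructor
    · rintro ⟨y, rfl⟩
      refine ⟨⟨SemidirectProduct.inl (emb 0 y), ⟨y, by simp [pA]⟩, by simp [pA]⟩,
        by simp [qA], ?_⟩
      change oT (iA (SemidirectProduct.inl (emb 0 y))) = oT (kT (emb 0 y))
      congr 1
    · rintro ⟨⟨v, hv⟩, h1, rfl⟩
      obtain ⟨y, hy⟩ := hv.1
      rw [pA_left] at hy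
      have h2 : v.right.left = 1 := h1
      have h3 : v.right.right = 1 := hV v hv
      refine ⟨y, ?_⟩
      have h4 : v = SemidirectProduct.inl (emb 0 y) := by
        refine SemidirectProduct.ext ?_ ?_
        · simp [hy]
        · refine SemidirectProduct.ext ?_ ?_
          · simp [h2]
          · simp [h3]
      change oT (kT (emb 0 y)) = oT (iA v)
      rw [h4]
      congr 1

theorem fps_Ae (hb : Stmt_FPbasic) (hF : Stmt_FQ) (n : ℕ) :
    FPs n ((subF.comap pA).map jA) := by
  have hV : ∀ v ∈ subF.comap pA, v.right.right = 1 := by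
    intro v hv
    rw [← pA_rr]; exact (subF_le hv).2
  have e : (subF.comap pA).map jA = (jA.comp (subF.comap pA).subtype).range := by
    rw [← MonoidHom.map_range, Subgroup.range_subtype]
  rw [e]
  refine fq hF (jA.comp (subF.comap pA).subtype) ?_ (qA _ hV) ?_ ⊥ ?_ n (fps_bot hb n)
  · intro x y h
    exact Subtype.ext (jA_inj h)
  · intro y
    refine ⟨⟨SemidirectProduct.inr (SemidirectProduct.inl y), ?_⟩, by simp [qA]⟩
    refine ⟨fD y, ?_⟩
    rw [pA_inr, fE_inl]
    rfl
  · intro x
    rw [Subgroup.mem_bot]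
    constructor
    · rintro rfl
      exact ⟨1, by simp, by simp⟩
    · rintro ⟨⟨v, hv⟩, h1, rfl⟩
      have h2 : v.right.left = 1 := h1
      have h3 : v.right.right = 1 := hV v hv
      have h5 : v.left = 1 := by
        obtain ⟨t, ht⟩ := hv
        rw [← pA_left, ← ht]
        simp
      have h4 : v = 1 := by
        refine SemidirectProduct.ext h5 ?_
        refine SemidirectProduct.ext h2 h3
      change jA v = 1
      rw [h4, map_one]

end conc

end FPRX

/-- FPR. -/
theorem fPR_proof (hb : Stmt_FPbasic) (hF : Stmt_FQ) (hH : Stmt_HNN) : Stmt_FPR := by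
  apply FPRX.step_RC hH
  · apply FPRX.step_TT hF
    apply FPRX.step_B hF
    exact FPRX.step_G2 hH (FPRX.fps_Gam hb hF 3) (FPRX.fps_F hb hF 2)
  · exact FPRX.step_A hH (FPRX.fps_A1 hb hF 2) (FPRX.fps_Ae hb hF 1)

end Pool.Agent.SD
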