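import Pool.Agent.SD.Stmts

set_option autoImplicit false

namespace Pool.Agent.SD

namespace FQX

open MonoidAlgebra

/-- permutation module of a set -/
abbrev PMs (R Ω : Type) [Group R] [MulAction R Ω] : Type :=
  (Representation.ofMulAction ℤ R Ω).asModule

variable {R Ω : Type} [Group R] [MulAction R Ω]

/-- the generators -/
noncomputable def gen (R : Type) {Ω : Type} [Group R] [MulAction R Ω] (ω : Ω) : PMs R Ω :=
  (Representation.ofMulAction ℤ R Ω).asModuleEquiv.symm (MonoidAlgebra.single ω (1 : ℤ))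

theorem of_smul_gen (g : R) (ω : Ω) : (of ℤ R g) • (gen R ω) = gen R (g • ω) := by
  rw [gen, ← Representation.asModuleEquiv_symm_map_rho, Representation.ofMulAction_single]
  rfl

/-- additive maps from values on generators -/
noncomputable def lft {N : Type} [AddCommGroup N] (F : Ω → N) : MonoidAlgebra ℤ Ω →+ N :=
  (Finsupp.liftAddHom (fun ω => (zmultiplesHom N (F ω)))).comp
    (MonoidAlgebra.coeffAddEquiv (R := ℤ) (M := Ω)).toAddMonoidHom

omit [MulAction R Ω] in
theorem lft_single {N : Type} [AddCommGroup N] (F : Ω → N) (ω : Ω) (n : ℤ) :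
    lft F (MonoidAlgebra.single ω n) = n • F ω := by
  simp [lft]

/-- additive maps from values on generators -/
noncomputable def lftM (R : Type) {Ω : Type} [Group R] [MulAction R Ω]
    {N : Type} [AddCommGroup N] (F : Ω → N) : PMs R Ω →+ N :=
  (lft F).comp (Representation.ofMulAction ℤ R Ω).asModuleEquiv.toAddEquiv.toAddMonoidHom

theorem lftM_gen {N : Type} [AddCommGroup N] (F : Ω → N) (ω : Ω) :
    lftM R F (gen R ω) = F ω := by
  have : lftM R F (gen R ω) = lft F (MonoidAlgebra.single ω 1) := rfl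
  rw [this, lft_single, one_smul]

/-- induction -/
theorem gen_ind {P : PMs R Ω → Prop} (h0 : P 0) (ha : ∀ x y, P x → P y → P (x + y))
    (hn : ∀ x, P x → P (-x)) (hg : ∀ ω, P (gen R ω)) (x : PMs R Ω) : P x := by
  have h1 : ∀ f : MonoidAlgebra ℤ Ω,
      P ((Representation.ofMulAction ℤ R Ω).asModuleEquiv.symm f) := by
    intro f
    induction f using MonoidAlgebra.induction_linear with
    | zero => rw [map_zero]; exact h0
    | add f g hf hg => rw [map_add]; exact ha _ _ hf hg
    | single a r =>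
      have hnat : ∀ n : ℕ, P ((Representation.ofMulAction ℤ R Ω).asModuleEquiv.symm
          (MonoidAlgebra.single a (n : ℤ))) := by
        intro n
        induction n with
        | zero =>
          rw [Nat.cast_zero, MonoidAlgebra.single_zero, map_zero]
          exact h0
        | succ n ih =>
          rw [Nat.cast_succ, MonoidAlgebra.single_add, map_add]
          exact ha _ _ ih (hg a)
      rcases Int.eq_nat_or_neg r with ⟨n, rfl | rfl⟩
      · exact hnat n
      · rw [MonoidAlgebra.single_neg, map_neg]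
        exact hn _ (hnat n)
  exact h1 ((Representation.ofMulAction ℤ R Ω).asModuleEquiv x)

theorem hom_ext {N : Type} [AddCommGroup N] (f g : PMs R Ω →+ N)
    (h : ∀ ω, f (gen R ω) = g (gen R ω)) (x : PMs R Ω) : f x = g x := by
  refine gen_ind (P := fun x => f x = g x) (by simp) ?_ ?_ h x
  · intro x y hx hy
    rw [map_add, map_add, hx, hy]
  · intro x hx
    rw [map_neg, map_neg, hx]

/-- equivariant additive maps are linear -/
theorem lin_of {M N : Type} [AddCommGroup M] [Module (MonoidAlgebra ℤ R) M] [AddCommGroup N]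
    [Module (MonoidAlgebra ℤ R) N] (L : M →+ N) (h : ∀ g m, L (of ℤ R g • m) = of ℤ R g • L m)
    (a : MonoidAlgebra ℤ R) (m : M) : L (a • m) = a • L m := by
  induction a using MonoidAlgebra.induction_linear with
  | zero => rw [zero_smul, zero_smul, map_zero]
  | add f g hf hg => rw [add_smul, add_smul, map_add, hf, hg]
  | single g n =>
    have : MonoidAlgebra.single g n = n • of ℤ R g := by
      rw [of_apply, MonoidAlgebra.smul_single]
      simp
    rw [this, smul_assoc, smul_assoc, map_zsmul, h]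

/-- linear maps from equivariant values -/
noncomputable def linM {N : Type} [AddCommGroup N] [Module (MonoidAlgebra ℤ R) N] (F : Ω → N)
    (h : ∀ (g : R) ω, F (g • ω) = of ℤ R g • F ω) : PMs R Ω →ₗ[MonoidAlgebra ℤ R] N where
  toFun := lftM R F
  map_add' := map_add _
  map_smul' a x := by
    rw [RingHom.id_apply]
    apply lin_of (lftM R F)
    intro g m
    have := hom_ext (R := R) ((lftM R F).comp (DistribSMul.toAddMonoidHom _ (of ℤ R g)))
      ((DistribSMul.toAddMonoidHom _ (of ℤ R g)).comp (lftM R F)) (by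
        intro ω
        simp only [AddMonoidHom.comp_apply, DistribSMul.toAddMonoidHom_apply]
        rw [of_smul_gen, lftM_gen, lftM_gen, h]) m
    exact this

theorem linM_gen {N : Type} [AddCommGroup N] [Module (MonoidAlgebra ℤ R) N] (F : Ω → N)
    (h : ∀ (g : R) ω, F (g • ω) = of ℤ R g • F ω) (ω : Ω) : linM F h (gen R ω) = F ω :=
  lftM_gen F ω


/-- projection -/
noncomputable def prj {E B : Subgroup R} (h : E ≤ B) : R ⧸ E → R ⧸ B :=
  Quotient.map' id (fun a b hab => by
    rw [QuotientGroup.leftRel_apply] at hab ⊢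
    exact h hab)

theorem prj_mk {E B : Subgroup R} (h : E ≤ B) (g : R) : prj h (g : R ⧸ E) = (g : R ⧸ B) := rfl

/-- right translation -/
noncomputable def tau {E : Subgroup R} (t : R) (h : ∀ e ∈ E, t⁻¹ * e * t ∈ E) : R ⧸ E → R ⧸ E :=
  Quotient.map' (fun g => g * t) (fun a b hab => by
    rw [QuotientGroup.leftRel_apply] at hab ⊢
    have := h _ hab
    have e1 : (a * t)⁻¹ * (b * t) = t⁻¹ * (a⁻¹ * b) * t := by group
    rw [e1]
    exact this)

theorem tau_mk {E : Subgroup R} (t : R) (h : ∀ e ∈ E, t⁻¹ * e * t ∈ E) (g : R) :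
    tau t h (g : R ⧸ E) = ((g * t : R) : R ⧸ E) := rfl

theorem smul_mk {E : Subgroup R} (r g : R) : r • (g : R ⧸ E) = ((r * g : R) : R ⧸ E) := rfl

/-- the projection of permutation modules -/
noncomputable def pj {E B : Subgroup R} (h : E ≤ B) : PM E →ₗ[MonoidAlgebra ℤ R] PM B :=
  linM (fun ω => gen R (prj h ω)) (by
    intro g ω
    rw [of_smul_gen]
    congr 1
    induction ω using QuotientGroup.induction_on with | H a => ?_
    rfl)

theorem pj_gen {E B : Subgroup R} (h : E ≤ B) (ω : R ⧸ E) :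
    pj h (gen R ω) = gen R (prj h ω) := linM_gen _ _ _

theorem pj_surj {E B : Subgroup R} (h : E ≤ B) : Function.Surjective (pj h) := by
  intro x
  refine gen_ind (P := fun x => ∃ a, pj h a = x) ⟨0, map_zero _⟩ ?_ ?_ ?_ x
  · rintro x y ⟨a, ha⟩ ⟨b, hb⟩
    exact ⟨a + b, by rw [map_add, ha, hb]⟩
  · rintro x ⟨a, ha⟩
    exact ⟨-a, by rw [map_neg, ha]⟩
  · intro ω
    induction ω using QuotientGroup.induction_on with | H a => ?_
    exact ⟨gen R (a : R ⧸ E), by rw [pj_gen, prj_mk]⟩

/-- the difference map for one `t` -/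
noncomputable def dl {E : Subgroup R} (t : R) (h : ∀ e ∈ E, t⁻¹ * e * t ∈ E) :
    PM E →ₗ[MonoidAlgebra ℤ R] PM E :=
  linM (fun ω => gen R (tau t h ω) - gen R ω) (by
    intro g ω
    rw [smul_sub, of_smul_gen, of_smul_gen]
    congr 2
    induction ω using QuotientGroup.induction_on with | H a => ?_
    rw [smul_mk, tau_mk, tau_mk, smul_mk, mul_assoc])

theorem dl_gen {E : Subgroup R} (t : R) (h : ∀ e ∈ E, t⁻¹ * e * t ∈ E) (ω : R ⧸ E) :
    dl t h (gen R ω) = gen R (tau t h ω) - gen R ω := linM_gen _ _ _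

/-- setting -/
structure Sett (R : Type) [Group R] (B E : Subgroup R) (k : ℕ) where
  hEB : E ≤ B
  q : B →* FreeGroup (Fin k)
  surj : Function.Surjective q
  ker : ∀ b : B, q b = 1 ↔ (b : R) ∈ E
  t : Fin k → B
  ht : ∀ i, q (t i) = FreeGroup.of i

variable {B E : Subgroup R} {k : ℕ}

theorem Sett.nrm (S : Sett R B E k) (b : B) (e : R) (he : e ∈ E) :
    (b : R)⁻¹ * e * (b : R) ∈ E := by
  have h1 : S.q ⟨e, S.hEB he⟩ = 1 := (S.ker _).2 he
  have h2 : S.q (b⁻¹ * ⟨e, S.hEB he⟩ * b) = 1 := by
    rw [map_mul, map_mul, h1, map_inv]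
    simp
  exact (S.ker _).1 h2

theorem Sett.mem_of_eq (S : Sett R B E k) {a b : B} (h : S.q a = S.q b) : (a : R)⁻¹ * b ∈ E := by
  have : S.q (a⁻¹ * b) = 1 := by
    rw [map_mul, map_inv, h, inv_mul_cancel]
  exact (S.ker _).1 this

/-- the map `d` -/
noncomputable def Sett.d (S : Sett R B E k) :
    (Fin k → PM E) →ₗ[MonoidAlgebra ℤ R] PM E :=
  ∑ i, (dl ((S.t i : B) : R) (S.nrm (S.t i))).comp (LinearMap.proj i)

theorem Sett.d_single (S : Sett R B E k) (i : Fin k) (x : PM E) :
    S.d (Pi.single i x) = dl ((S.t i : B) : R) (S.nrm (S.t i)) x := by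
  classical
  simp only [Sett.d, LinearMap.sum_apply, LinearMap.comp_apply, LinearMap.proj_apply]
  rw [Finset.sum_eq_single i]
  · rw [Pi.single_eq_same]
  · intro j _ hj
    rw [Pi.single_eq_of_ne hj, map_zero]
  · intro h
    exact absurd (Finset.mem_univ i) h

theorem Sett.diff_mem (S : Sett R B E k) (w : FreeGroup (Fin k)) : ∀ b : B, S.q b = w → ∀ g : R,
    gen R ((g * b : R) : R ⧸ E) - gen R (g : R ⧸ E) ∈ LinearMap.range S.d := by
  have hof : ∀ i, ∀ b : B, S.q b = FreeGroup.of i → ∀ g : R,
      gen R ((g * b : R) : R ⧸ E) - gen R (g : R ⧸ E) ∈ LinearMap.range S.d := by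
    intro i b hb g
    have h1 : ((g * b : R) : R ⧸ E) = ((g * (S.t i : B) : R) : R ⧸ E) := by
      rw [QuotientGroup.eq]
      have : (g * (b : R))⁻¹ * (g * ((S.t i : B) : R)) = (b : R)⁻¹ * ((S.t i : B) : R) := by group
      rw [this]
      apply S.mem_of_eq
      rw [hb, S.ht]
    rw [h1]
    refine ⟨Pi.single i (gen R (g : R ⧸ E)), ?_⟩
    rw [S.d_single, dl_gen, tau_mk]
  induction w using FreeGroup.induction_on with
  | C1 =>
    intro b hb g
    have h1 : ((g * b : R) : R ⧸ E) = (g : R ⧸ E) := by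
      rw [eq_comm, QuotientGroup.eq]
      have : g⁻¹ * (g * (b : R)) = b := by group
      rw [this]
      exact (S.ker _).1 hb
    rw [h1, sub_self]
    exact Submodule.zero_mem _
  | of i => exact hof i
  | inv_of i _ =>
    intro b hb g
    have h1 := hof i b⁻¹ (by rw [map_inv, hb, inv_inv]) (g * b)
    have h2 : g * (b : R) * ((b⁻¹ : B) : R) = g := by simp
    rw [h2] at h1
    have := Submodule.neg_mem _ h1
    rwa [neg_sub] at this
  | mul u v hu hv =>
    intro b hb g
    obtain ⟨b1, hb1⟩ := S.surj u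
    have h2 : S.q (b1⁻¹ * b) = v := by
      rw [map_mul, map_inv, hb1, hb, inv_mul_cancel_left]
    have e1 := hu b1 hb1 g
    have e2 := hv (b1⁻¹ * b) h2 (g * b1)
    have h3 : g * (b1 : R) * ((b1⁻¹ * b : B) : R) = g * b := by simp [mul_assoc]
    rw [h3] at e2
    have := Submodule.add_mem _ e2 e1
    rwa [sub_add_sub_cancel] at this

theorem Sett.exact (S : Sett R B E k) :
    LinearMap.range S.d = LinearMap.ker (pj S.hEB) := by
  apply le_antisymm
  · rintro _ ⟨c, rfl⟩
    rw [LinearMap.mem_ker]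
    simp only [Sett.d, LinearMap.sum_apply, LinearMap.comp_apply, LinearMap.proj_apply, map_sum]
    apply Finset.sum_eq_zero
    intro i _
    refine gen_ind (P := fun x => pj S.hEB (dl ((S.t i : B) : R) (S.nrm (S.t i)) x) = 0)
      (by simp) ?_ ?_ ?_ (c i)
    · intro x y hx hy
      rw [map_add, map_add, hx, hy, add_zero]
    · intro x hx
      rw [map_neg, map_neg, hx, neg_zero]
    · intro ω
      rw [dl_gen, map_sub, pj_gen, pj_gen]
      induction ω using QuotientGroup.induction_on with | H a => ?_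
      rw [tau_mk, prj_mk, prj_mk]
      have : ((a * ((S.t i : B) : R) : R) : R ⧸ B) = (a : R ⧸ B) := by
        rw [eq_comm, QuotientGroup.eq]
        have : a⁻¹ * (a * ((S.t i : B) : R)) = ((S.t i : B) : R) := by group
        rw [this]
        exact (S.t i).2
      rw [this, sub_self]
  · intro x hx
    rw [LinearMap.mem_ker] at hx
    let ψ : PM B →+ PM E := lftM R (fun ω => gen R ((ω.out : R) : R ⧸ E))
    have h1 : ∀ x : PM E, x - ψ (pj S.hEB x) ∈ LinearMap.range S.d := by
      intro x
      refine gen_ind (P := fun x => x - ψ (pj S.hEB x) ∈ LinearMap.range S.d) ?_ ?_ ?_ ?_ x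
      · rw [map_zero, map_zero, sub_zero]
        exact Submodule.zero_mem _
      · intro x y hx hy
        have := Submodule.add_mem _ hx hy
        rw [map_add, map_add]
        have e : x + y - (ψ (pj S.hEB x) + ψ (pj S.hEB y)) =
            (x - ψ (pj S.hEB x)) + (y - ψ (pj S.hEB y)) := by abel
        rw [e]
        exact this
      · intro x hx
        have := Submodule.neg_mem _ hx
        rw [map_neg, map_neg]
        have e : -x - -ψ (pj S.hEB x) = -(x - ψ (pj S.hEB x)) := by abel
        rw [e]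
        exact this
      · intro ω
        induction ω using QuotientGroup.induction_on with | H a => ?_
        rw [pj_gen, prj_mk]
        have h2 : ψ (gen R (a : R ⧸ B)) = gen R (((a : R ⧸ B).out : R) : R ⧸ E) := lftM_gen _ _
        rw [h2]
        have h3 : (((a : R ⧸ B).out : R) : R ⧸ B) = (a : R ⧸ B) := QuotientGroup.out_eq' _
        rw [QuotientGroup.eq] at h3
        have h4 := S.diff_mem _ ⟨_, h3⟩ rfl (a : R ⧸ B).out
        have h5 : (a : R ⧸ B).out * (((a : R ⧸ B).out : R)⁻¹ * a) = a := by group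
        simp only [h5] at h4
        exact h4
    have h2 := h1 x
    rwa [hx, map_zero, sub_zero] at h2

/-- left inverse of `d`, values -/
noncomputable def Sett.lamF (S : Sett R B E k)
    (D : FreeGroup (Fin k) → Fin k → MonoidAlgebra ℤ (FreeGroup (Fin k))) (g : R) :
    Fin k → PM E := fun i =>
  lft (fun h : FreeGroup (Fin k) =>
    gen R ((((g : R ⧸ B).out * ((S.surj h).choose : B) : R)) : R ⧸ E))
    (D (S.q ⟨((g : R ⧸ B).out)⁻¹ * g, by
      have h3 : (((g : R ⧸ B).out : R) : R ⧸ B) = (g : R ⧸ B) := QuotientGroup.out_eq' _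
      rwa [QuotientGroup.eq] at h3⟩) i)

theorem Sett.inj (S : Sett R B E k)
    (D : FreeGroup (Fin k) → Fin k → MonoidAlgebra ℤ (FreeGroup (Fin k)))
    (hD : IsFox (MonoidHom.id (FreeGroup (Fin k))) D) :
    Function.Injective S.d := by
  -- values on cosets
  have hE : ∀ a b : R, (a : R ⧸ E) = (b : R ⧸ E) → S.lamF D a = S.lamF D b := by
    intro a b hab
    rw [QuotientGroup.eq] at hab
    have hB : (a : R ⧸ B) = (b : R ⧸ B) := by
      rw [QuotientGroup.eq]
      exact S.hEB hab
    funext i
    unfold Sett.lamF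
    have h1 : S.q ⟨((a : R ⧸ B).out)⁻¹ * a, by
      have h3 : (((a : R ⧸ B).out : R) : R ⧸ B) = (a : R ⧸ B) := QuotientGroup.out_eq' _
      rwa [QuotientGroup.eq] at h3⟩ = S.q ⟨((b : R ⧸ B).out)⁻¹ * b, by
      have h3 : (((b : R ⧸ B).out : R) : R ⧸ B) = (b : R ⧸ B) := QuotientGroup.out_eq' _
      rwa [QuotientGroup.eq] at h3⟩ := by
      rw [← inv_mul_eq_one, ← map_inv, ← map_mul, S.ker]
      have : (((a : R ⧸ B).out)⁻¹ * a)⁻¹ * (((b : R ⧸ B).out)⁻¹ * b) = a⁻¹ * b := by
        rw [← hB]
        group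
      simp only [Subgroup.coe_mul, Subgroup.coe_inv]
      rw [this]
      exact hab
    rw [h1]
    rw [hB]
  let F : R ⧸ E → (Fin k → PM E) := fun ω => Quotient.liftOn' ω (S.lamF D) (by
    intro a b hab
    rw [QuotientGroup.leftRel_apply] at hab
    exact hE a b (QuotientGroup.eq.2 hab))
  have hF : ∀ g : R, F (g : R ⧸ E) = S.lamF D g := fun g => rfl
  let lam : PM E →+ (Fin k → PM E) := lftM R F
  have hlam : ∀ ω, lam (gen R ω) = F ω := fun ω => lftM_gen _ _
  have key : ∀ (i : Fin k) (g : R),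
      S.lamF D (g * ((S.t i : B) : R)) - S.lamF D g = Pi.single i (gen R (g : R ⧸ E)) := by
    intro i g
    have hB : ((g * ((S.t i : B) : R) : R) : R ⧸ B) = (g : R ⧸ B) := by
      rw [eq_comm, QuotientGroup.eq]
      have : g⁻¹ * (g * ((S.t i : B) : R)) = ((S.t i : B) : R) := by group
      rw [this]
      exact (S.t i).2
    have hout : (((g : R ⧸ B).out : R) : R ⧸ B) = (g : R ⧸ B) := QuotientGroup.out_eq' _
    rw [QuotientGroup.eq] at hout
    set b : B := ⟨((g : R ⧸ B).out)⁻¹ * g, hout⟩ with hb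
    have h1 : ∀ (p : (((g * ((S.t i : B) : R) : R) : R ⧸ B).out)⁻¹ * (g * ((S.t i : B) : R)) ∈ B),
        S.q ⟨(((g * ((S.t i : B) : R) : R) : R ⧸ B).out)⁻¹ * (g * ((S.t i : B) : R)), p⟩ =
        S.q b * FreeGroup.of i := by
      intro p
      rw [← S.ht i, ← map_mul]
      congr 1
      apply Subtype.ext
      simp only [hb, Subgroup.coe_mul]
      rw [hB, mul_assoc]
    funext j
    rw [Pi.sub_apply]
    unfold Sett.lamF
    rw [h1, hB, hD.1, map_add, add_sub_cancel_left, hD.2, MonoidHom.id_apply]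
    by_cases hij : i = j
    · subst hij
      rw [if_pos rfl, mul_one, Pi.single_eq_same, of_apply, lft_single, one_smul]
      congr 1
      rw [QuotientGroup.eq]
      have h2 := (S.surj (S.q b)).choose_spec
      have h3 := S.mem_of_eq h2
      have h4 : ((g : R ⧸ B).out * ((S.surj (S.q b)).choose : R))⁻¹ * g =
          ((S.surj (S.q b)).choose : R)⁻¹ * (b : R) := by
        rw [hb]
        group
      rw [h4]
      exact h3
    · rw [if_neg hij, mul_zero, map_zero, Pi.single_eq_of_ne (Ne.symm hij)]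
  have h1 : ∀ (i : Fin k) (x : PM E), lam (S.d (Pi.single i x)) = Pi.single i x := by
    intro i x
    rw [S.d_single]
    refine gen_ind (P := fun x => lam (dl ((S.t i : B) : R) (S.nrm (S.t i)) x) = Pi.single i x)
      (by simp) ?_ ?_ ?_ x
    · intro x y hx hy
      rw [map_add, map_add, hx, hy, Pi.single_add]
    · intro x hx
      rw [map_neg, map_neg, hx, Pi.single_neg]
    · intro ω
      rw [dl_gen, map_sub, hlam, hlam]
      induction ω using QuotientGroup.induction_on with | H a => ?_
      rw [tau_mk, hF, hF, key]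
  have h2 : ∀ c : Fin k → PM E, lam (S.d c) = c := by
    intro c
    have : c = ∑ i, Pi.single i (c i) := (Finset.univ_sum_single c).symm
    rw [this, map_sum, map_sum]
    exact Finset.sum_congr rfl fun i _ => h1 i _
  intro c c' h
  rw [← h2 c, ← h2 c', h]

end FQX

open FQX in
/-- FQ -/
theorem fq_proof (hq : Stmt_FPquot) (hb : Stmt_FPbasic) (hfox : Stmt_FoxEx) : Stmt_FQ := by
  classical
  intro R _ B E S _ q hEB hsurj hker n hE
  let e := Fintype.equivFin S
  let q' : B →* FreeGroup (Fin (Fintype.card S)) :=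
    (FreeGroup.freeGroupCongr e).toMonoidHom.comp q
  have hs' : Function.Surjective q' := (FreeGroup.freeGroupCongr e).surjective.comp hsurj
  have hk' : ∀ b : B, q' b = 1 ↔ (b : R) ∈ E := by
    intro b
    rw [← hker]
    exact map_eq_one_iff _ (FreeGroup.freeGroupCongr e).injective
  let T : Sett R B E (Fintype.card S) :=
    { hEB := hEB
      q := q'
      surj := hs'
      ker := hk'
      t := fun i => (hs' (FreeGroup.of i)).choose
      ht := fun i => (hs' (FreeGroup.of i)).choose_spec }
  obtain ⟨D, hD⟩ := hfox (Fin (Fintype.card S)) (FreeGroup (Fin (Fintype.card S)))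
    (MonoidHom.id (FreeGroup (Fin (Fintype.card S))))
  have hinj := T.inj D (by convert hD)
  have hb' := hb (MonoidAlgebra ℤ R)
  cases n with
  | zero =>
    have h1 : Module.Finite (MonoidAlgebra ℤ R) (PM E) := hE
    exact Module.Finite.of_surjective (pj hEB) (pj_surj hEB)
  | succ m =>
    have h1 : FP (MonoidAlgebra ℤ R) m (PM E) := hb'.2.1 m _ hE
    have h2 : FP (MonoidAlgebra ℤ R) m (Fin (Fintype.card S) → PM E) := hb'.2.2.1 m _ _ h1
    exact hq _ m _ _ _ T.d (pj hEB) hinj (pj_surj hEB) T.exact h2 hE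

end Pool.Agent.SD
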