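import Pool.Agent.SD.Stmts

/-!
# Squad SD, module FOX: Fox calculus
-/

set_option autoImplicit false

namespace Pool.Agent.SD

namespace FoxX

open MonoidAlgebra

section Basic

variable {X R : Type} [Group R] [DecidableEq X] {π : FreeGroup X →* R}
  {D : FreeGroup X → X → MonoidAlgebra ℤ R}

theorem fox_one (hD : IsFox π D) (x : X) : D 1 x = 0 := by
  have h := hD.1 1 1 x
  rw [mul_one, map_one, map_one, one_mul] at h
  simpa using h

theorem fox_inv (hD : IsFox π D) (u : FreeGroup X) (x : X) :
    D u⁻¹ x = - (MonoidAlgebra.of ℤ R (π u)⁻¹ * D u x) := by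
  have h := hD.1 u⁻¹ u x
  rw [inv_mul_cancel, fox_one hD, map_inv] at h
  exact eq_neg_of_add_eq_zero_left h.symm

end Basic

/-! ### existence -/

section Ex

variable {X R : Type} [Group R]

/-- the action of a group element on `ℤ[R]^X` -/
noncomputable def act (r : R) (v : X → MonoidAlgebra ℤ R) : X → MonoidAlgebra ℤ R :=
  fun x => MonoidAlgebra.of ℤ R r * v x

theorem act_act (r s : R) (v : X → MonoidAlgebra ℤ R) : act r (act s v) = act (r * s) v := by
  funext x
  simp only [act, map_mul, mul_assoc]

theorem act_one (v : X → MonoidAlgebra ℤ R) : act (1 : R) v = v := by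
  funext x
  simp only [act, map_one, one_mul]

theorem act_add (r : R) (v w : X → MonoidAlgebra ℤ R) : act r (v + w) = act r v + act r w := by
  funext x
  simp only [act, Pi.add_apply, mul_add]

variable [DecidableEq X] (π : FreeGroup X →* R)

/-- the affine map of a generator -/
noncomputable def gen (y : X) : Equiv.Perm (X → MonoidAlgebra ℤ R) where
  toFun v := Pi.single y 1 + act (π (FreeGroup.of y)) v
  invFun v := act (π (FreeGroup.of y))⁻¹ (v - Pi.single y 1)
  left_inv v := by
    show act (π (FreeGroup.of y))⁻¹ (Pi.single y 1 + act (π (FreeGroup.of y)) v - Pi.single y 1) = v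
    rw [add_sub_cancel_left, act_act, inv_mul_cancel, act_one]
  right_inv v := by
    show Pi.single y 1 + act (π (FreeGroup.of y)) (act (π (FreeGroup.of y))⁻¹ (v - Pi.single y 1)) = v
    rw [act_act, mul_inv_cancel, act_one, add_sub_cancel]

/-- the action of the free group -/
noncomputable def T : FreeGroup X →* Equiv.Perm (X → MonoidAlgebra ℤ R) :=
  FreeGroup.lift (gen π)

theorem T_affine (u : FreeGroup X) : ∀ v, T π u v = T π u 0 + act (π u) v := by
  induction u using FreeGroup.induction_on with
  | C1 =>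
    intro v
    rw [map_one, map_one, act_one]
    simp
  | of y =>
    intro v
    have h : ∀ v, T π (FreeGroup.of y) v = Pi.single y 1 + act (π (FreeGroup.of y)) v := by
      intro v
      simp [T, gen]
    rw [h, h]
    have : act (π (FreeGroup.of y)) (0 : X → MonoidAlgebra ℤ R) = 0 := by
      funext x
      simp [act]
    rw [this, add_zero]
  | inv_of y ih =>
    intro v
    have h1 := ih (T π (FreeGroup.of y)⁻¹ v)
    have h2 := ih (T π (FreeGroup.of y)⁻¹ 0)
    rw [← Equiv.Perm.mul_apply, ← map_mul, mul_inv_cancel, map_one, Equiv.Perm.one_apply] at h1 h2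
    -- v = T 0 + act (T⁻¹ v), 0 = T 0 + act (T⁻¹ 0)
    have h3 : act (π (FreeGroup.of y)) (T π (FreeGroup.of y)⁻¹ v) =
        act (π (FreeGroup.of y)) (T π (FreeGroup.of y)⁻¹ 0) + v := by
      calc act (π (FreeGroup.of y)) (T π (FreeGroup.of y)⁻¹ v)
          = 0 + act (π (FreeGroup.of y)) (T π (FreeGroup.of y)⁻¹ v) := (zero_add _).symm
        _ = (T π (FreeGroup.of y) 0 + act (π (FreeGroup.of y)) (T π (FreeGroup.of y)⁻¹ 0)) +
            act (π (FreeGroup.of y)) (T π (FreeGroup.of y)⁻¹ v) := by rw [← h2]
        _ = act (π (FreeGroup.of y)) (T π (FreeGroup.of y)⁻¹ 0) + (T π (FreeGroup.of y) 0 +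
            act (π (FreeGroup.of y)) (T π (FreeGroup.of y)⁻¹ v)) := by abel
        _ = act (π (FreeGroup.of y)) (T π (FreeGroup.of y)⁻¹ 0) + v := by rw [← h1]
    have h4 := congrArg (act (π (FreeGroup.of y))⁻¹) h3
    rw [act_act, inv_mul_cancel, act_one, act_add, act_act, inv_mul_cancel, act_one] at h4
    rw [map_inv π]
    exact h4
  | mul a b ha hb =>
    intro v
    rw [map_mul, map_mul, Equiv.Perm.mul_apply, Equiv.Perm.mul_apply, ha, hb v, ha (T π b 0),
      act_add, act_act, add_assoc]

end Ex

/-! ### additive maps on the group ring -/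

section Lam

variable {R B : Type} [Group R] [AddCommGroup B]

/-- the additive extension of a function on the group -/
noncomputable def lam (c : R → B) : MonoidAlgebra ℤ R →+ B :=
  (Finsupp.liftAddHom fun g => zmultiplesHom B (c g)).comp
    (MonoidAlgebra.coeffAddEquiv : MonoidAlgebra ℤ R ≃+ (R →₀ ℤ)).toAddMonoidHom

theorem lam_of (c : R → B) (g : R) : lam c (MonoidAlgebra.of ℤ R g) = c g := by
  simp [lam, MonoidAlgebra.coeffAddEquiv]

theorem lam_of_mul (c : R → B) (g₀ : R) (a : MonoidAlgebra ℤ R) :
    lam c (MonoidAlgebra.of ℤ R g₀ * a) = lam (fun g => c (g₀ * g)) a := by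
  induction a using MonoidAlgebra.induction_on with
  | of m => rw [← map_mul, lam_of, lam_of]
  | add x y hx hy => rw [mul_add, map_add, map_add, hx, hy]
  | smul n x hx => rw [mul_smul_comm, map_zsmul, map_zsmul, hx]

end Lam

/-! ### Magnus -/

section Magnus

variable {X R : Type} [Group R] [Fintype X] [DecidableEq X] (π : FreeGroup X →* R)
  (s : R → FreeGroup X) (hs : ∀ r, π (s r) = r)

/-- the element `s(r) w s(r w)⁻¹` of the kernel -/
def el (w : FreeGroup X) (r : R) : π.ker :=
  ⟨s r * w * (s (r * π w))⁻¹, by rw [MonoidHom.mem_ker]; simp [hs]⟩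

/-- its class in the abelianised kernel -/
def FF (w : FreeGroup X) (r : R) : Additive (Abelianization π.ker) :=
  Additive.ofMul (Abelianization.of (el π s hs w r))

omit [Fintype X] [DecidableEq X] in
theorem FF_mul (u v : FreeGroup X) (r : R) :
    FF π s hs (u * v) r = FF π s hs u r + FF π s hs v (r * π u) := by
  unfold FF
  rw [← ofMul_mul, ← map_mul]
  congr 2
  apply Subtype.ext
  simp only [el, map_mul, Subgroup.coe_mul, mul_assoc, inv_mul_cancel_left]

/-- the linear expression -/
noncomputable def GG (D : FreeGroup X → X → MonoidAlgebra ℤ R) (w : FreeGroup X) (r : R) :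
    Additive (Abelianization π.ker) :=
  ∑ x, lam (fun g => FF π s hs (FreeGroup.of x) (r * g)) (D w x)

theorem GG_mul {D : FreeGroup X → X → MonoidAlgebra ℤ R} (hD : IsFox π D) (u v : FreeGroup X)
    (r : R) : GG π s hs D (u * v) r = GG π s hs D u r + GG π s hs D v (r * π u) := by
  unfold GG
  rw [← Finset.sum_add_distrib]
  refine Finset.sum_congr rfl fun x _ => ?_
  rw [hD.1, map_add, lam_of_mul]
  simp only [mul_assoc]

theorem FF_eq_GG {D : FreeGroup X → X → MonoidAlgebra ℤ R} (hD : IsFox π D) (w : FreeGroup X) :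
    ∀ r, FF π s hs w r = GG π s hs D w r := by
  have hF1 : ∀ r, FF π s hs 1 r = 0 := by
    intro r
    have h := FF_mul π s hs 1 1 r
    rw [mul_one, map_one, mul_one] at h
    simpa using h
  have hG1 : ∀ r, GG π s hs D 1 r = 0 := by
    intro r
    have h := GG_mul π s hs hD 1 1 r
    rw [mul_one, map_one, mul_one] at h
    simpa using h
  induction w using FreeGroup.induction_on with
  | C1 =>
    intro r
    rw [hF1, hG1]
  | of y =>
    intro r
    unfold GG
    rw [Finset.sum_eq_single y]
    · rw [hD.2, if_pos rfl, ← map_one (MonoidAlgebra.of ℤ R), lam_of, mul_one]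
    · intro x _ hxy
      rw [hD.2, if_neg (fun h => hxy h.symm), map_zero]
    · simp
  | inv_of y ih =>
    intro r
    have h1 := FF_mul π s hs (FreeGroup.of y)⁻¹ (FreeGroup.of y) r
    have h2 := GG_mul π s hs hD (FreeGroup.of y)⁻¹ (FreeGroup.of y) r
    rw [inv_mul_cancel, hF1] at h1
    rw [inv_mul_cancel, hG1, ← ih, h1] at h2
    exact add_right_cancel h2
  | mul a b ha hb =>
    intro r
    rw [FF_mul, GG_mul π s hs hD, ha, hb]

end Magnus

end FoxX

open FoxX

theorem foxex_proof : Stmt_FoxEx := by
  intro X R _ _ π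
  refine ⟨fun u => T π u 0, ?_, ?_⟩
  · intro u v x
    show T π (u * v) 0 x = _
    rw [map_mul, Equiv.Perm.mul_apply, T_affine π u (T π v 0)]
    rfl
  · intro x y
    have : T π (FreeGroup.of x) 0 = Pi.single x 1 := by
      have h : act (π (FreeGroup.of x)) (0 : X → MonoidAlgebra ℤ R) = 0 := by
        funext z
        simp [act]
      simp [T, gen, h]
    show T π (FreeGroup.of x) 0 y = _
    rw [this, Pi.single_apply]
    by_cases h : x = y
    · simp [h]
    · rw [if_neg h, if_neg (fun h' => h h'.symm)]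

theorem magnus_proof : Stmt_Magnus := by
  intro X R _ _ _ π D hD hπ l hl hDl
  classical
  -- a section with `s 1 = 1`
  obtain ⟨s, hs, hs1⟩ : ∃ s : R → FreeGroup X, (∀ r, π (s r) = r) ∧ s 1 = 1 := by
    choose s₀ hs₀ using hπ
    refine ⟨fun r => if r = 1 then 1 else s₀ r, fun r => ?_, by simp⟩
    by_cases h : r = 1
    · simp [h]
    · simp [h, hs₀]
  have h1 := FF_eq_GG π s hs hD l 1
  have h2 : GG π s hs D l 1 = 0 := by
    unfold GG
    simp [hDl]
  rw [h2] at h1
  have h3 : el π s hs l 1 = ⟨l, hl⟩ := by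
    apply Subtype.ext
    have hl' : π l = 1 := hl
    simp [el, hs1, hl']
  unfold FF at h1
  rw [h3] at h1
  have h4 : Abelianization.of (⟨l, hl⟩ : π.ker) = 1 := h1
  have h5 : (⟨l, hl⟩ : π.ker) ∈ commutator π.ker := by
    rw [← Abelianization.ker_of]
    exact h4
  rw [← Subgroup.map_subtype_commutator]
  exact ⟨⟨l, hl⟩, h5, rfl⟩

theorem cycle_proof : Stmt_Cycle := by
  intro X R _ _ _ π D hD hπ c hc
  classical
  choose s hs using hπ
  -- the additive subgroup of the derivatives of elements of the kernel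
  let Im : AddSubgroup (X → MonoidAlgebra ℤ R) :=
    { carrier := {v | ∃ l ∈ π.ker, D l = v}
      zero_mem' := ⟨1, one_mem _, funext fun x => fox_one hD x⟩
      add_mem' := by
        rintro _ _ ⟨l, hl, rfl⟩ ⟨m, hm, rfl⟩
        refine ⟨l * m, mul_mem hl hm, ?_⟩
        funext x
        have hl' : π l = 1 := hl
        rw [hD.1, hl', map_one, one_mul]
        rfl
      neg_mem' := by
        rintro _ ⟨l, hl, rfl⟩
        refine ⟨l⁻¹, inv_mem hl, ?_⟩
        funext x
        have hl' : π l = 1 := hl
        rw [fox_inv hD, hl', inv_one, map_one, one_mul]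
        rfl }
  let mu : MonoidAlgebra ℤ R →+ (X → MonoidAlgebra ℤ R) := lam fun g => D (s g)
  have key : ∀ (x : X) (a : MonoidAlgebra ℤ R),
      (Pi.single x a : X → MonoidAlgebra ℤ R) -
        (mu (a * MonoidAlgebra.of ℤ R (π (FreeGroup.of x))) - mu a) ∈ Im := by
    intro x a
    induction a using MonoidAlgebra.induction_on with
    | of g =>
      refine ⟨s g * FreeGroup.of x * (s (g * π (FreeGroup.of x)))⁻¹, ?_, ?_⟩
      · rw [MonoidHom.mem_ker]
        simp [hs]
      · rw [← map_mul]
        show _ = _ - (lam (fun g => D (s g)) _ - lam (fun g => D (s g)) _)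
        rw [lam_of, lam_of]
        funext y
        rw [hD.1, hD.1, fox_inv hD, map_mul, hs, hs, mul_neg, ← mul_assoc, ← map_mul,
          mul_inv_cancel, map_one, one_mul, hD.2]
        simp only [Pi.sub_apply, Pi.single_apply]
        by_cases h : x = y
        · subst h
          simp
          abel
        · have h' : ¬ y = x := fun h' => h h'.symm
          simp only [h, h', if_false, mul_zero]
          abel
    | add a b ha hb =>
      have h := Im.add_mem ha hb
      rw [add_mul, map_add, map_add, Pi.single_add]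
      refine (congrArg (· ∈ Im) ?_).mp h
      abel
    | smul n a ha =>
      have h := Im.zsmul_mem ha n
      rw [smul_mul_assoc, map_zsmul, map_zsmul, Pi.single_smul]
      rw [smul_sub, smul_sub] at h
      exact h
  have hsum : ∑ x, ((Pi.single x (c x) : X → MonoidAlgebra ℤ R) -
        (mu (c x * MonoidAlgebra.of ℤ R (π (FreeGroup.of x))) - mu (c x))) ∈ Im :=
    Im.sum_mem fun x _ => key x (c x)
  have h1 : ∑ x, (mu (c x * MonoidAlgebra.of ℤ R (π (FreeGroup.of x))) - mu (c x)) = 0 := by
    simp only [← map_sub]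
    rw [← map_sum]
    have : ∑ x, (c x * MonoidAlgebra.of ℤ R (π (FreeGroup.of x)) - c x) = 0 := by
      rw [← hc]
      refine Finset.sum_congr rfl fun x _ => ?_
      rw [mul_sub, mul_one]
    rw [this, map_zero]
  rw [Finset.sum_sub_distrib, h1, sub_zero, Finset.univ_sum_single] at hsum
  obtain ⟨l, hl, hl'⟩ := hsum
  exact ⟨l, hl, hl'⟩

end Pool.Agent.SD
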