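import Mathlib
import Pool.Agent.SD.Stmts

/-!
# Squad SD: module GROW
-/

set_option autoImplicit false

namespace Pool.Agent.SD

namespace GROWX

theorem two_pow_le_fib (k : ℕ) : 2 ^ k ≤ Nat.fib (2 * k + 1) := by
  induction k with
  | zero => simp
  | succ k ih =>
    have h1 : 2 * (k + 1) + 1 = (2 * k + 1) + 2 := by ring
    have h2 : Nat.fib (2 * k + 1) ≤ Nat.fib (2 * k + 1 + 1) := Nat.fib_mono (by omega)
    rw [h1, Nat.fib_add_two, pow_succ]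
    omega

theorem exists_pow (K : ℕ) : ∃ k : ℕ, 2 * (K * (2 * k + 1) ^ 3) + 2 ≤ 2 ^ k := by
  have h := tendsto_pow_const_div_const_pow_of_one_lt 4 (show (1 : ℝ) < 2 by norm_num)
  have h2 := (h.eventually (gt_mem_nhds (show (0 : ℝ) < 1 by norm_num))).and
    (Filter.eventually_ge_atTop (54 * K + 2))
  obtain ⟨k, hk, hk2⟩ := h2.exists
  refine ⟨k, ?_⟩
  have hk1 : 1 ≤ k := by omega
  have h4 : k ^ 4 ≤ 2 ^ k := by
    rw [div_lt_one (by positivity)] at hk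
    exact_mod_cast hk.le
  have h5 : (2 * k + 1) ^ 3 ≤ 27 * k ^ 3 := by
    calc (2 * k + 1) ^ 3 ≤ (3 * k) ^ 3 := Nat.pow_le_pow_left (by omega) 3
      _ = 27 * k ^ 3 := by ring
  have h6 : 1 ≤ k ^ 3 := Nat.one_le_pow _ _ hk1
  calc 2 * (K * (2 * k + 1) ^ 3) + 2 ≤ 2 * (K * (27 * k ^ 3)) + 2 * k ^ 3 := by
        have := Nat.mul_le_mul_left K h5
        omega
    _ = (54 * K + 2) * k ^ 3 := by ring
    _ ≤ k * k ^ 3 := Nat.mul_le_mul_right _ hk2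
    _ = k ^ 4 := by ring
    _ ≤ 2 ^ k := h4

end GROWX

open GROWX in
theorem grow_proof : Stmt_Grow := by
  intro c C
  obtain ⟨k, hk⟩ := exists_pow (C * c)
  refine ⟨2 * k, ?_⟩
  have h1 : C ≤ 2 ^ C := Nat.lt_two_pow_self.le
  have h2 : C ^ (c * (2 * k + 1) ^ 3) ≤ 2 ^ (C * c * (2 * k + 1) ^ 3) := by
    calc C ^ (c * (2 * k + 1) ^ 3) ≤ (2 ^ C) ^ (c * (2 * k + 1) ^ 3) := Nat.pow_le_pow_left h1 _
      _ = 2 ^ (C * c * (2 * k + 1) ^ 3) := by rw [← pow_mul, mul_assoc]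
  refine lt_of_le_of_lt h2 ?_
  set M := C * c * (2 * k + 1) ^ 3 with hM
  have h3 : 2 ^ k ≤ Nat.fib (2 * k + 2) :=
    (two_pow_le_fib k).trans (Nat.fib_mono (by omega))
  have h4 : 2 * M + 2 ≤ Nat.fib (2 * k + 2) := hk.trans h3
  calc 2 ^ M < 2 ^ (M + 1) := Nat.pow_lt_pow_right (by norm_num) (by omega)
    _ ≤ Nat.fib (2 * (M + 1) + 1) := two_pow_le_fib _
    _ ≤ Nat.fib (Nat.fib (2 * k + 2) + 1) := Nat.fib_mono (by omega)

end Pool.Agent.SD
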