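import Mathlib
import Pool.Agent.SD.Defs
import Pool.Agent.SD.Grp
import Pool.Agent.SD.Stmts

/-!
# Squad SD, module HFP: the fibre product is finitely presented
-/

set_option autoImplicit false

namespace Pool.Agent.SD

namespace HFPaux

variable {X I J : Type}

deriving instance Fintype for SL

/-- The relators of the intermediate group. -/
def Rel0 (P : SqPres X I J) : Set (FreeGroup (HL X J ⊕ VL X J)) :=
  {w | ∃ s : SL X I J, s.IsTriv ∧ w = P.gad.word s} ∪
  {w | ∃ (k : I ⊕ J) (y : HL X J ⊕ VL X J), IsCore y ∧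
    w = P.gad.word (SL.ofRel k) * FreeGroup.of y * (P.gad.word (SL.ofRel k))⁻¹ *
      (FreeGroup.of y)⁻¹}

/-- core letters as values -/
def coreL : Option X ⊕ Option (X ⊕ J) → HL X J ⊕ VL X J
  | Sum.inl none => Sum.inl .a0
  | Sum.inl (some x) => Sum.inl (.a x)
  | Sum.inr none => Sum.inr .v0
  | Sum.inr (some k) => Sum.inr (.v k)

theorem isCore_iff (y : HL X J ⊕ VL X J) : IsCore y ↔ ∃ c, coreL (X := X) (J := J) c = y := by
  constructor
  · intro h
    rcases y with (_ | x | _ | _) | (_ | k | _ | _)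
    · exact ⟨Sum.inl none, rfl⟩
    · exact ⟨Sum.inl (some x), rfl⟩
    · exact h.elim
    · exact h.elim
    · exact ⟨Sum.inr none, rfl⟩
    · exact ⟨Sum.inr (some k), rfl⟩
    · exact h.elim
    · exact h.elim
  · rintro ⟨(_ | _) | (_ | _), rfl⟩ <;> trivial

theorem rel0_finite [Fintype X] [Fintype I] [Fintype J] (P : SqPres X I J) :
    (Rel0 P).Finite := by
  refine Set.Finite.union ?_ ?_
  · refine (Set.finite_range P.gad.word).subset ?_
    rintro w ⟨s, -, rfl⟩
    exact ⟨s, rfl⟩
  · refine (Set.finite_range (fun p : (I ⊕ J) × (Option X ⊕ Option (X ⊕ J)) =>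
      P.gad.word (SL.ofRel p.1) * FreeGroup.of (coreL p.2) * (P.gad.word (SL.ofRel p.1))⁻¹ *
      (FreeGroup.of (coreL p.2))⁻¹)).subset ?_
    rintro w ⟨k, y, hy, rfl⟩
    obtain ⟨c, rfl⟩ := (isCore_iff y).1 hy
    exact ⟨(k, c), rfl⟩

theorem lab_core {y : HL X J ⊕ VL X J} (hy : IsCore y) :
    lab (X := X) (J := J) (FreeGroup.of y) = 1 := by
  obtain ⟨c, rfl⟩ := (isCore_iff y).1 hy
  rcases c with (_ | _) | (_ | _) <;> simp [coreL, lab, labL]

theorem lab_triv (P : SqPres X I J) {s : SL X I J} (hs : s.IsTriv) :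
    lab (P.gad.word s) = 1 := by
  cases s <;>
    first
    | exact hs.elim
    | simp [VHData.word, SqPres.gad, SqPres.gh, SqPres.gv, SqPres.gv', SqPres.gh', gH, gV, lab,
        labL]

theorem lab_rel (P : SqPres X I J) (k : I ⊕ J) :
    lab (P.gad.word (SL.ofRel k)) = P.rel k := by
  cases k <;>
    simp [VHData.word, SqPres.gad, SqPres.gh, SqPres.gv, SqPres.gv', SqPres.gh', gH, gV, lab,
        labL, SL.ofRel, SqPres.rel]

theorem lab_sec (w : FreeGroup X) : lab (J := J) (sec (J := J) w) = w := by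
  have : (lab (X := X) (J := J)).comp (sec (X := X) (J := J)) = MonoidHom.id _ := by
    ext x
    simp [lab, sec, labL]
  exact DFunLike.congr_fun this w

/-- every square is trivial or a relator square -/
theorem triv_or_rel (s : SL X I J) : s.IsTriv ∨ ∃ k, SL.ofRel k = s := by
  cases s <;> first
    | exact Or.inl trivial
    | exact Or.inr ⟨Sum.inl _, rfl⟩
    | exact Or.inr ⟨Sum.inr _, rfl⟩

end HFPaux

open HFPaux

theorem HFP_proof (hNorm : Stmt_Norm) (hCent : Stmt_Cent) : Stmt_HFP := by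
  intro X I J _ _ _ _ P R _ π hπ hker hK
  set Y := HL X J ⊕ VL X J with hY
  let N0 : Subgroup (FreeGroup Y) := Subgroup.normalClosure (Rel0 P)
  let θ : FreeGroup Y →* FreeGroup Y ⧸ N0 := QuotientGroup.mk' N0
  have hθ : Function.Surjective θ := QuotientGroup.mk'_surjective N0
  have hθker : θ.ker = N0 := QuotientGroup.ker_mk' N0
  have htriv : ∀ s : SL X I J, s.IsTriv → θ (P.gad.word s) = 1 := by
    intro s hs
    rw [← MonoidHom.mem_ker, hθker]
    exact Subgroup.subset_normalClosure (Or.inl ⟨s, hs, rfl⟩)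
  have hcomm : ∀ (k : I ⊕ J) (y : Y), IsCore y →
      Commute (θ (P.gad.word (SL.ofRel k))) (θ (FreeGroup.of y)) := by
    intro k y hy
    have h1 : θ (P.gad.word (SL.ofRel k) * FreeGroup.of y * (P.gad.word (SL.ofRel k))⁻¹ *
      (FreeGroup.of y)⁻¹) = 1 := by
      rw [← MonoidHom.mem_ker, hθker]
      exact Subgroup.subset_normalClosure (Or.inr ⟨k, y, hy, rfl⟩)
    rw [map_mul, map_mul, map_mul, map_inv, map_inv] at h1
    have h2 := mul_inv_eq_one.1 h1
    exact mul_inv_eq_iff_eq_mul.1 h2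
  have hlab : N0 ≤ (lab (X := X) (J := J)).ker := by
    refine Subgroup.normalClosure_le_normal ?_
    rintro w (⟨s, hs, rfl⟩ | ⟨k, y, hy, rfl⟩)
    · exact lab_triv P hs
    · show lab _ = 1
      rw [map_mul, map_mul, map_mul, map_inv, map_inv, lab_core hy]
      simp
  let q : FreeGroup Y ⧸ N0 →* FreeGroup X := QuotientGroup.lift N0 lab hlab
  have hq : ∀ g, q (θ g) = lab g := fun g => QuotientGroup.lift_mk' N0 hlab g
  have hqs : Function.Surjective q := by
    intro w
    exact ⟨θ (sec w), by rw [hq, lab_sec]⟩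
  obtain ⟨-, hN2⟩ := hNorm X I J P _ θ htriv
  have hkerq : ∀ n, q n = 1 →
      n ∈ Subgroup.closure ((fun y => θ (FreeGroup.of y)) '' {y | IsCore y}) := by
    intro n hn
    obtain ⟨g, rfl⟩ := hθ n
    obtain ⟨m, hm, hg⟩ := hN2 g
    rw [hq] at hn
    rw [hn, map_one, map_one, mul_one] at hg
    rw [hg]
    exact hm
  have hcomm2 : ∀ (k : I ⊕ J) n, q n = 1 → Commute (θ (P.gad.word (SL.ofRel k))) n := by
    intro k n hn
    have h1 := hkerq n hn
    have h2 : Subgroup.closure ((fun y => θ (FreeGroup.of y)) '' {y | IsCore y}) ≤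
        Subgroup.centralizer {θ (P.gad.word (SL.ofRel k))} := by
      rw [Subgroup.closure_le]
      rintro _ ⟨y, hy, rfl⟩
      rw [SetLike.mem_coe, Subgroup.mem_centralizer_singleton_iff]
      exact (hcomm k y hy).symm
    have h3 := h2 h1
    rw [Subgroup.mem_centralizer_singleton_iff] at h3
    exact h3.symm
  have hfun : (fun k : I ⊕ J => q (θ (P.gad.word (SL.ofRel k)))) = P.rel := by
    funext k
    rw [hq, lab_rel]
  obtain ⟨T, hT⟩ := hCent (FreeGroup Y ⧸ N0) X (I ⊕ J) q (fun k => θ (P.gad.word (SL.ofRel k)))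
    R π hqs (fun k n hn => hcomm2 k n hn) hπ (by rw [hfun]; exact hker)
    (by rw [hfun]; exact hK)
  -- the kernel of Theta
  have hN0 : N0 ≤ Subgroup.normalClosure (Set.range P.gad.word) := by
    refine Subgroup.normalClosure_le_normal ?_
    rintro w (⟨s, hs, rfl⟩ | ⟨k, y, hy, rfl⟩)
    · exact Subgroup.subset_normalClosure ⟨s, rfl⟩
    · have h1 : P.gad.word (SL.ofRel k) ∈ Subgroup.normalClosure (Set.range P.gad.word) :=
        Subgroup.subset_normalClosure ⟨_, rfl⟩
      have h2 := Subgroup.normalClosure_normal.conj_mem _ (inv_mem h1) (FreeGroup.of y)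
      have h3 := mul_mem h1 h2
      rw [SetLike.mem_coe]
      convert h3 using 1
      group
  have hmap : (Subgroup.normalClosure (Set.range P.gad.word)).map θ =
      Subgroup.normalClosure (Set.range fun k => θ (P.gad.word (SL.ofRel k))) := by
    rw [Subgroup.map_normalClosure _ θ hθ]
    apply le_antisymm
    · refine Subgroup.normalClosure_le_normal ?_
      rintro _ ⟨_, ⟨s, rfl⟩, rfl⟩
      rcases triv_or_rel s with h | ⟨k, rfl⟩
      · rw [htriv s h]; exact one_mem _
      · exact Subgroup.subset_normalClosure ⟨k, rfl⟩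
    · refine Subgroup.normalClosure_mono ?_
      rintro _ ⟨k, rfl⟩
      exact ⟨_, ⟨_, rfl⟩, rfl⟩
  have hTheta : P.Theta.ker = (Subgroup.normalClosure (T : Set (FreeGroup Y ⧸ N0))).comap θ := by
    ext g
    rw [hT, Subgroup.mem_comap, Subgroup.mem_inf, MonoidHom.mem_ker, MonoidHom.mem_ker, hq,
      ← hmap]
    have h1 : P.Theta g = (PresentedGroup.mk (Set.range P.gad.word) g, lab g) := rfl
    rw [h1, Prod.mk_eq_one]
    refine and_congr ?_ Iff.rfl
    have h2 : PresentedGroup.mk (Set.range P.gad.word) g = 1 ↔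
        g ∈ Subgroup.normalClosure (Set.range P.gad.word) := QuotientGroup.eq_one_iff g
    rw [h2]
    constructor
    · intro h
      exact ⟨g, h, rfl⟩
    · rintro ⟨g', hg', he⟩
      have h3 : g'⁻¹ * g ∈ θ.ker := by
        rw [MonoidHom.mem_ker, map_mul, map_inv, he, inv_mul_cancel]
      rw [hθker] at h3
      have h4 := mul_mem hg' (hN0 h3)
      rwa [mul_inv_cancel_left] at h4
  classical
  choose lift hlift using id hθ
  refine ⟨T.image lift ∪ (rel0_finite P).toFinset, ?_⟩
  rw [hTheta]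
  have hset : ((T.image lift ∪ (rel0_finite P).toFinset : Finset (FreeGroup Y)) :
      Set (FreeGroup Y)) = lift '' (T : Set (FreeGroup Y ⧸ N0)) ∪ Rel0 P := by
    simp
  rw [hset]
  have hmap2 : (Subgroup.normalClosure
      (lift '' (T : Set (FreeGroup Y ⧸ N0)) ∪ Rel0 P)).map θ =
      Subgroup.normalClosure (T : Set (FreeGroup Y ⧸ N0)) := by
    rw [Subgroup.map_normalClosure _ θ hθ]
    apply le_antisymm
    · refine Subgroup.normalClosure_le_normal ?_
      rintro _ ⟨w, (⟨t, ht, rfl⟩ | hw), rfl⟩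
      · rw [hlift]; exact Subgroup.subset_normalClosure ht
      · have : θ w = 1 := by
          rw [← MonoidHom.mem_ker, hθker]
          exact Subgroup.subset_normalClosure hw
        rw [this]; exact one_mem _
    · refine Subgroup.normalClosure_mono ?_
      intro t ht
      exact ⟨lift t, Or.inl ⟨t, ht, rfl⟩, hlift t⟩
  rw [← hmap2, Subgroup.comap_map_eq, hθker]
  exact sup_eq_left.2 (Subgroup.normalClosure_mono Set.subset_union_right)

end Pool.Agent.SD
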