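import Mathlib
import Pool.Agent.SD.Stmts

set_option autoImplicit false

/-!
Squad SD, module HNN: the exact sequence of permutation modules of an HNN extension.
-/

namespace Pool.Agent.SD

namespace HNNX

open MonoidAlgebra

section PMlem
variable {R : Type} [Group R] {B : Subgroup R}

/-- basis element of a permutation module -/
noncomputable def e (B : Subgroup R) (x : R ⧸ B) : PM B :=
  (Representation.ofMulAction ℤ R (R ⧸ B)).asModuleEquiv.symm (MonoidAlgebra.single x 1)

/-- coordinates -/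
noncomputable def co (B : Subgroup R) : PM B ≃ₗ[ℤ] (R ⧸ B →₀ ℤ) :=
  (Representation.ofMulAction ℤ R (R ⧸ B)).asModuleEquiv.trans (coeffLinearEquiv ℤ)

theorem co_e (x : R ⧸ B) : co B (e B x) = Finsupp.single x 1 := by
  change (coeffLinearEquiv ℤ) ((Representation.ofMulAction ℤ R (R ⧸ B)).asModuleEquiv
    ((Representation.ofMulAction ℤ R (R ⧸ B)).asModuleEquiv.symm (MonoidAlgebra.single x 1))) = _
  rw [LinearEquiv.apply_symm_apply]
  rfl

theorem act_e (g : R) (x : R ⧸ B) :
    (MonoidAlgebra.single g (1 : ℤ) : MonoidAlgebra ℤ R) • e B x = e B (g • x) := by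
  have := Representation.asModuleEquiv_symm_map_rho
    (ρ := Representation.ofMulAction ℤ R (R ⧸ B)) g (MonoidAlgebra.single x 1)
  rw [Representation.ofMulAction_single] at this
  exact this.symm

/-- ℤ-linear map given on the basis -/
noncomputable def lin {W : Type} [AddCommGroup W] (f : R ⧸ B → W) : PM B →ₗ[ℤ] W :=
  (Finsupp.linearCombination ℤ f) ∘ₗ (co B).toLinearMap

theorem lin_e {W : Type} [AddCommGroup W] (f : R ⧸ B → W) (x : R ⧸ B) :
    lin f (e B x) = f x := by
  simp [lin, co_e]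

theorem hom_ext {W : Type} [AddCommGroup W] (f g : PM B →ₗ[ℤ] W)
    (h : ∀ x, f (e B x) = g (e B x)) : f = g := by
  have h1 : f ∘ₗ (co B).symm.toLinearMap = g ∘ₗ (co B).symm.toLinearMap := by
    apply Finsupp.lhom_ext'
    intro x
    apply LinearMap.ext_ring
    have e1 : (co B).symm (Finsupp.single x 1) = e B x := by
      rw [LinearEquiv.symm_apply_eq, co_e]
    simp only [LinearMap.comp_apply, Finsupp.lsingle_apply, LinearEquiv.coe_coe, e1]
    exact h x
  have h2 := congrArg (fun u => u ∘ₗ (co B).toLinearMap) h1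
  ext v
  have h3 := LinearMap.congr_fun h2 v
  simpa using h3

/-- equivariant linear map given on the basis -/
noncomputable def eqv {W : Type} [AddCommGroup W] [Module (MonoidAlgebra ℤ R) W]
    (f : R ⧸ B → W)
    (hf : ∀ (g : R) x, f (g • x) = (MonoidAlgebra.single g (1 : ℤ) : MonoidAlgebra ℤ R) • f x) :
    PM B →ₗ[MonoidAlgebra ℤ R] W :=
  MonoidAlgebra.equivariantOfLinearOfComm (lin f) (by
    intro g v
    have h : (lin f) ∘ₗ (GroupSMul.linearMap ℤ (PM B) g) =
        (GroupSMul.linearMap ℤ W g) ∘ₗ (lin f) := by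
      apply hom_ext
      intro x
      simp only [LinearMap.comp_apply, GroupSMul.linearMap_apply]
      rw [act_e, lin_e, lin_e, hf]
    exact LinearMap.congr_fun h v)

theorem eqv_apply {W : Type} [AddCommGroup W] [Module (MonoidAlgebra ℤ R) W]
    (f : R ⧸ B → W)
    (hf : ∀ (g : R) x, f (g • x) = (MonoidAlgebra.single g (1 : ℤ) : MonoidAlgebra ℤ R) • f x)
    (v : PM B) : eqv f hf v = lin f v := rfl

theorem eqv_e {W : Type} [AddCommGroup W] [Module (MonoidAlgebra ℤ R) W]
    (f : R ⧸ B → W)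
    (hf : ∀ (g : R) x, f (g • x) = (MonoidAlgebra.single g (1 : ℤ) : MonoidAlgebra ℤ R) • f x)
    (x : R ⧸ B) : eqv f hf (e B x) = f x := by rw [eqv_apply, lin_e]

end PMlem

section Seq
variable {R : Type} [Group R] {B V E : Subgroup R} {t : R}

/-- values of the first map -/
noncomputable def fa (hEV : E ≤ V) (ht : ∀ x ∈ E, t⁻¹ * x * t ∈ V) (x : R ⧸ E) : PM V :=
  Quotient.liftOn' x (fun g => e V ((g * t : R) : R ⧸ V) - e V (g : R ⧸ V)) (by
    intro a b hab
    rw [QuotientGroup.leftRel_apply] at hab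
    have h1 : ((a * t : R) : R ⧸ V) = ((b * t : R) : R ⧸ V) := by
      rw [QuotientGroup.eq]
      have := ht _ hab
      have e : (a * t)⁻¹ * (b * t) = t⁻¹ * (a⁻¹ * b) * t := by group
      rw [e]; exact this
    have h2 : (a : R ⧸ V) = (b : R ⧸ V) := by
      rw [QuotientGroup.eq]; exact hEV hab
    simp only [h1, h2])

theorem fa_mk (hEV : E ≤ V) (ht : ∀ x ∈ E, t⁻¹ * x * t ∈ V) (g : R) :
    fa hEV ht (g : R ⧸ E) = e V ((g * t : R) : R ⧸ V) - e V (g : R ⧸ V) := rfl

theorem fa_act (hEV : E ≤ V) (ht : ∀ x ∈ E, t⁻¹ * x * t ∈ V) (g : R) (x : R ⧸ E) :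
    fa hEV ht (g • x) = (MonoidAlgebra.single g (1 : ℤ) : MonoidAlgebra ℤ R) • fa hEV ht x := by
  induction x using QuotientGroup.induction_on with
  | H a =>
    rw [fa_mk, smul_sub, act_e, act_e]
    have h1 : g • ((a : R) : R ⧸ E) = ((g * a : R) : R ⧸ E) := rfl
    have h2 : g • ((a : R) : R ⧸ V) = ((g * a : R) : R ⧸ V) := rfl
    have h3 : g • ((a * t : R) : R ⧸ V) = ((g * (a * t) : R) : R ⧸ V) := rfl
    rw [h1, h2, h3, fa_mk, mul_assoc]

/-- values of the second map -/
noncomputable def fb (hVB : V ≤ B) (x : R ⧸ V) : PM B :=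
  e B (Subgroup.quotientMapOfLE hVB x)

theorem fb_act (hVB : V ≤ B) (g : R) (x : R ⧸ V) :
    fb hVB (g • x) = (MonoidAlgebra.single g (1 : ℤ) : MonoidAlgebra ℤ R) • fb hVB x := by
  induction x using QuotientGroup.induction_on with
  | H a => unfold fb; rw [act_e]; rfl

theorem fb_mk (hVB : V ≤ B) (g : R) : fb hVB (g : R ⧸ V) = e B (g : R ⧸ B) := rfl

/-- the differences generate -/
theorem diff_mem (hEV : E ≤ V) (hVB : V ≤ B) (hB : B ≤ Subgroup.closure ((V : Set R) ∪ {t}))
    (ht : ∀ x ∈ E, t⁻¹ * x * t ∈ V) (b : R) (hb : b ∈ B) (g : R) :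
    e V ((g * b : R) : R ⧸ V) - e V (g : R ⧸ V) ∈ LinearMap.range (lin (fa hEV ht)) := by
  have hb' := hB hb
  clear hb
  induction hb' using Subgroup.closure_induction generalizing g with
  | mem x hx =>
    rcases hx with hx | hx
    · have : ((g * x : R) : R ⧸ V) = (g : R ⧸ V) := by
        rw [QuotientGroup.eq]
        have e : (g * x)⁻¹ * g = x⁻¹ := by group
        rw [e]; exact V.inv_mem hx
      rw [this, sub_self]; exact Submodule.zero_mem _
    · rw [Set.mem_singleton_iff] at hx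
      subst hx
      refine ⟨e E (g : R ⧸ E), ?_⟩
      rw [lin_e, fa_mk]
  | one => rw [mul_one, sub_self]; exact Submodule.zero_mem _
  | mul x y _ _ hx hy =>
    have h1 := hy (g * x)
    have h2 := hx g
    have h3 := Submodule.add_mem _ h1 h2
    rw [sub_add_sub_cancel, mul_assoc] at h3
    exact h3
  | inv x _ hx =>
    have h1 := hx (g * x⁻¹)
    rw [inv_mul_cancel_right] at h1
    have := Submodule.neg_mem _ h1
    rwa [neg_sub] at this

/-- section of the second map -/
noncomputable def sec (V B : Subgroup R) : PM B →ₗ[ℤ] PM V := lin (fun x => e V (x.out : R ⧸ V))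

theorem fb_sec (hVB : V ≤ B) (y : PM B) : lin (fb hVB) (sec V B y) = y := by
  have : (lin (fb hVB)) ∘ₗ (sec V B) = LinearMap.id := by
    apply hom_ext
    intro x
    rw [LinearMap.comp_apply, sec, lin_e, lin_e, LinearMap.id_apply, fb_mk, QuotientGroup.out_eq']
  exact LinearMap.congr_fun this y

theorem sub_sec_mem (hEV : E ≤ V) (hVB : V ≤ B) (hB : B ≤ Subgroup.closure ((V : Set R) ∪ {t}))
    (ht : ∀ x ∈ E, t⁻¹ * x * t ∈ V) (y : PM V) :
    y - sec V B (lin (fb hVB) y) ∈ LinearMap.range (lin (fa hEV ht)) := by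
  have h : (LinearMap.range (lin (fa hEV ht))).mkQ ∘ₗ
      (LinearMap.id - (sec V B) ∘ₗ (lin (fb hVB))) = 0 := by
    apply hom_ext
    intro x
    induction x using QuotientGroup.induction_on with
    | H g =>
      simp only [LinearMap.comp_apply, LinearMap.sub_apply, LinearMap.id_apply,
        LinearMap.zero_apply, Submodule.mkQ_apply, Submodule.Quotient.mk_eq_zero]
      rw [lin_e, fb_mk, sec, lin_e]
      obtain ⟨b, hb⟩ := QuotientGroup.mk_out_eq_mul B g
      rw [hb]
      have := Submodule.neg_mem _ (diff_mem hEV hVB hB ht b b.2 g)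
      rwa [neg_sub] at this
  have h2 := LinearMap.congr_fun h y
  simp only [LinearMap.comp_apply, LinearMap.sub_apply, LinearMap.id_apply,
    LinearMap.zero_apply, Submodule.mkQ_apply, Submodule.Quotient.mk_eq_zero] at h2
  exact h2

theorem fb_fa (hEV : E ≤ V) (hVB : V ≤ B) (htB : t ∈ B)
    (ht : ∀ x ∈ E, t⁻¹ * x * t ∈ V) (y : PM E) : lin (fb hVB) (lin (fa hEV ht) y) = 0 := by
  have : (lin (fb hVB)) ∘ₗ (lin (fa hEV ht)) = 0 := by
    apply hom_ext
    intro x
    induction x using QuotientGroup.induction_on with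
    | H g =>
      rw [LinearMap.comp_apply, lin_e, fa_mk, map_sub, lin_e, lin_e, fb_mk, fb_mk]
      have : ((g * t : R) : R ⧸ B) = (g : R ⧸ B) := by
        rw [QuotientGroup.eq]
        have e : (g * t)⁻¹ * g = t⁻¹ := by group
        rw [e]; exact B.inv_mem htB
      rw [this, sub_self, LinearMap.zero_apply]
  exact LinearMap.congr_fun this y

/-- the B-part of g -/
noncomputable def bp (B : Subgroup R) (g : R) : B :=
  ⟨((g : R ⧸ B).out)⁻¹ * g, by
    rw [← QuotientGroup.eq, QuotientGroup.out_eq']⟩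

theorem bp_mul (g b : R) (hb : b ∈ B) : bp B (g * b) = bp B g * ⟨b, hb⟩ := by
  have h : ((g * b : R) : R ⧸ B) = (g : R ⧸ B) := by
    rw [QuotientGroup.eq]
    have e : (g * b)⁻¹ * g = b⁻¹ := by group
    rw [e]; exact B.inv_mem hb
  apply Subtype.ext
  show ((((g * b : R) : R ⧸ B)).out)⁻¹ * (g * b) = ((g : R ⧸ B).out)⁻¹ * g * b
  rw [h, mul_assoc]

theorem out_mul (g b : R) (hb : b ∈ B) :
    (((g * b : R) : R ⧸ B)).out = ((g : R ⧸ B)).out := by
  have h : ((g * b : R) : R ⧸ B) = (g : R ⧸ B) := by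
    rw [QuotientGroup.eq]
    have e : (g * b)⁻¹ * g = b⁻¹ := by group
    rw [e]; exact B.inv_mem hb
  rw [h]

/-- values of the left inverse -/
noncomputable def fl (hVB : V ≤ B) (s : B → (R ⧸ E →₀ ℤ))
    (hs : ∀ g v : B, (v : R) ∈ V → s (g * v) = s g) (x : R ⧸ V) : PM E :=
  Quotient.liftOn' x (fun g => (MonoidAlgebra.single ((g : R ⧸ B).out) (1 : ℤ) :
    MonoidAlgebra ℤ R) • (co E).symm (s (bp B g))) (by
    intro a b hab
    rw [QuotientGroup.leftRel_apply] at hab
    have e1 : b = a * (a⁻¹ * b) := by group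
    have h1 := bp_mul (B := B) a (a⁻¹ * b) (hVB hab)
    have h2 := out_mul (B := B) a (a⁻¹ * b) (hVB hab)
    rw [← e1] at h1 h2
    simp only [h1, h2]
    rw [hs _ _ hab])

theorem fl_mk (hVB : V ≤ B) (s : B → (R ⧸ E →₀ ℤ))
    (hs : ∀ g v : B, (v : R) ∈ V → s (g * v) = s g) (g : R) :
    fl hVB s hs (g : R ⧸ V) = (MonoidAlgebra.single ((g : R ⧸ B).out) (1 : ℤ) :
    MonoidAlgebra ℤ R) • (co E).symm (s (bp B g)) := rfl

theorem fl_fa (hEV : E ≤ V) (hVB : V ≤ B) (htB : t ∈ B)
    (ht : ∀ x ∈ E, t⁻¹ * x * t ∈ V) (s : B → (R ⧸ E →₀ ℤ))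
    (hs : ∀ g v : B, (v : R) ∈ V → s (g * v) = s g)
    (hs' : ∀ g t' : B, (t' : R) = t → s (g * t') = s g + Finsupp.single ((g : R) : R ⧸ E) 1)
    (y : PM E) : lin (fl hVB s hs) (lin (fa hEV ht) y) = y := by
  have : (lin (fl hVB s hs)) ∘ₗ (lin (fa hEV ht)) = LinearMap.id := by
    apply hom_ext
    intro x
    induction x using QuotientGroup.induction_on with
    | H g =>
      rw [LinearMap.comp_apply, lin_e, fa_mk, map_sub, lin_e, lin_e, fl_mk, fl_mk,
        bp_mul g t htB, out_mul g t htB, hs' _ _ rfl, ← smul_sub, ← map_sub, add_sub_cancel_left]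
      have e1 : (co E).symm (Finsupp.single (((bp B g : B) : R) : R ⧸ E) 1) =
          e E (((bp B g : B) : R) : R ⧸ E) := by
        rw [LinearEquiv.symm_apply_eq, co_e]
      rw [e1, act_e, LinearMap.id_apply]
      have e2 : (g : R ⧸ B).out • ((((bp B g : B) : R)) : R ⧸ E) =
          (((g : R ⧸ B).out * ((bp B g : B) : R) : R) : R ⧸ E) := rfl
      rw [e2]
      have e3 : (g : R ⧸ B).out * ((bp B g : B) : R) = g := by
        show (g : R ⧸ B).out * (((g : R ⧸ B).out)⁻¹ * g) = g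
        group
      rw [e3]
  exact LinearMap.congr_fun this y

end Seq

end HNNX

open HNNX in
theorem hnn_proof (hQ : Stmt_FPquot) : Stmt_HNN := by
  intro R _ B V E t hEV hVB htB hB ht ⟨s, hs, hs'⟩ n hV hE
  refine hQ (MonoidAlgebra ℤ R) n (PM E) (PM V) (PM B) (eqv (fa hEV ht) (fa_act hEV ht))
    (eqv (fb hVB) (fb_act hVB)) ?_ ?_ ?_ hE hV
  · intro x y hxy
    rw [eqv_apply, eqv_apply] at hxy
    have := congrArg (lin (fl hVB s hs)) hxy
    rwa [fl_fa hEV hVB htB ht s hs hs', fl_fa hEV hVB htB ht s hs hs'] at this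
  · intro y
    exact ⟨HNNX.sec V B y, by rw [eqv_apply, fb_sec]⟩
  · ext y
    constructor
    · rintro ⟨x, rfl⟩
      rw [LinearMap.mem_ker, eqv_apply, eqv_apply, fb_fa hEV hVB htB ht]
    · intro hy
      rw [LinearMap.mem_ker, eqv_apply] at hy
      have := sub_sec_mem hEV hVB hB ht y
      rw [hy, map_zero, sub_zero] at this
      obtain ⟨x, hx⟩ := this
      exact ⟨x, by rw [eqv_apply, hx]⟩

end Pool.Agent.SD
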