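import Pool.Agent.SD.Stmts

set_option autoImplicit false

namespace Pool.Agent.SD

namespace KFGX

open MonoidAlgebra

theorem fox_one {X R : Type} [Group R] [DecidableEq X] {π : FreeGroup X →* R}
    {D : FreeGroup X → X → MonoidAlgebra ℤ R}
    (hD : IsFox π D) (x : X) : D 1 x = 0 := by
  have := hD.1 1 1 x
  rw [mul_one, map_one, map_one, one_mul] at this
  simpa using this

theorem fox_inv {X R : Type} [Group R] [DecidableEq X] {π : FreeGroup X →* R}
    {D : FreeGroup X → X → MonoidAlgebra ℤ R}
    (hD : IsFox π D) (u : FreeGroup X) (x : X) :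
    D u x + of ℤ R (π u) * D u⁻¹ x = 0 := by
  have := hD.1 u u⁻¹ x
  rw [mul_inv_cancel, fox_one hD] at this
  exact this.symm

variable {X R K : Type} [Group R] [Fintype X] [DecidableEq X] [Fintype K]

omit [Fintype K] in
/-- fundamental formula -/
theorem fund {π : FreeGroup X →* R} {D : FreeGroup X → X → MonoidAlgebra ℤ R}
    (hD : IsFox π D) (w : FreeGroup X) :
    ∑ x, D w x * (of ℤ R (π (FreeGroup.of x)) - 1) = of ℤ R (π w) - 1 := by
  have hmul : ∀ u v, ∑ x, D (u * v) x * (of ℤ R (π (FreeGroup.of x)) - 1) =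
      ∑ x, D u x * (of ℤ R (π (FreeGroup.of x)) - 1) +
        of ℤ R (π u) * ∑ x, D v x * (of ℤ R (π (FreeGroup.of x)) - 1) := by
    intro u v
    rw [Finset.mul_sum, ← Finset.sum_add_distrib]
    refine Finset.sum_congr rfl fun x _ => ?_
    rw [hD.1, add_mul, mul_assoc]
  have hone : ∑ x, D 1 x * (of ℤ R (π (FreeGroup.of x)) - 1) = 0 := by
    apply Finset.sum_eq_zero
    intro x _
    rw [fox_one hD, zero_mul]
  have hof : ∀ y, ∑ x, D (FreeGroup.of y) x * (of ℤ R (π (FreeGroup.of x)) - 1) =
      of ℤ R (π (FreeGroup.of y)) - 1 := by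
    intro y
    rw [Finset.sum_eq_single y]
    · rw [hD.2, if_pos rfl, one_mul]
    · intro x _ hx
      rw [hD.2, if_neg (Ne.symm hx), zero_mul]
    · intro h
      exact absurd (Finset.mem_univ y) h
  induction w using FreeGroup.induction_on with
  | C1 => rw [hone, map_one, map_one, sub_self]
  | of y => exact hof y
  | inv_of y _ =>
    have h1 := hmul (FreeGroup.of y) (FreeGroup.of y)⁻¹
    rw [mul_inv_cancel, hone, hof] at h1
    have h2 : of ℤ R (π (FreeGroup.of y)⁻¹) * of ℤ R (π (FreeGroup.of y)) = 1 := by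
      rw [← map_mul, ← map_mul, inv_mul_cancel, map_one, map_one]
    generalize (∑ x, D (FreeGroup.of y)⁻¹ x * (of ℤ R (π (FreeGroup.of x)) - 1)) = s at h1 ⊢
    have h3 := congrArg (fun t => of ℤ R (π (FreeGroup.of y)⁻¹) * t) h1
    simp only [mul_zero, mul_add, mul_sub, mul_one, ← mul_assoc, h2, one_mul] at h3
    have h4 := eq_neg_of_add_eq_zero_right h3.symm
    rw [h4]
    abel
  | mul u v hu hv =>
    rw [hmul, hu, hv, map_mul, map_mul]
    rw [mul_sub, mul_one]
    abel

/-- the base point -/
noncomputable def q0 (R : Type) [Group R] : PM (⊤ : Subgroup R) :=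
  (Representation.ofMulAction ℤ R (R ⧸ (⊤ : Subgroup R))).asModuleEquiv.symm
    (MonoidAlgebra.single ((1 : R) : R ⧸ (⊤ : Subgroup R)) (1 : ℤ))

theorem all_eq {R : Type} [Group R] (a b : R ⧸ (⊤ : Subgroup R)) : a = b := by
  induction a using QuotientGroup.induction_on with | H a => ?_
  induction b using QuotientGroup.induction_on with | H b => ?_
  rw [QuotientGroup.eq]
  trivial

theorem of_smul_q0 {R : Type} [Group R] (g : R) : (of ℤ R g) • (q0 R) = q0 R := by
  rw [q0, ← Representation.asModuleEquiv_symm_map_rho, Representation.ofMulAction_single]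
  rw [all_eq (g • ((1 : R) : R ⧸ (⊤ : Subgroup R))) ((1 : R) : R ⧸ (⊤ : Subgroup R))]

theorem zsmul_q0 {R : Type} [Group R] {m : ℤ} (h : m • q0 R = 0) : m = 0 := by
  have h2 : (m • (MonoidAlgebra.single ((1 : R) : R ⧸ (⊤ : Subgroup R)) (1 : ℤ))) = 0 := h
  rw [MonoidAlgebra.smul_single] at h2
  simpa using h2

theorem q0_span {R : Type} [Group R] (p : PM (⊤ : Subgroup R)) : ∃ m : ℤ, p = m • q0 R := by
  have h1 : ∀ f : MonoidAlgebra ℤ (R ⧸ (⊤ : Subgroup R)),
      ∃ m : ℤ, f = m • (MonoidAlgebra.single ((1 : R) : R ⧸ (⊤ : Subgroup R)) (1 : ℤ)) := by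
    intro f
    induction f using MonoidAlgebra.induction_linear with
    | zero => exact ⟨0, by simp⟩
    | add f g hf hg =>
      obtain ⟨m, hm⟩ := hf
      obtain ⟨m', hm'⟩ := hg
      exact ⟨m + m', by rw [add_smul, ← hm, ← hm']⟩
    | single a r =>
      refine ⟨r, ?_⟩
      rw [MonoidAlgebra.smul_single, all_eq a ((1 : R) : R ⧸ (⊤ : Subgroup R))]
      simp
  exact h1 p

/-- every element is an integer plus a combination of the `g - 1`. -/
theorem aug_dec {R : Type} [Group R] (I : Submodule (MonoidAlgebra ℤ R) (MonoidAlgebra ℤ R))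
    (hI : ∀ g : R, of ℤ R g - 1 ∈ I) (a : MonoidAlgebra ℤ R) :
    ∃ m : ℤ, ∃ r ∈ I, a = m • (1 : MonoidAlgebra ℤ R) + r := by
  induction a using MonoidAlgebra.induction_linear with
  | zero => exact ⟨0, 0, I.zero_mem, by simp⟩
  | add f g hf hg =>
    obtain ⟨m, r, hr, hm⟩ := hf
    obtain ⟨m', r', hr', hm'⟩ := hg
    exact ⟨m + m', r + r', I.add_mem hr hr', by rw [hm, hm', add_smul]; abel⟩
  | single g n =>
    refine ⟨n, n • (of ℤ R g - 1), zsmul_mem (hI g) n, ?_⟩
    rw [smul_sub]
    have : MonoidAlgebra.single g n = n • of ℤ R g := by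
      rw [of_apply, MonoidAlgebra.smul_single]
      simp
    rw [this]
    abel

theorem aug_smul {R : Type} [Group R] (g : R) : (of ℤ R g - 1) • q0 R = 0 := by
  rw [sub_smul, of_smul_q0, one_smul, sub_self]

/-- first map -/
noncomputable def f0 (R : Type) [Group R] :
    (Fin 1 → MonoidAlgebra ℤ R) →ₗ[MonoidAlgebra ℤ R] PM (⊤ : Subgroup R) :=
  (LinearMap.toSpanSingleton (MonoidAlgebra ℤ R) (PM (⊤ : Subgroup R)) (q0 R)).comp
    (LinearMap.proj 0)

theorem f0_apply {R : Type} [Group R] (a : Fin 1 → MonoidAlgebra ℤ R) :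
    f0 R a = a 0 • q0 R := rfl

theorem f0_surj {R : Type} [Group R] : Function.Surjective (f0 R) := by
  intro p
  obtain ⟨m, hm⟩ := q0_span p
  refine ⟨fun _ => m • (1 : MonoidAlgebra ℤ R), ?_⟩
  rw [f0_apply, hm, smul_assoc, one_smul]

/-- Jacobian-type map -/
noncomputable def jac {A : Type} [Ring A] {k l : ℕ} (M : Fin k → Fin l → A) :
    (Fin k → A) →ₗ[A] (Fin l → A) where
  toFun c i := ∑ j, c j * M j i
  map_add' c c' := by
    funext i
    simp only [Pi.add_apply, add_mul, Finset.sum_add_distrib]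
  map_smul' a c := by
    funext i
    simp only [Pi.smul_apply, smul_eq_mul, mul_assoc, Finset.mul_sum, RingHom.id_apply]

end KFGX

open KFGX MonoidAlgebra in
/-- KFG -/
theorem kfg_proof (hker : Stmt_FPker) (hcyc : Stmt_Cycle) : Stmt_KFG := by
  classical
  intro X R K _ _ _ _ π rel hπ hrel hFP D hD
  -- step 1
  have s1 : FP (MonoidAlgebra ℤ R) 2 (LinearMap.ker (f0 R)) := hker (MonoidAlgebra ℤ R) 2 _ hFP 1 (f0 R) f0_surj
  -- step 2
  let e := Fintype.equivFin X
  let ek := Fintype.equivFin K
  let M1 : Fin (Fintype.card X) → Fin 1 → (MonoidAlgebra ℤ R) :=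
    fun i _ => of ℤ R (π (FreeGroup.of (e.symm i))) - 1
  have hM1 : ∀ c, jac M1 c ∈ LinearMap.ker (f0 R) := by
    intro c
    rw [LinearMap.mem_ker, f0_apply]
    change (∑ j, c j * (of ℤ R (π (FreeGroup.of (e.symm j))) - 1)) • q0 R = 0
    rw [Finset.sum_smul]
    apply Finset.sum_eq_zero
    intro j _
    rw [mul_smul, aug_smul, smul_zero]
  let f1 : (Fin (Fintype.card X) → (MonoidAlgebra ℤ R)) →ₗ[(MonoidAlgebra ℤ R)] LinearMap.ker (f0 R) :=
    LinearMap.codRestrict _ (jac M1) hM1
  have hf1 : ∀ c, ((f1 c : LinearMap.ker (f0 R)) : Fin 1 → (MonoidAlgebra ℤ R)) 0 =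
      ∑ x, c (e x) * (of ℤ R (π (FreeGroup.of x)) - 1) := by
    intro c
    change ∑ j, c j * (of ℤ R (π (FreeGroup.of (e.symm j))) - 1) = _
    rw [← Equiv.sum_comp e]
    simp
  have s1' : Function.Surjective f1 := by
    rintro ⟨a, ha⟩
    rw [LinearMap.mem_ker, f0_apply] at ha
    let I : Submodule (MonoidAlgebra ℤ R) (MonoidAlgebra ℤ R) := Submodule.map (LinearMap.proj 0) (LinearMap.range (jac M1))
    have hI : ∀ g : R, of ℤ R g - 1 ∈ I := by
      intro g
      obtain ⟨w, rfl⟩ := hπ g
      rw [← fund hD w]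
      refine ⟨jac M1 (fun i => D w (e.symm i)), ⟨_, rfl⟩, ?_⟩
      change ∑ j, D w (e.symm j) * (of ℤ R (π (FreeGroup.of (e.symm j))) - 1) = _
      rw [← Equiv.sum_comp e]
      simp
    obtain ⟨m, r, hr, har⟩ := aug_dec I hI (a 0)
    obtain ⟨b, ⟨c, rfl⟩, hb⟩ := hr
    have hr0 : r • q0 R = 0 := by
      have := hM1 c
      rw [LinearMap.mem_ker, f0_apply] at this
      have hb' : jac M1 c 0 = r := hb
      rw [hb'] at this
      exact this
    rw [har, add_smul, hr0, add_zero, smul_assoc, one_smul] at ha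
    have hm := zsmul_q0 ha
    rw [hm, zero_smul, zero_add] at har
    refine ⟨c, ?_⟩
    apply Subtype.ext
    funext i
    rw [Subsingleton.elim i 0]
    change jac M1 c 0 = a 0
    rw [har]
    exact hb
  have s2 : FP (MonoidAlgebra ℤ R) 1 (LinearMap.ker f1) := hker (MonoidAlgebra ℤ R) 1 _ s1 _ f1 s1'
  have hmem1 : ∀ c, c ∈ LinearMap.ker f1 ↔
      ∑ x, c (e x) * (of ℤ R (π (FreeGroup.of x)) - 1) = 0 := by
    intro c
    rw [LinearMap.mem_ker, ← hf1]
    constructor
    · intro h
      rw [h]
      rfl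
    · intro h
      apply Subtype.ext
      funext i
      rw [Subsingleton.elim i 0]
      exact h
  -- step 3
  let M2 : Fin (Fintype.card K) → Fin (Fintype.card X) → (MonoidAlgebra ℤ R) :=
    fun j i => D (rel (ek.symm j)) (e.symm i)
  have hrelker : ∀ k, π (rel k) = 1 := by
    intro k
    have : rel k ∈ π.ker := by
      rw [hrel]
      exact Subgroup.subset_normalClosure ⟨k, rfl⟩
    exact this
  have hDker : ∀ l, π l = 1 → (fun i => D l (e.symm i)) ∈ LinearMap.ker f1 := by
    intro l hl
    rw [hmem1]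
    simp only [Equiv.symm_apply_apply]
    rw [fund hD, hl, map_one, sub_self]
  have hM2 : ∀ c, jac M2 c ∈ LinearMap.ker f1 := by
    intro c
    have : jac M2 c = ∑ j, c j • (fun i => D (rel (ek.symm j)) (e.symm i)) := by
      funext i
      simp [jac, M2, Finset.sum_apply]
    rw [this]
    exact Submodule.sum_mem _ fun j _ => Submodule.smul_mem _ _ (hDker _ (hrelker _))
  let f2 : (Fin (Fintype.card K) → (MonoidAlgebra ℤ R)) →ₗ[(MonoidAlgebra ℤ R)] LinearMap.ker f1 :=
    LinearMap.codRestrict _ (jac M2) hM2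
  have s2' : Function.Surjective f2 := by
    rintro ⟨c, hc⟩
    have hc' := (hmem1 c).1 hc
    obtain ⟨l, hl, hDl⟩ := hcyc X R π D hD hπ (fun x => c (e x)) hc'
    rw [hrel] at hl
    let P : Submodule (MonoidAlgebra ℤ R) (Fin (Fintype.card X) → (MonoidAlgebra ℤ R)) := LinearMap.range (jac M2)
    have hP : ∀ k, (fun i => D (rel k) (e.symm i)) ∈ P := by
      intro k
      refine ⟨Pi.single (ek k) 1, ?_⟩
      funext i
      simp only [jac, LinearMap.coe_mk, AddHom.coe_mk, M2]
      rw [Finset.sum_eq_single (ek k)]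
      · simp
      · intro j _ hj
        rw [Pi.single_eq_of_ne hj, zero_mul]
      · intro h
        exact absurd (Finset.mem_univ _) h
    have key : ∀ w ∈ Subgroup.normalClosure (Set.range rel),
        π w = 1 ∧ (fun i => D w (e.symm i)) ∈ P := by
      intro w hw
      have hker' : π w = 1 := by
        have : w ∈ π.ker := by rw [hrel]; exact hw
        exact this
      refine ⟨hker', ?_⟩
      rw [Subgroup.normalClosure] at hw
      induction hw using Subgroup.closure_induction with
      | mem w hw =>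
        rw [Group.mem_conjugatesOfSet_iff] at hw
        obtain ⟨r, ⟨k, rfl⟩, hconj⟩ := hw
        rw [isConj_iff] at hconj
        obtain ⟨g, rfl⟩ := hconj
        have : (fun i => D (g * rel k * g⁻¹) (e.symm i)) =
            of ℤ R (π g) • (fun i => D (rel k) (e.symm i)) := by
          funext i
          simp only [Pi.smul_apply, smul_eq_mul]
          rw [hD.1, hD.1, map_mul, hrelker, mul_one]
          have := fox_inv hD g (e.symm i)
          rw [add_right_comm, this, zero_add]
        rw [this]
        exact Submodule.smul_mem _ _ (hP k)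
      | one =>
        have : (fun i => D 1 (e.symm i)) = 0 := by
          funext i
          exact fox_one hD _
        rw [this]
        exact P.zero_mem
      | mul u v hu hv ihu ihv =>
        have hu' : π u = 1 := by
          have : u ∈ π.ker := by rw [hrel]; exact hu
          exact this
        have hv' : π v = 1 := by
          have : v ∈ π.ker := by rw [hrel]; exact hv
          exact this
        have : (fun i => D (u * v) (e.symm i)) =
            (fun i => D u (e.symm i)) + (fun i => D v (e.symm i)) := by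
          funext i
          rw [Pi.add_apply, hD.1, hu', map_one, one_mul]
        rw [this]
        exact P.add_mem (ihu hu') (ihv hv')
      | inv u hu ihu =>
        have hu' : π u = 1 := by
          have : u ∈ π.ker := by rw [hrel]; exact hu
          exact this
        have : (fun i => D u⁻¹ (e.symm i)) = -(fun i => D u (e.symm i)) := by
          funext i
          rw [Pi.neg_apply]
          have := fox_inv hD u (e.symm i)
          rw [hu', map_one, one_mul] at this
          exact eq_neg_of_add_eq_zero_right this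
        rw [this]
        exact P.neg_mem (ihu hu')
    obtain ⟨b, hb⟩ := (key l hl).2
    refine ⟨b, ?_⟩
    apply Subtype.ext
    change jac M2 b = c
    rw [hb]
    funext i
    have := congrFun hDl (e.symm i)
    simp only [Equiv.apply_symm_apply] at this
    exact this
  have s3 : Module.Finite (MonoidAlgebra ℤ R) (LinearMap.ker f2) := hker (MonoidAlgebra ℤ R) 0 _ s2 _ f2 s2'
  have s4 : (LinearMap.ker f2).FG := Module.Finite.iff_fg.1 s3
  have hmem2 : ∀ c, c ∈ LinearMap.ker f2 ↔ ∀ x, ∑ k, c (ek k) * D (rel k) x = 0 := by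
    intro c
    have h1 : c ∈ LinearMap.ker f2 ↔ jac M2 c = 0 := by
      rw [LinearMap.mem_ker]
      constructor
      · intro h
        have := congrArg Subtype.val h
        exact this
      · intro h
        exact Subtype.ext h
    rw [h1]
    have h2 : ∀ i, jac M2 c i = ∑ k, c (ek k) * D (rel k) (e.symm i) := by
      intro i
      change ∑ j, c j * D (rel (ek.symm j)) (e.symm i) = _
      rw [← Equiv.sum_comp ek]
      simp
    constructor
    · intro h x
      have := congrFun h (e x)
      rw [h2] at this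
      simpa using this
    · intro h
      funext i
      rw [h2]
      exact h _
  obtain ⟨T, hT⟩ := s4
  let E : (Fin (Fintype.card K) → (MonoidAlgebra ℤ R)) ≃ₗ[(MonoidAlgebra ℤ R)] (K → (MonoidAlgebra ℤ R)) := LinearEquiv.funCongrLeft (MonoidAlgebra ℤ R) (MonoidAlgebra ℤ R) ek
  have hE : ∀ c k, E c k = c (ek k) := fun c k => rfl
  refine ⟨T.image E, ?_⟩
  have h5 : Submodule.span (MonoidAlgebra ℤ R) ((T.image E : Finset (K → (MonoidAlgebra ℤ R))) : Set (K → (MonoidAlgebra ℤ R))) =
      Submodule.map E.toLinearMap (LinearMap.ker f2) := by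
    rw [← hT, Submodule.map_span]
    congr 1
    simp
  rw [h5]
  ext c
  constructor
  · intro hc
    refine ⟨E.symm c, ?_, by simp⟩
    rw [SetLike.mem_coe, hmem2]
    intro x
    have := hc x
    have h6 : ∀ k, E.symm c (ek k) = c k := by
      intro k
      rw [← hE (E.symm c) k, LinearEquiv.apply_symm_apply]
    simp only [h6]
    exact this
  · rintro ⟨b, hb, rfl⟩
    rw [SetLike.mem_coe, hmem2] at hb
    exact hb

end Pool.Agent.SD
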