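import Pool.Agent.SD.Stmts

set_option autoImplicit false

namespace Pool.Agent.SD

namespace LOWERX

/-- a length function is bounded by a multiple of the norm -/
theorem len_bound {Y H : Type} [Fintype Y] [DecidableEq Y] [Group H] (l : H → ℕ) (h1 : l 1 = 0)
    (hm : ∀ a b, l (a * b) ≤ l a + l b) (hi : ∀ a, l a⁻¹ = l a) (f : FreeGroup Y →* H) :
    ∃ c : ℕ, ∀ w, l (f w) ≤ c * w.norm := by
  refine ⟨∑ y, l (f (FreeGroup.of y)), fun w => ?_⟩
  set c := ∑ y, l (f (FreeGroup.of y)) with hc
  have hy : ∀ y, l (f (FreeGroup.of y)) ≤ c := fun y =>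
    Finset.single_le_sum (f := fun y => l (f (FreeGroup.of y))) (fun _ _ => Nat.zero_le _)
      (Finset.mem_univ y)
  have key : ∀ L : List (Y × Bool), l (f (FreeGroup.mk L)) ≤ c * L.length := by
    intro L
    induction L with
    | nil =>
      have : (FreeGroup.mk ([] : List (Y × Bool))) = 1 := rfl
      rw [this, map_one, h1]
      exact Nat.zero_le _
    | cons p L ih =>
      have h2 : FreeGroup.mk (p :: L) = FreeGroup.mk [p] * FreeGroup.mk L := by
        rw [FreeGroup.mul_mk]
        rfl
      rw [h2, map_mul]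
      have h3 : l (f (FreeGroup.mk [p])) ≤ c := by
        obtain ⟨y, b⟩ := p
        cases b
        · have : FreeGroup.mk [(y, false)] = (FreeGroup.of y)⁻¹ := rfl
          rw [this, map_inv, hi]
          exact hy y
        · exact hy y
      calc l (f (FreeGroup.mk [p]) * f (FreeGroup.mk L))
          ≤ l (f (FreeGroup.mk [p])) + l (f (FreeGroup.mk L)) := hm _ _
        _ ≤ c + c * L.length := Nat.add_le_add h3 ih
        _ = c * (p :: L).length := by rw [List.length_cons]; ring
  have := key w.toWord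
  rwa [FreeGroup.mk_toWord] at this

end LOWERX

open LOWERX in
/-- LOWER -/
theorem lower_proof : Stmt_Lower := by
  intro Y _ _ G _ Θ val hmul hconj hbig n R φ hrange hker C
  by_contra hcon
  push Not at hcon
  -- basic facts
  have v1 : val 1 = 0 := by
    have := hmul 1 1 (map_one Θ) (map_one Θ)
    rw [mul_one] at this
    linarith
  have vinv : ∀ u, Θ u = 1 → val u⁻¹ = - val u := by
    intro u hu
    have := hmul u u⁻¹ hu (by rw [map_inv, hu, inv_one])
    rw [mul_inv_cancel, v1] at this
    linarith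
  -- the homomorphisms
  have hth : ∀ i : Fin n, ∃ y : FreeGroup Y, Θ y = φ (FreeGroup.of i) := by
    intro i
    have : φ (FreeGroup.of i) ∈ Θ.range := by
      rw [← hrange]
      exact ⟨_, rfl⟩
    exact this
  choose thf hthf using hth
  let th : FreeGroup (Fin n) →* FreeGroup Y := FreeGroup.lift thf
  have hΘth : ∀ w, Θ (th w) = φ w := by
    intro w
    have : Θ.comp th = φ := by
      ext i
      simp [th, hthf]
    exact DFunLike.congr_fun this w
  have hps : ∀ y : Y, ∃ x : FreeGroup (Fin n), φ x = Θ (FreeGroup.of y) := by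
    intro y
    have : Θ (FreeGroup.of y) ∈ φ.range := by
      rw [hrange]
      exact ⟨_, rfl⟩
    exact this
  choose psf hpsf using hps
  let ps : FreeGroup Y →* FreeGroup (Fin n) := FreeGroup.lift psf
  have hφps : ∀ w, φ (ps w) = Θ w := by
    intro w
    have : φ.comp ps = Θ := by
      ext i
      simp [ps, hpsf]
    exact DFunLike.congr_fun this w
  have hT : ∀ w, Θ (w⁻¹ * th (ps w)) = 1 := by
    intro w
    rw [map_mul, map_inv, hΘth, hφps, inv_mul_cancel]
  -- delta
  let dl : FreeGroup Y →* Multiplicative ℤ :=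
    { toFun := fun w => Multiplicative.ofAdd (val (w⁻¹ * th (ps w)))
      map_one' := by simp [v1]
      map_mul' := by
        intro a b
        rw [← ofAdd_add]
        congr 1
        have h1 : (a * b)⁻¹ * th (ps (a * b)) =
            (b⁻¹ * (a⁻¹ * th (ps a)) * b⁻¹⁻¹) * (b⁻¹ * th (ps b)) := by
          simp only [map_mul, mul_inv_rev, inv_inv]
          group
        have h2 : Θ (b⁻¹ * (a⁻¹ * th (ps a)) * b⁻¹⁻¹) = 1 := by
          rw [map_mul, map_mul, hT a]
          simp
        rw [h1, hmul _ _ h2 (hT b), hconj _ _ (hT a)] }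
  have hdl : ∀ w, val (w⁻¹ * th (ps w)) = Multiplicative.toAdd (dl w) := fun w => rfl
  obtain ⟨c, hc⟩ := len_bound (fun z : Multiplicative ℤ => (Multiplicative.toAdd z).natAbs)
    (by simp) (by intro a b; simpa using Int.natAbs_add_le _ _) (by intro a; simp) dl
  obtain ⟨c', hc'⟩ := len_bound (fun z : FreeGroup (Fin n) => z.norm)
    (by simp) (by intro a b; exact FreeGroup.norm_mul_le _ _) (by intro a; simp) ps
  -- relators
  have hR : ∀ r ∈ R, Θ (th r) = 1 := by
    intro r hr
    rw [hΘth]
    have : r ∈ φ.ker := by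
      rw [hker]
      exact Subgroup.subset_normalClosure hr
    exact this
  set c2 : ℕ := ∑ r ∈ R, (val (th r)).natAbs with hc2
  have hr2 : ∀ r ∈ R, (val (th r)).natAbs ≤ c2 := by
    intro r hr
    exact Finset.single_le_sum (f := fun r => (val (th r)).natAbs) (fun _ _ => Nat.zero_le _) hr
  have hprod : ∀ L : List (FreeGroup (Fin n) × FreeGroup (Fin n)),
      (∀ p ∈ L, p.2 ∈ (R : Set (FreeGroup (Fin n))) ∨ p.2⁻¹ ∈ (R : Set (FreeGroup (Fin n)))) →
      Θ (th (L.map fun p => p.1 * p.2 * p.1⁻¹).prod) = 1 ∧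
        (val (th (L.map fun p => p.1 * p.2 * p.1⁻¹).prod)).natAbs ≤ L.length * c2 := by
    intro L
    induction L with
    | nil =>
      intro _
      simp [v1]
    | cons p L ih =>
      intro hL
      obtain ⟨i1, i2⟩ := ih (fun q hq => hL q (List.mem_cons_of_mem _ hq))
      have hp := hL p List.mem_cons_self
      have k1 : Θ (th p.2) = 1 ∧ (val (th p.2)).natAbs ≤ c2 := by
        rcases hp with hp | hp
        · exact ⟨hR _ hp, hr2 _ hp⟩
        · have e1 := hR _ hp
          have e2 := hr2 _ hp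
          have e3 : th p.2 = (th p.2⁻¹)⁻¹ := by rw [map_inv, inv_inv]
          constructor
          · rw [e3, map_inv, e1, inv_one]
          · rw [e3, vinv _ e1, Int.natAbs_neg]
            exact e2
      have k2 : Θ (th p.1 * th p.2 * (th p.1)⁻¹) = 1 := by
        rw [map_mul, map_mul, k1.1]
        simp
      rw [List.map_cons, List.prod_cons, map_mul]
      have k3 : th (p.1 * p.2 * p.1⁻¹) = th p.1 * th p.2 * (th p.1)⁻¹ := by simp
      rw [k3]
      constructor
      · rw [map_mul, k2, i1, one_mul]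
      · rw [hmul _ _ k2 i1, hconj _ _ k1.1]
        calc _ ≤ _ := Int.natAbs_add_le _ _
          _ ≤ c2 + L.length * c2 := Nat.add_le_add k1.2 i2
          _ = (p :: L).length * c2 := by rw [List.length_cons]; ring
  -- the main estimate
  set A := max C 1 with hA
  set B := c + c2 + 1 with hB
  obtain ⟨w, hw, hbw⟩ := hbig (A ^ (c' + 1) * B)
  have hker' : ps w ∈ φ.ker := by
    rw [MonoidHom.mem_ker, hφps, hw]
  obtain ⟨L, hL1, hL2, hL3⟩ := hcon (ps w) hker'
  obtain ⟨p1, p2⟩ := hprod L hL2
  rw [hL3] at p1 p2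
  have e1 : val (th (ps w)) = val w + Multiplicative.toAdd (dl w) := by
    rw [← hdl, ← hmul w _ hw (hT w), mul_inv_cancel_left]
  have e2 : (val w).natAbs ≤ c * w.norm + L.length * c2 := by
    have : val w = val (th (ps w)) + -(Multiplicative.toAdd (dl w)) := by
      rw [e1]; ring
    rw [this]
    calc _ ≤ _ := Int.natAbs_add_le _ _
      _ ≤ L.length * c2 + c * w.norm := Nat.add_le_add p2 (by rw [Int.natAbs_neg]; exact hc w)
      _ = _ := by ring
  have hA1 : 1 ≤ A := le_max_right _ _
  have e3 : L.length ≤ A ^ ((c' + 1) * (w.norm + 1)) := by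
    refine hL1.trans ?_
    have hn : (ps w).toWord.length = (ps w).norm := rfl
    rw [hn]
    calc C ^ ((ps w).norm + 1) ≤ A ^ ((ps w).norm + 1) := Nat.pow_le_pow_left (le_max_left _ _) _
      _ ≤ A ^ ((c' + 1) * (w.norm + 1)) := by
        apply Nat.pow_le_pow_right hA1
        have := hc' w
        nlinarith
  have e4 : c * w.norm + c2 ≤ B ^ (w.norm + 1) := by
    have h1 : 1 + (w.norm + 1) * (c + c2) ≤ (1 + (c + c2)) ^ (w.norm + 1) := by
      have := one_add_mul_le_pow (R := ℤ) (a := ((c + c2 : ℕ) : ℤ)) (by positivity |> fun h : (0:ℤ) ≤ ((c + c2 : ℕ) : ℤ) => by linarith) (w.norm + 1)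
      have h2 : (((1 + (w.norm + 1) * (c + c2) : ℕ)) : ℤ) ≤ (((1 + (c + c2)) ^ (w.norm + 1) : ℕ) : ℤ) := by
        push_cast at this ⊢
        linarith
      exact_mod_cast h2
    have h3 : (1 + (c + c2)) = B := by rw [hB]; ring
    rw [h3] at h1
    nlinarith
  have e5 : (val w).natAbs ≤ (A ^ (c' + 1) * B) ^ (w.norm + 1) := by
    set X := A ^ ((c' + 1) * (w.norm + 1)) with hX
    have hX1 : 1 ≤ X := Nat.one_le_pow _ _ hA1
    have e6 : (A ^ (c' + 1) * B) ^ (w.norm + 1) = B ^ (w.norm + 1) * X := by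
      rw [mul_pow, ← pow_mul, mul_comm]
    rw [e6]
    calc (val w).natAbs ≤ c * w.norm + L.length * c2 := e2
      _ ≤ c * w.norm * X + X * c2 := by
        apply Nat.add_le_add
        · exact Nat.le_mul_of_pos_right _ hX1
        · exact Nat.mul_le_mul_right _ e3
      _ = (c * w.norm + c2) * X := by ring
      _ ≤ B ^ (w.norm + 1) * X := Nat.mul_le_mul_right _ e4
  have e7 : |val w| ≤ (((A ^ (c' + 1) * B) ^ (w.norm + 1) : ℕ) : ℤ) := by
    rw [← Int.natCast_natAbs]
    exact_mod_cast e5
  push_cast at e7 hbw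
  exact absurd hbw (not_lt.2 e7)

end Pool.Agent.SD
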