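import Pool.Agent.SD.Sys

/-!
# Squad SD: normal forms of oriented VH systems
-/

set_option autoImplicit false
set_option linter.unusedSectionVars false

namespace Pool.Agent.SD

namespace NFSX

variable {A B : Type} [DecidableEq A] [DecidableEq B] (σ : Sys A B)

theorem NF_tail {x : A ⊕ B} {w : List (A ⊕ B)} (h : σ.NF (x :: w)) : σ.NF w := by
  cases w with
  | nil => exact trivial
  | cons y l => exact h.2.2

theorem inv_inr (b : B) : σ.inv (Sum.inr b) = Sum.inr (σ.ib b) := rfl
theorem inv_inl (a : A) : σ.inv (Sum.inl a) = Sum.inl (σ.ia a) := rfl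

/-- `w` does not begin with the vertical letter `c` -/
def NoB (c : B) (w : List (A ⊕ B)) : Prop := ∀ l, w ≠ Sum.inr c :: l

theorem pushB_of_NoB {b : B} {w : List (A ⊕ B)} (h : NoB (σ.ib b) w) :
    σ.pushB b w = Sum.inr b :: w := by
  match w, h with
  | [], _ => rfl
  | Sum.inl a :: w, _ => rfl
  | Sum.inr c :: w, h =>
    have hc : c ≠ σ.ib b := by
      rintro rfl
      exact h w rfl
    simp [Sys.pushB, hc]

theorem pushB_cancel {b : B} {w : List (A ⊕ B)} : σ.pushB b (Sum.inr (σ.ib b) :: w) = w := by
  simp [Sys.pushB]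

theorem NoB_or (c : B) (w : List (A ⊕ B)) : NoB c w ∨ ∃ l, w = Sum.inr c :: l := by
  by_cases h : ∃ l, w = Sum.inr c :: l
  · exact Or.inr h
  · left
    intro l hl
    exact h ⟨l, hl⟩

theorem NF_cons_inr {b : B} {w : List (A ⊕ B)} (hw : σ.NF w) (h : NoB (σ.ib b) w) :
    σ.NF (Sum.inr b :: w) := by
  match w, h, hw with
  | [], _, _ => exact trivial
  | y :: w, h, hw =>
    refine ⟨?_, ?_, hw⟩
    · rintro rfl
      exact h w rfl
    · intro a b' hx
      cases hx

theorem NoB_of_NF {b : B} {w : List (A ⊕ B)} (h : σ.NF (Sum.inr b :: w)) : NoB (σ.ib b) w := by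
  rintro l rfl
  exact h.1 rfl

theorem NF_pushB {b : B} {w : List (A ⊕ B)} (hw : σ.NF w) : σ.NF (σ.pushB b w) := by
  rcases NoB_or (σ.ib b) w with h | ⟨l, rfl⟩
  · rw [pushB_of_NoB σ h]; exact NF_cons_inr σ hw h
  · rw [pushB_cancel]; exact NF_tail σ hw

theorem sym12 {a : A} {b b' : B} {a' : A} (h : σ.rule a b = some (b', a')) :
    σ.rule (σ.ia a') (σ.ib b') = some (σ.ib b, σ.ia a) :=
  σ.sym2 _ _ _ _ (σ.sym1 _ _ _ _ h)

theorem starA_inr_none {a : A} {b : B} {w : List (A ⊕ B)} (h : σ.rule a b = none) :
    σ.starA (Sum.inr b :: w) a = Sum.inl a :: Sum.inr b :: w := by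
  simp [Sys.starA, h]

theorem starA_inr_some {a : A} {b b' : B} {a' : A} {w : List (A ⊕ B)}
    (h : σ.rule a b = some (b', a')) :
    σ.starA (Sum.inr b :: w) a = σ.pushB b' (σ.starA w a') := by
  simp [Sys.starA, h]

theorem starA_inl_eq {a : A} {w : List (A ⊕ B)} :
    σ.starA (Sum.inl (σ.ia a) :: w) a = w := by
  simp [Sys.starA]

theorem starA_inl_ne {a c : A} {w : List (A ⊕ B)} (h : c ≠ σ.ia a) :
    σ.starA (Sum.inl c :: w) a = Sum.inl a :: Sum.inl c :: w := by
  simp [Sys.starA, h]

theorem starA_nil {a : A} : σ.starA [] a = [Sum.inl a] := rfl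

/-- no cancellation of vertical letters -/
theorem noCancel (w : List (A ⊕ B)) : ∀ (a : A) (b b' : B) (a' : A),
    σ.rule a b = some (b', a') → σ.NF (Sum.inr b :: w) → NoB (σ.ib b') (σ.starA w a') := by
  induction w with
  | nil =>
    intro a b b' a' _ _ l hl
    rw [starA_nil] at hl
    cases hl
  | cons x w ih =>
    intro a b b' a' h hNF
    cases x with
    | inl c =>
      by_cases hc : c = σ.ia a'
      · subst hc
        rw [starA_inl_eq]
        rintro l rfl
        have h1 := NF_tail σ hNF
        have h2 := h1.2.1 (σ.ia a') (σ.ib b') rfl rfl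
        rw [sym12 σ h] at h2
        cases h2
      · rw [starA_inl_ne σ hc]
        intro l hl
        cases hl
    | inr c =>
      have hcb : c ≠ σ.ib b := by
        intro hc
        apply hNF.1
        rw [hc]; rfl
      cases hr : σ.rule a' c with
      | none =>
        rw [starA_inr_none σ hr]
        intro l hl
        cases hl
      | some p =>
        obtain ⟨c', a''⟩ := p
        rw [starA_inr_some σ hr, pushB_of_NoB σ (ih a' c c' a'' hr (NF_tail σ hNF))]
        intro l hl
        have hc' : c' = σ.ib b' := by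
          injection hl with h1 _
          injection h1
        -- both `c` and `ib b` are mapped to `ib b'` by `a'`
        have h1 := σ.sym1 _ _ _ _ hr
        have h2 := sym12 σ h
        rw [hc', h2] at h1
        injection h1 with h3
        injection h3 with h4 _
        exact hcb h4.symm

theorem starA_inr_some' {a : A} {b b' : B} {a' : A} {w : List (A ⊕ B)}
    (h : σ.rule a b = some (b', a')) (hNF : σ.NF (Sum.inr b :: w)) :
    σ.starA (Sum.inr b :: w) a = Sum.inr b' :: σ.starA w a' := by
  rw [starA_inr_some σ h, pushB_of_NoB σ (noCancel σ w a b b' a' h hNF)]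

theorem NF_starA (w : List (A ⊕ B)) : ∀ a, σ.NF w → σ.NF (σ.starA w a) := by
  induction w with
  | nil => intro a _; exact trivial
  | cons x w ih =>
    intro a hw
    cases x with
    | inl c =>
      by_cases hc : c = σ.ia a
      · subst hc; rw [starA_inl_eq]; exact NF_tail σ hw
      · rw [starA_inl_ne σ hc]
        refine ⟨?_, ?_, hw⟩
        · intro h; apply hc; injection h
        · intro a0 b0 _ h; cases h
    | inr b =>
      cases hr : σ.rule a b with
      | none =>
        rw [starA_inr_none σ hr]
        refine ⟨?_, ?_, hw⟩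
        · intro h; cases h
        · intro a0 b0 h h'
          injection h with h
          injection h' with h'
          subst h; subst h'
          exact hr
      | some p =>
        obtain ⟨b', a'⟩ := p
        rw [starA_inr_some σ hr]
        exact NF_pushB σ (ih a' (NF_tail σ hw))

theorem starA_of_NF {a : A} {w : List (A ⊕ B)} (h : σ.NF (Sum.inl a :: w)) :
    σ.starA w a = Sum.inl a :: w := by
  match w, h with
  | [], _ => rfl
  | Sum.inl c :: w, h =>
    apply starA_inl_ne
    rintro rfl
    exact h.1 rfl
  | Sum.inr b :: w, h =>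
    apply starA_inr_none
    exact h.2.1 a b rfl rfl

theorem starA_starA (w : List (A ⊕ B)) : ∀ a, σ.NF w → σ.starA (σ.starA w a) (σ.ia a) = w := by
  induction w with
  | nil =>
    intro a _
    rw [starA_nil]
    have := starA_inl_eq σ (a := σ.ia a) (w := [])
    rwa [σ.ia_ia] at this
  | cons x w ih =>
    intro a hw
    cases x with
    | inl c =>
      by_cases hc : c = σ.ia a
      · subst hc; rw [starA_inl_eq]; exact starA_of_NF σ hw
      · rw [starA_inl_ne σ hc]
        have := starA_inl_eq σ (a := σ.ia a) (w := Sum.inl c :: w)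
        rwa [σ.ia_ia] at this
    | inr b =>
      cases hr : σ.rule a b with
      | none =>
        rw [starA_inr_none σ hr]
        have := starA_inl_eq σ (a := σ.ia a) (w := Sum.inr b :: w)
        rwa [σ.ia_ia] at this
      | some p =>
        obtain ⟨b', a'⟩ := p
        rw [starA_inr_some' σ hr hw, starA_inr_some σ (σ.sym1 _ _ _ _ hr),
          ih a' (NF_tail σ hw)]
        exact pushB_of_NoB σ (NoB_of_NF σ hw)

theorem pushB_length (b : B) (w : List (A ⊕ B)) :
    (σ.pushB b w).length = w.length + 1 ∨ (σ.pushB b w).length + 1 = w.length := by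
  rcases NoB_or (σ.ib b) w with h | ⟨l, rfl⟩
  · left; rw [pushB_of_NoB σ h]; rfl
  · right; rw [pushB_cancel]; rfl

theorem starA_length (w : List (A ⊕ B)) : ∀ a, σ.NF w →
    (σ.starA w a).length = w.length + 1 ∨ (σ.starA w a).length + 1 = w.length := by
  induction w with
  | nil => intro a _; left; rfl
  | cons x w ih =>
    intro a hw
    cases x with
    | inl c =>
      by_cases hc : c = σ.ia a
      · subst hc; rw [starA_inl_eq]; right; rfl
      · rw [starA_inl_ne σ hc]; left; rfl
    | inr b =>
      cases hr : σ.rule a b with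
      | none => rw [starA_inr_none σ hr]; left; rfl
      | some p =>
        obtain ⟨b', a'⟩ := p
        rw [starA_inr_some' σ hr hw]
        have := ih a' (NF_tail σ hw)
        simp only [List.length_cons]
        omega

end NFSX

open NFSX in
theorem nfs_proof : Stmt_NFS := by
  intro A B _ _ σ
  refine ⟨?_, ?_, ?_, ?_, ?_, ?_⟩
  · rintro (a | b) w hw
    · exact NF_starA σ w a hw
    · exact NF_pushB σ hw
  · rintro (a | b) w hw
    · exact starA_starA σ w a hw
    · change σ.pushB (σ.ib b) (σ.pushB b w) = w
      rcases NoB_or (σ.ib b) w with h | ⟨l, rfl⟩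
      · rw [pushB_of_NoB σ h]
        have := pushB_cancel σ (b := σ.ib b) (w := w)
        rwa [σ.ib_ib] at this
      · rw [pushB_cancel]
        exact pushB_of_NoB σ (NoB_of_NF σ hw)
  · intro a b b' a' w h hw
    change σ.starA (σ.pushB b w) a = σ.pushB b' (σ.starA w a')
    rcases NoB_or (σ.ib b) w with h1 | ⟨l, rfl⟩
    · rw [pushB_of_NoB σ h1, starA_inr_some σ h]
    · rw [pushB_cancel, starA_inr_some' σ (σ.sym2 _ _ _ _ h) hw, pushB_cancel]
  · rintro (a | b) w hw
    · exact starA_length σ w a hw
    · exact pushB_length σ b w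
  · rintro (a | b) w hw
    · exact starA_of_NF σ hw
    · exact pushB_of_NoB σ (NoB_of_NF σ hw)
  · intro a b b' a' w h hw
    exact starA_inr_some' σ h hw

end Pool.Agent.SD
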