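import Pool.Agent.SD.Stmts

set_option autoImplicit false

/-! Module NORM: the core of the gadget generates a normal subgroup. -/

namespace Pool.Agent.SD

namespace NormX

theorem mem_normalizer_of {G : Type} [Group G] (S : Set G) (g : G)
    (h1 : ∀ c ∈ S, g * c * g⁻¹ ∈ Subgroup.closure S)
    (h2 : ∀ c ∈ S, g⁻¹ * c * g ∈ Subgroup.closure S) :
    ∀ n ∈ Subgroup.closure S, g * n * g⁻¹ ∈ Subgroup.closure S ∧
      g⁻¹ * n * g ∈ Subgroup.closure S := by
  intro n hn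
  induction hn using Subgroup.closure_induction with
  | mem x hx => exact ⟨h1 x hx, h2 x hx⟩
  | one => simp
  | mul x y _ _ hx hy =>
    refine ⟨?_, ?_⟩
    · have e : g * (x * y) * g⁻¹ = (g * x * g⁻¹) * (g * y * g⁻¹) := by group
      rw [e]; exact mul_mem hx.1 hy.1
    · have e : g⁻¹ * (x * y) * g = (g⁻¹ * x * g) * (g⁻¹ * y * g) := by group
      rw [e]; exact mul_mem hx.2 hy.2
  | inv x _ hx =>
    refine ⟨?_, ?_⟩
    · have e : g * x⁻¹ * g⁻¹ = (g * x * g⁻¹)⁻¹ := by group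
      rw [e]; exact inv_mem hx.1
    · have e : g⁻¹ * x⁻¹ * g = (g⁻¹ * x * g)⁻¹ := by group
      rw [e]; exact inv_mem hx.2

end NormX

open NormX in
theorem norm_proof : Stmt_Norm := by
  intro X I J P G _ θ hθ
  set S : Set G := (fun y => θ (FreeGroup.of y)) '' {y | IsCore y} with hS
  set C := Subgroup.closure S with hC
  -- the square relations
  have hsq : ∀ s : SL X I J, s.IsTriv →
      θ (gH (P.gh s)) * θ (gV (P.gv s)) = θ (gV (P.gv' s)) * θ (gH (P.gh' s)) := by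
    intro s hs
    have h := hθ s hs
    unfold VHData.word at h
    rw [map_mul, map_mul, map_mul, map_inv, map_inv, mul_inv_eq_one, mul_inv_eq_iff_eq_mul] at h
    exact h
  have hcore : ∀ y : HL X J ⊕ VL X J, IsCore y → θ (FreeGroup.of y) ∈ C := fun y hy =>
    Subgroup.subset_closure ⟨y, hy, rfl⟩
  have ha0 : θ (gH .a0) ∈ C := hcore _ trivial
  have ha : ∀ x, θ (gH (.a x)) ∈ C := fun x => hcore _ trivial
  have hv0 : θ (gV .v0) ∈ C := hcore _ trivial
  have hv : ∀ k, θ (gV (.v k)) ∈ C := fun k => hcore _ trivial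
  have he : ∀ x, θ (gV (.e x)) ∈ C := by
    intro x
    have h : θ (gH (.a x)) * θ (gV (.e x)) = θ (gV .v0) * θ (gH (.a x)) := hsq (.E x) trivial
    have h' : θ (gV (.e x)) = (θ (gH (.a x)))⁻¹ * (θ (gV .v0) * θ (gH (.a x))) := by
      rw [← h, inv_mul_cancel_left]
    rw [h']
    exact mul_mem (inv_mem (ha x)) (mul_mem hv0 (ha x))
  have hf : ∀ k, θ (gH (.f k)) ∈ C := by
    intro k
    have h : θ (gH .a0) * θ (gV (.v k)) = θ (gV (.v k)) * θ (gH (.f k)) := hsq (.F k) trivial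
    have h' : θ (gH (.f k)) = (θ (gV (.v k)))⁻¹ * (θ (gH .a0) * θ (gV (.v k))) := by
      rw [h, inv_mul_cancel_left]
    rw [h']
    exact mul_mem (inv_mem (hv k)) (mul_mem ha0 (hv k))
  -- h_x = y_x n, h_x = n' y_x
  have hg : ∀ x, ∃ n ∈ C, θ (gH (.h x)) = θ (gV (.y x)) * n := by
    intro x
    have h : θ (gH (.h x)) * θ (gV (.e x)) = θ (gV (.y x)) * θ (gH (.f (Sum.inl x))) :=
      hsq (.g x) trivial
    refine ⟨θ (gH (.f (Sum.inl x))) * (θ (gV (.e x)))⁻¹, mul_mem (hf _) (inv_mem (he x)), ?_⟩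
    rw [← mul_assoc, ← h, mul_inv_cancel_right]
  have hd : ∀ x, ∃ n ∈ C, θ (gH (.h x)) = n * θ (gV (.y x)) := by
    intro x
    have h : θ (gH (.f (Sum.inl x))) * θ (gV (.y x)) = θ (gV (.e x)) * θ (gH (.h x)) :=
      hsq (.d x) trivial
    refine ⟨(θ (gV (.e x)))⁻¹ * θ (gH (.f (Sum.inl x))), mul_mem (inv_mem (he x)) (hf _), ?_⟩
    rw [mul_assoc, h, inv_mul_cancel_left]
  -- commutations
  have hc1 : ∀ x, θ (gH (.h x)) * θ (gV .v0) = θ (gV .v0) * θ (gH (.h x)) := fun x =>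
    hsq (.c1 x) trivial
  have hc1' : ∀ x k, θ (gH (.h x)) * θ (gV (.v k)) = θ (gV (.v k)) * θ (gH (.h x)) := fun x k =>
    hsq (.c1' x k) trivial
  have hc2 : ∀ x, θ (gH .a0) * θ (gV (.y x)) = θ (gV (.y x)) * θ (gH .a0) := fun x =>
    hsq (.c2 x) trivial
  have hc2' : ∀ x k, θ (gH (.a k)) * θ (gV (.y x)) = θ (gV (.y x)) * θ (gH (.a k)) := fun x k =>
    hsq (.c2' x k) trivial
  -- every core generator commutes with h_x or with y_x
  have hcomm : ∀ c ∈ S, ∀ x, (θ (gH (.h x)) * c = c * θ (gH (.h x))) ∨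
      (θ (gV (.y x)) * c = c * θ (gV (.y x))) := by
    rintro c ⟨y, hy, rfl⟩ x
    match y, hy with
    | Sum.inl .a0, _ => exact Or.inr (hc2 x).symm
    | Sum.inl (.a k), _ => exact Or.inr (hc2' x k).symm
    | Sum.inr .v0, _ => exact Or.inl (hc1 x)
    | Sum.inr (.v k), _ => exact Or.inl (hc1' x k)
    | Sum.inl (.f _), h => exact h.elim
    | Sum.inl (.h _), h => exact h.elim
    | Sum.inr (.e _), h => exact h.elim
    | Sum.inr (.y _), h => exact h.elim
  have hSC : ∀ c ∈ S, c ∈ C := fun c hc => Subgroup.subset_closure hc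
  have hnh : ∀ x, ∀ n ∈ C, θ (gH (.h x)) * n * (θ (gH (.h x)))⁻¹ ∈ C ∧
      (θ (gH (.h x)))⁻¹ * n * θ (gH (.h x)) ∈ C := by
    intro x
    apply mem_normalizer_of
    · intro c hc
      rcases hcomm c hc x with h | h
      · rw [h, mul_inv_cancel_right]; exact hSC c hc
      · obtain ⟨n, hn, e⟩ := hd x
        rw [e]
        have e2 : n * θ (gV (.y x)) * c * (n * θ (gV (.y x)))⁻¹
            = n * (θ (gV (.y x)) * c * (θ (gV (.y x)))⁻¹) * n⁻¹ := by group
        rw [e2, h, mul_inv_cancel_right]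
        exact mul_mem (mul_mem hn (hSC c hc)) (inv_mem hn)
    · intro c hc
      rcases hcomm c hc x with h | h
      · rw [mul_assoc, ← h, inv_mul_cancel_left]; exact hSC c hc
      · obtain ⟨n, hn, e⟩ := hg x
        rw [e]
        have e2 : (θ (gV (.y x)) * n)⁻¹ * c * (θ (gV (.y x)) * n)
            = n⁻¹ * ((θ (gV (.y x)))⁻¹ * (c * θ (gV (.y x)))) * n := by group
        rw [e2, ← h, inv_mul_cancel_left]
        exact mul_mem (mul_mem (inv_mem hn) (hSC c hc)) hn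
  have hny : ∀ x, ∀ n ∈ C, θ (gV (.y x)) * n * (θ (gV (.y x)))⁻¹ ∈ C ∧
      (θ (gV (.y x)))⁻¹ * n * θ (gV (.y x)) ∈ C := by
    intro x m hm
    obtain ⟨n, hn, e⟩ := hd x
    obtain ⟨n', hn', e'⟩ := hg x
    have e1 : θ (gV (.y x)) = n⁻¹ * θ (gH (.h x)) := by rw [e, inv_mul_cancel_left]
    have e1' : θ (gV (.y x)) = θ (gH (.h x)) * n'⁻¹ := by rw [e', mul_inv_cancel_right]
    refine ⟨?_, ?_⟩
    · have e2 : θ (gV (.y x)) * m * (θ (gV (.y x)))⁻¹
          = n⁻¹ * (θ (gH (.h x)) * m * (θ (gH (.h x)))⁻¹) * n := by rw [e1]; group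
      rw [e2]
      exact mul_mem (mul_mem (inv_mem hn) (hnh x m hm).1) hn
    · have e2 : (θ (gV (.y x)))⁻¹ * m * θ (gV (.y x))
          = n' * ((θ (gH (.h x)))⁻¹ * m * θ (gH (.h x))) * n'⁻¹ := by rw [e1']; group
      rw [e2]
      exact mul_mem (mul_mem hn' (hnh x m hm).2) (inv_mem hn')
  have hnC : ∀ g ∈ C, ∀ n ∈ C, g * n * g⁻¹ ∈ C ∧ g⁻¹ * n * g ∈ C := fun g hg n hn =>
    ⟨mul_mem (mul_mem hg hn) (inv_mem hg), mul_mem (mul_mem (inv_mem hg) hn) hg⟩
  have hlet : ∀ y : HL X J ⊕ VL X J, ∀ n ∈ C, θ (FreeGroup.of y) * n * (θ (FreeGroup.of y))⁻¹ ∈ C ∧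
      (θ (FreeGroup.of y))⁻¹ * n * θ (FreeGroup.of y) ∈ C := by
    intro y
    match y with
    | Sum.inl .a0 => exact hnC _ ha0
    | Sum.inl (.a k) => exact hnC _ (ha k)
    | Sum.inr .v0 => exact hnC _ hv0
    | Sum.inr (.v k) => exact hnC _ (hv k)
    | Sum.inl (.f k) => exact hnC _ (hf k)
    | Sum.inl (.h x) => exact hnh x
    | Sum.inr (.e x) => exact hnC _ (he x)
    | Sum.inr (.y x) => exact hny x
  have hall : ∀ g, ∀ n ∈ C, θ g * n * (θ g)⁻¹ ∈ C := by
    intro g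
    induction g using FreeGroup.induction_on with
    | C1 => intro n hn; simpa using hn
    | of y => exact fun n hn => (hlet y n hn).1
    | inv_of y _ =>
      intro n hn
      have := (hlet y n hn).2
      rw [map_inv, inv_inv]; exact this
    | mul g g' h h' =>
      intro n hn
      have e : θ (g * g') * n * (θ (g * g'))⁻¹ = θ g * (θ g' * n * (θ g')⁻¹) * (θ g)⁻¹ := by
        rw [map_mul]; group
      rw [e]
      exact h _ (h' n hn)
  refine ⟨hall, ?_⟩
  -- second part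
  have hlet2 : ∀ y : HL X J ⊕ VL X J, ∃ n ∈ C,
      θ (FreeGroup.of y) = n * θ (sec (lab (FreeGroup.of y))) := by
    have htriv : ∀ y : HL X J ⊕ VL X J, labL y = 1 → θ (FreeGroup.of y) ∈ C → ∃ n ∈ C,
        θ (FreeGroup.of y) = n * θ (sec (lab (FreeGroup.of y))) := by
      intro y hy hyC
      refine ⟨_, hyC, ?_⟩
      have : lab (FreeGroup.of y) = 1 := by
        unfold lab; rw [FreeGroup.lift_apply_of]; exact hy
      rw [this, map_one, map_one, mul_one]
    intro y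
    match y with
    | Sum.inl .a0 => exact htriv _ rfl ha0
    | Sum.inl (.a k) => exact htriv _ rfl (ha k)
    | Sum.inr .v0 => exact htriv _ rfl hv0
    | Sum.inr (.v k) => exact htriv _ rfl (hv k)
    | Sum.inl (.f k) => exact htriv _ rfl (hf k)
    | Sum.inr (.e x) => exact htriv _ rfl (he x)
    | Sum.inl (.h x) =>
      refine ⟨1, one_mem _, ?_⟩
      rw [one_mul]
      unfold lab sec
      rw [FreeGroup.lift_apply_of]
      change _ = θ (FreeGroup.lift _ (FreeGroup.of x))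
      rw [FreeGroup.lift_apply_of]
    | Sum.inr (.y x) =>
      obtain ⟨n, hn, e⟩ := hd x
      refine ⟨n⁻¹, inv_mem hn, ?_⟩
      have e3 : sec (lab (FreeGroup.of (Sum.inr (VL.y x) : HL X J ⊕ VL X J)))
          = (gH (HL.h x) : FreeGroup (HL X J ⊕ VL X J)) := by
        unfold lab sec
        rw [FreeGroup.lift_apply_of]
        change FreeGroup.lift _ (FreeGroup.of x) = _
        rw [FreeGroup.lift_apply_of]
        rfl
      rw [e3, e, inv_mul_cancel_left]
      rfl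
  intro g
  induction g using FreeGroup.induction_on with
  | C1 => exact ⟨1, one_mem _, by simp⟩
  | of y => exact hlet2 y
  | inv_of y hy =>
    obtain ⟨n, hn, e⟩ := hy
    refine ⟨θ (sec (lab (FreeGroup.of y)⁻¹)) * n⁻¹ * (θ (sec (lab (FreeGroup.of y)⁻¹)))⁻¹,
      hall _ _ (inv_mem hn), ?_⟩
    rw [map_inv, e]
    rw [map_inv, map_inv, map_inv]
    group
  | mul g g' hg hg' =>
    obtain ⟨n, hn, e⟩ := hg
    obtain ⟨n', hn', e'⟩ := hg'
    refine ⟨n * (θ (sec (lab g)) * n' * (θ (sec (lab g)))⁻¹), mul_mem hn (hall _ _ hn'), ?_⟩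
    rw [map_mul, map_mul, map_mul, map_mul, e, e']
    group

end Pool.Agent.SD
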