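import Mathlib
import Pool.Agent.SD.Defs
import Pool.Agent.SD.Grp
import Pool.Agent.SD.Stmts

/-!
# Squad SD, module RPRES: the square presentation `P0` presents `RC`
-/

set_option autoImplicit false

namespace Pool.Agent.SD.RPRESX

open Multiplicative

variable {P : Type} [Group P]

/-- the 41 relations hold for the elements `p x` -/
structure Rel (p : Lab → P) : Prop where
  sq : ∀ i, p (P0.sx i) * p (P0.sy i) = p (P0.sz i) * p (P0.sw i)
  tr : ∀ j, p (P0.tx j) * p (P0.ty j) = p (P0.tz j)

theorem conj_zpow {N : Type} [Group N] (α : MulAut N) (f : N →* P) (r : P)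
    (h : ∀ x, f (α x) = r * f x * r⁻¹) (n : ℤ) (x : N) :
    f ((α ^ n) x) = r ^ n * f x * (r ^ n)⁻¹ := by
  induction n using Int.induction_on generalizing x with
  | zero => simp
  | succ n ih =>
    rw [zpow_add_one, MulAut.mul_apply, ih, h, zpow_add_one]; group
  | pred n ih =>
    have h1 : f ((α⁻¹ : MulAut N) x) = r⁻¹ * f x * r := by
      have h2 := h ((α⁻¹ : MulAut N) x)
      rw [MulAut.apply_inv_self] at h2
      rw [h2]; group
    rw [zpow_sub_one, MulAut.mul_apply, ih, h1, zpow_sub_one]; group

section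
variable (p : Lab → P)

/-- `F(t1,t2) → P` -/
def psF : FreeGroup Bool →* P := FreeGroup.lift fun c => if c then p .t1 else p .t2
/-- `F(a,b) → P` -/
def ps0 : FreeGroup Bool →* P := FreeGroup.lift fun c => if c then p .a else p .b
/-- `F(u1,u2,z) → P` -/
def psU : FreeGroup (Option Bool) →* P := FreeGroup.lift fun o => match o with
  | none => p .z
  | some true => p .u1
  | some false => p .u2
/-- `K1 → P` -/
def psK : K1 →* P := FreeGroup.lift fun q =>
  p .r ^ q.1 * (if q.2 then p .a else p .b) * (p .r ^ q.1)⁻¹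

theorem psK_emb (i : ℤ) (x : FreeGroup Bool) :
    psK p (emb i x) = p .r ^ i * ps0 p x * (p .r ^ i)⁻¹ := by
  have : (psK p).comp (emb i) = (MulAut.conj (p .r ^ i)).toMonoidHom.comp (ps0 p) := by
    refine FreeGroup.ext_hom _ _ fun c => ?_
    change psK p (emb i (FreeGroup.of c)) = p .r ^ i * ps0 p (FreeGroup.of c) * (p .r ^ i)⁻¹
    simp [psK, ps0, emb]
  exact DFunLike.congr_fun this x

variable {p} (h : Rel p)
include h

theorem psF_phi (x : FreeGroup Bool) : psF p (phi x) = p .r * psF p x * (p .r)⁻¹ := by
  have h4 : p .r * p .t1 = p .f * p .r := h.sq 4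
  have h5 : p .r * p .t2 = p .t1 * p .r := h.sq 5
  have h6 : p .t1 * p .t2 = p .f := h.tr 1
  have : (psF p).comp phi.toMonoidHom = (MulAut.conj (p .r)).toMonoidHom.comp (psF p) := by
    ext c
    cases c
    · simp [psF, h5]
    · simp [psF, h4, h6]
  have h := DFunLike.congr_fun this x
  simpa using h

theorem psU_sig (x : FreeGroup (Option Bool)) :
    psU p (sig x) = p .si * psU p x * (p .si)⁻¹ := by
  have h4 : p .si * p .u1 = p .g * p .si := h.sq 6
  have h5 : p .si * p .u2 = p .u1 * p .si := h.sq 7
  have h7 : p .si * p .z = p .z * p .si := h.sq 8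
  have h6 : p .u1 * p .u2 = p .g := h.tr 2
  have : (psU p).comp sig.toMonoidHom = (MulAut.conj (p .si)).toMonoidHom.comp (psU p) := by
    ext c
    rcases c with _ | c
    · simp [psU, sig, SigF, h7]
    · cases c
      · simp [psU, sig, SigF, h5]
      · simp [psU, sig, SigF, h4, h6]
  have h := DFunLike.congr_fun this x
  simpa using h

theorem ps0_phi (c : Bool) (x : FreeGroup Bool) :
    ps0 p (phi x) = psF p (FreeGroup.of c) * ps0 p x * (psF p (FreeGroup.of c))⁻¹ := by
  have h0 : p .t1 * p .a = p .d * p .t1 := h.sq 0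
  have h1 : p .t1 * p .b = p .a * p .t1 := h.sq 1
  have h2 : p .t2 * p .a = p .d * p .t2 := h.sq 2
  have h3 : p .t2 * p .b = p .a * p .t2 := h.sq 3
  have h6 : p .a * p .b = p .d := h.tr 0
  have : (ps0 p).comp phi.toMonoidHom =
      (MulAut.conj (psF p (FreeGroup.of c))).toMonoidHom.comp (ps0 p) := by
    ext c'
    cases c <;> cases c' <;> simp [psF, ps0, h0, h1, h2, h3, h6]
  have h := DFunLike.congr_fun this x
  simpa using h

theorem psF_conj (y x : FreeGroup Bool) :
    psF p y * ps0 p x * (psF p y)⁻¹ = ps0 p ((phi ^ (toAdd (eps y))) x) := by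
  have key : ∀ y, (∀ x, psF p y * ps0 p x * (psF p y)⁻¹ = ps0 p ((phi ^ (toAdd (eps y))) x)) := by
    intro y
    induction y using FreeGroup.induction_on with
    | C1 => intro x; simp
    | of c =>
      intro x
      have := ps0_phi h c x
      rw [← this]
      simp [eps]
    | inv_of c ih =>
      intro x
      have := ih ((phi ^ (toAdd (eps (FreeGroup.of c)⁻¹))) x)
      rw [← MulAut.mul_apply, ← zpow_add] at this
      have h2 : toAdd (eps (FreeGroup.of c)) + toAdd (eps (FreeGroup.of c)⁻¹) = 0 := by simp
      rw [h2, zpow_zero, MulAut.one_apply] at this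
      rw [← this, map_inv]
      group
    | mul y y' ih ih' =>
      intro x
      rw [map_mul, map_mul, toAdd_mul, zpow_add, MulAut.mul_apply, ← ih, ← ih', mul_inv_rev]
      group
  exact key y x

/-- `Q → P` -/
def psQ : Q →* P := SemidirectProduct.lift (psF p) (zpowersHom P (p .r)) (by
  intro g
  refine MonoidHom.ext fun x => ?_
  change psF p ((phi ^ (toAdd g)) x) = p .r ^ (toAdd g) * psF p x * (p .r ^ (toAdd g))⁻¹
  exact conj_zpow phi (psF p) (p .r) (psF_phi h) _ _)

/-- `EE → P` -/
def psE : EE →* P := SemidirectProduct.lift (psU p) (zpowersHom P (p .si)) (by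
  intro g
  refine MonoidHom.ext fun x => ?_
  change psU p ((sig ^ (toAdd g)) x) = p .si ^ (toAdd g) * psU p x * (p .si ^ (toAdd g))⁻¹
  exact conj_zpow sig (psU p) (p .si) (psU_sig h) _ _)

theorem psK_F (t : FreeGroup Bool) (k : K1) :
    psK p (Phi (kap t) k) = psF p t * psK p k * (psF p t)⁻¹ := by
  have : (psK p).comp (Phi (kap t)).toMonoidHom =
      (MulAut.conj (psF p t)).toMonoidHom.comp (psK p) := by
    refine FreeGroup.ext_hom _ _ fun q => ?_
    rw [of_eq_emb]
    change psK p (Phi (kap t) (emb q.1 (FreeGroup.of q.2))) =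
      psF p t * psK p (emb q.1 (FreeGroup.of q.2)) * (psF p t)⁻¹
    rw [Phi_emb, psK_emb, psK_emb]
    have h1 : toAdd (kap t) q.1 = toAdd (eps ((phi ^ (-q.1)) t)) := rfl
    rw [h1, ← psF_conj h, conj_zpow phi (psF p) (p .r) (psF_phi h), zpow_neg]
    group
  exact DFunLike.congr_fun this k

omit h in
theorem psK_sh (n : ℤ) (k : K1) :
    psK p ((sh ^ n) k) = p .r ^ n * psK p k * (p .r ^ n)⁻¹ := by
  have : (psK p).comp (sh ^ n).toMonoidHom =
      (MulAut.conj (p .r ^ n)).toMonoidHom.comp (psK p) := by
    refine FreeGroup.ext_hom _ _ fun q => ?_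
    rw [of_eq_emb]
    change psK p ((sh ^ n) (emb q.1 (FreeGroup.of q.2))) =
      p .r ^ n * psK p (emb q.1 (FreeGroup.of q.2)) * (p .r ^ n)⁻¹
    rw [sh_zpow_emb, psK_emb, psK_emb, add_comm, zpow_add]
    group
  exact DFunLike.congr_fun this k

theorem psQ_inl (t : FreeGroup Bool) : psQ h (SemidirectProduct.inl t) = psF p t := by
  simp [psQ]
theorem psQ_inr (g : Multiplicative ℤ) :
    psQ h (SemidirectProduct.inr g) = p .r ^ (toAdd g) := by
  simp [psQ]
theorem psE_inl (t : FreeGroup (Option Bool)) : psE h (SemidirectProduct.inl t) = psU p t := by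
  simp [psE]
theorem psE_inr (g : Multiplicative ℤ) :
    psE h (SemidirectProduct.inr g) = p .si ^ (toAdd g) := by
  simp [psE]

theorem psK_act (q : Q) (k : K1) :
    psK p (actQ q k) = psQ h q * psK p k * (psQ h q)⁻¹ := by
  have hq : q = SemidirectProduct.inl q.left * SemidirectProduct.inr q.right :=
    (SemidirectProduct.inl_left_mul_inr_right q).symm
  have h1 : ∀ t k, actQ (SemidirectProduct.inl t) k = Phi (kap t) k := by
    intro t k; simp [actQ]
  have h2 : ∀ g k, actQ (SemidirectProduct.inr g) k = (sh ^ (toAdd g)) k := by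
    intro t k; simp [actQ]
  rw [hq, map_mul, MulAut.mul_apply, h1, h2, psK_F h, psK_sh, map_mul, psQ_inl, psQ_inr]
  group

/-- `G2 → P` -/
def psG : G2 →* P := SemidirectProduct.lift (psK p) (psQ h) (by
  intro g
  refine MonoidHom.ext fun x => ?_
  change psK p (actQ g x) = psQ h g * psK p x * (psQ h g)⁻¹
  exact psK_act h g x)

theorem psG_inl (k : K1) : psG h (SemidirectProduct.inl k) = psK p k := by
  simp [psG]
theorem psG_inr (g : Q) : psG h (SemidirectProduct.inr g) = psQ h g := by
  simp [psG]

omit h in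
theorem lift_mem {α : Type} (S : Subgroup P) (f : α → P) (hf : ∀ a, f a ∈ S) (x : FreeGroup α) :
    FreeGroup.lift f x ∈ S := by
  induction x using FreeGroup.induction_on with
  | C1 => simp
  | of c => simpa using hf c
  | inv_of c ih => simpa using hf c
  | mul y y' ih ih' => rw [map_mul]; exact S.mul_mem ih ih'

theorem psG_mem (S : Subgroup P) (ha : p .a ∈ S) (hb : p .b ∈ S) (h1 : p .t1 ∈ S)
    (h2 : p .t2 ∈ S) (hr : p .r ∈ S) (g : G2) : psG h g ∈ S := by
  have hg : g = SemidirectProduct.inl g.left * SemidirectProduct.inr g.right :=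
    (SemidirectProduct.inl_left_mul_inr_right g).symm
  have hq : g.right = SemidirectProduct.inl g.right.left * SemidirectProduct.inr g.right.right :=
    (SemidirectProduct.inl_left_mul_inr_right g.right).symm
  rw [hg, map_mul, psG_inl, psG_inr, hq, map_mul, psQ_inl, psQ_inr]
  refine S.mul_mem (lift_mem S _ ?_ _) (S.mul_mem (lift_mem S _ ?_ _) (S.zpow_mem hr _))
  · rintro ⟨i, c⟩
    refine S.mul_mem (S.mul_mem (S.zpow_mem hr _) ?_) (S.inv_mem (S.zpow_mem hr _))
    cases c <;> simpa
  · intro c; cases c <;> simpa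

theorem psE_mem (S : Subgroup P) (h1 : p .u1 ∈ S) (h2 : p .u2 ∈ S) (hz : p .z ∈ S)
    (hs : p .si ∈ S) (g : EE) : psE h g ∈ S := by
  have hg : g = SemidirectProduct.inl g.left * SemidirectProduct.inr g.right :=
    (SemidirectProduct.inl_left_mul_inr_right g).symm
  rw [hg, map_mul, psE_inl, psE_inr]
  refine S.mul_mem (lift_mem S _ ?_ _) (S.zpow_mem hs _)
  intro c
  rcases c with _ | c
  · simpa
  · cases c <;> simpa

theorem comm_GE (g : G2) (e : EE) : Commute (psG h g) (psE h e) := by
  have key : ∀ x, x = p .a ∨ x = p .b ∨ x = p .t1 ∨ x = p .t2 ∨ x = p .r →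
      ∀ e, Commute x (psE h e) := by
    intro x hx e
    have h3 : psE h e ∈ Subgroup.centralizer {x} := by
      have q9 : p .a * p .u1 = p .u1 * p .a := h.sq 9
      have q10 : p .a * p .u2 = p .u2 * p .a := h.sq 10
      have q11 : p .a * p .si = p .si * p .a := h.sq 11
      have q12 : p .a * p .z = p .z * p .a := h.sq 12
      have q13 : p .b * p .u1 = p .u1 * p .b := h.sq 13
      have q14 : p .b * p .u2 = p .u2 * p .b := h.sq 14
      have q15 : p .b * p .si = p .si * p .b := h.sq 15
      have q16 : p .b * p .z = p .z * p .b := h.sq 16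
      have q17 : p .t1 * p .u1 = p .u1 * p .t1 := h.sq 17
      have q18 : p .t1 * p .u2 = p .u2 * p .t1 := h.sq 18
      have q19 : p .t1 * p .si = p .si * p .t1 := h.sq 19
      have q20 : p .t1 * p .z = p .z * p .t1 := h.sq 20
      have q21 : p .t2 * p .u1 = p .u1 * p .t2 := h.sq 21
      have q22 : p .t2 * p .u2 = p .u2 * p .t2 := h.sq 22
      have q23 : p .t2 * p .si = p .si * p .t2 := h.sq 23
      have q24 : p .t2 * p .z = p .z * p .t2 := h.sq 24
      have q25 : p .r * p .u1 = p .u1 * p .r := h.sq 25
      have q26 : p .r * p .u2 = p .u2 * p .r := h.sq 26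
      have q27 : p .r * p .si = p .si * p .r := h.sq 27
      have q28 : p .r * p .z = p .z * p .r := h.sq 28
      rcases hx with rfl | rfl | rfl | rfl | rfl <;> apply psE_mem h <;>
        rw [Subgroup.mem_centralizer_singleton_iff] <;> simp only [*]
    rw [Subgroup.mem_centralizer_singleton_iff] at h3
    exact h3.symm
  have h4 : psG h g ∈ Subgroup.centralizer {psE h e} := by
    apply psG_mem h <;> rw [Subgroup.mem_centralizer_singleton_iff] <;>
      refine (key _ ?_ e) <;> simp
  rw [Subgroup.mem_centralizer_singleton_iff] at h4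
  exact h4

/-- `TT → P` -/
def psT : TT →* P := (psG h).noncommCoprod (psE h) (comm_GE h)

theorem psT_mk (g : G2) (e : EE) : psT h (g, e) = psG h g * psE h e := rfl

theorem psT_AA (x : A0) : Commute (p .ta) (psT h (iA x)) := by
  have q27 : p .r * p .si = p .si * p .r := h.sq 27
  have q29 : p .ta * p .a = p .a * p .ta := h.sq 29
  have q30 : p .ta * p .b = p .b * p .ta := h.sq 30
  have q31 : p .ta * p .w1 = p .w1 * p .ta := h.sq 31
  have q32 : p .ta * p .w2 = p .w2 * p .ta := h.sq 32
  have q33 : p .ta * p .s = p .s * p .ta := h.sq 33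
  have q34 : p .ta * p .z = p .z * p .ta := h.sq 34
  have q11 : p .a * p .si = p .si * p .a := h.sq 11
  have q15 : p .b * p .si = p .si * p .b := h.sq 15
  have r3 : p .u1 * p .t1 = p .w1 := h.tr 3
  have r4 : p .u2 * p .t2 = p .w2 := h.tr 4
  have r5 : p .si * p .r = p .s := h.tr 5
  have q17 : p .t1 * p .u1 = p .u1 * p .t1 := h.sq 17
  have q22 : p .t2 * p .u2 = p .u2 * p .t2 := h.sq 22
  set S : Subgroup P := Subgroup.centralizer {p .ta} with hS
  have hmem : ∀ y, y ∈ S ↔ p .ta * y = y * p .ta := by
    intro y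
    rw [hS, Subgroup.mem_centralizer_singleton_iff]
    exact eq_comm
  suffices hx : psT h (iA x) ∈ S from (hmem _).1 hx
  have hxe : x = SemidirectProduct.inl x.left * SemidirectProduct.inr x.right :=
    (SemidirectProduct.inl_left_mul_inr_right x).symm
  have hq : x.right = SemidirectProduct.inl x.right.left * SemidirectProduct.inr x.right.right :=
    (SemidirectProduct.inl_left_mul_inr_right x.right).symm
  have e1 : ∀ k : K1, psT h (iA (SemidirectProduct.inl k)) = psK p k := by
    intro k
    have : iA (SemidirectProduct.inl k) = (SemidirectProduct.inl k, 1) := by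
      simp [iA]
    rw [this, psT_mk, psG_inl, map_one, mul_one]
  have e2 : ∀ g : EE, psT h (iA (SemidirectProduct.inr g)) = psQ h (fE g) * psE h g := by
    intro g
    have : iA (SemidirectProduct.inr g) = (SemidirectProduct.inr (fE g), g) := by
      simp [iA]
    rw [this, psT_mk, psG_inr]
  rw [hxe, map_mul, map_mul, e1, hq, map_mul, map_mul, map_mul]
  have hs : p .r * p .si ∈ S := by
    rw [hmem, q27, r5, q33]
  refine S.mul_mem (lift_mem S _ ?_ _) (S.mul_mem ?_ ?_)
  · rintro ⟨i, c⟩
    have h1 : Commute (p .r) (p .si) := q27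
    have h2 : (p .r * p .si) ^ i = p .r ^ i * p .si ^ i := h1.mul_zpow i
    have h3 : ∀ y, Commute y (p .si) → y ∈ S → p .r ^ i * y * (p .r ^ i)⁻¹ ∈ S := by
      intro y hy hyS
      have h4 : p .r ^ i * y * (p .r ^ i)⁻¹ = (p .r * p .si) ^ i * y * ((p .r * p .si) ^ i)⁻¹ := by
        rw [h2, mul_inv_rev]
        have h5 : p .si ^ i * y * (p .si ^ i)⁻¹ = y := by
          rw [← (hy.zpow_right i).eq]; group
        calc p .r ^ i * y * (p .r ^ i)⁻¹
            = p .r ^ i * (p .si ^ i * y * (p .si ^ i)⁻¹) * (p .r ^ i)⁻¹ := by rw [h5]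
          _ = _ := by group
      rw [h4]
      exact S.mul_mem (S.mul_mem (S.zpow_mem hs _) hyS) (S.inv_mem (S.zpow_mem hs _))
    cases c
    · exact h3 (p .b) q15 ((hmem _).2 q30)
    · exact h3 (p .a) q11 ((hmem _).2 q29)
  · -- F(u1,u2,z)
    generalize x.right.left = u
    induction u using FreeGroup.induction_on with
    | C1 => simp
    | of c =>
      rw [e2, psE_inl]
      have h3 : fE (SemidirectProduct.inl (FreeGroup.of c)) =
        SemidirectProduct.inl (fD (FreeGroup.of c)) := by simp [fE]
      rw [h3, psQ_inl, hmem]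
      rcases c with _ | c
      · simpa [psU, psF, fD] using q34
      · cases c
        · simpa [psU, psF, fD, q22, r4] using q32
        · simpa [psU, psF, fD, q17, r3] using q31
    | inv_of c ih => simpa using ih
    | mul y y' ih ih' => simp only [map_mul]; exact S.mul_mem ih ih'
  · have h3 : fE (SemidirectProduct.inr x.right.right) =
        SemidirectProduct.inr x.right.right := by simp [fE]
    rw [e2, psE_inr, h3, psQ_inr]
    have h1 : Commute (p .r) (p .si) := q27
    rw [← h1.mul_zpow]
    exact S.zpow_mem hs _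

/-- `RC → P` -/
def psR : RC →* P := HNNExtension.lift (psT h) (p .ta) (by
  rintro ⟨a, x, rfl⟩
  exact psT_AA h x)

theorem psR_labR (x : Lab) : psR h (labR x) = p x := by
  have hof : ∀ y, psR h (HNNExtension.of y) = psT h y := by
    intro y; simp [psR]
  have hk : ∀ k, psT h (kT k) = psK p k := by
    intro k; change psG h (SemidirectProduct.inl k) * psE h 1 = _
    rw [psG_inl, map_one, mul_one]
  have ht : ∀ k, psT h (tT k) = psF p k := by
    intro k; change psG h (SemidirectProduct.inr (SemidirectProduct.inl k)) * psE h 1 = _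
    rw [psG_inr, psQ_inl, map_one, mul_one]
  have hr : psT h rT = p .r := by
    change psG h (SemidirectProduct.inr (SemidirectProduct.inr (ofAdd 1))) * psE h 1 = _
    rw [psG_inr, psQ_inr, (psE h).map_one, mul_one, toAdd_ofAdd, zpow_one]
  have hu : ∀ k, psT h (uT k) = psU p k := by
    intro k; change psG h 1 * psE h (SemidirectProduct.inl k) = _
    rw [psE_inl, map_one, one_mul]
  have hs : psT h sT = p .si := by
    change psG h 1 * psE h (SemidirectProduct.inr (ofAdd 1)) = _
    rw [psE_inr, (psG h).map_one, one_mul, toAdd_ofAdd, zpow_one]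
  have r0 : p .a * p .b = p .d := h.tr 0
  have r1 : p .t1 * p .t2 = p .f := h.tr 1
  have r2 : p .u1 * p .u2 = p .g := h.tr 2
  have r3 : p .u1 * p .t1 = p .w1 := h.tr 3
  have r4 : p .u2 * p .t2 = p .w2 := h.tr 4
  have r5 : p .si * p .r = p .s := h.tr 5
  by_cases hx : x = .ta
  · subst hx; simp [labR, psR]
  · rw [labR, if_neg hx, hof]
    cases x
    all_goals first | (exact absurd rfl hx) | skip
    all_goals simp [labT, hk, ht, hr, hu, hs, psK, psF, psU, r0, r1, r2, r3, r4, r5]

end

/-! ## the relations hold in `RC` -/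

theorem labR_of (x : Lab) (hx : x ≠ .ta) : labR x = HNNExtension.of (labT x) := by
  simp [labR, hx]

theorem hGE (x y : Lab) (hx : (labT x).2 = 1) (hy : (labT y).1 = 1) (hx' : x ≠ .ta)
    (hy' : y ≠ .ta) : labR x * labR y = labR y * labR x := by
  rw [labR_of x hx', labR_of y hy', ← map_mul, ← map_mul]
  congr 1
  ext1
  · rw [Prod.fst_mul, Prod.fst_mul, hy, mul_one, one_mul]
  · rw [Prod.snd_mul, Prod.snd_mul, hx, mul_one, one_mul]

theorem hta (x : Lab) (hx : labT x ∈ AA) (hx' : x ≠ .ta) :
    labR .ta * labR x = labR x * labR .ta := by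
  rw [labR_of x hx']
  have h1 : labR .ta = HNNExtension.t := by simp [labR]
  rw [h1]
  exact HNNExtension.t_mul_of (φ := MulEquiv.refl AA) ⟨labT x, hx⟩

theorem tk (t : FreeGroup Bool) (k : K1) : tT t * kT k = kT (Phi (kap t) k) * tT t := by
  ext1
  · change (SemidirectProduct.inr (SemidirectProduct.inl t) * SemidirectProduct.inl k : G2) =
      SemidirectProduct.inl (Phi (kap t) k) * SemidirectProduct.inr (SemidirectProduct.inl t)
    have h1 : actQ (SemidirectProduct.inl t) k = Phi (kap t) k := by simp [actQ]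
    rw [← h1, SemidirectProduct.inl_aut]
    simp
  · rfl

theorem rt (t : FreeGroup Bool) : rT * tT t = tT (phi t) * rT := by
  ext1
  · change (SemidirectProduct.inr (SemidirectProduct.inr (ofAdd 1)) *
        SemidirectProduct.inr (SemidirectProduct.inl t) : G2) =
      SemidirectProduct.inr (SemidirectProduct.inl (phi t)) *
        SemidirectProduct.inr (SemidirectProduct.inr (ofAdd 1))
    rw [← map_mul, ← map_mul]
    congr 1
    have h1 : (zpowersHom (MulAut (FreeGroup Bool)) phi) (ofAdd 1) t = phi t := by simp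
    rw [← h1, SemidirectProduct.inl_aut]
    simp
  · rfl

theorem su (u : FreeGroup (Option Bool)) : sT * uT u = uT (sig u) * sT := by
  ext1
  · rfl
  · change (SemidirectProduct.inr (ofAdd 1) * SemidirectProduct.inl u : EE) =
      SemidirectProduct.inl (sig u) * SemidirectProduct.inr (ofAdd 1)
    have h1 : (zpowersHom (MulAut (FreeGroup (Option Bool))) sig) (ofAdd 1) u = sig u := by simp
    rw [← h1, SemidirectProduct.inl_aut]
    simp

theorem rk (n : ℤ) (k : K1) : rT ^ n * kT k * (rT ^ n)⁻¹ = kT ((sh ^ n) k) := by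
  have h0 : rT ^ n = (SemidirectProduct.inr (SemidirectProduct.inr (ofAdd n)), 1) := by
    have : (ofAdd n : Multiplicative ℤ) = (ofAdd 1) ^ n := by
      rw [← ofAdd_zsmul]; simp
    rw [this]
    ext1
    · rw [map_zpow, map_zpow]; rfl
    · change (1 : EE) ^ n = 1
      simp
  rw [h0]
  ext1
  · change (SemidirectProduct.inr (SemidirectProduct.inr (ofAdd n)) * SemidirectProduct.inl k *
      (SemidirectProduct.inr (SemidirectProduct.inr (ofAdd n)))⁻¹ : G2) =
      SemidirectProduct.inl ((sh ^ n) k)
    have h1 : actQ (SemidirectProduct.inr (ofAdd n)) k = (sh ^ n) k := by simp [actQ]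
    rw [← h1, SemidirectProduct.inl_aut]
    simp
  · change (1 : EE) * 1 * 1⁻¹ = 1
    simp

theorem phi_kap (c c' : Bool) :
    Phi (kap (FreeGroup.of c)) (FreeGroup.of ((0 : ℤ), c')) = emb 0 (phi (FreeGroup.of c')) := by
  rw [of_eq_emb, Phi_emb]
  have : toAdd (kap (FreeGroup.of c)) 0 = 1 := by
    change toAdd (eps ((phi ^ (-(0 : ℤ))) (FreeGroup.of c))) = 1
    rw [neg_zero, zpow_zero, MulAut.one_apply]
    simp [eps]
  rw [this, zpow_one]

theorem mem_AA_left (k : K1) : kT k ∈ AA :=
  ⟨SemidirectProduct.inl k, by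
    ext1
    · change SemidirectProduct.map (MonoidHom.id K1) fE (fun _ => rfl)
        (SemidirectProduct.inl k) = SemidirectProduct.inl k
      simp
    · rfl⟩

theorem mem_AA_right (e : EE) : ((SemidirectProduct.inr (fE e), e) : TT) ∈ AA :=
  ⟨SemidirectProduct.inr e, by
    ext1
    · change SemidirectProduct.map (MonoidHom.id K1) fE (fun _ => rfl)
        (SemidirectProduct.inr e) = SemidirectProduct.inr (fE e)
      simp
    · rfl⟩

theorem mem_AA_w (o : Option Bool) :
    uT (FreeGroup.of o) * tT (fD (FreeGroup.of o)) ∈ AA := by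
  have h := mem_AA_right (SemidirectProduct.inl (FreeGroup.of o))
  have h1 : fE (SemidirectProduct.inl (FreeGroup.of o)) =
    SemidirectProduct.inl (fD (FreeGroup.of o)) := by simp [fE]
  rw [h1] at h
  have h2 : uT (FreeGroup.of o) * tT (fD (FreeGroup.of o)) =
      ((SemidirectProduct.inr (SemidirectProduct.inl (fD (FreeGroup.of o))),
        SemidirectProduct.inl (FreeGroup.of o)) : TT) := by
    ext1
    · change (1 : G2) * _ = _
      rw [one_mul]; rfl
    · change _ * (1 : EE) = _
      rw [mul_one]; rfl
  rw [h2]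
  exact h

theorem mem_AA_s : sT * rT ∈ AA := by
  have h := mem_AA_right (SemidirectProduct.inr (ofAdd 1))
  have h1 : fE (SemidirectProduct.inr (ofAdd 1)) =
    SemidirectProduct.inr (ofAdd 1) := by simp [fE]
  rw [h1] at h
  have h2 : sT * rT = ((SemidirectProduct.inr (SemidirectProduct.inr (ofAdd 1)),
        SemidirectProduct.inr (ofAdd 1)) : TT) := by
    ext1
    · change (1 : G2) * _ = _
      rw [one_mul]; rfl
    · change _ * (1 : EE) = _
      rw [mul_one]; rfl
  rw [h2]
  exact h

theorem sq_rel : ∀ q ∈ sqL, labR q.1 * labR q.2.1 = labR q.2.2.1 * labR q.2.2.2 := by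
  have hne : ∀ x : Lab, x ≠ .ta → labR x = HNNExtension.of (labT x) := labR_of
  have q0 : labR .t1 * labR .a = labR .d * labR .t1 := by
    rw [hne _ (by decide), hne _ (by decide), hne _ (by decide), ← map_mul, ← map_mul]
    refine congrArg (DFunLike.coe HNNExtension.of) ?_
    change tT _ * kT _ = (kT _ * kT _) * tT _
    rw [tk, phi_kap, phi_true, map_mul, map_mul]
    simp [emb]
  have q1 : labR .t1 * labR .b = labR .a * labR .t1 := by
    rw [hne _ (by decide), hne _ (by decide), hne _ (by decide), ← map_mul, ← map_mul]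
    refine congrArg (DFunLike.coe HNNExtension.of) ?_
    change tT _ * kT _ = kT _ * tT _
    rw [tk, phi_kap, phi_false]
    simp [emb]
  have q2 : labR .t2 * labR .a = labR .d * labR .t2 := by
    rw [hne _ (by decide), hne _ (by decide), hne _ (by decide), ← map_mul, ← map_mul]
    refine congrArg (DFunLike.coe HNNExtension.of) ?_
    change tT _ * kT _ = (kT _ * kT _) * tT _
    rw [tk, phi_kap, phi_true, map_mul, map_mul]
    simp [emb]
  have q3 : labR .t2 * labR .b = labR .a * labR .t2 := by
    rw [hne _ (by decide), hne _ (by decide), hne _ (by decide), ← map_mul, ← map_mul]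
    refine congrArg (DFunLike.coe HNNExtension.of) ?_
    change tT _ * kT _ = kT _ * tT _
    rw [tk, phi_kap, phi_false]
    simp [emb]
  have q4 : labR .r * labR .t1 = labR .f * labR .r := by
    rw [hne _ (by decide), hne _ (by decide), hne _ (by decide), ← map_mul, ← map_mul]
    refine congrArg (DFunLike.coe HNNExtension.of) ?_
    change rT * tT _ = (tT _ * tT _) * rT
    rw [rt, phi_true, map_mul]
  have q5 : labR .r * labR .t2 = labR .t1 * labR .r := by
    rw [hne _ (by decide), hne _ (by decide), hne _ (by decide), ← map_mul, ← map_mul]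
    refine congrArg (DFunLike.coe HNNExtension.of) ?_
    change rT * tT _ = tT _ * rT
    rw [rt, phi_false]
  have q6 : labR .si * labR .u1 = labR .g * labR .si := by
    rw [hne _ (by decide), hne _ (by decide), hne _ (by decide), ← map_mul, ← map_mul]
    refine congrArg (DFunLike.coe HNNExtension.of) ?_
    change sT * uT _ = (uT _ * uT _) * sT
    rw [su, ← map_mul]
    simp [sig, SigF]
  have q7 : labR .si * labR .u2 = labR .u1 * labR .si := by
    rw [hne _ (by decide), hne _ (by decide), hne _ (by decide), ← map_mul, ← map_mul]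
    refine congrArg (DFunLike.coe HNNExtension.of) ?_
    change sT * uT _ = uT _ * sT
    rw [su]
    simp [sig, SigF]
  have q8 : labR .si * labR .z = labR .z * labR .si := by
    rw [hne _ (by decide), hne _ (by decide), ← map_mul, ← map_mul]
    refine congrArg (DFunLike.coe HNNExtension.of) ?_
    change sT * uT _ = uT _ * sT
    rw [su]
    simp [sig, SigF]
  have hw1 : labT .w1 ∈ AA := by
    have := mem_AA_w (some true)
    simpa [labT, fD] using this
  have hw2 : labT .w2 ∈ AA := by
    have := mem_AA_w (some false)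
    simpa [labT, fD] using this
  have hz : labT .z ∈ AA := by
    have := mem_AA_w none
    simpa [labT, fD] using this
  have hs : labT .s ∈ AA := mem_AA_s
  have ha : labT .a ∈ AA := mem_AA_left _
  have hb : labT .b ∈ AA := mem_AA_left _
  simp only [sqL, List.forall_mem_cons, List.not_mem_nil, false_imp_iff, implies_true, and_true]
  refine ⟨q0, q1, q2, q3, q4, q5, q6, q7, q8, ?_, ?_, ?_, ?_, ?_, ?_, ?_, ?_, ?_, ?_, ?_, ?_, ?_,
    ?_, ?_, ?_, ?_, ?_, ?_, ?_, ?_, ?_, ?_, ?_, ?_, ?_⟩
  · exact hGE .a .u1 rfl rfl (by decide) (by decide)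
  · exact hGE .a .u2 rfl rfl (by decide) (by decide)
  · exact hGE .a .si rfl rfl (by decide) (by decide)
  · exact hGE .a .z rfl rfl (by decide) (by decide)
  · exact hGE .b .u1 rfl rfl (by decide) (by decide)
  · exact hGE .b .u2 rfl rfl (by decide) (by decide)
  · exact hGE .b .si rfl rfl (by decide) (by decide)
  · exact hGE .b .z rfl rfl (by decide) (by decide)
  · exact hGE .t1 .u1 rfl rfl (by decide) (by decide)
  · exact hGE .t1 .u2 rfl rfl (by decide) (by decide)
  · exact hGE .t1 .si rfl rfl (by decide) (by decide)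
  · exact hGE .t1 .z rfl rfl (by decide) (by decide)
  · exact hGE .t2 .u1 rfl rfl (by decide) (by decide)
  · exact hGE .t2 .u2 rfl rfl (by decide) (by decide)
  · exact hGE .t2 .si rfl rfl (by decide) (by decide)
  · exact hGE .t2 .z rfl rfl (by decide) (by decide)
  · exact hGE .r .u1 rfl rfl (by decide) (by decide)
  · exact hGE .r .u2 rfl rfl (by decide) (by decide)
  · exact hGE .r .si rfl rfl (by decide) (by decide)
  · exact hGE .r .z rfl rfl (by decide) (by decide)
  · exact hta .a ha (by decide)
  · exact hta .b hb (by decide)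
  · exact hta .w1 hw1 (by decide)
  · exact hta .w2 hw2 (by decide)
  · exact hta .s hs (by decide)
  · exact hta .z hz (by decide)

theorem tr_rel : ∀ q ∈ trL, labR q.1 * labR q.2.1 = labR q.2.2 := by
  have hne : ∀ x : Lab, x ≠ .ta → labR x = HNNExtension.of (labT x) := labR_of
  simp only [trL, List.forall_mem_cons, List.not_mem_nil, false_imp_iff, implies_true, and_true]
  refine ⟨?_, ?_, ?_, ?_, ?_, ?_⟩
  all_goals
    rw [hne _ (by decide), hne _ (by decide), hne _ (by decide), ← map_mul]
    rfl

theorem rel_labR : Rel labR where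
  sq i := sq_rel _ (List.get_mem sqL i)
  tr j := tr_rel _ (List.get_mem trL j)

theorem surj : Function.Surjective piR := by
  have hlab : ∀ x, labR x ∈ piR.range := fun x => ⟨FreeGroup.of x, by simp [piR]⟩
  have hT : ∀ x, x ≠ Lab.ta → labT x ∈ (piR.range).comap HNNExtension.of := by
    intro x hx
    rw [Subgroup.mem_comap, ← labR_of x hx]
    exact hlab x
  set S : Subgroup TT := (piR.range).comap HNNExtension.of with hS
  have hr : rT ∈ S := hT .r (by decide)
  have hs : sT ∈ S := hT .si (by decide)
  have hk : ∀ k, kT k ∈ S := by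
    intro k
    induction k using FreeGroup.induction_on with
    | C1 => simp
    | of q =>
      obtain ⟨i, c⟩ := q
      have h1 := rk i (FreeGroup.of (0, c))
      have h2 : (sh ^ i) (FreeGroup.of ((0 : ℤ), c)) = FreeGroup.of (i, c) := by
        rw [of_eq_emb, sh_zpow_emb]; simp [emb]
      rw [h2] at h1
      rw [← h1]
      refine S.mul_mem (S.mul_mem (S.zpow_mem hr _) ?_) (S.inv_mem (S.zpow_mem hr _))
      cases c
      · exact hT .b (by decide)
      · exact hT .a (by decide)
    | inv_of c ih => rw [map_inv]; exact S.inv_mem ih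
    | mul y y' ih ih' => rw [map_mul]; exact S.mul_mem ih ih'
  have ht : ∀ k, tT k ∈ S := by
    intro k
    induction k using FreeGroup.induction_on with
    | C1 => simp
    | of c =>
      cases c
      · exact hT .t2 (by decide)
      · exact hT .t1 (by decide)
    | inv_of c ih => rw [map_inv]; exact S.inv_mem ih
    | mul y y' ih ih' => rw [map_mul]; exact S.mul_mem ih ih'
  have hu : ∀ k, uT k ∈ S := by
    intro k
    induction k using FreeGroup.induction_on with
    | C1 => simp
    | of c =>
      rcases c with _ | c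
      · exact hT .z (by decide)
      · cases c
        · exact hT .u2 (by decide)
        · exact hT .u1 (by decide)
    | inv_of c ih => rw [map_inv]; exact S.inv_mem ih
    | mul y y' ih ih' => rw [map_mul]; exact S.mul_mem ih ih'
  have hrn : ∀ n : ℤ, ((SemidirectProduct.inr (SemidirectProduct.inr (ofAdd n)), 1) : TT) ∈ S := by
    intro n
    have h0 : ((SemidirectProduct.inr (SemidirectProduct.inr (ofAdd n)), 1) : TT) = rT ^ n := by
      have : (ofAdd n : Multiplicative ℤ) = (ofAdd 1) ^ n := by
        rw [← ofAdd_zsmul]; simp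
      rw [this]
      ext1
      · rw [map_zpow, map_zpow]; rfl
      · change 1 = (1 : EE) ^ n
        simp
    rw [h0]; exact S.zpow_mem hr n
  have hsn : ∀ n : ℤ, ((1, SemidirectProduct.inr (ofAdd n)) : TT) ∈ S := by
    intro n
    have h0 : ((1, SemidirectProduct.inr (ofAdd n)) : TT) = sT ^ n := by
      have : (ofAdd n : Multiplicative ℤ) = (ofAdd 1) ^ n := by
        rw [← ofAdd_zsmul]; simp
      rw [this]
      ext1
      · change 1 = (1 : G2) ^ n
        simp
      · rw [map_zpow]; rfl
    rw [h0]; exact S.zpow_mem hs n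
  have hall : ∀ x : TT, x ∈ S := by
    rintro ⟨g, e⟩
    have e1 : ((g, e) : TT) = kT g.left * tT g.right.left *
        (SemidirectProduct.inr (SemidirectProduct.inr (ofAdd (toAdd g.right.right))), 1) *
        uT e.left * (1, SemidirectProduct.inr (ofAdd (toAdd e.right))) := by
      ext1
      · change g = SemidirectProduct.inl g.left *
          SemidirectProduct.inr (SemidirectProduct.inl g.right.left) *
          SemidirectProduct.inr (SemidirectProduct.inr g.right.right) * 1 * 1
        rw [mul_one, mul_one, mul_assoc, ← map_mul, SemidirectProduct.inl_left_mul_inr_right,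
          SemidirectProduct.inl_left_mul_inr_right]
      · change e = 1 * 1 * 1 * SemidirectProduct.inl e.left * SemidirectProduct.inr e.right
        rw [one_mul, one_mul, one_mul, SemidirectProduct.inl_left_mul_inr_right]
    rw [e1]
    exact S.mul_mem (S.mul_mem (S.mul_mem (S.mul_mem (hk _) (ht _)) (hrn _)) (hu _)) (hsn _)
  intro x
  change x ∈ piR.range
  induction x using HNNExtension.induction_on with
  | of g => exact hall g
  | t =>
    have := hlab .ta
    simpa [labR] using this
  | mul x y hx hy => exact Subgroup.mul_mem _ hx hy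
  | inv x hx => exact Subgroup.inv_mem _ hx

end Pool.Agent.SD.RPRESX

namespace Pool.Agent.SD

theorem rpres_proof : Stmt_RPres := by
  refine ⟨RPRESX.surj, le_antisymm ?_ ?_⟩
  · -- kernel is contained in the normal closure
    have : LL.Normal := Subgroup.normalClosure_normal
    have hrel : RPRESX.Rel (fun x => (QuotientGroup.mk (FreeGroup.of x) : FreeGroup Lab ⧸ LL)) := by
      constructor
      · intro i
        have h1 : P0.rel (Sum.inl i) ∈ LL := Subgroup.subset_normalClosure ⟨_, rfl⟩
        have h2 := (QuotientGroup.eq_one_iff (N := LL) _).2 h1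
        simp only [SqPres.rel, QuotientGroup.mk_mul, QuotientGroup.mk_inv] at h2
        rw [mul_inv_eq_one, mul_inv_eq_iff_eq_mul] at h2
        exact h2
      · intro j
        have h1 : P0.rel (Sum.inr j) ∈ LL := Subgroup.subset_normalClosure ⟨_, rfl⟩
        have h2 := (QuotientGroup.eq_one_iff (N := LL) _).2 h1
        simp only [SqPres.rel, QuotientGroup.mk_mul, QuotientGroup.mk_inv] at h2
        rw [mul_inv_eq_one] at h2
        exact h2
    have hcomp : (RPRESX.psR hrel).comp piR = QuotientGroup.mk' LL := by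
      refine FreeGroup.ext_hom _ _ fun x => ?_
      change RPRESX.psR hrel (piR (FreeGroup.of x)) = QuotientGroup.mk (FreeGroup.of x)
      have h1 : piR (FreeGroup.of x) = labR x := by simp [piR]
      rw [h1, RPRESX.psR_labR hrel]
    intro w hw
    have h1 : (QuotientGroup.mk' LL) w = 1 := by
      rw [← hcomp, MonoidHom.comp_apply, (MonoidHom.mem_ker).1 hw, map_one]
    exact (QuotientGroup.eq_one_iff w).1 h1
  · have : LL.Normal := Subgroup.normalClosure_normal
    refine Subgroup.normalClosure_le_normal ?_
    rintro _ ⟨k, rfl⟩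
    change piR _ = 1
    have hof : ∀ x, piR (FreeGroup.of x) = labR x := by intro x; simp [piR]
    rcases k with i | j
    · simp only [SqPres.rel, map_mul, map_inv, hof]
      rw [mul_inv_eq_one, mul_inv_eq_iff_eq_mul]
      exact RPRESX.rel_labR.sq i
    · simp only [SqPres.rel, map_mul, map_inv, hof]
      rw [mul_inv_eq_one]
      exact RPRESX.rel_labR.tr j

end Pool.Agent.SD
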