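import Mathlib
import Pool.Agent.SD.Sys

/-!
# Squad SD: the oriented system of VH data
-/

set_option autoImplicit false

namespace Pool.Agent.SD

namespace SysX

variable {H V S : Type} (D : VHData H V S)

/-- the oriented corners of the square `s` -/
def Cor (s : S) (a : H × Bool) (b b' : V × Bool) (a' : H × Bool) : Prop :=
  (a = (D.h s, true) ∧ b = (D.v s, true) ∧ b' = (D.v' s, true) ∧ a' = (D.h' s, true)) ∨
  (a = (D.h s, false) ∧ b = (D.v' s, true) ∧ b' = (D.v s, true) ∧ a' = (D.h' s, false)) ∨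
  (a = (D.h' s, true) ∧ b = (D.v s, false) ∧ b' = (D.v' s, false) ∧ a' = (D.h s, true)) ∨
  (a = (D.h' s, false) ∧ b = (D.v' s, false) ∧ b' = (D.v s, false) ∧ a' = (D.h s, false))

open Classical in
/-- the rule -/
noncomputable def rule : H × Bool → V × Bool → Option ((V × Bool) × (H × Bool))
  | (x, true), (y, true) =>
    if h : ∃ s, D.h s = x ∧ D.v s = y then
      some ((D.v' h.choose, true), (D.h' h.choose, true)) else none
  | (x, false), (y, true) =>
    if h : ∃ s, D.h s = x ∧ D.v' s = y then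
      some ((D.v h.choose, true), (D.h' h.choose, false)) else none
  | (x, true), (y, false) =>
    if h : ∃ s, D.h' s = x ∧ D.v s = y then
      some ((D.v' h.choose, false), (D.h h.choose, true)) else none
  | (x, false), (y, false) =>
    if h : ∃ s, D.h' s = x ∧ D.v' s = y then
      some ((D.v h.choose, false), (D.h h.choose, false)) else none

variable {D}

lemma rule_of_cor {s : S} {a : H × Bool} {b b' : V × Bool} {a' : H × Bool}
    (hc : Cor D s a b b' a') : rule D a b = some (b', a') := by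
  rcases hc with ⟨rfl, rfl, rfl, rfl⟩ | ⟨rfl, rfl, rfl, rfl⟩ | ⟨rfl, rfl, rfl, rfl⟩ |
    ⟨rfl, rfl, rfl, rfl⟩
  · have h : ∃ s', D.h s' = D.h s ∧ D.v s' = D.v s := ⟨s, rfl, rfl⟩
    have h1 : h.choose = s := D.inj_hv (Prod.ext h.choose_spec.1 h.choose_spec.2)
    simp only [rule]
    rw [dif_pos h, h1]
  · have h : ∃ s', D.h s' = D.h s ∧ D.v' s' = D.v' s := ⟨s, rfl, rfl⟩
    have h1 : h.choose = s := D.inj_hv' (Prod.ext h.choose_spec.1 h.choose_spec.2)
    simp only [rule]
    rw [dif_pos h, h1]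
  · have h : ∃ s', D.h' s' = D.h' s ∧ D.v s' = D.v s := ⟨s, rfl, rfl⟩
    have h1 : h.choose = s := D.inj_h'v (Prod.ext h.choose_spec.1 h.choose_spec.2)
    simp only [rule]
    rw [dif_pos h, h1]
  · have h : ∃ s', D.h' s' = D.h' s ∧ D.v' s' = D.v' s := ⟨s, rfl, rfl⟩
    have h1 : h.choose = s := D.inj_h'v' (Prod.ext h.choose_spec.1 h.choose_spec.2)
    simp only [rule]
    rw [dif_pos h, h1]

lemma cor_of_rule {a : H × Bool} {b b' : V × Bool} {a' : H × Bool}
    (hr : rule D a b = some (b', a')) : ∃ s, Cor D s a b b' a' := by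
  obtain ⟨x, cx⟩ := a
  obtain ⟨y, cy⟩ := b
  cases cx <;> cases cy <;> simp only [rule] at hr <;> split_ifs at hr with h <;>
    simp only [Option.some.injEq, Prod.mk.injEq] at hr <;>
    obtain ⟨rfl, rfl⟩ := hr <;> refine ⟨h.choose, ?_⟩ <;>
    simp [Cor, h.choose_spec.1, h.choose_spec.2]

lemma cor_sym1 {s : S} {a : H × Bool} {b b' : V × Bool} {a' : H × Bool}
    (hc : Cor D s a b b' a') : Cor D s (a.1, !a.2) b' b (a'.1, !a'.2) := by
  rcases hc with ⟨rfl, rfl, rfl, rfl⟩ | ⟨rfl, rfl, rfl, rfl⟩ | ⟨rfl, rfl, rfl, rfl⟩ |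
    ⟨rfl, rfl, rfl, rfl⟩ <;> simp [Cor]

lemma cor_sym2 {s : S} {a : H × Bool} {b b' : V × Bool} {a' : H × Bool}
    (hc : Cor D s a b b' a') : Cor D s a' (b.1, !b.2) (b'.1, !b'.2) a := by
  rcases hc with ⟨rfl, rfl, rfl, rfl⟩ | ⟨rfl, rfl, rfl, rfl⟩ | ⟨rfl, rfl, rfl, rfl⟩ |
    ⟨rfl, rfl, rfl, rfl⟩ <;> simp [Cor]

end SysX

open SysX in
theorem sys_proof : Stmt_Sys := by
  intro H V S D
  refine ⟨{ ia := fun a => (a.1, !a.2)
            ib := fun b => (b.1, !b.2)
            ia_ia := fun a => by simp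
            ib_ib := fun b => by simp
            ia_ne := fun a h => by
              have := congrArg Prod.snd h
              simp at this
            ib_ne := fun b h => by
              have := congrArg Prod.snd h
              simp at this
            rule := rule D
            sym1 := fun a b b' a' h => by
              obtain ⟨s, hs⟩ := cor_of_rule h
              exact rule_of_cor (cor_sym1 hs)
            sym2 := fun a b b' a' h => by
              obtain ⟨s, hs⟩ := cor_of_rule h
              exact rule_of_cor (cor_sym2 hs) }, fun a => rfl, fun b => rfl, ?_, ?_⟩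
  · intro s
    exact rule_of_cor (s := s) (Or.inl ⟨rfl, rfl, rfl, rfl⟩)
  · intro a b b' a' h
    exact cor_of_rule h

end Pool.Agent.SD
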