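import Mathlib
import Pool.Agent.SD.Sys
import Pool.Agent.SD.Stmts

/-!
# Squad SD: asphericity of VH complexes with values in a crossed module (van der Waerden)
-/

set_option autoImplicit false
set_option linter.unusedSectionVars false

namespace Pool.Agent.SD

namespace VdwX

lemma perm_ais {α : Type} (e : Equiv.Perm α) (x : α) : e (e⁻¹ x) = x :=
  Equiv.apply_symm_apply e x

section gen

variable {A B M : Type} [DecidableEq A] [DecidableEq B] [Group M] (σ : Sys A B)

/-- crossed data on an oriented VH system -/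
structure Cr (rl : A → MulAut M) (rb : B → MulAut M) (v : A → B → M) : Prop where
  rli : ∀ a, rl (σ.ia a) = (rl a)⁻¹
  rbi : ∀ b, rb (σ.ib b) = (rb b)⁻¹
  s1 : ∀ a b b' a', σ.rule a b = some (b', a') → v (σ.ia a) b' = (rl a)⁻¹ (v a b)⁻¹
  s2 : ∀ a b b' a', σ.rule a b = some (b', a') → v a' (σ.ib b) = (rb b')⁻¹ (v a b)⁻¹
  cj : ∀ a b b' a' m, σ.rule a b = some (b', a') →
    rl a (rb b m) = v a b * rb b' (rl a' m) * (v a b)⁻¹

/-- the cocycle, horizontal letters -/
def kapA (rb : B → MulAut M) (v : A → B → M) : List (A ⊕ B) → A → M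
  | [], _ => 1
  | Sum.inl _ :: _, _ => 1
  | Sum.inr b :: w, a =>
    match σ.rule a b with
    | none => 1
    | some (b', a') => v a b * rb b' (kapA rb v w a')

/-- the cocycle -/
def kap (rb : B → MulAut M) (v : A → B → M) : A ⊕ B → List (A ⊕ B) → M
  | Sum.inl a, w => kapA σ rb v w a
  | Sum.inr _, _ => 1

variable {σ} {rl : A → MulAut M} {rb : B → MulAut M} {v : A → B → M}

lemma kapA_none {a : A} {b : B} {w : List (A ⊕ B)} (h : σ.rule a b = none) :
    kapA σ rb v (Sum.inr b :: w) a = 1 := by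
  simp only [kapA, h]

lemma kapA_some {a : A} {b : B} {w : List (A ⊕ B)} {b' : B} {a' : A}
    (h : σ.rule a b = some (b', a')) :
    kapA σ rb v (Sum.inr b :: w) a = v a b * rb b' (kapA σ rb v w a') := by
  simp only [kapA, h]

lemma NF_tail {x : A ⊕ B} {w : List (A ⊕ B)} (h : σ.NF (x :: w)) : σ.NF w := by
  cases w with
  | nil => trivial
  | cons y l => exact h.2.2

/-- the letter which begins a normal form does not interact with the rest -/
lemma kapA_head {a : A} {w : List (A ⊕ B)} (h : σ.NF (Sum.inl a :: w)) :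
    kapA σ rb v w a = 1 := by
  cases w with
  | nil => rfl
  | cons y l =>
    cases y with
    | inl c => rfl
    | inr b => exact kapA_none (h.2.1 a b rfl rfl)

variable (hN : (∀ x w, σ.NF w → σ.NF (σ.star x w)) ∧
    (∀ x w, σ.NF w → σ.star (σ.inv x) (σ.star x w) = w) ∧
    (∀ a b b' a' w, σ.rule a b = some (b', a') → σ.NF w →
      σ.star (Sum.inl a) (σ.star (Sum.inr b) w) = σ.star (Sum.inr b') (σ.star (Sum.inl a') w)) ∧
    (∀ x w, σ.NF w → (σ.star x w).length = w.length + 1 ∨ (σ.star x w).length + 1 = w.length) ∧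
    (∀ x w, σ.NF (x :: w) → σ.star x w = x :: w) ∧
    (∀ a b b' a' w, σ.rule a b = some (b', a') → σ.NF (Sum.inr b :: w) →
      σ.star (Sum.inl a) (Sum.inr b :: w) = Sum.inr b' :: σ.star (Sum.inl a') w))

include hN in
lemma inv_kapA (hC : Cr σ rl rb v) (w : List (A ⊕ B)) (hw : σ.NF w) (a : A) :
    (rl a)⁻¹ (kapA σ rb v w a) * kapA σ rb v (σ.starA w a) (σ.ia a) = 1 := by
  induction w generalizing a with
  | nil => simp [Sys.starA, kapA]
  | cons x w ih =>
    cases x with
    | inl c =>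
      by_cases hc : c = σ.ia a
      · have h1 : σ.starA (Sum.inl c :: w) a = w := by simp [Sys.starA, hc]
        rw [h1]
        have h2 : kapA σ rb v w (σ.ia a) = 1 := by
          subst hc
          exact kapA_head hw
        rw [h2]
        simp [kapA]
      · have h1 : σ.starA (Sum.inl c :: w) a = Sum.inl a :: Sum.inl c :: w := by
          simp [Sys.starA, hc]
        rw [h1]
        simp [kapA]
    | inr b =>
      rcases hr : σ.rule a b with _ | ⟨b', a'⟩
      · have h1 : σ.starA (Sum.inr b :: w) a = Sum.inl a :: Sum.inr b :: w := by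
          simp [Sys.starA, hr]
        rw [h1, kapA_none hr]
        simp [kapA]
      · have h1 : σ.starA (Sum.inr b :: w) a = Sum.inr b' :: σ.starA w a' :=
          hN.2.2.2.2.2 a b b' a' w hr hw
        have h2 := σ.sym1 a b b' a' hr
        rw [h1, kapA_some hr, kapA_some h2, hC.s1 a b b' a' hr]
        have h3 := ih (NF_tail hw) a'
        set k := kapA σ rb v w a' with hk
        have h4 : kapA σ rb v (σ.starA w a') (σ.ia a') = ((rl a')⁻¹ k)⁻¹ :=
          eq_inv_of_mul_eq_one_right h3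
        rw [h4]
        have h5 := hC.cj a b b' a' ((rl a')⁻¹ k) hr
        rw [MulAut.apply_inv_self] at h5
        have h6 : rb b ((rl a')⁻¹ k) = (rl a)⁻¹ (v a b * rb b' k * (v a b)⁻¹) := by
          rw [← h5, MulAut.inv_apply_self]
        rw [map_inv (rb b), h6, ← map_inv, ← map_mul, ← map_mul]
        have h7 : v a b * rb b' k * ((v a b)⁻¹ * (v a b * rb b' k * (v a b)⁻¹)⁻¹) = 1 := by
          group
        rw [h7, map_one]

lemma kapA_pushB (hC : Cr σ rl rb v) {a : A} {b : B} {b' : B} {a' : A}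
    (hr : σ.rule a b = some (b', a')) (w : List (A ⊕ B)) :
    kapA σ rb v (σ.pushB b w) a = v a b * rb b' (kapA σ rb v w a') := by
  have gen : σ.pushB b w = Sum.inr b :: w →
      kapA σ rb v (σ.pushB b w) a = v a b * rb b' (kapA σ rb v w a') := fun h => by
    rw [h, kapA_some hr]
  cases w with
  | nil => exact gen rfl
  | cons x w =>
    cases x with
    | inl c => exact gen rfl
    | inr c =>
      by_cases hc : c = σ.ib b
      · subst hc
        have h1 : σ.pushB b (Sum.inr (σ.ib b) :: w) = w := by simp [Sys.pushB]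
        have h2 := σ.sym2 a b b' a' hr
        rw [h1, kapA_some h2, hC.s2 a b b' a' hr, hC.rbi, map_mul, MulAut.apply_inv_self,
          MulAut.apply_inv_self, mul_inv_cancel_left]
      · exact gen (by simp [Sys.pushB, hc])

/-- the letters acting on `M` -/
def rr (rl : A → MulAut M) (rb : B → MulAut M) : A ⊕ B → MulAut M := Sum.elim rl rb

/-- the space -/
abbrev Om (M : Type) (σ : Sys A B) : Type := M × {w : List (A ⊕ B) // σ.NF w}

/-- the permutations `τ_x` -/
def tau (rl : A → MulAut M) (rb : B → MulAut M) (v : A → B → M)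
    (x : A ⊕ B) (p : Om M σ) : Om M σ :=
  (rr rl rb x p.1 * kap σ rb v x p.2.1, ⟨σ.star x p.2.1, hN.1 x p.2.1 p.2.2⟩)

lemma inv_inv' (x : A ⊕ B) : σ.inv (σ.inv x) = x := by
  cases x with
  | inl a => simp [Sys.inv, σ.ia_ia]
  | inr b => simp [Sys.inv, σ.ib_ib]

lemma rr_inv (hC : Cr σ rl rb v) (x : A ⊕ B) : rr rl rb (σ.inv x) = (rr rl rb x)⁻¹ := by
  cases x with
  | inl a => simp [Sys.inv, rr, hC.rli]
  | inr b => simp [Sys.inv, rr, hC.rbi]

lemma tau_inv (hC : Cr σ rl rb v) (x : A ⊕ B) (p : Om M σ) :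
    tau hN rl rb v (σ.inv x) (tau hN rl rb v x p) = p := by
  obtain ⟨m, w, hw⟩ := p
  have h2 : σ.star (σ.inv x) (σ.star x w) = w := hN.2.1 x w hw
  refine Prod.ext ?_ (Subtype.ext h2)
  change rr rl rb (σ.inv x) (rr rl rb x m * kap σ rb v x w) *
    kap σ rb v (σ.inv x) (σ.star x w) = m
  rw [rr_inv hC, map_mul, MulAut.inv_apply_self, mul_assoc]
  have h3 : (rr rl rb x)⁻¹ (kap σ rb v x w) * kap σ rb v (σ.inv x) (σ.star x w) = 1 := by
    cases x with
    | inl a => exact inv_kapA hN hC w hw a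
    | inr b => simp [kap, Sys.inv]
  rw [h3, mul_one]

/-- the permutation `τ_x` -/
def tauE (hC : Cr σ rl rb v) (x : A ⊕ B) : Equiv.Perm (Om M σ) where
  toFun := tau hN rl rb v x
  invFun := tau hN rl rb v (σ.inv x)
  left_inv p := tau_inv hN hC x p
  right_inv p := by
    have := tau_inv hN hC (σ.inv x) p
    rwa [inv_inv'] at this

lemma tauE_inv (hC : Cr σ rl rb v) (x : A ⊕ B) :
    (tauE hN hC x)⁻¹ = tauE hN hC (σ.inv x) := by
  ext1 p
  rfl

/-- left multiplication -/
def lm (c : M) (p : Om M σ) : Om M σ := (c * p.1, p.2)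

lemma tau_lm (x : A ⊕ B) (c : M) (p : Om M σ) :
    tau hN rl rb v x (lm c p) = lm (rr rl rb x c) (tau hN rl rb v x p) := by
  refine Prod.ext ?_ rfl
  change rr rl rb x (c * p.1) * _ = rr rl rb x c * (rr rl rb x p.1 * _)
  rw [map_mul, mul_assoc]
  rfl

lemma tau_rule (hC : Cr σ rl rb v) {a : A} {b : B} {b' : B} {a' : A}
    (hr : σ.rule a b = some (b', a')) (p : Om M σ) :
    tau hN rl rb v (Sum.inl a) (tau hN rl rb v (Sum.inr b) p) =
      lm (v a b) (tau hN rl rb v (Sum.inr b') (tau hN rl rb v (Sum.inl a') p)) := by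
  obtain ⟨m, w, hw⟩ := p
  refine Prod.ext ?_ (Subtype.ext (hN.2.2.1 a b b' a' w hr hw))
  change rl a (rb b m * 1) * kapA σ rb v (σ.pushB b w) a =
    v a b * (rb b' (rl a' m * kapA σ rb v w a') * 1)
  rw [kapA_pushB hC hr, mul_one, mul_one, hC.cj a b b' a' m hr, map_mul]
  group

end gen

section app

variable {H V S : Type} (D : VHData H V S) {M : Type} [Group M]
  (ρ : FreeGroup (H ⊕ V) →* MulAut M) (val : S → M)

open Classical in
/-- the values of the oriented corners -/
noncomputable def vv : H × Bool → V × Bool → M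
  | (x, true), (y, true) => if h : ∃ s, D.h s = x ∧ D.v s = y then val h.choose else 1
  | (x, false), (y, true) =>
    if h : ∃ s, D.h s = x ∧ D.v' s = y then (ρ (gH x))⁻¹ (val h.choose)⁻¹ else 1
  | (x, true), (y, false) =>
    if h : ∃ s, D.h' s = x ∧ D.v s = y then (ρ (gV (D.v' h.choose)))⁻¹ (val h.choose)⁻¹ else 1
  | (x, false), (y, false) =>
    if h : ∃ s, D.h' s = x ∧ D.v' s = y then
      (ρ (gH (D.h h.choose) * gV (D.v h.choose)))⁻¹ (val h.choose) else 1

lemma vv1 (s : S) : vv D ρ val (D.h s, true) (D.v s, true) = val s := by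
  have h : ∃ s', D.h s' = D.h s ∧ D.v s' = D.v s := ⟨s, rfl, rfl⟩
  have h1 : h.choose = s := D.inj_hv (Prod.ext h.choose_spec.1 h.choose_spec.2)
  simp only [vv]
  rw [dif_pos h, h1]

lemma vv2 (s : S) : vv D ρ val (D.h s, false) (D.v' s, true) = (ρ (gH (D.h s)))⁻¹ (val s)⁻¹ := by
  have h : ∃ s', D.h s' = D.h s ∧ D.v' s' = D.v' s := ⟨s, rfl, rfl⟩
  have h1 : h.choose = s := D.inj_hv' (Prod.ext h.choose_spec.1 h.choose_spec.2)
  simp only [vv]
  rw [dif_pos h, h1]

lemma vv3 (s : S) : vv D ρ val (D.h' s, true) (D.v s, false) =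
    (ρ (gV (D.v' s)))⁻¹ (val s)⁻¹ := by
  have h : ∃ s', D.h' s' = D.h' s ∧ D.v s' = D.v s := ⟨s, rfl, rfl⟩
  have h1 : h.choose = s := D.inj_h'v (Prod.ext h.choose_spec.1 h.choose_spec.2)
  simp only [vv]
  rw [dif_pos h, h1]

lemma vv4 (s : S) : vv D ρ val (D.h' s, false) (D.v' s, false) =
    (ρ (gH (D.h s) * gV (D.v s)))⁻¹ (val s) := by
  have h : ∃ s', D.h' s' = D.h' s ∧ D.v' s' = D.v' s := ⟨s, rfl, rfl⟩
  have h1 : h.choose = s := D.inj_h'v' (Prod.ext h.choose_spec.1 h.choose_spec.2)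
  simp only [vv]
  rw [dif_pos h, h1]

/-- horizontal letters acting on `M` -/
def rl (a : H × Bool) : MulAut M :=
  if a.2 then ρ (gH a.1) else (ρ (gH a.1))⁻¹

/-- vertical letters acting on `M` -/
def rb (b : V × Bool) : MulAut M :=
  if b.2 then ρ (gV b.1) else (ρ (gV b.1))⁻¹

variable {D ρ val}

lemma keyK (hc : ∀ s m, ρ (D.word s) m = val s * m * (val s)⁻¹) (s : S) (m : M) :
    ρ (gH (D.h s)) (ρ (gV (D.v s)) m) =
      val s * ρ (gV (D.v' s)) (ρ (gH (D.h' s)) m) * (val s)⁻¹ := by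
  rw [← hc]
  simp [VHData.word]

lemma cr (σ : Sys (H × Bool) (V × Bool)) (hia : ∀ a, σ.ia a = (a.1, !a.2))
    (hib : ∀ b, σ.ib b = (b.1, !b.2))
    (hrule : ∀ a b b' a', σ.rule a b = some (b', a') → ∃ s,
      (a = (D.h s, true) ∧ b = (D.v s, true) ∧ b' = (D.v' s, true) ∧ a' = (D.h' s, true)) ∨
      (a = (D.h s, false) ∧ b = (D.v' s, true) ∧ b' = (D.v s, true) ∧ a' = (D.h' s, false)) ∨
      (a = (D.h' s, true) ∧ b = (D.v s, false) ∧ b' = (D.v' s, false) ∧ a' = (D.h s, true)) ∨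
      (a = (D.h' s, false) ∧ b = (D.v' s, false) ∧ b' = (D.v s, false) ∧ a' = (D.h s, false)))
    (hc : ∀ s m, ρ (D.word s) m = val s * m * (val s)⁻¹) :
    Cr σ (rl ρ) (rb ρ) (vv D ρ val) := by
  have hK := keyK hc
  -- `(ρ(hv))⁻¹ (val x val⁻¹) = (ρ(v'h'))⁻¹ x`
  have hK4 : ∀ s m, (ρ (gV (D.v s)))⁻¹ ((ρ (gH (D.h s)))⁻¹ (val s * m * (val s)⁻¹)) =
      (ρ (gH (D.h' s)))⁻¹ ((ρ (gV (D.v' s)))⁻¹ m) := by
    intro s m
    have h := hK s ((ρ (gH (D.h' s)))⁻¹ ((ρ (gV (D.v' s)))⁻¹ m))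
    rw [MulAut.apply_inv_self, MulAut.apply_inv_self] at h
    rw [← h, MulAut.inv_apply_self, MulAut.inv_apply_self]
  have hK5 : ∀ s, (ρ (gV (D.v s)))⁻¹ ((ρ (gH (D.h s)))⁻¹ (val s)) =
      (ρ (gH (D.h' s)))⁻¹ ((ρ (gV (D.v' s)))⁻¹ (val s)) := by
    intro s
    have := hK4 s (val s)
    rwa [mul_inv_cancel_right] at this
  refine ⟨?_, ?_, ?_, ?_, ?_⟩
  · intro a
    rw [hia]
    obtain ⟨x, c⟩ := a
    cases c <;> simp [rl]
  · intro b
    rw [hib]
    obtain ⟨x, c⟩ := b
    cases c <;> simp [rb]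
  · intro a b b' a' hr
    rw [hia]
    obtain ⟨s, ⟨rfl, rfl, rfl, rfl⟩ | ⟨rfl, rfl, rfl, rfl⟩ | ⟨rfl, rfl, rfl, rfl⟩ |
      ⟨rfl, rfl, rfl, rfl⟩⟩ := hrule a b b' a' hr
    · simp only [Bool.not_true]
      rw [vv1, vv2]; rfl
    · simp only [Bool.not_false]
      rw [vv1, vv2]
      simp [rl]
    · simp only [Bool.not_true]
      rw [vv3, vv4]
      simp only [rl, if_true, map_inv, inv_inv, map_mul, mul_inv_rev, MulAut.mul_apply]
      exact hK5 s
    · simp only [Bool.not_false]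
      rw [vv3, vv4]
      simp only [rl, map_inv, map_mul, mul_inv_rev, MulAut.mul_apply]
      rw [hK5 s]
      simp
  · intro a b b' a' hr
    rw [hib]
    obtain ⟨s, ⟨rfl, rfl, rfl, rfl⟩ | ⟨rfl, rfl, rfl, rfl⟩ | ⟨rfl, rfl, rfl, rfl⟩ |
      ⟨rfl, rfl, rfl, rfl⟩⟩ := hrule a b b' a' hr
    · simp only [Bool.not_true]
      rw [vv1, vv3]; rfl
    · simp only [Bool.not_true]
      rw [vv2, vv4]
      simp [rb]
    · simp only [Bool.not_false]
      rw [vv1, vv3]
      simp [rb]
    · simp only [Bool.not_false]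
      rw [vv2, vv4]
      simp [rb]
  · intro a b b' a' m hr
    obtain ⟨s, ⟨rfl, rfl, rfl, rfl⟩ | ⟨rfl, rfl, rfl, rfl⟩ | ⟨rfl, rfl, rfl, rfl⟩ |
      ⟨rfl, rfl, rfl, rfl⟩⟩ := hrule a b b' a' hr
    · rw [vv1]
      exact hK s m
    · rw [vv2]
      simp only [rl, rb, if_true, Bool.false_eq_true, if_false]
      apply (ρ (gH (D.h s))).injective
      simp only [map_mul, map_inv, MulAut.apply_inv_self, inv_inv]
      rw [hK, MulAut.apply_inv_self]
      group
    · rw [vv3]
      simp only [rl, rb, if_true, Bool.false_eq_true, if_false]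
      apply (ρ (gV (D.v' s))).injective
      have h := hK s ((ρ (gV (D.v s)))⁻¹ m)
      rw [MulAut.apply_inv_self] at h
      simp only [map_mul, map_inv, MulAut.apply_inv_self, inv_inv]
      rw [h]
      group
    · rw [vv4]
      simp only [rl, rb, Bool.false_eq_true, if_false, map_mul, mul_inv_rev, MulAut.mul_apply]
      rw [← hK4]
      simp only [map_mul, map_inv]

end app

end VdwX

open VdwX in
theorem vdw_proof (hNFS : Stmt_NFS) (hSys : Stmt_Sys) : Stmt_VdW := by
  classical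
  intro H V S D M _ ρ val hconj
  obtain ⟨σ, hia, hib, hpos, hrule⟩ := hSys H V S D
  have hN := hNFS (H × Bool) (V × Bool) σ
  have hC : Cr σ (rl ρ) (rb ρ) (vv D ρ val) := cr σ hia hib hrule hconj
  let pos : H ⊕ V → (H × Bool) ⊕ (V × Bool) :=
    Sum.elim (fun a => Sum.inl (a, true)) (fun b => Sum.inr (b, true))
  let T : FreeGroup (H ⊕ V) →* Equiv.Perm (Om M σ) :=
    FreeGroup.lift fun y => tauE hN hC (pos y)
  have hTof : ∀ y p, T (FreeGroup.of y) p = tau hN (rl ρ) (rb ρ) (vv D ρ val) (pos y) p := by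
    intro y p
    simp only [T, FreeGroup.lift_apply_of]
    rfl
  have hrr : ∀ y, rr (rl ρ) (rb ρ) (pos y) = ρ (FreeGroup.of y) := by
    intro y
    cases y <;> simp [pos, rr, rl, rb, gH, gV]
  have P1 : ∀ g c p, T g (lm c p) = lm (ρ g c) (T g p) := by
    intro g
    induction g using FreeGroup.induction_on with
    | C1 => intro c p; simp
    | of y =>
      intro c p
      rw [hTof, hTof, tau_lm, hrr]
    | inv_of y ih =>
      intro c p
      rw [map_inv, map_inv]
      rw [Equiv.Perm.inv_eq_iff_eq, ih, MulAut.apply_inv_self, perm_ais]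
    | mul g h ihg ihh =>
      intro c p
      rw [map_mul, Equiv.Perm.mul_apply, ihh, ihg, map_mul]
      rfl
  have hword : ∀ s p, T (D.word s) p = lm (val s) p := by
    intro s p
    have h1 : ∀ q, T (gH (D.h s) * gV (D.v s)) q =
        lm (val s) (T (gV (D.v' s) * gH (D.h' s)) q) := by
      intro q
      rw [map_mul, map_mul, Equiv.Perm.mul_apply, Equiv.Perm.mul_apply]
      rw [gH, gV, gH, gV, hTof, hTof, hTof, hTof]
      have h2 := tau_rule hN hC (hpos s) q
      rw [vv1] at h2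
      exact h2
    have h3 : D.word s = (gH (D.h s) * gV (D.v s)) * (gV (D.v' s) * gH (D.h' s))⁻¹ := by
      simp [VHData.word, mul_assoc]
    rw [h3, map_mul, Equiv.Perm.mul_apply, h1, map_inv, perm_ais]
  let base : Om M σ := (1, ⟨[], trivial⟩)
  let e : FreeGroup (H ⊕ V) → M := fun w => (T w base).1
  have he : ∀ w ∈ D.N, ∀ p, T w p = lm (e w) p := by
    let K : Subgroup (FreeGroup (H ⊕ V)) :=
      { carrier := {w | ∃ c : M, ∀ p, T w p = lm c p}
        mul_mem' := by
          rintro a b ⟨c, hc⟩ ⟨d, hd⟩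
          refine ⟨c * d, fun p => ?_⟩
          rw [map_mul, Equiv.Perm.mul_apply, hd, hc]
          simp [lm, mul_assoc]
        one_mem' := ⟨1, fun p => by simp [lm]⟩
        inv_mem' := by
          rintro a ⟨c, hc⟩
          refine ⟨c⁻¹, fun p => ?_⟩
          rw [map_inv, Equiv.Perm.inv_eq_iff_eq, hc]
          simp [lm] }
    have hK : D.N ≤ K := by
      have : K.Normal := ⟨by
        rintro n ⟨c, hc⟩ g
        refine ⟨ρ g c, fun p => ?_⟩
        rw [map_mul, map_mul, Equiv.Perm.mul_apply, Equiv.Perm.mul_apply, hc, P1, map_inv,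
          perm_ais]⟩
      apply Subgroup.normalClosure_le_normal
      rintro _ ⟨s, rfl⟩
      exact ⟨val s, hword s⟩
    intro w hw p
    obtain ⟨c, hc⟩ := hK hw
    have h1 : e w = c := by
      simp only [e, hc]
      simp [lm, base]
    rw [h1, hc]
  refine ⟨e, ?_, ?_, ?_⟩
  · intro u hu w hw
    change (T (u * w) base).1 = e u * e w
    rw [map_mul, Equiv.Perm.mul_apply, he w hw, he u hu]
    simp [lm, base]
  · intro s
    change (T (D.word s) base).1 = val s
    rw [hword]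
    simp [lm, base]
  · intro g w hw
    change (T (g * w * g⁻¹) base).1 = ρ g (e w)
    rw [map_mul, map_mul, Equiv.Perm.mul_apply, Equiv.Perm.mul_apply, he w hw, P1, map_inv,
      perm_ais]
    simp [lm, base]

end Pool.Agent.SD
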