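import Pool.Agent.SD.Main
import Pool.Agent.SD.BP
import Pool.Agent.SD.CENT
import Pool.Agent.SD.Cm
import Pool.Agent.SD.DEHN
import Pool.Agent.SD.FPA
import Pool.Agent.SD.FPR
import Pool.Agent.SD.FQ
import Pool.Agent.SD.Fox
import Pool.Agent.SD.GROW
import Pool.Agent.SD.HFP
import Pool.Agent.SD.HNN
import Pool.Agent.SD.KFG
import Pool.Agent.SD.Lower
import Pool.Agent.SD.NFS
import Pool.Agent.SD.Norm
import Pool.Agent.SD.RPRES
import Pool.Agent.SD.SG2
import Pool.Agent.SD.SysP
import Pool.Agent.SD.Vdw
import Pool.Agent.SD.Words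

/-!
# Squad SD: the algebraic main theorem without hypotheses
-/

set_option autoImplicit false

namespace Pool.Agent.SD

theorem main_all : Stmt_Main :=
  main_proof lower_proof (cm_proof (vdw_proof nfs_proof sys_proof))
    (HFP_proof norm_proof (CENT_proof magnus_proof foxex_proof))
    (kfg_proof fpker_proof cycle_proof) rpres_proof
    (fPR_proof fpbasic_proof (fq_proof fpquot_proof fpbasic_proof foxex_proof)
      (hnn_proof fpquot_proof))
    bp_proof words_proof grow_proof

end Pool.Agent.SD
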