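import Mathlib
import Pool.Agent.SD.MainAll

/-!
# Squad SD: quantitative lower bound for the Dehn function

Every finite presentation of the fibre product has Dehn function at least `exp (exp (c x^(1/3)))`
for large `x`.
-/

set_option autoImplicit false

namespace Pool.Agent.SD

namespace QUANTX

open LOWERX

/-- Quantitative version of LOWER. -/
theorem lowerQ (Y : Type) [Fintype Y] [DecidableEq Y] (G : Type) [Group G] (Θ : FreeGroup Y →* G)
    (val : FreeGroup Y → ℤ)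
    (hmul : ∀ u v, Θ u = 1 → Θ v = 1 → val (u * v) = val u + val v)
    (hconj : ∀ g u, Θ u = 1 → val (g * u * g⁻¹) = val u)
    (n : ℕ) (R : Finset (FreeGroup (Fin n))) (φ : FreeGroup (Fin n) →* G)
    (hrange : φ.range = Θ.range)
    (hker : φ.ker = Subgroup.normalClosure (R : Set (FreeGroup (Fin n)))) :
    ∃ K : ℕ, ∀ w, Θ w = 1 → ∃ w' ∈ φ.ker, w'.toWord.length ≤ K * w.norm ∧
      ∀ N, ProdConj (R : Set (FreeGroup (Fin n))) N w' → (val w).natAbs ≤ K * (w.norm + N) := by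
  -- basic facts
  have v1 : val 1 = 0 := by
    have := hmul 1 1 (map_one Θ) (map_one Θ)
    rw [mul_one] at this
    linarith
  have vinv : ∀ u, Θ u = 1 → val u⁻¹ = - val u := by
    intro u hu
    have := hmul u u⁻¹ hu (by rw [map_inv, hu, inv_one])
    rw [mul_inv_cancel, v1] at this
    linarith
  -- the homomorphisms
  have hth : ∀ i : Fin n, ∃ y : FreeGroup Y, Θ y = φ (FreeGroup.of i) := by
    intro i
    have : φ (FreeGroup.of i) ∈ Θ.range := by
      rw [← hrange]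
      exact ⟨_, rfl⟩
    exact this
  choose thf hthf using hth
  let th : FreeGroup (Fin n) →* FreeGroup Y := FreeGroup.lift thf
  have hΘth : ∀ w, Θ (th w) = φ w := by
    intro w
    have : Θ.comp th = φ := by
      ext i
      simp [th, hthf]
    exact DFunLike.congr_fun this w
  have hps : ∀ y : Y, ∃ x : FreeGroup (Fin n), φ x = Θ (FreeGroup.of y) := by
    intro y
    have : Θ (FreeGroup.of y) ∈ φ.range := by
      rw [hrange]
      exact ⟨_, rfl⟩
    exact this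
  choose psf hpsf using hps
  let ps : FreeGroup Y →* FreeGroup (Fin n) := FreeGroup.lift psf
  have hφps : ∀ w, φ (ps w) = Θ w := by
    intro w
    have : φ.comp ps = Θ := by
      ext i
      simp [ps, hpsf]
    exact DFunLike.congr_fun this w
  have hT : ∀ w, Θ (w⁻¹ * th (ps w)) = 1 := by
    intro w
    rw [map_mul, map_inv, hΘth, hφps, inv_mul_cancel]
  -- delta
  let dl : FreeGroup Y →* Multiplicative ℤ :=
    { toFun := fun w => Multiplicative.ofAdd (val (w⁻¹ * th (ps w)))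
      map_one' := by simp [v1]
      map_mul' := by
        intro a b
        rw [← ofAdd_add]
        congr 1
        have h1 : (a * b)⁻¹ * th (ps (a * b)) =
            (b⁻¹ * (a⁻¹ * th (ps a)) * b⁻¹⁻¹) * (b⁻¹ * th (ps b)) := by
          simp only [map_mul, mul_inv_rev, inv_inv]
          group
        have h2 : Θ (b⁻¹ * (a⁻¹ * th (ps a)) * b⁻¹⁻¹) = 1 := by
          rw [map_mul, map_mul, hT a]
          simp
        rw [h1, hmul _ _ h2 (hT b), hconj _ _ (hT a)] }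
  have hdl : ∀ w, val (w⁻¹ * th (ps w)) = Multiplicative.toAdd (dl w) := fun w => rfl
  obtain ⟨c, hc⟩ := len_bound (fun z : Multiplicative ℤ => (Multiplicative.toAdd z).natAbs)
    (by simp) (by intro a b; simpa using Int.natAbs_add_le _ _) (by intro a; simp) dl
  obtain ⟨c', hc'⟩ := len_bound (fun z : FreeGroup (Fin n) => z.norm)
    (by simp) (by intro a b; exact FreeGroup.norm_mul_le _ _) (by intro a; simp) ps
  -- relators
  have hR : ∀ r ∈ R, Θ (th r) = 1 := by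
    intro r hr
    rw [hΘth]
    have : r ∈ φ.ker := by
      rw [hker]
      exact Subgroup.subset_normalClosure hr
    exact this
  set c2 : ℕ := ∑ r ∈ R, (val (th r)).natAbs with hc2
  have hr2 : ∀ r ∈ R, (val (th r)).natAbs ≤ c2 := by
    intro r hr
    exact Finset.single_le_sum (f := fun r => (val (th r)).natAbs) (fun _ _ => Nat.zero_le _) hr
  have hprod : ∀ L : List (FreeGroup (Fin n) × FreeGroup (Fin n)),
      (∀ p ∈ L, p.2 ∈ (R : Set (FreeGroup (Fin n))) ∨ p.2⁻¹ ∈ (R : Set (FreeGroup (Fin n)))) →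
      Θ (th (L.map fun p => p.1 * p.2 * p.1⁻¹).prod) = 1 ∧
        (val (th (L.map fun p => p.1 * p.2 * p.1⁻¹).prod)).natAbs ≤ L.length * c2 := by
    intro L
    induction L with
    | nil =>
      intro _
      simp [v1]
    | cons p L ih =>
      intro hL
      obtain ⟨i1, i2⟩ := ih (fun q hq => hL q (List.mem_cons_of_mem _ hq))
      have hp := hL p List.mem_cons_self
      have k1 : Θ (th p.2) = 1 ∧ (val (th p.2)).natAbs ≤ c2 := by
        rcases hp with hp | hp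
        · exact ⟨hR _ hp, hr2 _ hp⟩
        · have e1 := hR _ hp
          have e2 := hr2 _ hp
          have e3 : th p.2 = (th p.2⁻¹)⁻¹ := by rw [map_inv, inv_inv]
          constructor
          · rw [e3, map_inv, e1, inv_one]
          · rw [e3, vinv _ e1, Int.natAbs_neg]
            exact e2
      have k2 : Θ (th p.1 * th p.2 * (th p.1)⁻¹) = 1 := by
        rw [map_mul, map_mul, k1.1]
        simp
      rw [List.map_cons, List.prod_cons, map_mul]
      have k3 : th (p.1 * p.2 * p.1⁻¹) = th p.1 * th p.2 * (th p.1)⁻¹ := by simp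
      rw [k3]
      constructor
      · rw [map_mul, k2, i1, one_mul]
      · rw [hmul _ _ k2 i1, hconj _ _ k1.1]
        calc _ ≤ _ := Int.natAbs_add_le _ _
          _ ≤ c2 + L.length * c2 := Nat.add_le_add k1.2 i2
          _ = (p :: L).length * c2 := by rw [List.length_cons]; ring
  refine ⟨c + c' + c2, fun w hw => ⟨ps w, ?_, ?_, ?_⟩⟩
  · rw [MonoidHom.mem_ker, hφps, hw]
  · have h1 := hc' w
    have h2 : (ps w).toWord.length = (ps w).norm := rfl
    rw [h2]
    nlinarith [Nat.zero_le (c * w.norm), Nat.zero_le (c2 * w.norm)]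
  · rintro N ⟨L, hL1, hL2, hL3⟩
    obtain ⟨p1, p2⟩ := hprod L hL2
    rw [hL3] at p1 p2
    have e1 : val (th (ps w)) = val w + Multiplicative.toAdd (dl w) := by
      rw [← hdl, ← hmul w _ hw (hT w), mul_inv_cancel_left]
    have e2 : (val w).natAbs ≤ c * w.norm + L.length * c2 := by
      have : val w = val (th (ps w)) + -(Multiplicative.toAdd (dl w)) := by
        rw [e1]; ring
      rw [this]
      calc _ ≤ _ := Int.natAbs_add_le _ _
        _ ≤ L.length * c2 + c * w.norm := Nat.add_le_add p2 (by rw [Int.natAbs_neg]; exact hc w)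
        _ = _ := by ring
    have e3 : L.length * c2 ≤ c2 * N := by
      rw [mul_comm]; exact Nat.mul_le_mul_left _ hL1
    have e4 : (c + c' + c2) * (w.norm + N) =
      c * w.norm + c2 * N + (c' * w.norm + c2 * w.norm + c * N + c' * N) := by ring
    omega

open Main in
/-- the test words with their values -/
theorem words_val :
    ∃ val : FreeGroup Y → ℤ,
      (∀ u v, P0.Theta u = 1 → P0.Theta v = 1 → val (u * v) = val u + val v) ∧
      (∀ g u, P0.Theta u = 1 → val (g * u * g⁻¹) = val u) ∧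
      ∃ A : ℕ, ∀ m : ℕ, ∃ w, P0.Theta w = 1 ∧ w.norm ≤ A * (m + 1) ^ 3 ∧
        (val w).natAbs = Nat.fib (Nat.fib (m + 2) + 1) := by
  obtain ⟨b, hb1, hb2, hb3⟩ := bp_proof
  have hLL : LL = Subgroup.normalClosure (Set.range P0.rel) := rfl
  obtain ⟨n, h1, h2, h3, h4⟩ := (cm_proof (vdw_proof nfs_proof sys_proof))
    Lab (Fin 35) (Fin 6) P0 Lab.ta b
    (fun u hu v hv => hb1 u hu v hv)
    (fun i => (sq_cases i).imp id fun h =>
      ⟨h.1, h.2.1, h.2.2.1, h.2.2.2.1, fun l hl => hb2 _ h.2.2.2.2 l hl⟩)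
    tr_cases
  have hb0 : b 1 = 0 := by
    have := hb1 1 (one_mem _) 1 (one_mem _)
    rw [mul_one] at this
    linarith
  obtain ⟨c, hc⟩ := words_proof
  refine ⟨n, ?_, ?_, 3 * c + 3, ?_⟩
  · intro u v hu hv
    exact h1 u ((theta_eq_one P0).mp hu).1 v ((theta_eq_one P0).mp hv).1
  · intro g u hu
    exact n_conj_all hb0 h3 h4 g u hu
  · intro m
    obtain ⟨⟨D, hD, hDl, hDn⟩, ⟨D', hD', hDl', hDn'⟩⟩ := hc m
    have hDN : D ∈ P0.gad.N := DD_le P0 _ hD
    have hDN' : D' ∈ P0.gad.N := DD_le P0 _ hD'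
    set ht : FreeGroup Y := FreeGroup.of (Sum.inl (HL.h Lab.ta)) with hht
    have hlt : lab ht = FreeGroup.of Lab.ta := by simp [hht, lab, labL]
    have hnt : ¬ NonTau (J := Fin 6) Lab.ta (Sum.inl (HL.h Lab.ta)) := fun h => h.1 rfl
    have hmid : ht * D⁻¹ * ht⁻¹ ∈ P0.gad.N := conj_mem P0 (inv_mem hDN) ht
    have hWN : D * (ht * D⁻¹ * ht⁻¹) * D'⁻¹ ∈ P0.gad.N :=
      mul_mem (mul_mem hDN hmid) (inv_mem hDN')
    have hWl : lab (D * (ht * D⁻¹ * ht⁻¹) * D'⁻¹) = 1 := by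
      simp only [map_mul, map_inv, hDl, hDl', hlt]
      group
    refine ⟨D * (ht * D⁻¹ * ht⁻¹) * D'⁻¹, (theta_eq_one P0).mpr ⟨hWN, hWl⟩, ?_, ?_⟩
    · have e1 := FreeGroup.norm_mul_le (D * (ht * D⁻¹ * ht⁻¹)) D'⁻¹
      have e2 := FreeGroup.norm_mul_le D (ht * D⁻¹ * ht⁻¹)
      have e3 := FreeGroup.norm_mul_le (ht * D⁻¹) ht⁻¹
      have e4 := FreeGroup.norm_mul_le ht D⁻¹
      rw [FreeGroup.norm_inv_eq] at e1 e3 e4
      have e5 : ht.norm = 1 := by rw [hht]; exact FreeGroup.norm_of _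
      have e6 : 1 ≤ (m + 1) ^ 3 := Nat.one_le_pow _ _ (Nat.succ_pos m)
      have e7 : (3 * c + 3) * (m + 1) ^ 3 = 3 * (c * (m + 1) ^ 3) + 3 * (m + 1) ^ 3 := by ring
      omega
    · have hγ : gammaW m ∈ LL := by rw [← hDl, hLL]; exact lab_mem P0 hDN
      have hbinv : b (gammaW m)⁻¹ = -b (gammaW m) := by
        have := hb1 _ hγ _ (inv_mem hγ)
        rw [mul_inv_cancel, hb0] at this
        linarith
      have hval : n (D * (ht * D⁻¹ * ht⁻¹) * D'⁻¹) = -(Nat.fib (Nat.fib (m + 2) + 1) : ℤ) := by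
        rw [h1 _ (mul_mem hDN hmid) _ (inv_mem hDN'), h1 _ hDN _ hmid, n_inv h1 hDN',
          n_DD h1 h2 h3 hD, n_DD h1 h2 h3 hD', h4 _ hnt _ (inv_mem hDN), n_inv h1 hDN,
          n_DD h1 h2 h3 hD, map_inv, hDl, hbinv, hb3]
        ring
      rw [hval, Int.natAbs_neg, Int.natAbs_natCast]

/-- lower bound for `F m = fib (fib (m+2) + 1)` -/
theorem fib_lower (m : ℕ) :
    Real.exp (Real.log 2 * (((2 : ℝ) ^ ((m : ℝ) / 2) - 1) / 2)) ≤
      (Nat.fib (Nat.fib (m + 2) + 1) : ℝ) := by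
  have h1 : ∀ k : ℕ, (2 : ℝ) ^ (((k : ℝ) - 1) / 2) ≤ (Nat.fib (k + 1) : ℝ) := by
    intro k
    have h2 : 2 ^ (k / 2) ≤ Nat.fib (k + 1) :=
      (GROWX.two_pow_le_fib (k / 2)).trans (Nat.fib_mono (by omega))
    have h3 : ((k : ℝ) - 1) / 2 ≤ ((k / 2 : ℕ) : ℝ) := by
      have : k ≤ 2 * (k / 2) + 1 := by omega
      have h4 : (k : ℝ) ≤ 2 * ((k / 2 : ℕ) : ℝ) + 1 := by exact_mod_cast this
      linarith
    calc (2 : ℝ) ^ (((k : ℝ) - 1) / 2) ≤ (2 : ℝ) ^ ((k / 2 : ℕ) : ℝ) :=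
          Real.rpow_le_rpow_of_exponent_le (by norm_num) h3
      _ = ((2 ^ (k / 2) : ℕ) : ℝ) := by rw [Real.rpow_natCast]; norm_num
      _ ≤ _ := by exact_mod_cast h2
  have h2 := h1 (Nat.fib (m + 2))
  have h3 := h1 (m + 1)
  have h4 : Real.exp (Real.log 2 * (((2 : ℝ) ^ ((m : ℝ) / 2) - 1) / 2)) =
      (2 : ℝ) ^ (((2 : ℝ) ^ ((m : ℝ) / 2) - 1) / 2) :=
    (Real.rpow_def_of_pos (by norm_num) _).symm
  rw [h4]
  refine le_trans (Real.rpow_le_rpow_of_exponent_le (by norm_num) ?_) h2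
  have h5 : ((m + 1 : ℕ) : ℝ) - 1 = (m : ℝ) := by push_cast; ring
  rw [h5] at h3
  linarith

theorem growth (K A : ℕ) : ∃ c : ℝ, 0 < c ∧ ∃ m0 : ℕ, ∀ m : ℕ, m0 ≤ m →
    (K : ℝ) * (Real.exp (Real.exp (c * ((m : ℝ) + 2))) + A * ((m : ℝ) + 1) ^ 3) ≤
      (Nat.fib (Nat.fib (m + 2) + 1) : ℝ) := by
  have hl : (0.69 : ℝ) < Real.log 2 := by have := Real.log_two_gt_d9; linarith
  set c : ℝ := Real.log 2 / 4 with hc
  have hc0 : 0 < c := by positivity
  refine ⟨c, hc0, ?_⟩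
  set E : ℕ → ℝ := fun m => Real.exp (c * ((m : ℝ) + 2)) with hE
  -- E tends to infinity
  have hE1 : Filter.Tendsto E Filter.atTop Filter.atTop := by
    apply Real.tendsto_exp_atTop.comp
    apply Filter.Tendsto.const_mul_atTop hc0
    exact Filter.tendsto_atTop_add_const_right _ _ tendsto_natCast_atTop_atTop
  -- (m+1)^3 / exp(E m) -> 0 : use E m ≥ c (m+2) and then E m ^ 4
  have hE2 : ∀ᶠ m : ℕ in Filter.atTop, (A : ℝ) * ((m : ℝ) + 1) ^ 3 ≤ Real.exp (E m) := by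
    have h1 : Filter.Tendsto (fun x : ℝ => x ^ 3 / Real.exp x) Filter.atTop (nhds 0) := by
      have := Real.tendsto_pow_mul_exp_neg_atTop_nhds_zero 3
      refine this.congr fun x => ?_
      rw [Real.exp_neg, div_eq_mul_inv]
    have h2 := (h1.comp hE1).eventually (gt_mem_nhds (show (0 : ℝ) < c ^ 3 / (A + 1) by positivity))
    filter_upwards [h2] with m hm
    simp only [Function.comp] at hm
    have hpos : 0 < Real.exp (E m) := Real.exp_pos _
    rw [div_lt_div_iff₀ hpos (by positivity)] at hm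
    have h3 : c * ((m : ℝ) + 1) ≤ E m := by
      have := Real.add_one_le_exp (c * ((m : ℝ) + 2))
      simp only [hE]; nlinarith
    have h4 : (c * ((m : ℝ) + 1)) ^ 3 ≤ E m ^ 3 := pow_le_pow_left₀ (by positivity) h3 3
    have h5 : (c * ((m : ℝ) + 1)) ^ 3 = c ^ 3 * ((m : ℝ) + 1) ^ 3 := by ring
    have h6 : c ^ 3 * (((m : ℝ) + 1) ^ 3 * (A + 1)) < c ^ 3 * Real.exp (E m) := by nlinarith
    have h7 : ((m : ℝ) + 1) ^ 3 * (A + 1) < Real.exp (E m) :=
      lt_of_mul_lt_mul_left h6 (by positivity)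
    have h8 : (0 : ℝ) ≤ ((m : ℝ) + 1) ^ 3 := by positivity
    nlinarith
  have hE3 : ∀ᶠ m : ℕ in Filter.atTop, 12 ≤ E m ∧ (2 * K : ℝ) ≤ E m :=
    (hE1.eventually_ge_atTop 12).and (hE1.eventually_ge_atTop _)
  obtain ⟨m0, hm0⟩ := Filter.eventually_atTop.1 (hE2.and hE3)
  refine ⟨m0, fun m hm => ?_⟩
  obtain ⟨e1, e2, e3⟩ := hm0 m hm
  refine le_trans ?_ (fib_lower m)
  have f1 : (2 : ℝ) ^ ((m : ℝ) / 2) = E m ^ 2 / 2 := by
    rw [Real.rpow_def_of_pos (by norm_num)]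
    have : E m ^ 2 = Real.exp (Real.log 2 * ((m : ℝ) / 2)) * 2 := by
      simp only [hE]
      rw [← Real.exp_nat_mul]
      have h2 : ((2 : ℕ) : ℝ) * (c * ((m : ℝ) + 2)) = Real.log 2 * ((m : ℝ) / 2) + Real.log 2 := by
        rw [hc]; push_cast; ring
      rw [h2, Real.exp_add, Real.exp_log (by norm_num)]
    rw [this]; ring
  rw [f1]
  have f2 : 2 * E m ≤ Real.log 2 * ((E m ^ 2 / 2 - 1) / 2) := by
    have h3 : 0.69 * ((E m ^ 2 / 2 - 1) / 2) ≤ Real.log 2 * ((E m ^ 2 / 2 - 1) / 2) := by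
      apply mul_le_mul_of_nonneg_right hl.le
      nlinarith
    nlinarith
  refine le_trans ?_ (Real.exp_le_exp.2 f2)
  have f3 : Real.exp (2 * E m) = Real.exp (E m) * Real.exp (E m) := by
    rw [← Real.exp_add]; congr 1; ring
  have f4 : (2 * K : ℝ) ≤ Real.exp (E m) := by
    have := Real.add_one_le_exp (E m); linarith
  rw [f3]
  have f5 : 0 < Real.exp (E m) := Real.exp_pos _
  have f6 : (K : ℝ) * (Real.exp (E m) + A * ((m : ℝ) + 1) ^ 3) ≤ K * (2 * Real.exp (E m)) := by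
    apply mul_le_mul_of_nonneg_left _ (Nat.cast_nonneg K)
    linarith
  have f7 : (K : ℝ) * (2 * Real.exp (E m)) ≤ Real.exp (E m) * Real.exp (E m) := by
    have := mul_le_mul_of_nonneg_right f4 f5.le
    linarith
  exact f6.trans f7

theorem dehn_mono {n : ℕ} (R : Set (FreeGroup (Fin n))) {x y : ℕ} (h : x ≤ y) :
    dehn R x ≤ dehn R y := by
  apply csSup_le'
  rintro m ⟨w, hw, hwx, rfl⟩
  apply le_csSup
  · have hfin : {u : FreeGroup (Fin n) | u.toWord.length ≤ y}.Finite := by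
      have h1 := (List.finite_length_le (Fin n × Bool) y).image FreeGroup.mk
      refine h1.subset ?_
      intro u hu
      exact ⟨u.toWord, hu, FreeGroup.mk_toWord⟩
    have h2 := (hfin.image (area R)).bddAbove
    refine h2.mono ?_
    rintro m ⟨u, _, hu, rfl⟩
    exact ⟨u, hu, rfl⟩
  · exact ⟨w, hw, hwx.trans h, rfl⟩

end QUANTX

open QUANTX in
/-- QUANT.  Every finite presentation of the fibre product has Dehn function at least
`exp (exp (c x^(1/3)))` for large `x`. -/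
theorem quant (n : ℕ) (R : Finset (FreeGroup (Fin n)))
    (φ : FreeGroup (Fin n) →* P0.gad.Grp × FreeGroup Lab)
    (hr : φ.range = P0.Theta.range)
    (hk : φ.ker = Subgroup.normalClosure (R : Set (FreeGroup (Fin n)))) :
    ∃ c : ℝ, 0 < c ∧ ∃ x0 : ℕ, ∀ x : ℕ, x0 ≤ x →
      Real.exp (Real.exp (c * (x : ℝ) ^ ((1 : ℝ) / 3))) ≤
        (dehn (R : Set (FreeGroup (Fin n))) x : ℝ) := by
  obtain ⟨val, h1, h2, A, h3⟩ := words_val
  obtain ⟨K, hK⟩ := lowerQ _ _ P0.Theta val h1 h2 n R φ hr hk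
  obtain ⟨c, hc, m0, hm0⟩ := growth (K + 1) A
  set B : ℕ := K * A + 1 with hB
  have hBpos : (0 : ℝ) < (B : ℝ) := by positivity
  refine ⟨c / (B : ℝ) ^ ((1 : ℝ) / 3), by positivity, B * (m0 + 2) ^ 3, fun x hx => ?_⟩
  set y : ℝ := ((x : ℝ) / B) ^ ((1 : ℝ) / 3) with hy
  have hxB : ((m0 : ℝ) + 2) ^ 3 ≤ (x : ℝ) / B := by
    rw [le_div_iff₀ hBpos]
    have : ((B * (m0 + 2) ^ 3 : ℕ) : ℝ) ≤ x := by exact_mod_cast hx
    push_cast at this
    linarith
  have hx0 : (0 : ℝ) ≤ (x : ℝ) / B := by positivity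
  have hy3 : y ^ 3 = (x : ℝ) / B := by
    rw [hy, ← Real.rpow_natCast, ← Real.rpow_mul hx0]; norm_num
  have hy0 : 0 ≤ y := Real.rpow_nonneg hx0 _
  have hym : (m0 : ℝ) + 2 ≤ y := by
    by_contra hlt
    push Not at hlt
    have : y ^ 3 < ((m0 : ℝ) + 2) ^ 3 := pow_lt_pow_left₀ hlt hy0 (by norm_num)
    rw [hy3] at this
    linarith
  obtain ⟨m, hm⟩ : ∃ m : ℕ, ⌊y⌋₊ = m + 1 := by
    have : m0 + 2 ≤ ⌊y⌋₊ := Nat.le_floor (by push_cast; exact hym)
    exact ⟨⌊y⌋₊ - 1, by omega⟩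
  have hm1 : ((m : ℝ) + 1) ≤ y := by
    have := Nat.floor_le hy0
    rw [hm] at this
    push_cast at this
    exact this
  have hm2 : y < (m : ℝ) + 2 := by
    have := Nat.lt_floor_add_one y
    rw [hm] at this
    push_cast at this
    linarith
  have hmm0 : m0 ≤ m := by
    have : (m0 : ℝ) < (m : ℝ) + 1 := by linarith
    have h' : m0 < m + 1 := by exact_mod_cast this
    omega
  have hg := hm0 m hmm0
  -- the word
  obtain ⟨w, hw, hwn, hwv⟩ := h3 m
  obtain ⟨w', hw', hwl, hwN⟩ := hK w hw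
  rw [hk] at hw'
  have ha : ProdConj (R : Set (FreeGroup (Fin n))) (area (R : Set (FreeGroup (Fin n))) w') w' := by
    have hne : {n_1 | ProdConj (R : Set (FreeGroup (Fin n))) n_1 w'}.Nonempty :=
      DEHNX.exists_prodConj _ hw'
    exact Nat.sInf_mem hne
  have hv := hwN _ ha
  rw [hwv] at hv
  have hd : area (R : Set (FreeGroup (Fin n))) w' ≤ dehn (R : Set (FreeGroup (Fin n))) x := by
    refine (DEHNX.area_le_dehn _ hw').trans (dehn_mono _ ?_)
    refine hwl.trans ?_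
    have h4 : K * w.norm ≤ B * (m + 1) ^ 3 := by
      calc K * w.norm ≤ K * (A * (m + 1) ^ 3) := Nat.mul_le_mul_left _ hwn
        _ = K * A * (m + 1) ^ 3 := by ring
        _ ≤ B * (m + 1) ^ 3 := Nat.mul_le_mul_right _ (by omega)
    refine h4.trans ?_
    have h5 : ((m : ℝ) + 1) ^ 3 ≤ (x : ℝ) / B := by
      rw [← hy3]; exact pow_le_pow_left₀ (by positivity) hm1 3
    rw [le_div_iff₀ hBpos] at h5
    have h6 : ((B * (m + 1) ^ 3 : ℕ) : ℝ) ≤ x := by push_cast; linarith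
    exact_mod_cast h6
  have hd' : (area (R : Set (FreeGroup (Fin n))) w' : ℝ) ≤ dehn (R : Set (FreeGroup (Fin n))) x := by
    exact_mod_cast hd
  refine le_trans ?_ hd'
  have hexp : c / (B : ℝ) ^ ((1 : ℝ) / 3) * (x : ℝ) ^ ((1 : ℝ) / 3) = c * y := by
    rw [hy, Real.div_rpow (by positivity) (by positivity)]; ring
  rw [hexp]
  have hmon : Real.exp (Real.exp (c * y)) ≤ Real.exp (Real.exp (c * ((m : ℝ) + 2))) := by
    apply Real.exp_le_exp.2
    apply Real.exp_le_exp.2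
    exact mul_le_mul_of_nonneg_left hm2.le hc.le
  refine hmon.trans ?_
  -- combine
  have hv' : (Nat.fib (Nat.fib (m + 2) + 1) : ℝ) ≤
      K * ((w.norm : ℝ) + area (R : Set (FreeGroup (Fin n))) w') := by exact_mod_cast hv
  have hwn' : (w.norm : ℝ) ≤ A * ((m : ℝ) + 1) ^ 3 := by exact_mod_cast hwn
  have hK0 : (0 : ℝ) ≤ K := Nat.cast_nonneg K
  have ha0 : (0 : ℝ) ≤ area (R : Set (FreeGroup (Fin n))) w' := Nat.cast_nonneg _
  have hA0 : (0 : ℝ) ≤ A * ((m : ℝ) + 1) ^ 3 := by positivity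
  push_cast at hg
  set a : ℝ := (area (R : Set (FreeGroup (Fin n))) w' : ℝ) with haa
  set X := Real.exp (Real.exp (c * ((m : ℝ) + 2))) with hX
  set T : ℝ := A * ((m : ℝ) + 1) ^ 3 with hT
  have h7 : ((K : ℝ) + 1) * (X + T) ≤ K * (T + a) := by
    refine hg.trans (hv'.trans ?_)
    apply mul_le_mul_of_nonneg_left _ hK0
    linarith
  have h8 : ((K : ℝ) + 1) * (X + T) ≤ (K + 1) * (T + a) := by nlinarith
  have h9 : X + T ≤ T + a := le_of_mul_le_mul_left h8 (by positivity)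
  linarith

end Pool.Agent.SD
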