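import Mathlib
import Pool.Agent.SD.Quant

/-!
# Squad SD: the algebraic half of the final statement, for the subgroup `P0.Theta.range`
-/

set_option autoImplicit false

namespace Pool.Agent.SD

namespace FinalX

theorem fp_range : Group.IsFinitelyPresented P0.Theta.range := by
  obtain ⟨T, hT⟩ := main_all.1
  haveI : Finite (HL Lab (Fin 6) ⊕ VL Lab (Fin 6)) := inferInstance
  refine Group.IsFinitelyPresented.of_surjective (P0.Theta.rangeRestrict)
    P0.Theta.rangeRestrict_surjective ?_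
  rw [MonoidHom.ker_rangeRestrict]
  exact ⟨T, T.finite_toSet, hT.symm⟩

theorem dehn_range (n : ℕ) (R : Set (FreeGroup (Fin n))) (φ : FreeGroup (Fin n) →* P0.Theta.range)
    (hR : R.Finite) (hφ : Function.Surjective φ) (hk : φ.ker = Subgroup.normalClosure R) :
    (¬ ∃ C : ℝ, 0 < C ∧ ∀ x : ℕ, (dehn R x : ℝ) ≤ C * Real.exp (C * x + C) + C * x + C) ∧
    ∃ c : ℝ, 0 < c ∧ ∃ x0 : ℕ, ∀ x : ℕ, x0 ≤ x →
      Real.exp (Real.exp (c * (x : ℝ) ^ ((1 : ℝ) / 3))) ≤ (dehn R x : ℝ) := by
  have hr : (P0.Theta.range.subtype.comp φ).range = P0.Theta.range := by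
    rw [MonoidHom.range_comp, MonoidHom.range_eq_top.2 hφ, ← MonoidHom.range_eq_map,
      Subgroup.range_subtype]
  have hk' : (P0.Theta.range.subtype.comp φ).ker =
      Subgroup.normalClosure ((hR.toFinset : Finset (FreeGroup (Fin n))) : Set _) := by
    rw [Set.Finite.coe_toFinset, ← hk]
    ext w
    rw [MonoidHom.mem_ker, MonoidHom.mem_ker]
    simp
  have h1 := dehn_proof n hR.toFinset (fun C => by
    obtain ⟨w, hw, hw2⟩ := main_all.2 n hR.toFinset _ hr hk' C
    rw [hk'] at hw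
    exact ⟨w, hw, hw2⟩)
  have h2 := quant n hR.toFinset _ hr hk'
  rw [Set.Finite.coe_toFinset] at h1 h2
  exact ⟨h1, h2⟩

end FinalX

end Pool.Agent.SD
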