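import Mathlib
import Pool.Agent.SD.Gd

/-!
# CONTR: CAT(0) spaces (Stewart form) are contractible
-/

set_option autoImplicit false

namespace Pool.Agent.SD.CONTRm

open unitInterval

variable {Z : Type} [MetricSpace Z]

/-- the inequality at all test points -/
def Frac (t : ℝ) (x y m : Z) : Prop :=
  ∀ z, dist z m ^ 2 ≤ (1 - t) * dist z x ^ 2 + t * dist z y ^ 2 - t * (1 - t) * dist x y ^ 2

theorem frac_le {t : ℝ} {x y m : Z} (h0 : 0 ≤ t) (h1 : t ≤ 1)
    (h : Frac t x y m) : dist x m = t * dist x y ∧ dist m y = (1 - t) * dist x y := by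
  have a := h x
  have b := h y
  rw [dist_self] at a b
  rw [dist_comm y x] at b
  have c1 : dist x m ≤ t * dist x y := by
    apply le_of_sq_le_sq _ (by positivity)
    nlinarith
  have c2 : dist y m ≤ (1 - t) * dist x y := by
    apply le_of_sq_le_sq _ (mul_nonneg (by linarith) dist_nonneg)
    nlinarith
  have c3 := dist_triangle x m y
  rw [dist_comm y m] at c2
  constructor <;> linarith

theorem contract {t : ℝ} {x y o mx my : Z} (h0 : 0 ≤ t) (h1 : t ≤ 1)
    (hx : Frac t x o mx) (hy : Frac t y o my) : dist mx my ≤ (1 - t) * dist x y := by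
  have e1 := hx my
  have e2 := hy x
  have e3 := (frac_le h0 h1 hy).2
  rw [e3] at e1
  apply le_of_sq_le_sq _ (mul_nonneg (by linarith) dist_nonneg)
  rw [dist_comm mx my]
  rw [dist_comm my x] at e1
  have e4 : (1 - t) * dist x my ^ 2 ≤ (1 - t) * ((1 - t) * dist x y ^ 2 + t * dist x o ^ 2 -
      t * (1 - t) * dist y o ^ 2) := mul_le_mul_of_nonneg_left e2 (by linarith)
  nlinarith

theorem along {t s : ℝ} {x o mt ms : Z} (ht0 : 0 ≤ t) (ht1 : t ≤ 1) (hs0 : 0 ≤ s) (hs1 : s ≤ 1)
    (ht : Frac t x o mt) (hs : Frac s x o ms) : dist mt ms ≤ |t - s| * dist x o := by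
  have e1 := ht ms
  have e2 := frac_le hs0 hs1 hs
  rw [e2.2, dist_comm ms x, e2.1] at e1
  apply le_of_sq_le_sq _ (mul_nonneg (abs_nonneg _) dist_nonneg)
  rw [dist_comm mt ms, mul_pow, sq_abs]
  nlinarith

end Pool.Agent.SD.CONTRm

namespace Pool.Agent.SD

open CONTRm in
theorem contr : Stmt_Contr := by
  intro Z _ hne hc
  obtain ⟨o⟩ := hne
  have h1 : ∀ (x : Z) (t : unitInterval), ∃ m, Frac (t : ℝ) x o m := by
    intro x t
    exact hc x o t t.2.1 t.2.2
  choose H hH using h1
  have hest : ∀ (x y : Z) (t s : unitInterval),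
      dist (H x t) (H y s) ≤ dist x y + |(t : ℝ) - s| * dist y o := by
    intro x y t s
    have a1 := contract t.2.1 t.2.2 (hH x t) (hH y t)
    have a2 := along t.2.1 t.2.2 s.2.1 s.2.2 (hH y t) (hH y s)
    have a3 := dist_triangle (H x t) (H y t) (H y s)
    have a4 : (1 - (t : ℝ)) * dist x y ≤ dist x y := by
      nlinarith [t.2.1, dist_nonneg (x := x) (y := y)]
    linarith
  have hcont : Continuous fun p : unitInterval × Z => H p.2 p.1 := by
    rw [continuous_iff_continuousAt]
    rintro ⟨s, y⟩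
    rw [ContinuousAt, tendsto_iff_dist_tendsto_zero]
    refine squeeze_zero (fun _ => dist_nonneg) (fun p => hest p.2 y p.1 s) ?_
    have : Filter.Tendsto (fun p : unitInterval × Z => dist p.2 y + |(p.1 : ℝ) - s| * dist y o)
        (nhds (s, y)) (nhds (dist y y + |(s : ℝ) - s| * dist y o)) := by
      apply Continuous.tendsto' _ _ _ rfl
      fun_prop
    simpa using this
  rw [contractible_iff_id_nullhomotopic]
  refine ⟨o, ⟨{ toFun := fun p => H p.2 p.1, continuous_toFun := hcont, map_zero_left := ?_, map_one_left := ?_ }⟩⟩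
  · intro x
    have := (frac_le (t := 0) le_rfl zero_le_one (hH x 0)).1
    simp only [zero_mul] at this
    exact (dist_eq_zero.mp this).symm
  · intro x
    have := (frac_le (t := 1) zero_le_one le_rfl (hH x 1)).2
    simp only [sub_self, zero_mul] at this
    exact dist_eq_zero.mp this

end Pool.Agent.SD
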