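import Mathlib
import Pool.Agent.SD.Gd

/-!
# CWISO: transport along isomorphisms, forgetting local finiteness
-/

set_option autoImplicit false

namespace Pool.Agent.SD

open Topology Set

theorem cwIso : Stmt_CWIso := by
  refine ⟨?_, ?_⟩
  · intro G₁ G₂ _ _ a e h
    obtain ⟨E, tE, t2, act, cw, hc, hcont, hdim, hcell, hfree, hlf⟩ := h
    refine ⟨E, tE, t2, MulAction.compHom E e.symm.toMonoidHom, cw, hc, ?_, hdim, ?_, ?_, hlf⟩
    · intro g
      exact hcont (e.symm g)
    · intro g m i
      exact hcell (e.symm g) m i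
    · intro g m i h
      have := hfree (e.symm g) m i h
      simpa using this
  · intro G _ a h
    obtain ⟨E, tE, t2, act, cw, hc, hcont, hdim, hcell, hfree, hlf⟩ := h
    exact ⟨E, tE, t2, act, cw, hc, hcont, hdim, hcell, hfree⟩

end Pool.Agent.SD
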