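import Mathlib
import Pool.Agent.SD.Gd

/-!
# Squad SD, module CWP: products of locally finite CW complexes
-/

set_option autoImplicit false

namespace Pool.Agent.SD

open Topology Set Metric

namespace Cwp

/-- splitting of the cube -/
noncomputable def spl {a b n : ℕ} (h : a + b = n) :
    (Fin n → ℝ) ≃ᵢ (Fin a → ℝ) × (Fin b → ℝ) := (Fin.appendIsometryOfEq h).symm

lemma spl_zero {a b n : ℕ} (h : a + b = n) : spl h 0 = 0 := by
  subst h
  ext i <;> rfl

lemma spl_symm_zero {a b n : ℕ} (h : a + b = n) : (spl h).symm (0, 0) = 0 := by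
  have h1 := (spl h).symm_apply_apply 0
  rw [spl_zero h] at h1
  exact h1

lemma spl_ball {a b n : ℕ} (h : a + b = n) :
    (spl h) ⁻¹' (ball 0 1 ×ˢ ball 0 1) = ball 0 1 := by
  rw [ball_prod_same, IsometryEquiv.preimage_ball, spl_symm_zero]

lemma spl_closedBall {a b n : ℕ} (h : a + b = n) :
    (spl h) ⁻¹' (closedBall 0 1 ×ˢ closedBall 0 1) = closedBall 0 1 := by
  rw [closedBall_prod_same, IsometryEquiv.preimage_closedBall, spl_symm_zero]

lemma image_of_preimage {α β γ : Type*} (e : α ≃ β) (f : β → γ) (s : Set β) :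
    (fun x => f (e x)) '' (e ⁻¹' s) = f '' s := by
  rw [← Function.comp_def, image_comp, image_preimage_eq s e.surjective]

section

variable {X Y : Type} [TopologicalSpace X] [TopologicalSpace Y]
  [CX : CWComplex (univ : Set X)] [CY : CWComplex (univ : Set Y)]

/-- cells of the product -/
abbrev pcell (X Y : Type) [TopologicalSpace X] [TopologicalSpace Y]
    [CWComplex (univ : Set X)] [CWComplex (univ : Set Y)] (n : ℕ) : Type :=
  {c : (Σ a, RelCWComplex.cell (univ : Set X) a) × (Σ b, RelCWComplex.cell (univ : Set Y) b) //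
    c.1.1 + c.2.1 = n}

/-- characteristic maps of the product -/
noncomputable def pmap (n : ℕ) (c : pcell X Y n) : PartialEquiv (Fin n → ℝ) (X × Y) :=
  (spl c.2).toEquiv.toPartialEquiv.trans
    ((RelCWComplex.map (C := (univ : Set X)) c.1.1.1 c.1.1.2).prod
      (RelCWComplex.map (C := (univ : Set Y)) c.1.2.1 c.1.2.2))

lemma pmap_apply (n : ℕ) (c : pcell X Y n) (x : Fin n → ℝ) :
    pmap n c x = (RelCWComplex.map (C := (univ : Set X)) c.1.1.1 c.1.1.2 (spl c.2 x).1,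
      RelCWComplex.map (C := (univ : Set Y)) c.1.2.1 c.1.2.2 (spl c.2 x).2) := rfl

lemma pmap_image (n : ℕ) (c : pcell X Y n) (s : Set (Fin c.1.1.1 → ℝ)) (t : Set (Fin c.1.2.1 → ℝ)) :
    pmap n c '' ((spl c.2) ⁻¹' (s ×ˢ t)) =
      (RelCWComplex.map (C := (univ : Set X)) c.1.1.1 c.1.1.2 '' s) ×ˢ
        (RelCWComplex.map (C := (univ : Set Y)) c.1.2.1 c.1.2.2 '' t) := by
  rw [← prodMap_image_prod]
  exact image_of_preimage (spl c.2).toEquiv (Prod.map
    (RelCWComplex.map (C := (univ : Set X)) c.1.1.1 c.1.1.2)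
    (RelCWComplex.map (C := (univ : Set Y)) c.1.2.1 c.1.2.2)) _

lemma pmap_ball (n : ℕ) (c : pcell X Y n) :
    pmap n c '' (ball 0 1) =
      (RelCWComplex.openCell (C := (univ : Set X)) c.1.1.1 c.1.1.2) ×ˢ
        (RelCWComplex.openCell (C := (univ : Set Y)) c.1.2.1 c.1.2.2) := by
  rw [← spl_ball c.2, pmap_image]
  rfl

lemma pmap_closedBall (n : ℕ) (c : pcell X Y n) :
    pmap n c '' (closedBall 0 1) =
      (RelCWComplex.closedCell (C := (univ : Set X)) c.1.1.1 c.1.1.2) ×ˢ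
        (RelCWComplex.closedCell (C := (univ : Set Y)) c.1.2.1 c.1.2.2) := by
  rw [← spl_closedBall c.2, pmap_image]
  rfl

/-- local finiteness -/
def LF (X : Type) [TopologicalSpace X] [CWComplex (univ : Set X)] : Prop :=
  ∀ x : X, ∃ O : Set X, IsOpen O ∧ x ∈ O ∧
      {c : Σ m, RelCWComplex.cell (univ : Set X) m |
        (RelCWComplex.closedCell c.1 c.2 ∩ O).Nonempty}.Finite

/-- the sigma type of the cells of the product -/
def toPair (c : Σ n, pcell X Y n) :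
    (Σ a, RelCWComplex.cell (univ : Set X) a) × (Σ b, RelCWComplex.cell (univ : Set Y) b) := c.2.1

lemma toPair_inj : Function.Injective (toPair (X := X) (Y := Y)) := by
  rintro ⟨n, c, hc⟩ ⟨m, e, he⟩ h
  change c = e at h
  subst h
  subst hc
  subst he
  rfl

lemma pLF (hX : LF X) (hY : LF Y) (x : X × Y) : ∃ O : Set (X × Y), IsOpen O ∧ x ∈ O ∧
      {c : Σ m, pcell X Y m | ((pmap c.1 c.2 '' closedBall 0 1) ∩ O).Nonempty}.Finite := by
  obtain ⟨O₁, h1, h2, h3⟩ := hX x.1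
  obtain ⟨O₂, k1, k2, k3⟩ := hY x.2
  refine ⟨O₁ ×ˢ O₂, h1.prod k1, ⟨h2, k2⟩, ?_⟩
  refine ((h3.prod k3).preimage (f := toPair) (toPair_inj.injOn)).subset ?_
  rintro ⟨n, c⟩ ⟨y, hy1, hy2⟩
  simp only at hy1
  rw [pmap_closedBall] at hy1
  exact ⟨⟨y.1, hy1.1, hy2.1⟩, ⟨y.2, hy1.2, hy2.2⟩⟩

lemma exists_closedCell (x : X) : ∃ c : Σ n, RelCWComplex.cell (univ : Set X) n,
    x ∈ RelCWComplex.closedCell (C := (univ : Set X)) c.1 c.2 := by
  have h : x ∈ (⋃ (n : ℕ) (j : RelCWComplex.cell (univ : Set X) n),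
      RelCWComplex.closedCell (C := (univ : Set X)) n j) := by
    rw [CWComplex.union]; trivial
  simp only [mem_iUnion] at h
  obtain ⟨n, j, h⟩ := h
  exact ⟨⟨n, j⟩, h⟩

lemma sphere_cases {a b n : ℕ} (h : a + b = n) {x : Fin n → ℝ} (hx : x ∈ sphere (0 : Fin n → ℝ) 1) :
    ((spl h x).1 ∈ sphere (0 : Fin a → ℝ) 1 ∧ (spl h x).2 ∈ closedBall (0 : Fin b → ℝ) 1) ∨
    ((spl h x).1 ∈ closedBall (0 : Fin a → ℝ) 1 ∧ (spl h x).2 ∈ sphere (0 : Fin b → ℝ) 1) := by
  have h1 : x ∈ (spl h) ⁻¹' (closedBall 0 1 ×ˢ closedBall 0 1) := by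
    rw [spl_closedBall]; exact sphere_subset_closedBall hx
  have h2 : x ∉ (spl h) ⁻¹' (ball 0 1 ×ˢ ball 0 1) := by
    rw [spl_ball]
    intro hb
    rw [mem_ball] at hb
    rw [mem_sphere] at hx
    linarith
  simp only [mem_preimage, mem_prod, mem_closedBall, mem_ball] at h1 h2
  simp only [mem_sphere, mem_closedBall]
  by_cases h3 : dist (spl h x).1 0 < 1
  · right
    refine ⟨h1.1, ?_⟩
    by_contra h4
    exact h2 ⟨h3, lt_of_le_of_ne h1.2 h4⟩
  · left
    exact ⟨le_antisymm h1.1 (not_lt.mp h3), h1.2⟩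

/-- the product complex -/
@[reducible]
noncomputable def prodCW (hX : LF X) (hY : LF Y) : CWComplex (univ : Set (X × Y)) where
  cell := pcell X Y
  map := pmap
  source_eq n c := by
    have h1 : (pmap n c).source = (spl c.2) ⁻¹'
      ((RelCWComplex.map (C := (univ : Set X)) c.1.1.1 c.1.1.2).source ×ˢ
        (RelCWComplex.map (C := (univ : Set Y)) c.1.2.1 c.1.2.2).source) := by
      simp [pmap, PartialEquiv.trans_source]
    rw [h1, RelCWComplex.source_eq, RelCWComplex.source_eq, spl_ball]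
  continuousOn n c := by
    have h1 := (RelCWComplex.continuousOn (C := (univ : Set X)) c.1.1.1 c.1.1.2).prodMap
      (RelCWComplex.continuousOn (C := (univ : Set Y)) c.1.2.1 c.1.2.2)
    refine h1.comp (spl c.2).continuous.continuousOn ?_
    intro x hx
    rw [← spl_closedBall c.2] at hx
    exact hx
  continuousOn_symm n c := by
    have h1 := (RelCWComplex.continuousOn_symm (C := (univ : Set X)) c.1.1.1 c.1.1.2).prodMap
      (RelCWComplex.continuousOn_symm (C := (univ : Set Y)) c.1.2.1 c.1.2.2)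
    have h2 : (pmap n c).target = (RelCWComplex.map (C := (univ : Set X)) c.1.1.1 c.1.1.2).target ×ˢ
        (RelCWComplex.map (C := (univ : Set Y)) c.1.2.1 c.1.2.2).target := by
      simp [pmap, PartialEquiv.trans_target]
    rw [h2]
    exact (spl c.2).symm.continuous.comp_continuousOn h1
  pairwiseDisjoint' := by
    rintro ⟨n, c⟩ - ⟨m, e⟩ - hne
    show Disjoint (pmap n c '' ball 0 1) (pmap m e '' ball 0 1)
    rw [pmap_ball, pmap_ball]
    have h1 : c.1 ≠ e.1 := fun h => hne (toPair_inj h)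
    rw [Set.disjoint_prod]
    by_cases h2 : c.1.1 = e.1.1
    · right
      refine RelCWComplex.disjoint_openCell_of_ne (fun h3 => h1 (Prod.ext h2 ?_))
      exact h3
    · left
      exact RelCWComplex.disjoint_openCell_of_ne h2
  mapsTo' n c := by
    classical
    obtain ⟨I, hI⟩ := CWComplex.mapsTo (C := (univ : Set X)) c.1.1.1 c.1.1.2
    obtain ⟨J, hJ⟩ := CWComplex.mapsTo (C := (univ : Set Y)) c.1.2.1 c.1.2.2
    have fI : {e : Σ a, RelCWComplex.cell (univ : Set X) a | e.1 < c.1.1.1 ∧ e.2 ∈ I e.1}.Finite := by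
      have : {e : Σ a, RelCWComplex.cell (univ : Set X) a | e.1 < c.1.1.1 ∧ e.2 ∈ I e.1} =
          ((Finset.range c.1.1.1).sigma I : Set (Σ a, RelCWComplex.cell (univ : Set X) a)) := by
        ext e; simp
      rw [this]; exact Finset.finite_toSet _
    have fJ : {e : Σ a, RelCWComplex.cell (univ : Set Y) a | e.1 < c.1.2.1 ∧ e.2 ∈ J e.1}.Finite := by
      have : {e : Σ a, RelCWComplex.cell (univ : Set Y) a | e.1 < c.1.2.1 ∧ e.2 ∈ J e.1} =
          ((Finset.range c.1.2.1).sigma J : Set (Σ a, RelCWComplex.cell (univ : Set Y) a)) := by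
        ext e; simp
      rw [this]; exact Finset.finite_toSet _
    have fP := (fI.prod (finite_singleton c.1.2)).union ((finite_singleton c.1.1).prod fJ)
    have fm : ∀ m, ((fun e : pcell X Y m => e.1) ⁻¹' _).Finite := fun m =>
      fP.preimage (f := fun e : pcell X Y m => e.1) Subtype.val_injective.injOn
    refine ⟨fun m => (fm m).toFinset, ?_⟩
    intro x hx
    rw [pmap_apply]
    simp only [mem_iUnion]
    rcases sphere_cases c.2 hx with ⟨h1, h2⟩ | ⟨h1, h2⟩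
    · have h3 := hI h1
      simp only [mem_iUnion] at h3
      obtain ⟨a, ha, j, hj, h4⟩ := h3
      refine ⟨a + c.1.2.1, ?_, ⟨(⟨a, j⟩, c.1.2), rfl⟩, ?_, ?_⟩
      · have := c.2; omega
      · rw [Set.Finite.mem_toFinset]
        left
        exact ⟨⟨ha, hj⟩, rfl⟩
      · rw [pmap_closedBall]
        exact ⟨h4, mem_image_of_mem _ h2⟩
    · have h3 := hJ h2
      simp only [mem_iUnion] at h3
      obtain ⟨b, hb, j, hj, h4⟩ := h3
      refine ⟨c.1.1.1 + b, ?_, ⟨(c.1.1, ⟨b, j⟩), rfl⟩, ?_, ?_⟩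
      · have := c.2; omega
      · rw [Set.Finite.mem_toFinset]
        right
        exact ⟨rfl, ⟨hb, hj⟩⟩
      · rw [pmap_closedBall]
        exact ⟨mem_image_of_mem _ h1, h4⟩
  closed' A _ hA := by
    have h1 : A = ⋃ c : Σ n, pcell X Y n, A ∩ pmap c.1 c.2 '' closedBall 0 1 := by
      ext x
      simp only [mem_iUnion, mem_inter_iff]
      refine ⟨fun hx => ?_, fun ⟨_, h, _⟩ => h⟩
      obtain ⟨c, hc⟩ := exists_closedCell x.1
      obtain ⟨e, he⟩ := exists_closedCell x.2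
      refine ⟨⟨c.1 + e.1, ⟨(c, e), rfl⟩⟩, hx, ?_⟩
      rw [pmap_closedBall]
      exact ⟨hc, he⟩
    rw [h1]
    refine LocallyFinite.isClosed_iUnion ?_ (fun c => hA c.1 c.2)
    intro x
    obtain ⟨O, h2, h3, h4⟩ := pLF hX hY x
    refine ⟨O, h2.mem_nhds h3, h4.subset ?_⟩
    rintro c ⟨y, ⟨_, hy⟩, hy'⟩
    exact ⟨y, hy, hy'⟩
  union' := by
    rw [eq_univ_iff_forall]
    intro x
    simp only [mem_iUnion]
    obtain ⟨c, hc⟩ := exists_closedCell x.1
    obtain ⟨e, he⟩ := exists_closedCell x.2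
    refine ⟨c.1 + e.1, ⟨(c, e), rfl⟩, ?_⟩
    rw [pmap_closedBall]
    exact ⟨hc, he⟩

end

/-- the action on a product -/
@[reducible]
def prodAct (G₁ G₂ E₁ E₂ : Type) [Group G₁] [Group G₂] [MulAction G₁ E₁] [MulAction G₂ E₂] :
    MulAction (G₁ × G₂) (E₁ × E₂) where
  smul g x := (g.1 • x.1, g.2 • x.2)
  one_smul x := by
    show ((1 : G₁ × G₂).1 • x.1, (1 : G₁ × G₂).2 • x.2) = x
    simp
  mul_smul g h x := by
    show ((g * h).1 • x.1, (g * h).2 • x.2) = (g.1 • h.1 • x.1, g.2 • h.2 • x.2)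
    simp [mul_smul]

end Cwp

open Cwp in
theorem cwp_proof : Stmt_CWProd := by
  intro G₁ G₂ _ _ a b h1 h2
  obtain ⟨E₁, tE₁, hT₁, aE₁, cE₁, hC₁, hcont₁, hdim₁, hperm₁, hfree₁, hlf₁⟩ := h1
  obtain ⟨E₂, tE₂, hT₂, aE₂, cE₂, hC₂, hcont₂, hdim₂, hperm₂, hfree₂, hlf₂⟩ := h2
  let act := prodAct G₁ G₂ E₁ E₂
  let cw : CWComplex (univ : Set (E₁ × E₂)) := prodCW hlf₁ hlf₂
  have hsm : ∀ (g : G₁ × G₂) (s : Set E₁) (t : Set E₂),
      (fun x : E₁ × E₂ => g • x) '' (s ×ˢ t) =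
        ((fun x : E₁ => g.1 • x) '' s) ×ˢ ((fun x : E₂ => g.2 • x) '' t) := by
    intro g s t
    rw [← prodMap_image_prod]
    rfl
  have hop : ∀ (m : ℕ) (c : RelCWComplex.cell (univ : Set (E₁ × E₂)) m),
      RelCWComplex.openCell (C := (univ : Set (E₁ × E₂))) m c =
      (RelCWComplex.openCell (C := (univ : Set E₁)) c.1.1.1 c.1.1.2) ×ˢ
        (RelCWComplex.openCell (C := (univ : Set E₂)) c.1.2.1 c.1.2.2) := fun m c => pmap_ball m c
  refine ⟨E₁ × E₂, inferInstance, inferInstance, act, cw, inferInstance, ?_, ?_, ?_, ?_, ?_⟩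
  · intro g
    exact ((hcont₁ g.1).comp continuous_fst).prodMk ((hcont₂ g.2).comp continuous_snd)
  · intro m hm
    refine ⟨fun c => ?_⟩
    have hc := c.2
    by_cases h : a < c.1.1.1
    · exact (hdim₁ _ h).false c.1.1.2
    · have h' : b < c.1.2.1 := by omega
      exact (hdim₂ _ h').false c.1.2.2
  · intro g m c
    obtain ⟨i, hi⟩ := hperm₁ g.1 c.1.1.1 c.1.1.2
    obtain ⟨j, hj⟩ := hperm₂ g.2 c.1.2.1 c.1.2.2
    refine ⟨⟨(⟨_, i⟩, ⟨_, j⟩), c.2⟩, ?_⟩
    have e1 := hop m c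
    have e2 := hop m ⟨(⟨_, i⟩, ⟨_, j⟩), c.2⟩
    have e3 := hsm g (RelCWComplex.openCell (C := (univ : Set E₁)) c.1.1.1 c.1.1.2)
      (RelCWComplex.openCell (C := (univ : Set E₂)) c.1.2.1 c.1.2.2)
    rw [hi, hj] at e3
    exact (congrArg (fun s => (fun x : E₁ × E₂ => g • x) '' s) e1).trans (e3.trans e2.symm)
  · intro g m c h
    rw [hop, hsm] at h
    have ne1 := RelCWComplex.openCell_nonempty (C := (univ : Set E₁)) c.1.1.1 c.1.1.2
    have ne2 := RelCWComplex.openCell_nonempty (C := (univ : Set E₂)) c.1.2.1 c.1.2.2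
    rw [Set.prod_eq_prod_iff_of_nonempty ((ne1.image _).prod (ne2.image _))] at h
    exact Prod.ext (hfree₁ _ _ _ h.1) (hfree₂ _ _ _ h.2)
  · exact pLF hlf₁ hlf₂

end Pool.Agent.SD
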