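import Mathlib
import Pool.Agent.SD.Cat

/-!
# Squad SD, module GEO: the final geometric statement
-/

set_option autoImplicit false

namespace Pool.Agent.SD
namespace GEO

/-- A rose with `H` loops as a one-vertex square complex without squares. -/
def rose (H : Type) : VHData H Empty Empty where
  h := Empty.elim
  v := Empty.elim
  v' := Empty.elim
  h' := Empty.elim
  inj_hv := fun s => s.elim
  inj_hv' := fun s => s.elim
  inj_h'v := fun s => s.elim
  inj_h'v' := fun s => s.elim

/-- The group of the rose is free. -/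
noncomputable def roseIso (H : Type) : (rose H).Grp ≃* FreeGroup H := by
  have e : Subgroup.normalClosure (Set.range (rose H).word) = ⊥ := by
    have : Set.range (rose H).word = ∅ := Set.range_eq_empty _
    rw [this]
    exact Subgroup.normalClosure_empty
  exact ((QuotientGroup.quotientMulEquivOfEq e).trans QuotientGroup.quotientBot).trans
    (FreeGroup.freeGroupCongr (Equiv.sumEmpty H Empty))

theorem finite_HL {X J : Type} [Finite X] [Finite J] : Finite (HL X J) := by
  let f : HL X J → Option (X ⊕ (X ⊕ J) ⊕ X)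
    | .a0 => none
    | .a x => some (Sum.inl x)
    | .f k => some (Sum.inr (Sum.inl k))
    | .h x => some (Sum.inr (Sum.inr x))
  apply Finite.of_injective f
  intro a b h
  cases a <;> cases b <;> simp_all [f]

theorem finite_VL {X J : Type} [Finite X] [Finite J] : Finite (VL X J) := by
  let f : VL X J → Option ((X ⊕ J) ⊕ X ⊕ X)
    | .v0 => none
    | .v k => some (Sum.inl k)
    | .e x => some (Sum.inr (Sum.inl x))
    | .y x => some (Sum.inr (Sum.inr x))
  apply Finite.of_injective f
  intro a b h
  cases a <;> cases b <;> simp_all [f]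

end GEO

/-- Every VH group with finitely many letters is a CAT(0) group (Stewart form). -/
theorem GEO.catGroup_vh (h : Stmt_VHST) (h' : Stmt_ST) (H V S : Type) [Finite H] [Finite V]
    (D : VHData H V S) : CATGroup D.Grp := by
  obtain ⟨σ⟩ := h H V S D
  exact h' D.Grp σ

theorem geo_proof (h1 : Stmt_VHST) (h2 : Stmt_ST) (h3 : Stmt_CProd) (h4 : Stmt_CATeq) :
    Stmt_Geo := by
  have i1 : Finite (HL Lab (Fin 6)) := GEO.finite_HL
  have i2 : Finite (VL Lab (Fin 6)) := GEO.finite_VL
  have a1 : CATGroup P0.gad.Grp := GEO.catGroup_vh h1 h2 _ _ _ P0.gad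
  have a2 : CATGroup (FreeGroup Lab) :=
    h3.2 _ _ (GEO.roseIso Lab) (GEO.catGroup_vh h1 h2 _ _ _ (GEO.rose Lab))
  obtain ⟨Z, m, act, hne, hc, hg⟩ := h3.1 _ _ a1 a2
  exact ⟨Z, m, act, hne, h4 Z hc, hg⟩

end Pool.Agent.SD
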