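import Mathlib
import Pool.Agent.SD.Gd
import Pool.Agent.SD.Geo

/-!
# Squad SD, module GD: the geometric dimension is 3 (assembly)
-/

set_option autoImplicit false

namespace Pool.Agent.SD

open Topology Set

theorem GDM.upper (hS : Stmt_STCW) (hV : Stmt_VHFree) (hP : Stmt_CWProd) (hI : Stmt_CWIso) :
    FreeCW (P0.gad.Grp × FreeGroup Lab) 3 := by
  have i1 : Finite (HL Lab (Fin 6)) := GEO.finite_HL
  have i2 : Finite (VL Lab (Fin 6)) := GEO.finite_VL
  obtain ⟨σ, h1, -⟩ := hV _ _ _ P0.gad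
  obtain ⟨τ, h2, h3⟩ := hV _ _ _ (GEO.rose Lab)
  have a1 : FreeCWlf P0.gad.Grp 2 := (hS _ σ h1).1
  have a2 : FreeCWlf (GEO.rose Lab).Grp 1 := (hS _ τ h2).2 (h3 inferInstance)
  have a3 : FreeCWlf (FreeGroup Lab) 1 := hI.1 _ _ _ (GEO.roseIso Lab) a2
  exact hI.2 _ _ (hP _ _ _ _ a1 a3)

theorem GDM.noMap (hC : Stmt_LBC) (h : (Fin 3 → ℝ) → (Fin 3 → ℝ)) (hc : Continuous h)
    (he : ∀ (x : Fin 3 → ℝ) (n : Fin 3 → ℤ), h (x + fun i => (n i : ℝ)) = h x + fun i => (n i : ℝ)) :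
    Function.Surjective h := by
  apply hC h hc
  have hcomp : IsCompact (Set.Icc (0 : Fin 3 → ℝ) 1) := isCompact_Icc
  obtain ⟨C, hCb⟩ := hcomp.exists_bound_of_continuousOn
    (f := fun x => h x - x) (hc.sub continuous_id).continuousOn
  refine ⟨C, fun x => ?_⟩
  have h1 : x = (fun i => Int.fract (x i)) + fun i => ((⌊x i⌋ : ℤ) : ℝ) := by
    funext i
    change x i = Int.fract (x i) + (⌊x i⌋ : ℝ)
    rw [Int.fract_add_floor]
  have h2 : h x - x = h (fun i => Int.fract (x i)) - fun i => Int.fract (x i) := by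
    conv_lhs => rw [h1]
    rw [he]
    abel
  rw [h2]
  apply hCb
  constructor
  · intro i
    exact Int.fract_nonneg _
  · intro i
    exact (Int.fract_lt_one _).le

theorem GDM.lower (hA : Stmt_LBA) (hB : Stmt_LBB) (hC : Stmt_LBC) {G : Type} [Group G]
    (f : Multiplicative (Fin 3 → ℤ) →* G) (hf : Function.Injective f) (m : ℕ) (hm : m < 3) :
    ¬ FreeCW G m := by
  rintro ⟨E, t1, t2, act, cw, hE, hcont, hdim, hcell, hfree⟩
  let act' : AddAction (Fin 3 → ℤ) E :=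
    { vadd := fun n x => f (Multiplicative.ofAdd n) • x
      zero_vadd := fun x => by
        change f (Multiplicative.ofAdd 0) • x = x
        rw [ofAdd_zero, map_one, one_smul]
      add_vadd := fun a b x => by
        change f (Multiplicative.ofAdd (a + b)) • x =
          f (Multiplicative.ofAdd a) • f (Multiplicative.ofAdd b) • x
        rw [ofAdd_add, map_mul, mul_smul] }
  obtain ⟨a, ha1, ha2⟩ := hA E (fun n => hcont _)
  obtain ⟨b, hb1, hb2, hb3⟩ := hB E (fun n => hcont _)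
    (fun k hk => hdim k (by omega))
    (fun g k i => hcell (f (Multiplicative.ofAdd g)) k i)
    (fun g k i hg => by
      have h1 := hfree (f (Multiplicative.ofAdd g)) k i hg
      have h2 : Multiplicative.ofAdd g = 1 := hf (by rw [h1, map_one])
      exact h2)
  obtain ⟨x, hx⟩ := GDM.noMap hC (fun x => b (a x)) (hb1.comp ha1)
    (fun x n => by rw [ha2, hb2]) (fun _ => ((0 : ℤ) : ℝ) + 1 / 2)
  exact hb3 (a x) 0 hx

theorem gd_proof (hS : Stmt_STCW) (hV : Stmt_VHFree) (hP : Stmt_CWProd) (hI : Stmt_CWIso)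
    (hA : Stmt_LBA) (hB : Stmt_LBB) (hC : Stmt_LBC) (hZ : Stmt_Z3) : Stmt_GD := by
  refine ⟨GDM.upper hS hV hP hI, fun m hm => ?_⟩
  obtain ⟨f, hf⟩ := hZ
  exact GDM.lower hA hB hC f hf m hm

end Pool.Agent.SD
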