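import Pool.Agent.SD.Gd

/-!
# Squad SD: equivariant maps from `ℝ³` to a contractible space

For a finite sorted list of group elements with weights one forms an iterated cone; the value does
not see elements of weight zero and is equivariant, so that a locally finite equivariant family of
weights on `ℝ³` gives an equivariant map.
-/

set_option autoImplicit false
set_option linter.unusedSectionVars false

namespace Pool.Agent.SD

open Topology Set

namespace LBAX

section val

variable {G E : Type} [AddCommGroup G] [LinearOrder G] [IsOrderedAddMonoid G]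
  [TopologicalSpace E] [AddAction G E]

/-- iterated cones -/
noncomputable def valL (C : E → ℝ → E) (p : E) (w : G → ℝ) : List G → E
  | [] => p
  | n :: l => n +ᵥ C (-n +ᵥ valL C p w l) (w n / (w n + (l.map w).sum))

theorem sum_filter (w : G → ℝ) (l : List G) :
    ((l.filter fun n => decide (w n ≠ 0)).map w).sum = (l.map w).sum := by
  induction l with
  | nil => rfl
  | cons n l ih =>
    by_cases h : w n = 0
    · simp [h] at ih ⊢
      exact ih
    · simp [h] at ih ⊢
      exact ih

theorem valL_filter (C : E → ℝ → E) (hC : ∀ y, C y 0 = y) (p : E) (w : G → ℝ) (l : List G) :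
    valL C p w (l.filter fun n => decide (w n ≠ 0)) = valL C p w l := by
  induction l with
  | nil => rfl
  | cons n l ih =>
    by_cases h : w n = 0
    · have h1 : (n :: l).filter (fun n => decide (w n ≠ 0)) =
          l.filter (fun n => decide (w n ≠ 0)) := by
        simp [h]
      rw [h1, ih, valL, h, zero_div, hC, vadd_vadd, add_neg_cancel, zero_vadd]
    · have h1 : (n :: l).filter (fun n => decide (w n ≠ 0)) =
          n :: l.filter (fun n => decide (w n ≠ 0)) := by
        simp [h]
      rw [h1, valL, ih, sum_filter, valL]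

theorem sum_nonneg (w : G → ℝ) (hw : ∀ n, 0 ≤ w n) (l : List G) : 0 ≤ (l.map w).sum := by
  apply List.sum_nonneg
  intro x hx
  rw [List.mem_map] at hx
  obtain ⟨n, _, rfl⟩ := hx
  exact hw n

theorem valL_map (C : E → ℝ → E) (p q : E) (hC : ∀ y s, 1 / 2 ≤ s → C y s = q) (w w' : G → ℝ)
    (m : G) (hw : ∀ n, 0 ≤ w n) (hww : ∀ n, w' (n + m) = w n) (l : List G)
    (hl : 0 < (l.map w).sum) :
    valL C p w' (l.map (· + m)) = m +ᵥ valL C p w l := by
  induction l with
  | nil => simp at hl
  | cons n l ih =>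
    have h0 : ((l.map (· + m)).map w').sum = (l.map w).sum := by
      rw [List.map_map]
      congr 1
      apply List.map_congr_left
      intro x _
      exact hww x
    rw [List.map_cons, valL, h0, hww, valL]
    rcases (sum_nonneg w hw l).lt_or_eq with h | h
    · rw [ih h, vadd_vadd, neg_add_rev]
      have h1 : -m + -n + m = -n := by abel
      rw [h1, add_comm n m, ← vadd_vadd]
    · rw [List.map_cons, List.sum_cons, ← h, add_zero] at hl
      rw [← h, add_zero, div_self hl.ne', hC _ _ (by norm_num), hC _ _ (by norm_num),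
        add_comm n m, ← vadd_vadd]

theorem valL_cont {X : Type} [TopologicalSpace X] (C : E → ℝ → E) (p q : E)
    (hC : ∀ y s, 1 / 2 ≤ s → C y s = q) (hCc : Continuous fun z : E × ℝ => C z.1 z.2)
    (hG : ∀ g : G, Continuous fun y : E => g +ᵥ y) (w : X → G → ℝ)
    (hw : ∀ x n, 0 ≤ w x n) (hwc : ∀ n, Continuous fun x => w x n) (l : List G) (x₀ : X)
    (hl : 0 < (l.map (w x₀)).sum) : ContinuousAt (fun x => valL C p (w x) l) x₀ := by
  have hsum : ∀ l : List G, Continuous fun x => (l.map (w x)).sum := by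
    intro l
    induction l with
    | nil => simpa using continuous_const
    | cons n l ih =>
      simp only [List.map_cons, List.sum_cons]
      exact (hwc n).add ih
  induction l with
  | nil => simp at hl
  | cons n l ih =>
    simp only [valL]
    have hs : ContinuousAt (fun x => w x n / (w x n + (l.map (w x)).sum)) x₀ := by
      apply (hwc n).continuousAt.div ((hwc n).add (hsum l)).continuousAt
      rw [List.map_cons, List.sum_cons] at hl
      exact hl.ne'
    rcases (sum_nonneg (w x₀) (hw x₀) l).lt_or_eq with h | h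
    · have h1 := (hG (-n)).continuousAt.comp (ih h)
      have h2 : ContinuousAt (fun x => (-n +ᵥ valL C p (w x) l,
          w x n / (w x n + (l.map (w x)).sum))) x₀ := h1.prodMk hs
      exact (hG n).continuousAt.comp (hCc.continuousAt.comp h2)
    · rw [List.map_cons, List.sum_cons, ← h, add_zero] at hl
      have h1 : ∀ᶠ x in 𝓝 x₀, (1 / 2 : ℝ) < w x n / (w x n + (l.map (w x)).sum) := by
        apply hs.eventually_const_lt
        change 1 / 2 < w x₀ n / (w x₀ n + (l.map (w x₀)).sum)
        rw [← h, add_zero, div_self hl.ne']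
        norm_num
      have h2 : (fun x => n +ᵥ C (-n +ᵥ valL C p (w x) l)
          (w x n / (w x n + (l.map (w x)).sum))) =ᶠ[𝓝 x₀] fun _ => n +ᵥ q := by
        filter_upwards [h1] with x hx
        rw [hC _ _ hx.le]
      exact continuousAt_const.congr h2.symm

/-- the value for a finite set -/
noncomputable def valS (C : E → ℝ → E) (p : E) (w : G → ℝ) (S : Finset G) : E :=
  valL C p w (S.sort)

theorem valS_eq (C : E → ℝ → E) (hC : ∀ y, C y 0 = y) (p : E) (w : G → ℝ) (S T : Finset G)
    (hS : ∀ n, n ∈ S ↔ w n ≠ 0) (hT : ∀ n, w n ≠ 0 → n ∈ T) :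
    valS C p w T = valS C p w S := by
  have h1 : (T.sort).filter (fun n => decide (w n ≠ 0)) = S.sort := by
    have h2 : ((T.sort).filter fun n => decide (w n ≠ 0)).Nodup :=
      (Finset.sort_nodup _ _).filter _
    have h3 : ((T.sort).filter fun n => decide (w n ≠ 0)).toFinset = S := by
      ext n
      rw [List.mem_toFinset, List.mem_filter, Finset.mem_sort, hS]
      simp only [decide_eq_true_eq]
      exact ⟨fun h => h.2, fun h => ⟨hT n h, h⟩⟩
    rw [← h3]
    exact ((List.toFinset_sort _ h2).mpr ((Finset.pairwise_sort _ _).filter _)).symm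
  rw [valS, valS, ← h1, valL_filter C hC]

theorem valS_map (C : E → ℝ → E) (p q : E) (hC : ∀ y s, 1 / 2 ≤ s → C y s = q) (w w' : G → ℝ)
    (m : G) (hw : ∀ n, 0 ≤ w n) (hww : ∀ n, w' (n + m) = w n) (S S' : Finset G)
    (hS : ∀ n, n + m ∈ S' ↔ n ∈ S) (hpos : ∃ n ∈ S, w n ≠ 0) :
    valS C p w' S' = m +ᵥ valS C p w S := by
  have h1 : (S.sort).map (· + m) = S'.sort := by
    have h2 : ((S.sort).map (· + m)).Nodup :=
      (Finset.sort_nodup _ _).map (add_left_injective m)
    have h3 : ((S.sort).map (· + m)).toFinset = S' := by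
      ext n
      rw [List.mem_toFinset, List.mem_map]
      constructor
      · rintro ⟨k, hk, rfl⟩
        rw [Finset.mem_sort] at hk
        exact (hS k).mpr hk
      · intro h
        refine ⟨n - m, ?_, sub_add_cancel n m⟩
        rw [Finset.mem_sort, ← hS, sub_add_cancel]
        exact h
    rw [← h3]
    refine ((List.toFinset_sort _ h2).mpr ?_).symm
    rw [List.pairwise_map]
    exact (Finset.pairwise_sort S (· ≤ ·)).imp fun h => add_le_add_left h m
  rw [valS, valS, ← h1]
  apply valL_map C p q hC w w' m hw hww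
  obtain ⟨n, hn, hn0⟩ := hpos
  have h4 : w n ≤ ((S.sort).map w).sum := by
    apply List.single_le_sum
    · intro x hx
      rw [List.mem_map] at hx
      obtain ⟨k, _, rfl⟩ := hx
      exact hw k
    · exact List.mem_map.mpr ⟨n, (Finset.mem_sort _).mpr hn, rfl⟩
  exact lt_of_lt_of_le (lt_of_le_of_ne (hw n) (Ne.symm hn0)) h4

end val

section weights

/-- the weights -/
noncomputable def wt (x : Fin 3 → ℝ) (n : Lex (Fin 3 → ℤ)) : ℝ :=
  ∏ i, max 0 (1 - |x i - (ofLex n i : ℝ)|)

theorem wt_nonneg (x : Fin 3 → ℝ) (n : Lex (Fin 3 → ℤ)) : 0 ≤ wt x n :=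
  Finset.prod_nonneg fun _ _ => le_max_left _ _

theorem wt_cont (n : Lex (Fin 3 → ℤ)) : Continuous fun x => wt x n := by
  unfold wt
  fun_prop

theorem wt_ne (x : Fin 3 → ℝ) (n : Lex (Fin 3 → ℤ)) :
    wt x n ≠ 0 ↔ ∀ i, |x i - (ofLex n i : ℝ)| < 1 := by
  rw [wt, Finset.prod_ne_zero_iff]
  constructor
  · intro h i
    by_contra h2
    push Not at h2
    exact h i (Finset.mem_univ i) (max_eq_left (by linarith))
  · intro h i _
    have := h i
    exact (lt_of_lt_of_le (by linarith) (le_max_right _ _)).ne'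

theorem wt_shift (x : Fin 3 → ℝ) (m n : Lex (Fin 3 → ℤ)) :
    wt (x + fun i => (ofLex m i : ℝ)) (n + m) = wt x n := by
  unfold wt
  refine Finset.prod_congr rfl fun i _ => ?_
  have h1 : (x + fun i => (ofLex m i : ℝ)) i - (ofLex (n + m) i : ℝ) =
      x i - (ofLex n i : ℝ) := by
    rw [ofLex_add, Pi.add_apply, Pi.add_apply]
    push_cast
    ring
  rw [h1]

/-- a finite set of lattice points -/
noncomputable def box (a b : Fin 3 → ℤ) : Finset (Lex (Fin 3 → ℤ)) :=
  (Fintype.piFinset fun i => Finset.Icc (a i) (b i)).map (Equiv.toEmbedding toLex)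

theorem mem_box (a b : Fin 3 → ℤ) (n : Lex (Fin 3 → ℤ)) :
    n ∈ box a b ↔ ∀ i, a i ≤ ofLex n i ∧ ofLex n i ≤ b i := by
  rw [box, Finset.mem_map]
  constructor
  · rintro ⟨k, hk, rfl⟩ i
    rw [Fintype.mem_piFinset] at hk
    exact Finset.mem_Icc.mp (hk i)
  · intro h
    refine ⟨ofLex n, ?_, rfl⟩
    rw [Fintype.mem_piFinset]
    exact fun i => Finset.mem_Icc.mpr (h i)

/-- a finite set which contains the supports of the weights near `x₀` -/
noncomputable def near (x₀ : Fin 3 → ℝ) : Finset (Lex (Fin 3 → ℤ)) :=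
  box (fun i => ⌊x₀ i⌋ - 1) (fun i => ⌊x₀ i⌋ + 2)

theorem mem_near (x₀ x : Fin 3 → ℝ) (hx : ∀ i, |x i - x₀ i| < 1) (n : Lex (Fin 3 → ℤ))
    (hn : wt x n ≠ 0) : n ∈ near x₀ := by
  rw [near, mem_box]
  intro i
  have h1 := (wt_ne x n).mp hn i
  have h2 := hx i
  rw [abs_lt] at h1 h2
  have h3 := Int.floor_le (x₀ i)
  have h4 := Int.lt_floor_add_one (x₀ i)
  constructor
  · have : ((⌊x₀ i⌋ - 2 : ℤ) : ℝ) < (ofLex n i : ℝ) := by push_cast; linarith
    have := Int.cast_lt.mp this
    omega
  · have : (ofLex n i : ℝ) < ((⌊x₀ i⌋ + 3 : ℤ) : ℝ) := by push_cast; linarith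
    have := Int.cast_lt.mp this
    omega

open Classical in
/-- the support of the weights -/
noncomputable def supp (x : Fin 3 → ℝ) : Finset (Lex (Fin 3 → ℤ)) :=
  (near x).filter fun n => wt x n ≠ 0

theorem mem_supp (x : Fin 3 → ℝ) (n : Lex (Fin 3 → ℤ)) : n ∈ supp x ↔ wt x n ≠ 0 := by
  rw [supp, Finset.mem_filter]
  exact ⟨fun h => h.2, fun h => ⟨mem_near x x (fun i => by simp) n h, h⟩⟩

theorem exists_wt (x : Fin 3 → ℝ) : ∃ n, wt x n ≠ 0 := by
  refine ⟨toLex fun i => round (x i), ?_⟩
  rw [wt_ne]
  intro i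
  have := abs_sub_round (x i)
  change |x i - (round (x i) : ℝ)| < 1
  linarith

end weights

end LBAX

open LBAX in
theorem lba_proof : Stmt_LBA := by
  classical
  intro E _ _ _ hE
  -- the contraction
  obtain ⟨q, ⟨H⟩⟩ := id_nullhomotopic E
  let C : E → ℝ → E := fun y s => H (Set.projIcc 0 1 zero_le_one (2 * s), y)
  have hC0 : ∀ y, C y 0 = y := by
    intro y
    have h1 : Set.projIcc (0 : ℝ) 1 zero_le_one (2 * 0) = 0 := by
      rw [mul_zero]; exact Set.projIcc_left _
    change H (Set.projIcc 0 1 zero_le_one (2 * 0), y) = y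
    rw [h1]
    simp
  have hC1 : ∀ y s, 1 / 2 ≤ s → C y s = q := by
    intro y s hs
    have h1 : Set.projIcc (0 : ℝ) 1 zero_le_one (2 * s) = 1 :=
      Set.projIcc_of_right_le _ (by linarith)
    change H (Set.projIcc 0 1 zero_le_one (2 * s), y) = q
    rw [h1]
    simp
  have hCc : Continuous fun z : E × ℝ => C z.1 z.2 := by
    change Continuous fun z : E × ℝ => H (Set.projIcc 0 1 zero_le_one (2 * z.2), z.1)
    apply H.continuous.comp
    exact (continuous_projIcc.comp (continuous_const.mul continuous_snd)).prodMk continuous_fst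
  let _ : AddAction (Lex (Fin 3 → ℤ)) E := inferInstanceAs (AddAction (Fin 3 → ℤ) E)
  have hG : ∀ g : Lex (Fin 3 → ℤ), Continuous fun y : E => g +ᵥ y := fun g => hE (ofLex g)
  refine ⟨fun x => valS C q (wt x) (supp x), ?_, ?_⟩
  · rw [continuous_iff_continuousAt]
    intro x₀
    have h1 : (fun x => valS C q (wt x) (supp x)) =ᶠ[𝓝 x₀]
        fun x => valL C q (wt x) (near x₀).sort := by
      have h2 : ∀ᶠ x in 𝓝 x₀, ∀ i, |x i - x₀ i| < 1 := by
        rw [Filter.eventually_all]
        intro i
        have h3 : ContinuousAt (fun x : Fin 3 → ℝ => |x i - x₀ i|) x₀ :=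
          (continuous_abs.comp ((continuous_apply i).sub continuous_const)).continuousAt
        apply h3.eventually_lt_const
        simp
      filter_upwards [h2] with x hx
      exact (valS_eq C hC0 q (wt x) (supp x) (near x₀) (mem_supp x)
        (fun n hn => mem_near x₀ x hx n hn)).symm
    refine ContinuousAt.congr ?_ h1.symm
    apply valL_cont C q q hC1 hCc hG wt wt_nonneg wt_cont
    obtain ⟨n, hn⟩ := exists_wt x₀
    have h4 : wt x₀ n ≤ (((near x₀).sort).map (wt x₀)).sum := by
      apply List.single_le_sum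
      · intro x hx
        rw [List.mem_map] at hx
        obtain ⟨k, _, rfl⟩ := hx
        exact wt_nonneg x₀ k
      · exact List.mem_map.mpr ⟨n, (Finset.mem_sort _).mpr
          (mem_near x₀ x₀ (fun i => by simp) n hn), rfl⟩
    exact lt_of_lt_of_le (lt_of_le_of_ne (wt_nonneg x₀ n) (Ne.symm hn)) h4
  · intro x n
    obtain ⟨k, hk⟩ := exists_wt x
    exact valS_map C q q hC1 (wt x) (wt (x + fun i => (n i : ℝ))) (toLex n) (wt_nonneg x)
      (fun k => wt_shift x (toLex n) k) (supp x) (supp (x + fun i => (n i : ℝ)))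
      (fun k => by
        rw [mem_supp, mem_supp]
        rw [show wt (x + fun i => (n i : ℝ)) (k + toLex n) = wt x k from wt_shift x (toLex n) k])
      ⟨k, (mem_supp x k).mpr hk, hk⟩

end Pool.Agent.SD
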