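import Pool.Agent.SD.Gd

/-!
# Squad SD, module LBB: equivariant maps from free `ℤ³`-complexes of dimension at most 2
-/

set_option autoImplicit false
set_option linter.unusedSectionVars false

namespace Pool.Agent.SD.LBBX

open Topology Set Metric RelCWComplex

/-- The real vector of an integer vector. -/
def vv (g : Fin 3 → ℤ) : Fin 3 → ℝ := fun i => (g i : ℝ)

theorem vv_add (g h : Fin 3 → ℤ) : vv (g + h) = vv g + vv h := by
  funext i
  simp [vv]

theorem vv_zero : vv 0 = 0 := by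
  funext i
  simp [vv]

theorem vv_neg (g : Fin 3 → ℤ) : vv (-g) = -vv g := by
  funext i
  simp [vv]

/-- Continuity on images of compact sets. -/
theorem continuousOn_image {X E Y : Type*} [TopologicalSpace X] [TopologicalSpace E] [T2Space E]
    [TopologicalSpace Y] {K : Set X} (hK : IsCompact K) {φ : X → E} (hφ : ContinuousOn φ K)
    {F : E → Y} (hF : ContinuousOn (F ∘ φ) K) : ContinuousOn F (φ '' K) := by
  rw [continuousOn_iff_isClosed]
  intro t ht
  obtain ⟨u, hu, hu2⟩ := (continuousOn_iff_isClosed.1 hF) t ht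
  refine ⟨φ '' (u ∩ K), ?_, ?_⟩
  · exact ((hK.inter_left hu).image_of_continuousOn (hφ.mono inter_subset_right)).isClosed
  · ext y
    constructor
    · rintro ⟨hy, x, hx, rfl⟩
      have : x ∈ u ∩ K := by
        rw [← hu2]
        exact ⟨hy, hx⟩
      exact ⟨⟨x, this, rfl⟩, x, hx, rfl⟩
    · rintro ⟨⟨x, hx, rfl⟩, _⟩
      rw [← hu2] at hx
      exact ⟨hx.1, x, hx.2, rfl⟩

/-- Finite unions of closed sets. -/
theorem fin_union {ι E Y : Type*} [TopologicalSpace E] [TopologicalSpace Y] (I : Finset ι)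
    (A : ι → Set E) (hA : ∀ j, IsClosed (A j)) (F : E → Y) (hF : ∀ j, ContinuousOn F (A j)) :
    IsClosed (⋃ j ∈ I, A j) ∧ ContinuousOn F (⋃ j ∈ I, A j) := by
  classical
  induction I using Finset.induction_on with
  | empty => simp
  | insert a s ha ih =>
    rw [Finset.set_biUnion_insert]
    exact ⟨(hA a).union ih.1, (hF a).union_of_isClosed ih.2 (hA a) ih.1⟩

section Act

variable {E : Type} [TopologicalSpace E] [AddAction (Fin 3 → ℤ) E] [CWComplex (univ : Set E)]

variable (E) in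
/-- The hypotheses on the action. -/
structure Act : Prop where
  cont : ∀ n : Fin 3 → ℤ, Continuous fun x : E => n +ᵥ x
  perm : ∀ (g : Fin 3 → ℤ) (m : ℕ) (i : cell (univ : Set E) m), ∃ j : cell (univ : Set E) m,
    (fun x : E => g +ᵥ x) '' openCell m i = openCell m j
  free : ∀ (g : Fin 3 → ℤ) (m : ℕ) (i : cell (univ : Set E) m),
    (fun x : E => g +ᵥ x) '' openCell m i = openCell m i → g = 0

theorem img_img (g h : Fin 3 → ℤ) (s : Set E) :
    (fun x : E => g +ᵥ x) '' ((fun x : E => h +ᵥ x) '' s) = (fun x : E => (g + h) +ᵥ x) '' s := by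
  rw [image_image]
  simp only [add_vadd]

theorem img_zero (s : Set E) : (fun x : E => (0 : Fin 3 → ℤ) +ᵥ x) '' s = s := by
  simp

/-- Two cells in the same orbit. -/
def rel (m : ℕ) : Setoid (cell (univ : Set E) m) where
  r i j := ∃ g : Fin 3 → ℤ, (fun x : E => g +ᵥ x) '' openCell m i = openCell m j
  iseqv :=
    { refl := fun i => ⟨0, img_zero _⟩
      symm := by
        rintro i j ⟨g, hg⟩
        refine ⟨-g, ?_⟩
        rw [← hg, img_img, neg_add_cancel, img_zero]
      trans := by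
        rintro i j k ⟨g, hg⟩ ⟨h, hh⟩
        refine ⟨h + g, ?_⟩
        rw [← img_img, hg, hh] }

/-- The representative. -/
noncomputable def rep {m : ℕ} (i : cell (univ : Set E) m) : cell (univ : Set E) m :=
  (Quotient.mk (rel m) i).out

theorem exists_gg {m : ℕ} (i : cell (univ : Set E) m) :
    ∃ g : Fin 3 → ℤ, (fun x : E => g +ᵥ x) '' openCell m (rep i) = openCell m i :=
  Quotient.exact (Quotient.out_eq (Quotient.mk (rel m) i))

/-- The translation. -/
noncomputable def gg {m : ℕ} (i : cell (univ : Set E) m) : Fin 3 → ℤ := (exists_gg i).choose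

theorem gg_spec {m : ℕ} (i : cell (univ : Set E) m) :
    (fun x : E => gg i +ᵥ x) '' openCell m (rep i) = openCell m i := (exists_gg i).choose_spec

theorem rep_eq {m : ℕ} {i j : cell (univ : Set E) m} {g : Fin 3 → ℤ}
    (h : (fun x : E => g +ᵥ x) '' openCell m i = openCell m j) : rep j = rep i := by
  unfold rep
  congr 1
  exact (Quotient.sound (s := rel m) ⟨g, h⟩).symm

theorem rep_rep {m : ℕ} (i : cell (univ : Set E) m) : rep (rep i) = rep i :=
  (rep_eq (gg_spec i)).symm

theorem gg_eq (hA : Act E) {m : ℕ} {i j : cell (univ : Set E) m} {g : Fin 3 → ℤ}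
    (h : (fun x : E => g +ᵥ x) '' openCell m i = openCell m j) : gg j = g + gg i := by
  have h1 := gg_spec j
  rw [rep_eq h, ← h, ← gg_spec i, img_img] at h1
  have h2 : (fun x : E => (-gg j + (g + gg i)) +ᵥ x) '' openCell m (rep i) = openCell m (rep i) := by
    rw [← img_img, ← h1, img_img, neg_add_cancel, img_zero]
  have h3 := hA.free _ _ _ h2
  rw [neg_add_eq_zero] at h3
  exact h3

theorem gg_rep (hA : Act E) {m : ℕ} (i : cell (univ : Set E) m) : gg (rep i) = 0 := by
  refine hA.free _ m (rep i) ?_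
  have := gg_spec (rep i)
  rwa [rep_rep] at this

theorem cell_unique {m : ℕ} {i j : cell (univ : Set E) m} {x : E} (hi : x ∈ openCell m i)
    (hj : x ∈ openCell m j) : i = j := by
  by_contra hne
  have h : (⟨m, i⟩ : Σ n, cell (univ : Set E) n) ≠ ⟨m, j⟩ := fun h => hne (by simpa using h)
  exact (Set.disjoint_left.1 (disjoint_openCell_of_ne h)) hi hj

theorem dim_unique {m n : ℕ} {i : cell (univ : Set E) m} {j : cell (univ : Set E) n} {x : E}
    (hi : x ∈ openCell m i) (hj : x ∈ openCell n j) : m = n := by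
  by_contra hne
  have h : (⟨m, i⟩ : Σ n, cell (univ : Set E) n) ≠ ⟨n, j⟩ := fun h => hne (congrArg Sigma.fst h)
  exact (Set.disjoint_left.1 (disjoint_openCell_of_ne h)) hi hj

open Classical in
/-- The extension. -/
noncomputable def ext (n : ℕ) (h : cell (univ : Set E) n → (Fin n → ℝ) → (Fin 3 → ℝ))
    (F : E → (Fin 3 → ℝ)) (x : E) : Fin 3 → ℝ :=
  if hx : ∃ i : cell (univ : Set E) n, x ∈ openCell n i then
    h (rep hx.choose) ((map n (rep hx.choose)).symm (-gg hx.choose +ᵥ x)) + vv (gg hx.choose)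
  else F x

theorem ext_of_mem (n : ℕ) (h : cell (univ : Set E) n → (Fin n → ℝ) → (Fin 3 → ℝ))
    (F : E → (Fin 3 → ℝ)) {x : E} {i : cell (univ : Set E) n} (hx : x ∈ openCell n i) :
    ext n h F x = h (rep i) ((map n (rep i)).symm (-gg i +ᵥ x)) + vv (gg i) := by
  have h1 : ∃ i : cell (univ : Set E) n, x ∈ openCell n i := ⟨i, hx⟩
  have h2 : h1.choose = i := cell_unique h1.choose_spec hx
  unfold ext
  rw [dif_pos h1, h2]

theorem ext_of_lt {n m : ℕ} (h : cell (univ : Set E) n → (Fin n → ℝ) → (Fin 3 → ℝ))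
    (F : E → (Fin 3 → ℝ)) (hm : m < n) {x : E} {i : cell (univ : Set E) m} (hx : x ∈ openCell m i) :
    ext n h F x = F x := by
  unfold ext
  rw [dif_neg]
  rintro ⟨j, hj⟩
  exact hm.ne (dim_unique hx hj)

theorem ext_vadd (hA : Act E) {n : ℕ} (h : cell (univ : Set E) n → (Fin n → ℝ) → (Fin 3 → ℝ))
    (F : E → (Fin 3 → ℝ)) {x : E} {i : cell (univ : Set E) n} (hx : x ∈ openCell n i)
    (g : Fin 3 → ℤ) : ext n h F (g +ᵥ x) = ext n h F x + vv g := by
  obtain ⟨j, hj⟩ := hA.perm g n i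
  have h1 : g +ᵥ x ∈ openCell n j := by
    rw [← hj]
    exact ⟨x, hx, rfl⟩
  rw [ext_of_mem n h F h1, ext_of_mem n h F hx, rep_eq hj, gg_eq hA hj, vadd_vadd, vv_add]
  have h2 : -(g + gg i) + g = -gg i := by abel
  rw [h2]
  abel

theorem img_closedCell [T2Space E] (hA : Act E) {m : ℕ} {i j : cell (univ : Set E) m}
    {g : Fin 3 → ℤ} (h : (fun x : E => g +ᵥ x) '' openCell m i = openCell m j) :
    (fun x : E => g +ᵥ x) '' closedCell m i = closedCell m j := by
  let H : E ≃ₜ E :=
    { toFun := fun x => g +ᵥ x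
      invFun := fun x => -g +ᵥ x
      left_inv := fun x => neg_vadd_vadd g x
      right_inv := fun x => vadd_neg_vadd g x
      continuous_toFun := hA.cont g
      continuous_invFun := hA.cont (-g) }
  rw [← closure_openCell_eq_closedCell, ← closure_openCell_eq_closedCell, ← h]
  exact H.image_closure _

theorem frontier_mem [T2Space E] {n : ℕ} {i : cell (univ : Set E) n} {x : E} (hx : x ∈ cellFrontier n i) :
    ∃ m < n, ∃ j : cell (univ : Set E) m, x ∈ openCell m j := by
  have h1 := cellFrontier_subset_skeletonLT n i hx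
  have h2 : x ∈ skeletonLT (univ : Set E) n := h1
  rw [CWComplex.mem_skeletonLT_iff] at h2
  obtain ⟨m, hm, j, hj⟩ := h2
  exact ⟨m, by exact_mod_cast hm, j, hj⟩

theorem closed_mem [T2Space E] {n : ℕ} {i : cell (univ : Set E) n} {x : E} (hx : x ∈ closedCell n i) :
    (∃ m < n, ∃ j : cell (univ : Set E) m, x ∈ openCell m j) ∨ x ∈ openCell n i := by
  rw [← cellFrontier_union_openCell_eq_closedCell] at hx
  rcases hx with hx | hx
  · exact Or.inl (frontier_mem hx)
  · exact Or.inr hx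

theorem stage [T2Space E] (hA : Act E) (n : ℕ) (F : E → (Fin 3 → ℝ))
    (hF1 : ∀ m < n, ∀ i : cell (univ : Set E) m, ContinuousOn F (closedCell m i))
    (hF2 : ∀ m < n, ∀ i : cell (univ : Set E) m, ∀ x ∈ openCell m i, ∀ g : Fin 3 → ℤ,
      F (g +ᵥ x) = F x + vv g)
    (h : cell (univ : Set E) n → (Fin n → ℝ) → (Fin 3 → ℝ))
    (h1 : ∀ i, ContinuousOn (h i) (closedBall 0 1))
    (h2 : ∀ i, ∀ u ∈ sphere (0 : Fin n → ℝ) 1, h i u = F (map n i u)) :
    ∃ F' : E → (Fin 3 → ℝ),
      (∀ m < n, ∀ i : cell (univ : Set E) m, ∀ x ∈ openCell m i, F' x = F x) ∧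
      (∀ m < n + 1, ∀ i : cell (univ : Set E) m, ContinuousOn F' (closedCell m i)) ∧
      (∀ m < n + 1, ∀ i : cell (univ : Set E) m, ∀ x ∈ openCell m i, ∀ g : Fin 3 → ℤ,
        F' (g +ᵥ x) = F' x + vv g) ∧
      (∀ i : cell (univ : Set E) n, ∀ x ∈ openCell n i, ∃ g : Fin 3 → ℤ,
        ∃ j : cell (univ : Set E) n, ∃ u ∈ ball (0 : Fin n → ℝ) 1, F' x = h j u + vv g) := by
  have hlow : ∀ m < n, ∀ i : cell (univ : Set E) m, ∀ x ∈ openCell m i, ext n h F x = F x :=
    fun m hm i x hx => ext_of_lt h F hm hx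
  have hact : ∀ m < n + 1, ∀ i : cell (univ : Set E) m, ∀ x ∈ openCell m i, ∀ g : Fin 3 → ℤ,
      ext n h F (g +ᵥ x) = ext n h F x + vv g := by
    intro m hm i x hx g
    rcases Nat.lt_succ_iff_lt_or_eq.1 hm with hm' | rfl
    · obtain ⟨j, hj⟩ := hA.perm g m i
      have hgx : g +ᵥ x ∈ openCell m j := by
        rw [← hj]
        exact ⟨x, hx, rfl⟩
      rw [hlow m hm' i x hx, hlow m hm' j _ hgx, hF2 m hm' i x hx g]
    · exact ext_vadd hA h F hx g
  have hrep : ∀ i : cell (univ : Set E) n, rep i = i → gg i = 0 →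
      ContinuousOn (ext n h F) (closedCell n i) := by
    intro i hi hgi
    have hc : closedCell n i = map n i '' closedBall 0 1 := rfl
    rw [hc]
    refine continuousOn_image (isCompact_closedBall 0 1) (continuousOn n i) ?_
    refine (h1 i).congr ?_
    intro u hu
    show ext n h F (map n i u) = h i u
    rcases (mem_closedBall.1 hu).lt_or_eq with hlt | heq
    · have hu' : u ∈ ball (0 : Fin n → ℝ) 1 := hlt
      have hmem : map n i u ∈ openCell n i := ⟨u, hu', rfl⟩
      rw [ext_of_mem n h F hmem, hi, hgi, neg_zero, zero_vadd, vv_zero, add_zero,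
        (map n i).left_inv (by rw [source_eq]; exact hu')]
    · have hu' : u ∈ sphere (0 : Fin n → ℝ) 1 := heq
      have hmem : map n i u ∈ cellFrontier n i := ⟨u, hu', rfl⟩
      obtain ⟨m, hm, j, hj⟩ := frontier_mem hmem
      rw [hlow m hm j _ hj, h2 i u hu']
  refine ⟨ext n h F, hlow, ?_, hact, ?_⟩
  · intro m hm i
    rcases Nat.lt_succ_iff_lt_or_eq.1 hm with hm' | rfl
    · refine (hF1 m hm' i).congr ?_
      intro x hx
      rcases closed_mem hx with ⟨k, hk, j, hj⟩ | hx'
      · exact hlow k (hk.trans hm') j x hj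
      · exact hlow m hm' i x hx'
    · have h3 := hrep (rep i) (rep_rep i) (gg_rep hA i)
      have h4 := img_closedCell hA (gg_spec i)
      have h5 : ContinuousOn (fun x => ext m h F (-gg i +ᵥ x) + vv (gg i)) (closedCell m i) := by
        refine ContinuousOn.add ?_ continuousOn_const
        refine h3.comp (hA.cont _).continuousOn ?_
        intro x hx
        rw [← h4] at hx
        obtain ⟨y, hy, rfl⟩ := hx
        simpa using hy
      refine h5.congr ?_
      intro x hx
      rw [← h4] at hx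
      obtain ⟨y, hy, rfl⟩ := hx
      show ext m h F (gg i +ᵥ y) = ext m h F (-gg i +ᵥ (gg i +ᵥ y)) + vv (gg i)
      rw [neg_vadd_vadd]
      rcases closed_mem hy with ⟨k, hk, j, hj⟩ | hy'
      · exact hact k (by omega) j y hj _
      · exact hact m (by omega) (rep i) y hy' _
  · intro i x hx
    have hx2 := hx
    rw [← gg_spec i] at hx2
    obtain ⟨y, ⟨u, hu, rfl⟩, rfl⟩ := hx2
    refine ⟨gg i, rep i, u, hu, ?_⟩
    rw [ext_of_mem n h F hx, neg_vadd_vadd, (map n (rep i)).left_inv (by rw [source_eq]; exact hu)]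

end Act

/-! ## Points with two integral coordinates, the centres -/

/-- Two integral coordinates. -/
def TwoInt : Set (Fin 3 → ℝ) := {y | ∃ j k : Fin 3, j ≠ k ∧ (∃ a : ℤ, y j = a) ∧ ∃ b : ℤ, y k = b}

theorem TwoInt_add {y : Fin 3 → ℝ} (hy : y ∈ TwoInt) (g : Fin 3 → ℤ) : y + vv g ∈ TwoInt := by
  obtain ⟨j, k, hjk, ⟨a, ha⟩, b, hb⟩ := hy
  refine ⟨j, k, hjk, ⟨a + g j, ?_⟩, b + g k, ?_⟩
  · simp [vv, ha]
  · simp [vv, hb]

/-- Not a centre. -/
def NC (y : Fin 3 → ℝ) : Prop := ∀ n : Fin 3 → ℤ, y ≠ fun i => (n i : ℝ) + 1 / 2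

theorem NC_add {y : Fin 3 → ℝ} (hy : NC y) (g : Fin 3 → ℤ) : NC (y + vv g) := by
  intro n h
  apply hy (n - g)
  funext i
  have := congrFun h i
  simp only [Pi.add_apply, vv, Pi.sub_apply, Int.cast_sub] at this ⊢
  linarith

theorem half_ne (a n : ℤ) : (a : ℝ) ≠ (n : ℝ) + 1 / 2 := by
  intro h
  have h1 : ((2 * a : ℤ) : ℝ) = ((2 * n + 1 : ℤ) : ℝ) := by
    push_cast
    linarith
  have h2 : 2 * a = 2 * n + 1 := by exact_mod_cast h1
  omega

theorem NC_of_TwoInt {y : Fin 3 → ℝ} (hy : y ∈ TwoInt) : NC y := by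
  obtain ⟨j, k, hjk, ⟨a, ha⟩, -⟩ := hy
  intro n h
  have := congrFun h j
  rw [ha] at this
  exact half_ne _ _ this

/-- Four times the apex. -/
def pI : Fin 3 → ℤ := ![0, 2, 1]

/-- The apex. -/
noncomputable def apex : Fin 3 → ℝ := fun i => (pI i : ℝ) / 4

theorem cone_NC {y : Fin 3 → ℝ} (hy : y ∈ TwoInt) (s : ℝ) : NC ((1 - s) • apex + s • y) := by
  obtain ⟨j, k, hjk, ⟨a, ha⟩, b, hb⟩ := hy
  intro n h
  have h1 := congrFun h j
  have h2 := congrFun h k
  simp only [Pi.add_apply, Pi.smul_apply, smul_eq_mul, ha, hb, apex] at h1 h2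
  have h3 : ((pI j : ℝ) - 4 * a) * (2 * ((n k : ℝ) - b) + 1)
      = ((pI k : ℝ) - 4 * b) * (2 * ((n j : ℝ) - a) + 1) := by
    have e1 : (2 * ((n k : ℝ) - b) + 1) = (1 - s) * ((pI k : ℝ) - 4 * b) / 2 := by linarith
    have e2 : (2 * ((n j : ℝ) - a) + 1) = (1 - s) * ((pI j : ℝ) - 4 * a) / 2 := by linarith
    rw [e1, e2]
    ring
  have h4 : (pI j - 4 * a) * (2 * (n k - b) + 1) = (pI k - 4 * b) * (2 * (n j - a) + 1) := by
    exact_mod_cast h3
  generalize n k - b = B at h4
  generalize n j - a = A at h4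
  have h5 : pI j * (2 * B + 1) - 4 * (a * (2 * B + 1)) = pI k * (2 * A + 1) - 4 * (b * (2 * A + 1)) := by
    linarith
  generalize a * (2 * B + 1) = X at h5
  generalize b * (2 * A + 1) = Y at h5
  fin_cases j <;> fin_cases k <;> simp [pI] at hjk h5 <;> omega

/-- The broken path. -/
noncomputable def path (p q : Fin 3 → ℝ) (t : ℝ) : Fin 3 → ℝ :=
  fun k => p k + (q k - p k) * max 0 (min 1 (3 * t - (k : ℕ)))

theorem path_cont (p q : Fin 3 → ℝ) : Continuous (path p q) := by
  unfold path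
  fun_prop

theorem path_zero (p q : Fin 3 → ℝ) : path p q 0 = p := by
  funext k
  have h : max 0 (min 1 (3 * (0 : ℝ) - (k : ℕ))) = 0 := by
    apply max_eq_left
    refine (min_le_right _ _).trans ?_
    have : (0 : ℝ) ≤ ((k : ℕ) : ℝ) := Nat.cast_nonneg _
    linarith
  unfold path
  rw [h]
  ring

theorem path_one (p q : Fin 3 → ℝ) : path p q 1 = q := by
  funext k
  have h : max 0 (min 1 (3 * (1 : ℝ) - (k : ℕ))) = 1 := by
    have h1 : ((k : ℕ) : ℝ) ≤ 2 := by
      have : (k : ℕ) ≤ 2 := by omega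
      exact_mod_cast this
    rw [min_eq_left (by linarith)]
    norm_num
  unfold path
  rw [h]
  ring

theorem path_TwoInt {p q : Fin 3 → ℝ} (hp : ∀ k, ∃ a : ℤ, p k = a) (hq : ∀ k, ∃ a : ℤ, q k = a) (t : ℝ) :
    path p q t ∈ TwoInt := by
  have lo : ∀ k : Fin 3, 3 * t - (k : ℕ) ≤ 0 → path p q t k = p k := by
    intro k hk
    unfold path
    rw [max_eq_left ((min_le_right _ _).trans hk)]
    ring
  have hi : ∀ k : Fin 3, 1 ≤ 3 * t - (k : ℕ) → path p q t k = q k := by
    intro k hk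
    unfold path
    rw [min_eq_left hk, max_eq_right (by norm_num)]
    ring
  rcases le_total (3 * t) 1 with h1 | h1
  · refine ⟨1, 2, by decide, ?_, ?_⟩
    · rw [lo 1 (by simp; linarith)]
      exact hp 1
    · rw [lo 2 (by simp; linarith)]
      exact hp 2
  · rcases le_total (3 * t) 2 with h2 | h2
    · refine ⟨0, 2, by decide, ?_, ?_⟩
      · rw [hi 0 (by simp; linarith)]
        exact hq 0
      · rw [lo 2 (by simp; linarith)]
        exact hp 2
    · refine ⟨0, 1, by decide, ?_, ?_⟩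
      · rw [hi 0 (by simp; linarith)]
        exact hq 0
      · rw [hi 1 (by simp; linarith)]
        exact hq 1

/-- Cones. -/
theorem cone_cont {n : ℕ} {K : (Fin n → ℝ) → (Fin 3 → ℝ)} (hK : ContinuousOn K (sphere 0 1)) :
    Continuous fun u : Fin n → ℝ => ‖u‖ • K (‖u‖⁻¹ • u) := by
  have hmem : ∀ u : Fin n → ℝ, u ≠ 0 → ‖u‖⁻¹ • u ∈ sphere (0 : Fin n → ℝ) 1 := by
    intro u hu
    rw [mem_sphere_zero_iff_norm, norm_smul, norm_inv, norm_norm,
      inv_mul_cancel₀ (norm_ne_zero_iff.2 hu)]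
  rw [continuous_iff_continuousAt]
  intro u
  by_cases hu : u = 0
  · subst hu
    obtain ⟨M, hM⟩ := (isCompact_sphere (0 : Fin n → ℝ) 1).exists_bound_of_continuousOn hK
    have h1 : ∀ v : Fin n → ℝ, ‖‖v‖ • K (‖v‖⁻¹ • v)‖ ≤ ‖v‖ * M := by
      intro v
      by_cases hv : v = 0
      · subst hv
        simp
      · rw [norm_smul, norm_norm]
        exact mul_le_mul_of_nonneg_left (hM _ (hmem v hv)) (norm_nonneg _)
    have h2 : Filter.Tendsto (fun v : Fin n → ℝ => ‖v‖ * M) (nhds 0) (nhds 0) := by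
      have : Continuous fun v : Fin n → ℝ => ‖v‖ * M := by fun_prop
      simpa using this.tendsto 0
    have h3 := squeeze_zero_norm h1 h2
    unfold ContinuousAt
    simpa using h3
  · have h1 : ContinuousOn (fun u : Fin n → ℝ => ‖u‖ • K (‖u‖⁻¹ • u)) {0}ᶜ := by
      refine ContinuousOn.smul continuous_norm.continuousOn ?_
      refine hK.comp ?_ fun v hv => hmem v hv
      refine ContinuousOn.smul (f := fun v : Fin n → ℝ => ‖v‖⁻¹) ?_ continuousOn_id
      exact ContinuousOn.inv₀ continuous_norm.continuousOn fun v hv => norm_ne_zero_iff.2 hv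
    exact h1.continuousAt (isOpen_compl_singleton.mem_nhds hu)

end Pool.Agent.SD.LBBX

namespace Pool.Agent.SD

open Topology Set Metric RelCWComplex LBBX

theorem lbb_proof : Stmt_LBB := by
  intro E _ _ _ _ hcont hdim hperm hfree
  have hA : Act E := ⟨hcont, hperm, hfree⟩
  -- stage 0
  obtain ⟨F0, -, c0, e0, r0⟩ := stage hA 0 (fun _ => 0) (fun m hm => absurd hm (Nat.not_lt_zero m))
    (fun m hm => absurd hm (Nat.not_lt_zero m)) (fun _ _ => 0) (fun _ => continuousOn_const) (by
      intro i u hu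
      rfl)
  have i0 : ∀ (i : cell (univ : Set E) 0), ∀ x ∈ openCell 0 i, ∀ k, ∃ a : ℤ, F0 x k = a := by
    intro i x hx k
    obtain ⟨g, j, u, hu, h⟩ := r0 i x hx
    refine ⟨g k, ?_⟩
    rw [h]
    simp [vv]
  -- stage 1
  have hb : ∀ (i : cell (univ : Set E) 1) (u : Fin 1 → ℝ), u ∈ sphere (0 : Fin 1 → ℝ) 1 →
      ∀ k, ∃ a : ℤ, F0 (map 1 i u) k = a := by
    intro i u hu
    have hmem : map 1 i u ∈ cellFrontier 1 i := ⟨u, hu, rfl⟩
    obtain ⟨m, hm, j, hj⟩ := frontier_mem hmem
    obtain rfl : m = 0 := by omega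
    exact i0 j _ hj
  have sph : ∀ u : Fin 1 → ℝ, u ∈ sphere (0 : Fin 1 → ℝ) 1 → u = (fun _ => -1) ∨ u = fun _ => 1 := by
    intro u hu
    rw [mem_sphere_zero_iff_norm] at hu
    have h1 : ‖u‖ = |u 0| := by
      rw [Pi.norm_def]
      simp
    rw [h1] at hu
    rcases (abs_eq (by norm_num)).1 hu with h | h
    · right
      funext k
      rw [Subsingleton.elim k 0, h]
    · left
      funext k
      rw [Subsingleton.elim k 0, h]
  have hm1 : (fun _ => -1 : Fin 1 → ℝ) ∈ sphere (0 : Fin 1 → ℝ) 1 := by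
    rw [mem_sphere_zero_iff_norm, Pi.norm_def]
    simp
  have hp1 : (fun _ => 1 : Fin 1 → ℝ) ∈ sphere (0 : Fin 1 → ℝ) 1 := by
    rw [mem_sphere_zero_iff_norm, Pi.norm_def]
    simp
  obtain ⟨F1, l1, c1, e1, r1⟩ := stage hA 1 F0 c0 e0
    (fun i u => path (F0 (map 1 i fun _ => -1)) (F0 (map 1 i fun _ => 1)) ((1 + u 0) / 2))
    (fun i => by
      refine Continuous.continuousOn ?_
      exact (path_cont _ _).comp (by fun_prop)) (by
      intro i u hu
      rcases sph u hu with rfl | rfl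
      · simp only
        have : ((1 : ℝ) + -1) / 2 = 0 := by norm_num
        rw [this, path_zero]
      · simp only
        have : ((1 : ℝ) + 1) / 2 = 1 := by norm_num
        rw [this, path_one])
  have L1 : ∀ m < 2, ∀ (i : cell (univ : Set E) m), ∀ x ∈ openCell m i, F1 x ∈ TwoInt := by
    intro m hm i x hx
    have hm' : m = 0 ∨ m = 1 := by omega
    rcases hm' with rfl | rfl
    · rw [l1 0 (by norm_num) i x hx]
      exact ⟨0, 1, by decide, i0 i x hx 0, i0 i x hx 1⟩
    · obtain ⟨g, j, u, hu, h⟩ := r1 i x hx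
      rw [h]
      exact TwoInt_add (path_TwoInt (hb j _ hm1) (hb j _ hp1) _) g
  -- stage 2
  have k1 : ∀ i : cell (univ : Set E) 2, ContinuousOn (fun u => F1 (map 2 i u)) (sphere 0 1) := by
    intro i
    obtain ⟨I, hI⟩ := CWComplex.cellFrontier_subset_finite_closedCell 2 i
    have h0 : ∀ m < 2, IsClosed (⋃ j ∈ I m, closedCell (C := (univ : Set E)) m j) ∧
        ContinuousOn F1 (⋃ j ∈ I m, closedCell (C := (univ : Set E)) m j) := by
      intro m hm
      exact fin_union (I m) _ (fun j => isClosed_closedCell) F1 fun j => c1 m hm j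
    have h1 : IsClosed (⋃ (m < 2) (j ∈ I m), closedCell (C := (univ : Set E)) m j) ∧
        ContinuousOn F1 (⋃ (m < 2) (j ∈ I m), closedCell (C := (univ : Set E)) m j) := by
      have h2 : (⋃ (m < 2) (j ∈ I m), closedCell (C := (univ : Set E)) m j)
          = (⋃ j ∈ I 0, closedCell (C := (univ : Set E)) 0 j) ∪
            ⋃ j ∈ I 1, closedCell (C := (univ : Set E)) 1 j := by
        ext x
        simp only [mem_iUnion, mem_union, exists_prop]
        constructor
        · rintro ⟨m, hm, h⟩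
          have hm' : m = 0 ∨ m = 1 := by omega
          rcases hm' with rfl | rfl
          · exact Or.inl h
          · exact Or.inr h
        · rintro (h | h)
          · exact ⟨0, by norm_num, h⟩
          · exact ⟨1, by norm_num, h⟩
      rw [h2]
      exact ⟨(h0 0 (by norm_num)).1.union (h0 1 (by norm_num)).1,
        (h0 0 (by norm_num)).2.union_of_isClosed (h0 1 (by norm_num)).2 (h0 0 (by norm_num)).1
          (h0 1 (by norm_num)).1⟩
    refine h1.2.comp ((continuousOn 2 i).mono sphere_subset_closedBall) ?_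
    intro u hu
    exact hI ⟨u, hu, rfl⟩
  obtain ⟨F2, l2, c2, e2, r2⟩ := stage hA 2 F1 c1 e1
    (fun i u => (1 - ‖u‖) • apex + ‖u‖ • F1 (map 2 i (‖u‖⁻¹ • u)))
    (fun i => by
      refine Continuous.continuousOn ?_
      exact (by fun_prop : Continuous fun u : Fin 2 → ℝ => (1 - ‖u‖) • apex).add (cone_cont (k1 i))) (by
      intro i u hu
      rw [mem_sphere_zero_iff_norm] at hu
      rw [hu, inv_one, one_smul, one_smul, sub_self, zero_smul, zero_add])
  refine ⟨F2, ?_, ?_, ?_⟩
  · refine continuous_iff_isClosed.2 fun A hA' => ?_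
    rw [CWComplex.closed (univ : Set E) _ (subset_univ _)]
    intro m j
    by_cases hm : m < 3
    · rw [inter_comm]
      exact (c2 m hm j).preimage_isClosed_of_isClosed isClosed_closedCell hA'
    · exact ((hdim m (by omega)).false j).elim
  · intro x n
    have hx : x ∈ (univ : Set E) := mem_univ x
    rw [← CWComplex.iUnion_openCell_eq_complex (C := (univ : Set E))] at hx
    simp only [mem_iUnion] at hx
    obtain ⟨m, i, hi⟩ := hx
    have hm : m < 3 := by
      by_contra hm
      exact (hdim m (by omega)).false i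
    exact e2 m hm i x hi n
  · intro x n
    have hx : x ∈ (univ : Set E) := mem_univ x
    rw [← CWComplex.iUnion_openCell_eq_complex (C := (univ : Set E))] at hx
    simp only [mem_iUnion] at hx
    obtain ⟨m, i, hi⟩ := hx
    have hm : m < 3 := by
      by_contra hm
      exact (hdim m (by omega)).false i
    have hm' : m < 2 ∨ m = 2 := by omega
    rcases hm' with hm' | rfl
    · rw [l2 m hm' i x hi]
      exact NC_of_TwoInt (L1 m hm' i x hi) n
    · obtain ⟨g, j, u, hu, h⟩ := r2 i x hi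
      rw [h]
      refine NC_add ?_ g n
      by_cases hu0 : u = 0
      · subst hu0
        have h0 : ((0 : ℝ) • (0 : Fin 3 → ℝ)) = 0 := by simp
        have : (1 - ‖(0 : Fin 2 → ℝ)‖) • apex + ‖(0 : Fin 2 → ℝ)‖ • F1 (map 2 j (‖(0 : Fin 2 → ℝ)‖⁻¹ • 0))
            = (1 - (0 : ℝ)) • apex + (0 : ℝ) • (0 : Fin 3 → ℝ) := by simp
        rw [this]
        exact cone_NC ⟨0, 1, by decide, ⟨0, by simp⟩, 0, by simp⟩ 0
      · refine cone_NC ?_ _
        have hs : ‖u‖⁻¹ • u ∈ sphere (0 : Fin 2 → ℝ) 1 := by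
          rw [mem_sphere_zero_iff_norm, norm_smul, norm_inv, norm_norm,
            inv_mul_cancel₀ (norm_ne_zero_iff.2 hu0)]
        have hmem : map 2 j (‖u‖⁻¹ • u) ∈ cellFrontier 2 j := ⟨_, hs, rfl⟩
        obtain ⟨m, hm, j', hj'⟩ := frontier_mem hmem
        exact L1 m hm j' _ hj'

end Pool.Agent.SD
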