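import Mathlib
import Pool.Agent.SD.Gd

/-!
# Squad SD, module STCW: the square complex of `STData` as a CW complex
-/

set_option autoImplicit false

namespace Pool.Agent.SD
namespace STCWX

open Topology Set Metric

/-! ## 1. An abstract construction of CW complexes -/

/-- Data for a locally finite CW complex. -/
structure Bd (E C : Type) [TopologicalSpace E] where
  dim : C → ℕ
  F : (n : ℕ) → C → (Fin n → ℝ) → E
  I : (n : ℕ) → C → E → (Fin n → ℝ)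
  hF : ∀ c, ContinuousOn (F (dim c) c) (closedBall 0 1)
  hI : ∀ c, Continuous (I (dim c) c)
  hIF : ∀ c, ∀ x ∈ closedBall (0 : Fin (dim c) → ℝ) 1, I (dim c) c (F (dim c) c x) = x
  hdisj : ∀ c c', ∀ x ∈ ball (0 : Fin (dim c) → ℝ) 1, ∀ y ∈ ball (0 : Fin (dim c') → ℝ) 1,
    F (dim c) c x = F (dim c') c' y → c = c'
  hcov : ∀ p, ∃ c, ∃ x ∈ ball (0 : Fin (dim c) → ℝ) 1, F (dim c) c x = p
  hface : ∀ c, {c' | ∃ x ∈ closedBall (0 : Fin (dim c) → ℝ) 1,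
    ∃ y ∈ ball (0 : Fin (dim c') → ℝ) 1, F (dim c) c x = F (dim c') c' y}.Finite
  hfdim : ∀ c c', ∀ x ∈ closedBall (0 : Fin (dim c) → ℝ) 1,
    ∀ y ∈ ball (0 : Fin (dim c') → ℝ) 1, F (dim c) c x = F (dim c') c' y →
    dim c' < dim c ∨ c' = c
  hloc : ∀ p : E, ∃ O, IsOpen O ∧ p ∈ O ∧
    {c | (F (dim c) c '' closedBall 0 1 ∩ O).Nonempty}.Finite

variable {E C : Type} [TopologicalSpace E]

/-- The characteristic maps. -/
def Bd.mp (b : Bd E C) (n : ℕ) (i : {c : C // b.dim c = n}) : PartialEquiv (Fin n → ℝ) E where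
  toFun := b.F n i.1
  invFun := b.I n i.1
  source := ball 0 1
  target := b.F n i.1 '' ball 0 1
  map_source' := fun x hx => mem_image_of_mem _ hx
  map_target' := by
    obtain ⟨c, rfl⟩ := i
    rintro _ ⟨x, hx, rfl⟩
    rw [b.hIF c x (ball_subset_closedBall hx)]
    exact hx
  left_inv' := by
    obtain ⟨c, rfl⟩ := i
    intro x hx
    exact b.hIF c x (ball_subset_closedBall hx)
  right_inv' := by
    obtain ⟨c, rfl⟩ := i
    rintro _ ⟨x, hx, rfl⟩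
    rw [b.hIF c x (ball_subset_closedBall hx)]

/-- The closed cells are closed. -/
theorem Bd.isClosed [T2Space E] (b : Bd E C) (c : C) :
    IsClosed (b.F (b.dim c) c '' closedBall 0 1) :=
  ((isCompact_closedBall _ _).image_of_continuousOn (b.hF c)).isClosed

/-- The CW complex. -/
@[reducible] noncomputable def Bd.cw [T2Space E] (b : Bd E C) : CWComplex (univ : Set E) where
  cell n := {c : C // b.dim c = n}
  map := b.mp
  source_eq n i := rfl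
  continuousOn n i := by
    obtain ⟨c, rfl⟩ := i
    exact b.hF c
  continuousOn_symm n i := by
    obtain ⟨c, rfl⟩ := i
    exact (b.hI c).continuousOn
  pairwiseDisjoint' := by
    rintro ⟨n, c, rfl⟩ - ⟨m, c', rfl⟩ - hne
    rw [Function.onFun, Set.disjoint_left]
    rintro p ⟨x, hx, rfl⟩ ⟨y, hy, h⟩
    apply hne
    have : c = c' := b.hdisj c c' x hx y hy h.symm
    subst this
    rfl
  mapsTo' n i := by
    obtain ⟨c, rfl⟩ := i
    have hfin : ∀ m, {j : {c' : C // b.dim c' = m} | j.1 ∈ {c' | ∃ x ∈ closedBall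
        (0 : Fin (b.dim c) → ℝ) 1, ∃ y ∈ ball (0 : Fin (b.dim c') → ℝ) 1,
        b.F (b.dim c) c x = b.F (b.dim c') c' y}}.Finite := by
      intro m
      exact (b.hface c).preimage Subtype.val_injective.injOn
    refine ⟨fun m => (hfin m).toFinset, ?_⟩
    intro x hx
    obtain ⟨c', y, hy, hxy⟩ := b.hcov (b.F (b.dim c) c x)
    have hx' : x ∈ closedBall (0 : Fin (b.dim c) → ℝ) 1 := sphere_subset_closedBall hx
    have hlt : b.dim c' < b.dim c := by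
      rcases b.hfdim c c' x hx' y hy hxy.symm with h | h
      · exact h
      · exfalso
        subst h
        have h1 := b.hIF c' x hx'
        rw [← hxy, b.hIF c' y (ball_subset_closedBall hy)] at h1
        subst h1
        rw [mem_ball] at hy
        rw [mem_sphere] at hx
        linarith
    simp only [mem_iUnion]
    refine ⟨b.dim c', hlt, ⟨c', rfl⟩, ?_, ?_⟩
    · rw [Set.Finite.mem_toFinset]
      exact ⟨x, hx', y, hy, hxy.symm⟩
    · exact ⟨y, ball_subset_closedBall hy, hxy⟩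
  closed' A hA h := by
    have hA' : A = ⋃ c : C, A ∩ b.F (b.dim c) c '' closedBall 0 1 := by
      ext p
      simp only [mem_iUnion, mem_inter_iff, exists_and_left]
      constructor
      · intro hp
        obtain ⟨c, x, hx, hxp⟩ := b.hcov p
        exact ⟨hp, c, x, ball_subset_closedBall hx, hxp⟩
      · exact fun hp => hp.1
    rw [hA']
    apply LocallyFinite.isClosed_iUnion
    · intro p
      obtain ⟨O, hO, hp, hfin⟩ := b.hloc p
      refine ⟨O, hO.mem_nhds hp, hfin.subset ?_⟩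
      rintro c ⟨y, hy, hyO⟩
      exact ⟨y, hy.2, hyO⟩
    · intro c
      exact h (b.dim c) ⟨c, rfl⟩
  union' := by
    apply eq_univ_of_forall
    intro p
    obtain ⟨c, x, hx, hxp⟩ := b.hcov p
    simp only [mem_iUnion]
    exact ⟨b.dim c, ⟨c, rfl⟩, x, ball_subset_closedBall hx, hxp⟩

/-- Free actions. -/
theorem Bd.free [T2Space E] (b : Bd E C) (G : Type) [Group G] [MulAction G E]
    [ContractibleSpace E] (hcont : ∀ g : G, Continuous fun x : E => g • x) (N : ℕ)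
    (hN : ∀ c, b.dim c ≤ N)
    (hact : ∀ (g : G) (c : C), ∃ c', b.dim c' = b.dim c ∧
      (fun x : E => g • x) '' (b.F (b.dim c) c '' ball 0 1) = b.F (b.dim c') c' '' ball 0 1)
    (hfree : ∀ (g : G) (c : C), (fun x : E => g • x) '' (b.F (b.dim c) c '' ball 0 1) =
      b.F (b.dim c) c '' ball 0 1 → g = 1) : FreeCWlf G N := by
  refine ⟨E, inferInstance, inferInstance, inferInstance, b.cw, inferInstance, hcont, ?_, ?_, ?_,
    ?_⟩
  · intro m hm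
    refine ⟨fun i => ?_⟩
    obtain ⟨c, hc⟩ : {c : C // b.dim c = m} := i
    have := hN c
    omega
  · intro g m i
    obtain ⟨c, rfl⟩ : {c : C // b.dim c = m} := i
    obtain ⟨c', h1, h2⟩ := hact g c
    refine ⟨(⟨c', h1⟩ : {c' : C // b.dim c' = b.dim c}), ?_⟩
    show (fun x : E => g • x) '' (b.F (b.dim c) c '' ball 0 1) = b.F (b.dim c) c' '' ball 0 1
    rw [h2, h1]
  · intro g m i
    obtain ⟨c, rfl⟩ : {c : C // b.dim c = m} := i
    exact hfree g c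
  · intro p
    obtain ⟨O, hO, hp, hfin⟩ := b.hloc p
    refine ⟨O, hO, hp, ?_⟩
    refine (hfin.image (fun c : C => (⟨b.dim c, ⟨c, rfl⟩⟩ : Σ m, {c : C // b.dim c = m}))).subset ?_
    rintro ⟨m, i⟩ hi
    obtain ⟨c, rfl⟩ : {c : C // b.dim c = m} := i
    exact ⟨c, hi, rfl⟩

/-! ## 2. Trees -/

section Tree
variable {U Y : Type} [MetricSpace Y] {n : U → U → ℕ} {ι : U → Y}

/-- Closed cells of a tree. -/
def seg (n : U → U → ℕ) (ι : U → Y) (u w : U) : Set Y :=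
  {p | dist (ι u) p + dist p (ι w) = n u w}

/-- Open cells of a tree. -/
def oc (n : U → U → ℕ) (ι : U → Y) (u w : U) : Set Y :=
  {p | dist (ι u) p + dist p (ι w) = n u w ∧ (n u w = 0 ∨ p ≠ ι u ∧ p ≠ ι w)}

open Classical in
/-- The point at fraction `s` between `u` and `w`. -/
noncomputable def chi (hr : IsReal n Y ι) (u w : U) (s : ℝ) : Y :=
  if h : 0 ≤ s ∧ s ≤ 1 then Classical.choose (hr.tp (ι u) (ι w) s h.1 h.2) else ι u

theorem chi_tp (hr : IsReal n Y ι) (u w : U) (s : ℝ) (h0 : 0 ≤ s) (h1 : s ≤ 1) (z : Y) :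
    dist z (chi hr u w s) ≤ max (dist z (ι u) - s * n u w) (dist z (ι w) - (1 - s) * n u w) := by
  rw [← hr.dist_ι u w]
  unfold chi
  rw [dif_pos ⟨h0, h1⟩]
  exact Classical.choose_spec (hr.tp (ι u) (ι w) s h0 h1) z

theorem chi_left_right (hr : IsReal n Y ι) (u w : U) (s : ℝ) (h0 : 0 ≤ s) (h1 : s ≤ 1) :
    dist (ι u) (chi hr u w s) = s * n u w ∧ dist (chi hr u w s) (ι w) = (1 - s) * n u w := by
  have a := chi_tp hr u w s h0 h1 (ι u)
  have b := chi_tp hr u w s h0 h1 (ι w)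
  rw [dist_self, hr.dist_ι] at a
  rw [dist_self, dist_comm (ι w) (ι u), hr.dist_ι, dist_comm] at b
  have c := dist_triangle (ι u) (chi hr u w s) (ι w)
  rw [hr.dist_ι] at c
  have hn : (0 : ℝ) ≤ n u w := Nat.cast_nonneg _
  have hs : 0 ≤ s * n u w := mul_nonneg h0 hn
  have hs' : 0 ≤ (1 - s) * n u w := mul_nonneg (by linarith) hn
  have a' : dist (ι u) (chi hr u w s) ≤ s * n u w := by
    refine a.trans (max_le ?_ ?_) <;> linarith
  have b' : dist (chi hr u w s) (ι w) ≤ (1 - s) * n u w := by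
    refine b.trans (max_le ?_ ?_) <;> linarith
  constructor <;> linarith

theorem chi_dist (hr : IsReal n Y ι) (u w : U) (s t : ℝ) (h0 : 0 ≤ s) (h1 : s ≤ 1)
    (t0 : 0 ≤ t) (t1 : t ≤ 1) :
    dist (chi hr u w t) (chi hr u w s) ≤ |t - s| * n u w := by
  have a := chi_tp hr u w s h0 h1 (chi hr u w t)
  obtain ⟨b, c⟩ := chi_left_right hr u w t t0 t1
  rw [dist_comm _ (ι u), b, c] at a
  have hn : (0 : ℝ) ≤ n u w := Nat.cast_nonneg _
  refine a.trans (max_le ?_ ?_)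
  · rw [← sub_mul]
    exact mul_le_mul_of_nonneg_right (le_abs_self _) hn
  · rw [← sub_mul, show 1 - t - (1 - s) = -(t - s) by ring]
    exact mul_le_mul_of_nonneg_right (neg_le_abs _) hn

theorem chi_eq (hr : IsReal n Y ι) (u w : U) (s : ℝ) (h0 : 0 ≤ s) (h1 : s ≤ 1) (p : Y)
    (a : dist (ι u) p = s * n u w) (b : dist p (ι w) = (1 - s) * n u w) :
    chi hr u w s = p := by
  have c := chi_tp hr u w s h0 h1 p
  rw [dist_comm p (ι u), a, b, sub_self, sub_self, max_self] at c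
  exact (dist_le_zero.1 c).symm

theorem chi_seg (hr : IsReal n Y ι) (u w : U) (s : ℝ) :
    chi hr u w s ∈ seg n ι u w := by
  by_cases h : 0 ≤ s ∧ s ≤ 1
  · obtain ⟨b, c⟩ := chi_left_right hr u w s h.1 h.2
    show _ + _ = _
    rw [b, c]; ring
  · unfold chi
    rw [dif_neg h]
    show _ + _ = _
    rw [dist_self, hr.dist_ι, zero_add]

theorem chi_oc (hr : IsReal n Y ι) (u w : U) (s : ℝ) (h0 : 0 < s) (h1 : s < 1) :
    chi hr u w s ∈ oc n ι u w := by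
  refine ⟨chi_seg hr u w s, ?_⟩
  rcases Nat.eq_zero_or_pos (n u w) with h | h
  · exact Or.inl h
  right
  obtain ⟨b, c⟩ := chi_left_right hr u w s h0.le h1.le
  have h' : (0 : ℝ) < n u w := by exact_mod_cast h
  constructor
  · intro e
    rw [e, dist_self] at b
    have := mul_pos h0 h'
    linarith
  · intro e
    rw [e, dist_self] at c
    have := mul_pos (sub_pos.2 h1) h'
    linarith

theorem oc_symm (hn : IsTreeM n) (u w : U) : oc n ι u w = oc n ι w u := by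
  ext p
  simp only [oc, mem_ofPred_eq]
  rw [hn.symm w u, dist_comm (ι w) p, dist_comm p (ι u), add_comm (dist p (ι w)),
    and_comm (a := p ≠ ι w)]

theorem seg_symm (hn : IsTreeM n) (u w : U) : seg n ι u w = seg n ι w u := by
  ext p
  simp only [seg, mem_ofPred_eq]
  rw [hn.symm w u, dist_comm (ι w) p, dist_comm p (ι u), add_comm (dist p (ι w))]

theorem oc_unique (hn : IsTreeM n)
    (h5 : ∀ x y z w, n x y ≤ 1 → n z w ≤ 1 → ∀ p : Y, dist (ι x) p + dist p (ι y) = n x y →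
      dist (ι z) p + dist p (ι w) = n z w →
      (∃ v, p = ι v ∧ (v = x ∨ v = y) ∧ (v = z ∨ v = w)) ∨ (x = z ∧ y = w) ∨ (x = w ∧ y = z))
    (x y z w : U) (hxy : n x y ≤ 1) (hzw : n z w ≤ 1) (p : Y) (h : p ∈ oc n ι x y)
    (h' : p ∈ oc n ι z w) : (x = z ∧ y = w) ∨ (x = w ∧ y = z) := by
  rcases h5 x y z w hxy hzw p h.1 h'.1 with ⟨v, rfl, h1, h2⟩ | h1
  · have e1 : x = y := by
      rcases h.2 with h3 | ⟨h3, h4⟩
      · exact hn.eq_of _ _ h3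
      · rcases h1 with rfl | rfl
        · exact absurd rfl h3
        · exact absurd rfl h4
    have e2 : z = w := by
      rcases h'.2 with h3 | ⟨h3, h4⟩
      · exact hn.eq_of _ _ h3
      · rcases h2 with rfl | rfl
        · exact absurd rfl h3
        · exact absurd rfl h4
    subst e1 e2
    left
    rcases h1 with rfl | rfl <;> rcases h2 with rfl | rfl <;> exact ⟨rfl, rfl⟩
  · exact h1

theorem seg_carrier (hn : IsTreeM n) (le : U → U → Prop) (tot : ∀ a b, le a b ∨ le b a)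
    (u w : U) (huw : n u w ≤ 1) (p : Y) (hp : p ∈ seg n ι u w) :
    ∃ u' w', (u' = u ∨ u' = w) ∧ (w' = u ∨ w' = w) ∧ n u' w' ≤ 1 ∧ le u' w' ∧
      p ∈ oc n ι u' w' := by
  have refl : ∀ a, le a a := fun a => (tot a a).elim id id
  have self : ∀ a, ι a ∈ oc n ι a a := fun a => by
    refine ⟨?_, Or.inl (hn.self a)⟩
    rw [hn.self]; simp
  by_cases h1 : p = ι u
  · subst h1
    exact ⟨u, u, Or.inl rfl, Or.inl rfl, by rw [hn.self]; exact zero_le_one, refl u, self u⟩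
  by_cases h2 : p = ι w
  · subst h2
    exact ⟨w, w, Or.inr rfl, Or.inr rfl, by rw [hn.self]; exact zero_le_one, refl w, self w⟩
  rcases tot u w with h | h
  · exact ⟨u, w, Or.inl rfl, Or.inr rfl, huw, h, hp, Or.inr ⟨h1, h2⟩⟩
  · refine ⟨w, u, Or.inr rfl, Or.inl rfl, by rw [hn.symm]; exact huw, h, ?_⟩
    rw [oc_symm hn]
    exact ⟨hp, Or.inr ⟨h1, h2⟩⟩

theorem dim_lt (hn : IsTreeM n) (u w u' w' : U) (huw : n u w ≤ 1)
    (h1 : u' = u ∨ u' = w) (h2 : w' = u ∨ w' = w) :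
    n u' w' < n u w ∨ (u' = u ∧ w' = w) ∨ (u' = w ∧ w' = u) := by
  rcases Nat.eq_zero_or_pos (n u w) with h | h
  · have e := hn.eq_of _ _ h
    subst e
    right; left
    exact ⟨h1.elim id id, h2.elim id id⟩
  · rcases h1 with h1 | h1 <;> rcases h2 with h2 | h2
    · left; rw [h1, h2, hn.self]; exact h
    · exact Or.inr (Or.inl ⟨h1, h2⟩)
    · exact Or.inr (Or.inr ⟨h1, h2⟩)
    · left; rw [h1, h2, hn.self]; exact h

theorem near (hn : IsTreeM n) (hr : IsReal n Y ι) (p : Y) : ∃ ε > 0, ∃ u w : U,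
    ∀ y : Y, dist y p < ε → ∀ u' w', n u' w' ≤ 1 → y ∈ seg n ι u' w' →
      (u' = u ∨ u' = w) ∨ (w' = u ∨ w' = w) := by
  have hA : ∀ v : U, ∃ ε > 0, ∃ u w : U,
      ∀ y : Y, dist y (ι v) < ε → ∀ u' w', n u' w' ≤ 1 → y ∈ seg n ι u' w' →
      (u' = u ∨ u' = w) ∨ (w' = u ∨ w' = w) := by
    intro v
    refine ⟨1 / 2, by norm_num, v, v, ?_⟩
    intro y hy u' w' h1 h2
    have h2' : dist (ι u') y + dist y (ι w') = n u' w' := h2
    have h1' : (n u' w' : ℝ) ≤ 1 := by exact_mod_cast h1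
    have key : ∀ a : U, dist (ι a) (ι v) < 1 → a = v := by
      intro a ha
      rw [hr.dist_ι] at ha
      have : n a v = 0 := by
        have : n a v < 1 := by exact_mod_cast ha
        omega
      exact hn.eq_of _ _ this
    rcases le_total (dist (ι u') y) (dist y (ι w')) with h | h
    · left; left
      apply key
      have := dist_triangle (ι u') y (ι v)
      linarith
    · right; left
      apply key
      have := dist_triangle (ι w') y (ι v)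
      rw [dist_comm (ι w') y] at this
      linarith
  obtain ⟨x, z, hxz, hp⟩ := hr.edge p
  by_cases h1 : p = ι x
  · rw [h1]; exact hA x
  by_cases h2 : p = ι z
  · rw [h2]; exact hA z
  have h1' : 0 < dist (ι x) p := dist_pos.2 (Ne.symm h1)
  have h2' : 0 < dist p (ι z) := dist_pos.2 h2
  have hxz1 : n x z = 1 := by
    rcases Nat.eq_zero_or_pos (n x z) with h | h
    · rw [h] at hp
      push_cast at hp
      linarith
    · omega
  rw [hxz1] at hp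
  push_cast at hp
  refine ⟨min (dist (ι x) p) (dist p (ι z)), lt_min h1' h2', x, z, ?_⟩
  intro y hy u' w' h3 h4
  left
  by_contra hcon
  push Not at hcon
  have h3' : (n u' w' : ℝ) ≤ 1 := by exact_mod_cast h3
  have h4' : dist (ι u') y + dist y (ι w') = n u' w' := h4
  have h5 : dist (ι u') y ≤ 1 := by
    have := dist_nonneg (x := y) (y := ι w')
    linarith
  have a1 : 1 ≤ n u' x := by
    rcases Nat.eq_zero_or_pos (n u' x) with h | h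
    · exact absurd (hn.eq_of _ _ h) hcon.1
    · exact h
  have a2 : 1 ≤ n u' z := by
    rcases Nat.eq_zero_or_pos (n u' z) with h | h
    · exact absurd (hn.eq_of _ _ h) hcon.2
    · exact h
  have a3 : n u' x ≠ n u' z := by
    rw [hn.symm u' x, hn.symm u' z]
    exact hn.par x z u' hxz1
  have t1 := dist_triangle (ι u') p (ι x)
  have t2 := dist_triangle (ι u') p (ι z)
  rw [hr.dist_ι] at t1 t2
  rw [dist_comm p (ι x)] at t1
  have t3 := dist_triangle (ι u') y p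
  have m1 := lt_of_lt_of_le hy (min_le_left _ _)
  have m2 := lt_of_lt_of_le hy (min_le_right _ _)
  rcases Nat.lt_or_ge (n u' x) 2 with h | h
  · have : 2 ≤ n u' z := by omega
    have : (2 : ℝ) ≤ n u' z := by exact_mod_cast this
    linarith
  · have : (2 : ℝ) ≤ n u' x := by exact_mod_cast h
    linarith

end Tree

/-- A total order. -/
theorem exOrder (U : Type) : ∃ le : U → U → Prop, (∀ a b, le a b ∨ le b a) ∧
    ∀ a b, le a b → le b a → a = b := by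
  classical
  let := linearOrderOfSTO (WellOrderingRel (α := U))
  exact ⟨fun a b => a ≤ b, fun a b => le_total a b, fun a b h h' => le_antisymm h h'⟩

/-! ## 3. Coordinates -/

/-- Coordinates, extended by zero. -/
noncomputable def co {n : ℕ} (x : Fin n → ℝ) (k : ℕ) : ℝ := if h : k < n then x ⟨k, h⟩ else 0

theorem co_le {n : ℕ} (x : Fin n → ℝ) (hx : x ∈ closedBall (0 : Fin n → ℝ) 1) (k : ℕ) :
    |co x k| ≤ 1 := by
  rw [mem_closedBall_zero_iff] at hx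
  unfold co
  split_ifs with h
  · have := norm_le_pi_norm x ⟨k, h⟩
    rw [Real.norm_eq_abs] at this
    linarith
  · simp

theorem co_lt {n : ℕ} (x : Fin n → ℝ) (hx : x ∈ ball (0 : Fin n → ℝ) 1) (k : ℕ) :
    |co x k| < 1 := by
  rw [mem_ball_zero_iff] at hx
  unfold co
  split_ifs with h
  · have := norm_le_pi_norm x ⟨k, h⟩
    rw [Real.norm_eq_abs] at this
    linarith
  · simp

theorem co_sub {n : ℕ} (x y : Fin n → ℝ) (k : ℕ) : |co x k - co y k| ≤ dist x y := by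
  unfold co
  split_ifs with h
  · have := dist_le_pi_dist x y ⟨k, h⟩
    rwa [Real.dist_eq] at this
  · simp

theorem co_Icc {n : ℕ} (x : Fin n → ℝ) (hx : x ∈ closedBall (0 : Fin n → ℝ) 1) (k : ℕ) :
    0 ≤ (1 + co x k) / 2 ∧ (1 + co x k) / 2 ≤ 1 := by
  have := abs_le.1 (co_le x hx k)
  constructor <;> linarith [this.1, this.2]

theorem co_Ioo {n : ℕ} (x : Fin n → ℝ) (hx : x ∈ ball (0 : Fin n → ℝ) 1) (k : ℕ) :
    0 < (1 + co x k) / 2 ∧ (1 + co x k) / 2 < 1 := by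
  have := abs_lt.1 (co_lt x hx k)
  constructor <;> linarith [this.1, this.2]

theorem DD2_le {Y₁ Y₂ : Type} [MetricSpace Y₁] [MetricSpace Y₂] (p q : Y₁ × Y₂) :
    DD2 p q ≤ dist p.1 q.1 + dist p.2 q.2 := by
  unfold DD2
  apply Real.sqrt_le_iff.2
  have h1 := dist_nonneg (x := p.1) (y := q.1)
  have h2 := dist_nonneg (x := p.2) (y := q.2)
  exact ⟨by linarith, by nlinarith⟩

theorem le_DD2 {Y₁ Y₂ : Type} [MetricSpace Y₁] [MetricSpace Y₂] (p q : Y₁ × Y₂) :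
    dist p.1 q.1 ≤ DD2 p q ∧ dist p.2 q.2 ≤ DD2 p q := by
  unfold DD2
  constructor <;> apply Real.le_sqrt_of_sq_le
  · nlinarith [sq_nonneg (dist p.2 q.2)]
  · nlinarith [sq_nonneg (dist p.1 q.1)]

/-! ## 4. The square complex -/

/-- Cells of the square complex. -/
@[ext] structure Cl {G : Type} [Group G] (σ : STData G) (le₁ : σ.U₁ → σ.U₁ → Prop)
    (le₂ : σ.U₂ → σ.U₂ → Prop) where
  u : σ.U₁
  w : σ.U₁
  q : σ.U₂
  r : σ.U₂
  h1 : σ.n₁ u w ≤ 1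
  h2 : σ.n₂ q r ≤ 1
  qu : q ∈ σ.F u
  qw : q ∈ σ.F w
  ru : r ∈ σ.F u
  rw' : r ∈ σ.F w
  o1 : le₁ u w
  o2 : le₂ q r

/-- The context. -/
structure Ctx {G : Type} [Group G] (σ : STData G) (Y₁ Y₂ Z : Type) [MetricSpace Y₁]
    [MetricSpace Y₂] [MetricSpace Z] where
  ι₁ : σ.U₁ → Y₁
  ι₂ : σ.U₂ → Y₂
  r1 : IsReal σ.n₁ Y₁ ι₁
  r2 : IsReal σ.n₂ Y₂ ι₂
  π : Z → Y₁ × Y₂
  inj : Function.Injective π
  rg : ∀ z, π z ∈ STX σ ι₁ ι₂
  pt : ∀ p ∈ STX σ ι₁ ι₂, Z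
  π_mk : ∀ p h, π (pt p h) = p
  ge : ∀ x y, DD2 (π x) (π y) ≤ dist x y
  pc : ∀ u w, σ.n₁ u w ≤ 1 → ∀ x y, π x ∈ STpiece σ ι₁ ι₂ u w → π y ∈ STpiece σ ι₁ ι₂ u w →
    dist x y = DD2 (π x) (π y)
  le₁ : σ.U₁ → σ.U₁ → Prop
  tot₁ : ∀ a b, le₁ a b ∨ le₁ b a
  asy₁ : ∀ a b, le₁ a b → le₁ b a → a = b
  le₂ : σ.U₂ → σ.U₂ → Prop
  tot₂ : ∀ a b, le₂ a b ∨ le₂ b a
  asy₂ : ∀ a b, le₂ a b → le₂ b a → a = b
  hint : ∀ W W', hull σ.n₂ ι₂ (W ∩ W') = hull σ.n₂ ι₂ W ∩ hull σ.n₂ ι₂ W'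
  u1 : ∀ x y z w, σ.n₁ x y ≤ 1 → σ.n₁ z w ≤ 1 → ∀ p : Y₁,
    dist (ι₁ x) p + dist p (ι₁ y) = σ.n₁ x y → dist (ι₁ z) p + dist p (ι₁ w) = σ.n₁ z w →
    (∃ v, p = ι₁ v ∧ (v = x ∨ v = y) ∧ (v = z ∨ v = w)) ∨ (x = z ∧ y = w) ∨ (x = w ∧ y = z)
  u2 : ∀ x y z w, σ.n₂ x y ≤ 1 → σ.n₂ z w ≤ 1 → ∀ p : Y₂,
    dist (ι₂ x) p + dist p (ι₂ y) = σ.n₂ x y → dist (ι₂ z) p + dist p (ι₂ w) = σ.n₂ z w →
    (∃ v, p = ι₂ v ∧ (v = x ∨ v = y) ∧ (v = z ∨ v = w)) ∨ (x = z ∧ y = w) ∨ (x = w ∧ y = z)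

section Main
variable {G : Type} [Group G] {σ : STData G} {Y₁ Y₂ Z : Type} [MetricSpace Y₁]
    [MetricSpace Y₂] [MetricSpace Z] (X : Ctx σ Y₁ Y₂ Z)

/-- dimension of a cell -/
def Ctx.dim (c : Cl σ X.le₁ X.le₂) : ℕ := σ.n₁ c.u c.w + σ.n₂ c.q c.r

theorem Ctx.mem_piece (c : Cl σ X.le₁ X.le₂) (p : Y₁ × Y₂) (h1 : p.1 ∈ seg σ.n₁ X.ι₁ c.u c.w)
    (h2 : p.2 ∈ seg σ.n₂ X.ι₂ c.q c.r) : p ∈ STpiece σ X.ι₁ X.ι₂ c.u c.w :=
  ⟨h1, ⟨c.q, c.qu, c.r, c.ru, c.h2, h2⟩, ⟨c.q, c.qw, c.r, c.rw', c.h2, h2⟩⟩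

/-- the characteristic map, in the product -/
noncomputable def Ctx.F0 (n : ℕ) (c : Cl σ X.le₁ X.le₂) (x : Fin n → ℝ) : Y₁ × Y₂ :=
  (chi X.r1 c.u c.w ((1 + co x 0) / 2), chi X.r2 c.q c.r ((1 + co x (σ.n₁ c.u c.w)) / 2))

theorem Ctx.F0_piece (n : ℕ) (c : Cl σ X.le₁ X.le₂) (x : Fin n → ℝ) :
    X.F0 n c x ∈ STpiece σ X.ι₁ X.ι₂ c.u c.w :=
  X.mem_piece c _ (chi_seg X.r1 _ _ _) (chi_seg X.r2 _ _ _)

/-- the characteristic map -/
noncomputable def Ctx.F (n : ℕ) (c : Cl σ X.le₁ X.le₂) (x : Fin n → ℝ) : Z :=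
  X.pt (X.F0 n c x) ⟨c.u, c.w, c.h1, X.F0_piece n c x⟩

theorem Ctx.π_F (n : ℕ) (c : Cl σ X.le₁ X.le₂) (x : Fin n → ℝ) : X.π (X.F n c x) = X.F0 n c x :=
  X.π_mk _ _

/-- the inverse of the characteristic map -/
noncomputable def Ctx.I (n : ℕ) (c : Cl σ X.le₁ X.le₂) (z : Z) : Fin n → ℝ := fun k =>
  if (k : ℕ) < σ.n₁ c.u c.w then 2 * dist (X.ι₁ c.u) (X.π z).1 - 1
  else 2 * dist (X.ι₂ c.q) (X.π z).2 - 1

theorem Ctx.hIF (c : Cl σ X.le₁ X.le₂) (x : Fin (X.dim c) → ℝ)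
    (hx : x ∈ closedBall (0 : Fin (X.dim c) → ℝ) 1) :
    X.I (X.dim c) c (X.F (X.dim c) c x) = x := by
  funext k
  have hk := k.2
  have hk' : (k : ℕ) < σ.n₁ c.u c.w + σ.n₂ c.q c.r := hk
  have h1 := c.h1
  have h2 := c.h2
  unfold Ctx.I
  rw [X.π_F]
  unfold Ctx.F0
  split_ifs with h
  · have e1 : σ.n₁ c.u c.w = 1 := by omega
    have e2 : (k : ℕ) = 0 := by omega
    have a := co_Icc x hx 0
    rw [(chi_left_right X.r1 c.u c.w _ a.1 a.2).1, e1]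
    have : co x 0 = x k := by
      unfold co
      rw [dif_pos (by rw [← e2]; exact hk)]
      congr 1
      exact Fin.ext e2.symm
    rw [this]
    push_cast
    ring
  · have e1 : σ.n₂ c.q c.r = 1 := by omega
    have e2 : (k : ℕ) = σ.n₁ c.u c.w := by omega
    have a := co_Icc x hx (σ.n₁ c.u c.w)
    rw [(chi_left_right X.r2 c.q c.r _ a.1 a.2).1, e1]
    have : co x (σ.n₁ c.u c.w) = x k := by
      unfold co
      rw [dif_pos (by rw [← e2]; exact hk)]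
      congr 1
      exact Fin.ext e2.symm
    rw [this]
    push_cast
    ring

theorem Ctx.hI (n : ℕ) (c : Cl σ X.le₁ X.le₂) : Continuous (X.I n c) := by
  have c1 : Continuous fun z : Z => (X.π z).1 := by
    apply LipschitzWith.continuous (K := 1)
    apply LipschitzWith.of_dist_le_mul
    intro x y
    rw [NNReal.coe_one, one_mul]
    exact (le_DD2 _ _).1.trans (X.ge x y)
  have c2 : Continuous fun z : Z => (X.π z).2 := by
    apply LipschitzWith.continuous (K := 1)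
    apply LipschitzWith.of_dist_le_mul
    intro x y
    rw [NNReal.coe_one, one_mul]
    exact (le_DD2 _ _).2.trans (X.ge x y)
  apply continuous_pi
  intro k
  unfold Ctx.I
  by_cases h : (k : ℕ) < σ.n₁ c.u c.w
  · simp only [h, if_true]
    fun_prop
  · simp only [h, if_false]
    fun_prop

theorem Ctx.hF (n : ℕ) (c : Cl σ X.le₁ X.le₂) : ContinuousOn (X.F n c) (closedBall 0 1) := by
  apply LipschitzOnWith.continuousOn (K := 1)
  apply LipschitzOnWith.of_dist_le_mul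
  intro x hx y hy
  rw [NNReal.coe_one, one_mul]
  rw [X.pc c.u c.w c.h1 _ _ (by rw [X.π_F]; exact X.F0_piece n c x)
    (by rw [X.π_F]; exact X.F0_piece n c y), X.π_F, X.π_F]
  refine (DD2_le _ _).trans ?_
  unfold Ctx.F0
  simp only
  have key : ∀ k, |(1 + co x k) / 2 - (1 + co y k) / 2| ≤ dist x y / 2 := by
    intro k
    have := co_sub x y k
    rw [show (1 + co x k) / 2 - (1 + co y k) / 2 = (co x k - co y k) / 2 by ring, abs_div]
    simp only [Nat.abs_ofNat]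
    linarith
  have n1 : (σ.n₁ c.u c.w : ℝ) ≤ 1 := by exact_mod_cast c.h1
  have n2 : (σ.n₂ c.q c.r : ℝ) ≤ 1 := by exact_mod_cast c.h2
  have a1 := chi_dist X.r1 c.u c.w _ _ (co_Icc y hy 0).1 (co_Icc y hy 0).2 (co_Icc x hx 0).1
    (co_Icc x hx 0).2
  have a2 := chi_dist X.r2 c.q c.r _ _ (co_Icc y hy (σ.n₁ c.u c.w)).1
    (co_Icc y hy (σ.n₁ c.u c.w)).2 (co_Icc x hx (σ.n₁ c.u c.w)).1 (co_Icc x hx (σ.n₁ c.u c.w)).2
  have b1 := key 0
  have b2 := key (σ.n₁ c.u c.w)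
  have c1 := mul_le_mul b1 n1 (Nat.cast_nonneg _) (by positivity)
  have c2 := mul_le_mul b2 n2 (Nat.cast_nonneg _) (by positivity)
  linarith

/-- the closed cells -/
theorem Ctx.closed_sub (c : Cl σ X.le₁ X.le₂) (x : Fin (X.dim c) → ℝ) :
    (X.π (X.F (X.dim c) c x)).1 ∈ seg σ.n₁ X.ι₁ c.u c.w ∧
      (X.π (X.F (X.dim c) c x)).2 ∈ seg σ.n₂ X.ι₂ c.q c.r := by
  rw [X.π_F]
  exact ⟨chi_seg X.r1 _ _ _, chi_seg X.r2 _ _ _⟩

/-- the open cells -/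
theorem Ctx.open_eq (c : Cl σ X.le₁ X.le₂) (z : Z) :
    (∃ x ∈ ball (0 : Fin (X.dim c) → ℝ) 1, X.F (X.dim c) c x = z) ↔
      (X.π z).1 ∈ oc σ.n₁ X.ι₁ c.u c.w ∧ (X.π z).2 ∈ oc σ.n₂ X.ι₂ c.q c.r := by
  constructor
  · rintro ⟨x, hx, rfl⟩
    rw [X.π_F]
    exact ⟨chi_oc X.r1 _ _ _ (co_Ioo x hx _).1 (co_Ioo x hx _).2,
      chi_oc X.r2 _ _ _ (co_Ioo x hx _).1 (co_Ioo x hx _).2⟩
  · rintro ⟨h1, h2⟩
    have g1 := c.h1
    have g2 := c.h2
    obtain ⟨e1, f1⟩ := h1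
    obtain ⟨e2, f2⟩ := h2
    have n1 := dist_nonneg (x := X.ι₁ c.u) (y := (X.π z).1)
    have n2 := dist_nonneg (x := (X.π z).1) (y := X.ι₁ c.w)
    have n3 := dist_nonneg (x := X.ι₂ c.q) (y := (X.π z).2)
    have n4 := dist_nonneg (x := (X.π z).2) (y := X.ι₂ c.r)
    have s1 : σ.n₁ c.u c.w = 1 → 0 < dist (X.ι₁ c.u) (X.π z).1 ∧
        0 < dist (X.π z).1 (X.ι₁ c.w) := by
      intro h
      rcases f1 with f1 | ⟨f1, f1'⟩
      · omega
      · exact ⟨dist_pos.2 (Ne.symm f1), dist_pos.2 f1'⟩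
    have s2 : σ.n₂ c.q c.r = 1 → 0 < dist (X.ι₂ c.q) (X.π z).2 ∧
        0 < dist (X.π z).2 (X.ι₂ c.r) := by
      intro h
      rcases f2 with f2 | ⟨f2, f2'⟩
      · omega
      · exact ⟨dist_pos.2 (Ne.symm f2), dist_pos.2 f2'⟩
    have hball : X.I (X.dim c) c z ∈ ball (0 : Fin (X.dim c) → ℝ) 1 := by
      rw [mem_ball_zero_iff, pi_norm_lt_iff one_pos]
      intro k
      have hk' : (k : ℕ) < σ.n₁ c.u c.w + σ.n₂ c.q c.r := k.2
      unfold Ctx.I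
      rw [Real.norm_eq_abs, abs_lt]
      split_ifs with h
      · have e : σ.n₁ c.u c.w = 1 := by omega
        obtain ⟨p1, p2⟩ := s1 e
        rw [e] at e1
        push_cast at e1
        constructor <;> linarith
      · have e : σ.n₂ c.q c.r = 1 := by omega
        obtain ⟨p1, p2⟩ := s2 e
        rw [e] at e2
        push_cast at e2
        constructor <;> linarith
    refine ⟨X.I (X.dim c) c z, hball, ?_⟩
    apply X.inj
    rw [X.π_F]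
    unfold Ctx.F0
    have hcl := ball_subset_closedBall hball
    apply Prod.ext
    · apply chi_eq X.r1 _ _ _ (co_Icc _ hcl _).1 (co_Icc _ hcl _).2
      · rcases Nat.eq_zero_or_pos (σ.n₁ c.u c.w) with h | h
        · rw [h] at e1 ⊢
          push_cast at e1 ⊢
          linarith
        · have e : σ.n₁ c.u c.w = 1 := by omega
          have : co (X.I (X.dim c) c z) 0 = 2 * dist (X.ι₁ c.u) (X.π z).1 - 1 := by
            unfold co
            rw [dif_pos (by unfold Ctx.dim; omega)]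
            unfold Ctx.I
            rw [if_pos (by simp only; omega)]
          rw [this, e]
          push_cast
          ring
      · rcases Nat.eq_zero_or_pos (σ.n₁ c.u c.w) with h | h
        · rw [h] at e1 ⊢
          push_cast at e1 ⊢
          linarith
        · have e : σ.n₁ c.u c.w = 1 := by omega
          have : co (X.I (X.dim c) c z) 0 = 2 * dist (X.ι₁ c.u) (X.π z).1 - 1 := by
            unfold co
            rw [dif_pos (by unfold Ctx.dim; omega)]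
            unfold Ctx.I
            rw [if_pos (by simp only; omega)]
          rw [e] at e1
          rw [this, e]
          push_cast at e1 ⊢
          linarith
    · apply chi_eq X.r2 _ _ _ (co_Icc _ hcl _).1 (co_Icc _ hcl _).2
      · rcases Nat.eq_zero_or_pos (σ.n₂ c.q c.r) with h | h
        · rw [h] at e2 ⊢
          push_cast at e2 ⊢
          linarith
        · have e : σ.n₂ c.q c.r = 1 := by omega
          have : co (X.I (X.dim c) c z) (σ.n₁ c.u c.w) =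
              2 * dist (X.ι₂ c.q) (X.π z).2 - 1 := by
            unfold co
            rw [dif_pos (by unfold Ctx.dim; omega)]
            unfold Ctx.I
            rw [if_neg (by simp only; omega)]
          rw [this, e]
          push_cast
          ring
      · rcases Nat.eq_zero_or_pos (σ.n₂ c.q c.r) with h | h
        · rw [h] at e2 ⊢
          push_cast at e2 ⊢
          linarith
        · have e : σ.n₂ c.q c.r = 1 := by omega
          have : co (X.I (X.dim c) c z) (σ.n₁ c.u c.w) =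
              2 * dist (X.ι₂ c.q) (X.π z).2 - 1 := by
            unfold co
            rw [dif_pos (by unfold Ctx.dim; omega)]
            unfold Ctx.I
            rw [if_neg (by simp only; omega)]
          rw [e] at e2
          rw [this, e]
          push_cast at e2 ⊢
          linarith

theorem Ctx.unique (c c' : Cl σ X.le₁ X.le₂) (z : Z)
    (h : (X.π z).1 ∈ oc σ.n₁ X.ι₁ c.u c.w ∧ (X.π z).2 ∈ oc σ.n₂ X.ι₂ c.q c.r)
    (h' : (X.π z).1 ∈ oc σ.n₁ X.ι₁ c'.u c'.w ∧ (X.π z).2 ∈ oc σ.n₂ X.ι₂ c'.q c'.r) : c = c' := by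
  have a := oc_unique σ.tree₁ X.u1 c.u c.w c'.u c'.w c.h1 c'.h1 _ h.1 h'.1
  have b := oc_unique σ.tree₂ X.u2 c.q c.r c'.q c'.r c.h2 c'.h2 _ h.2 h'.2
  have a' : c.u = c'.u ∧ c.w = c'.w := by
    rcases a with a | ⟨a1, a2⟩
    · exact a
    · have e : c.u = c.w := X.asy₁ _ _ c.o1 (by rw [a1, a2]; exact c'.o1)
      exact ⟨e.trans a2, e.symm.trans a1⟩
  have b' : c.q = c'.q ∧ c.r = c'.r := by
    rcases b with b | ⟨b1, b2⟩
    · exact b
    · have e : c.q = c.r := X.asy₂ _ _ c.o2 (by rw [b1, b2]; exact c'.o2)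
      exact ⟨e.trans b2, e.symm.trans b1⟩
  exact Cl.ext a'.1 a'.2 b'.1 b'.2

theorem Ctx.carrier (u w : σ.U₁) (q r : σ.U₂) (h1 : σ.n₁ u w ≤ 1) (h2 : σ.n₂ q r ≤ 1)
    (qu : q ∈ σ.F u) (qw : q ∈ σ.F w) (ru : r ∈ σ.F u) (rw' : r ∈ σ.F w) (z : Z)
    (hz : (X.π z).1 ∈ seg σ.n₁ X.ι₁ u w) (hz' : (X.π z).2 ∈ seg σ.n₂ X.ι₂ q r) :
    ∃ c : Cl σ X.le₁ X.le₂, ((c.u = u ∨ c.u = w) ∧ (c.w = u ∨ c.w = w)) ∧
      ((c.q = q ∨ c.q = r) ∧ (c.r = q ∨ c.r = r)) ∧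
      (X.π z).1 ∈ oc σ.n₁ X.ι₁ c.u c.w ∧ (X.π z).2 ∈ oc σ.n₂ X.ι₂ c.q c.r := by
  obtain ⟨u', w', a1, a2, a3, a4, a5⟩ := seg_carrier σ.tree₁ X.le₁ X.tot₁ u w h1 _ hz
  obtain ⟨q', r', b1, b2, b3, b4, b5⟩ := seg_carrier σ.tree₂ X.le₂ X.tot₂ q r h2 _ hz'
  have hF : ∀ v x, (v = u ∨ v = w) → (x = q ∨ x = r) → x ∈ σ.F v := by
    rintro v x (rfl | rfl) (rfl | rfl) <;> assumption
  exact ⟨⟨u', w', q', r', a3, b3, hF _ _ a1 b1, hF _ _ a2 b1, hF _ _ a1 b2, hF _ _ a2 b2, a4, b4⟩,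
    ⟨a1, a2⟩, ⟨b1, b2⟩, a5, b5⟩

theorem Ctx.carrier' (z : Z) :
    ∃ c : Cl σ X.le₁ X.le₂,
      (X.π z).1 ∈ oc σ.n₁ X.ι₁ c.u c.w ∧ (X.π z).2 ∈ oc σ.n₂ X.ι₂ c.q c.r := by
  obtain ⟨u, w, huw, hp1, hp2, hp3⟩ := X.rg z
  have : (X.π z).2 ∈ hull σ.n₂ X.ι₂ (σ.F u ∩ σ.F w) := by
    rw [X.hint]; exact ⟨hp2, hp3⟩
  obtain ⟨q, hq, r, hr, hqr, hp⟩ := this
  obtain ⟨c, -, -, h⟩ := X.carrier u w q r huw hqr hq.1 hq.2 hr.1 hr.2 z hp1 hp
  exact ⟨c, h⟩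

theorem Ctx.face (c c' : Cl σ X.le₁ X.le₂) (z : Z)
    (h : (X.π z).1 ∈ seg σ.n₁ X.ι₁ c.u c.w ∧ (X.π z).2 ∈ seg σ.n₂ X.ι₂ c.q c.r)
    (h' : (X.π z).1 ∈ oc σ.n₁ X.ι₁ c'.u c'.w ∧ (X.π z).2 ∈ oc σ.n₂ X.ι₂ c'.q c'.r) :
    ((c'.u = c.u ∨ c'.u = c.w) ∧ (c'.w = c.u ∨ c'.w = c.w)) ∧
      ((c'.q = c.q ∨ c'.q = c.r) ∧ (c'.r = c.q ∨ c'.r = c.r)) := by
  obtain ⟨c'', a, b, h''⟩ := X.carrier c.u c.w c.q c.r c.h1 c.h2 c.qu c.qw c.ru c.rw' z h.1 h.2
  have := X.unique c' c'' z h' h''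
  subst this
  exact ⟨a, b⟩

theorem fin_cells {le₁ : σ.U₁ → σ.U₁ → Prop} {le₂ : σ.U₂ → σ.U₂ → Prop} (A : Set σ.U₁)
    (B : Set σ.U₂) (hA : A.Finite) (hB : B.Finite) :
    {c : Cl σ le₁ le₂ | (c.u ∈ A ∧ c.w ∈ A) ∧ (c.q ∈ B ∧ c.r ∈ B)}.Finite := by
  have := ((hA.prod hA).prod (hB.prod hB)).preimage
    (f := fun c : Cl σ le₁ le₂ => ((c.u, c.w), (c.q, c.r))) (by
      intro c _ c' _ h
      simp only [Prod.mk.injEq] at h
      exact Cl.ext h.1.1 h.1.2 h.2.1 h.2.2)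
  exact this

theorem Ctx.near (z : Z) : ∃ O : Set Z, IsOpen O ∧ z ∈ O ∧
    {c : Cl σ X.le₁ X.le₂ | (X.F (X.dim c) c '' closedBall 0 1 ∩ O).Nonempty}.Finite := by
  obtain ⟨ε₁, he₁, u, w, H₁⟩ := STCWX.near σ.tree₁ X.r1 (X.π z).1
  obtain ⟨ε₂, he₂, q, r, H₂⟩ := STCWX.near σ.tree₂ X.r2 (X.π z).2
  refine ⟨ball z (min ε₁ ε₂), isOpen_ball, mem_ball_self (lt_min he₁ he₂), ?_⟩
  let T : σ.U₁ → σ.U₂ → Set (Cl σ X.le₁ X.le₂) := fun a b =>
    {c | b ∈ σ.F a ∧ (c.u ∈ {v | σ.n₁ a v ≤ 1 ∧ b ∈ σ.F v} ∧ c.w ∈ {v | σ.n₁ a v ≤ 1 ∧ b ∈ σ.F v}) ∧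
      (c.q ∈ {x | x ∈ σ.F a ∧ σ.n₂ b x ≤ 1} ∧ c.r ∈ {x | x ∈ σ.F a ∧ σ.n₂ b x ≤ 1})}
  have hT : ∀ a b, (T a b).Finite := by
    intro a b
    by_cases hab : b ∈ σ.F a
    · refine (fin_cells (le₁ := X.le₁) (le₂ := X.le₂) _ _ (σ.U_fin a b hab)
        (σ.F_fin a b hab 1)).subset ?_
      rintro c ⟨-, h⟩
      exact h
    · refine Set.finite_empty.subset ?_
      rintro c ⟨h, -⟩
      exact absurd h hab
  have hU : (⋃ a ∈ ({u, w} : Set σ.U₁), ⋃ b ∈ ({q, r} : Set σ.U₂), T a b).Finite := by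
    apply Set.Finite.biUnion (Set.toFinite _)
    intro a _
    apply Set.Finite.biUnion (Set.toFinite _)
    intro b _
    exact hT a b
  refine hU.subset ?_
  rintro c ⟨y, ⟨x, hx, rfl⟩, hy⟩
  rw [mem_ball] at hy
  obtain ⟨s1, s2⟩ := X.closed_sub c x
  have d1 := H₁ _ (((le_DD2 _ _).1.trans (X.ge _ _)).trans_lt (hy.trans_le (min_le_left _ _)))
    c.u c.w c.h1 s1
  have d2 := H₂ _ (((le_DD2 _ _).2.trans (X.ge _ _)).trans_lt (hy.trans_le (min_le_right _ _)))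
    c.q c.r c.h2 s2
  have z1 : ∀ a, σ.n₁ a a ≤ 1 := fun a => by rw [σ.tree₁.self]; exact zero_le_one
  have z2 : ∀ a, σ.n₂ a a ≤ 1 := fun a => by rw [σ.tree₂.self]; exact zero_le_one
  have y1 : σ.n₁ c.w c.u ≤ 1 := by rw [σ.tree₁.symm]; exact c.h1
  have y2 : σ.n₂ c.r c.q ≤ 1 := by rw [σ.tree₂.symm]; exact c.h2
  simp only [mem_iUnion, mem_insert_iff, mem_singleton_iff, exists_prop]
  rcases d1 with d1 | d1 <;> rcases d2 with d2 | d2
  · exact ⟨c.u, d1, c.q, d2, c.qu, ⟨⟨z1 _, c.qu⟩, ⟨c.h1, c.qw⟩⟩, ⟨c.qu, z2 _⟩, ⟨c.ru, c.h2⟩⟩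
  · exact ⟨c.u, d1, c.r, d2, c.ru, ⟨⟨z1 _, c.ru⟩, ⟨c.h1, c.rw'⟩⟩, ⟨c.qu, y2⟩, ⟨c.ru, z2 _⟩⟩
  · exact ⟨c.w, d1, c.q, d2, c.qw, ⟨⟨y1, c.qu⟩, ⟨z1 _, c.qw⟩⟩, ⟨c.qw, z2 _⟩, ⟨c.rw', c.h2⟩⟩
  · exact ⟨c.w, d1, c.r, d2, c.rw', ⟨⟨y1, c.ru⟩, ⟨z1 _, c.rw'⟩⟩, ⟨c.qw, y2⟩, ⟨c.rw', z2 _⟩⟩

/-- The CW data. -/
noncomputable def Ctx.bd : Bd Z (Cl σ X.le₁ X.le₂) where
  dim := X.dim
  F := X.F
  I := X.I
  hF c := X.hF _ c
  hI c := X.hI _ c
  hIF := X.hIF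
  hdisj c c' x hx y hy h := by
    apply X.unique c c' (X.F (X.dim c) c x)
    · exact (X.open_eq c _).1 ⟨x, hx, rfl⟩
    · rw [h]
      exact (X.open_eq c' _).1 ⟨y, hy, rfl⟩
  hcov z := by
    obtain ⟨c, h⟩ := X.carrier' z
    exact ⟨c, (X.open_eq c z).2 h⟩
  hface c := by
    refine (fin_cells (le₁ := X.le₁) (le₂ := X.le₂) {c.u, c.w} {c.q, c.r} (Set.toFinite _)
      (Set.toFinite _)).subset ?_
    rintro c' ⟨x, hx, y, hy, h⟩
    exact X.face c c' (X.F (X.dim c) c x) (X.closed_sub c x)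
      (by rw [h]; exact (X.open_eq c' _).1 ⟨y, hy, rfl⟩)
  hfdim c c' x hx y hy h := by
    obtain ⟨⟨a1, a2⟩, b1, b2⟩ := X.face c c' (X.F (X.dim c) c x) (X.closed_sub c x)
      (by rw [h]; exact (X.open_eq c' _).1 ⟨y, hy, rfl⟩)
    have d1 := dim_lt σ.tree₁ c.u c.w c'.u c'.w c.h1 a1 a2
    have d2 := dim_lt σ.tree₂ c.q c.r c'.q c'.r c.h2 b1 b2
    have k1 : σ.n₁ c'.u c'.w < σ.n₁ c.u c.w ∨ (c'.u = c.u ∧ c'.w = c.w) := by
      rcases d1 with d | d | ⟨d, d'⟩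
      · exact Or.inl d
      · exact Or.inr d
      · right
        have e : c.u = c.w := X.asy₁ _ _ c.o1 (by rw [← d, ← d']; exact c'.o1)
        exact ⟨d.trans e.symm, d'.trans e⟩
    have k2 : σ.n₂ c'.q c'.r < σ.n₂ c.q c.r ∨ (c'.q = c.q ∧ c'.r = c.r) := by
      rcases d2 with d | d | ⟨d, d'⟩
      · exact Or.inl d
      · exact Or.inr d
      · right
        have e : c.q = c.r := X.asy₂ _ _ c.o2 (by rw [← d, ← d']; exact c'.o2)
        exact ⟨d.trans e.symm, d'.trans e⟩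
    unfold Ctx.dim
    rcases k1 with k1 | ⟨k1, k1'⟩ <;> rcases k2 with k2 | ⟨k2, k2'⟩
    · left; omega
    · left; rw [k2, k2']; omega
    · left; rw [k1, k1']; omega
    · right; exact Cl.ext k1 k1' k2 k2'
  hloc := X.near

/-- Orient a pair. -/
theorem orient {U : Type} (le : U → U → Prop) (tot : ∀ a b, le a b ∨ le b a) (a b : U) :
    ∃ u w, le u w ∧ ((u = a ∧ w = b) ∨ (u = b ∧ w = a)) := by
  rcases tot a b with h | h
  · exact ⟨a, b, h, Or.inl ⟨rfl, rfl⟩⟩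
  · exact ⟨b, a, h, Or.inr ⟨rfl, rfl⟩⟩

theorem oc_smul {U Y : Type} [MetricSpace Y] [MulAction G U] [MulAction G Y] {n : U → U → ℕ}
    {ι : U → Y} (inv : ∀ (g : G) (x y : U), n (g • x) (g • y) = n x y)
    (i1 : ∀ (g : G) (p q : Y), dist (g • p) (g • q) = dist p q)
    (e1 : ∀ (g : G) (x : U), ι (g • x) = g • ι x) (g : G) (u w : U) (p : Y)
    (h : p ∈ oc n ι u w) : g • p ∈ oc n ι (g • u) (g • w) := by
  refine ⟨?_, ?_⟩
  · rw [e1, e1, i1, i1, inv]; exact h.1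
  · rw [e1, e1, inv]
    rcases h.2 with h | ⟨h, h'⟩
    · exact Or.inl h
    · exact Or.inr ⟨fun e => h (MulAction.injective g e), fun e => h' (MulAction.injective g e)⟩

theorem Ctx.final [MulAction G Y₁] [MulAction G Y₂] [MulAction G Z] [ContractibleSpace Z]
    (hfree : σ.CellFree) (iso : ∀ (g : G) (x y : Z), dist (g • x) (g • y) = dist x y)
    (hπ : ∀ (g : G) (z : Z), X.π (g • z) = (g • (X.π z).1, g • (X.π z).2))
    (i1 : ∀ (g : G) (p q : Y₁), dist (g • p) (g • q) = dist p q)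
    (i2 : ∀ (g : G) (p q : Y₂), dist (g • p) (g • q) = dist p q)
    (e1 : ∀ (g : G) (x : σ.U₁), X.ι₁ (g • x) = g • X.ι₁ x)
    (e2 : ∀ (g : G) (x : σ.U₂), X.ι₂ (g • x) = g • X.ι₂ x) (N : ℕ) (hN : ∀ c, X.dim c ≤ N) :
    FreeCWlf G N := by
  have hopen : ∀ c : Cl σ X.le₁ X.le₂, X.bd.F (X.bd.dim c) c '' ball 0 1 =
      {z | (X.π z).1 ∈ oc σ.n₁ X.ι₁ c.u c.w ∧ (X.π z).2 ∈ oc σ.n₂ X.ι₂ c.q c.r} := by
    intro c
    ext z
    exact X.open_eq c z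
  have hs : ∀ (g : G) (z : Z) (u w : σ.U₁) (q r : σ.U₂),
      ((X.π z).1 ∈ oc σ.n₁ X.ι₁ u w ∧ (X.π z).2 ∈ oc σ.n₂ X.ι₂ q r) →
      ((X.π (g • z)).1 ∈ oc σ.n₁ X.ι₁ (g • u) (g • w) ∧
        (X.π (g • z)).2 ∈ oc σ.n₂ X.ι₂ (g • q) (g • r)) := by
    rintro g z u w q r ⟨h1, h2⟩
    rw [hπ]
    exact ⟨oc_smul σ.inv₁ i1 e1 g u w _ h1, oc_smul σ.inv₂ i2 e2 g q r _ h2⟩
  apply X.bd.free G (fun g => (Isometry.of_dist_eq (iso g)).continuous) N hN
  · intro g c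
    obtain ⟨u', w', o1, c1⟩ := orient X.le₁ X.tot₁ (g • c.u) (g • c.w)
    obtain ⟨q', r', o2, c2⟩ := orient X.le₂ X.tot₂ (g • c.q) (g • c.r)
    have m1 : σ.n₁ (g • c.u) (g • c.w) = σ.n₁ c.u c.w := σ.inv₁ _ _ _
    have m2 : σ.n₂ (g • c.q) (g • c.r) = σ.n₂ c.q c.r := σ.inv₂ _ _ _
    have k1 : σ.n₁ u' w' = σ.n₁ c.u c.w := by
      rcases c1 with ⟨rfl, rfl⟩ | ⟨rfl, rfl⟩
      · exact m1
      · rw [σ.tree₁.symm]; exact m1
    have k2 : σ.n₂ q' r' = σ.n₂ c.q c.r := by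
      rcases c2 with ⟨rfl, rfl⟩ | ⟨rfl, rfl⟩
      · exact m2
      · rw [σ.tree₂.symm]; exact m2
    have f1 := σ.F_smul g _ _ c.qu
    have f2 := σ.F_smul g _ _ c.qw
    have f3 := σ.F_smul g _ _ c.ru
    have f4 := σ.F_smul g _ _ c.rw'
    have hF : ∀ v x, (v = g • c.u ∨ v = g • c.w) → (x = g • c.q ∨ x = g • c.r) → x ∈ σ.F v := by
      rintro v x (rfl | rfl) (rfl | rfl) <;> assumption
    have a1 : u' = g • c.u ∨ u' = g • c.w := c1.elim (fun h => Or.inl h.1) (fun h => Or.inr h.1)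
    have a2 : w' = g • c.u ∨ w' = g • c.w := c1.elim (fun h => Or.inr h.2) (fun h => Or.inl h.2)
    have a3 : q' = g • c.q ∨ q' = g • c.r := c2.elim (fun h => Or.inl h.1) (fun h => Or.inr h.1)
    have a4 : r' = g • c.q ∨ r' = g • c.r := c2.elim (fun h => Or.inr h.2) (fun h => Or.inl h.2)
    have s1 : oc σ.n₁ X.ι₁ u' w' = oc σ.n₁ X.ι₁ (g • c.u) (g • c.w) := by
      rcases c1 with ⟨rfl, rfl⟩ | ⟨rfl, rfl⟩
      · rfl
      · exact oc_symm σ.tree₁ _ _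
    have s2 : oc σ.n₂ X.ι₂ q' r' = oc σ.n₂ X.ι₂ (g • c.q) (g • c.r) := by
      rcases c2 with ⟨rfl, rfl⟩ | ⟨rfl, rfl⟩
      · rfl
      · exact oc_symm σ.tree₂ _ _
    refine ⟨⟨u', w', q', r', by rw [k1]; exact c.h1, by rw [k2]; exact c.h2, hF _ _ a1 a3,
      hF _ _ a2 a3, hF _ _ a1 a4, hF _ _ a2 a4, o1, o2⟩, ?_, ?_⟩
    · show σ.n₁ u' w' + σ.n₂ q' r' = σ.n₁ c.u c.w + σ.n₂ c.q c.r
      rw [k1, k2]
    · rw [hopen, hopen]
      ext z
      simp only [mem_image, mem_ofPred_eq]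
      rw [s1, s2]
      constructor
      · rintro ⟨y, hy, rfl⟩
        exact hs g y _ _ _ _ hy
      · intro hz
        refine ⟨g⁻¹ • z, ?_, smul_inv_smul g z⟩
        have := hs g⁻¹ z _ _ _ _ hz
        simpa only [inv_smul_smul] using this
  · intro g c h
    rw [hopen] at h
    obtain ⟨z, hz⟩ : ∃ z : Z, (X.π z).1 ∈ oc σ.n₁ X.ι₁ c.u c.w ∧
        (X.π z).2 ∈ oc σ.n₂ X.ι₂ c.q c.r :=
      ⟨X.F (X.dim c) c 0, (X.open_eq c _).1 ⟨0, mem_ball_self one_pos, rfl⟩⟩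
    have h1 : (X.π (g • z)).1 ∈ oc σ.n₁ X.ι₁ c.u c.w ∧ (X.π (g • z)).2 ∈ oc σ.n₂ X.ι₂ c.q c.r := by
      have : g • z ∈ (fun x : Z => g • x) '' {z | (X.π z).1 ∈ oc σ.n₁ X.ι₁ c.u c.w ∧
        (X.π z).2 ∈ oc σ.n₂ X.ι₂ c.q c.r} := ⟨z, hz, rfl⟩
      rw [h] at this
      exact this
    have h2 := hs g z _ _ _ _ hz
    have m1 : σ.n₁ (g • c.u) (g • c.w) ≤ 1 := by rw [σ.inv₁]; exact c.h1
    have m2 : σ.n₂ (g • c.q) (g • c.r) ≤ 1 := by rw [σ.inv₂]; exact c.h2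
    exact hfree g c.u c.w c.q c.r c.h1 c.h2 c.qu c.qw c.ru c.rw'
      (oc_unique σ.tree₁ X.u1 _ _ _ _ m1 c.h1 _ h2.1 h1.1)
      (oc_unique σ.tree₂ X.u2 _ _ _ _ m2 c.h2 _ h2.2 h1.2)

end Main

/-- The construction from a pseudometric. -/
theorem core (hC : Stmt_Contr) {G : Type} [Group G] (σ : STData G) (hfree : σ.CellFree)
    {Y₁ Y₂ : Type} [MetricSpace Y₁] [MetricSpace Y₂] [MulAction G Y₁] [MulAction G Y₂]
    (ι₁ : σ.U₁ → Y₁) (ι₂ : σ.U₂ → Y₂) (r1 : IsReal σ.n₁ Y₁ ι₁) (r2 : IsReal σ.n₂ Y₂ ι₂)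
    (hH : Stmt_Hull)
    (i1 : ∀ (g : G) (p q : Y₁), dist (g • p) (g • q) = dist p q)
    (i2 : ∀ (g : G) (p q : Y₂), dist (g • p) (g • q) = dist p q)
    (e1 : ∀ (g : G) (x : σ.U₁), ι₁ (g • x) = g • ι₁ x)
    (e2 : ∀ (g : G) (x : σ.U₂), ι₂ (g • x) = g • ι₂ x)
    (Z : Type) [MulAction G Z] (π : Z → Y₁ × Y₂) (inj : Function.Injective π)
    (rg : ∀ z, π z ∈ STX σ ι₁ ι₂) (pt : ∀ p ∈ STX σ ι₁ ι₂, Z) (π_pt : ∀ p h, π (pt p h) = p)
    (d : Z → Z → ℝ) (hd : IsPM d) (hcat : CATon d univ)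
    (ge : ∀ x y, DD2 (π x) (π y) ≤ d x y)
    (pc : ∀ u w, σ.n₁ u w ≤ 1 → ∀ x y, π x ∈ STpiece σ ι₁ ι₂ u w → π y ∈ STpiece σ ι₁ ι₂ u w →
      d x y = DD2 (π x) (π y))
    (iso : ∀ (g : G) (x y : Z), d (g • x) (g • y) = d x y)
    (hπ : ∀ (g : G) (z : Z), π (g • z) = (g • (π z).1, g • (π z).2)) :
    FreeCWlf G 2 ∧ (Subsingleton σ.U₁ → FreeCWlf G 1) := by
  have sep : ∀ x y, d x y = 0 → x = y := by
    intro x y h
    apply inj
    have h1 := (le_DD2 (π x) (π y)).1.trans ((ge x y).trans h.le)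
    have h2 := (le_DD2 (π x) (π y)).2.trans ((ge x y).trans h.le)
    exact Prod.ext (dist_le_zero.1 h1) (dist_le_zero.1 h2)
  let m : MetricSpace Z :=
    { dist := d
      dist_self := hd.self
      dist_comm := hd.symm
      dist_triangle := hd.tri
      eq_of_dist_eq_zero := fun {x y} h => sep x y h }
  obtain ⟨-, hull_inter, hull_ι, -, u2⟩ := hH σ.U₂ Y₂ σ.n₂ ι₂ σ.tree₂ r2
  obtain ⟨-, -, -, -, u1⟩ := hH σ.U₁ Y₁ σ.n₁ ι₁ σ.tree₁ r1
  obtain ⟨le₁, tot₁, asy₁⟩ := exOrder σ.U₁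
  obtain ⟨le₂, tot₂, asy₂⟩ := exOrder σ.U₂
  let X : Ctx σ Y₁ Y₂ Z :=
    { ι₁ := ι₁, ι₂ := ι₂, r1 := r1, r2 := r2, π := π, inj := inj, rg := rg, pt := pt,
      π_mk := π_pt, ge := ge, pc := pc, le₁ := le₁, tot₁ := tot₁, asy₁ := asy₁, le₂ := le₂,
      tot₂ := tot₂, asy₂ := asy₂, hint := hull_inter, u1 := u1, u2 := u2 }
  have hne : Nonempty Z := by
    obtain ⟨q, hq⟩ := σ.F_ne σ.o₁
    refine ⟨pt (ι₁ σ.o₁, ι₂ q) ⟨σ.o₁, σ.o₁, by rw [σ.tree₁.self]; exact Nat.zero_le _, ?_, ?_, ?_⟩⟩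
    · simp [σ.tree₁.self]
    · exact (hull_ι _ _).2 hq
    · exact (hull_ι _ _).2 hq
  have hcs : ContractibleSpace Z := by
    apply hC Z hne
    intro x y t h0 h1
    obtain ⟨p, -, hp⟩ := hcat x (Set.mem_univ x) y (Set.mem_univ y) t h0 h1
    exact ⟨p, fun z => hp z (Set.mem_univ z)⟩
  constructor
  · apply X.final hfree iso hπ i1 i2 e1 e2 2
    intro c
    have := c.h1
    have := c.h2
    show σ.n₁ c.u c.w + σ.n₂ c.q c.r ≤ 2
    omega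
  · intro hsub
    apply X.final hfree iso hπ i1 i2 e1 e2 1
    intro c
    have h1 : σ.n₁ c.u c.w = 0 := by
      rw [hsub.elim c.u c.w]; exact σ.tree₁.self _
    have := c.h2
    show σ.n₁ c.u c.w + σ.n₂ c.q c.r ≤ 1
    omega

end STCWX

open STCWX in
theorem stcw_proof (h : Stmt_ST1) (h' : Stmt_RT) (h'' : Stmt_Hull) (hC : Stmt_Contr) :
    Stmt_STCW := by
  intro G _ σ hfree
  obtain ⟨Y₁, m1, a1, ι₁, r1, i1, e1⟩ := h' σ.U₁ G σ.n₁ σ.tree₁ σ.inv₁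
  obtain ⟨Y₂, m2, a2, ι₂, r2, i2, e2⟩ := h' σ.U₂ G σ.n₂ σ.tree₂ σ.inv₂
  obtain ⟨d, hd, hge, hpc, hcat, hmax⟩ := h G σ Y₁ Y₂ ι₁ ι₂ r1 r2
  have hle1 : ∀ (g : G) {u w : σ.U₁}, σ.n₁ u w ≤ 1 → σ.n₁ (g • u) (g • w) ≤ 1 := by
    intro g u w huw
    rw [σ.inv₁]; exact huw
  have hps : ∀ (g : G) (u w : σ.U₁) (p : Y₁ × Y₂), p ∈ STpiece σ ι₁ ι₂ u w →
      ((g • p.1, g • p.2) : Y₁ × Y₂) ∈ STpiece σ ι₁ ι₂ (g • u) (g • w) := by
    rintro g u w p ⟨h1, h2, h3⟩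
    have hh : ∀ v : σ.U₁, p.2 ∈ hull σ.n₂ ι₂ (σ.F v) →
        g • p.2 ∈ hull σ.n₂ ι₂ (σ.F (g • v)) := by
      rintro v ⟨x, hx, y, hy, hxy, hd⟩
      refine ⟨g • x, σ.F_smul g v x hx, g • y, σ.F_smul g v y hy, ?_, ?_⟩
      · rw [σ.inv₂]; exact hxy
      · rw [e2, e2, i2, i2, σ.inv₂]; exact hd
    refine ⟨?_, hh u h2, hh w h3⟩
    show dist (ι₁ (g • u)) (g • p.1) + dist (g • p.1) (ι₁ (g • w)) = σ.n₁ (g • u) (g • w)
    rw [e1, e1, i1, i1, σ.inv₁]; exact h1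
  let act : MulAction G (STX σ ι₁ ι₂) :=
    { smul := fun g x => ⟨(g • x.1.1, g • x.1.2), by
        obtain ⟨u, w, huw, hp⟩ := x.2
        exact ⟨g • u, g • w, hle1 g huw, hps g u w x.1 hp⟩⟩
      one_smul := fun x => by
        apply Subtype.ext
        show ((1 : G) • x.1.1, (1 : G) • x.1.2) = x.1
        rw [one_smul, one_smul]
      mul_smul := fun g k x => by
        apply Subtype.ext
        show ((g * k) • x.1.1, (g * k) • x.1.2) = (g • (k • x.1.1), g • (k • x.1.2))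
        rw [mul_smul, mul_smul] }
  have hval : ∀ (g : G) (x : STX σ ι₁ ι₂), ((g • x : STX σ ι₁ ι₂) : Y₁ × Y₂) =
      (g • x.1.1, g • x.1.2) := fun g x => rfl
  have hDD : ∀ (g : G) (x y : STX σ ι₁ ι₂),
      DD2 ((g • x : STX σ ι₁ ι₂) : Y₁ × Y₂) ((g • y : STX σ ι₁ ι₂) : Y₁ × Y₂) =
        DD2 (x : Y₁ × Y₂) (y : Y₁ × Y₂) := by
    intro g x y
    rw [hval, hval]
    unfold DD2
    simp only [i1, i2]
  have hle : ∀ (g : G) (x y : STX σ ι₁ ι₂), d (g • x) (g • y) ≤ d x y := by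
    intro g
    apply hmax (fun x y => d (g • x) (g • y))
    · exact ⟨fun x => hd.self _, fun x y => hd.symm _ _, fun x y z => hd.tri _ _ _⟩
    · intro u w huw x y hx hy
      have := hpc (g • u) (g • w) (hle1 g huw) (g • x) (g • y) (hps g u w x.1 hx)
        (hps g u w y.1 hy)
      show d (g • x) (g • y) ≤ _
      rw [this, hDD]
  have hiso : ∀ (g : G) (x y : STX σ ι₁ ι₂), d (g • x) (g • y) = d x y := by
    intro g x y
    apply le_antisymm (hle g x y)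
    have := hle g⁻¹ (g • x) (g • y)
    rwa [inv_smul_smul, inv_smul_smul] at this
  exact core hC σ hfree ι₁ ι₂ r1 r2 h'' i1 i2 e1 e2 (STX σ ι₁ ι₂) (fun z => z.1)
    Subtype.val_injective (fun z => z.2) (fun p hp => ⟨p, hp⟩) (fun p hp => rfl) d hd hcat hge hpc
    hiso hval

end Pool.Agent.SD
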