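import Pool.Agent.SD.Cat

/-!
# VHST: VH data with finitely many letters give `STData`
-/

set_option autoImplicit false

namespace Pool.Agent.SD

open scoped Classical

namespace VHST

/-- Length functions modulo a subgroup. -/
structure LenOn {G : Type} [Group G] (K : Subgroup G) (L : G → ℕ) : Prop where
  zero : ∀ g, L g = 0 ↔ g ∈ K
  inv : ∀ g, L g⁻¹ = L g
  left : ∀ f ∈ K, ∀ g, L (f * g) = L g
  four : ∀ a b c d : G, L (a⁻¹ * b) + L (c⁻¹ * d) ≤
    max (L (a⁻¹ * c) + L (b⁻¹ * d)) (L (a⁻¹ * d) + L (b⁻¹ * c))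
  step : ∀ g, L g ≠ 0 → ∃ h, L h = 1 ∧ L (h⁻¹ * g) + 1 = L g
  par : ∀ s g, L s = 1 → L (s * g) ≠ L g

section len
variable {G : Type} [Group G] {K : Subgroup G} {L : G → ℕ}

theorem LenOn.right (h : LenOn K L) (f : G) (hf : f ∈ K) (g : G) : L (g * f) = L g := by
  rw [← h.inv, mul_inv_rev, h.left _ (K.inv_mem hf), h.inv]

/-- the metric on cosets -/
noncomputable def nQ (K : Subgroup G) (L : G → ℕ) (x y : G ⧸ K) : ℕ :=
  L ((Quotient.out x)⁻¹ * Quotient.out y)

theorem LenOn.nQ_mk (h : LenOn K L) (a b : G) : nQ K L (a : G ⧸ K) (b : G ⧸ K) = L (a⁻¹ * b) := by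
  obtain ⟨k, hk⟩ := QuotientGroup.mk_out_eq_mul K a
  obtain ⟨k', hk'⟩ := QuotientGroup.mk_out_eq_mul K b
  unfold nQ
  rw [show Quotient.out (a : G ⧸ K) = a * k from hk,
    show Quotient.out (b : G ⧸ K) = b * k' from hk', mul_inv_rev, mul_assoc,
    h.left _ (K.inv_mem k.2), ← mul_assoc, h.right _ k'.2]

theorem LenOn.nQ_par (h : LenOn K L) (x y z : G ⧸ K) (hxy : nQ K L x y = 1) :
    nQ K L x z ≠ nQ K L y z := by
  induction x using QuotientGroup.induction_on with
  | H a =>
    induction y using QuotientGroup.induction_on with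
    | H b =>
      induction z using QuotientGroup.induction_on with
      | H c =>
        rw [h.nQ_mk] at hxy
        rw [h.nQ_mk, h.nQ_mk]
        have h1 : a⁻¹ * c = (a⁻¹ * b) * (b⁻¹ * c) := by group
        rw [h1]
        exact h.par _ _ hxy

theorem LenOn.isTreeM (h : LenOn K L) : IsTreeM (nQ K L) where
  par := fun x y z hxy => h.nQ_par x y z hxy
  self x := by
    induction x using QuotientGroup.induction_on with
    | H a => rw [h.nQ_mk, inv_mul_cancel, h.zero]; exact K.one_mem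
  eq_of x y := by
    induction x using QuotientGroup.induction_on with
    | H a =>
      induction y using QuotientGroup.induction_on with
      | H b =>
        rw [h.nQ_mk, h.zero]
        exact fun hh => QuotientGroup.eq.mpr hh
  symm x y := by
    induction x using QuotientGroup.induction_on with
    | H a =>
      induction y using QuotientGroup.induction_on with
      | H b => rw [h.nQ_mk, h.nQ_mk, ← h.inv, mul_inv_rev, inv_inv]
  four x y z w := by
    induction x using QuotientGroup.induction_on with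
    | H a =>
      induction y using QuotientGroup.induction_on with
      | H b =>
        induction z using QuotientGroup.induction_on with
        | H c =>
          induction w using QuotientGroup.induction_on with
          | H d =>
            simp only [h.nQ_mk]
            exact h.four a b c d
  step x y := by
    induction x using QuotientGroup.induction_on with
    | H a =>
      induction y using QuotientGroup.induction_on with
      | H b =>
        rw [h.nQ_mk]
        intro hne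
        obtain ⟨s, hs1, hs2⟩ := h.step _ hne
        refine ⟨((a * s : G) : G ⧸ K), ?_, ?_⟩
        · rw [h.nQ_mk, ← mul_assoc, inv_mul_cancel, one_mul, hs1]
        · rw [h.nQ_mk, mul_inv_rev, mul_assoc, hs2]

theorem LenOn.nQ_smul (h : LenOn K L) (g : G) (x y : G ⧸ K) :
    nQ K L (g • x) (g • y) = nQ K L x y := by
  induction x using QuotientGroup.induction_on with
  | H a =>
    induction y using QuotientGroup.induction_on with
    | H b =>
      rw [MulAction.Quotient.smul_coe, MulAction.Quotient.smul_coe, h.nQ_mk, h.nQ_mk]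
      simp only [smul_eq_mul, mul_inv_rev]
      congr 1
      group

end len

section general

/-- the general construction of `STData` from two length functions -/
theorem build {G : Type} [Group G] {K₁ K₂ : Subgroup G} {L₁ L₂ : G → ℕ} (h₁ : LenOn K₁ L₁)
    (h₂ : LenOn K₂ L₂) {A B : Type} [Finite A] [Finite B]
    (fA : FreeGroup A →* G) (fB : FreeGroup B →* G)
    (hA : ∀ x, x ∈ K₁ ↔ ∃ w, fA w = x) (hB : ∀ x, x ∈ K₂ ↔ ∃ w, fB w = x)
    (nA : ∀ w, L₂ (fA w) = FreeGroup.norm w) (nB : ∀ w, L₁ (fB w) = FreeGroup.norm w)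
    (hadj : ∀ g, L₁ g = 1 → ∃ f ∈ K₁, ∃ k ∈ K₂, (f * k)⁻¹ * g ∈ K₁)
    (hfin : ∀ R : ℕ, {g : G | L₁ g ≤ R ∧ L₂ g ≤ R}.Finite) : Nonempty (STData G) := by
  have fin_norm : ∀ (X : Type) [Finite X] (R : ℕ), {w : FreeGroup X | FreeGroup.norm w ≤ R}.Finite := by
    intro X _ R
    have h := List.finite_length_le (X × Bool) R
    exact Set.Finite.preimage (f := FreeGroup.toWord) (FreeGroup.toWord_injective.injOn) h
  refine ⟨{
    U₁ := G ⧸ K₁
    U₂ := G ⧸ K₂
    o₁ := ((1 : G) : G ⧸ K₁)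
    n₁ := nQ K₁ L₁
    n₂ := nQ K₂ L₂
    tree₁ := h₁.isTreeM
    tree₂ := h₂.isTreeM
    inv₁ := h₁.nQ_smul
    inv₂ := h₂.nQ_smul
    F := fun u => {q | ∃ a : G, (a : G ⧸ K₁) = u ∧ (a : G ⧸ K₂) = q}
    F_smul := ?_
    F_ne := ?_
    F_conv := ?_
    F_adj := ?_
    F_fin := ?_
    U_fin := ?_
    coc := ?_
    prop := ?_ }⟩
  · rintro g u q ⟨a, rfl, rfl⟩
    exact ⟨g * a, rfl, rfl⟩
  · intro u
    induction u using QuotientGroup.induction_on with
    | H a => exact ⟨_, a, rfl, rfl⟩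
  · rintro u x ⟨a, rfl, rfl⟩ y ⟨b, hb, rfl⟩ z hz
    obtain ⟨w, hw⟩ := (hA (a⁻¹ * b)).mp (QuotientGroup.eq.mp hb.symm)
    have hk : nQ K₂ L₂ (a : G ⧸ K₂) (b : G ⧸ K₂) = FreeGroup.norm w := by
      rw [h₂.nQ_mk, ← hw, nA]
    set i := nQ K₂ L₂ (a : G ⧸ K₂) z with hi
    set w1 : FreeGroup A := FreeGroup.mk (w.toWord.take i) with hw1
    set w2 : FreeGroup A := FreeGroup.mk (w.toWord.drop i) with hw2
    have hw12 : w1 * w2 = w := by
      rw [hw1, hw2, FreeGroup.mul_mk, List.take_append_drop, FreeGroup.mk_toWord]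
    have hn : FreeGroup.norm w = w.toWord.length := rfl
    have hlen : i ≤ w.toWord.length := by omega
    have e1 : FreeGroup.norm w1 ≤ i := by
      refine FreeGroup.norm_mk_le.trans ?_
      rw [List.length_take]
      exact min_le_left _ _
    have e2 : FreeGroup.norm w2 ≤ w.toWord.length - i := by
      refine FreeGroup.norm_mk_le.trans ?_
      rw [List.length_drop]
    have hz1 : nQ K₂ L₂ (a : G ⧸ K₂) ((a * fA w1 : G) : G ⧸ K₂) = FreeGroup.norm w1 := by
      rw [h₂.nQ_mk, ← mul_assoc, inv_mul_cancel, one_mul, nA]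
    have hz2 : nQ K₂ L₂ ((a * fA w1 : G) : G ⧸ K₂) (b : G ⧸ K₂) = FreeGroup.norm w2 := by
      rw [h₂.nQ_mk, mul_inv_rev, mul_assoc, ← hw, ← hw12, map_mul, ← mul_assoc, inv_mul_cancel,
        one_mul, nA]
    have hf := h₂.isTreeM.four z ((a * fA w1 : G) : G ⧸ K₂) (a : G ⧸ K₂) (b : G ⧸ K₂)
    rw [h₂.isTreeM.symm z (a : G ⧸ K₂), hk,
      h₂.isTreeM.symm ((a * fA w1 : G) : G ⧸ K₂) (a : G ⧸ K₂), hz1, hz2] at hf
    have h0 : nQ K₂ L₂ z ((a * fA w1 : G) : G ⧸ K₂) = 0 := by
      rcases le_max_iff.mp hf with h | h <;> omega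
    have hzz := h₂.isTreeM.eq_of _ _ h0
    refine ⟨a * fA w1, ?_, hzz.symm⟩
    apply QuotientGroup.eq.mpr
    rw [mul_inv_rev, mul_assoc, inv_mul_cancel, mul_one]
    exact K₁.inv_mem ((hA _).mpr ⟨w1, rfl⟩)
  · intro u w huw
    induction u using QuotientGroup.induction_on with
    | H a =>
      induction w using QuotientGroup.induction_on with
      | H b =>
        rw [h₁.nQ_mk] at huw
        obtain ⟨f, hf, k, hk, hm⟩ := hadj _ huw
        refine ⟨((a * f : G) : G ⧸ K₂), ⟨a * f, ?_, rfl⟩, ⟨a * f * k, ?_, ?_⟩⟩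
        · apply QuotientGroup.eq.mpr
          rw [mul_inv_rev, mul_assoc, inv_mul_cancel, mul_one]
          exact K₁.inv_mem hf
        · apply QuotientGroup.eq.mpr
          have : (a * f * k)⁻¹ * b = (f * k)⁻¹ * (a⁻¹ * b) := by group
          rw [this]
          exact hm
        · apply QuotientGroup.eq.mpr
          have : (a * f * k)⁻¹ * (a * f) = k⁻¹ := by group
          rw [this]
          exact K₂.inv_mem hk
  · rintro u q ⟨a, rfl, rfl⟩ R
    refine ((fin_norm A R).image (fun w => ((a * fA w : G) : G ⧸ K₂))).subset ?_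
    rintro q' ⟨⟨b, hb, rfl⟩, hR⟩
    obtain ⟨w, hw⟩ := (hA (a⁻¹ * b)).mp (QuotientGroup.eq.mp hb.symm)
    refine ⟨w, ?_, ?_⟩
    · rw [h₂.nQ_mk, ← hw, nA] at hR
      exact hR
    · change ((a * fA w : G) : G ⧸ K₂) = _
      rw [hw, mul_inv_cancel_left]
  · rintro u q ⟨a, rfl, rfl⟩
    refine ((fin_norm B 1).image (fun w => ((a * fB w : G) : G ⧸ K₁))).subset ?_
    rintro w ⟨hR, ⟨b, rfl, hb⟩⟩
    obtain ⟨v, hv⟩ := (hB (a⁻¹ * b)).mp (QuotientGroup.eq.mp hb.symm)
    refine ⟨v, ?_, ?_⟩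
    · rw [h₁.nQ_mk, ← hv, nB] at hR
      exact hR
    · change ((a * fB v : G) : G ⧸ K₁) = _
      rw [hv, mul_inv_cancel_left]
  · refine ⟨{(((1 : G) : G ⧸ K₁), ((1 : G) : G ⧸ K₂))}, ?_, ?_⟩
    · intro e he
      rw [Finset.mem_singleton] at he
      subst he
      exact ⟨1, rfl, rfl⟩
    · rintro u q ⟨a, rfl, rfl⟩
      refine ⟨a⁻¹, ?_⟩
      rw [Finset.mem_singleton]
      refine Prod.ext ?_ ?_
      · change ((a⁻¹ * a : G) : G ⧸ K₁) = _
        rw [inv_mul_cancel]
      · change ((a⁻¹ * a : G) : G ⧸ K₂) = _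
        rw [inv_mul_cancel]
  · rintro u q ⟨a, rfl, rfl⟩ R
    refine ((hfin R).image (fun g => a * g * a⁻¹)).subset ?_
    rintro g ⟨hg1, hg2⟩
    rw [MulAction.Quotient.smul_coe, h₁.nQ_mk] at hg1
    rw [MulAction.Quotient.smul_coe, h₂.nQ_mk] at hg2
    refine ⟨a⁻¹ * (g * a), ⟨hg1, hg2⟩, ?_⟩
    group

end general

section swap
variable {H V S : Type} (D : VHData H V S)

/-- from the group to the swapped group -/
def toSwap : D.Grp →* D.swap.Grp :=
  PresentedGroup.toGroup (f := fun x => PresentedGroup.of (Sum.swap x)) (by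
    rintro _ ⟨s, rfl⟩
    have h : (PresentedGroup.mk (Set.range D.swap.word)) (D.swap.word s) = 1 :=
      PresentedGroup.mk_eq_one_iff.mpr (Subgroup.subset_normalClosure ⟨s, rfl⟩)
    have h2 : FreeGroup.lift (fun x : H ⊕ V => (PresentedGroup.of (Sum.swap x) : D.swap.Grp))
        (D.word s) = ((PresentedGroup.mk (Set.range D.swap.word)) (D.swap.word s))⁻¹ := by
      have e1 : D.word s = FreeGroup.of (Sum.inl (D.h s)) * FreeGroup.of (Sum.inr (D.v s)) *
        (FreeGroup.of (Sum.inl (D.h' s)))⁻¹ * (FreeGroup.of (Sum.inr (D.v' s)))⁻¹ := rfl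
      have e2 : D.swap.word s = FreeGroup.of (Sum.inl (D.v' s)) *
        FreeGroup.of (Sum.inr (D.h' s)) * (FreeGroup.of (Sum.inl (D.v s)))⁻¹ *
        (FreeGroup.of (Sum.inr (D.h s)))⁻¹ := rfl
      rw [e1, e2]
      simp only [map_mul, map_inv, FreeGroup.lift_apply_of, Sum.swap_inl, Sum.swap_inr,
        PresentedGroup.of]
      group
    rw [h2, h, inv_one])

/-- from the swapped group to the group -/
def ofSwap : D.swap.Grp →* D.Grp :=
  PresentedGroup.toGroup (f := fun x => PresentedGroup.of (Sum.swap x)) (by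
    rintro _ ⟨s, rfl⟩
    have h : (PresentedGroup.mk (Set.range D.word)) (D.word s) = 1 :=
      PresentedGroup.mk_eq_one_iff.mpr (Subgroup.subset_normalClosure ⟨s, rfl⟩)
    have h2 : FreeGroup.lift (fun x : V ⊕ H => (PresentedGroup.of (Sum.swap x) : D.Grp))
        (D.swap.word s) = ((PresentedGroup.mk (Set.range D.word)) (D.word s))⁻¹ := by
      have e1 : D.word s = FreeGroup.of (Sum.inl (D.h s)) * FreeGroup.of (Sum.inr (D.v s)) *
        (FreeGroup.of (Sum.inl (D.h' s)))⁻¹ * (FreeGroup.of (Sum.inr (D.v' s)))⁻¹ := rfl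
      have e2 : D.swap.word s = FreeGroup.of (Sum.inl (D.v' s)) *
        FreeGroup.of (Sum.inr (D.h' s)) * (FreeGroup.of (Sum.inl (D.v s)))⁻¹ *
        (FreeGroup.of (Sum.inr (D.h s)))⁻¹ := rfl
      rw [e1, e2]
      simp only [map_mul, map_inv, FreeGroup.lift_apply_of, Sum.swap_inl, Sum.swap_inr,
        PresentedGroup.of]
      group
    rw [h2, h, inv_one])

@[simp] theorem toSwap_of (x : H ⊕ V) :
    toSwap D (PresentedGroup.of x) = PresentedGroup.of (Sum.swap x) :=
  PresentedGroup.toGroup.of _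

@[simp] theorem ofSwap_of (x : V ⊕ H) :
    ofSwap D (PresentedGroup.of x) = PresentedGroup.of (Sum.swap x) :=
  PresentedGroup.toGroup.of _

theorem ofSwap_toSwap (g : D.Grp) : ofSwap D (toSwap D g) = g := by
  have h : (ofSwap D).comp (toSwap D) = MonoidHom.id _ := by
    apply PresentedGroup.ext
    intro x
    simp
  exact DFunLike.congr_fun h g

theorem toSwap_ofSwap (g : D.swap.Grp) : toSwap D (ofSwap D g) = g := by
  have h : (toSwap D).comp (ofSwap D) = MonoidHom.id _ := by
    apply PresentedGroup.ext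
    intro x
    simp
  exact DFunLike.congr_fun h g

theorem mem_FH_iff (x : D.Grp) : x ∈ D.FH ↔
    ∃ w, FreeGroup.lift (fun a : H => (PresentedGroup.of (Sum.inl a) : D.Grp)) w = x := by
  rw [VHData.FH, ← FreeGroup.range_lift_eq_closure]
  rfl

theorem mem_FV_iff (x : D.Grp) : x ∈ D.FV ↔
    ∃ w, FreeGroup.lift (fun a : V => (PresentedGroup.of (Sum.inr a) : D.Grp)) w = x := by
  rw [VHData.FV, ← FreeGroup.range_lift_eq_closure]
  rfl

theorem toSwap_lift_inl (w : FreeGroup H) :
    toSwap D (FreeGroup.lift (fun a : H => (PresentedGroup.of (Sum.inl a) : D.Grp)) w) =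
    FreeGroup.lift (fun a : H => (PresentedGroup.of (Sum.inr a) : D.swap.Grp)) w := by
  have h : (toSwap D).comp
      (FreeGroup.lift (fun a : H => (PresentedGroup.of (Sum.inl a) : D.Grp))) =
      FreeGroup.lift (fun a : H => (PresentedGroup.of (Sum.inr a) : D.swap.Grp)) := by
    ext a
    simp
  exact DFunLike.congr_fun h w

theorem toSwap_lift_inr (w : FreeGroup V) :
    toSwap D (FreeGroup.lift (fun a : V => (PresentedGroup.of (Sum.inr a) : D.Grp)) w) =
    FreeGroup.lift (fun a : V => (PresentedGroup.of (Sum.inl a) : D.swap.Grp)) w := by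
  have h : (toSwap D).comp
      (FreeGroup.lift (fun a : V => (PresentedGroup.of (Sum.inr a) : D.Grp))) =
      FreeGroup.lift (fun a : V => (PresentedGroup.of (Sum.inl a) : D.swap.Grp)) := by
    ext a
    simp
  exact DFunLike.congr_fun h w

theorem mem_FV_swap (x : D.Grp) : toSwap D x ∈ D.swap.FH ↔ x ∈ D.FV := by
  rw [mem_FH_iff, mem_FV_iff]
  constructor
  · rintro ⟨w, hw⟩
    refine ⟨w, ?_⟩
    rw [← ofSwap_toSwap D x, ← hw, ← toSwap_lift_inr, ofSwap_toSwap]
  · rintro ⟨w, rfl⟩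
    exact ⟨w, (toSwap_lift_inr D w).symm⟩

/-- exchange the kinds of letters -/
def sw (c : (V ⊕ H) × Bool) : (H ⊕ V) × Bool := (Sum.swap c.1, c.2)

theorem ofSwap_gen (c : (V ⊕ H) × Bool) : ofSwap D (D.swap.gen c) = D.gen (sw c) := by
  rcases c with ⟨x, _ | _⟩ <;> simp [VHData.gen, sw]

theorem isV_sw (c : (V ⊕ H) × Bool) : (!isV (sw c)) = isV c := by
  rcases c with ⟨x | x, b⟩ <;> rfl

end swap

theorem lenOn {H V S : Type} {D : VHData H V S} {LV : D.Grp → ℕ} (h : IsLV D LV) :
    LenOn D.FH LV where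
  zero := h.zero
  inv := h.inv
  left := h.left
  four := h.four
  step g hg := by
    obtain ⟨f, hf, b, ε, h1⟩ := h.step g hg
    refine ⟨f * D.gen (Sum.inr b, ε), ?_, h1⟩
    rw [h.left f hf]
    have h0 : LV 1 = 0 := (h.zero 1).mpr D.FH.one_mem
    have h2 := h.gen b ε 1
    rw [mul_one, h0] at h2
    omega
  par s g hs := by
    obtain ⟨f, hf, b, ε, h1⟩ := h.step s (by omega)
    have h2 : (f * D.gen (Sum.inr b, ε))⁻¹ * s ∈ D.FH := by
      rw [← h.zero]
      omega
    have h3 : s * g = f * (D.gen (Sum.inr b, ε) * (((f * D.gen (Sum.inr b, ε))⁻¹ * s) * g)) := by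
      group
    have h4 := h.gen b ε (((f * D.gen (Sum.inr b, ε))⁻¹ * s) * g)
    rw [h3, h.left f hf]
    rw [h.left _ h2] at h4
    omega

theorem lenOn_swap {H V S : Type} {D : VHData H V S} {LH : D.swap.Grp → ℕ}
    (h : LenOn D.swap.FH LH) : LenOn D.FV (fun g => LH (toSwap D g)) where
  zero g := by rw [h.zero, mem_FV_swap]
  inv g := by rw [map_inv, h.inv]
  left f hf g := by rw [map_mul, h.left _ ((mem_FV_swap D f).mpr hf)]
  four a b c d := by
    simp only [map_mul, map_inv]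
    exact h.four _ _ _ _
  step g hg := by
    obtain ⟨s, hs1, hs2⟩ := h.step _ hg
    refine ⟨ofSwap D s, ?_, ?_⟩
    · rw [toSwap_ofSwap, hs1]
    · rw [map_mul, map_inv, toSwap_ofSwap, hs2]
  par s g hs := by
    rw [map_mul]
    exact h.par _ _ hs

theorem gen_mem_FV {H V S : Type} (D : VHData H V S) (b : V) (ε : Bool) :
    D.gen (Sum.inr b, ε) ∈ D.FV := by
  have h : (PresentedGroup.of (Sum.inr b) : D.Grp) ∈ D.FV := Subgroup.subset_closure ⟨b, rfl⟩
  unfold VHData.gen
  split
  · exact h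
  · exact D.FV.inv_mem h

end VHST

open VHST

theorem vhst_proof (hL : Stmt_LVN) : Stmt_VHST := by
  intro H V S _ _ D
  obtain ⟨LV, hLV, hLV2⟩ := hL H V S D
  obtain ⟨LH, hLH, hLH2⟩ := hL V H S D.swap
  refine build (lenOn hLV) (lenOn_swap (lenOn hLH))
    (FreeGroup.lift (fun a : H => (PresentedGroup.of (Sum.inl a) : D.Grp)))
    (FreeGroup.lift (fun a : V => (PresentedGroup.of (Sum.inr a) : D.Grp)))
    (mem_FH_iff D) (mem_FV_iff D) ?_ ?_ ?_ ?_
  · intro w
    rw [toSwap_lift_inl, hLH.word]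
  · intro w
    rw [hLV.word]
  · intro g hg
    obtain ⟨f, hf, b, ε, h1⟩ := hLV.step g (by omega)
    refine ⟨f, hf, D.gen (Sum.inr b, ε), gen_mem_FV D b ε, ?_⟩
    rw [← hLV.zero]
    omega
  · intro R
    have hfin := List.finite_length_le ((H ⊕ V) × Bool) (R + R)
    refine (hfin.image (fun l => (l.map D.gen).prod)).subset ?_
    rintro g ⟨hg1, hg2⟩
    obtain ⟨l, hl1, hl2, hl3⟩ := hLV2 g
    obtain ⟨l', hl1', hl2', -⟩ := hLH2 (toSwap D g)
    refine ⟨l, ?_, hl1⟩
    have h1 := hl3 (l'.map sw) (by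
      rw [List.map_map, ← ofSwap_toSwap D g, ← hl1', map_list_prod, List.map_map]
      congr 1
      apply List.map_congr_left
      intro c _
      exact (ofSwap_gen D c).symm)
    rw [List.filter_map, List.length_map] at h1
    have h2 : (l'.filter ((fun c => !isV c) ∘ sw)) = l'.filter isV := by
      congr 1
      funext c
      exact isV_sw c
    rw [h2, hl2'] at h1
    have h3 : l.length = (l.filter isV).length + (l.filter fun c => !isV c).length := by
      rw [List.length_eq_length_filter_add (l := l) isV]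
    change l.length ≤ R + R
    omega

end Pool.Agent.SD
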