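import Mathlib
import Pool.Agent.SD.Gd
import Pool.Agent.SD.VHST

/-!
# VHFREE: `STData` of a VH group with free action on cells
-/

set_option autoImplicit false

namespace Pool.Agent.SD

open scoped Classical

namespace VHST

section general

/-- the general construction of `STData` with free action on cells -/
theorem buildF {G : Type} [Group G] {K₁ K₂ : Subgroup G} {L₁ L₂ : G → ℕ} (h₁ : LenOn K₁ L₁)
    (h₂ : LenOn K₂ L₂) {A B : Type} [Finite A] [Finite B]
    (fA : FreeGroup A →* G) (fB : FreeGroup B →* G)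
    (hA : ∀ x, x ∈ K₁ ↔ ∃ w, fA w = x) (hB : ∀ x, x ∈ K₂ ↔ ∃ w, fB w = x)
    (nA : ∀ w, L₂ (fA w) = FreeGroup.norm w) (nB : ∀ w, L₁ (fB w) = FreeGroup.norm w)
    (hadj : ∀ g, L₁ g = 1 → ∃ f ∈ K₁, ∃ k ∈ K₂, (f * k)⁻¹ * g ∈ K₁)
    (hfin : ∀ R : ℕ, {g : G | L₁ g ≤ R ∧ L₂ g ≤ R}.Finite)
    (htf : ∀ g : G, L₁ g = 1 → g * g ≠ 1) :
    ∃ σ : STData G, σ.CellFree ∧ ((∀ g, g ∈ K₁) → Subsingleton σ.U₁) := by
  have fin_norm : ∀ (X : Type) [Finite X] (R : ℕ), {w : FreeGroup X | FreeGroup.norm w ≤ R}.Finite := by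
    intro X _ R
    have h := List.finite_length_le (X × Bool) R
    exact Set.Finite.preimage (f := FreeGroup.toWord) (FreeGroup.toWord_injective.injOn) h
  refine ⟨{
    U₁ := G ⧸ K₁
    U₂ := G ⧸ K₂
    o₁ := ((1 : G) : G ⧸ K₁)
    n₁ := nQ K₁ L₁
    n₂ := nQ K₂ L₂
    tree₁ := h₁.isTreeM
    tree₂ := h₂.isTreeM
    inv₁ := h₁.nQ_smul
    inv₂ := h₂.nQ_smul
    F := fun u => {q | ∃ a : G, (a : G ⧸ K₁) = u ∧ (a : G ⧸ K₂) = q}
    F_smul := ?_
    F_ne := ?_
    F_conv := ?_
    F_adj := ?_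
    F_fin := ?_
    U_fin := ?_
    coc := ?_
    prop := ?_ }, ?_, ?_⟩
  · rintro g u q ⟨a, rfl, rfl⟩
    exact ⟨g * a, rfl, rfl⟩
  · intro u
    induction u using QuotientGroup.induction_on with
    | H a => exact ⟨_, a, rfl, rfl⟩
  · rintro u x ⟨a, rfl, rfl⟩ y ⟨b, hb, rfl⟩ z hz
    obtain ⟨w, hw⟩ := (hA (a⁻¹ * b)).mp (QuotientGroup.eq.mp hb.symm)
    have hk : nQ K₂ L₂ (a : G ⧸ K₂) (b : G ⧸ K₂) = FreeGroup.norm w := by
      rw [h₂.nQ_mk, ← hw, nA]
    set i := nQ K₂ L₂ (a : G ⧸ K₂) z with hi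
    set w1 : FreeGroup A := FreeGroup.mk (w.toWord.take i) with hw1
    set w2 : FreeGroup A := FreeGroup.mk (w.toWord.drop i) with hw2
    have hw12 : w1 * w2 = w := by
      rw [hw1, hw2, FreeGroup.mul_mk, List.take_append_drop, FreeGroup.mk_toWord]
    have hn : FreeGroup.norm w = w.toWord.length := rfl
    have hlen : i ≤ w.toWord.length := by omega
    have e1 : FreeGroup.norm w1 ≤ i := by
      refine FreeGroup.norm_mk_le.trans ?_
      rw [List.length_take]
      exact min_le_left _ _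
    have e2 : FreeGroup.norm w2 ≤ w.toWord.length - i := by
      refine FreeGroup.norm_mk_le.trans ?_
      rw [List.length_drop]
    have hz1 : nQ K₂ L₂ (a : G ⧸ K₂) ((a * fA w1 : G) : G ⧸ K₂) = FreeGroup.norm w1 := by
      rw [h₂.nQ_mk, ← mul_assoc, inv_mul_cancel, one_mul, nA]
    have hz2 : nQ K₂ L₂ ((a * fA w1 : G) : G ⧸ K₂) (b : G ⧸ K₂) = FreeGroup.norm w2 := by
      rw [h₂.nQ_mk, mul_inv_rev, mul_assoc, ← hw, ← hw12, map_mul, ← mul_assoc, inv_mul_cancel,
        one_mul, nA]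
    have hf := h₂.isTreeM.four z ((a * fA w1 : G) : G ⧸ K₂) (a : G ⧸ K₂) (b : G ⧸ K₂)
    rw [h₂.isTreeM.symm z (a : G ⧸ K₂), hk,
      h₂.isTreeM.symm ((a * fA w1 : G) : G ⧸ K₂) (a : G ⧸ K₂), hz1, hz2] at hf
    have h0 : nQ K₂ L₂ z ((a * fA w1 : G) : G ⧸ K₂) = 0 := by
      rcases le_max_iff.mp hf with h | h <;> omega
    have hzz := h₂.isTreeM.eq_of _ _ h0
    refine ⟨a * fA w1, ?_, hzz.symm⟩
    apply QuotientGroup.eq.mpr
    rw [mul_inv_rev, mul_assoc, inv_mul_cancel, mul_one]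
    exact K₁.inv_mem ((hA _).mpr ⟨w1, rfl⟩)
  · intro u w huw
    induction u using QuotientGroup.induction_on with
    | H a =>
      induction w using QuotientGroup.induction_on with
      | H b =>
        rw [h₁.nQ_mk] at huw
        obtain ⟨f, hf, k, hk, hm⟩ := hadj _ huw
        refine ⟨((a * f : G) : G ⧸ K₂), ⟨a * f, ?_, rfl⟩, ⟨a * f * k, ?_, ?_⟩⟩
        · apply QuotientGroup.eq.mpr
          rw [mul_inv_rev, mul_assoc, inv_mul_cancel, mul_one]
          exact K₁.inv_mem hf
        · apply QuotientGroup.eq.mpr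
          have : (a * f * k)⁻¹ * b = (f * k)⁻¹ * (a⁻¹ * b) := by group
          rw [this]
          exact hm
        · apply QuotientGroup.eq.mpr
          have : (a * f * k)⁻¹ * (a * f) = k⁻¹ := by group
          rw [this]
          exact K₂.inv_mem hk
  · rintro u q ⟨a, rfl, rfl⟩ R
    refine ((fin_norm A R).image (fun w => ((a * fA w : G) : G ⧸ K₂))).subset ?_
    rintro q' ⟨⟨b, hb, rfl⟩, hR⟩
    obtain ⟨w, hw⟩ := (hA (a⁻¹ * b)).mp (QuotientGroup.eq.mp hb.symm)
    refine ⟨w, ?_, ?_⟩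
    · rw [h₂.nQ_mk, ← hw, nA] at hR
      exact hR
    · change ((a * fA w : G) : G ⧸ K₂) = _
      rw [hw, mul_inv_cancel_left]
  · rintro u q ⟨a, rfl, rfl⟩
    refine ((fin_norm B 1).image (fun w => ((a * fB w : G) : G ⧸ K₁))).subset ?_
    rintro w ⟨hR, ⟨b, rfl, hb⟩⟩
    obtain ⟨v, hv⟩ := (hB (a⁻¹ * b)).mp (QuotientGroup.eq.mp hb.symm)
    refine ⟨v, ?_, ?_⟩
    · rw [h₁.nQ_mk, ← hv, nB] at hR
      exact hR
    · change ((a * fB v : G) : G ⧸ K₁) = _
      rw [hv, mul_inv_cancel_left]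
  · refine ⟨{(((1 : G) : G ⧸ K₁), ((1 : G) : G ⧸ K₂))}, ?_, ?_⟩
    · intro e he
      rw [Finset.mem_singleton] at he
      subst he
      exact ⟨1, rfl, rfl⟩
    · rintro u q ⟨a, rfl, rfl⟩
      refine ⟨a⁻¹, ?_⟩
      rw [Finset.mem_singleton]
      refine Prod.ext ?_ ?_
      · change ((a⁻¹ * a : G) : G ⧸ K₁) = _
        rw [inv_mul_cancel]
      · change ((a⁻¹ * a : G) : G ⧸ K₂) = _
        rw [inv_mul_cancel]
  · rintro u q ⟨a, rfl, rfl⟩ R
    refine ((hfin R).image (fun g => a * g * a⁻¹)).subset ?_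
    rintro g ⟨hg1, hg2⟩
    rw [MulAction.Quotient.smul_coe, h₁.nQ_mk] at hg1
    rw [MulAction.Quotient.smul_coe, h₂.nQ_mk] at hg2
    refine ⟨a⁻¹ * (g * a), ⟨hg1, hg2⟩, ?_⟩
    group
  · rintro g u w q r huw - ⟨a, rfl, rfl⟩ - - - hu hq
    have key : ∀ x : G, x ∈ K₁ → x ∈ K₂ → x = 1 := by
      intro x h1 h2
      obtain ⟨v, hv⟩ := (hB x).mp h2
      have h3 := (h₁.zero x).mpr h1
      rw [← hv, nB] at h3
      rw [← hv, FreeGroup.norm_eq_zero.mp h3, map_one]
    set x := a⁻¹ * (g * a) with hx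
    have hsq : x * x = a⁻¹ * (g * g * a) := by rw [hx]; group
    have hg2 : x * x = 1 := by
      refine key _ ?_ ?_
      · rw [hsq]
        apply QuotientGroup.eq.mp
        rcases hu with ⟨h, -⟩ | ⟨h, h'⟩
        · change ((a : G) : G ⧸ K₁) = (g * g) • ((a : G) : G ⧸ K₁)
          rw [mul_smul, h, h]
        · change ((a : G) : G ⧸ K₁) = (g * g) • ((a : G) : G ⧸ K₁)
          rw [mul_smul, h, h']
      · rw [hsq]
        apply QuotientGroup.eq.mp
        rcases hq with ⟨h, -⟩ | ⟨h, h'⟩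
        · change ((a : G) : G ⧸ K₂) = (g * g) • ((a : G) : G ⧸ K₂)
          rw [mul_smul, h, h]
        · change ((a : G) : G ⧸ K₂) = (g * g) • ((a : G) : G ⧸ K₂)
          rw [mul_smul, h, h']
    have hgx : x = 1 → g = 1 := by
      intro h
      have : g = a * x * a⁻¹ := by rw [hx]; group
      rw [this, h]
      group
    have hin : g • ((a : G) : G ⧸ K₁) = ((a : G) : G ⧸ K₁) → g = 1 := by
      intro h
      have h1 : x ∈ K₁ := QuotientGroup.eq.mp h.symm
      obtain ⟨v, hv⟩ := (hA x).mp h1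
      apply hgx
      have h2 : FreeGroup.norm (v * v) = 0 := by
        have h3 := nA (v * v)
        rw [map_mul, hv, hg2] at h3
        rw [← h3, h₂.zero]
        exact K₂.one_mem
      have h3 : v * v = 1 := FreeGroup.norm_eq_zero.mp h2
      have h4 : v = 1 := by
        by_contra hne
        have h5 := IsMulTorsionFree.pow_left_injective (M := FreeGroup A) (n := 2) two_ne_zero
        apply hne
        apply h5
        change v ^ 2 = 1 ^ 2
        rw [pow_two, h3, one_pow]
      rw [← hv, h4, map_one]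
    rcases hu with ⟨h, -⟩ | ⟨h, h'⟩
    · exact hin h
    · by_cases hne : nQ K₁ L₁ ((a : G) : G ⧸ K₁) w = 0
      · have h0 := h₁.isTreeM.eq_of _ _ hne
        rw [← h0] at h
        exact hin h
      · exfalso
        have h1 : nQ K₁ L₁ ((a : G) : G ⧸ K₁) w = 1 := by
          change nQ K₁ L₁ ((a : G) : G ⧸ K₁) w ≤ 1 at huw
          omega
        rw [← h, MulAction.Quotient.smul_coe, h₁.nQ_mk] at h1
        exact htf _ h1 hg2
  · intro h
    refine ⟨fun x y => ?_⟩
    change G ⧸ K₁ at x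
    change G ⧸ K₁ at y
    induction x using QuotientGroup.induction_on with
    | H a =>
      induction y using QuotientGroup.induction_on with
      | H b => exact QuotientGroup.eq.mpr (h _)

end general

/-- exponent sum of the vertical letters -/
def chiV {H V S : Type} (D : VHData H V S) : D.Grp →* Multiplicative ℤ :=
  PresentedGroup.toGroup (f := fun x => Sum.elim (fun _ => 1) (fun _ => Multiplicative.ofAdd 1) x)
    (by
      rintro _ ⟨s, rfl⟩
      simp [VHData.word, gH, gV])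

theorem chiV_gen {H V S : Type} (D : VHData H V S) (c : (H ⊕ V) × Bool) :
    ((Multiplicative.toAdd (chiV D (D.gen c)) : ℤ) : ZMod 2) = if isV c then 1 else 0 := by
  rcases c with ⟨x | x, _ | _⟩ <;> simp [VHData.gen, chiV, isV]

theorem chiV_prod {H V S : Type} (D : VHData H V S) (l : List ((H ⊕ V) × Bool)) :
    ((Multiplicative.toAdd (chiV D (l.map D.gen).prod) : ℤ) : ZMod 2) =
      ((l.filter isV).length : ZMod 2) := by
  induction l with
  | nil => simp
  | cons c l ih =>
    rw [List.map_cons, List.prod_cons, map_mul, toAdd_mul, Int.cast_add, ih, chiV_gen,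
      List.filter_cons]
    split
    · rw [List.length_cons]
      push_cast
      ring
    · rw [zero_add]

end VHST

open VHST

theorem vhfree_proof (hL : Stmt_LVN) : Stmt_VHFree := by
  intro H V S _ _ D
  obtain ⟨LV, hLV, hLV2⟩ := hL H V S D
  obtain ⟨LH, hLH, hLH2⟩ := hL V H S D.swap
  have hb : ∃ σ : STData D.Grp, σ.CellFree ∧ ((∀ g, g ∈ D.FH) → Subsingleton σ.U₁) := by
    refine buildF (lenOn hLV) (lenOn_swap (lenOn hLH))
      (FreeGroup.lift (fun a : H => (PresentedGroup.of (Sum.inl a) : D.Grp)))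
      (FreeGroup.lift (fun a : V => (PresentedGroup.of (Sum.inr a) : D.Grp)))
      (mem_FH_iff D) (mem_FV_iff D) ?_ ?_ ?_ ?_ ?_
    · intro w
      rw [toSwap_lift_inl, hLH.word]
    · intro w
      rw [hLV.word]
    · intro g hg
      obtain ⟨f, hf, b, ε, h1⟩ := hLV.step g (by omega)
      refine ⟨f, hf, D.gen (Sum.inr b, ε), gen_mem_FV D b ε, ?_⟩
      rw [← hLV.zero]
      omega
    · intro R
      have hfin := List.finite_length_le ((H ⊕ V) × Bool) (R + R)
      refine (hfin.image (fun l => (l.map D.gen).prod)).subset ?_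
      rintro g ⟨hg1, hg2⟩
      obtain ⟨l, hl1, hl2, hl3⟩ := hLV2 g
      obtain ⟨l', hl1', hl2', -⟩ := hLH2 (toSwap D g)
      refine ⟨l, ?_, hl1⟩
      have h1 := hl3 (l'.map sw) (by
        rw [List.map_map, ← ofSwap_toSwap D g, ← hl1', map_list_prod, List.map_map]
        congr 1
        apply List.map_congr_left
        intro c _
        exact (ofSwap_gen D c).symm)
      rw [List.filter_map, List.length_map] at h1
      have h2 : (l'.filter ((fun c => !isV c) ∘ sw)) = l'.filter isV := by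
        congr 1
        funext c
        exact isV_sw c
      rw [h2, hl2'] at h1
      have h3 : l.length = (l.filter isV).length + (l.filter fun c => !isV c).length := by
        rw [List.length_eq_length_filter_add (l := l) isV]
      change l.length ≤ R + R
      omega
    · intro g hg hgg
      obtain ⟨l, hl1, hl2, -⟩ := hLV2 g
      have h3 := chiV_prod D l
      rw [hl1, hl2, hg] at h3
      have h4 : Multiplicative.toAdd (chiV D g) + Multiplicative.toAdd (chiV D g) = 0 := by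
        rw [← toAdd_mul, ← map_mul, hgg, map_one, toAdd_one]
      have h5 : Multiplicative.toAdd (chiV D g) = 0 := by omega
      rw [h5] at h3
      revert h3
      decide
  obtain ⟨σ, h1, h2⟩ := hb
  refine ⟨σ, h1, fun hV => h2 fun g => ?_⟩
  rw [mem_FH_iff]
  induction g using PresentedGroup.induction_on with
  | _ w =>
    refine ⟨FreeGroup.lift (fun x : H ⊕ V => Sum.elim FreeGroup.of (fun b => hV.elim b) x) w, ?_⟩
    have h : (FreeGroup.lift (fun a : H => (PresentedGroup.of (Sum.inl a) : D.Grp))).comp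
        (FreeGroup.lift (fun x : H ⊕ V => Sum.elim FreeGroup.of (fun b => hV.elim b) x)) =
        PresentedGroup.mk (Set.range D.word) := by
      ext x
      rcases x with x | x
      · simp [PresentedGroup.of]
      · exact hV.elim x
    exact DFunLike.congr_fun h w

end Pool.Agent.SD
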