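import Mathlib
import Pool.Agent.SD.Gd

/-!
# Squad SD: `ℤ³` in the group
-/

set_option autoImplicit false

namespace Pool.Agent.SD

open Multiplicative

namespace Z3X

/-- The homomorphism counting horizontal and vertical letters. -/
def chi0 : FreeGroup (HL Lab (Fin 6) ⊕ VL Lab (Fin 6)) →* Multiplicative ℤ × Multiplicative ℤ :=
  FreeGroup.lift (Sum.elim (fun _ => (ofAdd 1, 1)) (fun _ => (1, ofAdd 1)))

theorem chi0_word : ∀ r ∈ Set.range P0.gad.word, chi0 r = 1 := by
  rintro _ ⟨s, rfl⟩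
  simp [VHData.word, chi0, gH, gV]

/-- The homomorphism counting horizontal and vertical letters, on the group. -/
def chi : P0.gad.Grp →* Multiplicative ℤ × Multiplicative ℤ :=
  PresentedGroup.toGroup (f := Sum.elim (fun _ => (ofAdd 1, 1)) (fun _ => (1, ofAdd 1))) chi0_word

/-- horizontal element -/
def eA : P0.gad.Grp := PresentedGroup.of (Sum.inl (HL.h Lab.a))
/-- vertical element -/
def eB : P0.gad.Grp := PresentedGroup.of (Sum.inr VL.v0)

theorem comm : Commute eA eB := by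
  have h : (PresentedGroup.mk (Set.range P0.gad.word)) (P0.gad.word (SL.c1 Lab.a)) = 1 :=
    PresentedGroup.one_of_mem ⟨_, rfl⟩
  have h2 : P0.gad.word (SL.c1 Lab.a) =
      FreeGroup.of (Sum.inl (HL.h Lab.a)) * FreeGroup.of (Sum.inr VL.v0) *
        (FreeGroup.of (Sum.inl (HL.h Lab.a)))⁻¹ * (FreeGroup.of (Sum.inr VL.v0))⁻¹ := rfl
  rw [h2, map_mul, map_mul, map_mul, map_inv, map_inv] at h
  change eA * eB * eA⁻¹ * eB⁻¹ = 1 at h
  change eA * eB = eB * eA
  have h3 := eq_of_mul_inv_eq_one h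
  exact mul_inv_eq_iff_eq_mul.1 h3

theorem chi_A : chi eA = (ofAdd 1, 1) := by
  simp [chi, eA]

theorem chi_B : chi eB = (1, ofAdd 1) := by
  simp [chi, eB]

/-- The embedding. -/
def emb3 : Multiplicative (Fin 3 → ℤ) →* P0.gad.Grp × FreeGroup Lab where
  toFun n := (eA ^ (toAdd n 0) * eB ^ (toAdd n 1), FreeGroup.of Lab.a ^ (toAdd n 2))
  map_one' := by simp
  map_mul' m n := by
    ext
    · simp only [toAdd_mul, Pi.add_apply, Prod.mk_mul_mk, zpow_add]
      have h : Commute (eA ^ (toAdd n 0)) (eB ^ (toAdd m 1)) := comm.zpow_zpow _ _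
      rw [mul_assoc, mul_assoc, ← mul_assoc (eA ^ (toAdd n 0)), h.eq, mul_assoc]
    · simp only [toAdd_mul, Pi.add_apply, Prod.mk_mul_mk, zpow_add]

end Z3X

open Z3X in
theorem z3_proof : Stmt_Z3 := by
  refine ⟨emb3, ?_⟩
  rw [injective_iff_map_eq_one]
  intro n hn
  have h1 : eA ^ (toAdd n 0) * eB ^ (toAdd n 1) = 1 := congrArg Prod.fst hn
  have h2 : FreeGroup.of Lab.a ^ (toAdd n 2) = 1 := congrArg Prod.snd hn
  have h3 := congrArg chi h1
  rw [map_mul, map_zpow, map_zpow, chi_A, chi_B, MonoidHom.map_one] at h3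
  have h4 := congrArg Prod.fst h3
  have h5 := congrArg Prod.snd h3
  simp only [Prod.pow_fst, Prod.pow_snd, Prod.fst_mul, Prod.snd_mul, one_zpow, mul_one, one_mul,
    Prod.fst_one, Prod.snd_one, ← ofAdd_zsmul, smul_eq_mul] at h4 h5
  have h6 := congrArg (FreeGroup.lift (fun _ : Lab => (ofAdd (1 : ℤ)))) h2
  rw [map_zpow, FreeGroup.lift_apply_of, MonoidHom.map_one, ← ofAdd_zsmul, smul_eq_mul,
    mul_one] at h6
  apply toAdd.injective
  funext i
  fin_cases i
  · exact ofAdd.injective (by simpa using h4)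
  · exact ofAdd.injective (by simpa using h5)
  · exact ofAdd.injective h6

end Pool.Agent.SD
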