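import Pool.Agent.SD.GeoAll
import Pool.Agent.SD.GdMain
import Pool.Agent.SD.VHFree
import Pool.Agent.SD.STCW
import Pool.Agent.SD.Cwp
import Pool.Agent.SD.CWISO
import Pool.Agent.SD.CONTR
import Pool.Agent.SD.LBA
import Pool.Agent.SD.LBB
import Pool.Agent.SD.LBC
import Pool.Agent.SD.Z3

/-!
# Squad SD: the geometric dimension of `P0.gad.Grp × FreeGroup Lab` is 3 (without hypotheses)
-/

set_option autoImplicit false

namespace Pool.Agent.SD

theorem gd_all : Stmt_GD :=
  gd_proof (stcw_proof st1_all rt_proof hull_proof contr) (vhfree_proof lvn_proof)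
    cwp_proof cwIso lba_proof lbb_proof lbc_proof z3_proof

end Pool.Agent.SD
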