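import Mathlib
import Pool.Agent.SD.Cat

/-!
# CATEQ: the Stewart form of CAT(0) implies the textbook definition
-/

set_option autoImplicit false

namespace Pool.Agent.SD.CATEQ

open scoped RealInnerProductSpace

/-- the inequality at all test points -/
def Frac {Z : Type} [MetricSpace Z] (t : ℝ) (x y m : Z) : Prop :=
  ∀ z, dist z m ^ 2 ≤ (1 - t) * dist z x ^ 2 + t * dist z y ^ 2 - t * (1 - t) * dist x y ^ 2

theorem frac_le {Z : Type} [MetricSpace Z] {t : ℝ} {x y m : Z} (h0 : 0 ≤ t) (h1 : t ≤ 1)
    (h : Frac t x y m) : dist x m = t * dist x y ∧ dist m y = (1 - t) * dist x y := by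
  have a := h x
  have b := h y
  rw [dist_self] at a b
  rw [dist_comm y x] at b
  have c1 : dist x m ≤ t * dist x y := by
    apply le_of_sq_le_sq _ (by positivity)
    nlinarith
  have c2 : dist y m ≤ (1 - t) * dist x y := by
    apply le_of_sq_le_sq _ (mul_nonneg (by linarith) dist_nonneg)
    nlinarith
  have c3 := dist_triangle x m y
  rw [dist_comm y m] at c2
  constructor <;> linarith

theorem frac_uniq {Z : Type} [MetricSpace Z] {t : ℝ} {x y m a : Z} (h : Frac t x y m)
    (ha : dist x a = t * dist x y) (ha' : dist a y = (1 - t) * dist x y) : a = m := by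
  have h1 := h a
  rw [dist_comm a x, ha, ha'] at h1
  have h2 : dist a m ^ 2 ≤ 0 := by nlinarith
  have h3 : dist a m = 0 := by nlinarith [sq_nonneg (dist a m)]
  exact dist_eq_zero.mp h3

/-- a point between `x` and `y` has a fraction -/
theorem exists_frac {Z : Type} [MetricSpace Z] {x y a : Z} (h : dist x a + dist a y = dist x y) :
    ∃ t : ℝ, 0 ≤ t ∧ t ≤ 1 ∧ dist x a = t * dist x y ∧ dist a y = (1 - t) * dist x y := by
  rcases eq_or_ne (dist x y) 0 with h0 | h0
  · rw [h0] at h
    have h1 : 0 ≤ dist x a := dist_nonneg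
    have h2 : 0 ≤ dist a y := dist_nonneg
    refine ⟨0, le_rfl, by norm_num, ?_, ?_⟩
    · rw [zero_mul]; linarith
    · rw [h0, mul_zero]; linarith
  · have hpos : 0 < dist x y := lt_of_le_of_ne dist_nonneg h0.symm
    refine ⟨dist x a / dist x y, by positivity, ?_, ?_, ?_⟩
    · rw [div_le_one hpos]; linarith [dist_nonneg (x := a) (y := y)]
    · field_simp
    · field_simp; linarith

theorem stewart (p q z : EuclideanSpace ℝ (Fin 2)) (t : ℝ) :
    dist z (p + t • (q - p)) ^ 2 =
      (1 - t) * dist z p ^ 2 + t * dist z q ^ 2 - t * (1 - t) * dist p q ^ 2 := by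
  simp only [EuclideanSpace.dist_eq, Fin.sum_univ_two, PiLp.add_apply, PiLp.smul_apply,
    PiLp.sub_apply, smul_eq_mul, Real.dist_eq, sq_abs]
  rw [Real.sq_sqrt (by positivity), Real.sq_sqrt (by positivity), Real.sq_sqrt (by positivity),
    Real.sq_sqrt (by positivity)]
  ring

theorem stewart' {p q a : EuclideanSpace ℝ (Fin 2)} {t : ℝ} (ha : dist p a = t * dist p q)
    (ha' : dist a q = (1 - t) * dist p q) (z : EuclideanSpace ℝ (Fin 2)) :
    dist z a ^ 2 = (1 - t) * dist z p ^ 2 + t * dist z q ^ 2 - t * (1 - t) * dist p q ^ 2 := by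
  have h : Frac t p q (p + t • (q - p)) := fun z => (stewart p q z t).le
  rw [frac_uniq h ha ha']
  exact stewart p q z t

theorem cateq_proof : Stmt_CATeq := by
  intro Z _ hZ
  have hm : ∀ (x y : Z) (t : ℝ), ∃ m, 0 ≤ t → t ≤ 1 → Frac t x y m := by
    intro x y t
    by_cases h : 0 ≤ t ∧ t ≤ 1
    · obtain ⟨m, hm⟩ := hZ x y t h.1 h.2
      exact ⟨m, fun _ _ => hm⟩
    · exact ⟨x, fun h0 h1 => absurd ⟨h0, h1⟩ h⟩
  choose mp hmp using hm
  refine ⟨?_, ?_⟩
  · intro x y
    rcases eq_or_ne x y with hxy | hxy
    · subst hxy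
      refine ⟨fun _ => x, rfl, rfl, ?_⟩
      intro s hs t ht
      rw [dist_self] at hs ht
      have h1 : s = 0 := le_antisymm hs.2 hs.1
      have h2 : t = 0 := le_antisymm ht.2 ht.1
      rw [h1, h2]; simp
    · have hpos : 0 < dist x y := dist_pos.mpr hxy
      refine ⟨fun s => mp x y (s / dist x y), ?_, ?_, ?_⟩
      · have h1 := frac_le le_rfl zero_le_one (hmp x y 0 le_rfl zero_le_one)
        rw [zero_mul] at h1
        show mp x y (0 / dist x y) = x
        rw [zero_div]
        exact (dist_eq_zero.mp h1.1).symm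
      · have h1 := frac_le zero_le_one le_rfl (hmp x y 1 zero_le_one le_rfl)
        rw [sub_self, zero_mul] at h1
        show mp x y (dist x y / dist x y) = y
        rw [div_self hpos.ne']
        exact dist_eq_zero.mp h1.2
      · intro s hs t ht
        have hs0 : 0 ≤ s / dist x y := div_nonneg hs.1 hpos.le
        have hs1 : s / dist x y ≤ 1 := by rw [div_le_one hpos]; exact hs.2
        have ht0 : 0 ≤ t / dist x y := div_nonneg ht.1 hpos.le
        have ht1 : t / dist x y ≤ 1 := by rw [div_le_one hpos]; exact ht.2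
        have fs := hmp x y _ hs0 hs1
        have ft := hmp x y _ ht0 ht1
        obtain ⟨s1, s2⟩ := frac_le hs0 hs1 fs
        obtain ⟨t1, t2⟩ := frac_le ht0 ht1 ft
        rw [div_mul_cancel₀ _ hpos.ne'] at s1 t1
        have s2' : dist (mp x y (s / dist x y)) y = dist x y - s := by
          rw [s2]; field_simp
        have t2' : dist (mp x y (t / dist x y)) y = dist x y - t := by
          rw [t2]; field_simp
        have key := ft (mp x y (s / dist x y))
        rw [dist_comm _ x, s1, s2'] at key
        show dist (mp x y (s / dist x y)) (mp x y (t / dist x y)) = |s - t|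
        have e : (1 - t / dist x y) * s ^ 2 + t / dist x y * (dist x y - s) ^ 2 -
            t / dist x y * (1 - t / dist x y) * dist x y ^ 2 = (s - t) ^ 2 := by
          field_simp
          ring
        rw [e] at key
        apply le_antisymm
        · apply le_of_sq_le_sq _ (abs_nonneg _)
          rw [sq_abs]; exact key
        · rw [abs_le]
          have d1 := dist_triangle x (mp x y (s / dist x y)) (mp x y (t / dist x y))
          have d2 := dist_triangle x (mp x y (t / dist x y)) (mp x y (s / dist x y))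
          rw [dist_comm (mp x y (t / dist x y))] at d2
          constructor <;> linarith
  · intro p q r a b hpa hpb p' q' r' a' b' hpq hqr hpr hpa' haq' hpb' hbr'
    obtain ⟨t, t0, t1, ta, ta'⟩ := exists_frac hpa
    obtain ⟨u, u0, u1, ub, ub'⟩ := exists_frac hpb
    have fa : Frac t p q a := by
      have := frac_uniq (hmp p q t t0 t1) ta ta'
      rw [this]; exact hmp p q t t0 t1
    have fb : Frac u p r b := by
      have := frac_uniq (hmp p r u u0 u1) ub ub'
      rw [this]; exact hmp p r u u0 u1
    have ea := stewart' (p := p') (q := q') (a := a') (t := t) (by rw [hpa', hpq, ta])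
      (by rw [haq', hpq, ta']) r'
    have eb := stewart' (p := p') (q := r') (a := b') (t := u) (by rw [hpb', hpr, ub])
      (by rw [hbr', hpr, ub']) a'
    have ia := fa r
    have ib := fb a
    rw [dist_comm r' p', dist_comm r' q', hpr, hqr, hpq] at ea
    rw [dist_comm a' p', hpa', hpr] at eb
    rw [dist_comm r p, dist_comm r q] at ia
    rw [dist_comm a p] at ib
    have h1 : dist a r ^ 2 ≤ dist a' r' ^ 2 := by
      rw [dist_comm a r, dist_comm a' r', ea]; exact ia
    apply le_of_sq_le_sq _ dist_nonneg
    rw [eb]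
    nlinarith

end Pool.Agent.SD.CATEQ

namespace Pool.Agent.SD

theorem cateq_proof : Stmt_CATeq := CATEQ.cateq_proof

end Pool.Agent.SD
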