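import Mathlib
import Pool.Agent.SD.Cat

/-!
# CPROD: products and isomorphisms of CAT(0) groups
-/

set_option autoImplicit false

namespace Pool.Agent.SD.CPROD

theorem iso {G₁ G₂ : Type} [Group G₁] [Group G₂] (e : G₁ ≃* G₂) (h : CATGroup G₁) :
    CATGroup G₂ := by
  obtain ⟨Z, mZ, aZ, hne, hcat, hiso, hprop, K, hK, hcoc⟩ := h
  let : MulAction G₂ Z := MulAction.compHom Z e.symm.toMonoidHom
  have hs : ∀ (g : G₂) (x : Z), g • x = e.symm g • x := fun g x => rfl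
  refine ⟨Z, mZ, inferInstance, hne, hcat, ?_, ?_, K, hK, ?_⟩
  · intro g x y
    rw [hs, hs]
    exact hiso _ _ _
  · intro x
    obtain ⟨r, hr, hfin⟩ := hprop x
    refine ⟨r, hr, (hfin.image e).subset ?_⟩
    rintro g ⟨y, hy, hgy⟩
    exact ⟨e.symm g, ⟨y, hy, hgy⟩, e.apply_symm_apply g⟩
  · intro z
    obtain ⟨g, hg⟩ := hcoc z
    refine ⟨e g, ?_⟩
    rw [hs, e.symm_apply_apply]
    exact hg

theorem dist_sq {Z₁ Z₂ : Type} [MetricSpace Z₁] [MetricSpace Z₂] (x y : WithLp 2 (Z₁ × Z₂)) :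
    dist x y ^ 2 = dist x.fst y.fst ^ 2 + dist x.snd y.snd ^ 2 := by
  rw [WithLp.prod_dist_eq_add (by norm_num : 0 < (2 : ENNReal).toReal)]
  simp only [ENNReal.toReal_ofNat, Real.rpow_ofNat]
  rw [← Real.sqrt_eq_rpow, Real.sq_sqrt (by positivity)]

theorem prod {G₁ G₂ : Type} [Group G₁] [Group G₂] (h₁ : CATGroup G₁) (h₂ : CATGroup G₂) :
    CATGroup (G₁ × G₂) := by
  obtain ⟨Z₁, m₁, a₁, hne₁, hcat₁, hiso₁, hprop₁, K₁, hK₁, hcoc₁⟩ := h₁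
  obtain ⟨Z₂, m₂, a₂, hne₂, hcat₂, hiso₂, hprop₂, K₂, hK₂, hcoc₂⟩ := h₂
  let act : MulAction (G₁ × G₂) (WithLp 2 (Z₁ × Z₂)) :=
    { smul := fun g z => WithLp.toLp 2 (g.1 • z.fst, g.2 • z.snd)
      one_smul := fun z => by
        show WithLp.toLp 2 ((1 : G₁) • z.fst, (1 : G₂) • z.snd) = z
        rw [one_smul, one_smul]
        rfl
      mul_smul := fun g h z => by
        show WithLp.toLp 2 ((g.1 * h.1) • z.fst, (g.2 * h.2) • z.snd) =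
          WithLp.toLp 2 (g.1 • (h.1 • z.fst), g.2 • (h.2 • z.snd))
        rw [mul_smul, mul_smul] }
  have hs1 : ∀ (g : G₁ × G₂) (z : WithLp 2 (Z₁ × Z₂)), (g • z).fst = g.1 • z.fst :=
    fun g z => rfl
  have hs2 : ∀ (g : G₁ × G₂) (z : WithLp 2 (Z₁ × Z₂)), (g • z).snd = g.2 • z.snd :=
    fun g z => rfl
  obtain ⟨z₁⟩ := hne₁
  obtain ⟨z₂⟩ := hne₂
  refine ⟨WithLp 2 (Z₁ × Z₂), inferInstance, act, ⟨WithLp.toLp 2 (z₁, z₂)⟩, ?_, ?_, ?_, ?_⟩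
  · intro x y t t0 t1
    obtain ⟨m, hm⟩ := hcat₁ x.fst y.fst t t0 t1
    obtain ⟨m', hm'⟩ := hcat₂ x.snd y.snd t t0 t1
    refine ⟨WithLp.toLp 2 (m, m'), ?_⟩
    intro z
    have a := hm z.fst
    have b := hm' z.snd
    unfold Stw at a b ⊢
    simp only [dist_sq]
    have e1 : (WithLp.toLp 2 (m, m') : WithLp 2 (Z₁ × Z₂)).fst = m := rfl
    have e2 : (WithLp.toLp 2 (m, m') : WithLp 2 (Z₁ × Z₂)).snd = m' := rfl
    rw [e1, e2]
    nlinarith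
  · intro g x y
    have h1 : dist (g • x) (g • y) ^ 2 = dist x y ^ 2 := by
      rw [dist_sq, dist_sq, hs1, hs1, hs2, hs2, hiso₁, hiso₂]
    exact (sq_eq_sq₀ dist_nonneg dist_nonneg).mp h1
  · intro x
    obtain ⟨r₁, hr₁, hfin₁⟩ := hprop₁ x.fst
    obtain ⟨r₂, hr₂, hfin₂⟩ := hprop₂ x.snd
    refine ⟨min r₁ r₂, lt_min hr₁ hr₂, (hfin₁.prod hfin₂).subset ?_⟩
    have hle : ∀ u v : WithLp 2 (Z₁ × Z₂), dist u.fst v.fst ≤ dist u v ∧
        dist u.snd v.snd ≤ dist u v := by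
      intro u v
      have h := dist_sq u v
      constructor
      · exact le_of_sq_le_sq (by rw [h]; nlinarith [sq_nonneg (dist u.snd v.snd)]) dist_nonneg
      · exact le_of_sq_le_sq (by rw [h]; nlinarith [sq_nonneg (dist u.fst v.fst)]) dist_nonneg
    rintro g ⟨y, hy, hgy⟩
    rw [Metric.mem_ball] at hy hgy
    refine ⟨⟨y.fst, ?_, ?_⟩, ⟨y.snd, ?_, ?_⟩⟩
    · rw [Metric.mem_ball]; exact ((hle y x).1.trans_lt hy).trans_le (min_le_left _ _)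
    · rw [Metric.mem_ball, ← hs1]; exact ((hle _ x).1.trans_lt hgy).trans_le (min_le_left _ _)
    · rw [Metric.mem_ball]; exact ((hle y x).2.trans_lt hy).trans_le (min_le_right _ _)
    · rw [Metric.mem_ball, ← hs2]; exact ((hle _ x).2.trans_lt hgy).trans_le (min_le_right _ _)
  · refine ⟨(WithLp.toLp 2) '' (K₁ ×ˢ K₂), ?_, ?_⟩
    · exact (hK₁.prod hK₂).image (WithLp.prod_continuous_toLp 2 Z₁ Z₂)
    · intro z
      obtain ⟨g₁, hg₁⟩ := hcoc₁ z.fst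
      obtain ⟨g₂, hg₂⟩ := hcoc₂ z.snd
      exact ⟨(g₁, g₂), (g₁ • z.fst, g₂ • z.snd), ⟨hg₁, hg₂⟩, rfl⟩

end Pool.Agent.SD.CPROD

namespace Pool.Agent.SD

theorem cprod_proof : Stmt_CProd :=
  ⟨fun _ _ _ _ h₁ h₂ => CPROD.prod h₁ h₂, fun _ _ _ _ e h => CPROD.iso e h⟩

end Pool.Agent.SD
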