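import Pool.Agent.SD.Cat

/-!
# Squad SD, module IG: internal gluing of two CAT(0) pieces
-/

set_option autoImplicit false

namespace Pool.Agent.SD

namespace IGX

variable {X : Type} {d : X → X → ℝ}

/-- `m` is at fraction `t` between `x` and `y`. -/
def Fr (d : X → X → ℝ) (t : ℝ) (x y m : X) : Prop :=
  d x m = t * d x y ∧ d m y = (1 - t) * d x y

theorem fr_symm (h : IsPM d) {t : ℝ} {x y m : X} (hf : Fr d t x y m) : Fr d (1 - t) y x m := by
  obtain ⟨h1, h2⟩ := hf
  refine ⟨?_, ?_⟩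
  · rw [h.symm y m, h2, h.symm y x]
  · rw [h.symm m x, h1, h.symm y x]; ring

theorem stw_symm (h : IsPM d) {t : ℝ} {x y m z : X} (hs : Stw d t x y m z) :
    Stw d (1 - t) y x m z := by
  unfold Stw at *
  rw [h.symm y x]
  linarith [hs]

theorem stw_symm' (h : IsPM d) {t : ℝ} {x y m z : X} (hs : Stw d (1 - t) x y m z) :
    Stw d t y x m z := by
  have := stw_symm h hs
  rwa [sub_sub_cancel] at this

theorem eq_of_zero (h : IsPM d) {a b : X} (h0 : d a b = 0) (z : X) : d z a = d z b := by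
  have h1 := h.tri z a b
  have h2 := h.tri z b a
  rw [h.symm b a] at h2
  linarith

theorem eq_of_zero' (h : IsPM d) {a b : X} (h0 : d a b = 0) (z : X) : d a z = d b z := by
  rw [h.symm a z, h.symm b z, eq_of_zero h h0]

/-- the seeing point may be moved by distance 0 -/
theorem stw_z (h : IsPM d) {a b : X} (h0 : d a b = 0) {t : ℝ} {x y m : X}
    (hs : Stw d t x y m a) : Stw d t x y m b := by
  unfold Stw at *
  rwa [← eq_of_zero' h h0, ← eq_of_zero' h h0, ← eq_of_zero' h h0]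

/-- the seen point may be moved by distance 0 -/
theorem stw_m (h : IsPM d) {a b : X} (h0 : d a b = 0) {t : ℝ} {x y z : X}
    (hs : Stw d t x y a z) : Stw d t x y b z := by
  unfold Stw at *
  rwa [← eq_of_zero h h0]

/-- the first end may be moved by distance 0 -/
theorem stw_x (h : IsPM d) {a b : X} (h0 : d a b = 0) {t : ℝ} {m y z : X}
    (hs : Stw d t a y m z) : Stw d t b y m z := by
  unfold Stw at *
  rwa [← eq_of_zero h h0, ← eq_of_zero' h h0]

theorem le_of_sq (h : IsPM d) {x y : X} {b : ℝ} (hb : 0 ≤ b) (hs : d x y ^ 2 ≤ b ^ 2) :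
    d x y ≤ b := by
  exact (pow_le_pow_iff_left₀ (h.nonneg x y) hb (by norm_num)).1 hs

theorem exists_fr (h : IsPM d) {K : Set X} (hK : CATon d K) {x y : X} (hx : x ∈ K) (hy : y ∈ K)
    {t : ℝ} (h0 : 0 ≤ t) (h1 : t ≤ 1) : ∃ m ∈ K, Fr d t x y m ∧ ∀ z ∈ K, Stw d t x y m z := by
  obtain ⟨m, hm, hs⟩ := hK x hx y hy t h0 h1
  have hL := h.nonneg x y
  have e1 := hs x hx
  have e2 := hs y hy
  unfold Stw at e1 e2
  rw [h.self] at e1 e2
  have f1 : d x m ≤ t * d x y := le_of_sq h (by positivity) (by nlinarith)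
  have f2 : d y m ≤ (1 - t) * d x y := by
    apply le_of_sq h (mul_nonneg (by linarith) hL)
    rw [h.symm y x] at e2
    nlinarith
  have f3 := h.tri x m y
  rw [h.symm y m] at f2
  exact ⟨m, hm, ⟨by linarith, by linarith⟩, hs⟩

theorem see (h : IsPM d) {K : Set X} (hK : CATon d K) {x y m z : X} (hx : x ∈ K) (hy : y ∈ K)
    (hm : m ∈ K) (hz : z ∈ K) {t : ℝ} (h0 : 0 ≤ t) (h1 : t ≤ 1) (hf : Fr d t x y m) :
    Stw d t x y m z := by
  obtain ⟨m', hm', hf', hs⟩ := exists_fr h hK hx hy h0 h1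
  have e := hs m hm
  unfold Stw at e
  rw [h.symm m x, hf.1, hf.2] at e
  have e2 : d m m' ^ 2 ≤ 0 := by nlinarith
  have e3 : d m m' = 0 := by
    have := h.nonneg m m'
    nlinarith [sq_nonneg (d m m')]
  have e4 : d m' m = 0 := by rw [h.symm]; exact e3
  exact stw_m h e4 (hs z hz)

theorem exists_frac (h : IsPM d) {x y a : X} (he : d x y = d x a + d a y) :
    ∃ l : ℝ, 0 ≤ l ∧ l ≤ 1 ∧ Fr d l x y a := by
  have n1 := h.nonneg x a
  have n2 := h.nonneg a y
  by_cases h0 : d x y = 0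
  · refine ⟨0, le_rfl, zero_le_one, ?_, ?_⟩ <;> rw [h0] <;> linarith
  · have hp : 0 < d x y := lt_of_le_of_ne (h.nonneg x y) (Ne.symm h0)
    refine ⟨d x a / d x y, by positivity, by rw [div_le_one hp]; linarith, ?_, ?_⟩
    · field_simp
    · field_simp
      linarith

/-- weighted square of a sum -/
theorem wsq {p q mu : ℝ} :
    (p + q) ^ 2 * (mu * (1 - mu)) ≤ p ^ 2 * (1 - mu) + q ^ 2 * mu := by
  nlinarith [sq_nonneg ((1 - mu) * p - mu * q)]

/-- AG -/
theorem ag (h : IsPM d) {x z a b m e : X} {l s mu : ℝ} (hl0 : 0 ≤ l) (hl1 : l < 1)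
    (hs0 : 0 ≤ s) (hs1 : s ≤ 1) (hmu : mu * (1 - s * l) = 1 - l)
    (hza : d z a = l * d z x) (hax : d a x = (1 - l) * d z x)
    (hf : Fr d s z b m) (h1 : Stw d s z b m a) (h2 : Stw d (mu * s) a b e x)
    (h3 : Stw d (mu * s) a b e m) : Stw d s z b m x := by
  obtain ⟨hzm, hmb⟩ := hf
  have hsl : 0 < 1 - s * l := by nlinarith
  have hmu0 : 0 < mu := by
    by_contra hc
    push Not at hc
    nlinarith
  have hmu1 : mu ≤ 1 := by
    by_contra hc
    push Not at hc
    nlinarith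
  rcases eq_or_lt_of_le hs1 with hs1' | hs1'
  · subst hs1'
    have : d b m = 0 := by rw [h.symm, hmb]; ring
    apply stw_m h this
    unfold Stw
    nlinarith [sq_nonneg (d x z)]
  · rcases eq_or_lt_of_le hl0 with hl0' | hl0'
    · subst hl0'
      have hmu' : mu = 1 := by linarith
      subst hmu'
      rw [one_mul] at h2 h3
      have ea : d z a = 0 := by rw [hza]; ring
      have ea' : d a z = 0 := by rw [h.symm]; exact ea
      have h3' : Stw d s z b e m := stw_x h ea' h3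
      have h2' : Stw d s z b e x := stw_x h ea' h2
      have hem : d m e = 0 := by
        have h4 := h3'
        unfold Stw at h4
        rw [h.symm m z, hzm, hmb] at h4
        have h5 : d m e ^ 2 ≤ 0 := by nlinarith
        have := h.nonneg m e
        nlinarith [sq_nonneg (d m e)]
      exact stw_m h (by rw [h.symm]; exact hem) h2'
    · have hmu1' : mu < 1 := by
        by_contra hc
        push Not at hc
        have : mu = 1 := le_antisymm hmu1 hc
        subst this
        nlinarith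
      have hp := h.tri x e m
      have hn := h.nonneg x m
      have hxe := h.nonneg x e
      have hem := h.nonneg e m
      have hw := wsq (p := d x e) (q := d e m) (mu := mu)
      have hsq : d x m ^ 2 ≤ (d x e + d e m) ^ 2 := by
        apply pow_le_pow_left₀ hn hp
      unfold Stw at h1 h2 h3 ⊢
      rw [h.symm x a, hax] at h2
      rw [h.symm m e, h.symm m a, hmb] at h3
      rw [h.symm a z, hza] at h1
      rw [h.symm x z]
      set D := d z x
      set L := d z b
      set al := d a b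
      set be := d x b
      set M2 := d a m ^ 2
      set P2 := d x e ^ 2
      set Q2 := d e m ^ 2
      have hm1 : 0 < 1 - mu := by linarith
      have hpos : 0 < mu * (1 - mu) := mul_pos hmu0 hm1
      -- lower and upper bounds
      have k1 : d x m ^ 2 * (mu * (1 - mu)) ≤ P2 * (1 - mu) + Q2 * mu :=
        (mul_le_mul_of_nonneg_right hsq hpos.le).trans hw
      have k2 : P2 * (1 - mu) ≤ ((1 - mu * s) * ((1 - l) * D) ^ 2 + mu * s * be ^ 2
          - mu * s * (1 - mu * s) * al ^ 2) * (1 - mu) := mul_le_mul_of_nonneg_right h2 hm1.le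
      have k3 : Q2 * mu ≤ ((1 - mu * s) * M2 + mu * s * ((1 - s) * L) ^ 2
          - mu * s * (1 - mu * s) * al ^ 2) * mu := mul_le_mul_of_nonneg_right h3 hmu0.le
      have hms : 0 ≤ 1 - mu * s := by nlinarith
      have k4 : (1 - mu * s) * M2 * mu ≤ (1 - mu * s) * mu * ((1 - s) * (l * D) ^ 2 + s * al ^ 2
          - s * (1 - s) * L ^ 2) := by
        have := mul_le_mul_of_nonneg_left h1 (mul_nonneg hms hmu0.le)
        linarith
      have k5 : d x m ^ 2 * (mu * (1 - mu)) ≤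
          ((1 - s) * D ^ 2 + s * be ^ 2 - s * (1 - s) * L ^ 2) * (mu * (1 - mu)) := by
        have id1 : ((1 - mu * s) * ((1 - l) * D) ^ 2 + mu * s * be ^ 2
            - mu * s * (1 - mu * s) * al ^ 2) * (1 - mu)
            + ((1 - mu * s) * mu * ((1 - s) * (l * D) ^ 2 + s * al ^ 2
            - s * (1 - s) * L ^ 2) + (mu * s * ((1 - s) * L) ^ 2
            - mu * s * (1 - mu * s) * al ^ 2) * mu)
            = ((1 - s) * D ^ 2 + s * be ^ 2 - s * (1 - s) * L ^ 2) * (mu * (1 - mu)) := by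
          have q1 : (1 - l) = mu * (1 - s * l) := hmu.symm
          have q2 : l * (1 - mu * s) = 1 - mu := by linear_combination hmu
          have q3 : (1 - mu * s) * (1 - l) = mu * (1 - s) := by
            have : (1 - mu * s) * (1 - l) = (1 - mu * s) - l * (1 - mu * s) := by ring
            rw [this, q2]; ring
          have q4 : (1 - mu * s) * (1 - l) ^ 2 * (1 - mu) = mu * (1 - s) * (1 - l) * (1 - mu) := by
            rw [← q3]; ring
          have q5 : (1 - mu * s) * mu * ((1 - s) * l ^ 2) = (1 - mu) * l * mu * (1 - s) := by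
            rw [← q2]; ring
          linear_combination D ^ 2 * q4 + D ^ 2 * q5
        nlinarith
      exact le_of_mul_le_mul_right k5 hpos

/-- Lemma S -/
theorem lemS (h : IsPM d) {p q w x : X} {l : ℝ} (hl0 : 0 < l) (hl1 : l < 1)
    (hf : Fr d l p q w) {k0 : ℝ} (hk0 : 0 < k0)
    (hc : ∀ k : ℝ, 0 < k → k ≤ k0 → ∃ c, Stw d k w x c p ∧ Stw d k w x c q) :
    Stw d l p q w x := by
  obtain ⟨hpw, hwq⟩ := hf
  unfold Stw
  set R := (1 - l) * d x p ^ 2 + l * d x q ^ 2 - l * (1 - l) * d p q ^ 2 with hR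
  have key : ∀ k : ℝ, 0 < k → k ≤ k0 → (1 - k) * d x w ^ 2 ≤ R := by
    intro k hk hkk
    obtain ⟨c, h1, h2⟩ := hc k hk hkk
    unfold Stw at h1 h2
    rw [hpw] at h1
    rw [h.symm q w, hwq, h.symm q c] at h2
    have hw := wsq (p := d p c) (q := d c q) (mu := l)
    have ht := h.tri p c q
    have hL := h.nonneg p q
    have hsq : d p q ^ 2 ≤ (d p c + d c q) ^ 2 := pow_le_pow_left₀ hL ht 2
    have hll : 0 < l * (1 - l) := mul_pos hl0 (by linarith)
    have k1 := mul_le_mul_of_nonneg_right hsq hll.le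
    have k2 := mul_le_mul_of_nonneg_right h1 (show (0:ℝ) ≤ 1 - l by linarith)
    have k3 := mul_le_mul_of_nonneg_right h2 hl0.le
    rw [h.symm p x, h.symm w x] at k2
    rw [h.symm q x, h.symm w x] at k3
    have k4 : k * ((1 - k) * d x w ^ 2) ≤ k * R := by
      rw [hR]
      nlinarith
    exact le_of_mul_le_mul_left k4 hk
  by_contra hcon
  push Not at hcon
  have hW : 0 ≤ d x w ^ 2 := sq_nonneg _
  have hRw : 0 < d x w ^ 2 - R := by linarith
  set k := min k0 ((d x w ^ 2 - R) / (2 * (d x w ^ 2 + 1))) with hk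
  have hkpos : 0 < k := lt_min hk0 (by positivity)
  have h1 := key k hkpos (min_le_left _ _)
  have h2 : k ≤ (d x w ^ 2 - R) / (2 * (d x w ^ 2 + 1)) := min_le_right _ _
  rw [le_div_iff₀ (by positivity)] at h2
  nlinarith

/-- the two pieces -/
structure Pair (d : X → X → ℝ) (P Q : Set X) : Prop where
  pm : IsPM d
  bet : ∀ p ∈ P, ∀ q ∈ Q, ∃ a ∈ P ∩ Q, d p q = d p a + d a q
  cp : CATon d P
  cq : CATon d Q
  tc : TClosed d (P ∩ Q)

theorem Pair.swap {P Q : Set X} (h : Pair d P Q) : Pair d Q P where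
  pm := h.pm
  bet := by
    intro q hq p hp
    obtain ⟨a, ha, he⟩ := h.bet p hp q hq
    refine ⟨a, ⟨ha.2, ha.1⟩, ?_⟩
    rw [h.pm.symm q p, he, h.pm.symm q a, h.pm.symm a p]
    ring
  cp := h.cq
  cq := h.cp
  tc := by
    rw [Set.inter_comm]
    exact h.tc

/-- from a point `a` between `x` and `z` and suitable `e` -/
theorem ag' (h : IsPM d) {x z a b m : X} {s : ℝ} (hs0 : 0 ≤ s) (hs1 : s ≤ 1)
    (he : d x z = d x a + d a z) (hf : Fr d s z b m) (h1 : Stw d s z b m a)
    (h2 : ∀ u : ℝ, 0 ≤ u → u ≤ 1 → ∃ e, Stw d u a b e x ∧ Stw d u a b e m) :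
    Stw d s z b m x := by
  have he' : d z x = d z a + d a x := by
    rw [h.symm z x, he, h.symm z a, h.symm a x]; ring
  obtain ⟨l, hl0, hl1, hz, ha⟩ := exists_frac h he'
  rcases eq_or_lt_of_le hl1 with hl | hl
  · subst hl
    have : d a x = 0 := by rw [ha]; ring
    exact stw_z h this h1
  · have hsl : 0 < 1 - s * l := by nlinarith
    have hmu : (1 - l) / (1 - s * l) * (1 - s * l) = 1 - l := div_mul_cancel₀ _ hsl.ne'
    have hmu0 : 0 ≤ (1 - l) / (1 - s * l) := div_nonneg (by linarith) hsl.le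
    have hmu1 : (1 - l) / (1 - s * l) ≤ 1 := by
      rw [div_le_one hsl]
      nlinarith
    obtain ⟨e, h3, h4⟩ := h2 ((1 - l) / (1 - s * l) * s) (mul_nonneg hmu0 hs0)
      (mul_le_one₀ hmu1 hs0 hs1)
    exact ag h hl0 hl hs0 hs1 hmu hz ha hf h1 h3 h4

theorem Pair.step1 {P Q : Set X} (h : Pair d P Q) {x z b m : X} (hx : x ∈ Q) (hz : z ∈ P)
    (hb : b ∈ P ∩ Q) (hm : m ∈ P) {s : ℝ} (hs0 : 0 ≤ s) (hs1 : s ≤ 1) (hf : Fr d s z b m) :
    Stw d s z b m x := by
  obtain ⟨a, ha, he⟩ := h.swap.bet x hx z hz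
  apply ag' h.pm hs0 hs1 he hf (see h.pm h.cp hz hb.1 hm ha.2 hs0 hs1 hf)
  intro u hu0 hu1
  obtain ⟨e, hee, hef⟩ := h.tc a ⟨ha.2, ha.1⟩ b hb u hu0 hu1
  exact ⟨e, see h.pm h.cq ha.1 hb.2 hee.2 hx hu0 hu1 hef,
    see h.pm h.cp ha.2 hb.1 hee.1 hm hu0 hu1 hef⟩

theorem Pair.step2 {P Q : Set X} (h : Pair d P Q) {x z y m : X} (hx : x ∈ Q) (hz : z ∈ P)
    (hy : y ∈ P) (hm : m ∈ P) {s : ℝ} (hs0 : 0 ≤ s) (hs1 : s ≤ 1) (hf : Fr d s z y m) :
    Stw d s z y m x := by
  obtain ⟨b, hb, he⟩ := h.swap.bet x hx y hy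
  have hf' := fr_symm h.pm hf
  have h0' : 0 ≤ 1 - s := by linarith
  have h1' : 1 - s ≤ 1 := by linarith
  apply stw_symm' h.pm
  apply ag' h.pm h0' h1' he hf' (see h.pm h.cp hy hz hm hb.2 h0' h1' hf')
  intro u hu0 hu1
  obtain ⟨e, hee, hef, _⟩ := exists_fr h.pm h.cp hb.2 hz hu0 hu1
  refine ⟨e, ?_, see h.pm h.cp hb.2 hz hee hm hu0 hu1 hef⟩
  apply stw_symm' h.pm
  exact h.step1 hx hz ⟨hb.2, hb.1⟩ hee (by linarith) (by linarith) (fr_symm h.pm hef)

/-- combination of two fractions -/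
theorem comb {m x a c z : X} {nu sg : ℝ} (hs0 : 0 ≤ sg)
    (hf : Fr d nu m x a) (h1 : Stw d nu m x a z) (h2 : Stw d sg m a c z) :
    Stw d (sg * nu) m x c z := by
  unfold Stw at *
  rw [hf.1] at h2
  have := mul_le_mul_of_nonneg_left h1 hs0
  nlinarith

theorem Pair.step3 {P Q : Set X} (h : Pair d P Q) {z y m x : X} (hz : z ∈ P) (hy : y ∈ Q)
    (hm : m ∈ P) (hx : x ∈ P ∪ Q) {t : ℝ} (ht0 : 0 ≤ t) (ht1 : t ≤ 1) (hf : Fr d t z y m) :
    Stw d t z y m x := by
  have hpm := h.pm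
  rcases eq_or_lt_of_le ht0 with ht | ht0'
  · subst ht
    have : d z m = 0 := by rw [hf.1]; ring
    apply stw_m hpm this
    unfold Stw
    nlinarith
  rcases eq_or_lt_of_le ht1 with ht | ht1'
  · subst ht
    have : d y m = 0 := by rw [hpm.symm, hf.2]; ring
    apply stw_m hpm this
    unfold Stw
    nlinarith
  rcases hx with hx | hx
  · apply lemS hpm ht0' ht1' hf zero_lt_one
    intro k hk0 hk1
    obtain ⟨c, hc, hcf, hcs⟩ := exists_fr hpm h.cp hm hx hk0.le hk1
    exact ⟨c, hcs z hz, h.step2 hy hm hx hc hk0.le hk1 hcf⟩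
  · obtain ⟨a, ha, he⟩ := h.bet m hm x hx
    obtain ⟨nu, hn0, hn1, hnf⟩ := exists_frac hpm he
    rcases eq_or_lt_of_le hn0 with hn | hn0'
    · subst hn
      have hma : d m a = 0 := by rw [hnf.1]; ring
      have ham : d a m = 0 := by rw [hpm.symm]; exact hma
      apply lemS hpm ht0' ht1' hf zero_lt_one
      intro k hk0 hk1
      obtain ⟨c, hc, hcf, hcs⟩ := exists_fr hpm h.cq ha.2 hx hk0.le hk1
      exact ⟨c, stw_x hpm ham (h.swap.step2 hz ha.2 hx hc hk0.le hk1 hcf),
        stw_x hpm ham (hcs y hy)⟩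
    · -- z and y see a in [m, x]
      have hza : Stw d nu m x a z := by
        rcases eq_or_lt_of_le hn1 with hn | hn1'
        · subst hn
          have : d x a = 0 := by rw [hpm.symm, hnf.2]; ring
          apply stw_m hpm this
          unfold Stw
          nlinarith
        · apply lemS hpm hn0' hn1' hnf zero_lt_one
          intro k hk0 hk1
          obtain ⟨c, hc, hcf, hcs⟩ := exists_fr hpm h.cp ha.1 hz hk0.le hk1
          exact ⟨c, hcs m hm, h.step2 hx ha.1 hz hc hk0.le hk1 hcf⟩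
      have hya : Stw d nu m x a y := by
        rcases eq_or_lt_of_le hn1 with hn | hn1'
        · subst hn
          have : d x a = 0 := by rw [hpm.symm, hnf.2]; ring
          apply stw_m hpm this
          unfold Stw
          nlinarith
        · apply lemS hpm hn0' hn1' hnf zero_lt_one
          intro k hk0 hk1
          obtain ⟨c, hc, hcf, hcs⟩ := exists_fr hpm h.cq ha.2 hy hk0.le hk1
          exact ⟨c, h.swap.step2 hm ha.2 hy hc hk0.le hk1 hcf, hcs x hx⟩
      apply lemS hpm ht0' ht1' hf hn0'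
      intro k hk0 hk1
      have hs0 : 0 ≤ k / nu := by positivity
      have hs1 : k / nu ≤ 1 := by rw [div_le_one hn0']; exact hk1
      have hsn : k / nu * nu = k := by field_simp
      obtain ⟨c, hc, hcf, hcs⟩ := exists_fr hpm h.cp hm ha.1 hs0 hs1
      refine ⟨c, ?_, ?_⟩
      · have := comb hs0 hnf hza (hcs z hz)
        rwa [hsn] at this
      · have := comb hs0 hnf hya (h.step2 hy hm ha.1 hc hs0 hs1 hcf)
        rwa [hsn] at this

/-- if the `t`-point is to be taken on the side of `P` -/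
theorem Pair.mixed_left {P Q : Set X} (h : Pair d P Q) {z y a : X} (hz : z ∈ P) (hy : y ∈ Q)
    (ha : a ∈ P ∩ Q) (he : d z y = d z a + d a y) {t : ℝ} (ht0 : 0 ≤ t) (ht1 : t ≤ 1)
    (hle : t * d z y ≤ d z a) : ∃ m ∈ P, ∀ x ∈ P ∪ Q, Stw d t z y m x := by
  have hpm := h.pm
  have hfr : ∃ m ∈ P, Fr d t z y m := by
    by_cases h0 : d z a = 0
    · refine ⟨z, hz, ?_⟩
      have hn := hpm.nonneg z y
      have h1 : t * d z y = 0 := le_antisymm (by linarith) (by positivity)
      refine ⟨by rw [hpm.self, h1], by linarith⟩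
    · have hp : 0 < d z a := lt_of_le_of_ne (hpm.nonneg z a) (Ne.symm h0)
      have hn := hpm.nonneg z y
      have s0 : 0 ≤ t * d z y / d z a := by positivity
      have s1 : t * d z y / d z a ≤ 1 := by rw [div_le_one hp]; exact hle
      obtain ⟨m, hm, hmf, _⟩ := exists_fr hpm h.cp hz ha.1 s0 s1
      refine ⟨m, hm, ?_⟩
      have e1 : d z m = t * d z y := by rw [hmf.1]; field_simp
      have e2 : d m a = d z a - t * d z y := by rw [hmf.2]; field_simp
      have t1 := hpm.tri z m y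
      have t2 := hpm.tri m a y
      exact ⟨e1, by linarith⟩
  obtain ⟨m, hm, hmf⟩ := hfr
  exact ⟨m, hm, fun x hx => h.step3 hz hy hm hx ht0 ht1 hmf⟩

theorem Pair.mixed {P Q : Set X} (h : Pair d P Q) {z y : X} (hz : z ∈ P) (hy : y ∈ Q)
    {t : ℝ} (ht0 : 0 ≤ t) (ht1 : t ≤ 1) : ∃ m ∈ P ∪ Q, ∀ x ∈ P ∪ Q, Stw d t z y m x := by
  obtain ⟨a, ha, he⟩ := h.bet z hz y hy
  rcases le_total (t * d z y) (d z a) with hle | hle
  · obtain ⟨m, hm, hs⟩ := h.mixed_left hz hy ha he ht0 ht1 hle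
    exact ⟨m, Or.inl hm, hs⟩
  · have hpm := h.pm
    have he' : d y z = d y a + d a z := by
      rw [hpm.symm y z, he, hpm.symm y a, hpm.symm a z]; ring
    have hle' : (1 - t) * d y z ≤ d y a := by
      rw [hpm.symm y z, hpm.symm y a]; linarith
    obtain ⟨m, hm, hs⟩ := h.swap.mixed_left hy hz ⟨ha.2, ha.1⟩ he'
      (t := 1 - t) (by linarith) (by linarith) hle'
    refine ⟨m, Or.inr hm, fun x hx => ?_⟩
    exact stw_symm' hpm (hs x hx.symm)

theorem Pair.cat {P Q : Set X} (h : Pair d P Q) : CATon d (P ∪ Q) := by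
  have hpm := h.pm
  intro x hx y hy t ht0 ht1
  rcases hx with hx | hx <;> rcases hy with hy | hy
  · obtain ⟨m, hm, hmf, hs⟩ := exists_fr hpm h.cp hx hy ht0 ht1
    refine ⟨m, Or.inl hm, fun z hz => ?_⟩
    rcases hz with hz | hz
    · exact hs z hz
    · exact h.step2 hz hx hy hm ht0 ht1 hmf
  · exact h.mixed hx hy ht0 ht1
  · obtain ⟨m, hm, hs⟩ := h.mixed hy hx (t := 1 - t) (by linarith) (by linarith)
    exact ⟨m, hm, fun z hz => stw_symm' hpm (hs z hz)⟩
  · obtain ⟨m, hm, hmf, hs⟩ := exists_fr hpm h.cq hx hy ht0 ht1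
    refine ⟨m, Or.inr hm, fun z hz => ?_⟩
    rcases hz with hz | hz
    · exact h.swap.step2 hz hx hy hm ht0 ht1 hmf
    · exact hs z hz

end IGX

theorem ig_proof : Stmt_IG := by
  intro X d hpm P Q hb hP hQ hA
  exact IGX.Pair.cat ⟨hpm, hb, hP, hQ, hA⟩

end Pool.Agent.SD
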