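import Pool.Agent.SD.Cat
import Pool.Agent.SD.NFS
import Pool.Agent.SD.SysP

/-!
# Squad SD: vertical lengths
-/

set_option autoImplicit false
set_option linter.unusedSectionVars false

namespace Pool.Agent.SD

namespace LVNX

open NFSX

section comb

variable {A B : Type} [DecidableEq A] [DecidableEq B] (σ : Sys A B)

/-- the number of vertical letters -/
def vc : List (A ⊕ B) → ℕ
  | [] => 0
  | Sum.inl _ :: w => vc w
  | Sum.inr _ :: w => vc w + 1

/-- the number of horizontal letters -/
def hc : List (A ⊕ B) → ℕ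
  | [] => 0
  | Sum.inl _ :: w => hc w + 1
  | Sum.inr _ :: w => hc w

/-- the number of vertical letters in the longest common prefix -/
def cpv : List (A ⊕ B) → List (A ⊕ B) → ℕ
  | Sum.inl a :: u, Sum.inl a' :: v => if a = a' then cpv u v else 0
  | Sum.inr b :: u, Sum.inr b' :: v => if b = b' then cpv u v + 1 else 0
  | _, _ => 0

theorem vc_starA (w : List (A ⊕ B)) : ∀ a, σ.NF w → vc (σ.starA w a) = vc w := by
  induction w with
  | nil => intro a _; rfl
  | cons x w ih =>
    intro a hw
    cases x with
    | inl c =>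
      by_cases hc : c = σ.ia a
      · subst hc
        rw [starA_inl_eq]
        rfl
      · rw [starA_inl_ne σ hc]
        rfl
    | inr b =>
      cases hr : σ.rule a b with
      | none =>
        rw [starA_inr_none σ hr]
        rfl
      | some q =>
        obtain ⟨b', a'⟩ := q
        rw [starA_inr_some' σ hr hw]
        simp only [vc]
        rw [ih a' (NF_tail σ hw)]

theorem hc_starA (w : List (A ⊕ B)) : ∀ a, σ.NF w → hc (σ.starA w a) ≤ hc w + 1 := by
  induction w with
  | nil => intro a _; exact le_rfl
  | cons x w ih =>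
    intro a hw
    cases x with
    | inl c =>
      by_cases hc' : c = σ.ia a
      · subst hc'
        rw [starA_inl_eq]
        simp only [hc]
        omega
      · rw [starA_inl_ne σ hc']
        simp only [hc]
        exact le_rfl
    | inr b =>
      cases hr : σ.rule a b with
      | none =>
        rw [starA_inr_none σ hr]
        exact le_rfl
      | some q =>
        obtain ⟨b', a'⟩ := q
        rw [starA_inr_some' σ hr hw]
        simp only [hc]
        exact ih a' (NF_tail σ hw)

theorem vc_pushB (b : B) (w : List (A ⊕ B)) :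
    vc (σ.pushB b w) = vc w + 1 ∨ vc (σ.pushB b w) + 1 = vc w := by
  rcases NoB_or (σ.ib b) w with h | ⟨l, rfl⟩
  · rw [pushB_of_NoB σ h]
    exact Or.inl rfl
  · rw [pushB_cancel]
    exact Or.inr rfl

theorem hc_pushB (b : B) (w : List (A ⊕ B)) : hc (σ.pushB b w) = hc w := by
  rcases NoB_or (σ.ib b) w with h | ⟨l, rfl⟩
  · rw [pushB_of_NoB σ h]
    rfl
  · rw [pushB_cancel]
    rfl

theorem cpv_self (u : List (A ⊕ B)) : cpv u u = vc u := by
  induction u with
  | nil => rfl
  | cons x u ih => cases x <;> simp [cpv, vc, ih]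

theorem cpv_nil (u : List (A ⊕ B)) : cpv u [] = 0 := by
  cases u with
  | nil => rfl
  | cons x u => cases x <;> rfl

/-- ultrametric inequality -/
theorem cpv_min (u : List (A ⊕ B)) : ∀ v w, min (cpv u v) (cpv u w) ≤ cpv v w := by
  induction u with
  | nil => intro v w; simp [cpv]
  | cons x u ih =>
    intro v w
    cases x with
    | inl a =>
      match v, w with
      | [], _ => simp [cpv]
      | _, [] => simp [cpv]
      | Sum.inr _ :: _, _ => simp [cpv]
      | _, Sum.inr _ :: _ => simp [cpv]
      | Sum.inl c :: v, Sum.inl d :: w =>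
        simp only [cpv]
        by_cases h1 : a = c
        · by_cases h2 : a = d
          · subst h1; subst h2
            simpa using ih v w
          · simp [h2]
        · simp [h1]
    | inr a =>
      match v, w with
      | [], _ => simp [cpv]
      | _, [] => simp [cpv]
      | Sum.inl _ :: _, _ => simp [cpv]
      | _, Sum.inl _ :: _ => simp [cpv]
      | Sum.inr c :: v, Sum.inr d :: w =>
        simp only [cpv]
        by_cases h1 : a = c
        · by_cases h2 : a = d
          · subst h1; subst h2
            have := ih v w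
            simp only [if_true]
            omega
          · simp [h2]
        · simp [h1]

/-- a nonzero common prefix transfers normality of the first pair -/
theorem NF_of_cpv {x : A ⊕ B} {u v : List (A ⊕ B)} (h : cpv u v ≠ 0) (hu : σ.NF (x :: u))
    (hv : σ.NF v) : σ.NF (x :: v) := by
  match u, v with
  | [], v => exact absurd (by simp [cpv]) h
  | y :: u, [] => exact absurd (cpv_nil _) h
  | Sum.inl a :: u, Sum.inr b :: v => exact absurd rfl h
  | Sum.inr a :: u, Sum.inl b :: v => exact absurd rfl h
  | Sum.inl a :: u, Sum.inl b :: v =>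
    simp only [cpv] at h
    by_cases hab : a = b
    · subst hab
      exact ⟨hu.1, hu.2.1, hv⟩
    · simp [hab] at h
  | Sum.inr a :: u, Sum.inr b :: v =>
    simp only [cpv] at h
    by_cases hab : a = b
    · subst hab
      exact ⟨hu.1, hu.2.1, hv⟩
    · simp [hab] at h

/-- the inverse of the action of a word: multiply by the inverses of the letters, the first letter
first -/
def back : List (A ⊕ B) → List (A ⊕ B) → List (A ⊕ B)
  | [], v => v
  | x :: u, v => back u (σ.star (σ.inv x) v)

theorem star_NF (x : A ⊕ B) (w : List (A ⊕ B)) (hw : σ.NF w) : σ.NF (σ.star x w) :=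
  (nfs_proof A B σ).1 x w hw

theorem star_star (x : A ⊕ B) (w : List (A ⊕ B)) (hw : σ.NF w) :
    σ.star (σ.inv x) (σ.star x w) = w := (nfs_proof A B σ).2.1 x w hw

theorem star_cons (x : A ⊕ B) (w : List (A ⊕ B)) (hw : σ.NF (x :: w)) :
    σ.star x w = x :: w := (nfs_proof A B σ).2.2.2.2.1 x w hw

theorem inv_inv (x : A ⊕ B) : σ.inv (σ.inv x) = x := by
  cases x with
  | inl a => rw [inv_inl, inv_inl, σ.ia_ia]
  | inr b => rw [inv_inr, inv_inr, σ.ib_ib]

theorem star_star' (x : A ⊕ B) (w : List (A ⊕ B)) (hw : σ.NF w) :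
    σ.star x (σ.star (σ.inv x) w) = w := by
  have := star_star σ (σ.inv x) w hw
  rwa [inv_inv] at this

/-- no cancellation of vertical letters -/
theorem vc_back0 (u : List (A ⊕ B)) : ∀ v, σ.NF u → σ.NF v → cpv u v = 0 →
    vc (back σ u v) = vc u + vc v := by
  induction u with
  | nil => intro v _ _ _; simp [back, vc]
  | cons x u ih =>
    intro v hu hv h
    cases x with
    | inl a =>
      have h1 : cpv u (σ.star (σ.inv (Sum.inl a)) v) = 0 := by
        by_contra h2
        have h3 := NF_of_cpv σ h2 hu (star_NF σ _ _ hv)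
        have h4 := star_cons σ _ _ h3
        rw [star_star' σ _ _ hv] at h4
        apply h2
        rw [h4] at h
        simpa [cpv] using h
      rw [back, ih _ (NF_tail σ hu) (star_NF σ _ _ hv) h1]
      have h5 : vc (σ.star (σ.inv (Sum.inl a)) v) = vc v := vc_starA σ v _ hv
      rw [h5]
      rfl
    | inr b =>
      have h0 : NoB b v := by
        rintro l rfl
        simp [cpv] at h
      have h1 : σ.star (σ.inv (Sum.inr b)) v = Sum.inr (σ.ib b) :: v := by
        change σ.pushB (σ.ib b) v = _
        apply pushB_of_NoB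
        rwa [σ.ib_ib]
      have h2 : σ.NF (Sum.inr (σ.ib b) :: v) := by
        rw [← h1]; exact star_NF σ _ _ hv
      have h3 : cpv u (Sum.inr (σ.ib b) :: v) = 0 := by
        match u, hu with
        | [], _ => rfl
        | Sum.inl a :: u, _ => rfl
        | Sum.inr c :: u, hu =>
          have hc : c ≠ σ.ib b := fun hc => hu.1 (by rw [hc]; rfl)
          simp [cpv, hc]
      rw [back, h1, ih _ (NF_tail σ hu) h2 h3]
      simp only [vc]
      omega

theorem vc_back (u : List (A ⊕ B)) : ∀ v, σ.NF u → σ.NF v →
    vc (back σ u v) + 2 * cpv u v = vc u + vc v := by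
  induction u with
  | nil => intro v _ _; simp [back, vc, cpv]
  | cons x u ih =>
    intro v hu hv
    by_cases h : cpv (x :: u) v = 0
    · rw [h, vc_back0 σ _ _ hu hv h, mul_zero, add_zero]
    · match x, v, h, hu, hv with
      | x, [], h, _, _ => exact absurd (cpv_nil _) h
      | Sum.inl a, Sum.inr b :: v, h, _, _ => exact absurd rfl h
      | Sum.inr a, Sum.inl b :: v, h, _, _ => exact absurd rfl h
      | Sum.inl a, Sum.inl b :: v, h, hu, hv =>
        by_cases hab : a = b
        · subst hab
          have h1 : σ.star (σ.inv (Sum.inl a)) (Sum.inl a :: v) = v := by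
            rw [← star_cons σ _ _ hv, star_star σ _ _ (NF_tail σ hv)]
          have := ih v (NF_tail σ hu) (NF_tail σ hv)
          rw [back, h1]
          simp only [cpv, vc, if_true]
          exact this
        · simp [cpv, hab] at h
      | Sum.inr a, Sum.inr b :: v, h, hu, hv =>
        by_cases hab : a = b
        · subst hab
          have h1 : σ.star (σ.inv (Sum.inr a)) (Sum.inr a :: v) = v := by
            rw [← star_cons σ _ _ hv, star_star σ _ _ (NF_tail σ hv)]
          have := ih v (NF_tail σ hu) (NF_tail σ hv)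
          rw [back, h1]
          simp only [cpv, vc, if_true]
          omega
        · simp [cpv, hab] at h

end comb

section grp

open Classical

variable {H V S : Type} (D : VHData H V S)

/-- compatible oriented systems -/
structure Comp (σ : Sys (H × Bool) (V × Bool)) : Prop where
  ia : ∀ a, σ.ia a = (a.1, !a.2)
  ib : ∀ b, σ.ib b = (b.1, !b.2)
  pos : ∀ s, σ.rule (D.h s, true) (D.v s, true) = some ((D.v' s, true), (D.h' s, true))
  cor : ∀ a b b' a', σ.rule a b = some (b', a') → ∃ s,
      (a = (D.h s, true) ∧ b = (D.v s, true) ∧ b' = (D.v' s, true) ∧ a' = (D.h' s, true)) ∨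
      (a = (D.h s, false) ∧ b = (D.v' s, true) ∧ b' = (D.v s, true) ∧ a' = (D.h' s, false)) ∨
      (a = (D.h' s, true) ∧ b = (D.v s, false) ∧ b' = (D.v' s, false) ∧ a' = (D.h s, true)) ∨
      (a = (D.h' s, false) ∧ b = (D.v' s, false) ∧ b' = (D.v s, false) ∧ a' = (D.h s, false))

/-- the oriented letter -/
def toL : (H × Bool) ⊕ (V × Bool) → (H ⊕ V) × Bool
  | Sum.inl a => (Sum.inl a.1, a.2)
  | Sum.inr b => (Sum.inr b.1, b.2)

/-- the oriented letter -/
def ofL : (H ⊕ V) × Bool → (H × Bool) ⊕ (V × Bool)
  | (Sum.inl a, e) => Sum.inl (a, e)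
  | (Sum.inr b, e) => Sum.inr (b, e)

theorem toL_ofL (c : (H ⊕ V) × Bool) : toL (ofL c) = c := by
  obtain ⟨a | b, e⟩ := c <;> rfl

/-- the element of a letter -/
def el (x : (H × Bool) ⊕ (V × Bool)) : D.Grp := D.gen (toL x)

/-- the element of a word -/
def val (w : List ((H × Bool) ⊕ (V × Bool))) : D.Grp := (w.map (el D)).prod

theorem val_cons (x : (H × Bool) ⊕ (V × Bool)) (w : List ((H × Bool) ⊕ (V × Bool))) :
    val D (x :: w) = el D x * val D w := by
  simp [val]

theorem gen_flip (c : H ⊕ V) (e : Bool) : D.gen (c, !e) = (D.gen (c, e))⁻¹ := by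
  cases e <;> simp [VHData.gen]

variable {D} {σ : Sys (H × Bool) (V × Bool)} (hσ : Comp D σ)
include hσ

theorem el_inv (x : (H × Bool) ⊕ (V × Bool)) : el D (σ.inv x) = (el D x)⁻¹ := by
  cases x with
  | inl a =>
    rw [inv_inl, hσ.ia]
    exact gen_flip D (Sum.inl a.1) a.2
  | inr b =>
    rw [inv_inr, hσ.ib]
    exact gen_flip D (Sum.inr b.1) b.2

omit hσ in
theorem basic (D : VHData H V S) (s : S) :
    (PresentedGroup.of (Sum.inl (D.h s)) : D.Grp) * PresentedGroup.of (Sum.inr (D.v s)) =
      PresentedGroup.of (Sum.inr (D.v' s)) * PresentedGroup.of (Sum.inl (D.h' s)) := by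
  have h : PresentedGroup.mk (Set.range D.word) (D.word s) = 1 :=
    PresentedGroup.one_of_mem ⟨s, rfl⟩
  unfold VHData.word at h
  rw [map_mul, map_mul, map_mul, map_inv, map_inv, mul_inv_eq_one, mul_inv_eq_iff_eq_mul] at h
  exact h

theorem el_rule (a : H × Bool) (b b' : V × Bool) (a' : H × Bool)
    (h : σ.rule a b = some (b', a')) :
    el D (Sum.inl a) * el D (Sum.inr b) = el D (Sum.inr b') * el D (Sum.inl a') := by
  obtain ⟨s, h1 | h1 | h1 | h1⟩ := hσ.cor a b b' a' h
  · obtain ⟨rfl, rfl, rfl, rfl⟩ := h1
    have := basic D s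
    simpa [el, toL, VHData.gen] using this
  · obtain ⟨rfl, rfl, rfl, rfl⟩ := h1
    have := basic D s
    simp only [el, toL, VHData.gen, if_true, Bool.false_eq_true, if_false]
    rw [inv_mul_eq_iff_eq_mul, ← mul_assoc, this, mul_inv_cancel_right]
  · obtain ⟨rfl, rfl, rfl, rfl⟩ := h1
    have := basic D s
    simp only [el, toL, VHData.gen, if_true, Bool.false_eq_true, if_false]
    rw [mul_inv_eq_iff_eq_mul, mul_assoc, this, inv_mul_cancel_left]
  · obtain ⟨rfl, rfl, rfl, rfl⟩ := h1
    have := basic D s
    simp only [el, toL, VHData.gen, Bool.false_eq_true, if_false]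
    rw [← mul_inv_rev, ← mul_inv_rev, this]

theorem val_pushB (b : V × Bool) (w : List ((H × Bool) ⊕ (V × Bool))) :
    val D (σ.pushB b w) = el D (Sum.inr b) * val D w := by
  rcases NoB_or (σ.ib b) w with h | ⟨l, rfl⟩
  · rw [pushB_of_NoB σ h, val_cons]
  · rw [pushB_cancel, val_cons, ← inv_inr, el_inv hσ, mul_inv_cancel_left]

theorem val_starA (w : List ((H × Bool) ⊕ (V × Bool))) : ∀ a,
    val D (σ.starA w a) = el D (Sum.inl a) * val D w := by
  induction w with
  | nil => intro a; rw [starA_nil, val_cons]
  | cons x w ih =>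
    intro a
    cases x with
    | inl c =>
      by_cases hc' : c = σ.ia a
      · subst hc'
        rw [starA_inl_eq, val_cons, ← inv_inl, el_inv hσ, mul_inv_cancel_left]
      · rw [starA_inl_ne σ hc', val_cons]
    | inr b =>
      cases hr : σ.rule a b with
      | none => rw [starA_inr_none σ hr, val_cons]
      | some q =>
        obtain ⟨b', a'⟩ := q
        rw [starA_inr_some σ hr, val_pushB hσ, ih a', val_cons, ← mul_assoc, ← mul_assoc,
          el_rule hσ a b b' a' hr]

theorem val_star (x : (H × Bool) ⊕ (V × Bool)) (w : List ((H × Bool) ⊕ (V × Bool))) :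
    val D (σ.star x w) = el D x * val D w := by
  cases x with
  | inl a => exact val_starA hσ w a
  | inr b => exact val_pushB hσ b w

omit hσ in
/-- the permutation of the normal forms given by a letter -/
noncomputable def perm (σ : Sys (H × Bool) (V × Bool)) (x : (H × Bool) ⊕ (V × Bool)) :
    Equiv.Perm {w // σ.NF w} where
  toFun w := ⟨σ.star x w.1, star_NF σ x w.1 w.2⟩
  invFun w := ⟨σ.star (σ.inv x) w.1, star_NF σ _ w.1 w.2⟩
  left_inv w := Subtype.ext (star_star σ x w.1 w.2)
  right_inv w := Subtype.ext (star_star' σ x w.1 w.2)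

omit hσ in
theorem perm_inv (σ : Sys (H × Bool) (V × Bool)) (x : (H × Bool) ⊕ (V × Bool)) :
    (perm σ x)⁻¹ = perm σ (σ.inv x) := by
  apply Equiv.ext
  intro w
  rfl

theorem perm_rel (r : FreeGroup (H ⊕ V)) (hr : r ∈ Set.range D.word) :
    FreeGroup.lift (fun c : H ⊕ V => perm σ (ofL (c, true))) r = 1 := by
  obtain ⟨s, rfl⟩ := hr
  unfold VHData.word gH gV
  rw [map_mul, map_mul, map_mul, map_inv, map_inv, mul_inv_eq_one, mul_inv_eq_iff_eq_mul]
  simp only [FreeGroup.lift_apply_of]
  apply Equiv.ext
  intro w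
  apply Subtype.ext
  exact (nfs_proof _ _ σ).2.2.1 _ _ _ _ w.1 (hσ.pos s) w.2

/-- the action on the normal forms -/
noncomputable def act : D.Grp →* Equiv.Perm {w // σ.NF w} :=
  PresentedGroup.toGroup (perm_rel hσ)

theorem act_el (x : (H × Bool) ⊕ (V × Bool)) : act hσ (el D x) = perm σ x := by
  obtain ⟨a, e⟩ | ⟨b, e⟩ := x
  · cases e with
    | true => exact PresentedGroup.toGroup.of (perm_rel hσ) (x := Sum.inl a)
    | false =>
      have h1 : el D (Sum.inl (a, false)) = (el D (Sum.inl (a, true)))⁻¹ :=
        gen_flip D (Sum.inl a) true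
      have h2 : act hσ (el D (Sum.inl (a, true))) = perm σ (Sum.inl (a, true)) :=
        PresentedGroup.toGroup.of (perm_rel hσ) (x := Sum.inl a)
      rw [h1, map_inv, h2, perm_inv, inv_inl, hσ.ia]
      rfl
  · cases e with
    | true => exact PresentedGroup.toGroup.of (perm_rel hσ) (x := Sum.inr b)
    | false =>
      have h1 : el D (Sum.inr (b, false)) = (el D (Sum.inr (b, true)))⁻¹ :=
        gen_flip D (Sum.inr b) true
      have h2 : act hσ (el D (Sum.inr (b, true))) = perm σ (Sum.inr (b, true)) :=
        PresentedGroup.toGroup.of (perm_rel hσ) (x := Sum.inr b)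
      rw [h1, map_inv, h2, perm_inv, inv_inr, hσ.ib]
      rfl

/-- induction over the group: properties stable under left multiplication by letters -/
theorem grp_induction {C : D.Grp → Prop} (h1 : C 1)
    (h2 : ∀ x g, C g → C (el D x * g)) (g : D.Grp) : C g := by
  have key : ∀ z : FreeGroup (H ⊕ V), ∀ g, C g → C (PresentedGroup.mk (Set.range D.word) z * g) := by
    intro z
    induction z using FreeGroup.induction_on with
    | C1 => intro g hg; rwa [map_one, one_mul]
    | of c =>
      intro g hg
      have h := h2 (ofL (c, true)) g hg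
      have h3 : el D (ofL (c, true)) = PresentedGroup.mk (Set.range D.word) (FreeGroup.of c) := by
        rw [el, toL_ofL]; rfl
      rwa [h3] at h
    | inv_of c _ =>
      intro g hg
      have h := h2 (ofL (c, false)) g hg
      have h3 : el D (ofL (c, false)) =
          PresentedGroup.mk (Set.range D.word) (FreeGroup.of c)⁻¹ := by
        rw [el, toL_ofL]; rfl
      rwa [h3] at h
    | mul x y hx hy =>
      intro g hg
      rw [map_mul, mul_assoc]
      exact hx _ (hy _ hg)
  induction g using PresentedGroup.induction_on with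
  | _ z => simpa using key z 1 h1

/-- the normal form -/
noncomputable def nf (g : D.Grp) : List ((H × Bool) ⊕ (V × Bool)) :=
  (act hσ g ⟨[], trivial⟩).1

theorem nf_NF (g : D.Grp) : σ.NF (nf hσ g) := (act hσ g ⟨[], trivial⟩).2

theorem nf_mul (x : (H × Bool) ⊕ (V × Bool)) (g : D.Grp) :
    nf hσ (el D x * g) = σ.star x (nf hσ g) := by
  rw [nf, map_mul, act_el]
  rfl

theorem nf_one : nf hσ (1 : D.Grp) = [] := by
  rw [nf, map_one]
  rfl

theorem val_nf (g : D.Grp) : val D (nf hσ g) = g := by
  induction g using grp_induction hσ with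
  | h1 => rw [nf_one]; rfl
  | h2 x g ih => rw [nf_mul, val_star hσ, ih]

theorem nf_val (w : List ((H × Bool) ⊕ (V × Bool))) (hw : σ.NF w) : nf hσ (val D w) = w := by
  induction w with
  | nil => exact nf_one hσ
  | cons x w ih => rw [val_cons, nf_mul, ih (NF_tail σ hw), star_cons σ x w hw]

theorem nf_back (u : List ((H × Bool) ⊕ (V × Bool))) : ∀ g : D.Grp,
    nf hσ ((val D u)⁻¹ * g) = back σ u (nf hσ g) := by
  induction u with
  | nil => intro g; simp [val, back]
  | cons x u ih =>
    intro g
    rw [val_cons, mul_inv_rev, mul_assoc, ih, ← el_inv hσ, nf_mul]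
    rfl

/-- the vertical length -/
noncomputable def LV (g : D.Grp) : ℕ := vc (nf hσ g)

/-- the fundamental equation -/
theorem LV_eq (g h : D.Grp) :
    LV hσ (g⁻¹ * h) + 2 * cpv (nf hσ g) (nf hσ h) = LV hσ g + LV hσ h := by
  have h1 : nf hσ (g⁻¹ * h) = back σ (nf hσ g) (nf hσ h) := by
    rw [← nf_back, val_nf]
  rw [LV, h1]
  exact vc_back σ _ _ (nf_NF hσ g) (nf_NF hσ h)

theorem LV_one : LV hσ (1 : D.Grp) = 0 := by
  rw [LV, nf_one]; rfl

theorem LV_inv (g : D.Grp) : LV hσ g⁻¹ = LV hσ g := by
  have h := LV_eq hσ g 1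
  rw [mul_one, nf_one, cpv_nil, LV_one] at h
  simpa using h

theorem LV_inl (a : H × Bool) (g : D.Grp) : LV hσ (el D (Sum.inl a) * g) = LV hσ g := by
  rw [LV, nf_mul]
  exact vc_starA σ _ a (nf_NF hσ g)

theorem LV_inr (b : V × Bool) (g : D.Grp) :
    LV hσ (el D (Sum.inr b) * g) = LV hσ g + 1 ∨ LV hσ (el D (Sum.inr b) * g) + 1 = LV hσ g := by
  rw [LV, nf_mul]
  exact vc_pushB σ b _

theorem LV_left (f : D.Grp) (hf : f ∈ D.FH) (g : D.Grp) : LV hσ (f * g) = LV hσ g := by
  have key : ∀ f ∈ D.FH, ∀ g, LV hσ (f * g) = LV hσ g := by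
    intro f hf
    induction hf using Subgroup.closure_induction with
    | mem x hx =>
      obtain ⟨a, rfl⟩ := hx
      intro g
      exact LV_inl hσ (a, true) g
    | one => intro g; rw [one_mul]
    | mul x y _ _ hx hy => intro g; rw [mul_assoc, hx, hy]
    | inv x _ hx =>
      intro g
      have := hx (x⁻¹ * g)
      rw [mul_inv_cancel_left] at this
      exact this.symm
  exact key f hf g

theorem val_mem (w : List ((H × Bool) ⊕ (V × Bool))) (hw : vc w = 0) : val D w ∈ D.FH := by
  induction w with
  | nil => exact D.FH.one_mem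
  | cons x w ih =>
    cases x with
    | inl a =>
      rw [val_cons]
      refine D.FH.mul_mem ?_ (ih hw)
      have h1 : (PresentedGroup.of (Sum.inl a.1) : D.Grp) ∈ D.FH :=
        Subgroup.subset_closure ⟨a.1, rfl⟩
      obtain ⟨a, e⟩ := a
      cases e with
      | true => exact h1
      | false => exact D.FH.inv_mem h1
    | inr b => simp [vc] at hw

theorem LV_zero (g : D.Grp) : LV hσ g = 0 ↔ g ∈ D.FH := by
  constructor
  · intro h
    rw [← val_nf hσ g]
    exact val_mem hσ _ h
  · intro h
    have := LV_left hσ g h 1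
    rwa [mul_one, LV_one] at this

omit hσ in
theorem split (w : List ((H × Bool) ⊕ (V × Bool))) (hw : vc w ≠ 0) :
    ∃ f b w', w = f ++ Sum.inr b :: w' ∧ vc f = 0 := by
  induction w with
  | nil => exact absurd rfl hw
  | cons x w ih =>
    cases x with
    | inl a =>
      obtain ⟨f, b, w', h1, h2⟩ := ih hw
      exact ⟨Sum.inl a :: f, b, w', by rw [h1]; rfl, h2⟩
    | inr b => exact ⟨[], b, w, rfl, rfl⟩

omit hσ in
theorem vc_append (u w : List ((H × Bool) ⊕ (V × Bool))) : vc (u ++ w) = vc u + vc w := by
  induction u with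
  | nil => simp [vc]
  | cons x u ih =>
    cases x with
    | inl a => simpa [vc] using ih
    | inr b =>
      simp only [List.cons_append, vc, ih]
      omega

omit hσ in
theorem NF_suffix (σ : Sys (H × Bool) (V × Bool)) (u w : List ((H × Bool) ⊕ (V × Bool)))
    (h : σ.NF (u ++ w)) : σ.NF w := by
  induction u with
  | nil => exact h
  | cons x u ih => exact ih (NF_tail σ h)

theorem LV_step (g : D.Grp) (hg : LV hσ g ≠ 0) : ∃ f ∈ D.FH, ∃ (b : V) (ε : Bool),
    LV hσ ((f * D.gen (Sum.inr b, ε))⁻¹ * g) + 1 = LV hσ g := by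
  obtain ⟨f, b, w', h1, h2⟩ := split (nf hσ g) hg
  refine ⟨val D f, val_mem hσ f h2, b.1, b.2, ?_⟩
  have h3 : g = val D f * (el D (Sum.inr b) * val D w') := by
    have := val_nf hσ g
    rw [h1] at this
    rw [← this]
    simp [val]
  have h4 : (val D f * D.gen (Sum.inr b.1, b.2))⁻¹ * g = val D w' := by
    have h5 : D.gen (Sum.inr b.1, b.2) = el D (Sum.inr b) := rfl
    rw [h3, h5]
    group
  have h6 : σ.NF w' := by
    have := nf_NF hσ g
    rw [h1] at this
    exact NF_tail σ (NF_suffix σ f _ this)
  rw [h4, LV, LV, nf_val hσ w' h6, h1, vc_append, h2]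
  simp only [vc]
  omega

omit hσ in
theorem NF_inr (hσ : Comp D σ) (L : List (V × Bool)) (hL : FreeGroup.IsReduced L) :
    σ.NF (L.map Sum.inr) := by
  induction L with
  | nil => exact trivial
  | cons x L ih =>
    cases L with
    | nil => exact trivial
    | cons y L =>
      rw [FreeGroup.isReduced_cons_cons] at hL
      refine ⟨?_, ?_, ih hL.2⟩
      · intro h
        rw [inv_inr, hσ.ib] at h
        injection h with h
        have h1 := hL.1 (by rw [h])
        rw [h] at h1
        simp at h1
      · intro a b h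
        cases h

theorem LV_word (w : FreeGroup V) :
    LV hσ (FreeGroup.lift (fun b => (PresentedGroup.of (Sum.inr b) : D.Grp)) w) =
      FreeGroup.norm w := by
  have h1 : FreeGroup.lift (fun b => (PresentedGroup.of (Sum.inr b) : D.Grp)) w =
      val D (w.toWord.map Sum.inr) := by
    conv_lhs => rw [← FreeGroup.mk_toWord (x := w)]
    rw [FreeGroup.lift_mk, val, List.map_map]
    congr 1
    apply List.map_congr_left
    rintro ⟨b, e⟩ _
    cases e <;> rfl
  rw [h1, LV, nf_val hσ _ (NF_inr hσ _ FreeGroup.isReduced_toWord), FreeGroup.norm]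
  generalize w.toWord = L
  induction L with
  | nil => rfl
  | cons x L ih => simp [vc, ih]

theorem isLV : IsLV D (LV hσ) where
  zero := LV_zero hσ
  inv := LV_inv hσ
  left := fun f hf g => LV_left hσ f hf g
  four := by
    intro a b c d
    have e1 : ∀ x y z : D.Grp, x⁻¹ * y = (z⁻¹ * x)⁻¹ * (z⁻¹ * y) := by
      intro x y z; group
    rw [e1 c d a, e1 b d a, e1 b c a]
    set x := a⁻¹ * b
    set y := a⁻¹ * c
    set z := a⁻¹ * d
    have h1 := LV_eq hσ y z
    have h2 := LV_eq hσ x z
    have h3 := LV_eq hσ x y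
    have h4 := cpv_min (nf hσ x) (nf hσ y) (nf hσ z)
    omega
  step := LV_step hσ
  gen := fun b ε g => LV_inr hσ (b, ε) g
  word := fun w => by
    have := LV_word hσ w
    convert this

omit hσ in
theorem filter_vc (w : List ((H × Bool) ⊕ (V × Bool))) :
    ((w.map toL).filter isV).length = vc w ∧
      ((w.map toL).filter fun c => !isV c).length = hc w := by
  induction w with
  | nil => exact ⟨rfl, rfl⟩
  | cons x w ih =>
    cases x with
    | inl a =>
      constructor
      · have h1 : ((Sum.inl a :: w).map toL).filter isV = (w.map toL).filter isV := rfl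
        rw [h1, ih.1]
        rfl
      · have h1 : (((Sum.inl a :: w).map toL).filter fun c => !isV c) =
            toL (Sum.inl a) :: ((w.map toL).filter fun c => !isV c) := rfl
        rw [h1, List.length_cons, ih.2]
        rfl
    | inr b =>
      constructor
      · have h1 : ((Sum.inr b :: w).map toL).filter isV =
            toL (Sum.inr b) :: (w.map toL).filter isV := rfl
        rw [h1, List.length_cons, ih.1]
        rfl
      · have h1 : (((Sum.inr b :: w).map toL).filter fun c => !isV c) =
            ((w.map toL).filter fun c => !isV c) := rfl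
        rw [h1, ih.2]
        rfl

theorem hc_bound (l : List ((H ⊕ V) × Bool)) :
    hc (nf hσ (l.map D.gen).prod) ≤ (l.filter fun c => !isV c).length := by
  induction l with
  | nil => simp [nf_one, hc]
  | cons c l ih =>
    rw [List.map_cons, List.prod_cons]
    have h1 : D.gen c = el D (ofL c) := by rw [el, toL_ofL]
    rw [h1, nf_mul]
    obtain ⟨a | b, e⟩ := c
    · have h2 := hc_starA σ (nf hσ (l.map D.gen).prod) (a, e) (nf_NF hσ _)
      have h3 : (List.filter (fun c => !isV c) ((Sum.inl a, e) :: l)).length =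
          (List.filter (fun c => !isV c) l).length + 1 := by
        rfl
      rw [h3]
      exact h2.trans (Nat.succ_le_succ ih)
    · have h2 := hc_pushB σ (b, e) (nf hσ (l.map D.gen).prod)
      have h3 : (List.filter (fun c => !isV c) ((Sum.inr b, e) :: l)).length =
          (List.filter (fun c => !isV c) l).length := by
        rfl
      rw [h3]
      exact h2.le.trans ih

end grp

end LVNX

open LVNX in
theorem lvn_proof : Stmt_LVN := by
  classical
  intro H V S D
  obtain ⟨σ, h1, h2, h3, h4⟩ := sys_proof H V S D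
  have hσ : Comp D σ := ⟨h1, h2, h3, h4⟩
  refine ⟨LV hσ, isLV hσ, fun g => ⟨(nf hσ g).map toL, ?_, ?_, ?_⟩⟩
  · have := val_nf hσ g
    rw [List.map_map]
    exact this
  · exact (filter_vc _).1
  · intro l' hl'
    rw [(filter_vc _).2, ← hl']
    exact hc_bound hσ l'

end Pool.Agent.SD
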