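import Mathlib
import Pool.Agent.SD.Cat

/-!
# Squad SD, module RT: realisations of integer trees

The points of the realisation are the functions `f_{x,y,r}(v) = max (n x v - r) (n y v - n x y + r)`
(the distance to the point at distance `r` from `x` on `[x, y]`), with the sup metric.
-/

set_option autoImplicit false

namespace Pool.Agent.SD
namespace RT

variable {U : Type} {n : U → U → ℕ}

/-- The distance to the point at distance `r` from `x` on `[x, y]`. -/
noncomputable def fn (n : U → U → ℕ) (x y : U) (r : ℝ) (v : U) : ℝ :=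
  max ((n x v : ℝ) - r) ((n y v : ℝ) - n x y + r)

/-- The points of the realisation. -/
abbrev Pt (n : U → U → ℕ) : Type :=
  {f : U → ℝ // ∃ x y r, 0 ≤ r ∧ r ≤ (n x y : ℝ) ∧ f = fn n x y r}

theorem fourR (h : IsTreeM n) (x y z w : U) : (n x y : ℝ) + n z w ≤
    max ((n x z : ℝ) + n y w) ((n x w : ℝ) + n y z) := by
  exact_mod_cast h.four x y z w

theorem selfR (h : IsTreeM n) (x : U) : (n x x : ℝ) = 0 := by
  exact_mod_cast h.self x

theorem symmR (h : IsTreeM n) (x y : U) : (n x y : ℝ) = n y x := by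
  exact_mod_cast h.symm x y

theorem triR (h : IsTreeM n) (x y z : U) : (n x z : ℝ) ≤ n x y + n y z := by
  have h1 := fourR h x z y y
  rw [selfR h, symmR h z y] at h1
  simpa using h1

theorem fn_left (h : IsTreeM n) {x y : U} {r : ℝ} (h0 : 0 ≤ r) : fn n x y r x = r := by
  unfold fn
  rw [selfR h, symmR h y x]
  rw [max_eq_right (by linarith)]
  ring

theorem fn_right (h : IsTreeM n) {x y : U} {r : ℝ} (h1 : r ≤ (n x y : ℝ)) :
    fn n x y r y = n x y - r := by
  unfold fn
  rw [selfR h]
  rw [max_eq_left (by linarith)]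

theorem fn_swap (h : IsTreeM n) (x y : U) (r : ℝ) : fn n y x ((n x y : ℝ) - r) = fn n x y r := by
  funext v
  unfold fn
  rw [symmR h y x, max_comm]
  congr 1 <;> ring

/-- `f u + f v ≥ n u v`. -/
theorem add_ge (h : IsTreeM n) (f : Pt n) (u v : U) : (n u v : ℝ) ≤ f.1 u + f.1 v := by
  obtain ⟨f, a, b, s, h0, h1, rfl⟩ := f
  simp only
  have h4 := fourR h u v a b
  have e1 := symmR h a u
  have e2 := symmR h b v
  have e3 := symmR h b u
  have e4 := symmR h a v
  have k1 : (n a u : ℝ) - s ≤ fn n a b s u := le_max_left _ _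
  have k2 : (n b u : ℝ) - n a b + s ≤ fn n a b s u := le_max_right _ _
  have k3 : (n a v : ℝ) - s ≤ fn n a b s v := le_max_left _ _
  have k4 : (n b v : ℝ) - n a b + s ≤ fn n a b s v := le_max_right _ _
  rcases le_max_iff.1 h4 with h5 | h5 <;> linarith

theorem nonneg (h : IsTreeM n) (f : Pt n) (u : U) : 0 ≤ f.1 u := by
  have := add_ge h f u u
  rw [selfR h] at this
  linarith

/-- The four point inequality with one point in the realisation. -/
theorem fourP (h : IsTreeM n) (f : Pt n) (x y v : U) :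
    f.1 v + n x y ≤ max (f.1 x + n y v) (f.1 y + n x v) := by
  obtain ⟨f, a, b, s, h0, h1, rfl⟩ := f
  simp only
  have kx1 : (n a x : ℝ) - s ≤ fn n a b s x := le_max_left _ _
  have kx2 : (n b x : ℝ) - n a b + s ≤ fn n a b s x := le_max_right _ _
  have ky1 : (n a y : ℝ) - s ≤ fn n a b s y := le_max_left _ _
  have ky2 : (n b y : ℝ) - n a b + s ≤ fn n a b s y := le_max_right _ _
  have e1 := symmR h v y
  have e2 := symmR h v x
  rcases le_total ((n a v : ℝ) - s) ((n b v : ℝ) - n a b + s) with hc | hc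
  · have e : fn n a b s v = (n b v : ℝ) - n a b + s := max_eq_right hc
    rw [e]
    rcases le_max_iff.1 (fourR h b v x y) with h5 | h5
    · exact le_max_of_le_left (by linarith)
    · exact le_max_of_le_right (by linarith)
  · have e : fn n a b s v = (n a v : ℝ) - s := max_eq_left hc
    rw [e]
    rcases le_max_iff.1 (fourR h a v x y) with h5 | h5
    · exact le_max_of_le_left (by linarith)
    · exact le_max_of_le_right (by linarith)

/-- The distance of `g` and `f_{x,y,r}` at every vertex. -/
theorem abs_le' (h : IsTreeM n) (g : Pt n) (x y : U) (r : ℝ) (v : U) :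
    |g.1 v - fn n x y r v| ≤ max (g.1 x - r) (g.1 y - n x y + r) := by
  have k1 : (n x v : ℝ) - r ≤ fn n x y r v := le_max_left _ _
  have k2 : (n y v : ℝ) - n x y + r ≤ fn n x y r v := le_max_right _ _
  rw [abs_le]
  constructor
  · rcases le_total ((n x v : ℝ) - r) ((n y v : ℝ) - n x y + r) with hc | hc
    · have e : fn n x y r v = (n y v : ℝ) - n x y + r := max_eq_right hc
      have := add_ge h g y v
      have h3 : g.1 y - n x y + r ≤ max (g.1 x - r) (g.1 y - n x y + r) := le_max_right _ _
      rw [e]; linarith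
    · have e : fn n x y r v = (n x v : ℝ) - r := max_eq_left hc
      have := add_ge h g x v
      have h3 : g.1 x - r ≤ max (g.1 x - r) (g.1 y - n x y + r) := le_max_left _ _
      rw [e]; linarith
  · rcases le_max_iff.1 (fourP h g x y v) with h5 | h5
    · exact le_max_of_le_left (by linarith)
    · exact le_max_of_le_right (by linarith)

/-- The sup distance. -/
noncomputable def D (f g : Pt n) : ℝ := ⨆ v, |f.1 v - g.1 v|

theorem bdd (h : IsTreeM n) (f g : Pt n) : BddAbove (Set.range fun v => |f.1 v - g.1 v|) := by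
  obtain ⟨g, x, y, r, h0, h1, rfl⟩ := g
  exact ⟨_, by rintro _ ⟨v, rfl⟩; exact abs_le' h f x y r v⟩

theorem le_D (h : IsTreeM n) (f g : Pt n) (v : U) : |f.1 v - g.1 v| ≤ D f g :=
  le_ciSup (bdd h f g) v

theorem D_le (f g : Pt n) {M : ℝ} (hM : ∀ v, |f.1 v - g.1 v| ≤ M) : D f g ≤ M := by
  have : Nonempty U := by
    obtain ⟨_, x, _⟩ := f
    exact ⟨x⟩
  exact ciSup_le hM

theorem D_eq (h : IsTreeM n) (g c : Pt n) (x y : U) (r : ℝ) (h0 : 0 ≤ r) (h1 : r ≤ (n x y : ℝ))
    (hc : c.1 = fn n x y r) : D g c = max (g.1 x - r) (g.1 y - n x y + r) := by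
  apply le_antisymm
  · apply D_le
    intro v
    rw [hc]
    exact abs_le' h g x y r v
  · apply max_le
    · have := le_D h g c x
      rw [hc, fn_left h h0] at this
      exact (le_abs_self _).trans this
    · have := le_D h g c y
      rw [hc, fn_right h h1] at this
      have h2 := (le_abs_self _).trans this
      linarith

/-- The metric of the realisation. -/
@[reducible] noncomputable def metric (h : IsTreeM n) : MetricSpace (Pt n) where
  dist := D
  dist_self f := by
    apply le_antisymm
    · exact D_le f f (fun v => by simp)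
    · obtain ⟨_, x, _⟩ := id f
      exact (abs_nonneg _).trans (le_D h f f x)
  dist_comm f g := by
    unfold D
    congr 1
    funext v
    exact abs_sub_comm _ _
  dist_triangle f g k := by
    apply D_le
    intro v
    exact (abs_sub_le _ (g.1 v) _).trans (add_le_add (le_D h f g v) (le_D h g k v))
  eq_of_dist_eq_zero {f g} hfg := by
    change D f g = 0 at hfg
    apply Subtype.ext
    funext v
    have := le_D h f g v
    rw [hfg] at this
    have h2 := abs_nonpos_iff.1 this
    linarith

/-- The vertices. -/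
noncomputable def io (n : U → U → ℕ) (x : U) : Pt n :=
  ⟨fn n x x 0, x, x, 0, le_rfl, Nat.cast_nonneg _, rfl⟩

theorem io_apply (h : IsTreeM n) (x v : U) : (io n x).1 v = n x v := by
  simp [io, fn, selfR h]

theorem D_io (h : IsTreeM n) (f : Pt n) (x : U) : D f (io n x) = f.1 x := by
  rw [D_eq h f (io n x) x x 0 le_rfl (Nat.cast_nonneg _) rfl]
  simp [selfR h]

theorem D_comm (f g : Pt n) : D f g = D g f := by
  unfold D
  congr 1
  funext v
  exact abs_sub_comm _ _

/-- Vertices on a geodesic. -/
theorem exists_vertex (h : IsTreeM n) (x y : U) (k : ℕ) : k ≤ n x y →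
    ∃ z, n x z = k ∧ n z y + k = n x y := by
  induction k with
  | zero => intro _; exact ⟨x, h.self x, rfl⟩
  | succ k ih =>
    intro hk
    obtain ⟨z, h1, h2⟩ := ih (by omega)
    obtain ⟨z', h3, h4⟩ := h.step z y (by omega)
    have t1 : n x z' ≤ n x z + n z z' := by exact_mod_cast triR h x z z'
    have t2 : n x y ≤ n x z' + n z' y := by exact_mod_cast triR h x z' y
    exact ⟨z', by omega, by omega⟩

/-- Every point is on an edge. -/
theorem edge (h : IsTreeM n) (p : Pt n) :
    ∃ x y, n x y ≤ 1 ∧ p.1 x + p.1 y = n x y := by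
  obtain ⟨f, x, y, r, h0, h1, rfl⟩ := p
  simp only
  rcases eq_or_lt_of_le h1 with h2 | h2
  · refine ⟨y, y, by rw [h.self]; omega, ?_⟩
    rw [fn_right h h1, selfR h, h2]
    ring
  · have hk0 : (⌊r⌋₊ : ℝ) ≤ r := Nat.floor_le h0
    have hk1 : r < (⌊r⌋₊ : ℝ) + 1 := Nat.lt_floor_add_one r
    set k := ⌊r⌋₊ with hk
    have hkn : k < n x y := by
      have : (k : ℝ) < n x y := lt_of_le_of_lt hk0 h2
      exact_mod_cast this
    obtain ⟨z, z1, z2⟩ := exists_vertex h x y k hkn.le
    obtain ⟨z', z3, z4⟩ := h.step z y (by omega)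
    have t1 : n x z' ≤ n x z + n z z' := by exact_mod_cast triR h x z z'
    have t2 : n x y ≤ n x z' + n z' y := by exact_mod_cast triR h x z' y
    have z5 : n x z' = k + 1 := by omega
    have z6 : n y z + k = n x y := by rw [h.symm y z]; exact z2
    have z7 : n y z' + (k + 1) = n x y := by rw [h.symm y z']; omega
    refine ⟨z, z', z3.le, ?_⟩
    have e1 : fn n x y r z = r - k := by
      unfold fn
      have : (n y z : ℝ) = n x y - k := by rw [← z6]; push_cast; ring
      rw [this, z1, max_eq_right (by linarith)]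
      ring
    have e2 : fn n x y r z' = k + 1 - r := by
      unfold fn
      have : (n y z' : ℝ) = n x y - (k + 1) := by rw [← z7]; push_cast; ring
      rw [this, z5, max_eq_left (by push_cast; linarith)]
      push_cast; ring
    rw [e1, e2, z3]
    push_cast; ring

/-- The point dividing `[p, q]`. -/
theorem tp (h : IsTreeM n) (p q : Pt n) (t : ℝ) (t0 : 0 ≤ t) (t1 : t ≤ 1) :
    ∃ m : Pt n, ∀ z : Pt n, D z m ≤ max (D z p - t * D p q) (D z q - (1 - t) * D p q) := by
  -- a vertex `x` with `q x = p x + D p q`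
  have hx : ∃ x, q.1 x = p.1 x + D p q := by
    obtain ⟨x, y, r, h0, h1, hp⟩ := p.2
    have e := D_eq h q p x y r h0 h1 hp
    rw [D_comm] at e
    rcases max_choice (q.1 x - r) (q.1 y - n x y + r) with hc | hc
    · refine ⟨x, ?_⟩
      rw [e, hc, hp, fn_left h h0]; ring
    · refine ⟨y, ?_⟩
      rw [e, hc, hp, fn_right h h1]; ring
  obtain ⟨x, hx⟩ := hx
  -- a vertex `b` with `n x b = q x + q b`
  have hb : ∃ b, (n x b : ℝ) = q.1 x + q.1 b := by
    obtain ⟨a, b, s, h0, h1, hq⟩ := q.2
    rcases max_choice ((n a x : ℝ) - s) ((n b x : ℝ) - n a b + s) with hc | hc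
    · refine ⟨a, ?_⟩
      have e : q.1 x = (n a x : ℝ) - s := by rw [hq]; exact hc
      rw [e, hq, fn_left h h0, symmR h x a]; ring
    · refine ⟨b, ?_⟩
      have e : q.1 x = (n b x : ℝ) - n a b + s := by rw [hq]; exact hc
      rw [e, hq, fn_right h h1, symmR h x b]; ring
  obtain ⟨b, hb⟩ := hb
  have hpx := nonneg h p x
  have hqb := nonneg h q b
  have hD : 0 ≤ D p q := (abs_nonneg _).trans (le_D h p q x)
  have htD : t * D p q ≤ D p q := mul_le_of_le_one_left hD t1
  have htD0 : 0 ≤ t * D p q := mul_nonneg t0 hD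
  have r0 : 0 ≤ p.1 x + t * D p q := by linarith
  have r1 : p.1 x + t * D p q ≤ (n x b : ℝ) := by linarith
  refine ⟨⟨fn n x b (p.1 x + t * D p q), x, b, _, r0, r1, rfl⟩, fun z => ?_⟩
  rw [D_eq h z ⟨fn n x b (p.1 x + t * D p q), x, b, _, r0, r1, rfl⟩ x b _ r0 r1 rfl]
  apply max_le
  · apply le_max_of_le_left
    have := (le_abs_self _).trans (le_D h z p x)
    linarith
  · apply le_max_of_le_right
    have := (le_abs_self _).trans (le_D h z q b)
    nlinarith

/-- The group action. -/
@[reducible] noncomputable def act {G : Type} [Group G] [MulAction G U]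
    (hg : ∀ (g : G) (x y : U), n (g • x) (g • y) = n x y) : MulAction G (Pt n) where
  smul g f := ⟨fun v => f.1 (g⁻¹ • v), by
    obtain ⟨f, x, y, r, h0, h1, rfl⟩ := f
    refine ⟨g • x, g • y, r, h0, by rw [hg]; exact h1, ?_⟩
    funext v
    have e (x : U) : n (g • x) v = n x (g⁻¹ • v) := by
      rw [← hg g x (g⁻¹ • v), smul_inv_smul]
    simp only [fn, hg, e]⟩
  one_smul f := by
    apply Subtype.ext
    funext v
    change f.1 ((1 : G)⁻¹ • v) = f.1 v
    simp
  mul_smul g k f := by
    apply Subtype.ext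
    funext v
    change f.1 ((g * k)⁻¹ • v) = f.1 (k⁻¹ • g⁻¹ • v)
    rw [mul_inv_rev, mul_smul]

end RT

theorem rt_proof : Stmt_RT := by
  intro U G _ _ n h hg
  refine ⟨RT.Pt n, RT.metric h, RT.act hg, RT.io n, ?_, ?_, ?_⟩
  · refine @IsReal.mk U n (RT.Pt n) (RT.metric h) (RT.io n) ?_ ?_ ?_
    · intro x y
      change RT.D (RT.io n x) (RT.io n y) = n x y
      rw [RT.D_io h, RT.io_apply h]
    · intro p q t t0 t1
      exact RT.tp h p q t t0 t1
    · intro p
      obtain ⟨x, y, h1, h2⟩ := RT.edge h p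
      refine ⟨x, y, h1, ?_⟩
      change RT.D (RT.io n x) p + RT.D p (RT.io n y) = n x y
      rw [RT.D_comm, RT.D_io h, RT.D_io h]
      exact h2
  · intro g p q
    let _ := RT.act hg
    change RT.D (g • p) (g • q) = RT.D p q
    apply le_antisymm
    · apply RT.D_le
      intro v
      exact RT.le_D h p q (g⁻¹ • v)
    · apply RT.D_le
      intro v
      have h1 := RT.le_D h (g • p) (g • q) (g • v)
      change |p.1 (g⁻¹ • g • v) - q.1 (g⁻¹ • g • v)| ≤ _ at h1
      rwa [inv_smul_smul] at h1
  · intro g x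
    apply Subtype.ext
    funext v
    rw [RT.io_apply h]
    change (n (g • x) v : ℝ) = (RT.io n x).1 (g⁻¹ • v)
    rw [RT.io_apply h, ← hg g x (g⁻¹ • v), smul_inv_smul]

end Pool.Agent.SD
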