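import Mathlib
import Pool.Agent.SD.Cat

/-!
# Squad SD, module ST: the square complex of `STData` is a CAT(0) space with a geometric action
-/

set_option autoImplicit false

namespace Pool.Agent.SD
namespace ST

open Filter

/-- Reduction of `CATGroup` to a pseudometric function on a `G`-set. -/
theorem core (G : Type) [Group G] (Z : Type) [MulAction G Z] (d : Z → Z → ℝ) (hd : IsPM d)
    (sep : ∀ x y, d x y = 0 → x = y) (hcat : CATon d Set.univ) (hne : Nonempty Z)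
    (hiso : ∀ (g : G) (x y : Z), d (g • x) (g • y) = d x y)
    (hprop : ∀ x : Z, {g : G | ∃ y, d y x < 1 ∧ d (g • y) x < 1}.Finite)
    (J : Type) [Finite J] (C : J → Set Z)
    (hC : ∀ j, ∀ a : ℕ → Z, (∀ n, a n ∈ C j) → ∃ b ∈ C j, ∃ φ : ℕ → ℕ, StrictMono φ ∧
      Tendsto (fun n => d (a (φ n)) b) atTop (nhds 0))
    (hcov : ∀ z : Z, ∃ (g : G) (j : J), g • z ∈ C j) : CATGroup G := by
  let m : MetricSpace Z :=
    { dist := d
      dist_self := hd.self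
      dist_comm := hd.symm
      dist_triangle := hd.tri
      eq_of_dist_eq_zero := fun {x y} h => sep x y h }
  have hdist : ∀ x y : Z, dist x y = d x y := fun x y => rfl
  refine ⟨Z, m, inferInstance, hne, ?_, ?_, ?_, ?_⟩
  · intro x y t h0 h1
    obtain ⟨p, -, hp⟩ := hcat x (Set.mem_univ x) y (Set.mem_univ y) t h0 h1
    exact ⟨p, fun z => hp z (Set.mem_univ z)⟩
  · intro g x y
    exact hiso g x y
  · intro x
    refine ⟨1, one_pos, (hprop x).subset ?_⟩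
    rintro g ⟨y, hy, hgy⟩
    exact ⟨y, by simpa [hdist] using hy, by simpa [hdist] using hgy⟩
  · refine ⟨⋃ j, C j, isCompact_iUnion fun j => ?_, fun z => ?_⟩
    · apply IsSeqCompact.isCompact
      intro a ha
      obtain ⟨b, hb, φ, hφ, ht⟩ := hC j a ha
      exact ⟨b, hb, φ, hφ, tendsto_iff_dist_tendsto_zero.2 ht⟩
    · obtain ⟨g, j, h⟩ := hcov z
      exact ⟨g, Set.mem_iUnion.2 ⟨j, h⟩⟩

/-- Segments of length at most one are compact. -/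
theorem segCompact (h : Stmt_Hull) (U Y : Type) [MetricSpace Y] (n : U → U → ℕ) (ι : U → Y)
    (hn : IsTreeM n) (hr : IsReal n Y ι) (u w : U) (huw : n u w ≤ 1) :
    IsCompact {p : Y | dist (ι u) p + dist p (ι w) = n u w} := by
  obtain ⟨-, -, -, h4, -⟩ := h U Y n ι hn hr
  have hsp := h4 {u, w} (fun x _ R => by
    apply Set.Finite.subset (s := {u, w}) (Set.toFinite _)
    rintro y ⟨hy, -⟩
    exact hy)
  have hcl : IsClosed {p : Y | dist (ι u) p + dist p (ι w) = n u w} :=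
    isClosed_eq (by fun_prop) (by fun_prop)
  apply IsSeqCompact.isCompact
  intro a ha
  obtain ⟨b, -, φ, hφ, ht⟩ := hsp (ι u) (n u w) a (fun k => by
    have hk : dist (ι u) (a k) + dist (a k) (ι w) = n u w := ha k
    refine ⟨⟨u, by simp, w, by simp, huw, hk⟩, ?_⟩
    have := dist_nonneg (x := a k) (y := ι w)
    simp only
    linarith)
  have ht' : Tendsto (a ∘ φ) atTop (nhds b) := tendsto_iff_dist_tendsto_zero.2 ht
  exact ⟨b, hcl.mem_of_tendsto ht' (Eventually.of_forall fun k => ha (φ k)), φ, hφ, ht'⟩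

theorem DD2_nonneg {Y₁ Y₂ : Type} [MetricSpace Y₁] [MetricSpace Y₂] (p q : Y₁ × Y₂) :
    0 ≤ DD2 p q := Real.sqrt_nonneg _

theorem dist_fst_le {Y₁ Y₂ : Type} [MetricSpace Y₁] [MetricSpace Y₂] (p q : Y₁ × Y₂) :
    dist p.1 q.1 ≤ DD2 p q := by
  unfold DD2
  apply Real.le_sqrt_of_sq_le
  nlinarith [sq_nonneg (dist p.2 q.2)]

theorem dist_snd_le {Y₁ Y₂ : Type} [MetricSpace Y₁] [MetricSpace Y₂] (p q : Y₁ × Y₂) :
    dist p.2 q.2 ≤ DD2 p q := by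
  unfold DD2
  apply Real.le_sqrt_of_sq_le
  nlinarith [sq_nonneg (dist p.1 q.1)]

theorem eq_of_DD2 {Y₁ Y₂ : Type} [MetricSpace Y₁] [MetricSpace Y₂] (p q : Y₁ × Y₂)
    (h : DD2 p q ≤ 0) : p = q := by
  have h1 := dist_fst_le p q
  have h2 := dist_snd_le p q
  have e1 : p.1 = q.1 := dist_le_zero.1 (h1.trans h)
  have e2 : p.2 = q.2 := dist_le_zero.1 (h2.trans h)
  exact Prod.ext e1 e2

/-- Pieces are mapped to pieces. -/
theorem piece_smul {G : Type} [Group G] (σ : STData G) {Y₁ Y₂ : Type} [MetricSpace Y₁]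
    [MetricSpace Y₂] [MulAction G Y₁] [MulAction G Y₂] (ι₁ : σ.U₁ → Y₁) (ι₂ : σ.U₂ → Y₂)
    (i1 : ∀ (g : G) (p q : Y₁), dist (g • p) (g • q) = dist p q)
    (i2 : ∀ (g : G) (p q : Y₂), dist (g • p) (g • q) = dist p q)
    (e1 : ∀ (g : G) (x : σ.U₁), ι₁ (g • x) = g • ι₁ x)
    (e2 : ∀ (g : G) (x : σ.U₂), ι₂ (g • x) = g • ι₂ x) (g : G) (u w : σ.U₁) (p : Y₁ × Y₂)
    (hp : p ∈ STpiece σ ι₁ ι₂ u w) :
    ((g • p.1, g • p.2) : Y₁ × Y₂) ∈ STpiece σ ι₁ ι₂ (g • u) (g • w) := by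
  obtain ⟨h1, h2, h3⟩ := hp
  have hh : ∀ v : σ.U₁, p.2 ∈ hull σ.n₂ ι₂ (σ.F v) →
      g • p.2 ∈ hull σ.n₂ ι₂ (σ.F (g • v)) := by
    rintro v ⟨x, hx, y, hy, hxy, hd⟩
    refine ⟨g • x, σ.F_smul g v x hx, g • y, σ.F_smul g v y hy, ?_, ?_⟩
    · rw [σ.inv₂]; exact hxy
    · rw [e2, e2, i2, i2, σ.inv₂]; exact hd
  refine ⟨?_, hh u h2, hh w h3⟩
  show dist (ι₁ (g • u)) (g • p.1) + dist (g • p.1) (ι₁ (g • w)) = σ.n₁ (g • u) (g • w)
  rw [e1, e1, i1, i1, σ.inv₁]; exact h1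

end ST

open Pool.Agent.SD.ST in
theorem st_proof (h : Stmt_ST1) (h' : Stmt_RT) (h'' : Stmt_Hull) : Stmt_ST := by
  intro G _ σ
  obtain ⟨Y₁, m1, a1, ι₁, r1, i1, e1⟩ := h' σ.U₁ G σ.n₁ σ.tree₁ σ.inv₁
  obtain ⟨Y₂, m2, a2, ι₂, r2, i2, e2⟩ := h' σ.U₂ G σ.n₂ σ.tree₂ σ.inv₂
  obtain ⟨d, hd, hge, hpc, hcat, hmax⟩ := h G σ Y₁ Y₂ ι₁ ι₂ r1 r2
  obtain ⟨-, hull_inter, hull_ι, -, -⟩ := h'' σ.U₂ Y₂ σ.n₂ ι₂ σ.tree₂ r2
  have hps := piece_smul σ ι₁ ι₂ i1 i2 e1 e2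
  have hle1 : ∀ (g : G) {u w : σ.U₁}, σ.n₁ u w ≤ 1 → σ.n₁ (g • u) (g • w) ≤ 1 := by
    intro g u w huw
    rw [σ.inv₁]; exact huw
  let act : MulAction G (STX σ ι₁ ι₂) :=
    { smul := fun g x => ⟨(g • x.1.1, g • x.1.2), by
        obtain ⟨u, w, huw, hp⟩ := x.2
        exact ⟨g • u, g • w, hle1 g huw, hps g u w x.1 hp⟩⟩
      one_smul := fun x => by
        apply Subtype.ext
        show ((1 : G) • x.1.1, (1 : G) • x.1.2) = x.1
        rw [one_smul, one_smul]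
      mul_smul := fun g k x => by
        apply Subtype.ext
        show ((g * k) • x.1.1, (g * k) • x.1.2) = (g • (k • x.1.1), g • (k • x.1.2))
        rw [mul_smul, mul_smul] }
  have hval : ∀ (g : G) (x : STX σ ι₁ ι₂), ((g • x : STX σ ι₁ ι₂) : Y₁ × Y₂) =
      (g • x.1.1, g • x.1.2) := fun g x => rfl
  have hDD : ∀ (g : G) (x y : STX σ ι₁ ι₂),
      DD2 ((g • x : STX σ ι₁ ι₂) : Y₁ × Y₂) ((g • y : STX σ ι₁ ι₂) : Y₁ × Y₂) =
        DD2 (x : Y₁ × Y₂) (y : Y₁ × Y₂) := by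
    intro g x y
    rw [hval, hval]
    unfold DD2
    simp only [i1, i2]
  have hle : ∀ (g : G) (x y : STX σ ι₁ ι₂), d (g • x) (g • y) ≤ d x y := by
    intro g
    apply hmax (fun x y => d (g • x) (g • y))
    · exact ⟨fun x => hd.self _, fun x y => hd.symm _ _, fun x y z => hd.tri _ _ _⟩
    · intro u w huw x y hx hy
      have := hpc (g • u) (g • w) (hle1 g huw) (g • x) (g • y) (hps g u w x.1 hx)
        (hps g u w y.1 hy)
      show d (g • x) (g • y) ≤ _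
      rw [this, hDD]
  have hiso : ∀ (g : G) (x y : STX σ ι₁ ι₂), d (g • x) (g • y) = d x y := by
    intro g x y
    apply le_antisymm (hle g x y)
    have := hle g⁻¹ (g • x) (g • y)
    rwa [inv_smul_smul, inv_smul_smul] at this
  -- the index type of the cells
  obtain ⟨E, hE, hcoc⟩ := σ.coc
  let J : Set (σ.U₁ × σ.U₂ × σ.U₁ × σ.U₂) :=
    {j | (j.1, j.2.1) ∈ E ∧ (σ.n₁ j.1 j.2.2.1 ≤ 1 ∧ j.2.1 ∈ σ.F j.2.2.1) ∧
      (j.2.2.2 ∈ σ.F j.1 ∧ σ.n₂ j.2.1 j.2.2.2 ≤ 1) ∧ j.2.2.2 ∈ σ.F j.2.2.1}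
  have hJ : J.Finite := by
    have : J ⊆ ⋃ e ∈ E, (fun s : σ.U₁ × σ.U₂ => (e.1, e.2, s.1, s.2)) ''
        ({w | σ.n₁ e.1 w ≤ 1 ∧ e.2 ∈ σ.F w} ×ˢ {q' | q' ∈ σ.F e.1 ∧ σ.n₂ e.2 q' ≤ 1}) := by
      rintro ⟨u, q, w, q'⟩ ⟨h1, h2, h3, h4⟩
      simp only [Set.mem_iUnion]
      exact ⟨(u, q), h1, (w, q'), ⟨h2, h3⟩, rfl⟩
    refine Set.Finite.subset ?_ this
    apply Set.Finite.biUnion E.finite_toSet
    intro e he
    exact ((σ.U_fin e.1 e.2 (hE e he)).prod (σ.F_fin e.1 e.2 (hE e he) 1)).image _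
  have : Finite J := hJ
  apply core G (STX σ ι₁ ι₂) d hd (J := J)
    (C := fun j => {x : STX σ ι₁ ι₂ |
      dist (ι₁ j.1.1) x.1.1 + dist x.1.1 (ι₁ j.1.2.2.1) = σ.n₁ j.1.1 j.1.2.2.1 ∧
      dist (ι₂ j.1.2.1) x.1.2 + dist x.1.2 (ι₂ j.1.2.2.2) = σ.n₂ j.1.2.1 j.1.2.2.2})
  · intro x y hxy
    apply Subtype.ext
    exact eq_of_DD2 _ _ (by rw [← hxy]; exact hge x y)
  · exact hcat
  · obtain ⟨q, hq⟩ := σ.F_ne σ.o₁
    refine ⟨⟨(ι₁ σ.o₁, ι₂ q), σ.o₁, σ.o₁, by rw [σ.tree₁.self]; exact Nat.zero_le _, ?_, ?_, ?_⟩⟩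
    · simp [σ.tree₁.self]
    · exact (hull_ι _ _).2 hq
    · exact (hull_ι _ _).2 hq
  · exact hiso
  · intro x
    obtain ⟨u, w, huw, hp1, ⟨q, hq, q', hq', hqq, hp2⟩, -⟩ := x.2
    refine (σ.prop u q hq 4).subset ?_
    rintro g ⟨y, hy, hgy⟩
    have b1 : dist (ι₁ u) x.1.1 ≤ 1 := by
      have := dist_nonneg (x := x.1.1) (y := ι₁ w)
      have h3 : (σ.n₁ u w : ℝ) ≤ 1 := by exact_mod_cast huw
      linarith
    have b2 : dist (ι₂ q) x.1.2 ≤ 1 := by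
      have := dist_nonneg (x := x.1.2) (y := ι₂ q')
      have h3 : (σ.n₂ q q' : ℝ) ≤ 1 := by exact_mod_cast hqq
      linarith
    have c1 : dist y.1.1 x.1.1 < 1 := ((dist_fst_le _ _).trans (hge y x)).trans_lt hy
    have c2 : dist y.1.2 x.1.2 < 1 := ((dist_snd_le _ _).trans (hge y x)).trans_lt hy
    have d1 : dist (g • y.1.1) x.1.1 < 1 :=
      ((dist_fst_le (g • y : STX σ ι₁ ι₂).1 x.1).trans (hge (g • y) x)).trans_lt hgy
    have d2 : dist (g • y.1.2) x.1.2 < 1 :=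
      ((dist_snd_le (g • y : STX σ ι₁ ι₂).1 x.1).trans (hge (g • y) x)).trans_lt hgy
    constructor
    · have k : (σ.n₁ u (g • u) : ℝ) ≤ 4 := by
        rw [← r1.dist_ι, e1]
        have t1 := dist_triangle (ι₁ u) x.1.1 (g • ι₁ u)
        have t2 := dist_triangle x.1.1 (g • y.1.1) (g • ι₁ u)
        have t3 := dist_triangle (g • y.1.1) (g • x.1.1) (g • ι₁ u)
        have t4 : dist (g • y.1.1) (g • x.1.1) = dist y.1.1 x.1.1 := i1 g _ _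
        have t5 : dist (g • x.1.1) (g • ι₁ u) = dist (ι₁ u) x.1.1 := by
          rw [i1, dist_comm]
        rw [dist_comm x.1.1 (g • y.1.1)] at t2
        linarith
      exact_mod_cast k
    · have k : (σ.n₂ q (g • q) : ℝ) ≤ 4 := by
        rw [← r2.dist_ι, e2]
        have t1 := dist_triangle (ι₂ q) x.1.2 (g • ι₂ q)
        have t2 := dist_triangle x.1.2 (g • y.1.2) (g • ι₂ q)
        have t3 := dist_triangle (g • y.1.2) (g • x.1.2) (g • ι₂ q)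
        have t4 : dist (g • y.1.2) (g • x.1.2) = dist y.1.2 x.1.2 := i2 g _ _
        have t5 : dist (g • x.1.2) (g • ι₂ q) = dist (ι₂ q) x.1.2 := by
          rw [i2, dist_comm]
        rw [dist_comm x.1.2 (g • y.1.2)] at t2
        linarith
      exact_mod_cast k
  · rintro ⟨⟨u, q, w, q'⟩, h1, ⟨h2, h2'⟩, ⟨h3, h3'⟩, h4⟩ a ha
    simp only at h1 h2 h2' h3 h3' h4
    have K1 := segCompact h'' σ.U₁ Y₁ σ.n₁ ι₁ σ.tree₁ r1 u w h2
    have K2 := segCompact h'' σ.U₂ Y₂ σ.n₂ ι₂ σ.tree₂ r2 q q' h3'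
    obtain ⟨b, hb, φ, hφ, ht⟩ := (K1.prod K2).isSeqCompact (x := fun k => (a k).1)
      (fun k => ⟨(ha k).1, (ha k).2⟩)
    have hFu : q ∈ σ.F u := hE _ h1
    have inP : ∀ p : Y₁ × Y₂, p ∈ {p : Y₁ | dist (ι₁ u) p + dist p (ι₁ w) = σ.n₁ u w} ×ˢ
        {p : Y₂ | dist (ι₂ q) p + dist p (ι₂ q') = σ.n₂ q q'} → p ∈ STpiece σ ι₁ ι₂ u w := by
      rintro p ⟨p1, p2⟩
      exact ⟨p1, ⟨q, hFu, q', h3, h3', p2⟩, ⟨q, h2', q', h4, h3', p2⟩⟩
    refine ⟨⟨b, u, w, h2, inP b hb⟩, ⟨hb.1, hb.2⟩, φ, hφ, ?_⟩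
    have e : ∀ k, d (a (φ k)) ⟨b, u, w, h2, inP b hb⟩ = DD2 (a (φ k)).1 b := by
      intro k
      exact hpc u w h2 _ _ (inP _ ⟨(ha (φ k)).1, (ha (φ k)).2⟩) (inP b hb)
    simp only [e]
    have hc : Continuous fun p : Y₁ × Y₂ => DD2 p b := by
      unfold DD2
      fun_prop
    have := (hc.tendsto b).comp ht
    have z : DD2 b b = 0 := by simp [DD2]
    rw [z] at this
    exact this
  · intro z
    obtain ⟨u, w, huw, hp1, hp2, hp3⟩ := z.2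
    have : z.1.2 ∈ hull σ.n₂ ι₂ (σ.F u ∩ σ.F w) := by
      rw [hull_inter]; exact ⟨hp2, hp3⟩
    obtain ⟨q, hq, q', hq', hqq, hp⟩ := this
    obtain ⟨g, hg⟩ := hcoc u q hq.1
    refine ⟨g, ⟨(g • u, g • q, g • w, g • q'), hg, ⟨hle1 g huw, σ.F_smul g w q hq.2⟩,
      ⟨σ.F_smul g u q' hq'.1, ?_⟩, σ.F_smul g w q' hq'.2⟩, ?_, ?_⟩
    · show σ.n₂ (g • q) (g • q') ≤ 1
      rw [σ.inv₂]; exact hqq
    · show dist (ι₁ (g • u)) (g • z.1.1) + dist (g • z.1.1) (ι₁ (g • w)) = σ.n₁ (g • u) (g • w)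
      rw [e1, e1, i1, i1, σ.inv₁]; exact hp1
    · show dist (ι₂ (g • q)) (g • z.1.2) + dist (g • z.1.2) (ι₂ (g • q')) = σ.n₂ (g • q) (g • q')
      rw [e2, e2, i2, i2, σ.inv₂]; exact hp

end Pool.Agent.SD
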