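import Pool.Agent.SD.HULL

set_option autoImplicit false

namespace Pool.Agent.SD

namespace ST1X

open HullX

/-- Stewart's inequality in trees -/
theorem treeStw {a b L t c : ℝ} (ht0 : 0 ≤ t) (ht1 : t ≤ 1) (hc : 0 ≤ c)
    (h : c ≤ max (a - t * L) (b - (1 - t) * L)) (h1 : a ≤ b + L) (h2 : b ≤ a + L)
    (h3 : L ≤ a + b) : c ^ 2 ≤ (1 - t) * a ^ 2 + t * b ^ 2 - t * (1 - t) * L ^ 2 := by
  rcases le_max_iff.mp h with h4 | h4
  · have h5 : c ^ 2 ≤ (a - t * L) ^ 2 := by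
      apply pow_le_pow_left₀ hc h4
    have h6 : 0 ≤ t * ((b - a + L) * (b + a - L)) := by
      apply mul_nonneg ht0
      apply mul_nonneg <;> linarith
    nlinarith
  · have h5 : c ^ 2 ≤ (b - (1 - t) * L) ^ 2 := by
      apply pow_le_pow_left₀ hc h4
    have h6 : 0 ≤ (1 - t) * ((a - b + L) * (a + b - L)) := by
      apply mul_nonneg (by linarith)
      apply mul_nonneg <;> linarith
    nlinarith

section one
variable {U Y : Type} [MetricSpace Y] {n : U → U → ℕ} {ι : U → Y}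

theorem seen_t (hr : IsReal n Y ι) {p q m : Y} {t : ℝ} (h1 : dist p m = t * dist p q)
    (h2 : dist m q = (1 - t) * dist p q) (z : Y) :
    dist z m ≤ max (dist z p - t * dist p q) (dist z q - (1 - t) * dist p q) := by
  rw [← h1, ← h2]
  exact seen hr (by rw [h1, h2]; ring) z

theorem uniq_t (hr : IsReal n Y ι) {p q m m' : Y} {t : ℝ} (h1 : dist p m = t * dist p q)
    (h2 : dist m q = (1 - t) * dist p q) (h1' : dist p m' = t * dist p q)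
    (h2' : dist m' q = (1 - t) * dist p q) : m = m' := by
  have := seen_t hr h1' h2' m
  rw [dist_comm m p, h1, h2, sub_self, sub_self, max_self] at this
  exact dist_le_zero.mp this

theorem stw_t (hr : IsReal n Y ι) {p q m : Y} {t : ℝ} (h0 : 0 ≤ t) (h1 : t ≤ 1)
    (h2 : dist p m = t * dist p q) (h3 : dist m q = (1 - t) * dist p q) (z : Y) :
    dist z m ^ 2 ≤ (1 - t) * dist z p ^ 2 + t * dist z q ^ 2 - t * (1 - t) * dist p q ^ 2 := by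
  apply treeStw h0 h1 dist_nonneg (seen_t hr h2 h3 z)
  · have := dist_triangle z q p
    rw [dist_comm q p] at this
    exact this
  · exact dist_triangle z p q
  · have := dist_triangle p z q
    rw [dist_comm p z] at this
    exact this

theorem edge_t (hr : IsReal n Y ι) {u w : U} {p q m : Y} {t : ℝ} 
    (hp : dist (ι u) p + dist p (ι w) = n u w) (hq : dist (ι u) q + dist q (ι w) = n u w)
    (h2 : dist p m = t * dist p q) (h3 : dist m q = (1 - t) * dist p q) :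
    dist (ι u) m + dist m (ι w) = n u w := by
  have hm : dist p m + dist m q = dist p q := by rw [h2, h3]; ring
  have t0 := dist_triangle (ι u) m (ι w)
  rw [hr.dist_ι] at t0
  rcases extend hr hp q with h | h
  · have t1 := dist_triangle (ι u) p m
    have t2 := dist_triangle m q (ι w)
    rw [dist_comm q (ι u), dist_comm q p, dist_comm p (ι u)] at h
    linarith
  · have t1 := dist_triangle (ι u) q m
    have t2 := dist_triangle m p (ι w)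
    rw [dist_comm q m] at t1
    rw [dist_comm m p] at t2
    rw [dist_comm q p] at h
    linarith

end one

section main
variable {G : Type} [Group G] (σ : STData G) {Y₁ Y₂ : Type} [MetricSpace Y₁] [MetricSpace Y₂]
    (ι₁ : σ.U₁ → Y₁) (ι₂ : σ.U₂ → Y₂)

/-- a cell of the complex -/
def PC (u w : σ.U₁) : Set (STX σ ι₁ ι₂) := {x | (x : Y₁ × Y₂) ∈ STpiece σ ι₁ ι₂ u w}

theorem DD2_sq (p q : Y₁ × Y₂) : DD2 p q ^ 2 = dist p.1 q.1 ^ 2 + dist p.2 q.2 ^ 2 :=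
  Real.sq_sqrt (by positivity)

theorem DD2_nonneg (p q : Y₁ × Y₂) : 0 ≤ DD2 p q := Real.sqrt_nonneg _

theorem DD2_eq {p q : Y₁ × Y₂} {c : ℝ} (hc : 0 ≤ c) (h : dist p.1 q.1 ^ 2 + dist p.2 q.2 ^ 2 = c ^ 2) :
    DD2 p q = c := by
  rw [DD2, h, Real.sqrt_sq hc]

theorem isPM_DD2 : IsPM (fun x y : Y₁ × Y₂ => DD2 x y) where
  self x := by simp [DD2]
  symm x y := by simp only [DD2, dist_comm]
  tri x y z := by
    have h1 := dist_triangle x.1 y.1 z.1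
    have h2 := dist_triangle x.2 y.2 z.2
    have hx := DD2_sq x y
    have hy := DD2_sq y z
    have hz := DD2_sq x z
    have px := DD2_nonneg x y
    have py := DD2_nonneg y z
    have a1 := dist_nonneg (x := x.1) (y := y.1)
    have a2 := dist_nonneg (x := x.2) (y := y.2)
    have b1 := dist_nonneg (x := y.1) (y := z.1)
    have b2 := dist_nonneg (x := y.2) (y := z.2)
    have c1 := dist_nonneg (x := x.1) (y := z.1)
    have c2 := dist_nonneg (x := x.2) (y := z.2)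
    apply le_of_sq_le_sq _ (by positivity)
    have key : dist x.1 y.1 * dist y.1 z.1 + dist x.2 y.2 * dist y.2 z.2 ≤ DD2 x y * DD2 y z := by
      apply abs_le_of_sq_le_sq' _ (by positivity) |>.2
      rw [mul_pow, hx, hy]
      nlinarith [sq_nonneg (dist x.1 y.1 * dist y.2 z.2 - dist x.2 y.2 * dist y.1 z.1)]
    rw [hz]
    have e1 : dist x.1 z.1 ^ 2 ≤ (dist x.1 y.1 + dist y.1 z.1) ^ 2 := pow_le_pow_left₀ c1 h1 2
    have e2 : dist x.2 z.2 ^ 2 ≤ (dist x.2 y.2 + dist y.2 z.2) ^ 2 := pow_le_pow_left₀ c2 h2 2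
    nlinarith

variable {σ ι₁ ι₂}

theorem mem_of_piece {u w : σ.U₁} (huw : σ.n₁ u w ≤ 1) {p : Y₁ × Y₂}
    (hp : p ∈ STpiece σ ι₁ ι₂ u w) : p ∈ STX σ ι₁ ι₂ := ⟨u, w, huw, hp⟩

/-- `t`-points in a cell -/
theorem tpoint (h1 : IsReal σ.n₁ Y₁ ι₁) (h2 : IsReal σ.n₂ Y₂ ι₂) {u w : σ.U₁}
    (huw : σ.n₁ u w ≤ 1) {x y : STX σ ι₁ ι₂} (hx : x ∈ PC σ ι₁ ι₂ u w) (hy : y ∈ PC σ ι₁ ι₂ u w)
    {t : ℝ} (ht0 : 0 ≤ t) (ht1 : t ≤ 1) :
    ∃ m ∈ PC σ ι₁ ι₂ u w, dist x.1.1 m.1.1 = t * dist x.1.1 y.1.1 ∧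
      dist m.1.1 y.1.1 = (1 - t) * dist x.1.1 y.1.1 ∧ dist x.1.2 m.1.2 = t * dist x.1.2 y.1.2 ∧
      dist m.1.2 y.1.2 = (1 - t) * dist x.1.2 y.1.2 := by
  obtain ⟨m₁, a1, a2⟩ := tpt h1 x.1.1 y.1.1 t ht0 ht1
  obtain ⟨m₂, hm2, b1, b2⟩ := tclosed σ.tree₂ h2 (σ.F u) (σ.F_conv u) x.1.2 hx.2.1 y.1.2 hy.2.1 t
    ht0 ht1
  obtain ⟨m₂', hm2', b1', b2'⟩ := tclosed σ.tree₂ h2 (σ.F w) (σ.F_conv w) x.1.2 hx.2.2 y.1.2
    hy.2.2 t ht0 ht1
  have e : m₂ = m₂' := uniq_t h2 b1 b2 b1' b2'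
  have hmem : (m₁, m₂) ∈ STpiece σ ι₁ ι₂ u w :=
    ⟨edge_t h1 hx.1 hy.1 a1 a2, hm2, by rw [e]; exact hm2'⟩
  exact ⟨⟨(m₁, m₂), mem_of_piece huw hmem⟩, hmem, a1, a2, b1, b2⟩

theorem uniq (h1 : IsReal σ.n₁ Y₁ ι₁) (h2 : IsReal σ.n₂ Y₂ ι₂) {x y m m' : STX σ ι₁ ι₂} {t : ℝ}
    (a1 : dist x.1.1 m.1.1 = t * dist x.1.1 y.1.1)
    (a2 : dist m.1.1 y.1.1 = (1 - t) * dist x.1.1 y.1.1)
    (a3 : dist x.1.2 m.1.2 = t * dist x.1.2 y.1.2)
    (a4 : dist m.1.2 y.1.2 = (1 - t) * dist x.1.2 y.1.2)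
    (b1 : dist x.1.1 m'.1.1 = t * dist x.1.1 y.1.1)
    (b2 : dist m'.1.1 y.1.1 = (1 - t) * dist x.1.1 y.1.1)
    (b3 : dist x.1.2 m'.1.2 = t * dist x.1.2 y.1.2)
    (b4 : dist m'.1.2 y.1.2 = (1 - t) * dist x.1.2 y.1.2) : m = m' :=
  Subtype.ext (Prod.ext (uniq_t h1 a1 a2 b1 b2) (uniq_t h2 a3 a4 b3 b4))

theorem caton (h1 : IsReal σ.n₁ Y₁ ι₁) (h2 : IsReal σ.n₂ Y₂ ι₂) {u w : σ.U₁}
    (huw : σ.n₁ u w ≤ 1) :
    CATon (fun x y : STX σ ι₁ ι₂ => DD2 (x : Y₁ × Y₂) y) (PC σ ι₁ ι₂ u w) := by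
  intro x hx y hy t ht0 ht1
  obtain ⟨m, hm, a1, a2, a3, a4⟩ := tpoint h1 h2 huw hx hy ht0 ht1
  refine ⟨m, hm, fun z _ => ?_⟩
  have s1 := stw_t h1 ht0 ht1 a1 a2 z.1.1
  have s2 := stw_t h2 ht0 ht1 a3 a4 z.1.2
  simp only [Stw]
  rw [DD2_sq, DD2_sq, DD2_sq, DD2_sq]
  nlinarith

theorem dd2_t {x y m : Y₁ × Y₂} {t : ℝ} (ht0 : 0 ≤ t) (a1 : dist x.1 m.1 = t * dist x.1 y.1)
    (a3 : dist x.2 m.2 = t * dist x.2 y.2) : DD2 x m = t * DD2 x y := by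
  apply DD2_eq (mul_nonneg ht0 (DD2_nonneg _ _))
  rw [a1, a3, mul_pow, mul_pow, mul_pow, DD2_sq]
  ring

theorem dd2_t' {x y m : Y₁ × Y₂} {t : ℝ} (ht1 : t ≤ 1)
    (a1 : dist m.1 y.1 = (1 - t) * dist x.1 y.1)
    (a3 : dist m.2 y.2 = (1 - t) * dist x.2 y.2) : DD2 m y = (1 - t) * DD2 x y := by
  apply DD2_eq (mul_nonneg (by linarith) (DD2_nonneg _ _))
  rw [a1, a3, mul_pow, mul_pow, mul_pow, DD2_sq]
  ring

theorem tclosed2 (h1 : IsReal σ.n₁ Y₁ ι₁) (h2 : IsReal σ.n₂ Y₂ ι₂) {u w u' w' : σ.U₁}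
    (huw : σ.n₁ u w ≤ 1) (huw' : σ.n₁ u' w' ≤ 1) :
    TClosed (fun x y : STX σ ι₁ ι₂ => DD2 (x : Y₁ × Y₂) y)
      (PC σ ι₁ ι₂ u w ∩ PC σ ι₁ ι₂ u' w') := by
  intro x hx y hy t ht0 ht1
  obtain ⟨m, hm, a1, a2, a3, a4⟩ := tpoint h1 h2 huw hx.1 hy.1 ht0 ht1
  obtain ⟨m', hm', b1, b2, b3, b4⟩ := tpoint h1 h2 huw' hx.2 hy.2 ht0 ht1
  have e := uniq h1 h2 a1 a2 a3 a4 b1 b2 b3 b4
  exact ⟨m, ⟨hm, by rw [e]; exact hm'⟩, dd2_t ht0 a1 a3, dd2_t' ht1 a2 a4⟩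

theorem mem_diag (h1 : IsReal σ.n₁ Y₁ ι₁) {v : σ.U₁} {x : STX σ ι₁ ι₂} :
    x ∈ PC σ ι₁ ι₂ v v ↔ x.1.1 = ι₁ v ∧ x.1.2 ∈ hull σ.n₂ ι₂ (σ.F v) := by
  constructor
  · rintro ⟨a, b, _⟩
    rw [σ.tree₁.self, Nat.cast_zero] at a
    have p1 := dist_nonneg (x := ι₁ v) (y := x.1.1)
    have p2 := dist_nonneg (x := x.1.1) (y := ι₁ v)
    exact ⟨dist_eq_zero.mp (by linarith), b⟩
  · rintro ⟨a, b⟩
    refine ⟨?_, b, b⟩
    rw [a, dist_self, σ.tree₁.self, Nat.cast_zero, add_zero]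

theorem seqproper2 (h1 : IsReal σ.n₁ Y₁ ι₁) (h2 : IsReal σ.n₂ Y₂ ι₂) {u w v : σ.U₁}
    (huw : σ.n₁ u w ≤ 1) (hv : v = u ∨ v = w) :
    SeqProper (fun x y : STX σ ι₁ ι₂ => DD2 (x : Y₁ × Y₂) y)
      (PC σ ι₁ ι₂ v v ∩ PC σ ι₁ ι₂ u w) := by
  intro x0 R a ha
  have ha1 : ∀ k, (a k).1.1 = ι₁ v := fun k => ((mem_diag h1).mp (ha k).1.1).1
  have hin : ∀ k, (a k).1.2 ∈ hull σ.n₂ ι₂ (σ.F u ∩ σ.F w) := by
    intro k
    rw [inter σ.tree₂ h2]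
    exact (ha k).1.2.2
  have hsp : SeqProper (fun p q : Y₂ => dist p q) (hull σ.n₂ ι₂ (σ.F u ∩ σ.F w)) := by
    apply seqproper σ.tree₂ h2
    intro q hq R
    apply (σ.F_fin u q hq.1 R).subset
    exact fun y hy => ⟨hy.1.1, hy.2⟩
  obtain ⟨b, hb, φ, hφ, hlim⟩ := hsp x0.1.2 R (fun k => (a k).1.2) (fun k => ⟨hin k, by
    have h3 := (ha k).2
    have h4 := DD2_sq x0.1 (a k).1
    have h5 := DD2_nonneg x0.1 (a k).1
    have h6 := dist_nonneg (x := x0.1.2) (y := (a k).1.2)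
    have h7 : dist x0.1.2 (a k).1.2 ≤ DD2 x0.1 (a k).1 := by
      apply le_of_sq_le_sq _ h5
      rw [h4]
      nlinarith [sq_nonneg (dist x0.1.1 (a k).1.1)]
    exact h7.trans h3⟩)
  rw [inter σ.tree₂ h2] at hb
  have hmem : (ι₁ v, b) ∈ STpiece σ ι₁ ι₂ u w := by
    refine ⟨?_, hb.1, hb.2⟩
    show dist (ι₁ u) (ι₁ v) + dist (ι₁ v) (ι₁ w) = _
    rcases hv with rfl | rfl
    · rw [dist_self, h1.dist_ι, zero_add]
    · rw [dist_self, h1.dist_ι, add_zero]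
  have hbv : b ∈ hull σ.n₂ ι₂ (σ.F v) := by
    rcases hv with rfl | rfl
    · exact hb.1
    · exact hb.2
  refine ⟨⟨(ι₁ v, b), mem_of_piece huw hmem⟩, ⟨(mem_diag h1).mpr ⟨rfl, hbv⟩, hmem⟩, φ, hφ, ?_⟩
  refine hlim.congr fun k => ?_
  refine (DD2_eq dist_nonneg ?_).symm
  rw [ha1 (φ k), dist_self]
  ring

/-- the root vertex is `o₁`; `pr` is a parent function -/
structure IsPar (pr : σ.U₁ → σ.U₁) : Prop where
  adj : ∀ w, w ≠ σ.o₁ → σ.n₁ w (pr w) = 1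
  lev : ∀ w, w ≠ σ.o₁ → σ.n₁ σ.o₁ (pr w) + 1 = σ.n₁ σ.o₁ w

theorem exists_par : ∃ pr : σ.U₁ → σ.U₁, IsPar pr := by
  have h : ∀ w : σ.U₁, ∃ z, w ≠ σ.o₁ → σ.n₁ w z = 1 ∧ σ.n₁ σ.o₁ z + 1 = σ.n₁ σ.o₁ w := by
    intro w
    by_cases hw : w = σ.o₁
    · exact ⟨w, fun h => absurd hw h⟩
    · obtain ⟨z, hz1, hz2⟩ := σ.tree₁.step w σ.o₁ (fun h => hw (σ.tree₁.eq_of _ _ h))
      refine ⟨z, fun _ => ⟨hz1, ?_⟩⟩
      rw [σ.tree₁.symm σ.o₁ z, σ.tree₁.symm σ.o₁ w]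
      exact hz2
  choose pr hpr using h
  exact ⟨pr, fun w hw => (hpr w hw).1, fun w hw => (hpr w hw).2⟩

/-- uniqueness of the parent -/
theorem par_uniq {pr : σ.U₁ → σ.U₁} (hpr : IsPar pr) {u w : σ.U₁} (huw : σ.n₁ u w = 1)
    (hl : σ.n₁ σ.o₁ w = σ.n₁ σ.o₁ u + 1) : w ≠ σ.o₁ ∧ pr w = u := by
  have hw : w ≠ σ.o₁ := by
    rintro rfl
    rw [σ.tree₁.self] at hl
    omega
  refine ⟨hw, ?_⟩
  have h1 := hpr.adj w hw
  have h2 := hpr.lev w hw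
  have h3 := σ.tree₁.four (pr w) u w σ.o₁
  rw [σ.tree₁.symm (pr w) w, σ.tree₁.symm u σ.o₁, σ.tree₁.symm (pr w) σ.o₁,
    σ.tree₁.symm w σ.o₁] at h3
  apply σ.tree₁.eq_of
  omega

/-- each cell is one of the chosen ones -/
theorem cell_cases (h1 : IsReal σ.n₁ Y₁ ι₁) {pr : σ.U₁ → σ.U₁} (hpr : IsPar pr) {u w : σ.U₁}
    (huw : σ.n₁ u w ≤ 1) :
    (u = w) ∨ (w ≠ σ.o₁ ∧ pr w = u) ∨ (u ≠ σ.o₁ ∧ pr u = w) := by
  rcases Nat.eq_zero_or_pos (σ.n₁ u w) with h | h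
  · exact Or.inl (σ.tree₁.eq_of _ _ h)
  · have huw1 : σ.n₁ u w = 1 := by omega
    have p1 := σ.tree₁.par u w σ.o₁ huw1
    have t1 := tri σ.tree₁ h1 σ.o₁ u w
    have t2 := tri σ.tree₁ h1 σ.o₁ w u
    rw [σ.tree₁.symm w u] at t2
    rw [σ.tree₁.symm u σ.o₁, σ.tree₁.symm w σ.o₁] at p1
    right
    rcases Nat.lt_or_ge (σ.n₁ σ.o₁ u) (σ.n₁ σ.o₁ w) with h5 | h5
    · left
      exact par_uniq hpr huw1 (by omega)
    · right
      exact par_uniq hpr (by rw [σ.tree₁.symm]; exact huw1) (by omega)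

theorem piece_symm (u w : σ.U₁) : PC σ ι₁ ι₂ u w = PC σ ι₁ ι₂ w u := by
  ext x
  constructor
  · rintro ⟨a, b, c⟩
    refine ⟨?_, c, b⟩
    rw [dist_comm (ι₁ w), dist_comm _ (ι₁ u), add_comm, σ.tree₁.symm w u]
    exact a
  · rintro ⟨a, b, c⟩
    refine ⟨?_, c, b⟩
    rw [dist_comm (ι₁ u), dist_comm _ (ι₁ w), add_comm, σ.tree₁.symm u w]
    exact a

end main

end ST1X

open ST1X HullX in
theorem st1_proof (hTP : Stmt_TP) : Stmt_ST1 := by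
  classical
  intro G _ σ Y₁ Y₂ _ _ ι₁ ι₂ h1 h2
  obtain ⟨pr, hpr⟩ := exists_par (σ := σ)
  -- the index set
  let I : Type := σ.U₁ ⊕ {w : σ.U₁ // w ≠ σ.o₁}
  let A : I → σ.U₁ := Sum.elim (fun u => u) (fun w => w.1)
  let B : I → σ.U₁ := Sum.elim (fun u => u) (fun w => pr w.1)
  let K : I → Set (STX σ ι₁ ι₂) := fun i => PC σ ι₁ ι₂ (A i) (B i)
  let par : I → I := Sum.elim (fun u => if h : u = σ.o₁ then Sum.inl u else Sum.inr ⟨u, h⟩)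
    (fun w => Sum.inl (pr w.1))
  let lev : I → ℕ := Sum.elim (fun u => 2 * σ.n₁ σ.o₁ u) (fun w => 2 * σ.n₁ σ.o₁ w.1 - 1)
  have hAB : ∀ i, σ.n₁ (A i) (B i) ≤ 1 := by
    rintro (u | w)
    · show σ.n₁ u u ≤ 1
      rw [σ.tree₁.self]
      exact Nat.zero_le _
    · exact (hpr.adj w.1 w.2).le
  have hpos : ∀ w : σ.U₁, w ≠ σ.o₁ → 0 < σ.n₁ σ.o₁ w := fun w hw => by
    rcases Nat.eq_zero_or_pos (σ.n₁ σ.o₁ w) with h | h
    · exact absurd (σ.tree₁.eq_of _ _ h).symm hw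
    · exact h
  -- every cell is contained in one of the pieces
  have hcell : ∀ u w, σ.n₁ u w ≤ 1 → ∃ i, PC σ ι₁ ι₂ u w = K i := by
    intro u w huw
    rcases cell_cases h1 hpr huw with h | ⟨hw, h⟩ | ⟨hu, h⟩
    · subst h
      exact ⟨Sum.inl u, rfl⟩
    · subst h
      exact ⟨Sum.inr ⟨w, hw⟩, piece_symm _ _⟩
    · subst h
      exact ⟨Sum.inr ⟨u, hu⟩, rfl⟩
  -- points in the intersections
  have hne : ∀ w : σ.U₁, w ≠ σ.o₁ → ∀ v, v = w ∨ v = pr w →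
      (PC σ ι₁ ι₂ v v ∩ PC σ ι₁ ι₂ w (pr w)).Nonempty := by
    intro w hw v hv
    obtain ⟨q, hq1, hq2⟩ := σ.F_adj w (pr w) (hpr.adj w hw)
    have hmem : (ι₁ v, ι₂ q) ∈ STpiece σ ι₁ ι₂ w (pr w) := by
      refine ⟨?_, (mem_hull_iota σ.tree₂ h2 _ _).mpr hq1, (mem_hull_iota σ.tree₂ h2 _ _).mpr hq2⟩
      show dist (ι₁ w) (ι₁ v) + dist (ι₁ v) (ι₁ (pr w)) = _
      rcases hv with rfl | rfl
      · rw [dist_self, h1.dist_ι, zero_add]
      · rw [dist_self, h1.dist_ι, add_zero]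
    refine ⟨⟨(ι₁ v, ι₂ q), mem_of_piece (hpr.adj w hw).le hmem⟩, (mem_diag h1).mpr ⟨rfl, ?_⟩, hmem⟩
    rw [mem_hull_iota σ.tree₂ h2]
    rcases hv with rfl | rfl
    · exact hq1
    · exact hq2
  have hKpar : ∀ i, i ≠ Sum.inl σ.o₁ → ∃ w, w ≠ σ.o₁ ∧ ∃ v, (v = w ∨ v = pr w) ∧
      ((K i ∩ K (par i)) = (PC σ ι₁ ι₂ v v ∩ PC σ ι₁ ι₂ w (pr w))) := by
    rintro (u | w) hi
    · have hu : u ≠ σ.o₁ := fun h => hi (by rw [h])
      refine ⟨u, hu, u, Or.inl rfl, ?_⟩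
      have : par (Sum.inl u) = Sum.inr ⟨u, hu⟩ := dif_neg hu
      rw [this]
      rfl
    · refine ⟨w.1, w.2, pr w.1, Or.inr rfl, ?_⟩
      rw [Set.inter_comm]
      rfl
  obtain ⟨d, hd1, hd2, hd3, hd4, hd5⟩ := hTP (STX σ ι₁ ι₂) I
    (fun x y : STX σ ι₁ ι₂ => DD2 (x : Y₁ × Y₂) y)
    ⟨fun x => isPM_DD2.self x.1, fun x y => isPM_DD2.symm x.1 y.1,
      fun x y z => isPM_DD2.tri x.1 y.1 z.1⟩
    K par lev (Sum.inl σ.o₁)
    (by
      show 2 * σ.n₁ σ.o₁ σ.o₁ = 0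
      rw [σ.tree₁.self])
    (by
      rintro (u | w) h
      · have h' : 2 * σ.n₁ σ.o₁ u = 0 := h
        exact congrArg Sum.inl (σ.tree₁.eq_of σ.o₁ u (by omega)).symm
      · have h' : 2 * σ.n₁ σ.o₁ w.1 - 1 = 0 := h
        have := hpos w.1 w.2
        omega)
    (by
      rintro (u | w) hi
      · have hu : u ≠ σ.o₁ := fun h => hi (by rw [h])
        have e : par (Sum.inl u) = Sum.inr ⟨u, hu⟩ := dif_neg hu
        rw [e]
        show 2 * σ.n₁ σ.o₁ u - 1 + 1 = 2 * σ.n₁ σ.o₁ u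
        have := hpos u hu
        omega
      · show 2 * σ.n₁ σ.o₁ (pr w.1) + 1 = 2 * σ.n₁ σ.o₁ w.1 - 1
        have := hpr.lev w.1 w.2
        omega)
    (by
      intro x
      obtain ⟨u, w, huw, hx⟩ := x.2
      obtain ⟨i, hi⟩ := hcell u w huw
      exact ⟨i, by rw [← hi]; exact hx⟩)
    (by
      rintro (u | w) (u' | w') x hx hx' hij hlev
      · exfalso
        apply hij
        have e1 : x.1.1 = ι₁ u := ((mem_diag h1).mp hx).1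
        have e2 : x.1.1 = ι₁ u' := ((mem_diag h1).mp hx').1
        have e3 : σ.n₁ u u' = 0 := by
          have := h1.dist_ι u u'
          rw [← e1, ← e2, dist_self] at this
          exact_mod_cast this.symm
        rw [σ.tree₁.eq_of _ _ e3]
      · have e1 : x.1.1 = ι₁ u := ((mem_diag h1).mp hx).1
        have e2 : dist (ι₁ w'.1) x.1.1 + dist x.1.1 (ι₁ (pr w'.1)) =
            σ.n₁ w'.1 (pr w'.1) := hx'.1
        have e2' : dist (ι₁ w'.1) (ι₁ u) + dist (ι₁ u) (ι₁ (pr w'.1)) =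
            σ.n₁ w'.1 (pr w'.1) := by
          rw [← e1]; exact e2
        have hl : 2 * σ.n₁ σ.o₁ w'.1 - 1 ≤ 2 * σ.n₁ σ.o₁ u := hlev
        have hp := hpos w'.1 w'.2
        have hq := hpr.lev w'.1 w'.2
        rcases vertex_on_edge σ.tree₁ h1 (hpr.adj w'.1 w'.2).le e2' with h | h
        · have hu : u ≠ σ.o₁ := by rw [h]; exact w'.2
          have e : par (Sum.inl u) = Sum.inr ⟨u, hu⟩ := dif_neg hu
          rw [e]
          subst h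
          exact hx'
        · rw [h] at hl
          omega
      · have e1 : x.1.1 = ι₁ u' := ((mem_diag h1).mp hx').1
        have e2 : dist (ι₁ w.1) x.1.1 + dist x.1.1 (ι₁ (pr w.1)) =
            σ.n₁ w.1 (pr w.1) := hx.1
        have e2' : dist (ι₁ w.1) (ι₁ u') + dist (ι₁ u') (ι₁ (pr w.1)) =
            σ.n₁ w.1 (pr w.1) := by
          rw [← e1]; exact e2
        have hl : 2 * σ.n₁ σ.o₁ u' ≤ 2 * σ.n₁ σ.o₁ w.1 - 1 := hlev
        have hp := hpos w.1 w.2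
        rcases vertex_on_edge σ.tree₁ h1 (hpr.adj w.1 w.2).le e2' with h | h
        · rw [h] at hl
          omega
        · subst h
          exact hx'
      · have hl : 2 * σ.n₁ σ.o₁ w'.1 - 1 ≤ 2 * σ.n₁ σ.o₁ w.1 - 1 := hlev
        have hp := hpos w.1 w.2
        have hp' := hpos w'.1 w'.2
        have hq := hpr.lev w.1 w.2
        have hq' := hpr.lev w'.1 w'.2
        have hww : w.1 ≠ w'.1 := fun h => hij (by rw [Subtype.ext h])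
        rcases edges σ.tree₁ h1 w.1 (pr w.1) w'.1 (pr w'.1) (hpr.adj w.1 w.2).le
          (hpr.adj w'.1 w'.2).le x.1.1 hx.1 hx'.1 with ⟨v, hv, hv1, hv2⟩ | ⟨c1, _⟩ | ⟨c1, c2⟩
        · rcases hv1 with h | h
          · exfalso
            rcases hv2 with h' | h'
            · exact hww (h.symm.trans h')
            · rw [← h', h] at hq'
              omega
          · show x ∈ PC σ ι₁ ι₂ (pr w.1) (pr w.1)
            rw [mem_diag h1, ← h]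
            refine ⟨hv, ?_⟩
            rw [h]
            exact hx.2.2
        · exact absurd c1 hww
        · exfalso
          rw [c1] at hl
          omega)
    (by
      intro i hi
      obtain ⟨w, hw, v, hv, e⟩ := hKpar i hi
      rw [e]
      exact hne w hw v hv)
    (fun i => caton h1 h2 (hAB i))
    (by
      intro i hi
      obtain ⟨w, hw, v, hv, e⟩ := hKpar i hi
      rw [e]
      refine ⟨tclosed2 h1 h2 ?_ (hpr.adj w hw).le, seqproper2 h1 h2 (hpr.adj w hw).le hv⟩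
      rw [σ.tree₁.self]
      exact Nat.zero_le _)
  refine ⟨d, hd1, hd2, ?_, hd4, ?_⟩
  · intro u w huw x y hx hy
    obtain ⟨i, hi⟩ := hcell u w huw
    exact hd3 i x (by rw [← hi]; exact hx) y (by rw [← hi]; exact hy)
  · intro d' hd' hle x y
    exact hd5 d' hd' (fun i x hx y hy => hle (A i) (B i) (hAB i) x y hx hy) x y

end Pool.Agent.SD
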