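import Pool.Agent.SD.Cat

/-!
# Module TP: trees of CAT(0) pieces
-/

set_option autoImplicit false

namespace Pool.Agent.SD

namespace TPX

open scoped Classical

section split

variable {X : Type} {d : X → X → ℝ}

/-- The infimum of the lengths of detours through `A`. -/
noncomputable def hA (d : X → X → ℝ) (A : Set X) (p q : X) : ℝ := ⨅ a : A, (d p a + d a q)

theorem hA_bdd (hd : IsPM d) (A : Set X) (p q : X) :
    BddBelow (Set.range fun a : A => d p a + d a q) :=
  ⟨d p q, by rintro _ ⟨a, rfl⟩; exact hd.tri _ _ _⟩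

theorem hA_le (hd : IsPM d) {A : Set X} {a : X} (ha : a ∈ A) (p q : X) :
    hA d A p q ≤ d p a + d a q :=
  ciInf_le (hA_bdd hd A p q) ⟨a, ha⟩

theorem le_hA (hd : IsPM d) {A : Set X} (hA0 : A.Nonempty) (p q : X) : d p q ≤ hA d A p q := by
  have : Nonempty A := hA0.to_subtype
  exact le_ciInf fun a => hd.tri _ _ _

theorem hA_symm (hd : IsPM d) (A : Set X) (p q : X) : hA d A p q = hA d A q p := by
  unfold hA
  congr 1
  funext a
  rw [hd.symm p a, hd.symm a q, add_comm]

theorem hA_tri (hd : IsPM d) {A : Set X} (hA0 : A.Nonempty) (x y z : X) :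
    hA d A x z ≤ d x y + hA d A y z := by
  have : Nonempty A := hA0.to_subtype
  have h1 : hA d A x z - d x y ≤ hA d A y z := by
    apply le_ciInf
    intro a
    have h2 := hA_le hd a.2 x z
    have h3 := hd.tri x y a
    linarith
  linarith

theorem hA_tri' (hd : IsPM d) {A : Set X} (hA0 : A.Nonempty) (x y z : X) :
    hA d A x z ≤ hA d A x y + d y z := by
  rw [hA_symm hd A x z, hA_symm hd A x y, hd.symm y z, add_comm]
  exact hA_tri hd hA0 z y x

/-- A maximal pseudometric splits along the intersection of two sets. -/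
theorem split (hd : IsPM d) (U V : Set X) (hUV : ∀ x, x ∈ U ∨ x ∈ V) (hA0 : (U ∩ V).Nonempty)
    (hmax : ∀ δ : X → X → ℝ, IsPM δ → (∀ x ∈ U, ∀ y ∈ U, δ x y ≤ d x y) →
      (∀ x ∈ V, ∀ y ∈ V, δ x y ≤ d x y) → ∀ x y, δ x y ≤ d x y)
    (p q : X) (hp : p ∈ U) (hq : q ∈ V) : hA d (U ∩ V) p q ≤ d p q := by
  let same : X → X → Prop := fun x y => (x ∈ U ∧ y ∈ U) ∨ (x ∈ V ∧ y ∈ V)
  have hsymm : ∀ x y, same x y ↔ same y x := by
    intro x y
    simp only [same]
    tauto
  let δ : X → X → ℝ := fun x y => if same x y then d x y else hA d (U ∩ V) x y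
  have hdδ : ∀ x y, d x y ≤ δ x y := by
    intro x y
    simp only [δ]
    split_ifs with h
    · exact le_refl _
    · exact le_hA hd hA0 x y
  have hδ1 : ∀ x y, same x y → δ x y = d x y := fun x y h => if_pos h
  have hδ2 : ∀ x y, ¬same x y → δ x y = hA d (U ∩ V) x y := fun x y h => if_neg h
  have hPM : IsPM δ := by
    constructor
    · intro x
      rw [hδ1 x x, hd.self]
      rcases hUV x with h | h
      · exact Or.inl ⟨h, h⟩
      · exact Or.inr ⟨h, h⟩
    · intro x y
      by_cases h : same x y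
      · rw [hδ1 x y h, hδ1 y x ((hsymm x y).mp h), hd.symm]
      · rw [hδ2 x y h, hδ2 y x (fun h' => h ((hsymm x y).mpr h')), hA_symm hd]
    · intro x y z
      by_cases hxz : same x z
      · rw [hδ1 x z hxz]
        have h1 := hd.tri x y z
        have h2 := hdδ x y
        have h3 := hdδ y z
        linarith
      · rw [hδ2 x z hxz]
        by_cases hyz : same y z
        · by_cases hxy : same x y
          · have hy : y ∈ U ∩ V := by
              simp only [same] at hxz hyz hxy
              have := hUV x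
              constructor <;> tauto
            rw [hδ1 x y hxy, hδ1 y z hyz]
            exact hA_le hd hy x z
          · rw [hδ2 x y hxy]
            have h1 := hA_tri' hd hA0 x y z
            have h3 := hdδ y z
            linarith
        · rw [hδ2 y z hyz]
          have h1 := hA_tri hd hA0 x y z
          have h3 := hdδ x y
          linarith
  have hle := hmax δ hPM (fun x hx y hy => (hδ1 x y (Or.inl ⟨hx, hy⟩)).le)
    (fun x hx y hy => (hδ1 x y (Or.inr ⟨hx, hy⟩)).le) p q
  by_cases h : same p q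
  · rcases h with ⟨_, h⟩ | ⟨h, _⟩
    · have h1 := hA_le hd (A := U ∩ V) ⟨h, hq⟩ p q
      rwa [hd.self, add_zero] at h1
    · have h1 := hA_le hd (A := U ∩ V) ⟨hp, h⟩ p q
      rwa [hd.self, zero_add] at h1
  · rwa [hδ2 p q h] at hle

/-- The infimum is attained if `A` is sequentially proper. -/
theorem attained (hd : IsPM d) {A : Set X} (hA0 : A.Nonempty) (hsp : SeqProper d A) (p q : X)
    (h : hA d A p q ≤ d p q) : ∃ a ∈ A, d p q = d p a + d a q := by
  have : Nonempty A := hA0.to_subtype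
  have h1 : ∀ n : ℕ, ∃ a : A, d p a + d a q < d p q + 1 / ((n : ℝ) + 1) := by
    intro n
    apply exists_lt_of_ciInf_lt
    have : (0 : ℝ) < 1 / ((n : ℝ) + 1) := by positivity
    exact lt_of_le_of_lt h (by linarith)
  choose a ha using h1
  have h0 : ∀ n : ℕ, 1 / ((n : ℝ) + 1) ≤ 1 := by
    intro n
    rw [div_le_one (by positivity)]
    have : (0 : ℝ) ≤ n := Nat.cast_nonneg n
    linarith
  have hb : ∀ n, ((a n : X) ∈ A ∧ d (p) (a n) ≤ d p q + 1) := by
    intro n
    refine ⟨(a n).2, ?_⟩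
    have h2 := ha n
    have h3 := h0 n
    have h4 := hd.nonneg (a n : X) q
    linarith
  obtain ⟨b, hbA, φ, hφ, hlim⟩ := hsp p (d p q + 1) (fun n => (a n : X)) hb
  refine ⟨b, hbA, le_antisymm (hd.tri _ _ _) ?_⟩
  apply le_of_forall_pos_lt_add
  intro ε hε
  have hlim2 : Filter.Tendsto (fun n : ℕ => 1 / ((φ n : ℝ) + 1)) Filter.atTop (nhds 0) :=
    (tendsto_one_div_add_atTop_nhds_zero_nat (𝕜 := ℝ)).comp hφ.tendsto_atTop
  have e1 := hlim.eventually (gt_mem_nhds (show (0 : ℝ) < ε / 4 by linarith))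
  have e2 := hlim2.eventually (gt_mem_nhds (show (0 : ℝ) < ε / 4 by linarith))
  obtain ⟨n, h5, h6⟩ := (e1.and e2).exists
  have h7 := ha (φ n)
  have h8 := hd.tri p (a (φ n)) b
  have h9 := hd.tri b (a (φ n)) q
  rw [hd.symm b (a (φ n))] at h9
  linarith

end split

section tree

variable {X I : Type}

/-- Descendants of `i`. -/
inductive Desc (par : I → I) (root i : I) : I → Prop
  | refl : Desc par root i i
  | step {j : I} : j ≠ root → Desc par root i (par j) → Desc par root i j

variable {D : X → X → ℝ} {K : I → Set X} {par : I → I} {lev : I → ℕ} {root : I}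

theorem Desc.le (hpar : ∀ i, i ≠ root → lev (par i) + 1 = lev i) {i j : I}
    (h : Desc par root i j) : lev i ≤ lev j := by
  induction h with
  | refl => exact le_refl _
  | step hj _ ih =>
    have := hpar _ hj
    omega

theorem inter_sub (hr : lev root = 0) (h0 : ∀ i, lev i = 0 → i = root)
    (hpar : ∀ i, i ≠ root → lev (par i) + 1 = lev i)
    (hov : ∀ i j x, x ∈ K i → x ∈ K j → i ≠ j → lev j ≤ lev i → x ∈ K (par i)) (i : I) (x : X) :
    ∀ (N : ℕ) (j l : I), lev j + lev l ≤ N → x ∈ K j → x ∈ K l → Desc par root i j →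
      ¬Desc par root i l → x ∈ K i ∩ K (par i) := by
  intro N
  induction N with
  | zero =>
    intro j l hN hj hl hdj hdl
    exfalso
    have h1 : j = root := h0 j (by omega)
    have h2 : l = root := h0 l (by omega)
    rw [h1] at hdj
    rw [h2] at hdl
    exact hdl hdj
  | succ N ih =>
    intro j l hN hj hl hdj hdl
    have hjl : j ≠ l := by
      rintro rfl
      exact hdl hdj
    rcases le_total (lev l) (lev j) with hle | hle
    · have hjr : j ≠ root := by
        intro h
        rw [h, hr] at hle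
        exact hjl (h.trans (h0 l (by omega)).symm)
      have h3 := hov j l x hj hl hjl hle
      cases hdj with
      | refl => exact ⟨hj, h3⟩
      | step _ hd' =>
        refine ih (par j) l ?_ h3 hl hd' hdl
        have := hpar j hjr
        omega
    · have hlr : l ≠ root := by
        intro h
        rw [h, hr] at hle
        exact hjl ((h0 j (by omega)).trans h.symm)
      have h3 : x ∈ K (par l) := hov l j x hl hj hjl.symm hle
      refine ih j (par l) ?_ hj h3 hdj (fun h => hdl (Desc.step hlr h))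
      have := hpar l hlr
      omega

/-- The family of pseudometrics which are at most `D` on the pieces. -/
def Fam (D : X → X → ℝ) (K : I → Set X) : Set (X → X → ℝ) :=
  {δ | IsPM δ ∧ ∀ i, ∀ x ∈ K i, ∀ y ∈ K i, δ x y ≤ D x y}

/-- The largest pseudometric. -/
noncomputable def dm (D : X → X → ℝ) (K : I → Set X) (x y : X) : ℝ :=
  ⨆ δ : Fam D K, (δ : X → X → ℝ) x y

theorem root_ne (h0 : ∀ i, lev i = 0 → i = root)
    (hpar : ∀ i, i ≠ root → lev (par i) + 1 = lev i)
    (hne : ∀ i, i ≠ root → (K i ∩ K (par i)).Nonempty) :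
    ∀ (n : ℕ) (i : I), lev i ≤ n → (K i).Nonempty → (K root).Nonempty := by
  intro n
  induction n with
  | zero => intro i hi h; rwa [h0 i (by omega)] at h
  | succ n ih =>
    intro i hi h
    by_cases hir : i = root
    · rwa [hir] at h
    · have := hpar i hir
      exact ih (par i) (by omega) ((hne i hir).mono Set.inter_subset_right)

theorem bound_root (h0 : ∀ i, lev i = 0 → i = root)
    (hpar : ∀ i, i ≠ root → lev (par i) + 1 = lev i)
    (hne : ∀ i, i ≠ root → (K i ∩ K (par i)).Nonempty) (y : X) (hy : y ∈ K root) :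
    ∀ (n : ℕ) (i : I), lev i ≤ n → ∀ x ∈ K i, ∃ B : ℝ, ∀ δ ∈ Fam D K, δ x y ≤ B := by
  intro n
  induction n with
  | zero =>
    intro i hi x hx
    rw [h0 i (by omega)] at hx
    exact ⟨D x y, fun δ hδ => hδ.2 _ x hx y hy⟩
  | succ n ih =>
    intro i hi x hx
    by_cases hir : i = root
    · rw [hir] at hx
      exact ⟨D x y, fun δ hδ => hδ.2 _ x hx y hy⟩
    · have := hpar i hir
      obtain ⟨a, ha1, ha2⟩ := hne i hir
      obtain ⟨B, hB⟩ := ih (par i) (by omega) a ha2
      refine ⟨D x a + B, fun δ hδ => ?_⟩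
      have h1 := hδ.1.tri x a y
      have h2 := hδ.2 i x hx a ha1
      have h3 := hB δ hδ
      linarith

theorem bdd (h0 : ∀ i, lev i = 0 → i = root)
    (hpar : ∀ i, i ≠ root → lev (par i) + 1 = lev i) (hcov : ∀ x, ∃ i, x ∈ K i)
    (hne : ∀ i, i ≠ root → (K i ∩ K (par i)).Nonempty) (x y : X) :
    BddAbove (Set.range fun δ : Fam D K => (δ : X → X → ℝ) x y) := by
  obtain ⟨i, hi⟩ := hcov x
  obtain ⟨j, hj⟩ := hcov y
  obtain ⟨z, hz⟩ := root_ne h0 hpar hne (lev i) i le_rfl ⟨x, hi⟩
  obtain ⟨B, hB⟩ := bound_root (D := D) h0 hpar hne z hz (lev i) i le_rfl x hi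
  obtain ⟨B', hB'⟩ := bound_root (D := D) h0 hpar hne z hz (lev j) j le_rfl y hj
  refine ⟨B + B', ?_⟩
  rintro _ ⟨⟨δ, hδ⟩, rfl⟩
  have h1 := hδ.1.tri x z y
  have h2 := hB δ hδ
  have h3 := hB' δ hδ
  rw [hδ.1.symm y z] at h3
  change δ x y ≤ _
  linarith

theorem dm_facts (hD : IsPM D)
    (hb : ∀ x y, BddAbove (Set.range fun δ : Fam D K => (δ : X → X → ℝ) x y)) :
    IsPM (dm D K) ∧ (∀ x y, D x y ≤ dm D K x y) ∧
      (∀ i, ∀ x ∈ K i, ∀ y ∈ K i, dm D K x y = D x y) ∧
      (∀ d' : X → X → ℝ, IsPM d' → (∀ i, ∀ x ∈ K i, ∀ y ∈ K i, d' x y ≤ D x y) →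
        ∀ x y, d' x y ≤ dm D K x y) := by
  have hmem : D ∈ Fam D K := ⟨hD, fun i x _ y _ => le_rfl⟩
  have : Nonempty (Fam D K) := ⟨⟨D, hmem⟩⟩
  have hmax : ∀ d' : X → X → ℝ, IsPM d' → (∀ i, ∀ x ∈ K i, ∀ y ∈ K i, d' x y ≤ D x y) →
      ∀ x y, d' x y ≤ dm D K x y := fun d' h1 h2 x y =>
    le_ciSup (hb x y) ⟨d', h1, h2⟩
  have hle : ∀ x y, D x y ≤ dm D K x y := hmax D hmem.1 hmem.2
  refine ⟨⟨?_, ?_, ?_⟩, hle, ?_, hmax⟩
  · intro x
    have h1 : ∀ δ : Fam D K, (δ : X → X → ℝ) x x = 0 := fun δ => δ.2.1.self x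
    unfold dm
    simp only [h1]
    exact ciSup_const
  · intro x y
    unfold dm
    congr 1
    funext δ
    exact δ.2.1.symm x y
  · intro x y z
    apply ciSup_le
    intro δ
    have h1 := δ.2.1.tri x y z
    have h2 : (δ : X → X → ℝ) x y ≤ dm D K x y := le_ciSup (hb x y) δ
    have h3 : (δ : X → X → ℝ) y z ≤ dm D K y z := le_ciSup (hb y z) δ
    linarith
  · intro i x hx y hy
    apply le_antisymm _ (hle x y)
    apply ciSup_le
    intro δ
    exact δ.2.2 i x hx y hy

/-- The union of a set of pieces. -/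
def UJ (K : I → Set X) (J : Finset I) : Set X := {x | ∃ j ∈ J, x ∈ K j}

/-- Parent-closed finite sets. -/
def PC (par : I → I) (root : I) (J : Finset I) : Prop :=
  root ∈ J ∧ ∀ j ∈ J, j ≠ root → par j ∈ J

theorem exists_PC (hpar : ∀ i, i ≠ root → lev (par i) + 1 = lev i) (h0 : ∀ i, lev i = 0 → i = root)
    (J : Finset I) (hJ : PC par root J) :
    ∀ (n : ℕ) (i : I), lev i ≤ n → ∃ J' : Finset I, PC par root J' ∧ J ⊆ J' ∧ i ∈ J' := by
  intro n
  induction n with
  | zero =>
    intro i hi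
    exact ⟨J, hJ, subset_rfl, by rw [h0 i (by omega)]; exact hJ.1⟩
  | succ n ih =>
    intro i hi
    by_cases hir : i = root
    · exact ⟨J, hJ, subset_rfl, by rw [hir]; exact hJ.1⟩
    · have := hpar i hir
      obtain ⟨J', h1, h2, h3⟩ := ih (par i) (by omega)
      refine ⟨insert i J', ⟨Finset.mem_insert_of_mem h1.1, ?_⟩,
        h2.trans (Finset.subset_insert _ _), Finset.mem_insert_self _ _⟩
      intro j hj hjr
      rcases Finset.mem_insert.mp hj with rfl | hj
      · exact Finset.mem_insert_of_mem h3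
      · exact Finset.mem_insert_of_mem (h1.2 j hj hjr)

end tree

/-- A point which is at the right distances sees what the Stewart point sees. -/
theorem stw_unique {X : Type} {d : X → X → ℝ} (hd : IsPM d) {t : ℝ} (ht0 : 0 ≤ t) (ht1 : t ≤ 1)
    {x y m m' z : X} (hm : Stw d t x y m x) (hm' : Stw d t x y m y)
    (hm1 : Stw d t x y m' m) (hz : Stw d t x y m' z) : Stw d t x y m z := by
  have hL := hd.nonneg x y
  have h1 : d x m ≤ t * d x y := by
    unfold Stw at hm
    rw [hd.self] at hm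
    have : d x m ^ 2 ≤ (t * d x y) ^ 2 := by nlinarith
    exact le_of_sq_le_sq this (mul_nonneg ht0 hL)
  have h2 : d y m ≤ (1 - t) * d x y := by
    unfold Stw at hm'
    rw [hd.self, hd.symm y x] at hm'
    have : d y m ^ 2 ≤ ((1 - t) * d x y) ^ 2 := by nlinarith
    exact le_of_sq_le_sq this (mul_nonneg (by linarith) hL)
  have h3 : d m m' = 0 := by
    unfold Stw at hm1
    have h4 : d m x ^ 2 ≤ (t * d x y) ^ 2 := by
      rw [hd.symm m x]
      exact pow_le_pow_left₀ (hd.nonneg _ _) h1 2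
    have h5 : d m y ^ 2 ≤ ((1 - t) * d x y) ^ 2 := by
      rw [hd.symm m y]
      exact pow_le_pow_left₀ (hd.nonneg _ _) h2 2
    have h6 : (1 - t) * d m x ^ 2 ≤ (1 - t) * (t * d x y) ^ 2 :=
      mul_le_mul_of_nonneg_left h4 (by linarith)
    have h7 : t * d m y ^ 2 ≤ t * ((1 - t) * d x y) ^ 2 := mul_le_mul_of_nonneg_left h5 ht0
    have h8 : d m m' ^ 2 ≤ 0 := by nlinarith
    have h9 := sq_nonneg (d m m')
    exact pow_eq_zero_iff (two_ne_zero) |>.mp (le_antisymm h8 h9)
  have h10 : d z m = d z m' := by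
    apply le_antisymm
    · have := hd.tri z m' m
      rw [hd.symm m' m, h3] at this
      linarith
    · have := hd.tri z m m'
      rw [h3] at this
      linarith
  unfold Stw
  rw [h10]
  exact hz

end TPX

theorem tp_proof (hIG : Stmt_IG) : Stmt_TP := by
  classical
  intro X I D hD K par lev root hr h0 hpar hcov hov hne hcat hA
  have hb := TPX.bdd (D := D) h0 hpar hcov hne
  obtain ⟨hd, hle, heq, hmax⟩ := TPX.dm_facts hD hb
  set d := TPX.dm D K with hddef
  have hcatd : ∀ i, CATon d (K i) := by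
    intro i x hx y hy t ht0 ht1
    obtain ⟨m, hm, h1⟩ := hcat i x hx y hy t ht0 ht1
    refine ⟨m, hm, fun z hz => ?_⟩
    have h2 := h1 z hz
    unfold Stw at h2 ⊢
    rwa [heq i z hz m hm, heq i z hz x hx, heq i z hz y hy, heq i x hx y hy]
  have hTC : ∀ i, i ≠ root → TClosed d (K i ∩ K (par i)) := by
    intro i hi x hx y hy t ht0 ht1
    obtain ⟨m, hm, h1, h2⟩ := (hA i hi).1 x hx y hy t ht0 ht1
    refine ⟨m, hm, ?_, ?_⟩
    · rw [heq i x hx.1 m hm.1, heq i x hx.1 y hy.1]; exact h1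
    · rw [heq i m hm.1 y hy.1, heq i x hx.1 y hy.1]; exact h2
  -- splitting along the overlap of `K i` and `K (par i)`
  have hsplit : ∀ i, i ≠ root → ∀ p q : X, (∃ j, ¬TPX.Desc par root i j ∧ p ∈ K j) →
      (∃ j, TPX.Desc par root i j ∧ q ∈ K j) →
      ∃ a ∈ K i ∩ K (par i), d p q = d p a + d a q := by
    intro i hi p q hp hq
    let U : Set X := {x | ∃ j, ¬TPX.Desc par root i j ∧ x ∈ K j}
    let V : Set X := {x | ∃ j, TPX.Desc par root i j ∧ x ∈ K j}
    have hUV : U ∩ V = K i ∩ K (par i) := by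
      ext x
      constructor
      · rintro ⟨⟨l, hl1, hl2⟩, ⟨j, hj1, hj2⟩⟩
        exact TPX.inter_sub hr h0 hpar hov i x _ j l le_rfl hj2 hl2 hj1 hl1
      · rintro ⟨h1, h2⟩
        refine ⟨⟨par i, ?_, h2⟩, ⟨i, TPX.Desc.refl, h1⟩⟩
        intro h
        have h3 := h.le hpar
        have h4 := hpar i hi
        omega
    have hA0 : (U ∩ V).Nonempty := by rw [hUV]; exact hne i hi
    have h1 := TPX.split hd U V (fun x => by
      obtain ⟨j, hj⟩ := hcov x
      by_cases hdj : TPX.Desc par root i j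
      · exact Or.inr ⟨j, hdj, hj⟩
      · exact Or.inl ⟨j, hdj, hj⟩) hA0 (by
      intro δ hδ h1 h2
      apply hmax δ hδ
      intro j x hx y hy
      by_cases hdj : TPX.Desc par root i j
      · exact (h2 x ⟨j, hdj, hx⟩ y ⟨j, hdj, hy⟩).trans (heq j x hx y hy).le
      · exact (h1 x ⟨j, hdj, hx⟩ y ⟨j, hdj, hy⟩).trans (heq j x hx y hy).le) p q hp hq
    rw [hUV] at h1 hA0
    apply TPX.attained hd hA0 _ p q h1
    intro x0 R a ha
    obtain ⟨b, hb1, φ, hφ, hlim⟩ := (hA i hi).2 x0 R a fun n =>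
      ⟨(ha n).1, (hle _ _).trans (ha n).2⟩
    refine ⟨b, hb1, φ, hφ, ?_⟩
    refine hlim.congr fun n => ?_
    exact (heq i _ (ha _).1.1 b hb1.1).symm
  -- finite unions
  have hfin : ∀ (n : ℕ) (J : Finset I), J.card = n → TPX.PC par root J →
      CATon d (TPX.UJ K J) := by
    intro n
    induction n with
    | zero =>
      intro J hJ hPC
      rw [Finset.card_eq_zero] at hJ
      have := hPC.1
      rw [hJ] at this
      exact absurd this (Finset.notMem_empty _)
    | succ n ih =>
      intro J hJ hPC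
      by_cases hJr : ∀ j ∈ J, j = root
      · have h1 : TPX.UJ K J = K root := by
          ext x
          constructor
          · rintro ⟨j, hj, hx⟩
            rwa [hJr j hj] at hx
          · intro hx
            exact ⟨root, hPC.1, hx⟩
        rw [h1]
        exact hcatd root
      · push Not at hJr
        obtain ⟨j0, hj0, hj0r⟩ := hJr
        obtain ⟨i, hiJ, hi⟩ := Finset.exists_max_image J lev ⟨j0, hj0⟩
        have hir : i ≠ root := by
          intro h
          have h1 := hi j0 hj0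
          rw [h, hr] at h1
          exact hj0r (h0 j0 (by omega))
        have hdesc : ∀ j ∈ J.erase i, ¬TPX.Desc par root i j := by
          intro j hj hd
          have hj1 := Finset.mem_erase.mp hj
          cases hd with
          | refl => exact hj1.1 rfl
          | step hjr hd' =>
            have h1 := hd'.le hpar
            have h2 := hpar j hjr
            have h3 := hi j hj1.2
            omega
        have hPC' : TPX.PC par root (J.erase i) := by
          refine ⟨Finset.mem_erase.mpr ⟨hir.symm, hPC.1⟩, ?_⟩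
          intro j hj hjr
          have hj1 := Finset.mem_erase.mp hj
          refine Finset.mem_erase.mpr ⟨?_, hPC.2 j hj1.2 hjr⟩
          intro h
          have h2 := hpar j hjr
          have h3 := hi j hj1.2
          rw [h] at h2
          omega
        have hU : TPX.UJ K J = TPX.UJ K (J.erase i) ∪ K i := by
          ext x
          constructor
          · rintro ⟨j, hj, hx⟩
            by_cases hji : j = i
            · right; rwa [hji] at hx
            · left; exact ⟨j, Finset.mem_erase.mpr ⟨hji, hj⟩, hx⟩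
          · rintro (⟨j, hj, hx⟩ | hx)
            · exact ⟨j, (Finset.mem_erase.mp hj).2, hx⟩
            · exact ⟨i, hiJ, hx⟩
        have hI : TPX.UJ K (J.erase i) ∩ K i = K i ∩ K (par i) := by
          ext x
          constructor
          · rintro ⟨⟨j, hj, hx⟩, hxi⟩
            have hj1 := Finset.mem_erase.mp hj
            exact ⟨hxi, hov i j x hxi hx hj1.1.symm (hi j hj1.2)⟩
          · rintro ⟨h1, h2⟩
            refine ⟨⟨par i, Finset.mem_erase.mpr ⟨?_, hPC.2 i hiJ hir⟩, h2⟩, h1⟩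
            intro h
            have h3 := hpar i hir
            rw [h] at h3
            omega
        rw [hU]
        apply hIG X d hd
        · rintro q ⟨j, hj, hq⟩ q' hq'
          rw [hI]
          exact hsplit i hir q q' ⟨j, hdesc j hj, hq⟩ ⟨i, TPX.Desc.refl, hq'⟩
        · apply ih (J.erase i) _ hPC'
          rw [Finset.card_erase_of_mem hiJ, hJ]
          rfl
        · exact hcatd i
        · rw [hI]
          exact hTC i hir
  refine ⟨d, hd, hle, heq, ?_, hmax⟩
  intro x _ y _ t ht0 ht1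
  have hPC0 : TPX.PC par root {root} := by
    refine ⟨Finset.mem_singleton_self _, ?_⟩
    intro j hj hjr
    exact absurd (Finset.mem_singleton.mp hj) hjr
  obtain ⟨i, hi⟩ := hcov x
  obtain ⟨j, hj⟩ := hcov y
  obtain ⟨J1, hJ1, _, hiJ1⟩ := TPX.exists_PC hpar h0 {root} hPC0 (lev i) i le_rfl
  obtain ⟨J2, hJ2, hJ12, hjJ2⟩ := TPX.exists_PC hpar h0 J1 hJ1 (lev j) j le_rfl
  obtain ⟨m, hm, hm2⟩ := hfin _ J2 rfl hJ2 x ⟨i, hJ12 hiJ1, hi⟩ y ⟨j, hjJ2, hj⟩ t ht0 ht1
  refine ⟨m, Set.mem_univ _, fun z _ => ?_⟩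
  obtain ⟨l, hl⟩ := hcov z
  obtain ⟨J3, hJ3, hJ23, hlJ3⟩ := TPX.exists_PC hpar h0 J2 hJ2 (lev l) l le_rfl
  have hmono : ∀ w ∈ TPX.UJ K J2, w ∈ TPX.UJ K J3 := fun w ⟨a, ha, hw⟩ => ⟨a, hJ23 ha, hw⟩
  obtain ⟨m', hm', hm'2⟩ := hfin _ J3 rfl hJ3 x (hmono x ⟨i, hJ12 hiJ1, hi⟩) y
    (hmono y ⟨j, hjJ2, hj⟩) t ht0 ht1
  exact TPX.stw_unique hd ht0 ht1 (hm2 x ⟨i, hJ12 hiJ1, hi⟩) (hm2 y ⟨j, hjJ2, hj⟩)
    (hm'2 m (hmono m hm)) (hm'2 z ⟨l, hlJ3, hl⟩)

end Pool.Agent.SD
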