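import Pool.Agent.SD.HULL
import Pool.Agent.SD.ST1
import Pool.Agent.SD.ST
import Pool.Agent.SD.VHST
import Pool.Agent.SD.TP
import Pool.Agent.SD.RT
import Pool.Agent.SD.IG
import Pool.Agent.SD.CATEQ
import Pool.Agent.SD.CPROD
import Pool.Agent.SD.LVN
import Pool.Agent.SD.Geo

/-!
# Assembly of the geometric part: `P0.gad.Grp × FreeGroup Lab` is a CAT(0) group.
-/

set_option autoImplicit false

namespace Pool.Agent.SD

theorem tp_all : Stmt_TP := tp_proof ig_proof

theorem st1_all : Stmt_ST1 := st1_proof tp_all

theorem st_all : Stmt_ST := st_proof st1_all rt_proof hull_proof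

theorem vhst_all : Stmt_VHST := vhst_proof lvn_proof

/-- The group `P0.gad.Grp × FreeGroup Lab` is a CAT(0) group. -/
theorem geo_all : Stmt_Geo := geo_proof vhst_all st_all cprod_proof cateq_proof

end Pool.Agent.SD
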