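import Mathlib
import Pool.Agent.SD.Defs
import Pool.Agent.SD.Stmts

/-!
# Squad SD: the dimension part (cohomological dimension 3 of `Γ₁ × F(X)`), statements

The cohomological dimension of a group `G` is the projective dimension (Mathlib's
`CategoryTheory.projectiveDimension`) of the trivial `ℤ[G]`-module `ℤ`.
-/

set_option autoImplicit false

namespace Pool.Agent.SD

open CategoryTheory

/-- The trivial `ℤ[G]`-module `ℤ`. -/
abbrev TrivMod (G : Type) [Group G] : Type := (Representation.trivial ℤ G ℤ).asModule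

/-- The cohomological dimension of `G`: the projective dimension of the trivial `ℤ[G]`-module. -/
noncomputable def cohDim (G : Type) [Group G] : WithBot ℕ∞ :=
  projectiveDimension (ModuleCat.of (MonoidAlgebra ℤ G) (TrivMod G))

/-- The linear map `c ↦ (y ↦ ∑ k, c k * m k y)` of free left modules. -/
def mulR {A K Y : Type} [Ring A] [Fintype K] (m : K → Y → A) : (K → A) →ₗ[A] (Y → A) where
  toFun c y := ∑ k, c k * m k y
  map_add' c d := by ext y; simp [add_mul, Finset.sum_add_distrib]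
  map_smul' a c := by ext y; simp [mul_assoc, Finset.mul_sum]

@[simp] theorem mulR_apply {A K Y : Type} [Ring A] [Fintype K] (m : K → Y → A) (c : K → A)
    (y : Y) : mulR m c y = ∑ k, c k * m k y := rfl

/-- The augmentation `ℤ[R] → ℤ`. -/
noncomputable def augZ (R : Type) [Group R] : MonoidAlgebra ℤ R →+* ℤ :=
  (MonoidAlgebra.lift ℤ ℤ R 1).toRingHom

/-- `ℤ[Γ] → ℤ[Γ × F]` -/
noncomputable def inlR (Γ F : Type) [Group Γ] [Group F] :
    MonoidAlgebra ℤ Γ →+* MonoidAlgebra ℤ (Γ × F) :=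
  MonoidAlgebra.mapDomainRingHom ℤ (MonoidHom.inl Γ F)

/-- `ℤ[Γ × F] → ℤ[F]` -/
noncomputable def sndR (Γ F : Type) [Group Γ] [Group F] :
    MonoidAlgebra ℤ (Γ × F) →+* MonoidAlgebra ℤ F :=
  MonoidAlgebra.mapDomainRingHom ℤ (MonoidHom.snd Γ F)

/-! ## Homological algebra -/

/-- RES3.  A projective resolution of length 3 whose first map does not split. -/
def Stmt_Res3 : Prop :=
  ∀ (A : Type) [Ring A] (P3 P2 P1 P0 M : Type) [AddCommGroup P3] [AddCommGroup P2]
    [AddCommGroup P1] [AddCommGroup P0] [AddCommGroup M] [Module A P3] [Module A P2]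
    [Module A P1] [Module A P0] [Module A M] [Module.Projective A P3] [Module.Projective A P2]
    [Module.Projective A P1] [Module.Projective A P0]
    (d3 : P3 →ₗ[A] P2) (d2 : P2 →ₗ[A] P1) (d1 : P1 →ₗ[A] P0) (d0 : P0 →ₗ[A] M),
    Function.Injective d3 → LinearMap.range d3 = LinearMap.ker d2 →
    LinearMap.range d2 = LinearMap.ker d1 → LinearMap.range d1 = LinearMap.ker d0 →
    Function.Surjective d0 → (¬ ∃ r : P2 →ₗ[A] P3, ∀ x, r (d3 x) = x) →
    projectiveDimension (ModuleCat.of A M) = 3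

/-- CONE.  The mapping cone of a lift `f2, f1, f0` of the injection `f : N' → N` with cokernel
`M` to the resolutions `K2 → K1 → K0 → N'` and `C2 → C1 → C0 → N`. -/
def Stmt_Cone : Prop :=
  ∀ (A : Type) [Ring A] (K2 K1 K0 N' C2 C1 C0 N M : Type) [AddCommGroup K2] [AddCommGroup K1]
    [AddCommGroup K0] [AddCommGroup N'] [AddCommGroup C2] [AddCommGroup C1] [AddCommGroup C0]
    [AddCommGroup N] [AddCommGroup M] [Module A K2] [Module A K1] [Module A K0] [Module A N']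
    [Module A C2] [Module A C1] [Module A C0] [Module A N] [Module A M]
    (k2 : K2 →ₗ[A] K1) (k1 : K1 →ₗ[A] K0) (k0 : K0 →ₗ[A] N')
    (c2 : C2 →ₗ[A] C1) (c1 : C1 →ₗ[A] C0) (c0 : C0 →ₗ[A] N)
    (f2 : K2 →ₗ[A] C2) (f1 : K1 →ₗ[A] C1) (f0 : K0 →ₗ[A] C0) (f : N' →ₗ[A] N)
    (g : N →ₗ[A] M),
    c2 ∘ₗ f2 = f1 ∘ₗ k2 → c1 ∘ₗ f1 = f0 ∘ₗ k1 → c0 ∘ₗ f0 = f ∘ₗ k0 →
    Function.Injective k2 → LinearMap.range k2 = LinearMap.ker k1 →
    LinearMap.range k1 = LinearMap.ker k0 → Function.Surjective k0 →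
    Function.Injective c2 → LinearMap.range c2 = LinearMap.ker c1 →
    LinearMap.range c1 = LinearMap.ker c0 → Function.Surjective c0 →
    Function.Injective f → LinearMap.range f = LinearMap.ker g → Function.Surjective g →
    let d3 : K2 →ₗ[A] C2 × K1 := f2.prod (-k2)
    let d2 : C2 × K1 →ₗ[A] C1 × K0 := (c2.coprod f1).prod (-(k1 ∘ₗ LinearMap.snd A C2 K1))
    let d1 : C1 × K0 →ₗ[A] C0 := c1.coprod f0
    let d0 : C0 →ₗ[A] M := g ∘ₗ c0
    Function.Injective d3 ∧ LinearMap.range d3 = LinearMap.ker d2 ∧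
      LinearMap.range d2 = LinearMap.ker d1 ∧ LinearMap.range d1 = LinearMap.ker d0 ∧
      Function.Surjective d0

/-! ## The resolution of the fundamental group of a VH complex -/

/-- AUG.  The augmentation ideal is generated by the `y - 1`, `y` a generator. -/
def Stmt_Aug : Prop :=
  ∀ (Y R : Type) [Group R] [Fintype Y] (π : FreeGroup Y →* R), Function.Surjective π →
    ∀ a : MonoidAlgebra ℤ R, augZ R a = 0 →
      ∃ c : Y → MonoidAlgebra ℤ R,
        ∑ y, c y * (MonoidAlgebra.of ℤ R (π (FreeGroup.of y)) - 1) = a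

/-- JAC.  Exactness of `ℤ[R]^K → ℤ[R]^Y → ℤ[R]` (from `Stmt_Cycle`). -/
def Stmt_Jac : Prop :=
  ∀ (Y R K : Type) [Group R] [Fintype Y] [DecidableEq Y] [Fintype K] (π : FreeGroup Y →* R)
    (rel : K → FreeGroup Y) (D : FreeGroup Y → Y → MonoidAlgebra ℤ R), IsFox π D →
    Function.Surjective π → π.ker = Subgroup.normalClosure (Set.range rel) →
    ∀ c : Y → MonoidAlgebra ℤ R,
      ∑ y, c y * (MonoidAlgebra.of ℤ R (π (FreeGroup.of y)) - 1) = 0 ↔
        ∃ b : K → MonoidAlgebra ℤ R, mulR (fun k => D (rel k)) b = c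

/-- VHINJ.  Asphericity of the VH complex (from `Stmt_VdW` with `M = Multiplicative (S → ℤ[Γ])`
and `Stmt_Magnus`). -/
def Stmt_VHInj : Prop :=
  ∀ (H V S : Type) [Fintype H] [Fintype V] [Fintype S] [DecidableEq H] [DecidableEq V]
    (D : VHData H V S) (Df : FreeGroup (H ⊕ V) → (H ⊕ V) → MonoidAlgebra ℤ D.Grp),
    IsFox (PresentedGroup.mk (Set.range D.word)) Df →
    Function.Injective (mulR fun s => Df (D.word s))

/-! ## Passing from `Γ` to `Γ × F` -/

/-- TRANS. -/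
def Stmt_Trans : Prop :=
  ∀ (Γ F : Type) [Group Γ] [Group F] (K Y L : Type) [Fintype K] [Fintype Y]
    (m2 : K → Y → MonoidAlgebra ℤ Γ) (m1 : Y → L → MonoidAlgebra ℤ Γ),
    (∀ c : Y → MonoidAlgebra ℤ Γ, mulR m1 c = 0 → ∃ b, mulR m2 b = c) →
    ∀ c : Y → MonoidAlgebra ℤ (Γ × F), mulR (fun y l => inlR Γ F (m1 y l)) c = 0 →
      ∃ b, mulR (fun k y => inlR Γ F (m2 k y)) b = c

/-- TRANS0. -/
def Stmt_Trans0 : Prop :=
  ∀ (Γ F : Type) [Group Γ] [Group F] (Y : Type) [Fintype Y] (m1 : Y → MonoidAlgebra ℤ Γ),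
    (∀ a : MonoidAlgebra ℤ Γ, augZ Γ a = 0 → ∃ c : Y → MonoidAlgebra ℤ Γ, ∑ y, c y * m1 y = a) →
    ∀ a : MonoidAlgebra ℤ (Γ × F), sndR Γ F a = 0 →
      ∃ c : Y → MonoidAlgebra ℤ (Γ × F), ∑ y, c y * inlR Γ F (m1 y) = a

/-- FRX.  For the free group, `ℤ[F]^X → ℤ[F]` is injective (from `Stmt_Cycle` with `π = id`). -/
def Stmt_FrX : Prop :=
  ∀ (X : Type) [Fintype X] [DecidableEq X] (c : X → MonoidAlgebra ℤ (FreeGroup X)),
    ∑ x, c x * (MonoidAlgebra.of ℤ (FreeGroup X) (FreeGroup.of x) - 1) = 0 → c = 0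

/-- NOSPLIT.  The first map of the cone does not split as soon as one square has Fox
derivatives of augmentation 0. -/
def Stmt_NoSplit : Prop :=
  ∀ (Γ F : Type) [Group Γ] [Group F] (X S Y : Type) [Fintype X] [Fintype S] [Fintype Y]
    (m : S → Y → MonoidAlgebra ℤ Γ) (t : X → F) (_ : X) (s0 : S), (∀ y, augZ Γ (m s0 y) = 0) →
    ∀ (f2 : (X → S → MonoidAlgebra ℤ (Γ × F)) →ₗ[MonoidAlgebra ℤ (Γ × F)]
        (S → MonoidAlgebra ℤ (Γ × F)))
      (k2 : (X → S → MonoidAlgebra ℤ (Γ × F)) →ₗ[MonoidAlgebra ℤ (Γ × F)]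
        (X → Y → MonoidAlgebra ℤ (Γ × F))),
      (∀ c s, f2 c s = ∑ x, c x s * (MonoidAlgebra.of ℤ (Γ × F) (1, t x) - 1)) →
      (∀ c x, k2 c x = mulR (fun s y => inlR Γ F (m s y)) (c x)) →
      ¬ ∃ r : (S → MonoidAlgebra ℤ (Γ × F)) × (X → Y → MonoidAlgebra ℤ (Γ × F))
          →ₗ[MonoidAlgebra ℤ (Γ × F)] (X → S → MonoidAlgebra ℤ (Γ × F)),
        ∀ c, r (f2.prod (-k2) c) = c

/-! ## The result -/

/-- CDIM.  The cohomological dimension of `Γ × F(X)`, `Γ` the fundamental group of a finite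
one-vertex VH complex with at least one square `h v = v h`, `X` finite and nonempty, is 3. -/
def Stmt_CDim : Prop :=
  ∀ (H V S X : Type) [Fintype H] [Fintype V] [Fintype S] [DecidableEq H] [DecidableEq V]
    [Fintype X] [DecidableEq X] [Nonempty X] (D : VHData H V S),
    (∃ s, D.h s = D.h' s ∧ D.v s = D.v' s) → cohDim (D.Grp × FreeGroup X) = 3

end Pool.Agent.SD
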