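import Pool.Agent.SD.Dim

/-!
# Squad SD, module DIM_AUG
-/

set_option autoImplicit false

namespace Pool.Agent.SD

namespace DimAug

theorem augZ_of {R : Type} [Group R] (g : R) : augZ R (MonoidAlgebra.of ℤ R g) = 1 := by
  have h : augZ R (MonoidAlgebra.of ℤ R g) = MonoidAlgebra.lift ℤ ℤ R 1 (MonoidAlgebra.of ℤ R g) := rfl
  rw [h, MonoidAlgebra.lift_of]
  rfl

/-- The left ideal generated by the `y - 1`. -/
noncomputable def ideal {Y R : Type} [Group R] (π : FreeGroup Y →* R) :
    Submodule (MonoidAlgebra ℤ R) (MonoidAlgebra ℤ R) :=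
  Submodule.span _ (Set.range fun y => MonoidAlgebra.of ℤ R (π (FreeGroup.of y)) - 1)

/-- The subgroup of all `g` with `g - 1` in the ideal. -/
noncomputable def sub {Y R : Type} [Group R] (π : FreeGroup Y →* R) : Subgroup R where
  carrier := {g | MonoidAlgebra.of ℤ R g - 1 ∈ ideal π}
  one_mem' := by
    show MonoidAlgebra.of ℤ R 1 - 1 ∈ ideal π
    rw [map_one, sub_self]
    exact Submodule.zero_mem _
  mul_mem' := by
    intro a b ha hb
    have h : MonoidAlgebra.of ℤ R (a * b) - 1 =
        MonoidAlgebra.of ℤ R a • (MonoidAlgebra.of ℤ R b - 1) + (MonoidAlgebra.of ℤ R a - 1) := by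
      rw [map_mul, smul_eq_mul]
      noncomm_ring
    show MonoidAlgebra.of ℤ R (a * b) - 1 ∈ ideal π
    rw [h]
    exact Submodule.add_mem _ (Submodule.smul_mem _ _ hb) ha
  inv_mem' := by
    intro a ha
    have h : MonoidAlgebra.of ℤ R a⁻¹ - 1 =
        (-MonoidAlgebra.of ℤ R a⁻¹) • (MonoidAlgebra.of ℤ R a - 1) := by
      have h1 : MonoidAlgebra.of ℤ R a⁻¹ * MonoidAlgebra.of ℤ R a = 1 := by
        rw [← map_mul, inv_mul_cancel, map_one]
      rw [smul_eq_mul, neg_mul, mul_sub, h1, mul_one]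
      noncomm_ring
    show MonoidAlgebra.of ℤ R a⁻¹ - 1 ∈ ideal π
    rw [h]
    exact Submodule.smul_mem _ _ ha

theorem sub_top {Y R : Type} [Group R] (π : FreeGroup Y →* R) (hπ : Function.Surjective π) (g : R) :
    MonoidAlgebra.of ℤ R g - 1 ∈ ideal π := by
  obtain ⟨w, rfl⟩ := hπ g
  have h : w ∈ (sub π).comap π := by
    have h1 : Subgroup.closure (Set.range (FreeGroup.of : Y → FreeGroup Y)) ≤ (sub π).comap π := by
      rw [Subgroup.closure_le]
      rintro _ ⟨y, rfl⟩
      exact Submodule.subset_span ⟨y, rfl⟩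
    rw [FreeGroup.closure_range_of] at h1
    exact h1 (Subgroup.mem_top w)
  exact h

theorem sub_aug_mem {Y R : Type} [Group R] (π : FreeGroup Y →* R) (hπ : Function.Surjective π)
    (a : MonoidAlgebra ℤ R) : a - algebraMap ℤ (MonoidAlgebra ℤ R) (augZ R a) ∈ ideal π := by
  induction a using MonoidAlgebra.induction_on with
  | of g =>
    rw [augZ_of, map_one]
    exact sub_top π hπ g
  | add a b ha hb =>
    rw [map_add, map_add, add_sub_add_comm]
    exact Submodule.add_mem _ ha hb
  | smul r a ha =>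
    have h : r • a - algebraMap ℤ (MonoidAlgebra ℤ R) (augZ R (r • a)) =
        r • (a - algebraMap ℤ (MonoidAlgebra ℤ R) (augZ R a)) := by
      rw [map_zsmul, map_zsmul, smul_sub]
    rw [h]
    exact (ideal π).toAddSubgroup.zsmul_mem ha r

end DimAug

open DimAug in
theorem aug_proof : Stmt_Aug := by
  intro Y R _ _ π hπ a ha
  have h := sub_aug_mem π hπ a
  rw [ha, map_zero, sub_zero] at h
  unfold ideal at h
  rw [Submodule.mem_span_range_iff_exists_fun] at h
  exact h

end Pool.Agent.SD
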