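import Mathlib
import Pool.Agent.SD.Defs
import Pool.Agent.SD.Stmts
import Pool.Agent.SD.Dim

/-!
# Squad SD: assembly of the dimension part
-/

set_option autoImplicit false
set_option linter.unusedSectionVars false

namespace Pool.Agent.SD.DimCDimX

open Pool.Agent.SD

/-- `ℤ[F]` as a module over `ℤ[Γ × F]`. -/
def NF (_Γ F : Type) [Group _Γ] [Group F] : Type := MonoidAlgebra ℤ F

noncomputable instance (Γ F : Type) [Group Γ] [Group F] : AddCommGroup (NF Γ F) :=
  inferInstanceAs (AddCommGroup (MonoidAlgebra ℤ F))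

noncomputable instance (Γ F : Type) [Group Γ] [Group F] :
    Module (MonoidAlgebra ℤ (Γ × F)) (NF Γ F) :=
  Module.compHom (MonoidAlgebra ℤ F) (sndR Γ F)

/-- The identity `ℤ[F] → N`. -/
noncomputable def toNF (Γ F : Type) [Group Γ] [Group F] : MonoidAlgebra ℤ F ≃+ NF Γ F :=
  AddEquiv.refl _

theorem toNF_smul (Γ F : Type) [Group Γ] [Group F] (a : MonoidAlgebra ℤ (Γ × F))
    (n : MonoidAlgebra ℤ F) : a • toNF Γ F n = toNF Γ F (sndR Γ F a * n) := rfl

theorem toNF_symm_smul (Γ F : Type) [Group Γ] [Group F] (a : MonoidAlgebra ℤ (Γ × F))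
    (n : NF Γ F) : (toNF Γ F).symm (a • n) = sndR Γ F a * (toNF Γ F).symm n := rfl

/-- The identity `ℤ → ℤ`. -/
noncomputable def toTM (G : Type) [Group G] : ℤ ≃+ TrivMod G := AddEquiv.refl _

theorem triv_smul (G : Type) [Group G] (a : MonoidAlgebra ℤ G) (z : ℤ) :
    a • toTM G z = toTM G (augZ G a * z) := by
  induction a using MonoidAlgebra.induction_on with
  | of g =>
    have : (MonoidAlgebra.of ℤ G g) • toTM G z = toTM G z := by
      rw [MonoidAlgebra.of_apply, Representation.single_smul, one_smul]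
      rfl
    rw [this]
    simp only [augZ, AlgHom.toRingHom_eq_coe, RingHom.coe_coe, MonoidAlgebra.lift_of,
      MonoidHom.one_apply, one_mul]
  | add a b ha hb =>
    rw [add_smul, ha, hb, map_add, add_mul, map_add]
  | smul r a ha =>
    rw [show r • a = (r : MonoidAlgebra ℤ G) * a by rw [← zsmul_eq_mul], mul_smul, ha,
      Int.cast_smul_eq_zsmul, ← map_zsmul, smul_eq_mul, RingHom.map_mul, map_intCast, mul_assoc,
      Int.cast_id]

/-- `c ↦ ∑ y, c y * m y` -/
def sumR {A Y : Type} [Ring A] [Fintype Y] (m : Y → A) : (Y → A) →ₗ[A] A where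
  toFun c := ∑ y, c y * m y
  map_add' c d := by simp [add_mul, Finset.sum_add_distrib]
  map_smul' a c := by simp [mul_assoc, Finset.mul_sum]

@[simp] theorem sumR_apply {A Y : Type} [Ring A] [Fintype Y] (m : Y → A) (c : Y → A) :
    sumR m c = ∑ y, c y * m y := rfl

section
variable (Γ X : Type) [Group Γ] [Fintype X] [DecidableEq X]

/-- The elements `x - 1`. -/
noncomputable def ux (x : X) : MonoidAlgebra ℤ (Γ × FreeGroup X) :=
  MonoidAlgebra.of ℤ (Γ × FreeGroup X) (1, FreeGroup.of x) - 1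

/-- right multiplication by the `x - 1` -/
noncomputable def ff (I : Type) : (X → I → MonoidAlgebra ℤ (Γ × FreeGroup X))
    →ₗ[MonoidAlgebra ℤ (Γ × FreeGroup X)] (I → MonoidAlgebra ℤ (Γ × FreeGroup X)) where
  toFun c i := ∑ x, c x i * ux Γ X x
  map_add' c d := by ext i : 1; simp [add_mul, Finset.sum_add_distrib]
  map_smul' a c := by ext i : 1; simp [mul_assoc, Finset.mul_sum]

@[simp] theorem ff_apply (I : Type) (c : X → I → MonoidAlgebra ℤ (Γ × FreeGroup X)) (i : I) :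
    ff Γ X I c i = ∑ x, c x i * ux Γ X x := rfl

theorem inlR_comm (b : MonoidAlgebra ℤ Γ) (x : X) :
    inlR Γ (FreeGroup X) b * ux Γ X x = ux Γ X x * inlR Γ (FreeGroup X) b := by
  unfold ux
  rw [mul_sub, sub_mul, mul_one, one_mul]
  congr 1
  induction b using MonoidAlgebra.induction_on with
  | of g =>
    simp only [inlR, MonoidAlgebra.of_apply, MonoidAlgebra.mapDomainRingHom_apply,
      MonoidAlgebra.mapDomain_single, MonoidAlgebra.single_mul_single, MonoidHom.inl_apply,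
      Prod.mk_mul_mk, one_mul, mul_one]
  | add a b ha hb => rw [map_add, add_mul, mul_add, ha, hb]
  | smul r a ha =>
    rw [show r • a = (r : MonoidAlgebra ℤ Γ) * a by rw [← zsmul_eq_mul], map_mul, map_intCast,
      mul_assoc, ha, ← mul_assoc, ← mul_assoc, Int.cast_comm]

/-- `f : N^X → N` -/
noncomputable def fN : (X → NF Γ (FreeGroup X)) →ₗ[MonoidAlgebra ℤ (Γ × FreeGroup X)]
    NF Γ (FreeGroup X) where
  toFun n := toNF Γ _ (∑ x, (toNF Γ _).symm (n x) *
      (MonoidAlgebra.of ℤ (FreeGroup X) (FreeGroup.of x) - 1))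
  map_add' c d := by
    rw [← map_add, ← Finset.sum_add_distrib]
    congr 1
    exact Finset.sum_congr rfl fun x _ => by rw [Pi.add_apply, map_add, add_mul]
  map_smul' a c := by
    rw [RingHom.id_apply, toNF_smul, Finset.mul_sum]
    congr 1
    exact Finset.sum_congr rfl fun x _ => by rw [Pi.smul_apply, toNF_symm_smul, mul_assoc]

theorem fN_apply (n : X → NF Γ (FreeGroup X)) : fN Γ X n =
    toNF Γ _ (∑ x, (toNF Γ _).symm (n x) *
      (MonoidAlgebra.of ℤ (FreeGroup X) (FreeGroup.of x) - 1)) := rfl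

/-- `ε : A → N` -/
noncomputable def c0 : MonoidAlgebra ℤ (Γ × FreeGroup X) →ₗ[MonoidAlgebra ℤ (Γ × FreeGroup X)]
    NF Γ (FreeGroup X) where
  toFun a := toNF Γ _ (sndR Γ (FreeGroup X) a)
  map_add' a b := by rw [map_add, map_add]
  map_smul' a b := by rw [smul_eq_mul, map_mul]; rfl

theorem c0_apply (a : MonoidAlgebra ℤ (Γ × FreeGroup X)) :
    c0 Γ X a = toNF Γ _ (sndR Γ (FreeGroup X) a) := rfl

/-- `g : N → ℤ` -/
noncomputable def gN : NF Γ (FreeGroup X) →ₗ[MonoidAlgebra ℤ (Γ × FreeGroup X)]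
    TrivMod (Γ × FreeGroup X) where
  toFun n := toTM _ (augZ (FreeGroup X) ((toNF Γ _).symm n))
  map_add' a b := by rw [map_add, map_add, map_add]
  map_smul' a b := by
    rw [RingHom.id_apply, triv_smul, toNF_symm_smul, map_mul]
    congr 2
    induction a using MonoidAlgebra.induction_on with
    | of g => simp [augZ, sndR]
    | add a b ha hb => rw [map_add, map_add, map_add, ha, hb]
    | smul r a ha =>
      rw [show r • a = (r : MonoidAlgebra ℤ (Γ × FreeGroup X)) * a by rw [← zsmul_eq_mul],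
        map_mul, map_mul, map_mul, ha]
      simp

theorem gN_apply (n : NF Γ (FreeGroup X)) :
    gN Γ X n = toTM _ (augZ (FreeGroup X) ((toNF Γ _).symm n)) := rfl

end

/-- `ℤ[Γ × F(X)]` -/
abbrev AA (Γ X : Type) [Group Γ] : Type := MonoidAlgebra ℤ (Γ × FreeGroup X)

section
variable (Γ X Y S : Type) [Group Γ] [Fintype X] [DecidableEq X] [Fintype Y] [Fintype S]

/-- The assembly, for a general aspherical presentation. -/
theorem main (h_res : Stmt_Res3) (h_cone : Stmt_Cone) (h_tr : Stmt_Trans) (h_tr0 : Stmt_Trans0)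
    (h_aug : Stmt_Aug) (h_frx : Stmt_FrX) (h_ns : Stmt_NoSplit) [Nonempty X]
    (m1 : Y → MonoidAlgebra ℤ Γ) (m2 : S → Y → MonoidAlgebra ℤ Γ) (s0 : S)
    (hs0 : ∀ y, augZ Γ (m2 s0 y) = 0) (haug1 : ∀ y, augZ Γ (m1 y) = 0)
    (ex0 : ∀ a : MonoidAlgebra ℤ Γ, augZ Γ a = 0 →
      ∃ c : Y → MonoidAlgebra ℤ Γ, ∑ y, c y * m1 y = a)
    (ex1 : ∀ c : Y → MonoidAlgebra ℤ Γ, ∑ y, c y * m1 y = 0 ↔
      ∃ b : S → MonoidAlgebra ℤ Γ, mulR m2 b = c)
    (ex2 : Function.Injective (mulR m2)) : cohDim (Γ × FreeGroup X) = 3 := by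
  obtain ⟨n2, hn2⟩ : ∃ n2 : S → Y → AA Γ X, n2 = fun s y => inlR Γ (FreeGroup X) (m2 s y) :=
    ⟨_, rfl⟩
  obtain ⟨n1, hn1⟩ : ∃ n1 : Y → AA Γ X, n1 = fun y => inlR Γ (FreeGroup X) (m1 y) := ⟨_, rfl⟩
  -- exactness over `A`
  have zero12 : ∀ s, ∑ y, m2 s y * m1 y = 0 := by
    classical
    intro s
    have h1 := (ex1 (mulR m2 (Pi.single s 1))).2 ⟨_, rfl⟩
    have h2 : mulR m2 (Pi.single s 1) = m2 s := by
      ext y : 1
      simp [Pi.single_apply]
    rw [h2] at h1
    exact h1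
  have zero12' : ∀ s, ∑ y, n2 s y * n1 y = 0 := by
    intro s
    have := congrArg (inlR Γ (FreeGroup X)) (zero12 s)
    rw [map_sum, map_zero] at this
    rw [← this, hn1, hn2]
    exact Finset.sum_congr rfl fun y _ => (map_mul _ _ _).symm
  have E1 : ∀ c : Y → AA Γ X, ∑ y, c y * n1 y = 0 ↔ ∃ b : S → AA Γ X, mulR n2 b = c := by
    intro c
    constructor
    · intro hc
      rw [hn2]
      refine h_tr Γ (FreeGroup X) S Y Unit m2 (fun y _ => m1 y) ?_ c ?_
      · intro c' hc'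
        exact (ex1 c').1 (by simpa using congrFun hc' ())
      · ext u : 1
        rw [hn1] at hc
        simpa using hc
    · rintro ⟨b, rfl⟩
      simp only [mulR_apply, Finset.sum_mul, mul_assoc]
      rw [Finset.sum_comm]
      refine Finset.sum_eq_zero fun s _ => ?_
      rw [← Finset.mul_sum, zero12' s, mul_zero]
  have E2 : Function.Injective (mulR n2) := by
    rw [injective_iff_map_eq_zero]
    intro c hc
    obtain ⟨b, hb⟩ := h_tr Γ (FreeGroup X) Empty S Y (fun k _ => k.elim) m2 (by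
      intro c' hc'
      refine ⟨fun k => k.elim, ?_⟩
      have : c' = 0 := (injective_iff_map_eq_zero (mulR m2)).1 ex2 c' hc'
      rw [this]
      ext s : 1
      simp) c (by rw [← hn2]; exact hc)
    rw [← hb]
    ext s : 1
    simp
  have key : ∀ b : MonoidAlgebra ℤ Γ, sndR Γ (FreeGroup X) (inlR Γ (FreeGroup X) b) =
      ((augZ Γ b : ℤ) : MonoidAlgebra ℤ (FreeGroup X)) := by
    intro b
    induction b using MonoidAlgebra.induction_on with
    | of g => simp [augZ, sndR, inlR, MonoidAlgebra.one_def]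
    | add a b ha hb => rw [map_add, map_add, map_add, ha, hb, Int.cast_add]
    | smul r a ha =>
      rw [show r • a = (r : MonoidAlgebra ℤ Γ) * a by rw [← zsmul_eq_mul],
        map_mul, map_mul, map_mul, ha]
      simp
  have E0 : ∀ a : AA Γ X, sndR Γ (FreeGroup X) a = 0 ↔ ∃ c : Y → AA Γ X, ∑ y, c y * n1 y = a := by
    intro a
    constructor
    · rw [hn1]; exact h_tr0 Γ (FreeGroup X) Y m1 ex0 a
    · rintro ⟨c, rfl⟩
      rw [map_sum]
      refine Finset.sum_eq_zero fun y _ => ?_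
      rw [map_mul, hn1]
      simp only
      rw [key, haug1, Int.cast_zero, mul_zero]
  -- the linear maps
  let c2 : (S → AA Γ X) →ₗ[AA Γ X] (Y → AA Γ X) := mulR n2
  let c1 : (Y → AA Γ X) →ₗ[AA Γ X] AA Γ X := sumR n1
  let c0 : AA Γ X →ₗ[AA Γ X] NF Γ (FreeGroup X) := c0 Γ X
  let k2 : (X → S → AA Γ X) →ₗ[AA Γ X] (X → Y → AA Γ X) := c2.compLeft X
  let k1 : (X → Y → AA Γ X) →ₗ[AA Γ X] (X → AA Γ X) := c1.compLeft X
  let k0 : (X → AA Γ X) →ₗ[AA Γ X] (X → NF Γ (FreeGroup X)) := c0.compLeft X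
  let f2 : (X → S → AA Γ X) →ₗ[AA Γ X] (S → AA Γ X) := ff Γ X S
  let f1 : (X → Y → AA Γ X) →ₗ[AA Γ X] (Y → AA Γ X) := ff Γ X Y
  let f0 : (X → AA Γ X) →ₗ[AA Γ X] AA Γ X := sumR (ux Γ X)
  have hc0s : Function.Surjective c0 := by
    intro n
    refine ⟨MonoidAlgebra.mapDomainRingHom ℤ (MonoidHom.inr Γ (FreeGroup X))
      ((toNF Γ _).symm n), ?_⟩
    change toNF Γ _ (sndR Γ (FreeGroup X) _) = n
    rw [sndR, ← RingHom.comp_apply, ← MonoidAlgebra.mapDomainRingHom_comp,
      MonoidHom.snd_comp_inr, MonoidAlgebra.mapDomainRingHom_id]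
    simp
  have hex1 : LinearMap.range c2 = LinearMap.ker c1 := by
    ext c
    rw [LinearMap.mem_range, LinearMap.mem_ker]
    exact (E1 c).symm
  have hex0 : LinearMap.range c1 = LinearMap.ker c0 := by
    ext a
    rw [LinearMap.mem_range, LinearMap.mem_ker]
    constructor
    · rintro ⟨c, rfl⟩
      have h0 : sndR Γ (FreeGroup X) (c1 c) = 0 := (E0 _).2 ⟨c, rfl⟩
      change toNF Γ _ (sndR Γ (FreeGroup X) (c1 c)) = 0
      rw [h0, map_zero]
    · intro h
      have : sndR Γ (FreeGroup X) a = 0 := (toNF Γ (FreeGroup X)).map_eq_zero_iff.1 h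
      exact (E0 a).1 this
  have hcomp_range : ∀ (P Q R : Type) [AddCommGroup P] [AddCommGroup Q] [AddCommGroup R]
      [Module (AA Γ X) P] [Module (AA Γ X) Q] [Module (AA Γ X) R]
      (u : P →ₗ[AA Γ X] Q) (v : Q →ₗ[AA Γ X] R), LinearMap.range u = LinearMap.ker v →
      LinearMap.range (u.compLeft X) = LinearMap.ker (v.compLeft X) := by
    intro P Q R _ _ _ _ _ _ u v h
    ext c
    rw [LinearMap.mem_range, LinearMap.mem_ker]
    constructor
    · rintro ⟨b, rfl⟩
      ext x : 1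
      have : u (b x) ∈ LinearMap.ker v := by rw [← h]; exact ⟨_, rfl⟩
      exact this
    · intro hc
      have : ∀ x, ∃ p, u p = c x := by
        intro x
        have : c x ∈ LinearMap.range u := by
          rw [h]
          exact congrFun hc x
        exact this
      choose b hb using this
      exact ⟨b, funext hb⟩
  have hinjl : ∀ (P Q : Type) [AddCommGroup P] [AddCommGroup Q]
      [Module (AA Γ X) P] [Module (AA Γ X) Q]
      (u : P →ₗ[AA Γ X] Q), Function.Injective u → Function.Injective (u.compLeft X) := by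
    intro P Q _ _ _ _ u h a b hab
    ext x : 1
    exact h (congrFun hab x)
  have hsurl : ∀ (P Q : Type) [AddCommGroup P] [AddCommGroup Q]
      [Module (AA Γ X) P] [Module (AA Γ X) Q]
      (u : P →ₗ[AA Γ X] Q), Function.Surjective u → Function.Surjective (u.compLeft X) := by
    intro P Q _ _ _ _ u h c
    choose b hb using fun x => h (c x)
    exact ⟨b, funext hb⟩
  have comm : ∀ (c b : AA Γ X) (x : X), (∃ d, b = inlR Γ (FreeGroup X) d) →
      c * b * ux Γ X x = c * ux Γ X x * b := by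
    rintro c b x ⟨d, rfl⟩
    rw [mul_assoc, inlR_comm, mul_assoc]
  have cm2 : c2 ∘ₗ f2 = f1 ∘ₗ k2 := by
    refine LinearMap.ext fun c => ?_
    ext y : 1
    change ∑ s, (∑ x, c x s * ux Γ X x) * n2 s y = ∑ x, (∑ s, c x s * n2 s y) * ux Γ X x
    simp only [Finset.sum_mul]
    rw [Finset.sum_comm]
    refine Finset.sum_congr rfl fun x _ => Finset.sum_congr rfl fun s _ => ?_
    exact (comm _ _ _ ⟨m2 s y, by rw [hn2]⟩).symm
  have cm1 : c1 ∘ₗ f1 = f0 ∘ₗ k1 := by
    refine LinearMap.ext fun c => ?_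
    change ∑ y, (∑ x, c x y * ux Γ X x) * n1 y = ∑ x, (∑ y, c x y * n1 y) * ux Γ X x
    simp only [Finset.sum_mul]
    rw [Finset.sum_comm]
    refine Finset.sum_congr rfl fun x _ => Finset.sum_congr rfl fun s _ => ?_
    exact (comm _ _ _ ⟨m1 s, by rw [hn1]⟩).symm
  have cm0 : c0 ∘ₗ f0 = fN Γ X ∘ₗ k0 := by
    refine LinearMap.ext fun c => ?_
    change toNF Γ _ (sndR Γ (FreeGroup X) (∑ x, c x * ux Γ X x)) = toNF Γ _ (∑ x,
      sndR Γ (FreeGroup X) (c x) * (MonoidAlgebra.of ℤ (FreeGroup X) (FreeGroup.of x) - 1))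
    congr 1
    rw [map_sum]
    refine Finset.sum_congr rfl fun x _ => ?_
    rw [map_mul, ux, map_sub, map_one]
    congr 2
    simp [sndR]
  have hfinj : Function.Injective (fN Γ X) := by
    rw [injective_iff_map_eq_zero]
    intro n hn
    have h1 : ∑ x, (toNF Γ _).symm (n x) *
      (MonoidAlgebra.of ℤ (FreeGroup X) (FreeGroup.of x) - 1) = 0 :=
      (toNF Γ (FreeGroup X)).map_eq_zero_iff.1 hn
    have h2 := h_frx X (fun x => (toNF Γ _).symm (n x)) h1
    ext x : 1
    exact (toNF Γ (FreeGroup X)).symm.map_eq_zero_iff.1 (congrFun h2 x)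
  have augof : ∀ (R : Type) [Group R] (r : R), augZ R (MonoidAlgebra.of ℤ R r) = 1 := by
    intro R _ r
    simp [augZ]
  have hfg : LinearMap.range (fN Γ X) = LinearMap.ker (gN Γ X) := by
    ext n
    rw [LinearMap.mem_range, LinearMap.mem_ker]
    constructor
    · rintro ⟨c, rfl⟩
      change toTM _ (augZ (FreeGroup X) (∑ x, (toNF Γ _).symm (c x) *
        (MonoidAlgebra.of ℤ (FreeGroup X) (FreeGroup.of x) - 1))) = 0
      rw [map_sum, (toTM (Γ × FreeGroup X)).map_eq_zero_iff]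
      refine Finset.sum_eq_zero fun x _ => ?_
      rw [map_mul, map_sub, map_one, augof, sub_self, mul_zero]
    · intro h
      have h1 : augZ (FreeGroup X) ((toNF Γ _).symm n) = 0 :=
        (toTM (Γ × FreeGroup X)).map_eq_zero_iff.1 h
      obtain ⟨c, hc⟩ := h_aug X (FreeGroup X) (MonoidHom.id _) Function.surjective_id _ h1
      refine ⟨fun x => toNF Γ _ (c x), ?_⟩
      change toNF Γ _ (∑ x, c x * (MonoidAlgebra.of ℤ (FreeGroup X) (FreeGroup.of x) - 1)) = n
      rw [show ∑ x, c x * (MonoidAlgebra.of ℤ (FreeGroup X) (FreeGroup.of x) - 1) =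
        (toNF Γ _).symm n from hc]
      exact (toNF Γ (FreeGroup X)).apply_symm_apply n
  have hgs : Function.Surjective (gN Γ X) := by
    intro z
    refine ⟨toNF Γ _ ((((toTM (Γ × FreeGroup X)).symm z : ℤ) : MonoidAlgebra ℤ (FreeGroup X))), ?_⟩
    change toTM _ (augZ (FreeGroup X) _) = z
    rw [AddEquiv.symm_apply_apply, map_intCast, Int.cast_id]
    exact AddEquiv.apply_symm_apply _ z
  obtain ⟨r1, r2, r3, r4, r5⟩ := h_cone (AA Γ X) (X → S → AA Γ X) (X → Y → AA Γ X) (X → AA Γ X)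
    (X → NF Γ (FreeGroup X)) (S → AA Γ X) (Y → AA Γ X) (AA Γ X) (NF Γ (FreeGroup X))
    (TrivMod (Γ × FreeGroup X)) k2 k1 k0 c2 c1 c0 f2 f1 f0 (fN Γ X) (gN Γ X) cm2 cm1 cm0
    (hinjl _ _ c2 E2) (hcomp_range _ _ _ c2 c1 hex1) (hcomp_range _ _ _ c1 c0 hex0)
    (hsurl _ _ c0 hc0s) E2 hex1 hex0 hc0s hfinj hfg hgs
  refine h_res (AA Γ X) _ _ _ _ (TrivMod (Γ × FreeGroup X)) _ _ _ _ r1 r2 r3 r4 r5 ?_
  obtain ⟨x0⟩ := ‹Nonempty X›
  refine h_ns Γ (FreeGroup X) X S Y m2 FreeGroup.of x0 s0 hs0 f2 k2 (fun c s => rfl) ?_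
  intro c x
  rw [← hn2]
  rfl

end

end Pool.Agent.SD.DimCDimX

namespace Pool.Agent.SD

open DimCDimX

theorem dimCDim_proof (h_res : Stmt_Res3) (h_cone : Stmt_Cone) (h_tr : Stmt_Trans)
    (h_tr0 : Stmt_Trans0) (h_aug : Stmt_Aug) (h_frx : Stmt_FrX) (h_ns : Stmt_NoSplit)
    (h_fox : Stmt_FoxEx) (h_jac : Stmt_Jac) (h_vh : Stmt_VHInj) : Stmt_CDim := by
  intro H V S X _ _ _ _ _ _ _ _ D ⟨s, hs1, hs2⟩
  obtain ⟨Df, hDf⟩ := h_fox (H ⊕ V) D.Grp (PresentedGroup.mk (Set.range D.word))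
  have hsurj : Function.Surjective (PresentedGroup.mk (Set.range D.word)) :=
    QuotientGroup.mk'_surjective _
  have hker : (PresentedGroup.mk (Set.range D.word)).ker =
      Subgroup.normalClosure (Set.range D.word) := QuotientGroup.ker_mk' _
  have augof : ∀ (R : Type) [Group R] (r : R), augZ R (MonoidAlgebra.of ℤ R r) = 1 := by
    intro R _ r
    simp [augZ]
  refine main D.Grp X (H ⊕ V) S h_res h_cone h_tr h_tr0 h_aug h_frx h_ns
    (fun y => MonoidAlgebra.of ℤ D.Grp (PresentedGroup.mk (Set.range D.word) (FreeGroup.of y)) - 1)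
    (fun s => Df (D.word s)) s ?_ ?_ (h_aug (H ⊕ V) D.Grp _ hsurj)
    (h_jac (H ⊕ V) D.Grp S _ D.word Df hDf hsurj hker) (h_vh H V S D Df hDf)
  · intro y
    have hmul : ∀ u v : FreeGroup (H ⊕ V), augZ D.Grp (Df (u * v) y) =
        augZ D.Grp (Df u y) + augZ D.Grp (Df v y) := by
      intro u v
      rw [hDf.1, map_add, map_mul, augof, one_mul]
    have hone : augZ D.Grp (Df 1 y) = 0 := by
      have := hmul 1 1
      rw [mul_one] at this
      omega
    have hinv : ∀ u : FreeGroup (H ⊕ V), augZ D.Grp (Df u⁻¹ y) = - augZ D.Grp (Df u y) := by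
      intro u
      have := hmul u u⁻¹
      rw [mul_inv_cancel, hone] at this
      omega
    rw [VHData.word, hmul, hmul, hmul, hinv, hinv, ← hs1, ← hs2]
    ring
  · intro y
    rw [map_sub, map_one, augof, sub_self]

end Pool.Agent.SD
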