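import Pool.Agent.SD.Dim

/-!
# DIM_CONE: the mapping cone
-/

set_option autoImplicit false

namespace Pool.Agent.SD

theorem dimCone_proof : Stmt_Cone := by
  intro A _ K2 K1 K0 N' C2 C1 C0 N M _ _ _ _ _ _ _ _ _ _ _ _ _ _ _ _ _ _ k2 k1 k0 c2 c1 c0
    f2 f1 f0 f g e2 e1 e0 hk2 hk21 hk10 hk0 hc2 hc21 hc10 hc0 hf hfg hg d3 d2 d1 d0
  have E2 : ∀ x, c2 (f2 x) = f1 (k2 x) := fun x => DFunLike.congr_fun e2 x
  have E1 : ∀ x, c1 (f1 x) = f0 (k1 x) := fun x => DFunLike.congr_fun e1 x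
  have E0 : ∀ x, c0 (f0 x) = f (k0 x) := fun x => DFunLike.congr_fun e0 x
  have K21 : ∀ x, k1 (k2 x) = 0 := fun x =>
    (show k2 x ∈ LinearMap.ker k1 from hk21 ▸ ⟨x, rfl⟩ : _)
  have K10 : ∀ x, k0 (k1 x) = 0 := fun x =>
    (show k1 x ∈ LinearMap.ker k0 from hk10 ▸ ⟨x, rfl⟩ : _)
  have C21 : ∀ x, c1 (c2 x) = 0 := fun x =>
    (show c2 x ∈ LinearMap.ker c1 from hc21 ▸ ⟨x, rfl⟩ : _)
  have C10 : ∀ x, c0 (c1 x) = 0 := fun x =>
    (show c1 x ∈ LinearMap.ker c0 from hc10 ▸ ⟨x, rfl⟩ : _)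
  have FG : ∀ x, g (f x) = 0 := fun x =>
    (show f x ∈ LinearMap.ker g from hfg ▸ ⟨x, rfl⟩ : _)
  have D3 : ∀ x, d3 x = (f2 x, -k2 x) := fun x => rfl
  have D2 : ∀ a b, d2 (a, b) = (c2 a + f1 b, -k1 b) := fun a b => rfl
  have D1 : ∀ a b, d1 (a, b) = c1 a + f0 b := fun a b => rfl
  have D0 : ∀ a, d0 a = g (c0 a) := fun a => rfl
  refine ⟨?_, ?_, ?_, ?_, ?_⟩
  · rw [injective_iff_map_eq_zero]
    intro x hx
    rw [D3, Prod.mk_eq_zero, neg_eq_zero] at hx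
    exact hk2 (by rw [hx.2, map_zero])
  · ext ⟨a, b⟩
    rw [LinearMap.mem_ker, D2]
    constructor
    · rintro ⟨x, hx⟩
      rw [D3, Prod.mk.injEq] at hx
      obtain ⟨rfl, rfl⟩ := hx
      rw [map_neg, E2, map_neg, K21, add_neg_cancel, neg_zero, neg_zero]
      rfl
    · intro h
      rw [Prod.mk_eq_zero, neg_eq_zero] at h
      obtain ⟨h1, h2⟩ := h
      have hb : b ∈ LinearMap.range k2 := by rw [hk21]; exact h2
      obtain ⟨y, rfl⟩ := hb
      refine ⟨-y, ?_⟩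
      rw [D3, map_neg, map_neg, neg_neg, Prod.mk.injEq]
      refine ⟨hc2 ?_, rfl⟩
      rw [map_neg, E2, eq_comm, eq_neg_iff_add_eq_zero]
      exact h1
  · ext ⟨u, v⟩
    rw [LinearMap.mem_ker, D1]
    constructor
    · rintro ⟨⟨a, b⟩, hx⟩
      rw [D2, Prod.mk.injEq] at hx
      obtain ⟨rfl, rfl⟩ := hx
      rw [map_add, C21, E1, map_neg, zero_add, add_neg_cancel]
    · intro h
      have h0 : f (k0 v) = f 0 := by
        have := congrArg c0 h
        rw [map_add, C10, E0, map_zero, zero_add] at this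
        rw [this, map_zero]
      have hv : v ∈ LinearMap.range k1 := by rw [hk10]; exact hf h0
      obtain ⟨b, rfl⟩ := hv
      have hu : u + f1 b ∈ LinearMap.range c2 := by
        rw [hc21, LinearMap.mem_ker, map_add, E1]
        exact h
      obtain ⟨a, ha⟩ := hu
      refine ⟨(a, -b), ?_⟩
      rw [D2, ha, map_neg, map_neg, neg_neg, add_neg_cancel_right]
  · ext z
    rw [LinearMap.mem_ker, D0]
    constructor
    · rintro ⟨⟨a, b⟩, rfl⟩
      rw [D1, map_add, C10, E0, zero_add, FG]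
    · intro h
      have h1 : c0 z ∈ LinearMap.range f := by rw [hfg]; exact h
      obtain ⟨n, hn⟩ := h1
      obtain ⟨v, rfl⟩ := hk0 n
      have h2 : z - f0 v ∈ LinearMap.range c1 := by
        rw [hc10, LinearMap.mem_ker, map_sub, E0, hn, sub_self]
      obtain ⟨u, hu⟩ := h2
      refine ⟨(u, v), ?_⟩
      rw [D1, hu, sub_add_cancel]
  · intro m
    obtain ⟨n, rfl⟩ := hg m
    obtain ⟨z, rfl⟩ := hc0 n
    exact ⟨z, rfl⟩

end Pool.Agent.SD
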