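import Pool.Agent.SD.Dim

/-!
# Squad SD, module DIM_FRX
-/

set_option autoImplicit false

namespace Pool.Agent.SD

theorem frX_proof (hC : Stmt_Cycle) (hF : Stmt_FoxEx) : Stmt_FrX := by
  intro X _ _ c hc
  obtain ⟨D, hD⟩ := hF X (FreeGroup X) (MonoidHom.id (FreeGroup X))
  obtain ⟨l, hl, hlc⟩ := hC X (FreeGroup X) (MonoidHom.id (FreeGroup X)) D hD
    (fun x => ⟨x, rfl⟩) c hc
  have hl1 : l = 1 := by simpa [MonoidHom.mem_ker] using hl
  have h1 : ∀ x, D 1 x = 0 := by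
    intro x
    have h2 := hD.1 1 1 x
    rw [mul_one, map_one, map_one, one_mul] at h2
    exact left_eq_add.1 h2
  rw [← hlc, hl1]
  funext x
  exact h1 x

end Pool.Agent.SD
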