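import Pool.Agent.SD.Dim
import Pool.Agent.SD.KFG

/-!
# Squad SD, module DIM_JAC: exactness of the Jacobian part
-/

set_option autoImplicit false

namespace Pool.Agent.SD

namespace DimJacX

open MonoidAlgebra KFGX

variable {Y R K : Type} [Group R] [Fintype Y] [DecidableEq Y] [Fintype K]
  {π : FreeGroup Y →* R} {D : FreeGroup Y → Y → MonoidAlgebra ℤ R}

omit [Fintype Y] in
/-- the Fox derivatives of the elements of the normal closure of the relators -/
theorem mem_range (hD : IsFox π D) (rel : K → FreeGroup Y)
    (hker : π.ker = Subgroup.normalClosure (Set.range rel)) (l : FreeGroup Y)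
    (hl : l ∈ Subgroup.normalClosure (Set.range rel)) :
    D l ∈ LinearMap.range (mulR fun k => D (rel k)) := by
  classical
  have hπ1 : ∀ u ∈ Subgroup.normalClosure (Set.range rel), π u = 1 := by
    intro u hu
    rw [← hker] at hu
    exact hu
  have hrel : ∀ k, D (rel k) ∈ LinearMap.range (mulR fun k => D (rel k)) := by
    intro k
    refine ⟨Pi.single k 1, ?_⟩
    funext y
    rw [mulR_apply, Finset.sum_eq_single k]
    · rw [Pi.single_eq_same, one_mul]
    · intro j _ hj
      rw [Pi.single_eq_of_ne hj, zero_mul]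
    · intro h
      exact absurd (Finset.mem_univ k) h
  have hmul : ∀ u v, π u = 1 → D (u * v) = D u + D v := by
    intro u v hu
    funext y
    rw [hD.1, hu, map_one, one_mul]
    rfl
  refine Subgroup.closure_induction (p := fun u _ => D u ∈ LinearMap.range (mulR fun k => D (rel k)))
    ?_ ?_ ?_ ?_ hl
  · intro x hx
    rw [Group.mem_conjugatesOfSet_iff] at hx
    obtain ⟨r, ⟨k, rfl⟩, hc⟩ := hx
    obtain ⟨g, rfl⟩ := isConj_iff.1 hc
    have hr : π (rel k) = 1 := hπ1 _ (Subgroup.subset_normalClosure ⟨k, rfl⟩)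
    have h : D (g * rel k * g⁻¹) = of ℤ R (π g) • D (rel k) := by
      funext y
      have h1 := fox_inv hD g y
      rw [hD.1, hD.1, map_mul, hr, mul_one]
      rw [Pi.smul_apply, smul_eq_mul]
      have h2 : D g y + of ℤ R (π g) * D (rel k) y + of ℤ R (π g) * D g⁻¹ y =
        (D g y + of ℤ R (π g) * D g⁻¹ y) + of ℤ R (π g) * D (rel k) y := by abel
      rw [h2, h1, zero_add]
    rw [h]
    exact Submodule.smul_mem _ _ (hrel k)
  · have h : D 1 = 0 := by
      funext y
      exact fox_one hD y
    rw [h]
    exact Submodule.zero_mem _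
  · intro u v hu _ hDu hDv
    rw [hmul u v (hπ1 u hu)]
    exact Submodule.add_mem _ hDu hDv
  · intro u hu hDu
    have h : D u⁻¹ = - D u := by
      funext y
      have h1 := fox_inv hD u y
      rw [hπ1 u hu, map_one, one_mul] at h1
      exact eq_neg_of_add_eq_zero_right h1
    rw [h]
    exact Submodule.neg_mem _ hDu

end DimJacX

open DimJacX KFGX MonoidAlgebra in
/-- JAC -/
theorem dimJac_proof (hcyc : Stmt_Cycle) : Stmt_Jac := by
  intro Y R K _ _ _ _ π rel D hD hsurj hker c
  constructor
  · intro hc
    obtain ⟨l, hl, rfl⟩ := hcyc Y R π D hD hsurj c hc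
    rw [hker] at hl
    exact mem_range hD rel hker l hl
  · rintro ⟨b, rfl⟩
    have hrel : ∀ k, π (rel k) = 1 := by
      intro k
      have h : rel k ∈ π.ker := by
        rw [hker]
        exact Subgroup.subset_normalClosure ⟨k, rfl⟩
      exact h
    simp only [mulR_apply, Finset.sum_mul]
    rw [Finset.sum_comm]
    apply Finset.sum_eq_zero
    intro k _
    simp only [mul_assoc]
    rw [← Finset.mul_sum, fund hD, hrel, map_one, sub_self, mul_zero]

end Pool.Agent.SD
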