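import Mathlib
import Pool.Agent.SD.Dim

/-!
# Squad SD, module DIM_NOSPLIT: the first map of the cone does not split
-/

set_option autoImplicit false

namespace Pool.Agent.SD

namespace DimNS

theorem augZ_of {R : Type} [Group R] (g : R) : augZ R (MonoidAlgebra.of ℤ R g) = 1 := by
  simp [augZ]

theorem augZ_inlR {Γ F : Type} [Group Γ] [Group F] (b : MonoidAlgebra ℤ Γ) :
    augZ (Γ × F) (inlR Γ F b) = augZ Γ b := by
  induction b using MonoidAlgebra.induction_on with
  | of g =>
    have : inlR Γ F (MonoidAlgebra.of ℤ Γ g) = MonoidAlgebra.of ℤ (Γ × F) (g, 1) := by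
      simp [inlR]
    rw [this, augZ_of, augZ_of]
  | add x y hx hy => rw [map_add, map_add, map_add, hx, hy]
  | smul n x hx => rw [map_zsmul, map_zsmul, map_zsmul, hx]

end DimNS

theorem nosplit_proof : Stmt_NoSplit := by
  intro Γ F _ _ X S Y _ _ _ m t x0 s0 hm f2 k2 hf2 hk2
  classical
  rintro ⟨r, hr⟩
  let A := MonoidAlgebra ℤ (Γ × F)
  let e : X → S → MonoidAlgebra ℤ (Γ × F) := Pi.single x0 (Pi.single s0 1)
  have he := hr e
  -- the image of the basis vector
  have h1 : f2.prod (-k2) e =
      (MonoidAlgebra.of ℤ (Γ × F) (1, t x0) - 1) •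
        ((Pi.single s0 1, 0) : (S → MonoidAlgebra ℤ (Γ × F)) × (X → Y → MonoidAlgebra ℤ (Γ × F))) +
      ∑ y, (-(inlR Γ F (m s0 y))) • ((0, Pi.single x0 (Pi.single y 1)) :
        (S → MonoidAlgebra ℤ (Γ × F)) × (X → Y → MonoidAlgebra ℤ (Γ × F))) := by
    apply Prod.ext
    · rw [Prod.fst_add, Prod.fst_sum, LinearMap.prod_apply]
      simp only [Function.prod_apply, Prod.smul_fst, smul_zero, Finset.sum_const_zero, add_zero]
      funext s
      rw [hf2, Finset.sum_eq_single x0]
      · simp only [e, Pi.single_eq_same, Pi.smul_apply, smul_eq_mul]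
        by_cases h : s = s0
        · subst h; simp
        · simp [Pi.single_eq_of_ne h]
      · intro x _ h
        simp only [e, Pi.single_eq_of_ne h, Pi.zero_apply, zero_mul]
      · intro h; exact absurd (Finset.mem_univ _) h
    · rw [Prod.snd_add, Prod.snd_sum, LinearMap.prod_apply]
      simp only [Function.prod_apply, Prod.smul_snd, smul_zero, zero_add]
      funext x y
      rw [LinearMap.neg_apply, Pi.neg_apply, Pi.neg_apply, hk2, mulR_apply, Finset.sum_apply,
        Finset.sum_apply]
      by_cases h : x = x0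
      · subst h
        rw [Finset.sum_eq_single s0, Finset.sum_eq_single y]
        · simp [e]
        · intro y' _ h'
          simp [Pi.single_eq_of_ne h'.symm]
        · intro h; exact absurd (Finset.mem_univ _) h
        · intro s _ h'
          simp [e, Pi.single_eq_of_ne h']
        · intro h; exact absurd (Finset.mem_univ _) h
      · simp [e, Pi.single_eq_of_ne h]
  have haug : ∀ (a : MonoidAlgebra ℤ (Γ × F)) (v : X → S → MonoidAlgebra ℤ (Γ × F)),
      augZ (Γ × F) a = 0 → augZ (Γ × F) ((a • v) x0 s0) = 0 := by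
    intro a v ha
    rw [Pi.smul_apply, Pi.smul_apply, smul_eq_mul, map_mul, ha, zero_mul]
  have h2 : augZ (Γ × F) (e x0 s0) = 0 := by
    rw [← he, h1, map_add, map_sum, Pi.add_apply, Pi.add_apply, Finset.sum_apply,
      Finset.sum_apply, map_add, map_sum]
    rw [map_smul, haug _ _ (by rw [map_sub, DimNS.augZ_of, map_one, sub_self]), zero_add]
    apply Finset.sum_eq_zero
    intro y _
    rw [map_smul, haug _ _ (by rw [map_neg, DimNS.augZ_inlR, hm, neg_zero])]
  simp [e] at h2

end Pool.Agent.SD
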