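import Mathlib
import Pool.Agent.SD.Dim

set_option autoImplicit false

namespace Pool.Agent.SD

open CategoryTheory

namespace DimResX

variable {A : Type} [Ring A]

theorem step {P N : Type} [AddCommGroup P] [AddCommGroup N] [Module A P] [Module A N]
    [Module.Projective A P] (d : P →ₗ[A] N) (hd : Function.Surjective d) (n : ℕ) :
    HasProjectiveDimensionLT (ModuleCat.of A N) (n + 2) ↔
      HasProjectiveDimensionLT (ModuleCat.of A (LinearMap.ker d)) (n + 1) := by
  have hS : d.shortComplexKer.ShortExact := LinearMap.shortExact_shortComplexKer hd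
  exact hS.hasProjectiveDimensionLT_X₃_iff n
    ((IsProjective.iff_projective P).1 inferInstance)

theorem one_iff {N : Type} [AddCommGroup N] [Module A N] :
    HasProjectiveDimensionLT (ModuleCat.of A N) 1 ↔ Module.Projective A N := by
  rw [← projective_iff_hasProjectiveDimensionLT_one, ← IsProjective.iff_projective]

end DimResX

open DimResX

theorem res3_proof : Stmt_Res3 := by
  intro A _ P3 P2 P1 P0 M _ _ _ _ _ _ _ _ _ _ _ _ _ _ d3 d2 d1 d0 hinj h32 h21 h10 h0 hns
  -- the maps onto the kernels
  let e1 : P1 →ₗ[A] LinearMap.ker d0 := LinearMap.codRestrict _ d1 fun x => by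
    rw [← h10]; exact ⟨x, rfl⟩
  have he1 : Function.Surjective e1 := by
    rintro ⟨y, hy⟩
    rw [← h10] at hy
    obtain ⟨x, hx⟩ := hy
    exact ⟨x, Subtype.ext hx⟩
  have hk1 : LinearMap.ker e1 = LinearMap.ker d1 := by
    ext x
    rw [LinearMap.mem_ker, LinearMap.mem_ker, Subtype.ext_iff]
    rfl
  let e2 : P2 →ₗ[A] LinearMap.ker e1 := LinearMap.codRestrict _ d2 fun x => by
    rw [hk1, ← h21]; exact ⟨x, rfl⟩
  have he2 : Function.Surjective e2 := by
    rintro ⟨y, hy⟩
    rw [hk1, ← h21] at hy
    obtain ⟨x, hx⟩ := hy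
    exact ⟨x, Subtype.ext hx⟩
  have hk2 : LinearMap.ker e2 = LinearMap.range d3 := by
    rw [h32]
    ext x
    rw [LinearMap.mem_ker, LinearMap.mem_ker, Subtype.ext_iff]
    rfl
  have hproj : Module.Projective A (LinearMap.ker e2) := by
    have : Module.Projective A (LinearMap.range d3) :=
      Module.Projective.of_equiv (LinearEquiv.ofInjective d3 hinj)
    rw [hk2]; exact this
  refine le_antisymm ?_ ?_
  · have h3 : HasProjectiveDimensionLE (ModuleCat.of A M) 3 := by
      rw [HasProjectiveDimensionLE, step d0 h0 2, step e1 he1 1, step e2 he2 0]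
      exact one_iff.2 hproj
    exact (projectiveDimension_le_iff _ 3).2 h3
  · have h3 : ¬ HasProjectiveDimensionLT (ModuleCat.of A M) 3 := by
      rw [step d0 h0 1, step e1 he1 0, one_iff]
      intro hp
      apply hns
      obtain ⟨s, hs⟩ := Module.projective_lifting_property e2 LinearMap.id he2
      have hs' : ∀ y, e2 (s y) = y := fun y => by
        have := LinearMap.congr_fun hs y
        simpa using this
      let t : P2 →ₗ[A] LinearMap.range d3 :=
        LinearMap.codRestrict _ (LinearMap.id - s ∘ₗ e2) fun x => by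
          rw [← hk2, LinearMap.mem_ker]
          simp [hs']
      refine ⟨(LinearEquiv.ofInjective d3 hinj).symm.toLinearMap ∘ₗ t, fun x => ?_⟩
      have h4 : e2 (d3 x) = 0 := by
        have : d3 x ∈ LinearMap.ker e2 := by rw [hk2]; exact ⟨x, rfl⟩
        exact this
      have h5 : t (d3 x) = LinearEquiv.ofInjective d3 hinj x := by
        apply Subtype.ext
        simp [t, h4]
      rw [LinearMap.comp_apply, h5]
      exact LinearEquiv.symm_apply_apply _ _
    exact (projectiveDimension_ge_iff _ 3).2 h3

theorem dimRes_proof : Stmt_Res3 := res3_proof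

end Pool.Agent.SD
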