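import Mathlib
import Pool.Agent.SD.Dim

set_option autoImplicit false

namespace Pool.Agent.SD

open CategoryTheory

namespace DimTransX

variable {Γ F : Type} [Group Γ] [Group F]

/-- the coefficient at `f` of an element of `ℤ[Γ × F] = ℤ[Γ][F]` -/
noncomputable def kapF (f : F) : MonoidAlgebra ℤ (Γ × F) →+ MonoidAlgebra ℤ Γ where
  toFun a := MonoidAlgebra.ofCoeff (a.coeff.comapDomain (fun g => (g, f))
    (Function.Injective.injOn fun _ _ h => congrArg Prod.fst h))
  map_zero' := by ext g; simp
  map_add' a b := by ext g; simp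

theorem kapF_coeff (f : F) (a : MonoidAlgebra ℤ (Γ × F)) (g : Γ) :
    (kapF f a).coeff g = a.coeff (g, f) := by
  simp [kapF]

theorem inlR_single (g : Γ) (n : ℤ) :
    inlR Γ F (MonoidAlgebra.single g n) = MonoidAlgebra.single (g, (1 : F)) n := by
  simp [inlR]

theorem kapF_single_self (f : F) (g : Γ) (n : ℤ) :
    kapF f (MonoidAlgebra.single (g, f) n) = MonoidAlgebra.single g n := by
  classical
  ext x
  rw [kapF_coeff, MonoidAlgebra.coeff_single_apply, MonoidAlgebra.coeff_single_apply]
  simp [Prod.ext_iff]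

theorem kapF_single_ne (f f' : F) (hf : f' ≠ f) (g : Γ) (n : ℤ) :
    kapF f (MonoidAlgebra.single (g, f') n) = 0 := by
  classical
  ext x
  rw [kapF_coeff, MonoidAlgebra.coeff_single_apply]
  simp [Prod.ext_iff, hf]

theorem kapF_mul (f : F) (a : MonoidAlgebra ℤ (Γ × F)) (b : MonoidAlgebra ℤ Γ) :
    kapF f (a * inlR Γ F b) = kapF f a * b := by
  classical
  induction a using MonoidAlgebra.induction_linear with
  | zero => simp
  | add x y hx hy => rw [add_mul, map_add, hx, hy, map_add, add_mul]
  | single p n =>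
    induction b using MonoidAlgebra.induction_linear with
    | zero => simp
    | add x y hx hy => rw [map_add, mul_add, map_add, hx, hy, mul_add]
    | single h m =>
      obtain ⟨g, f'⟩ := p
      rw [inlR_single, MonoidAlgebra.single_mul_single, Prod.mk_mul_mk, mul_one]
      by_cases hf : f' = f
      · subst hf
        rw [kapF_single_self, kapF_single_self, MonoidAlgebra.single_mul_single]
      · rw [kapF_single_ne _ _ hf, kapF_single_ne _ _ hf, zero_mul]

theorem singleComm (f : F) (x : MonoidAlgebra ℤ Γ) :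
    MonoidAlgebra.single ((1 : Γ), f) (1 : ℤ) * inlR Γ F x =
      inlR Γ F x * MonoidAlgebra.single ((1 : Γ), f) 1 := by
  induction x using MonoidAlgebra.induction_linear with
  | zero => simp
  | add x y hx hy => rw [map_add, mul_add, hx, hy, add_mul]
  | single g n =>
    rw [inlR_single, MonoidAlgebra.single_mul_single, MonoidAlgebra.single_mul_single]
    simp

theorem coeff_inl_mul [DecidableEq F] (f f' : F) (g : Γ) (x : MonoidAlgebra ℤ Γ) :
    (inlR Γ F x * MonoidAlgebra.single ((1 : Γ), f) (1 : ℤ)).coeff (g, f') =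
      if f = f' then x.coeff g else 0 := by
  classical
  induction x using MonoidAlgebra.induction_linear with
  | zero => simp
  | add x y hx hy =>
    rw [map_add, add_mul, MonoidAlgebra.coeff_add, Finsupp.add_apply, hx, hy]
    split_ifs <;> simp
  | single h n =>
    rw [inlR_single, MonoidAlgebra.single_mul_single]
    simp only [Prod.mk_mul_mk, mul_one, one_mul]
    rw [MonoidAlgebra.coeff_single_apply, MonoidAlgebra.coeff_single_apply]
    by_cases hf : f = f'
    · subst hf
      simp [Prod.ext_iff]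
    · simp [Prod.ext_iff, hf]

theorem decomp (a : MonoidAlgebra ℤ (Γ × F)) (T : Finset F)
    (hT : ∀ p ∈ a.coeff.support, p.2 ∈ T) :
    ∑ f ∈ T, inlR Γ F (kapF f a) * MonoidAlgebra.single ((1 : Γ), f) (1 : ℤ) = a := by
  classical
  ext ⟨g, f'⟩
  rw [MonoidAlgebra.coeff_sum, Finsupp.finsetSum_apply]
  simp only [coeff_inl_mul, kapF_coeff]
  rw [Finset.sum_ite_eq']
  split_ifs with h
  · rfl
  · by_contra hne
    exact h (hT (g, f') (Finsupp.mem_support_iff.2 fun h0 => hne h0.symm))

theorem augZ_single {R : Type} [Group R] (g : R) (n : ℤ) :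
    augZ R (MonoidAlgebra.single g n) = n := by
  simp [augZ]

theorem augZ_kapF (f : F) (a : MonoidAlgebra ℤ (Γ × F)) :
    augZ Γ (kapF f a) = (sndR Γ F a).coeff f := by
  classical
  induction a using MonoidAlgebra.induction_linear with
  | zero => simp
  | add x y hx hy => rw [map_add, map_add, map_add, hx, hy, MonoidAlgebra.coeff_add,
      Finsupp.add_apply]
  | single p n =>
    obtain ⟨g, f'⟩ := p
    have h1 : sndR Γ F (MonoidAlgebra.single (g, f') n) = MonoidAlgebra.single f' n := by
      simp [sndR]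
    rw [h1, MonoidAlgebra.coeff_single_apply]
    by_cases hf : f' = f
    · subst hf
      rw [kapF_single_self, augZ_single, if_pos rfl]
    · rw [kapF_single_ne _ _ hf, map_zero, if_neg hf]

end DimTransX

open DimTransX

theorem trans_proof : Stmt_Trans := by
  classical
  intro Γ F _ _ K Y L _ _ m2 m1 h c hc
  have h1 : ∀ f : F, ∃ b, mulR m2 b = fun y => kapF f (c y) := by
    intro f
    apply h
    ext1 l
    rw [mulR_apply, Pi.zero_apply]
    have h2 := congrArg (kapF f) (congrFun hc l)
    rw [mulR_apply, map_sum, Pi.zero_apply, map_zero] at h2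
    rw [← h2]
    exact Finset.sum_congr rfl fun y _ => (kapF_mul f (c y) (m1 y l)).symm
  choose b hb using h1
  let T : Finset F := Finset.univ.biUnion fun y => (c y).coeff.support.image Prod.snd
  refine ⟨fun k => ∑ f ∈ T, inlR Γ F (b f k) * MonoidAlgebra.single ((1 : Γ), f) (1 : ℤ), ?_⟩
  ext1 y
  rw [mulR_apply]
  have h3 : ∀ k, (∑ f ∈ T, inlR Γ F (b f k) * MonoidAlgebra.single ((1 : Γ), f) (1 : ℤ)) *
      inlR Γ F (m2 k y) = ∑ f ∈ T, inlR Γ F (b f k * m2 k y) *
        MonoidAlgebra.single ((1 : Γ), f) (1 : ℤ) := by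
    intro k
    rw [Finset.sum_mul]
    refine Finset.sum_congr rfl fun f _ => ?_
    rw [mul_assoc, singleComm, ← mul_assoc, ← map_mul]
  simp only [h3]
  rw [Finset.sum_comm]
  have h4 : ∀ f, ∑ k, inlR Γ F (b f k * m2 k y) * MonoidAlgebra.single ((1 : Γ), f) (1 : ℤ) =
      inlR Γ F (kapF f (c y)) * MonoidAlgebra.single ((1 : Γ), f) (1 : ℤ) := by
    intro f
    rw [← Finset.sum_mul, ← map_sum]
    congr 2
    have := congrFun (hb f) y
    rw [mulR_apply] at this
    exact this
  simp only [h4]
  refine decomp (c y) T fun p hp => ?_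
  exact Finset.mem_biUnion.2 ⟨y, Finset.mem_univ _, Finset.mem_image_of_mem _ hp⟩

theorem trans0_proof : Stmt_Trans0 := by
  classical
  intro Γ F _ _ Y _ m1 h a ha
  have h1 : ∀ f : F, ∃ c : Y → MonoidAlgebra ℤ Γ, ∑ y, c y * m1 y = kapF f a := by
    intro f
    apply h
    rw [augZ_kapF, ha]
    rfl
  choose b hb using h1
  let T : Finset F := a.coeff.support.image Prod.snd
  refine ⟨fun y => ∑ f ∈ T, inlR Γ F (b f y) * MonoidAlgebra.single ((1 : Γ), f) (1 : ℤ), ?_⟩
  have h3 : ∀ y, (∑ f ∈ T, inlR Γ F (b f y) * MonoidAlgebra.single ((1 : Γ), f) (1 : ℤ)) *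
      inlR Γ F (m1 y) = ∑ f ∈ T, inlR Γ F (b f y * m1 y) *
        MonoidAlgebra.single ((1 : Γ), f) (1 : ℤ) := by
    intro y
    rw [Finset.sum_mul]
    refine Finset.sum_congr rfl fun f _ => ?_
    rw [mul_assoc, singleComm, ← mul_assoc, ← map_mul]
  simp only [h3]
  rw [Finset.sum_comm]
  have h4 : ∀ f, ∑ y, inlR Γ F (b f y * m1 y) * MonoidAlgebra.single ((1 : Γ), f) (1 : ℤ) =
      inlR Γ F (kapF f a) * MonoidAlgebra.single ((1 : Γ), f) (1 : ℤ) := by
    intro f
    rw [← Finset.sum_mul, ← map_sum, hb]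
  simp only [h4]
  exact decomp a T fun p hp => Finset.mem_image_of_mem _ hp

theorem dimTrans_proof : Stmt_Trans := trans_proof

theorem dimTrans0_proof : Stmt_Trans0 := trans0_proof

end Pool.Agent.SD
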