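import Mathlib
import Pool.Agent.SD.Dim
import Pool.Agent.SD.Fox

/-!
# Squad SD, module DIM_VHINJ: asphericity of a VH complex in terms of Fox derivatives
-/

set_option autoImplicit false

namespace Pool.Agent.SD

namespace DimVH

variable {H V S : Type} (D : VHData H V S)

/-- The action of the free group on `ℤ[Γ]^S`, written multiplicatively. -/
noncomputable def rho : FreeGroup (H ⊕ V) →* MulAut (Multiplicative (S → MonoidAlgebra ℤ D.Grp)) where
  toFun g :=
    { toFun := fun v => Multiplicative.ofAdd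
        (FoxX.act (PresentedGroup.mk (Set.range D.word) g) (Multiplicative.toAdd v))
      invFun := fun v => Multiplicative.ofAdd
        (FoxX.act (PresentedGroup.mk (Set.range D.word) g)⁻¹ (Multiplicative.toAdd v))
      left_inv := fun v => by
        simp only [toAdd_ofAdd, FoxX.act_act, inv_mul_cancel, FoxX.act_one, ofAdd_toAdd]
      right_inv := fun v => by
        simp only [toAdd_ofAdd, FoxX.act_act, mul_inv_cancel, FoxX.act_one, ofAdd_toAdd]
      map_mul' := fun v w => by
        rw [toAdd_mul, FoxX.act_add, ofAdd_add] }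
  map_one' := by
    apply MulEquiv.ext
    intro v
    change Multiplicative.ofAdd (FoxX.act (PresentedGroup.mk (Set.range D.word) 1)
      (Multiplicative.toAdd v)) = v
    rw [map_one, FoxX.act_one, ofAdd_toAdd]
  map_mul' g k := by
    apply MulEquiv.ext
    intro v
    change Multiplicative.ofAdd (FoxX.act (PresentedGroup.mk (Set.range D.word) (g * k))
      (Multiplicative.toAdd v)) = Multiplicative.ofAdd (FoxX.act (PresentedGroup.mk
        (Set.range D.word) g) (FoxX.act (PresentedGroup.mk (Set.range D.word) k)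
          (Multiplicative.toAdd v)))
    rw [map_mul, FoxX.act_act]

theorem rho_apply (g : FreeGroup (H ⊕ V)) (v : Multiplicative (S → MonoidAlgebra ℤ D.Grp)) :
    rho D g v = Multiplicative.ofAdd
      (FoxX.act (PresentedGroup.mk (Set.range D.word) g) (Multiplicative.toAdd v)) := rfl

theorem ker_mk : (PresentedGroup.mk (Set.range D.word)).ker = D.N := by
  unfold PresentedGroup.mk VHData.N
  exact QuotientGroup.ker_mk' _

end DimVH

theorem vhinj_proof (hV : Stmt_VdW) (hM : Stmt_Magnus) : Stmt_VHInj := by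
  intro H V S _ _ _ _ _ D Df hD
  classical
  obtain ⟨e, he1, he2, he3⟩ := hV H V S D (Multiplicative (S → MonoidAlgebra ℤ D.Grp))
    (DimVH.rho D) (fun s => Multiplicative.ofAdd (Pi.single s 1)) (by
      intro s m
      have h1 : PresentedGroup.mk (Set.range D.word) (D.word s) = 1 :=
        PresentedGroup.one_of_mem ⟨s, rfl⟩
      rw [DimVH.rho_apply, h1, FoxX.act_one, ofAdd_toAdd, mul_comm, inv_mul_cancel_left])
  have hN : ∀ w ∈ D.N, PresentedGroup.mk (Set.range D.word) w = 1 := by
    intro w hw
    rw [← DimVH.ker_mk] at hw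
    exact hw
  have e1 : e 1 = 1 := by
    have := he1 1 (Subgroup.one_mem _) 1 (Subgroup.one_mem _)
    rw [mul_one] at this
    exact (left_eq_mul.1 this)
  have einv : ∀ w ∈ D.N, e w⁻¹ = (e w)⁻¹ := by
    intro w hw
    have := he1 w⁻¹ (Subgroup.inv_mem _ hw) w hw
    rw [inv_mul_cancel, e1] at this
    exact eq_inv_of_mul_eq_one_left this.symm
  -- representation of every vector
  let B : AddSubgroup (S → MonoidAlgebra ℤ D.Grp) :=
    { carrier := {b | ∃ w ∈ D.N, e w = Multiplicative.ofAdd b ∧
        Df w = mulR (fun s => Df (D.word s)) b}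
      zero_mem' := ⟨1, Subgroup.one_mem _, by rw [e1]; rfl, by
        funext y
        rw [map_zero, FoxX.fox_one hD, Pi.zero_apply]⟩
      add_mem' := by
        rintro a b ⟨u, hu, hu1, hu2⟩ ⟨w, hw, hw1, hw2⟩
        refine ⟨u * w, Subgroup.mul_mem _ hu hw, by rw [he1 u hu w hw, hu1, hw1, ofAdd_add], ?_⟩
        funext y
        rw [hD.1, hN u hu, map_one, one_mul, map_add, Pi.add_apply, hu2, hw2]
      neg_mem' := by
        rintro a ⟨u, hu, hu1, hu2⟩
        refine ⟨u⁻¹, Subgroup.inv_mem _ hu, by rw [einv u hu, hu1, ofAdd_neg], ?_⟩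
        funext y
        rw [FoxX.fox_inv hD, hN u hu, inv_one, map_one, one_mul, map_neg, Pi.neg_apply, hu2] }
  have hgen : ∀ (s : S) (γ : D.Grp), (Pi.single s (MonoidAlgebra.of ℤ D.Grp γ) :
      S → MonoidAlgebra ℤ D.Grp) ∈ B := by
    intro s γ
    obtain ⟨g, rfl⟩ := PresentedGroup.mk_surjective (Set.range D.word) γ
    have hs : D.word s ∈ D.N := Subgroup.subset_normalClosure ⟨s, rfl⟩
    have hn : D.N.Normal := Subgroup.normalClosure_normal
    refine ⟨g * D.word s * g⁻¹, hn.conj_mem _ hs g, ?_, ?_⟩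
    · rw [he3 g _ hs, he2, DimVH.rho_apply, toAdd_ofAdd]
      congr 1
      funext s'
      by_cases h : s' = s
      · subst h; simp [FoxX.act]
      · simp [FoxX.act, Pi.single_eq_of_ne h]
    · funext y
      rw [hD.1, hD.1, FoxX.fox_inv hD, mulR_apply, map_mul, hN _ hs, mul_one, mul_neg,
        ← mul_assoc, ← map_mul, mul_inv_cancel, map_one, one_mul]
      rw [Finset.sum_eq_single s]
      · rw [Pi.single_eq_same]; abel
      · intro s' _ h
        rw [Pi.single_eq_of_ne h, zero_mul]
      · intro h; exact absurd (Finset.mem_univ s) h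
  have hall : ∀ b : S → MonoidAlgebra ℤ D.Grp, b ∈ B := by
    intro b
    have hb : b = ∑ s, Pi.single s (b s) := (Finset.univ_sum_single b).symm
    rw [hb]
    apply AddSubgroup.sum_mem
    intro s _
    generalize b s = a
    induction a using MonoidAlgebra.induction_on with
    | of g => exact hgen s g
    | add x y hx hy => rw [Pi.single_add]; exact B.add_mem hx hy
    | smul n x hx =>
      have : (Pi.single s (n • x) : S → MonoidAlgebra ℤ D.Grp) = n • Pi.single s x := by
        rw [Pi.single_smul]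
      rw [this]; exact B.zsmul_mem hx n
  rw [injective_iff_map_eq_zero]
  intro b hb
  obtain ⟨w, hw, hw1, hw2⟩ := hall b
  rw [hb] at hw2
  have hmem : w ∈ ⁅D.N, D.N⁆ := by
    have := hM (H ⊕ V) D.Grp (PresentedGroup.mk (Set.range D.word)) Df hD
      (PresentedGroup.mk_surjective _) w (by rw [DimVH.ker_mk]; exact hw) hw2
    rwa [DimVH.ker_mk] at this
  let K : Subgroup (FreeGroup (H ⊕ V)) :=
    { carrier := {u | u ∈ D.N ∧ e u = 1}
      one_mem' := ⟨Subgroup.one_mem _, e1⟩
      mul_mem' := by
        rintro u v ⟨hu, hu1⟩ ⟨hv, hv1⟩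
        exact ⟨Subgroup.mul_mem _ hu hv, by rw [he1 u hu v hv, hu1, hv1, mul_one]⟩
      inv_mem' := by
        rintro u ⟨hu, hu1⟩
        exact ⟨Subgroup.inv_mem _ hu, by rw [einv u hu, hu1, inv_one]⟩ }
  have hle : ⁅D.N, D.N⁆ ≤ K := by
    rw [Subgroup.commutator_le]
    intro u hu v hv
    have hu' := Subgroup.inv_mem _ hu
    have hv' := Subgroup.inv_mem _ hv
    refine ⟨?_, ?_⟩
    · rw [commutatorElement_def]
      exact Subgroup.mul_mem _ (Subgroup.mul_mem _ (Subgroup.mul_mem _ hu hv) hu') hv'
    · rw [commutatorElement_def, he1 _ (Subgroup.mul_mem _ (Subgroup.mul_mem _ hu hv) hu') _ hv',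
        he1 _ (Subgroup.mul_mem _ hu hv) _ hu', he1 _ hu _ hv, einv u hu, einv v hv]
      rw [mul_comm (e u) (e v), mul_inv_cancel_right, mul_inv_cancel]
  have := (hle hmem).2
  rw [hw1] at this
  exact ofAdd_eq_one.1 this

end Pool.Agent.SD
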