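import Pool.Agent.SD.Dim
import Pool.Agent.SD.DimAug
import Pool.Agent.SD.DimCDim
import Pool.Agent.SD.DimCone
import Pool.Agent.SD.DimFrX
import Pool.Agent.SD.DimJac
import Pool.Agent.SD.DimNoSplit
import Pool.Agent.SD.DimRes
import Pool.Agent.SD.DimTrans
import Pool.Agent.SD.DimVH
import Pool.Agent.SD.Fox
import Pool.Agent.SD.Vdw
import Pool.Agent.SD.NFS
import Pool.Agent.SD.SysP
import Pool.Agent.SD.Geo

/-!
# Squad SD: the cohomological dimension of `P0.gad.Grp × FreeGroup Lab` is 3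
-/

set_option autoImplicit false

namespace Pool.Agent.SD

theorem cdim_all : Stmt_CDim :=
  dimCDim_proof dimRes_proof dimCone_proof dimTrans_proof dimTrans0_proof aug_proof
    (frX_proof cycle_proof foxex_proof) nosplit_proof foxex_proof (dimJac_proof cycle_proof)
    (vhinj_proof (vdw_proof nfs_proof sys_proof) magnus_proof)

theorem cohDim_P0 : cohDim (P0.gad.Grp × FreeGroup Lab) = 3 := by
  classical
  haveI i1 : Finite (HL Lab (Fin 6)) := GEO.finite_HL
  haveI i2 : Finite (VL Lab (Fin 6)) := GEO.finite_VL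
  haveI i3 : Finite (SL Lab (Fin 35) (Fin 6)) :=
    Finite.of_injective (fun s => (P0.gh s, P0.gv s)) P0.gad.inj_hv
  haveI := Fintype.ofFinite (HL Lab (Fin 6))
  haveI := Fintype.ofFinite (VL Lab (Fin 6))
  haveI := Fintype.ofFinite (SL Lab (Fin 35) (Fin 6))
  haveI : Nonempty Lab := ⟨Lab.a⟩
  exact cdim_all _ _ _ _ P0.gad ⟨SL.c1 Lab.a, rfl, rfl⟩

end Pool.Agent.SD
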