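import Pool.Agent.SD.Cat

set_option autoImplicit false

namespace Pool.Agent.SD

namespace HullX

variable {U Y : Type} [MetricSpace Y] {n : U → U → ℕ} {ι : U → Y}

theorem tri (hn : IsTreeM n) (hr : IsReal n Y ι) (x y z : U) : n x z ≤ n x y + n y z := by
  have h := dist_triangle (ι x) (ι y) (ι z)
  rw [hr.dist_ι, hr.dist_ι, hr.dist_ι] at h
  exact_mod_cast h

/-- points between `p` and `q` are seen from everywhere as in a tree -/
theorem seen (hr : IsReal n Y ι) {p q m : Y} (h : dist p m + dist m q = dist p q) (z : Y) :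
    dist z m ≤ max (dist z p - dist p m) (dist z q - dist m q) := by
  by_cases hD : dist p q = 0
  · have h1 : dist p m = 0 := by
      have := dist_nonneg (x := p) (y := m)
      have := dist_nonneg (x := m) (y := q)
      linarith
    have h2 : p = m := dist_eq_zero.mp h1
    rw [h1, ← h2]
    exact le_max_of_le_left (by linarith)
  · have hD' : 0 < dist p q := lt_of_le_of_ne dist_nonneg (Ne.symm hD)
    have e1 : dist p m / dist p q * dist p q = dist p m := by field_simp
    have e2 : (1 - dist p m / dist p q) * dist p q = dist m q := by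
      rw [sub_mul, e1]
      linarith
    obtain ⟨m', hm'⟩ := hr.tp p q (dist p m / dist p q) (by positivity) (by
      rw [div_le_one hD']
      have := dist_nonneg (x := m) (y := q)
      linarith)
    rw [e1, e2] at hm'
    have h1 := hm' m
    rw [dist_comm m p, sub_self, sub_self, max_self] at h1
    have h2 : m = m' := dist_le_zero.mp h1
    rw [h2] at hm' ⊢
    exact hm' z

theorem tpt (hr : IsReal n Y ι) (p q : Y) (t : ℝ) (h0 : 0 ≤ t) (h1 : t ≤ 1) :
    ∃ m, dist p m = t * dist p q ∧ dist m q = (1 - t) * dist p q := by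
  obtain ⟨m, hm⟩ := hr.tp p q t h0 h1
  have hD : 0 ≤ dist p q := dist_nonneg
  have e1 := hm p
  have e2 := hm q
  rw [dist_self] at e1 e2
  have e3 : dist p m ≤ t * dist p q := by
    refine e1.trans (max_le ?_ ?_)
    · nlinarith
    · linarith
  have e4 : dist m q ≤ (1 - t) * dist p q := by
    rw [dist_comm m q]
    refine e2.trans (max_le ?_ ?_)
    · rw [dist_comm q p]; linarith
    · nlinarith
  have e5 := dist_triangle p m q
  exact ⟨m, by linarith, by linarith⟩

/-- from every point, one can extend beyond an interior point towards one of the ends -/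
theorem extend (hr : IsReal n Y ι) {x y : U} {p : Y}
    (h : dist (ι x) p + dist p (ι y) = n x y) (q : Y) :
    dist q (ι x) = dist q p + dist p (ι x) ∨ dist q (ι y) = dist q p + dist p (ι y) := by
  have h1 := seen hr (p := ι x) (q := ι y) (m := p) (by rw [hr.dist_ι]; exact h) q
  rcases le_max_iff.mp h1 with h2 | h2
  · left
    have := dist_triangle q p (ι x)
    rw [dist_comm p (ι x)] at this ⊢
    linarith
  · right
    have := dist_triangle q p (ι y)
    linarith

theorem vertex_on_edge (hn : IsTreeM n) (hr : IsReal n Y ι) {x y v : U} (hxy : n x y ≤ 1)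
    (h : dist (ι x) (ι v) + dist (ι v) (ι y) = n x y) : v = x ∨ v = y := by
  rw [hr.dist_ι, hr.dist_ι] at h
  have h1 : n x v + n v y = n x y := by exact_mod_cast h
  rcases Nat.eq_zero_or_pos (n x v) with h2 | h2
  · exact Or.inl (hn.eq_of _ _ h2).symm
  · exact Or.inr (hn.eq_of _ _ (by omega))

theorem mem_hull_iota (hn : IsTreeM n) (hr : IsReal n Y ι) (W : Set U) (x : U) :
    ι x ∈ hull n ι W ↔ x ∈ W := by
  constructor
  · rintro ⟨u, hu, w, hw, h1, h2⟩
    rcases vertex_on_edge hn hr h1 h2 with h | h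
    · rw [h]; exact hu
    · rw [h]; exact hw
  · intro hx
    refine ⟨x, hx, x, hx, ?_, ?_⟩
    · rw [hn.self]; exact Nat.zero_le _
    · rw [hn.self, dist_self]; simp

/-- the distance from a vertex to a point inside an edge -/
theorem dist_inside (hn : IsTreeM n) (hr : IsReal n Y ι) {x y : U} {p : Y} (hxy : n x y = 1)
    (h : dist (ι x) p + dist p (ι y) = n x y) (h0 : 0 < dist (ι x) p) (h1 : dist (ι x) p < 1)
    {v : U} (hv : dist (ι v) p < 1) :
    (v = x ∧ dist (ι v) p = dist (ι x) p) ∨ (v = y ∧ dist (ι v) p = 1 - dist (ι x) p) := by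
  have hs := seen hr (p := ι x) (q := ι y) (m := p) (by rw [hr.dist_ι]; exact h) (ι v)
  rw [hr.dist_ι, hr.dist_ι] at hs
  rw [hxy, Nat.cast_one] at h
  have h2 : dist p (ι y) = 1 - dist (ι x) p := by linarith
  rw [h2] at hs
  have t1 : (n v x : ℝ) ≤ dist (ι v) p + dist (ι x) p := by
    rw [← hr.dist_ι]
    have := dist_triangle (ι v) p (ι x)
    rwa [dist_comm p (ι x)] at this
  have t2 : (n v y : ℝ) ≤ dist (ι v) p + (1 - dist (ι x) p) := by
    rw [← hr.dist_ι, ← h2]
    exact dist_triangle (ι v) p (ι y)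
  have hpar : n v x ≠ n v y := by
    rw [hn.symm v x, hn.symm v y]
    exact hn.par x y v hxy
  have b1 : n v x < 2 := by
    have : (n v x : ℝ) < 2 := by linarith
    exact_mod_cast this
  have b2 : n v y < 2 := by
    have : (n v y : ℝ) < 2 := by linarith
    exact_mod_cast this
  have hcases : (n v x = 0 ∧ n v y = 1) ∨ (n v x = 1 ∧ n v y = 0) := by omega
  rcases hcases with ⟨c1, c2⟩ | ⟨c1, c2⟩
  · left
    have := hn.eq_of _ _ c1
    exact ⟨this, by rw [this]⟩
  · right
    have := hn.eq_of _ _ c2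
    refine ⟨this, ?_⟩
    rw [this, dist_comm]
    exact h2

theorem edges (hn : IsTreeM n) (hr : IsReal n Y ι) (x y z w : U) (hxy : n x y ≤ 1)
    (hzw : n z w ≤ 1) (p : Y) (h1 : dist (ι x) p + dist p (ι y) = n x y)
    (h2 : dist (ι z) p + dist p (ι w) = n z w) :
    (∃ v, p = ι v ∧ (v = x ∨ v = y) ∧ (v = z ∨ v = w)) ∨ (x = z ∧ y = w) ∨ (x = w ∧ y = z) := by
  by_cases hv : ∃ v, p = ι v
  · obtain ⟨v, rfl⟩ := hv
    exact Or.inl ⟨v, rfl, vertex_on_edge hn hr hxy h1, vertex_on_edge hn hr hzw h2⟩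
  right
  push Not at hv
  have pos : ∀ v, 0 < dist (ι v) p := fun v => by
    rw [dist_pos]
    exact fun h => hv v h.symm
  have pos' : ∀ v, 0 < dist p (ι v) := fun v => by
    rw [dist_comm]
    exact pos v
  have hxy1 : n x y = 1 := by
    rcases Nat.eq_zero_or_pos (n x y) with h | h
    · rw [h, Nat.cast_zero] at h1
      have := pos x
      have := pos' y
      linarith
    · omega
  have hzw1 : n z w = 1 := by
    rcases Nat.eq_zero_or_pos (n z w) with h | h
    · rw [h, Nat.cast_zero] at h2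
      have := pos z
      have := pos' w
      linarith
    · omega
  have hx1 : dist (ι x) p < 1 := by
    have := pos' y
    rw [hxy1, Nat.cast_one] at h1
    linarith
  have hz1 : dist (ι z) p < 1 := by
    have := pos' w
    rw [hzw1, Nat.cast_one] at h2
    linarith
  have hw1 : dist (ι w) p < 1 := by
    have := pos z
    rw [hzw1, Nat.cast_one, dist_comm p] at h2
    linarith
  have hzw' : z ≠ w := by
    rintro rfl
    rw [hn.self] at hzw1
    omega
  rcases dist_inside hn hr hxy1 h1 (pos x) hx1 hz1 with ⟨c1, _⟩ | ⟨c1, _⟩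
  · rcases dist_inside hn hr hxy1 h1 (pos x) hx1 hw1 with ⟨c2, _⟩ | ⟨c2, _⟩
    · exact absurd (c1.trans c2.symm) hzw'
    · exact Or.inl ⟨c1.symm, c2.symm⟩
  · rcases dist_inside hn hr hxy1 h1 (pos x) hx1 hw1 with ⟨c2, _⟩ | ⟨c2, _⟩
    · exact Or.inr ⟨c2.symm, c1.symm⟩
    · exact absurd (c1.trans c2.symm) hzw'

theorem inter (hn : IsTreeM n) (hr : IsReal n Y ι) (W W' : Set U) :
    hull n ι (W ∩ W') = hull n ι W ∩ hull n ι W' := by
  apply Set.Subset.antisymm
  · rintro p ⟨x, hx, y, hy, h1, h2⟩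
    exact ⟨⟨x, hx.1, y, hy.1, h1, h2⟩, ⟨x, hx.2, y, hy.2, h1, h2⟩⟩
  · rintro p ⟨⟨x, hx, y, hy, h1, h2⟩, ⟨z, hz, w, hw, h3, h4⟩⟩
    rcases edges hn hr x y z w h1 h3 p h2 h4 with ⟨v, rfl, hv1, hv2⟩ | ⟨c1, c2⟩ | ⟨c1, c2⟩
    · rw [mem_hull_iota hn hr]
      constructor
      · rcases hv1 with rfl | rfl <;> assumption
      · rcases hv2 with rfl | rfl <;> assumption
    · subst c1 c2
      exact ⟨x, ⟨hx, hz⟩, y, ⟨hy, hw⟩, h1, h2⟩
    · subst c1 c2
      exact ⟨x, ⟨hx, hw⟩, y, ⟨hy, hz⟩, h1, h2⟩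

/-- consecutive vertices on a geodesic -/
theorem path (hn : IsTreeM n) (hr : IsReal n Y ι) (a b : U) :
    ∀ i, i ≤ n a b → ∃ u, n a u = i ∧ n u b + i = n a b := by
  intro i
  induction i with
  | zero => exact fun _ => ⟨a, hn.self a, rfl⟩
  | succ i ih =>
    intro hi
    obtain ⟨u, hu1, hu2⟩ := ih (by omega)
    obtain ⟨z, hz1, hz2⟩ := hn.step u b (by omega)
    have t1 := tri hn hr a u z
    have t2 := tri hn hr a z b
    exact ⟨z, by omega, by omega⟩

theorem path_step (hn : IsTreeM n) (hr : IsReal n Y ι) (a b : U) (i : ℕ) (hi : i < n a b) :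
    ∃ u v, n a u = i ∧ n u b + i = n a b ∧ n u v = 1 ∧ n a v = i + 1 ∧ n v b + (i + 1) = n a b := by
  obtain ⟨u, hu1, hu2⟩ := path hn hr a b i hi.le
  obtain ⟨z, hz1, hz2⟩ := hn.step u b (by omega)
  have t1 := tri hn hr a u z
  have t2 := tri hn hr a z b
  exact ⟨u, z, hu1, hu2, hz1, by omega, by omega⟩

theorem conv (hn : IsTreeM n) (hr : IsReal n Y ι) (W : Set U) (hW : GConv n W) {a b : U}
    (ha : a ∈ W) (hb : b ∈ W) {m : Y} (hm : dist (ι a) m + dist m (ι b) = n a b) :
    m ∈ hull n ι W := by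
  have hr0 : 0 ≤ dist (ι a) m := dist_nonneg
  have hr1 : 0 ≤ dist m (ι b) := dist_nonneg
  by_cases hN : dist (ι a) m = n a b
  · have h1 : dist m (ι b) = 0 := by linarith
    rw [dist_eq_zero.mp h1, mem_hull_iota hn hr]
    exact hb
  · have hlt : dist (ι a) m < n a b := lt_of_le_of_ne (by linarith) hN
    set i := ⌊dist (ι a) m⌋₊ with hi
    have hi1 : (i : ℝ) ≤ dist (ι a) m := Nat.floor_le hr0
    have hi2 : dist (ι a) m < i + 1 := Nat.lt_floor_add_one _
    have hiN : i < n a b := by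
      have : (i : ℝ) < n a b := lt_of_le_of_lt hi1 hlt
      exact_mod_cast this
    obtain ⟨u, v, h1, h2, h3, h4, h5⟩ := path_step hn hr a b i hiN
    have hu : u ∈ W := hW a ha b hb u (by omega)
    have hv : v ∈ W := hW a ha b hb v (by omega)
    refine ⟨u, hu, v, hv, h3.le, ?_⟩
    have hm' : dist (ι a) m + dist m (ι b) = dist (ι a) (ι b) := by rw [hr.dist_ι]; exact hm
    have s1 := seen hr hm' (ι u)
    have s2 := seen hr hm' (ι v)
    rw [hr.dist_ι, hr.dist_ι, hn.symm u a, h1] at s1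
    rw [hr.dist_ι, hr.dist_ι, hn.symm v a, h4] at s2
    have c2 : (n u b : ℝ) + i = n a b := by exact_mod_cast h2
    have c5 : (n v b : ℝ) + (i + 1) = n a b := by exact_mod_cast h5
    have s1' : dist (ι u) m ≤ dist (ι a) m - i := by
      refine s1.trans (max_le (by linarith) (by linarith))
    have s2' : dist (ι v) m ≤ i + 1 - dist (ι a) m := by
      refine s2.trans (max_le (by push_cast; linarith) (by linarith))
    have t := dist_triangle (ι u) m (ι v)
    rw [hr.dist_ι, h3, Nat.cast_one, dist_comm m (ι v)] at t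
    rw [h3, Nat.cast_one, dist_comm m (ι v)]
    linarith

theorem tclosed (hn : IsTreeM n) (hr : IsReal n Y ι) (W : Set U) (hW : GConv n W) :
    TClosed (fun p q : Y => dist p q) (hull n ι W) := by
  rintro p ⟨x, hx, y, hy, h1, h2⟩ q ⟨z, hz, w, hw, h3, h4⟩ t ht0 ht1
  obtain ⟨m, hm1, hm2⟩ := tpt hr p q t ht0 ht1
  refine ⟨m, ?_, hm1, hm2⟩
  have hm : dist p m + dist m q = dist p q := by rw [hm1, hm2]; ring
  obtain ⟨a, ha, hqa⟩ : ∃ a ∈ W, dist q (ι a) = dist q p + dist p (ι a) := by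
    rcases extend hr h2 q with h | h
    · exact ⟨x, hx, h⟩
    · exact ⟨y, hy, h⟩
  obtain ⟨b, hb, hab⟩ : ∃ b ∈ W, dist (ι a) (ι b) = dist (ι a) q + dist q (ι b) := by
    rcases extend hr h4 (ι a) with h | h
    · exact ⟨z, hz, h⟩
    · exact ⟨w, hw, h⟩
  apply conv hn hr W hW ha hb
  have t1 := dist_triangle (ι a) m (ι b)
  have t2 := dist_triangle (ι a) p m
  have t3 := dist_triangle m q (ι b)
  rw [← hr.dist_ι]
  rw [dist_comm (ι a) q, hqa, dist_comm q p] at hab
  rw [dist_comm (ι a) p] at t2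
  linarith

theorem seqproper (hn : IsTreeM n) (hr : IsReal n Y ι) (W : Set U)
    (hW : ∀ x ∈ W, ∀ R : ℕ, {y | y ∈ W ∧ n x y ≤ R}.Finite) :
    SeqProper (fun p q : Y => dist p q) (hull n ι W) := by
  intro x0 R a ha
  choose x hx y hy hxy hp using fun k => (ha k).1
  have hR : ∀ k, dist x0 (a k) ≤ R := fun k => (ha k).2
  obtain ⟨R', hR'⟩ := exists_nat_ge (dist (ι (x 0)) (a 0) + 2 * R + 2)
  have hd : ∀ k, dist (ι (x k)) (a k) ≤ 1 := by
    intro k
    have h1 := hp k
    have h2 : (n (x k) (y k) : ℝ) ≤ 1 := by exact_mod_cast hxy k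
    have := dist_nonneg (x := a k) (y := ι (y k))
    linarith
  have hxB : ∀ k, n (x 0) (x k) ≤ R' := by
    intro k
    have t1 := dist_triangle (ι (x 0)) (a 0) (ι (x k))
    have t2 := dist_triangle (a 0) x0 (ι (x k))
    have t3 := dist_triangle x0 (a k) (ι (x k))
    rw [hr.dist_ι] at t1
    rw [dist_comm (a 0) x0] at t2
    rw [dist_comm (a k)] at t3
    have h1 := hR 0
    have h2 := hR k
    have h3 := hd k
    have : (n (x 0) (x k) : ℝ) ≤ R' := by linarith
    exact_mod_cast this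
  set B : Set U := {y | y ∈ W ∧ n (x 0) y ≤ R' + 1} with hB
  have hBfin : B.Finite := hW (x 0) (hx 0) (R' + 1)
  haveI : Finite B := hBfin
  let f : ℕ → B × B := fun k => (⟨x k, hx k, (hxB k).trans (Nat.le_succ _)⟩, ⟨y k, hy k, by
    have := tri hn hr (x 0) (x k) (y k)
    have := hxB k
    have := hxy k
    omega⟩)
  obtain ⟨⟨u, v⟩, huv⟩ := Finite.exists_infinite_fiber f
  have hinf : (f ⁻¹' {(u, v)}).Infinite := Set.infinite_coe_iff.mp huv
  let ψ : ℕ → ℕ := Nat.nth (· ∈ f ⁻¹' {(u, v)})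
  have hψ : StrictMono ψ := Nat.nth_strictMono hinf
  have hψm : ∀ k, f (ψ k) = (u, v) := fun k => Nat.nth_mem_of_infinite hinf k
  have hxu : ∀ k, x (ψ k) = u.1 := fun k => congrArg (fun q => (q.1 : U)) (hψm k)
  have hyv : ∀ k, y (ψ k) = v.1 := fun k => congrArg (fun q => (q.2 : U)) (hψm k)
  have hL : n u.1 v.1 ≤ 1 := by
    have := hxy (ψ 0)
    rwa [hxu, hyv] at this
  have hpk : ∀ k, dist (ι u.1) (a (ψ k)) + dist (a (ψ k)) (ι v.1) = n u.1 v.1 := by
    intro k
    have := hp (ψ k)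
    rwa [hxu, hyv] at this
  have hrk : ∀ k, dist (ι u.1) (a (ψ k)) ∈ Set.Icc (0 : ℝ) 1 := by
    intro k
    have := hd (ψ k)
    rw [hxu] at this
    exact ⟨dist_nonneg, this⟩
  obtain ⟨r, hr1, φ, hφ, hlim⟩ := isCompact_Icc.tendsto_subseq hrk
  obtain ⟨b, hb1, hb2⟩ := tpt hr (ι u.1) (ι v.1) r hr1.1 hr1.2
  rw [hr.dist_ι] at hb1 hb2
  have hb : dist (ι u.1) b + dist b (ι v.1) = n u.1 v.1 := by rw [hb1, hb2]; ring
  refine ⟨b, ⟨u.1, u.2.1, v.1, v.2.1, hL, hb⟩, ψ ∘ φ, hψ.comp hφ, ?_⟩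
  have hlim' : Filter.Tendsto (fun k => |dist (ι u.1) (a (ψ (φ k))) - r|) Filter.atTop
      (nhds 0) := by
    have := (hlim.sub_const r).abs
    simpa using this
  refine squeeze_zero (fun _ => dist_nonneg) (fun k => ?_) hlim'
  have hs := seen hr (p := ι u.1) (q := ι v.1) (m := b) (by rw [hr.dist_ι]; exact hb)
    (a (ψ (φ k)))
  have h1 := hpk (φ k)
  have h2 := dist_nonneg (x := ι u.1) (y := a (ψ (φ k)))
  have h3 := dist_nonneg (x := a (ψ (φ k))) (y := ι v.1)
  refine hs.trans ?_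
  rw [dist_comm (a (ψ (φ k))) (ι u.1)]
  rcases Nat.eq_zero_or_pos (n u.1 v.1) with h0 | h0
  · rw [h0, Nat.cast_zero] at h1 hb1 hb2
    refine max_le ?_ ?_
    · rw [hb1, show dist (ι u.1) (a (ψ (φ k))) = 0 by linarith]
      have := abs_nonneg (0 - r)
      linarith
    · rw [hb2, show dist (a (ψ (φ k))) (ι v.1) = 0 by linarith]
      have := abs_nonneg (dist (ι u.1) (a (ψ (φ k))) - r)
      linarith
  · have h01 : n u.1 v.1 = 1 := by omega
    rw [h01, Nat.cast_one] at h1 hb1 hb2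
    refine max_le ?_ ?_
    · rw [hb1, mul_one]
      exact le_abs_self _
    · rw [hb2, mul_one]
      have := neg_abs_le (dist (ι u.1) (a (ψ (φ k))) - r)
      linarith

end HullX

open HullX in
theorem hull_proof : Stmt_Hull := by
  intro U Y _ n ι hn hr
  exact ⟨tclosed hn hr, inter hn hr, mem_hull_iota hn hr, seqproper hn hr, edges hn hr⟩

end Pool.Agent.SD
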