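import Pool.Agent.SD.Stmts

/-!
# Squad SD (MP_32d448_al): module MAIN

Assembly: the subgroup `P0.Theta.range` is finitely presented, and every finite presentation of it
has a superexponential Dehn function.
-/

set_option autoImplicit false

namespace Pool.Agent.SD.Main

open Pool.Agent.SD

/-- The letters of the concrete gadget. -/
abbrev Y : Type := HL Lab (Fin 6) ⊕ VL Lab (Fin 6)

noncomputable instance instFintypeHL {X J : Type} [Fintype X] [Fintype J] : Fintype (HL X J) := by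
  classical
  exact Fintype.ofSurjective
    (fun o : Unit ⊕ (X ⊕ ((X ⊕ J) ⊕ X)) => match o with
      | Sum.inl _ => HL.a0
      | Sum.inr (Sum.inl x) => HL.a x
      | Sum.inr (Sum.inr (Sum.inl k)) => HL.f k
      | Sum.inr (Sum.inr (Sum.inr x)) => HL.h x)
    (by
      intro l
      cases l with
      | a0 => exact ⟨Sum.inl (), rfl⟩
      | a x => exact ⟨Sum.inr (Sum.inl x), rfl⟩
      | f k => exact ⟨Sum.inr (Sum.inr (Sum.inl k)), rfl⟩
      | h x => exact ⟨Sum.inr (Sum.inr (Sum.inr x)), rfl⟩)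

noncomputable instance instFintypeVL {X J : Type} [Fintype X] [Fintype J] : Fintype (VL X J) := by
  classical
  exact Fintype.ofSurjective
    (fun o : Unit ⊕ ((X ⊕ J) ⊕ (X ⊕ X)) => match o with
      | Sum.inl _ => VL.v0
      | Sum.inr (Sum.inl k) => VL.v k
      | Sum.inr (Sum.inr (Sum.inl x)) => VL.e x
      | Sum.inr (Sum.inr (Sum.inr x)) => VL.y x)
    (by
      intro l
      cases l with
      | v0 => exact ⟨Sum.inl (), rfl⟩
      | v k => exact ⟨Sum.inr (Sum.inl k), rfl⟩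
      | e x => exact ⟨Sum.inr (Sum.inr (Sum.inl x)), rfl⟩
      | y x => exact ⟨Sum.inr (Sum.inr (Sum.inr x)), rfl⟩)

theorem sq_cases (i : Fin 35) :
    (P0.sx i ≠ Lab.ta ∧ P0.sy i ≠ Lab.ta ∧ P0.sz i ≠ Lab.ta ∧ P0.sw i ≠ Lab.ta) ∨
      (P0.sx i = Lab.ta ∧ P0.sw i = Lab.ta ∧ P0.sy i = P0.sz i ∧ P0.sy i ≠ Lab.ta ∧
        P0.sy i ∈ [Lab.a, Lab.b, Lab.w1, Lab.w2, Lab.s, Lab.z]) := by
  revert i
  decide +kernel

theorem tr_cases (j : Fin 6) : P0.tx j ≠ Lab.ta ∧ P0.ty j ≠ Lab.ta ∧ P0.tz j ≠ Lab.ta := by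
  revert j
  decide +kernel

section
variable {X I J : Type} (P : SqPres X I J)

theorem ker_mk : (PresentedGroup.mk (Set.range P.gad.word)).ker = P.gad.N := by
  unfold PresentedGroup.mk VHData.N
  exact QuotientGroup.ker_mk' _

theorem theta_eq_one {u : FreeGroup (HL X J ⊕ VL X J)} :
    P.Theta u = 1 ↔ u ∈ P.gad.N ∧ lab u = 1 := by
  have h : P.Theta u = (PresentedGroup.mk (Set.range P.gad.word) u, lab u) := rfl
  rw [h, Prod.mk_eq_one, ← ker_mk P, MonoidHom.mem_ker]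

/-- labels of the square words -/
theorem lab_word (s : SL X I J) : lab (P.gad.word s) = 1 ∨ ∃ k, lab (P.gad.word s) = P.rel k := by
  cases s with
  | rs i =>
    right
    refine ⟨Sum.inl i, ?_⟩
    simp [VHData.word, SqPres.gad, SqPres.gh, SqPres.gv, SqPres.gv', SqPres.gh', gH, gV, lab, labL,
      SqPres.rel]
  | rt j =>
    right
    refine ⟨Sum.inr j, ?_⟩
    simp [VHData.word, SqPres.gad, SqPres.gh, SqPres.gv, SqPres.gv', SqPres.gh', gH, gV, lab, labL,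
      SqPres.rel]
  | _ =>
    left
    simp [VHData.word, SqPres.gad, SqPres.gh, SqPres.gv, SqPres.gv', SqPres.gh', gH, gV, lab, labL]

theorem lab_mem {w : FreeGroup (HL X J ⊕ VL X J)} (hw : w ∈ P.gad.N) :
    lab w ∈ Subgroup.normalClosure (Set.range P.rel) := by
  have h : P.gad.N ≤ (Subgroup.normalClosure (Set.range P.rel)).comap lab := by
    unfold VHData.N
    apply Subgroup.normalClosure_le_normal
    rintro _ ⟨s, rfl⟩
    change lab (P.gad.word s) ∈ Subgroup.normalClosure (Set.range P.rel)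
    rcases lab_word P s with h | ⟨k, h⟩
    · rw [h]; exact Subgroup.one_mem _
    · rw [h]; exact Subgroup.subset_normalClosure ⟨k, rfl⟩
  exact h hw

theorem word_mem (s : SL X I J) : P.gad.word s ∈ P.gad.N :=
  Subgroup.subset_normalClosure ⟨s, rfl⟩

theorem conj_mem {w : FreeGroup (HL X J ⊕ VL X J)} (hw : w ∈ P.gad.N)
    (g : FreeGroup (HL X J ⊕ VL X J)) : g * w * g⁻¹ ∈ P.gad.N := by
  have : P.gad.N.Normal := by unfold VHData.N; infer_instance
  exact this.conj_mem w hw g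

theorem DD_le (τ : X) : P.DD τ ≤ P.gad.N := by
  unfold SqPres.DD
  rw [Subgroup.closure_le]
  rintro w ⟨u, -, s, rfl⟩
  exact conj_mem P (word_mem P s) u

end

section
variable {X I J : Type} {P : SqPres X I J} {τ : X} {n : FreeGroup (HL X J ⊕ VL X J) → ℤ}
  {b : FreeGroup X → ℤ}

theorem n_one (h1 : ∀ u ∈ P.gad.N, ∀ w ∈ P.gad.N, n (u * w) = n u + n w) : n 1 = 0 := by
  have := h1 1 (one_mem _) 1 (one_mem _)
  rw [mul_one] at this
  linarith

theorem n_inv (h1 : ∀ u ∈ P.gad.N, ∀ w ∈ P.gad.N, n (u * w) = n u + n w)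
    {w : FreeGroup (HL X J ⊕ VL X J)} (hw : w ∈ P.gad.N) : n w⁻¹ = -n w := by
  have := h1 w hw w⁻¹ (inv_mem hw)
  rw [mul_inv_cancel, n_one h1] at this
  linarith

/-- invariance under conjugation by words without letters of label `τ` -/
theorem n_conj_nonTau
    (h3 : ∀ y, NonTau τ y → ∀ w ∈ P.gad.N, n (FreeGroup.of y * w * (FreeGroup.of y)⁻¹) = n w)
    {u : FreeGroup (HL X J ⊕ VL X J)}
    (hu : u ∈ Subgroup.closure (FreeGroup.of '' {y | NonTau τ y})) :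
    ∀ w ∈ P.gad.N, n (u * w * u⁻¹) = n w := by
  induction hu using Subgroup.closure_induction with
  | mem x hx =>
    obtain ⟨y, hy, rfl⟩ := hx
    exact h3 y hy
  | one => intro w _; simp
  | mul x y _ _ hx hy =>
    intro w hw
    have e : x * y * w * (x * y)⁻¹ = x * (y * w * y⁻¹) * x⁻¹ := by group
    rw [e, hx _ (conj_mem P hw y), hy w hw]
  | inv x _ hx =>
    intro w hw
    have hw' := conj_mem P hw x⁻¹
    have e : x * (x⁻¹ * w * x⁻¹⁻¹) * x⁻¹ = w := by group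
    have := hx _ hw'
    rw [e] at this
    exact this.symm

theorem n_DD (h1 : ∀ u ∈ P.gad.N, ∀ w ∈ P.gad.N, n (u * w) = n u + n w)
    (h2 : ∀ s, n (P.gad.word s) = 0)
    (h3 : ∀ y, NonTau τ y → ∀ w ∈ P.gad.N, n (FreeGroup.of y * w * (FreeGroup.of y)⁻¹) = n w)
    {D : FreeGroup (HL X J ⊕ VL X J)} (hD : D ∈ P.DD τ) : n D = 0 := by
  unfold SqPres.DD at hD
  induction hD using Subgroup.closure_induction with
  | mem x hx =>
    obtain ⟨u, hu, s, rfl⟩ := hx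
    rw [n_conj_nonTau h3 hu _ (word_mem P s), h2 s]
  | one => exact n_one h1
  | mul x y hx0 hy0 hx hy =>
    have hx1 : x ∈ P.gad.N := DD_le P τ hx0
    have hy1 : y ∈ P.gad.N := DD_le P τ hy0
    rw [h1 x hx1 y hy1, hx, hy, add_zero]
  | inv x hx0 hx =>
    have hx1 : x ∈ P.gad.N := DD_le P τ hx0
    rw [n_inv h1 hx1, hx, neg_zero]

theorem n_conj_all (hb1 : b 1 = 0)
    (h3 : ∀ y, NonTau τ y → ∀ w ∈ P.gad.N, n (FreeGroup.of y * w * (FreeGroup.of y)⁻¹) = n w)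
    (h4 : ∀ y, ¬ NonTau τ y → ∀ w ∈ P.gad.N,
        n (FreeGroup.of y * w * (FreeGroup.of y)⁻¹) = n w + b (lab w))
    (g : FreeGroup (HL X J ⊕ VL X J)) :
    ∀ u, P.Theta u = 1 → n (g * u * g⁻¹) = n u := by
  have hconj : ∀ (g u : FreeGroup (HL X J ⊕ VL X J)), P.Theta u = 1 →
      P.Theta (g * u * g⁻¹) = 1 := by
    intro g u hu
    rw [map_mul, map_mul, hu, map_inv]; group
  have hgen : ∀ y u, P.Theta u = 1 → n (FreeGroup.of y * u * (FreeGroup.of y)⁻¹) = n u := by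
    intro y u hu
    obtain ⟨hN, hl⟩ := (theta_eq_one P).mp hu
    by_cases hy : NonTau τ y
    · exact h3 y hy u hN
    · rw [h4 y hy u hN, hl, hb1, add_zero]
  induction g using FreeGroup.induction_on with
  | C1 => intro u _; simp
  | of y => exact hgen y
  | inv_of y _ =>
    intro u hu
    have h := hgen y _ (hconj (FreeGroup.of y)⁻¹ u hu)
    have e : FreeGroup.of y * ((FreeGroup.of y)⁻¹ * u * (FreeGroup.of y)⁻¹⁻¹) *
      (FreeGroup.of y)⁻¹ = u := by group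
    rw [e] at h
    exact h.symm
  | mul x y hx hy =>
    intro u hu
    have e : x * y * u * (x * y)⁻¹ = x * (y * u * y⁻¹) * x⁻¹ := by group
    rw [e, hx _ (hconj y u hu), hy u hu]

end

/-- the test words -/
theorem lower_words (hCM : Stmt_CM) (hBP : Stmt_BP) (hWords : Stmt_Words) (hGrow : Stmt_Grow) :
    ∃ val : FreeGroup Y → ℤ,
      (∀ u v, P0.Theta u = 1 → P0.Theta v = 1 → val (u * v) = val u + val v) ∧
      (∀ g u, P0.Theta u = 1 → val (g * u * g⁻¹) = val u) ∧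
      (∀ C : ℕ, ∃ w, P0.Theta w = 1 ∧ (C : ℤ) ^ (w.norm + 1) < |val w|) := by
  obtain ⟨b, hb1, hb2, hb3⟩ := hBP
  have hLL : LL = Subgroup.normalClosure (Set.range P0.rel) := rfl
  obtain ⟨n, h1, h2, h3, h4⟩ := hCM Lab (Fin 35) (Fin 6) P0 Lab.ta b
    (fun u hu v hv => hb1 u hu v hv)
    (fun i => (sq_cases i).imp id fun h =>
      ⟨h.1, h.2.1, h.2.2.1, h.2.2.2.1, fun l hl => hb2 _ h.2.2.2.2 l hl⟩)
    tr_cases
  have hb0 : b 1 = 0 := by
    have := hb1 1 (one_mem _) 1 (one_mem _)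
    rw [mul_one] at this
    linarith
  refine ⟨n, ?_, ?_, ?_⟩
  · intro u v hu hv
    exact h1 u ((theta_eq_one P0).mp hu).1 v ((theta_eq_one P0).mp hv).1
  · intro g u hu
    exact n_conj_all hb0 h3 h4 g u hu
  · intro C
    obtain ⟨c, hc⟩ := hWords
    obtain ⟨m, hm⟩ := hGrow (3 * c + 3) (max C 1)
    obtain ⟨⟨D, hD, hDl, hDn⟩, ⟨D', hD', hDl', hDn'⟩⟩ := hc m
    have hDN : D ∈ P0.gad.N := DD_le P0 _ hD
    have hDN' : D' ∈ P0.gad.N := DD_le P0 _ hD'
    set ht : FreeGroup Y := FreeGroup.of (Sum.inl (HL.h Lab.ta)) with hht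
    have hlt : lab ht = FreeGroup.of Lab.ta := by simp [hht, lab, labL]
    have hnt : ¬ NonTau (J := Fin 6) Lab.ta (Sum.inl (HL.h Lab.ta)) := fun h => h.1 rfl
    have hmid : ht * D⁻¹ * ht⁻¹ ∈ P0.gad.N := conj_mem P0 (inv_mem hDN) ht
    have hWN : D * (ht * D⁻¹ * ht⁻¹) * D'⁻¹ ∈ P0.gad.N :=
      mul_mem (mul_mem hDN hmid) (inv_mem hDN')
    have hWl : lab (D * (ht * D⁻¹ * ht⁻¹) * D'⁻¹) = 1 := by
      simp only [map_mul, map_inv, hDl, hDl', hlt]
      group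
    refine ⟨D * (ht * D⁻¹ * ht⁻¹) * D'⁻¹, (theta_eq_one P0).mpr ⟨hWN, hWl⟩, ?_⟩
    have hγ : gammaW m ∈ LL := by rw [← hDl, hLL]; exact lab_mem P0 hDN
    have hbinv : b (gammaW m)⁻¹ = -b (gammaW m) := by
      have := hb1 _ hγ _ (inv_mem hγ)
      rw [mul_inv_cancel, hb0] at this
      linarith
    have hval : n (D * (ht * D⁻¹ * ht⁻¹) * D'⁻¹) = -(Nat.fib (Nat.fib (m + 2) + 1) : ℤ) := by
      rw [h1 _ (mul_mem hDN hmid) _ (inv_mem hDN'), h1 _ hDN _ hmid, n_inv h1 hDN',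
        n_DD h1 h2 h3 hD, n_DD h1 h2 h3 hD', h4 _ hnt _ (inv_mem hDN), n_inv h1 hDN,
        n_DD h1 h2 h3 hD, map_inv, hDl, hbinv, hb3]
      ring
    rw [hval, abs_neg, Nat.abs_cast]
    have hnorm : (D * (ht * D⁻¹ * ht⁻¹) * D'⁻¹).norm + 1 ≤ (3 * c + 3) * (m + 1) ^ 3 := by
      have e1 := FreeGroup.norm_mul_le (D * (ht * D⁻¹ * ht⁻¹)) D'⁻¹
      have e2 := FreeGroup.norm_mul_le D (ht * D⁻¹ * ht⁻¹)
      have e3 := FreeGroup.norm_mul_le (ht * D⁻¹) ht⁻¹
      have e4 := FreeGroup.norm_mul_le ht D⁻¹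
      rw [FreeGroup.norm_inv_eq] at e1 e3 e4
      have e5 : ht.norm = 1 := by rw [hht]; exact FreeGroup.norm_of _
      have e6 : 1 ≤ (m + 1) ^ 3 := Nat.one_le_pow _ _ (Nat.succ_pos m)
      have e7 : (3 * c + 3) * (m + 1) ^ 3 = 3 * (c * (m + 1) ^ 3) + 3 * (m + 1) ^ 3 := by ring
      omega
    have hpow : C ^ ((D * (ht * D⁻¹ * ht⁻¹) * D'⁻¹).norm + 1) <
        Nat.fib (Nat.fib (m + 2) + 1) :=
      calc C ^ ((D * (ht * D⁻¹ * ht⁻¹) * D'⁻¹).norm + 1)
          ≤ (max C 1) ^ ((D * (ht * D⁻¹ * ht⁻¹) * D'⁻¹).norm + 1) :=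
            Nat.pow_le_pow_left (le_max_left _ _) _
        _ ≤ (max C 1) ^ ((3 * c + 3) * (m + 1) ^ 3) :=
            Nat.pow_le_pow_right (lt_of_lt_of_le one_pos (le_max_right _ _)) hnorm
        _ < _ := hm
    exact_mod_cast hpow

end Pool.Agent.SD.Main

namespace Pool.Agent.SD

/-- MAIN. -/
theorem main_proof (hLower : Stmt_Lower) (hCM : Stmt_CM) (hHFP : Stmt_HFP) (hKFG : Stmt_KFG)
    (hRPres : Stmt_RPres) (hFPR : Stmt_FPR) (hBP : Stmt_BP) (hWords : Stmt_Words)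
    (hGrow : Stmt_Grow) : Stmt_Main := by
  refine ⟨?_, ?_⟩
  · exact hHFP Lab (Fin 35) (Fin 6) P0 RC piR hRPres.1 hRPres.2
      (hKFG Lab RC (Fin 35 ⊕ Fin 6) piR P0.rel hRPres.1 hRPres.2 hFPR)
  · obtain ⟨val, h1, h2, h3⟩ := Main.lower_words hCM hBP hWords hGrow
    intro n R φ hr hk
    exact hLower _ _ P0.Theta val h1 h2 h3 n R φ hr hk

end Pool.Agent.SD
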