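import Mathlib
import Pool.Agent.SD.Defs
import Pool.Agent.SD.Grp
import Pool.Agent.SD.Stmts

/-!
# Squad SD, module WORDS: short words in `DD` with labels `γ_m` and `[γ_m, τ]`.
-/

set_option autoImplicit false
set_option linter.constructorNameAsVariable false

namespace Pool.Agent.SD

namespace WordsX

open FreeGroup (of)

/-- `x` is the label of an element of `DD` of norm at most `N`. -/
def E (x : FreeGroup Lab) (N : ℕ) : Prop :=
  ∃ D ∈ P0.DD Lab.ta, lab D = x ∧ D.norm ≤ N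

theorem E_mono {x : FreeGroup Lab} {N M : ℕ} (h : E x N) (hNM : N ≤ M) : E x M := by
  obtain ⟨D, h1, h2, h3⟩ := h
  exact ⟨D, h1, h2, h3.trans hNM⟩

theorem E_one : E 1 0 := ⟨1, one_mem _, map_one _, by simp⟩

theorem E_mul {x y : FreeGroup Lab} {N M : ℕ} (hx : E x N) (hy : E y M) : E (x * y) (N + M) := by
  obtain ⟨D, h1, h2, h3⟩ := hx
  obtain ⟨D', h1', h2', h3'⟩ := hy
  exact ⟨D * D', mul_mem h1 h1', by rw [map_mul, h2, h2'],
    (FreeGroup.norm_mul_le _ _).trans (add_le_add h3 h3')⟩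

theorem E_inv {x : FreeGroup Lab} {N : ℕ} (hx : E x N) : E x⁻¹ N := by
  obtain ⟨D, h1, h2, h3⟩ := hx
  exact ⟨D⁻¹, inv_mem h1, by rw [map_inv, h2], by rw [FreeGroup.norm_inv_eq]; exact h3⟩

theorem DD_conj {g D : FreeGroup (HL Lab (Fin 6) ⊕ VL Lab (Fin 6))}
    (hg : g ∈ Subgroup.closure (FreeGroup.of '' {y | NonTau Lab.ta y})) (hD : D ∈ P0.DD Lab.ta) :
    g * D * g⁻¹ ∈ P0.DD Lab.ta := by
  unfold SqPres.DD at hD ⊢
  induction hD using Subgroup.closure_induction with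
  | mem x hx =>
    obtain ⟨u, hu, s, rfl⟩ := hx
    exact Subgroup.subset_closure ⟨g * u, mul_mem hg hu, s, by group⟩
  | one => simp
  | mul x y _ _ h1 h2 =>
    have : g * (x * y) * g⁻¹ = (g * x * g⁻¹) * (g * y * g⁻¹) := by group
    rw [this]; exact mul_mem h1 h2
  | inv x _ h1 =>
    have : g * x⁻¹ * g⁻¹ = (g * x * g⁻¹)⁻¹ := by group
    rw [this]; exact inv_mem h1

theorem E_conj_pos {x : FreeGroup Lab} {N : ℕ} {l : Lab} (hl : l ≠ Lab.ta) (hx : E x N) :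
    E (of l * x * (of l)⁻¹) (N + 2) := by
  obtain ⟨D, h1, h2, h3⟩ := hx
  refine ⟨of (Sum.inl (HL.h l)) * D * (of (Sum.inl (HL.h l)))⁻¹, ?_, ?_, ?_⟩
  · apply DD_conj _ h1
    apply Subgroup.subset_closure
    refine ⟨_, ?_, rfl⟩
    simp [NonTau, hl]
  · rw [map_mul, map_mul, map_inv, h2]; simp [lab, labL]
  · refine (FreeGroup.norm_mul_le _ _).trans ?_
    rw [FreeGroup.norm_inv_eq, FreeGroup.norm_of]
    have := FreeGroup.norm_mul_le (of (Sum.inl (HL.h l))) D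
    rw [FreeGroup.norm_of] at this
    omega

theorem E_conj_neg {x : FreeGroup Lab} {N : ℕ} {l : Lab} (hl : l ≠ Lab.ta) (hx : E x N) :
    E ((of l)⁻¹ * x * of l) (N + 2) := by
  obtain ⟨D, h1, h2, h3⟩ := hx
  refine ⟨(of (Sum.inl (HL.h l)))⁻¹ * D * of (Sum.inl (HL.h l)), ?_, ?_, ?_⟩
  · have := DD_conj (g := (of (Sum.inl (HL.h l)))⁻¹) (D := D) ?_ h1
    · simpa using this
    apply inv_mem
    apply Subgroup.subset_closure
    refine ⟨_, ?_, rfl⟩
    simp [NonTau, hl]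
  · rw [map_mul, map_mul, map_inv, h2]; simp [lab, labL]
  · refine (FreeGroup.norm_mul_le _ _).trans ?_
    rw [FreeGroup.norm_of]
    have := FreeGroup.norm_mul_le (of (Sum.inl (HL.h l)))⁻¹ D
    rw [FreeGroup.norm_inv_eq, FreeGroup.norm_of] at this
    omega

/-- Products of exactly `n` letters of `S` and inverses. -/
inductive Wd (S : Lab → Prop) : ℕ → FreeGroup Lab → Prop
  | one : Wd S 0 1
  | pos {n : ℕ} {x : FreeGroup Lab} {l : Lab} : S l → Wd S n x → Wd S (n + 1) (of l * x)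
  | neg {n : ℕ} {x : FreeGroup Lab} {l : Lab} : S l → Wd S n x → Wd S (n + 1) ((of l)⁻¹ * x)

theorem Wd.mono {S T : Lab → Prop} (h : ∀ l, S l → T l) {n : ℕ} {x : FreeGroup Lab}
    (hx : Wd S n x) : Wd T n x := by
  induction hx with
  | one => exact Wd.one
  | pos hl _ ih => exact Wd.pos (h _ hl) ih
  | neg hl _ ih => exact Wd.neg (h _ hl) ih

theorem Wd.mul {S : Lab → Prop} {n m : ℕ} {x y : FreeGroup Lab} (hx : Wd S n x) (hy : Wd S m y) :
    Wd S (n + m) (x * y) := by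
  induction hx with
  | one => simpa using hy
  | pos hl _ ih => rw [mul_assoc, Nat.add_right_comm]; exact Wd.pos hl ih
  | neg hl _ ih => rw [mul_assoc, Nat.add_right_comm]; exact Wd.neg hl ih

theorem Wd.letter {S : Lab → Prop} {l : Lab} (hl : S l) : Wd S 1 (of l) := by
  simpa using Wd.pos hl Wd.one

theorem Wd.iletter {S : Lab → Prop} {l : Lab} (hl : S l) : Wd S 1 (of l)⁻¹ := by
  simpa using Wd.neg hl Wd.one

theorem Wd.inv {S : Lab → Prop} {n : ℕ} {x : FreeGroup Lab} (hx : Wd S n x) : Wd S n x⁻¹ := by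
  induction hx with
  | one => simpa using Wd.one
  | pos hl _ ih => rw [mul_inv_rev]; exact ih.mul (Wd.iletter hl)
  | neg hl _ ih => rw [mul_inv_rev, inv_inv]; exact ih.mul (Wd.letter hl)

theorem Wd.pow {S : Lab → Prop} {n : ℕ} {x : FreeGroup Lab} (hx : Wd S n x) (k : ℕ) :
    Wd S (k * n) (x ^ k) := by
  induction k with
  | zero => simpa using Wd.one
  | succ k ih => rw [pow_succ, Nat.succ_mul]; exact ih.mul hx

/-- not the letter `τ` -/
abbrev NT : Lab → Prop := fun l => l ≠ Lab.ta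

theorem E_conj {g x : FreeGroup Lab} {n N : ℕ} (hg : Wd NT n g) (hx : E x N) :
    E (g * x * g⁻¹) (N + 2 * n) := by
  induction hg with
  | one => simpa using hx
  | @pos n y l hl _ ih =>
    have h := E_conj_pos hl ih
    have e : of l * y * x * (of l * y)⁻¹ = of l * (y * x * y⁻¹) * (of l)⁻¹ := by group
    rw [e]; exact E_mono h (by omega)
  | @neg n y l hl _ ih =>
    have h := E_conj_neg hl ih
    have e : (of l)⁻¹ * y * x * ((of l)⁻¹ * y)⁻¹ = (of l)⁻¹ * (y * x * y⁻¹) * of l := by group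
    rw [e]; exact E_mono h (by omega)

/-- commutator -/
def cm (x y : FreeGroup Lab) : FreeGroup Lab := x * y * x⁻¹ * y⁻¹

theorem cm_inv (x y : FreeGroup Lab) : (cm x y)⁻¹ = cm y x := by unfold cm; group

theorem E_cm_symm {x y : FreeGroup Lab} {N : ℕ} (h : E (cm x y) N) : E (cm y x) N := by
  rw [← cm_inv]; exact E_inv h

/-- commuting letters: words commute with `t`. -/
theorem E_cm {A : Lab → Prop} (hA : ∀ l, A l → NT l) {t : FreeGroup Lab} {c : ℕ}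
    (h : ∀ l, A l → E (cm (of l) t) c) {n : ℕ} {u : FreeGroup Lab} (hu : Wd A n u) :
    E (cm u t) (n * (c + 4)) := by
  induction hu with
  | one =>
    have : cm 1 t = 1 := by unfold cm; group
    rw [this]; exact E_mono E_one (by omega)
  | @pos n y l hl _ ih =>
    have e : cm (of l * y) t = (of l * cm y t * (of l)⁻¹) * cm (of l) t := by unfold cm; group
    rw [e]
    exact E_mono (E_mul (E_conj_pos (hA l hl) ih) (h l hl)) (by nlinarith)
  | @neg n y l hl _ ih =>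
    have e : cm ((of l)⁻¹ * y) t = ((of l)⁻¹ * cm y t * of l) *
        ((of l)⁻¹ * (cm (of l) t)⁻¹ * of l) := by unfold cm; group
    rw [e]
    exact E_mono (E_mul (E_conj_neg (hA l hl) ih) (E_conj_neg (hA l hl) (E_inv (h l hl))))
      (by nlinarith)

theorem E_cm2 {A B : Lab → Prop} (hA : ∀ l, A l → NT l) (hB : ∀ l, B l → NT l) {c : ℕ}
    (h : ∀ l, A l → ∀ k, B k → E (cm (of l) (of k)) c) {n m : ℕ} {u v : FreeGroup Lab}
    (hu : Wd A m u) (hv : Wd B n v) : E (cm u v) (m * (n * (c + 4) + 4)) := by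
  apply E_cm hA _ hu
  intro l hl
  apply E_cm_symm
  exact E_cm hB (fun k hk => E_cm_symm (h l hl k hk)) hv

/-! ### relators -/

theorem E_sq {x y z w : Lab} (h : (x, y, z, w) ∈ sqL) :
    E (of x * of y * (of w)⁻¹ * (of z)⁻¹) 4 := by
  obtain ⟨i, hi⟩ := List.get_of_mem h
  refine ⟨P0.gad.word (SL.rs i), ?_, ?_, ?_⟩
  · exact Subgroup.subset_closure ⟨1, one_mem _, SL.rs i, by simp⟩
  · have h1 : P0.sx i = x := by change (sqL.get i).1 = x; rw [hi]
    have h2 : P0.sy i = y := by change (sqL.get i).2.1 = y; rw [hi]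
    have h3 : P0.sz i = z := by change (sqL.get i).2.2.1 = z; rw [hi]
    have h4 : P0.sw i = w := by change (sqL.get i).2.2.2 = w; rw [hi]
    simp [VHData.word, SqPres.gad, SqPres.gh, SqPres.gv, SqPres.gv', SqPres.gh', gH, gV, lab,
      labL, h1, h2, h3, h4]
  · unfold VHData.word gH gV
    refine (FreeGroup.norm_mul_le _ _).trans ?_
    rw [FreeGroup.norm_inv_eq, FreeGroup.norm_of]
    refine (Nat.add_le_add_right (FreeGroup.norm_mul_le _ _) 1).trans ?_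
    rw [FreeGroup.norm_inv_eq, FreeGroup.norm_of]
    refine (Nat.add_le_add_right (Nat.add_le_add_right (FreeGroup.norm_mul_le _ _) 1) 1).trans ?_
    rw [FreeGroup.norm_of, FreeGroup.norm_of]

theorem E_tr {x y z : Lab} (h : (x, y, z) ∈ trL) :
    E (of x * of y * (of z)⁻¹) 4 := by
  obtain ⟨i, hi⟩ := List.get_of_mem h
  refine ⟨P0.gad.word (SL.rt i), ?_, ?_, ?_⟩
  · exact Subgroup.subset_closure ⟨1, one_mem _, SL.rt i, by simp⟩
  · have h1 : P0.tx i = x := by change (trL.get i).1 = x; rw [hi]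
    have h2 : P0.ty i = y := by change (trL.get i).2.1 = y; rw [hi]
    have h3 : P0.tz i = z := by change (trL.get i).2.2 = z; rw [hi]
    simp [VHData.word, SqPres.gad, SqPres.gh, SqPres.gv, SqPres.gv', SqPres.gh', gH, gV, lab,
      labL, h1, h2, h3]
  · unfold VHData.word gH gV
    refine (FreeGroup.norm_mul_le _ _).trans ?_
    rw [FreeGroup.norm_inv_eq, FreeGroup.norm_of]
    refine (Nat.add_le_add_right (FreeGroup.norm_mul_le _ _) 1).trans ?_
    rw [FreeGroup.norm_inv_eq, FreeGroup.norm_of]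
    refine (Nat.add_le_add_right (Nat.add_le_add_right (FreeGroup.norm_mul_le _ _) 1) 1).trans ?_
    rw [FreeGroup.norm_of, FreeGroup.norm_of]

theorem E_com {x y : Lab} (h : (x, y, y, x) ∈ sqL) : E (cm (of x) (of y)) 4 := E_sq h

/-! ### the congruence -/

/-- `x ~ y` at cost `N` -/
def R (N : ℕ) (x y : FreeGroup Lab) : Prop := E (x * y⁻¹) N

theorem R_mono {N M : ℕ} {x y : FreeGroup Lab} (h : R N x y) (hNM : N ≤ M) : R M x y :=
  E_mono h hNM

theorem R_symm {N : ℕ} {x y : FreeGroup Lab} (h : R N x y) : R N y x := by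
  have := E_inv h
  rwa [mul_inv_rev, inv_inv] at this

theorem R_trans {N M : ℕ} {x y z : FreeGroup Lab} (h : R N x y) (h' : R M y z) :
    R (N + M) x z := by
  have := E_mul h h'
  have e : x * y⁻¹ * (y * z⁻¹) = x * z⁻¹ := by group
  rwa [e] at this

theorem R_right {N : ℕ} {x y : FreeGroup Lab} (h : R N x y) (g : FreeGroup Lab) :
    R N (x * g) (y * g) := by
  unfold R
  have e : x * g * (y * g)⁻¹ = x * y⁻¹ := by group
  rwa [e]

theorem R_left {N n : ℕ} {x y g : FreeGroup Lab} (h : R N x y) (hg : Wd NT n g) :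
    R (N + 2 * n) (g * x) (g * y) := by
  unfold R
  have e : g * x * (g * y)⁻¹ = g * (x * y⁻¹) * g⁻¹ := by group
  rw [e]; exact E_conj hg h

theorem R_inv {N n : ℕ} {x y : FreeGroup Lab} (h : R N x y) (hy : Wd NT n y) :
    R (N + 2 * n) x⁻¹ y⁻¹ := by
  unfold R
  have e : x⁻¹ * (y⁻¹)⁻¹ = y⁻¹ * (x * y⁻¹)⁻¹ * (y⁻¹)⁻¹ := by group
  rw [e]; exact E_conj hy.inv (E_inv h)

theorem R_cm {N : ℕ} {x y : FreeGroup Lab} (h : E (cm x y) N) : R N (x * y) (y * x) := by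
  unfold R
  have e : x * y * (y * x)⁻¹ = cm x y := by unfold cm; group
  rwa [e]

/-! ### the word -/

abbrev wsi : FreeGroup Lab := of Lab.si
abbrev wr : FreeGroup Lab := of Lab.r
abbrev ws : FreeGroup Lab := of Lab.s

theorem nt (l : Lab) (h : l ≠ Lab.ta) : Wd NT 1 (of l) := Wd.letter h

/-- letters `si, u1, z` -/
abbrev SA : Lab → Prop := fun l => l = Lab.si ∨ l = Lab.u1 ∨ l = Lab.z
/-- letters `r, t1, a` -/
abbrev SB : Lab → Prop := fun l => l = Lab.r ∨ l = Lab.t1 ∨ l = Lab.a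

theorem SA_nt : ∀ l, SA l → NT l := by
  rintro l (rfl | rfl | rfl) <;> decide
theorem SB_nt : ∀ l, SB l → NT l := by
  rintro l (rfl | rfl | rfl) <;> decide

theorem base_com : ∀ l, SB l → ∀ k, SA k → E (cm (of l) (of k)) 4 := by
  rintro l (rfl | rfl | rfl) k (rfl | rfl | rfl) <;> exact E_com (by decide)

theorem com_BA {n m : ℕ} {u v : FreeGroup Lab} (hu : Wd SB m u) (hv : Wd SA n v) :
    E (cm u v) (m * (n * 8 + 4)) := E_cm2 SB_nt SA_nt base_com hu hv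

theorem com_AB {n m : ℕ} {u v : FreeGroup Lab} (hu : Wd SA m u) (hv : Wd SB n v) :
    E (cm u v) (n * (m * 8 + 4)) := E_cm_symm (com_BA hv hu)

theorem R_spow (m : ℕ) : R (20 * m ^ 2 + 20 * m) (ws ^ m) (wsi ^ m * wr ^ m) := by
  induction m with
  | zero => simpa [R] using E_one
  | succ m ih =>
    have h0 : R 4 ws (wsi * wr) := R_symm (E_tr (x := .si) (y := .r) (z := .s) (by decide))
    have h1 : R 4 (ws * ws ^ m) (wsi * wr * ws ^ m) := R_right h0 _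
    have h2 : R (20 * m ^ 2 + 20 * m + 2 * (1 + 1)) (wsi * wr * ws ^ m)
        (wsi * wr * (wsi ^ m * wr ^ m)) := R_left ih ((nt .si (by decide)).mul (nt .r (by decide)))
    have h3 : R (1 * (m * 1 * 8 + 4)) (wr * wsi ^ m) (wsi ^ m * wr) :=
      R_cm (com_BA (Wd.letter (by decide)) ((Wd.letter (by decide)).pow m))
    have h4 := R_left (R_right h3 (wr ^ m)) (nt .si (by decide))
    have h5 := R_trans (R_trans h1 h2) (R_mono (M := 1 * (m * 1 * 8 + 4) + 2 * 1) (x :=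
      wsi * wr * (wsi ^ m * wr ^ m)) (y := wsi * (wsi ^ m * wr * wr ^ m)) (by
        have e : wsi * wr * (wsi ^ m * wr ^ m) = wsi * (wr * wsi ^ m * wr ^ m) := by group
        rw [e]; exact h4) le_rfl)
    have e1 : ws ^ (m + 1) = ws * ws ^ m := pow_succ' _ _
    have e2 : wsi ^ (m + 1) * wr ^ (m + 1) = wsi * (wsi ^ m * wr * wr ^ m) := by
      rw [pow_succ' wsi, pow_succ' wr]; group
    rw [e1, e2]
    exact R_mono h5 (by nlinarith)

/-- the conjugating element `X_m = s^m w1 s^-m` -/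
def Xw (m : ℕ) : FreeGroup Lab := ws ^ m * of Lab.w1 * (ws ^ m)⁻¹
def Aw (m : ℕ) : FreeGroup Lab := wsi ^ m * of Lab.u1 * (wsi ^ m)⁻¹
def pw (m : ℕ) : FreeGroup Lab := wr ^ m * of Lab.t1 * (wr ^ m)⁻¹
def qw (m : ℕ) : FreeGroup Lab := pw m * of Lab.a * (pw m)⁻¹

theorem Wd_Aw (m : ℕ) : Wd SA (m * 1 + 1 + m * 1) (Aw m) :=
  (((Wd.letter (Or.inl rfl)).pow m).mul (Wd.letter (Or.inr (Or.inl rfl)))).mul
    ((Wd.letter (Or.inl rfl)).pow m).inv

theorem Wd_pw (m : ℕ) : Wd SB (m * 1 + 1 + m * 1) (pw m) :=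
  (((Wd.letter (Or.inl rfl)).pow m).mul (Wd.letter (Or.inr (Or.inl rfl)))).mul
    ((Wd.letter (Or.inl rfl)).pow m).inv

theorem Wd_qw (m : ℕ) :
    Wd SB ((m * 1 + 1 + m * 1) + 1 + (m * 1 + 1 + m * 1)) (qw m) :=
  ((Wd_pw m).mul (Wd.letter (Or.inr (Or.inr rfl)))).mul (Wd_pw m).inv

theorem Wd_P (m : ℕ) : Wd NT (m * 1 + m * 1) (wsi ^ m * wr ^ m) :=
  ((nt .si (by decide)).pow m).mul ((nt .r (by decide)).pow m)

theorem R_X (m : ℕ) : R (200 * (m + 1) ^ 2) (Xw m) (Aw m * pw m) := by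
  have hP := R_spow m
  have h1 : R (20 * m ^ 2 + 20 * m) (Xw m) (wsi ^ m * wr ^ m * of Lab.w1 * (ws ^ m)⁻¹) :=
    R_right (R_right hP _) _
  have h2 : R (20 * m ^ 2 + 20 * m + 2 * (m * 1 + m * 1) + 2 * (m * 1 + m * 1 + 1))
      (wsi ^ m * wr ^ m * of Lab.w1 * (ws ^ m)⁻¹)
      (wsi ^ m * wr ^ m * of Lab.w1 * (wsi ^ m * wr ^ m)⁻¹) :=
    R_left (R_inv hP (Wd_P m)) ((Wd_P m).mul (nt .w1 (by decide)))
  have h0 : R 4 (of Lab.w1) (of Lab.u1 * of Lab.t1) :=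
    R_symm (E_tr (x := .u1) (y := .t1) (z := .w1) (by decide))
  have h3 : R (4 + 2 * (m * 1 + m * 1)) (wsi ^ m * wr ^ m * of Lab.w1 * (wsi ^ m * wr ^ m)⁻¹)
      (wsi ^ m * wr ^ m * (of Lab.u1 * of Lab.t1) * (wsi ^ m * wr ^ m)⁻¹) :=
    R_right (R_left h0 (Wd_P m)) _
  have h4 : R (m * 1 * (1 * 8 + 4)) (wr ^ m * of Lab.u1) (of Lab.u1 * wr ^ m) :=
    R_cm (com_BA ((Wd.letter (Or.inl rfl)).pow m) (Wd.letter (Or.inr (Or.inl rfl))))
  have h5 : R (m * 1 * (1 * 8 + 4) + 2 * (m * 1))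
      (wsi ^ m * wr ^ m * (of Lab.u1 * of Lab.t1) * (wsi ^ m * wr ^ m)⁻¹)
      (wsi ^ m * of Lab.u1 * (pw m * (wsi ^ m)⁻¹)) := by
    have := R_left (R_right h4 (of Lab.t1 * (wsi ^ m * wr ^ m)⁻¹)) ((nt .si (by decide)).pow m)
    have e1 : wsi ^ m * wr ^ m * (of Lab.u1 * of Lab.t1) * (wsi ^ m * wr ^ m)⁻¹ =
      wsi ^ m * (wr ^ m * of Lab.u1 * (of Lab.t1 * (wsi ^ m * wr ^ m)⁻¹)) := by group
    have e2 : wsi ^ m * of Lab.u1 * (pw m * (wsi ^ m)⁻¹) =
      wsi ^ m * (of Lab.u1 * wr ^ m * (of Lab.t1 * (wsi ^ m * wr ^ m)⁻¹)) := by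
      unfold pw; group
    rw [e1, e2]; exact this
  have h6 : R ((m * 1 + 1 + m * 1) * (m * 1 * 8 + 4)) (pw m * (wsi ^ m)⁻¹)
      ((wsi ^ m)⁻¹ * pw m) :=
    R_cm (com_BA (Wd_pw m) ((Wd.letter (Or.inl rfl)).pow m).inv)
  have h7 : R ((m * 1 + 1 + m * 1) * (m * 1 * 8 + 4) + 2 * (m * 1 + 1))
      (wsi ^ m * of Lab.u1 * (pw m * (wsi ^ m)⁻¹)) (Aw m * pw m) := by
    have := R_left h6 (((nt .si (by decide)).pow m).mul (nt .u1 (by decide)))
    have e1 : Aw m * pw m = wsi ^ m * of Lab.u1 * ((wsi ^ m)⁻¹ * pw m) := by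
      unfold Aw; group
    rw [e1]; exact this
  exact R_mono (R_trans (R_trans (R_trans (R_trans h1 h2) h3) h5) h7) (by nlinarith)

theorem R_zeta (m : ℕ) : R (600 * (m + 1) ^ 2) (zetaW m) (qw m) := by
  have hX := R_X m
  have h1 : R (200 * (m + 1) ^ 2) (zetaW m) (Aw m * pw m * of Lab.a * (Xw m)⁻¹) :=
    R_right (R_right hX _) _
  have hAp : Wd NT (m * 1 + 1 + m * 1 + (m * 1 + 1 + m * 1)) (Aw m * pw m) :=
    ((Wd_Aw m).mono SA_nt).mul ((Wd_pw m).mono SB_nt)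
  have h2 := R_left (R_inv hX hAp) (hAp.mul (nt .a (by decide)))
  have h3 : R ((m * 1 + 1 + m * 1 + 1 + (m * 1 + 1 + m * 1)) * ((m * 1 + 1 + m * 1) * 8 + 4))
      (Aw m * qw m) (qw m * Aw m) := R_cm (com_AB (Wd_Aw m) (Wd_qw m))
  have h4 := R_right h3 (Aw m)⁻¹
  have e1 : Aw m * pw m * of Lab.a * (Aw m * pw m)⁻¹ = Aw m * qw m * (Aw m)⁻¹ := by
    unfold qw; group
  have e2 : qw m * Aw m * (Aw m)⁻¹ = qw m := by group
  rw [e1] at h2
  rw [e2] at h4
  exact R_mono (R_trans (R_trans h1 h2) h4) (by nlinarith)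

theorem E_gamma (m : ℕ) : E (gammaW m) (1400 * (m + 1) ^ 2) := by
  have hz := R_zeta m
  have h1 := R_left hz (nt .z (by decide))
  have h2 : R ((m * 1 + 1 + m * 1 + 1 + (m * 1 + 1 + m * 1)) * (1 * 8 + 4))
      (of Lab.z * qw m) (qw m * of Lab.z) :=
    R_cm (com_AB (Wd.letter (Or.inr (Or.inr rfl))) (Wd_qw m))
  have h3 := R_right (R_symm hz) (of Lab.z)
  have h4 := R_trans (R_trans h1 h2) h3
  have e : of Lab.z * zetaW m * (zetaW m * of Lab.z)⁻¹ = gammaW m := by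
    unfold gammaW; group
  have h5 := R_mono (M := 1400 * (m + 1) ^ 2) h4 (by nlinarith)
  unfold R at h5
  rwa [e] at h5

/-- letters `s, w1, a, z` -/
abbrev SC : Lab → Prop := fun l => l = Lab.s ∨ l = Lab.w1 ∨ l = Lab.a ∨ l = Lab.z

theorem SC_nt : ∀ l, SC l → NT l := by
  rintro l (rfl | rfl | rfl | rfl) <;> decide

theorem SC_com : ∀ l, SC l → E (cm (of l) (of Lab.ta)) 4 := by
  rintro l (rfl | rfl | rfl | rfl) <;> exact E_cm_symm (E_com (by decide))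

theorem Wd_X (m : ℕ) : Wd SC (m * 1 + 1 + m * 1) (Xw m) :=
  (((Wd.letter (Or.inl rfl)).pow m).mul (Wd.letter (Or.inr (Or.inl rfl)))).mul
    ((Wd.letter (Or.inl rfl)).pow m).inv

theorem Wd_zeta (m : ℕ) :
    Wd SC ((m * 1 + 1 + m * 1) + 1 + (m * 1 + 1 + m * 1)) (zetaW m) :=
  ((Wd_X m).mul (Wd.letter (Or.inr (Or.inr (Or.inl rfl))))).mul (Wd_X m).inv

theorem Wd_gamma (m : ℕ) :
    Wd SC (1 + ((m * 1 + 1 + m * 1) + 1 + (m * 1 + 1 + m * 1)) + 1 +
      ((m * 1 + 1 + m * 1) + 1 + (m * 1 + 1 + m * 1))) (gammaW m) :=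
  (((Wd.letter (Or.inr (Or.inr (Or.inr rfl)))).mul (Wd_zeta m)).mul
    (Wd.iletter (Or.inr (Or.inr (Or.inr rfl))))).mul (Wd_zeta m).inv

theorem E_gamma_ta (m : ℕ) : E (cm (gammaW m) (of Lab.ta)) (64 * (m + 1)) :=
  E_mono (E_cm SC_nt SC_com (Wd_gamma m)) (by nlinarith)

end WordsX

/-- WORDS. -/
theorem words_proof : Stmt_Words := by
  refine ⟨1400, fun m => ⟨?_, ?_⟩⟩
  · obtain ⟨D, h1, h2, h3⟩ := WordsX.E_gamma m
    refine ⟨D, h1, h2, h3.trans ?_⟩
    have : (m + 1) ^ 2 ≤ (m + 1) ^ 3 := Nat.pow_le_pow_right (by omega) (by omega)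
    omega
  · obtain ⟨D, h1, h2, h3⟩ := WordsX.E_gamma_ta m
    refine ⟨D, h1, h2, h3.trans ?_⟩
    have : (m + 1) ^ 1 ≤ (m + 1) ^ 3 := Nat.pow_le_pow_right (by omega) (by omega)
    rw [pow_one] at this
    omega

end Pool.Agent.SD
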